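import Mathlib

/-!
# HRT at the roots of unity: definitions

Paper proof: `/team-store/HRT_paper.md`.
-/

open MeasureTheory Complex
open scoped ENNReal ComplexConjugate InnerProductSpace BigOperators

namespace Pool.Agent.Helper84.HRT

/-- Area measure divided by `π`. -/
noncomputable def dA : Measure ℂ := ENNReal.ofReal (1 / Real.pi) • (volume : Measure ℂ)

/-- `e^{-i Im (α conj β)}`. -/
noncomputable def coc (α β : ℂ) : ℂ := cexp (-(((α * conj β).im : ℝ) : ℂ) * I)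

/-- `χ_w(α) = e^{-2 i Im (α conj w)}`. -/
noncomputable def chi (w α : ℂ) : ℂ := cexp (-((2 * (α * conj w).im : ℝ) : ℂ) * I)

/-- The node `e^{2π i t}`. -/
noncomputable def node (t : ℝ) : ℂ := cexp ((2 * Real.pi * t : ℝ) * I)

/-- A Weyl system with a Gaussian vector and the resolution of the identity. -/
structure Weyl (H : Type) [NormedAddCommGroup H] [InnerProductSpace ℂ H] [CompleteSpace H] where
  /-- the Weyl unitaries -/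
  U : ℂ → H →L[ℂ] H
  /-- the Gaussian vector -/
  g0 : H
  norm_U : ∀ α f, ‖U α f‖ = ‖f‖
  U_zero : ∀ f, U 0 f = f
  U_mul : ∀ α β f, U α (U β f) = coc α β • U (α + β) f
  cont : ∀ f, Continuous fun α => U α f
  g0_inner : ∀ α, inner ℂ g0 (U α g0) = (Real.exp (-‖α‖ ^ 2 / 2) : ℂ)
  isom : ∀ f, ∫⁻ z, ‖inner ℂ (U (-z) g0) f‖ₑ ^ 2 ∂dA = ‖f‖ₑ ^ 2

section
variable {H : Type} [NormedAddCommGroup H] [InnerProductSpace ℂ H] [CompleteSpace H]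

/-- The coherent state transform. -/
noncomputable def Weyl.V (W : Weyl H) (f : H) (z : ℂ) : ℂ := inner ℂ (W.U (-z) W.g0) f

/-- `V^*`: the vector `v` with `⟪h, v⟫ = ∫ conj (V h) F` (used only when `F ∈ L²`). -/
noncomputable def Weyl.Vs (W : Weyl H) (F : ℂ → ℂ) : H :=
  Classical.epsilon fun v : H => ∀ h : H, inner ℂ h v = ∫ z, conj (W.V h z) * F z ∂dA

end

/-- The reproducing kernel. -/
noncomputable def Kk (z ζ : ℂ) : ℂ :=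
  cexp ((((z * conj ζ).im : ℝ) : ℂ) * I - ((‖z - ζ‖ ^ 2 / 2 : ℝ) : ℂ))

/-- The integral operator with kernel `Kk`. -/
noncomputable def Kop (F : ℂ → ℂ) (z : ℂ) : ℂ := ∫ ζ, Kk z ζ * F ζ ∂dA

/-- The action of the Weyl unitary `U α` on functions. -/
noncomputable def act (α : ℂ) (G : ℂ → ℂ) (z : ℂ) : ℂ :=
  cexp ((((α * conj z).im : ℝ) : ℂ) * I) * G (z + α)

/-- Squared weighted `L²` norm. -/
noncomputable def S2 (Ω : ℂ → ℝ) (F : ℂ → ℂ) : ℝ≥0∞ := ∫⁻ z, ‖((Ω z : ℝ) : ℂ) * F z‖ₑ ^ 2 ∂dA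

/-- The weight `(1+|z|/R)^{-4}`. -/
noncomputable def om (R : ℝ) (z : ℂ) : ℝ := ((1 + ‖z‖ / R) ^ 4)⁻¹

/-- The weight `(1+|z|/R)^{-3}`. -/
noncomputable def omm (R : ℝ) (z : ℂ) : ℝ := ((1 + ‖z‖ / R) ^ 3)⁻¹

/-- `G = K G` with at most polynomial growth (in the mean). (`om 4` and `om R`, `R ≥ 4`, are log-Lipschitz.) -/
structure Rep (G : ℂ → ℂ) : Prop where
  cont : Continuous G
  fin : S2 (om 4) G < ⊤
  rep : ∀ z, Kop G z = G z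

/-- `Ω` is a positive continuous weight with slope function `s`. -/
structure IsW (Ω s : ℂ → ℝ) : Prop where
  pos : ∀ z, 0 < Ω z
  cont : Continuous Ω
  s_nonneg : ∀ z, 0 ≤ s z
  s_le : ∀ z, s z ≤ 1
  s_cont : Continuous s
  slope : ∀ z ζ, |Ω z - Ω ζ| ≤ s ζ * Ω ζ * ‖z - ζ‖ * Real.exp ‖z - ζ‖

/-- log-Lipschitz weight (constant 1). -/
structure LogLip (Y : ℂ → ℝ) : Prop where
  pos : ∀ z, 0 < Y z
  le : ∀ z ζ, Y z ≤ Y ζ * Real.exp ‖z - ζ‖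

/-- The uniform measure on `{k/N : 0 ≤ k < N}`. -/
noncomputable def muN (N : ℕ) : Measure ℝ :=
  ∑ k ∈ Finset.range N, ENNReal.ofReal (1 / N) • Measure.dirac ((k : ℝ) / N)

/-- Lebesgue measure on `[0,1)`. -/
noncomputable def mu8 : Measure ℝ := volume.restrict (Set.Ico 0 1)

/-- Bounded measurable coefficient function. -/
structure Bd (μ : Measure ℝ) (M : ℝ) (ξ : ℝ → ℂ) : Prop where
  meas : Measurable ξ
  bd : ∀ᵐ t ∂μ, ‖ξ t‖ ≤ M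

/-- The discrete data of the problem. -/
structure Data where
  /-- number of base nodes -/
  m : ℕ
  /-- the base nodes are `node (τ i)` -/
  τ : Fin m → ℝ
  /-- base coefficients -/
  β : Fin m → ℂ
  /-- admissible base phases -/
  Γ : Set (Fin m → ℂ)
  /-- common denominator of the base nodes -/
  d0 : ℕ
  /-- the profile of the perturbation -/
  κ : ℝ → ℝ
  d0_pos : 0 < d0
  d0_even : Even d0
  τ_rat : ∀ i, ∃ k : ℕ, τ i = k / d0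
  τ_inj : ∀ i j, node (τ i) = node (τ j) → i = j
  Γ_compact : IsCompact Γ
  Γ_one : ∀ γ ∈ Γ, ∀ i, ‖γ i‖ = 1
  Γ_chi : ∀ γ ∈ Γ, ∀ w, (fun i => γ i * chi w (node (τ i))) ∈ Γ
  κ_meas : Measurable κ
  κ_nonneg : ∀ t, 0 ≤ κ t
  κ_le : ∀ t, κ t ≤ 1
  κ_per : ∀ t, κ (t + 1 / 2) = κ t
  /-- the bad set of `κ` -/
  κbad : Set ℝ
  κbad_fin : (κbad ∩ Set.Icc 0 1).Finite
  κbad_per : ∀ t, t + 1 / 2 ∈ κbad ↔ t ∈ κbad
  κ_cont : ∀ t, t ∉ κbad → ContinuousAt κ t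
  κ_pos : ∀ t, t ∉ κbad → 0 < κ t

/-- `N_n = n! d0`. -/
def Data.NN (D : Data) (n : ℕ) : ℕ := n.factorial * D.d0

/-- Admissible coefficient functions at `N = ∞`: measurable, `ξ(t+1/2) = conj ξ(t)`, `|ξ| ≤ r κ` (a.e.). -/
structure Data.Adm (D : Data) (r : ℝ) (ξ : ℝ → ℂ) : Prop where
  meas : Measurable ξ
  sym : ∀ᵐ t : ℝ, ξ (t + 1 / 2) = conj (ξ t)
  bd : ∀ᵐ t : ℝ, ‖ξ t‖ ≤ r * D.κ t

/-- The left end point of the cell of `t`. -/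
noncomputable def cell (N : ℕ) (t : ℝ) : ℝ := (⌊(N : ℝ) * t⌋ : ℝ) / N

/-- `κ_N`: infimum of `κ` over the closed interval of radius `1/N` around the left end point of the cell. -/
noncomputable def Data.κN (D : Data) (N : ℕ) (t : ℝ) : ℝ :=
  sInf (D.κ '' Set.Icc (cell N t - 1 / N) (cell N t + 1 / N))

/-- Admissible coefficient functions at level `N`: step functions on the cells `[k/N,(k+1)/N)`. -/
structure Data.AdmN (D : Data) (N : ℕ) (r : ℝ) (ξ : ℝ → ℂ) : Prop where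
  step : ∀ t, ξ (cell N t) = ξ t
  sym : ∀ t, ξ (t + 1 / 2) = conj (ξ t)
  bd : ∀ t, ‖ξ t‖ ≤ r * D.κN N t

section
variable {H : Type} [NormedAddCommGroup H] [InnerProductSpace ℂ H] [CompleteSpace H]

/-- The base operator. -/
noncomputable def Bop (W : Weyl H) (D : Data) (γ : Fin D.m → ℂ) : H →L[ℂ] H :=
  ∑ i, (D.β i * γ i) • W.U (node (D.τ i))

/-- The perturbation: the operator `f ↦ ∫ ξ(t) U(e^{2π i t}) f dμ(t)` (chosen; see `XL_apply`). -/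
noncomputable def XL (W : Weyl H) (μ : Measure ℝ) (ξ : ℝ → ℂ) : H →L[ℂ] H :=
  Classical.epsilon fun T : H →L[ℂ] H => ∀ f, T f = ∫ t, ξ t • W.U (node t) f ∂μ

/-- The full operator. -/
noncomputable def Aop (W : Weyl H) (D : Data) (μ : Measure ℝ) (γ : Fin D.m → ℂ) (ξ : ℝ → ℂ) :
    H →L[ℂ] H := Bop W D γ + XL W μ ξ

/-- Conjugation `T^w = U(w) T U(-w)`. -/
noncomputable def tr (W : Weyl H) (w : ℂ) (T : H →L[ℂ] H) : H →L[ℂ] H :=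
  (W.U w).comp (T.comp (W.U (-w)))

/-- `g` makes `0` a `δ`-centre of `T`. -/
structure IsCen (W : Weyl H) (R δ : ℝ) (T : H →L[ℂ] H) (g : H) : Prop where
  ne : g ≠ 0
  tight : S2 (omm R) (W.V g) ≤ ENNReal.ofReal 441 * S2 (om R) (W.V g)
  small : S2 (om R) (W.V (T g)) ≤ ENNReal.ofReal (δ ^ 2) * S2 (om R) (W.V g)

end

/-- The action of the base operator on functions. -/
noncomputable def actB (D : Data) (γ : Fin D.m → ℂ) (G : ℂ → ℂ) (z : ℂ) : ℂ :=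
  ∑ i, (D.β i * γ i) * act (node (D.τ i)) G z

/-- The action of the perturbation on functions. -/
noncomputable def actX (μ : Measure ℝ) (ξ : ℝ → ℂ) (G : ℂ → ℂ) (z : ℂ) : ℂ :=
  ∫ t, ξ t * act (node t) G z ∂μ

/-- The action of the full operator on functions. -/
noncomputable def actA (D : Data) (μ : Measure ℝ) (γ : Fin D.m → ℂ) (ξ : ℝ → ℂ) (G : ℂ → ℂ)
    (z : ℂ) : ℂ := actB D γ G z + actX μ ξ G z

/-- twist of the base phases -/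
noncomputable def Data.tw (D : Data) (w : ℂ) (γ : Fin D.m → ℂ) : Fin D.m → ℂ :=
  fun i => γ i * conj (chi w (node (D.τ i)))

/-- twist of the coefficient function at `N = ∞` -/
noncomputable def twx (w : ℂ) (ξ : ℝ → ℂ) : ℝ → ℂ := fun t => ξ t * conj (chi w (node t))

/-- twist of the coefficient function at level `N` (stays a step function) -/
noncomputable def twN (N : ℕ) (w : ℂ) (ξ : ℝ → ℂ) : ℝ → ℂ :=
  fun t => ξ t * conj (chi w (node (cell N t)))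

section
variable {H : Type} [NormedAddCommGroup H] [InnerProductSpace ℂ H] [CompleteSpace H]

/-- The ambiguity function of `ψ` on the unit circle. -/
noncomputable def mf (W : Weyl H) (ψ : H) (t : ℝ) : ℂ := inner ℂ ψ (W.U (node t) ψ)

/-- THEOREM B of the paper: what the explicit part has to provide. -/
structure Good (W : Weyl H) (D : Data) (rb r1 g c C : ℝ) : Prop where
  r1_pos : 0 < r1
  r1_lt : r1 < rb
  g_pos : 0 < g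
  c_pos : 0 < c
  C_pos : 0 < C
  sym : ∀ γ ∈ D.Γ, ∀ f h : H, inner ℂ (Bop W D γ f) h = inner ℂ f (Bop W D γ h)
  E0 : ∀ γ ∈ D.Γ, ∀ f : H, g * ‖f‖ ≤ ‖Bop W D γ f‖
  Tp : ∀ γ ∈ D.Γ, ∀ ξ, D.Adm rb ξ → ∀ f : H,
    (inner ℂ f (XL W mu8 ξ f) : ℂ).re ≤ -c * ‖f‖ ^ 2 + C * ‖Aop W D mu8 γ ξ f‖ ^ 2
  E3 : ∀ γ ∈ D.Γ, ∀ ξ, D.Adm rb ξ → ∀ f h : H, f ≠ 0 → Aop W D mu8 γ ξ f = 0 →
    Aop W D mu8 γ ξ h = 0 → ∃ a : ℂ, h = a • f
  E1 : ∃ γ ∈ D.Γ, ∃ ξ, D.Adm r1 ξ ∧ ∀ ε : ℝ, 0 < ε → ∃ f : H, ‖f‖ = 1 ∧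
    ‖Aop W D mu8 γ ξ f‖ < ε

/-- Everything the second half of the soft part (A4-A7) needs. -/
structure Fam (W : Weyl H) (D : Data) where
  /-- the gap of (E0) -/
  g : ℝ
  /-- the constant of (T+) for null vectors -/
  c : ℝ
  /-- the constant of (AI) -/
  k0 : ℝ
  /-- the touching radius `r_∞` -/
  r : ℝ
  /-- bound for all coefficients -/
  C0 : ℝ
  /-- the radius `R_c` of the weights -/
  R : ℝ
  /-- from this `n` on everything holds -/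
  n1 : ℕ
  /-- base phases of the touching operators -/
  γs : ℕ → Fin D.m → ℂ
  /-- coefficients of the touching operators -/
  ξs : ℕ → ℝ → ℂ
  /-- touching radii `r_N` -/
  rs : ℕ → ℝ
  g_pos : 0 < g
  c_pos : 0 < c
  k0_pos : 0 < k0
  r_pos : 0 < r
  C0_pos : 0 < C0
  R_ge : 4 ≤ R
  β_le : ∑ i, ‖D.β i‖ ≤ C0
  r_le : r ≤ C0
  sym : ∀ γ ∈ D.Γ, ∀ f h : H, inner ℂ (Bop W D γ f) h = inner ℂ f (Bop W D γ h)
  E0 : ∀ γ ∈ D.Γ, ∀ f : H, g * ‖f‖ ≤ ‖Bop W D γ f‖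
  null : ∀ γ ∈ D.Γ, ∀ ξ, D.Adm r ξ → ∀ f : H, Aop W D mu8 γ ξ f = 0 →
    (inner ℂ f (XL W mu8 ξ f) : ℂ).re ≤ -c * ‖f‖ ^ 2
  E3 : ∀ γ ∈ D.Γ, ∀ ξ, D.Adm r ξ → ∀ f h : H, f ≠ 0 → Aop W D mu8 γ ξ f = 0 →
    Aop W D mu8 γ ξ h = 0 → ∃ a : ℂ, h = a • f
  min : ∀ r' γ ξ, 0 ≤ r' → γ ∈ D.Γ → D.Adm r' ξ →
    (∃ f : H, f ≠ 0 ∧ Aop W D mu8 γ ξ f = 0) → r ≤ r'
  AI : ∀ γ ∈ D.Γ, ∀ ξ, D.Adm r ξ → ∀ u : H,
    -(‖Aop W D mu8 γ ξ u‖ ^ 2 / k0) ≤ (inner ℂ u (Aop W D mu8 γ ξ u) : ℂ).re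
  far : ∀ γ ∈ D.Γ, ∀ G, Rep G → S2 (om R) G < ⊤ →
    ENNReal.ofReal ((g / 2) ^ 2) * S2 (om R) G ≤ S2 (om R) (actB D γ G)
  γs_mem : ∀ n, n1 ≤ n → γs n ∈ D.Γ
  ξs_adm : ∀ n, n1 ≤ n → D.AdmN (D.NN n) (rs n) (ξs n)
  rs_nonneg : ∀ n, 0 ≤ rs n
  rs_le : ∀ n, rs n ≤ C0
  rs_lim : ∀ ε : ℝ, 0 < ε → ∃ n0, ∀ n, n0 ≤ n → rs n ≤ r + ε
  AIN : ∀ n, n1 ≤ n → ∀ γ ∈ D.Γ, ∀ ξ, D.AdmN (D.NN n) (rs n) ξ → ∀ u : H,
    -(‖Aop W D (muN (D.NN n)) γ ξ u‖ ^ 2 / k0) ≤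
      (inner ℂ u (Aop W D (muN (D.NN n)) γ ξ u) : ℂ).re
  sing : ∀ n, n1 ≤ n → ∀ ε : ℝ, 0 < ε → ∃ f : H, ‖f‖ = 1 ∧
    ‖Aop W D (muN (D.NN n)) (γs n) (ξs n) f‖ < ε

namespace Fam
variable {W : Weyl H} {D : Data}

/-- The touching operator `A_N`, `N = N_n`. -/
noncomputable def A (F : Fam W D) (n : ℕ) : H →L[ℂ] H :=
  Aop W D (muN (D.NN n)) (F.γs n) (F.ξs n)

/-- `w` is a `δ`-centre of `A_N` with vector `g` (the vector is already recentred at `0`). -/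
def Ctr (F : Fam W D) (n : ℕ) (δ : ℝ) (w : ℂ) (g : H) : Prop :=
  IsCen W F.R δ (tr W w (F.A n)) g

/-- Separation at precision `e`. -/
def SEP (F : Fam W D) (R0 : ℝ) (n : ℕ) (e : ℝ) : Prop :=
  ∀ w w' : ℂ, (∃ g, F.Ctr n e w g) → (∃ g, F.Ctr n e w' g) →
    ‖w - w'‖ ≤ R0 ∨ (e ^ 50)⁻¹ ≤ ‖w - w'‖

/-- An optimal triple. -/
structure Opt (F : Fam W D) (γ : Fin D.m → ℂ) (ξ : ℝ → ℂ) (ψ : H) : Prop where
  γ_mem : γ ∈ D.Γ
  adm : D.Adm F.r ξ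
  ne : ψ ≠ 0
  null : Aop W D mu8 γ ξ ψ = 0
  decay : ∃ σ : ℝ, 0 < σ ∧ S2 (fun z => Real.exp (σ * ‖z‖)) (W.V ψ) < ⊤
  fin : ({t : ℝ | mf W ψ t = 0} ∩ Set.Icc 0 1).Finite
  phase : ∀ᵐ t : ℝ, ξ t = -((F.r * D.κ t / ‖mf W ψ t‖ : ℝ) : ℂ) * conj (mf W ψ t)

/-- The conclusion of L11 (LIM) along a given sequence of centres. -/
structure Lim (F : Fam W D) (n : ℕ → ℕ) (w : ℕ → ℂ) (g : ℕ → H)
    (γ : Fin D.m → ℂ) (ξ : ℝ → ℂ) (ψ : H) : Prop where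
  opt : F.Opt γ ξ ψ
  base : Filter.Tendsto (fun j => D.tw (w j) (F.γs (n j))) Filter.atTop (nhds γ)
  coef : Filter.Tendsto (fun j => ∫⁻ t in Set.Ico (0 : ℝ) 1,
    ‖twN (D.NN (n j)) (w j) (F.ξs (n j)) t - ξ t‖ₑ ^ 2) Filter.atTop (nhds 0)
  vec : TendstoLocallyUniformly (fun j => W.V (g j)) (W.V ψ) Filter.atTop
  rad : Filter.Tendsto (fun j => F.rs (n j)) Filter.atTop (nhds F.r)
  one : S2 (om F.R) (W.V ψ) = 1
  tight : S2 (omm F.R) (W.V ψ) ≤ ENNReal.ofReal 441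

end Fam
end

end Pool.Agent.Helper84.HRT
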