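import Mathlib
import Pool.Agent.Helper84.HRT.Defs
import Pool.Agent.Helper79.HRT.Dio

/-!
# L14 (DIO): the diophantine lemma for characters at the nodes `k / N`
-/

open MeasureTheory Complex Filter
open scoped ENNReal ComplexConjugate InnerProductSpace BigOperators Topology

namespace Pool.Agent.Helper84.HRT

namespace L14aux

theorem chi_eq (w a : ℂ) : Pool.Agent.Helper79.HRT.chi w a = chi w a := by
  rw [Pool.Agent.Helper79.HRT.chi, Pool.Agent.Helper79.HRT.ph, chi]
  congr 1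
  push_cast
  ring

theorem nd_eq (N : ℕ) [NeZero N] (k : ℕ) :
    Pool.Agent.Helper79.HRT.nd N (k : ZMod N) = node ((k : ℝ) / N) := by
  have h := ZMod.stdAddChar_coe (N := N) (k : ℤ)
  rw [Pool.Agent.Helper79.HRT.nd, node]
  rw [Int.cast_natCast] at h
  rw [h]
  congr 1
  push_cast
  ring

theorem card_eq (N : ℕ) [NeZero N] (w : ℂ) (al : ℝ) :
    (Pool.Agent.Helper79.HRT.bad N w al).card =
      ((Finset.range N).filter fun k : ℕ => al < ‖chi w (node ((k : ℝ) / N)) - 1‖).card := by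
  symm
  refine Finset.card_bij' (fun k _ => (k : ZMod N)) (fun k _ => k.val) ?_ ?_ ?_ ?_
  · intro k hk
    rw [Finset.mem_filter] at hk
    rw [Pool.Agent.Helper79.HRT.mem_bad, nd_eq, chi_eq]
    exact hk.2
  · intro k hk
    rw [Pool.Agent.Helper79.HRT.mem_bad] at hk
    rw [Finset.mem_filter, Finset.mem_range]
    refine ⟨ZMod.val_lt k, ?_⟩
    rw [← nd_eq, ← chi_eq, ZMod.natCast_zmod_val]
    exact hk
  · intro k hk
    rw [Finset.mem_filter, Finset.mem_range] at hk
    exact ZMod.val_natCast_of_lt hk.1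
  · intro k _
    exact ZMod.natCast_zmod_val k

end L14aux

/-- L14. If `chi w` is within `al` of `1` at almost all the nodes then `|w| ≤ 2 al` or `w` is
very large. -/
theorem dio (N : ℕ) (hN : 7 ≤ N) (m : ℕ) (w : ℂ) (al : ℝ) (h0 : 0 ≤ al)
    (h1 : 2 ^ m * al ≤ 1 / 100)
    (hb : (((Finset.range N).filter fun k : ℕ => al < ‖chi w (node ((k : ℝ) / N)) - 1‖).card : ℝ) ≤
      N / (100 * 2 ^ m)) :
    ‖w‖ ≤ 2 * al ∨ (N / (2 * Real.pi)) ^ (m - 1) < 4 * ‖w‖ := by
  have : NeZero N := ⟨by omega⟩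
  rw [← L14aux.card_eq] at hb
  exact Pool.Agent.Helper79.HRT.dio N hN m w al h0 h1 hb

end Pool.Agent.Helper84.HRT
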