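import Mathlib
import Pool.Agent.Helper84.HRT.Defs
import Pool.Agent.Helper84.HRT.L14

/-!
# C4: characters which are near `1` in the mean at the nodes
-/

open MeasureTheory Complex Filter
open scoped ENNReal ComplexConjugate InnerProductSpace BigOperators Topology

namespace Pool.Agent.Helper84.HRT

theorem cell_eq_of_mem {N : ℕ} (hN : 0 < N) {k : ℕ} {t : ℝ}
    (ht : t ∈ Set.Ico ((k : ℝ) / N) (((k + 1 : ℕ) : ℝ) / N)) : cell N t = (k : ℝ) / N := by
  have hN' : (0 : ℝ) < N := by exact_mod_cast hN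
  have h1 : ⌊(N : ℝ) * t⌋ = (k : ℤ) := by
    rw [Int.floor_eq_iff]
    obtain ⟨h2, h3⟩ := ht
    rw [div_le_iff₀ hN'] at h2
    rw [lt_div_iff₀ hN'] at h3
    push_cast at h3 ⊢
    constructor
    · linarith
    · linarith
  rw [cell, h1]
  push_cast
  rfl

/-- The integral of a step function. -/
theorem lintegral_cell {N : ℕ} (hN : 0 < N) (f : ℝ → ℝ≥0∞) :
    ∫⁻ t in Set.Ico (0 : ℝ) 1, f (cell N t) =
      ∑ k ∈ Finset.range N, f ((k : ℝ) / N) * ENNReal.ofReal (1 / N) := by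
  have hN' : (0 : ℝ) < N := by exact_mod_cast hN
  have hU : Set.Ico (0 : ℝ) 1 =
      ⋃ k ∈ Finset.range N, Set.Ico ((k : ℝ) / N) (((k + 1 : ℕ) : ℝ) / N) := by
    ext t
    simp only [Set.mem_iUnion, Finset.mem_range, exists_prop, Set.mem_Ico]
    constructor
    · rintro ⟨h0, h1⟩
      refine ⟨⌊(N : ℝ) * t⌋₊, ?_, ?_, ?_⟩
      · rw [Nat.floor_lt (by positivity)]
        calc (N : ℝ) * t < N * 1 := by gcongr
          _ = N := mul_one _
      · rw [div_le_iff₀ hN']
        have := Nat.floor_le (show 0 ≤ (N : ℝ) * t by positivity)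
        linarith
      · rw [lt_div_iff₀ hN']
        have := Nat.lt_floor_add_one ((N : ℝ) * t)
        push_cast
        linarith
    · rintro ⟨k, hk, h1, h2⟩
      constructor
      · exact le_trans (by positivity) h1
      · refine lt_of_lt_of_le h2 ?_
        rw [div_le_one hN']
        exact_mod_cast hk
  have hd : Set.PairwiseDisjoint (↑(Finset.range N))
      (fun k : ℕ => Set.Ico ((k : ℝ) / N) (((k + 1 : ℕ) : ℝ) / N)) := by
    intro a _ b _ hab
    rw [Function.onFun, Set.disjoint_left]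
    intro t ht ht'
    have h1 := cell_eq_of_mem hN ht
    have h2 := cell_eq_of_mem hN ht'
    rw [h1] at h2
    apply hab
    have h3 := (div_left_inj' hN'.ne').1 h2
    exact_mod_cast h3
  rw [hU, lintegral_biUnion_finset hd (fun _ _ => measurableSet_Ico)]
  refine Finset.sum_congr rfl fun k _ => ?_
  rw [setLIntegral_congr_fun measurableSet_Ico
    (g := fun _ => f ((k : ℝ) / N)) (fun t ht => by rw [cell_eq_of_mem hN ht])]
  rw [setLIntegral_const, Real.volume_Ico]
  congr 2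
  push_cast
  ring

/-- Chebyshev at the nodes. -/
theorem card_bad_le {N : ℕ} (hN : 0 < N) (w : ℂ) (al η : ℝ) (hal : 0 < al) (hη : 0 ≤ η)
    (h : ∫⁻ t in Set.Ico (0 : ℝ) 1, ‖chi w (node (cell N t)) - 1‖ₑ ^ 2 ≤ ENNReal.ofReal η) :
    (((Finset.range N).filter fun k : ℕ => al < ‖chi w (node ((k : ℝ) / N)) - 1‖).card : ℝ) ≤
      N * (η / al ^ 2) := by
  have hN' : (0 : ℝ) < N := by exact_mod_cast hN
  rw [lintegral_cell hN (fun s => ‖chi w (node s) - 1‖ₑ ^ 2)] at h
  have h1 : ∑ k ∈ Finset.range N, ‖chi w (node ((k : ℝ) / N)) - 1‖ₑ ^ 2 *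
      ENNReal.ofReal (1 / N) =
      ENNReal.ofReal (∑ k ∈ Finset.range N, ‖chi w (node ((k : ℝ) / N)) - 1‖ ^ 2 * (1 / N)) := by
    rw [ENNReal.ofReal_sum_of_nonneg (fun _ _ => by positivity)]
    refine Finset.sum_congr rfl fun k _ => ?_
    rw [ENNReal.ofReal_mul (by positivity), ENNReal.ofReal_pow (norm_nonneg _), ofReal_norm]
  rw [h1, ENNReal.ofReal_le_ofReal_iff hη] at h
  have h2 : (((Finset.range N).filter fun k : ℕ =>
      al < ‖chi w (node ((k : ℝ) / N)) - 1‖).card : ℝ) * (al ^ 2 * (1 / N)) ≤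
      ∑ k ∈ Finset.range N, ‖chi w (node ((k : ℝ) / N)) - 1‖ ^ 2 * (1 / N) := by
    calc _ = ∑ k ∈ (Finset.range N).filter fun k : ℕ =>
          al < ‖chi w (node ((k : ℝ) / N)) - 1‖, al ^ 2 * (1 / (N : ℝ)) := by
          rw [Finset.sum_const, nsmul_eq_mul]
      _ ≤ ∑ k ∈ (Finset.range N).filter fun k : ℕ =>
          al < ‖chi w (node ((k : ℝ) / N)) - 1‖,
            ‖chi w (node ((k : ℝ) / N)) - 1‖ ^ 2 * (1 / N) := by
          refine Finset.sum_le_sum fun k hk => ?_
          have := (Finset.mem_filter.1 hk).2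
          gcongr
      _ ≤ _ := Finset.sum_le_sum_of_subset_of_nonneg (Finset.filter_subset _ _)
          (fun _ _ _ => by positivity)
  have h3 := h2.trans h
  have hal2 : 0 < al ^ 2 := by positivity
  rw [← mul_assoc, mul_one_div, div_le_iff₀ hN'] at h3
  rw [← mul_div_assoc, le_div_iff₀ hal2]
  linarith

/-- C4. If the characters `chi (w j)` converge to `1` in the mean at the nodes, then eventually
`w j` is small or larger than any power of `N j`. -/
theorem small_or_large (w : ℕ → ℂ) (N : ℕ → ℕ) (hN : Tendsto N atTop atTop)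
    (h : Tendsto (fun j => ∫⁻ t in Set.Ico (0 : ℝ) 1,
      ‖chi (w j) (node (cell (N j) t)) - 1‖ₑ ^ 2) atTop (𝓝 0)) (K : ℕ) (ε : ℝ) (hε : 0 < ε) :
    ∀ᶠ j in atTop, ‖w j‖ ≤ ε ∨ (N j : ℝ) ^ K ≤ ‖w j‖ := by
  set m : ℕ := K + 2 with hm
  set al : ℝ := min (ε / 2) (1 / (100 * 2 ^ m)) with hal
  have hal0 : 0 < al := lt_min (by positivity) (by positivity)
  have h1 : 2 ^ m * al ≤ 1 / 100 := by
    calc 2 ^ m * al ≤ 2 ^ m * (1 / (100 * 2 ^ m)) := by
          gcongr
          exact min_le_right _ _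
      _ = 1 / 100 := by field_simp
  set η : ℝ := al ^ 2 / (100 * 2 ^ m) with hη
  have hη0 : 0 < η := by positivity
  have hev : ∀ᶠ j in atTop, ∫⁻ t in Set.Ico (0 : ℝ) 1,
      ‖chi (w j) (node (cell (N j) t)) - 1‖ₑ ^ 2 ≤ ENNReal.ofReal η := by
    have := h.eventually (gt_mem_nhds (ENNReal.ofReal_pos.2 hη0))
    filter_upwards [this] with j hj
    exact hj.le
  obtain ⟨n0, hn0⟩ := exists_nat_ge (4 * (2 * Real.pi) ^ (K + 1))
  filter_upwards [hev, hN.eventually_ge_atTop (max 7 n0)] with j hj hNj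
  have hN7 : 7 ≤ N j := le_trans (le_max_left _ _) hNj
  have hNn : n0 ≤ N j := le_trans (le_max_right _ _) hNj
  have hNpos : 0 < N j := by omega
  have hN' : (0 : ℝ) < N j := by exact_mod_cast hNpos
  have hb := card_bad_le hNpos (w j) al η hal0 hη0.le hj
  have e1 : (N j : ℝ) * (η / al ^ 2) = N j / (100 * 2 ^ m) := by
    rw [hη]
    field_simp
  rw [e1] at hb
  rcases dio (N j) hN7 m (w j) al hal0.le h1 hb with h2 | h2
  · left
    have : al ≤ ε / 2 := min_le_left _ _
    linarith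
  · right
    have e2 : m - 1 = K + 1 := by omega
    rw [e2, div_pow, div_lt_iff₀ (by positivity)] at h2
    have h3 : (4 * (2 * Real.pi) ^ (K + 1) : ℝ) ≤ N j := by
      refine hn0.trans ?_
      exact_mod_cast hNn
    have h4 : (N j : ℝ) ^ K * N j = (N j : ℝ) ^ (K + 1) := by rw [pow_succ]
    have h5 : ‖w j‖ * (4 * (2 * Real.pi) ^ (K + 1)) ≤ ‖w j‖ * N j := by gcongr
    have h6 : (N j : ℝ) ^ K * N j ≤ ‖w j‖ * N j := by
      rw [h4]
      linarith
    exact le_of_mul_le_mul_right h6 hN'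

end Pool.Agent.Helper84.HRT
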