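import Mathlib
import Pool.Agent.Helper84.HRT.Defs

open MeasureTheory Complex Filter
open scoped ENNReal ComplexConjugate InnerProductSpace BigOperators Topology

namespace Pool.Agent.Helper84.HRT

variable {H : Type} [NormedAddCommGroup H] [InnerProductSpace ℂ H] [CompleteSpace H]

/-! Auxiliary definitions of the soft part (A2-A4). -/

/-- the mass of the recentred vectors over a set of centres -/
noncomputable def mass (W : Weyl H) (R : ℝ) (v : H) (E : Set ℂ) : ℝ≥0∞ :=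
  ∫⁻ w in E, S2 (om R) (W.V (W.U w v)) ∂dA

/-- the weight `Ω_w(z) = exp(-√(1+|z-w|²)/ρ)` -/
noncomputable def Omw (ρ : ℝ) (w z : ℂ) : ℝ := Real.exp (-(Real.sqrt (1 + ‖z - w‖ ^ 2)) / ρ)

/-- the localised vector `v_w = T_{Ω_w} v` -/
noncomputable def vw (W : Weyl H) (ρ : ℝ) (v : H) (w : ℂ) : H :=
  W.Vs fun z => ((Omw ρ w z : ℝ) : ℂ) * W.V v z

/-- `n_ρ = ∫ Ω_0² dA` -/
noncomputable def nrho (ρ : ℝ) : ℝ := ∫ z, Omw ρ 0 z ^ 2 ∂dA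

/-- bounded below -/
def BB (T : H →L[ℂ] H) : Prop := ∃ m : ℝ, 0 < m ∧ ∀ u : H, m * ‖u‖ ≤ ‖T u‖

/-- the touching radius at level `n` -/
noncomputable def rN (W : Weyl H) (D : Data) (rb : ℝ) (n : ℕ) : ℝ :=
  sSup {r : ℝ | 0 ≤ r ∧ r ≤ rb ∧ ∀ γ ∈ D.Γ, ∀ ξ, D.AdmN (D.NN n) r ξ →
    BB (Aop W D (muN (D.NN n)) γ ξ)}

/-- the touching radius at `N = ∞` -/
noncomputable def rinf (W : Weyl H) (D : Data) : ℝ :=
  sInf {r : ℝ | 0 ≤ r ∧ ∃ γ ∈ D.Γ, ∃ ξ, D.Adm r ξ ∧ ¬ BB (Aop W D mu8 γ ξ)}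

/-- The Weyl operator of the Fock space, as in the problem file. -/
noncomputable def fockU (α : ℂ) (f : ℂ → ℂ) (z : ℂ) : ℂ :=
  cexp (-((‖α‖ ^ 2 / 2 : ℝ) : ℂ) - conj α * z) * f (z + α)

end Pool.Agent.Helper84.HRT
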