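import Mathlib
import Pool.Agent.Helper84.HRT.Defs
import Pool.Agent.Helper79.HRT.Rigid
import Pool.Agent.Helper84.HRT.L14

/-!
# L13 (RIGIDITY) and the prime coset lemmas
-/

open MeasureTheory Complex Filter
open scoped ENNReal ComplexConjugate InnerProductSpace BigOperators Topology

namespace Pool.Agent.Helper84.HRT

/-- The points of the finite set `Z` modulo `1`. -/
def badSet (Z : Finset ℝ) : Set ℝ := {t | ∃ z ∈ Z, ∃ k : ℤ, t = z + k}

namespace L13aux

theorem badSet_eq (Z : Finset ℝ) : Pool.Agent.Helper79.HRT.badSet Z = badSet Z := rfl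

theorem node_eq (t : ℝ) : Pool.Agent.Helper79.HRT.node t = node t := by
  rw [Pool.Agent.Helper79.HRT.node, node]
  congr 1
  push_cast
  ring

end L13aux

theorem badSet_countable (Z : Finset ℝ) : (badSet Z).Countable :=
  Pool.Agent.Helper79.HRT.badSet_countable Z

theorem badSet_closed (Z : Finset ℝ) : IsClosed (badSet Z) :=
  Pool.Agent.Helper79.HRT.badSet_closed Z

theorem badSet_null (Z : Finset ℝ) : ∀ᵐ t : ℝ, t ∉ badSet Z :=
  Pool.Agent.Helper79.HRT.badSet_null Z

/-- For every point there are arbitrarily large primes `p` such that the other points of the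
coset of `(1/p)ℤ` are good. -/
theorem exists_good_prime (Z : Finset ℝ) (t : ℝ) (n0 : ℕ) :
    ∃ p : ℕ, p.Prime ∧ n0 < p ∧ ∀ i : ℕ, 1 ≤ i → i < p → t + i / p ∉ badSet Z :=
  Pool.Agent.Helper79.HRT.exists_good_prime Z t n0

/-- Only the Fourier modes `0`, `1`, `-1` survive. -/
theorem three_modes (φ : ℝ → ℝ) (hc : Continuous φ) (hper : Function.Periodic φ 1)
    (hp : ∀ p : ℕ, p.Prime → ∃ C : ℝ, ∀ t, ∑ i ∈ Finset.range p, φ (t + i / p) = C) :
    ∃ c a b : ℝ, ∀ t, φ t = c + a * Real.cos (2 * Real.pi * t) +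
      b * Real.sin (2 * Real.pi * t) :=
  Pool.Agent.Helper79.HRT.three_modes φ hc hper hp

/-- The end of L20.7: a continuous function of period `1` with vanishing prime coset sums and
vanishing first Fourier mode is zero. -/
theorem eq_zero_of_modes (φ : ℝ → ℝ) (hc : Continuous φ) (hper : Function.Periodic φ 1)
    (hp : ∀ p : ℕ, p.Prime → ∀ t, ∑ i ∈ Finset.range p, φ (t + i / p) = 0)
    (h1 : ∫ t in (0 : ℝ)..1, (φ t : ℂ) * Complex.exp (-(2 * Real.pi * t * Complex.I)) = 0) :
    ∀ t, φ t = 0 :=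
  Pool.Agent.Helper79.HRT.eq_zero_of_modes φ hc hper hp h1

/-- L13. Rigidity: a function of modulus `1` which is continuous off a finite set modulo `1` and
has trivial prime coset products is a character. -/
theorem rigidity (Z : Finset ℝ) (ze : ℝ → ℂ)
    (hcont : ∀ t, t ∉ badSet Z → ContinuousAt ze t)
    (hnorm : ∀ᵐ t : ℝ, ‖ze t‖ = 1)
    (hprod : ∀ p : ℕ, p.Prime → ∀ᵐ t : ℝ, ∏ i ∈ Finset.range p, ze (t + i / p) = 1) :
    ∃ τ : ℂ, (∀ t, t ∉ badSet Z → ze t = chi τ (node t)) ∧ ∀ᵐ t : ℝ, ze t = chi τ (node t) := by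
  obtain ⟨τ, hτ⟩ := Pool.Agent.Helper79.HRT.rigidity Z ze hcont hnorm hprod
  have h : ∀ t, t ∉ badSet Z → ze t = chi τ (node t) := by
    intro t ht
    rw [hτ t ht, L14aux.chi_eq, L13aux.node_eq]
  refine ⟨τ, h, ?_⟩
  filter_upwards [badSet_null Z] with t ht
  exact h t ht

end Pool.Agent.Helper84.HRT
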