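import Mathlib
import Pool.Agent.Helper84.HRT.DefsA

open MeasureTheory Complex Filter
open scoped ENNReal ComplexConjugate InnerProductSpace BigOperators Topology

namespace Pool.Agent.Helper84.HRT

variable {H : Type} [NormedAddCommGroup H] [InnerProductSpace ℂ H] [CompleteSpace H]

theorem wa_exp_lip (a b : ℝ) : ‖cexp ((a : ℂ) * I) - cexp ((b : ℂ) * I)‖ ≤ |a - b| := by
  have h1 : cexp ((a : ℂ) * I) - cexp ((b : ℂ) * I) =
      cexp ((b : ℂ) * I) * (cexp (I * ((a - b : ℝ) : ℂ)) - 1) := by
    rw [mul_sub, mul_one, ← Complex.exp_add]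
    congr 2
    push_cast
    ring
  rw [h1, norm_mul, Complex.norm_exp_ofReal_mul_I, one_mul]
  exact Real.norm_exp_I_mul_ofReal_sub_one_le

theorem node_norm (t : ℝ) : ‖node t‖ = 1 := Complex.norm_exp_ofReal_mul_I _

theorem node_add (s t : ℝ) : node (s + t) = node s * node t := by
  unfold node
  rw [← Complex.exp_add]
  congr 1
  push_cast
  ring

theorem node_add_half (t : ℝ) : node (t + 1 / 2) = -node t := by
  have h : node (1 / 2) = -1 := by
    unfold node
    have : ((2 * Real.pi * (1 / 2) : ℝ) : ℂ) * I = (Real.pi : ℂ) * I := by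
      push_cast
      ring
    rw [this, Complex.exp_pi_mul_I]
  rw [node_add, h]
  ring

theorem node_add_one (t : ℝ) : node (t + 1) = node t := by
  have h : t + 1 = (t + 1 / 2) + 1 / 2 := by ring
  rw [h, node_add_half, node_add_half, neg_neg]

theorem node_lip (s t : ℝ) : ‖node s - node t‖ ≤ 2 * Real.pi * |s - t| := by
  refine (wa_exp_lip _ _).trans (le_of_eq ?_)
  rw [← mul_sub, abs_mul, abs_of_pos Real.two_pi_pos]

theorem node_cont : Continuous node := by
  unfold node
  fun_prop

theorem node_coset_sum (p : ℕ) (hp : 2 ≤ p) (t : ℝ) :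
    ∑ i ∈ Finset.range p, node (t + i / p) = 0 := by
  have h1 := (Complex.isPrimitiveRoot_exp p (by omega)).geom_sum_eq_zero (by omega)
  have h2 : ∀ i ∈ Finset.range p,
      node (t + i / p) = node t * cexp (2 * Real.pi * I / p) ^ i := by
    intro i _
    rw [node_add]
    congr 1
    unfold node
    rw [← Complex.exp_nat_mul]
    congr 1
    push_cast
    ring
  rw [Finset.sum_congr rfl h2, ← Finset.mul_sum, h1, mul_zero]

theorem coc_norm (α β : ℂ) : ‖coc α β‖ = 1 := by
  have h := Complex.norm_exp_ofReal_mul_I (-(α * conj β).im)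
  unfold coc
  rwa [Complex.ofReal_neg] at h

theorem chi_norm (w α : ℂ) : ‖chi w α‖ = 1 := by
  have h := Complex.norm_exp_ofReal_mul_I (-(2 * (α * conj w).im))
  unfold chi
  rwa [Complex.ofReal_neg] at h

theorem chi_zero_left (α : ℂ) : chi 0 α = 1 := by simp [chi]

theorem chi_zero_right (w : ℂ) : chi w 0 = 1 := by simp [chi]

theorem chi_add_right (w α β : ℂ) : chi w (α + β) = chi w α * chi w β := by
  rw [chi, chi, chi, ← Complex.exp_add]
  congr 1
  simp only [add_mul, Complex.add_im]
  push_cast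
  ring

theorem chi_add_left (w w' α : ℂ) : chi (w + w') α = chi w α * chi w' α := by
  rw [chi, chi, chi, ← Complex.exp_add]
  congr 1
  simp only [map_add, mul_add, Complex.add_im]
  push_cast
  ring

theorem wa_conj (w α : ℂ) : conj (chi w α) = (chi w α)⁻¹ :=
  (Complex.inv_eq_conj (chi_norm w α)).symm

theorem chi_neg_right (w α : ℂ) : chi w (-α) = conj (chi w α) := by
  rw [wa_conj]
  refine eq_inv_of_mul_eq_one_left ?_
  rw [← chi_add_right, neg_add_cancel, chi_zero_right]

theorem chi_neg_left (w α : ℂ) : chi (-w) α = conj (chi w α) := by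
  rw [wa_conj]
  refine eq_inv_of_mul_eq_one_left ?_
  rw [← chi_add_left, neg_add_cancel, chi_zero_left]

theorem chi_cont : Continuous fun p : ℂ × ℂ => chi p.1 p.2 := by
  unfold chi
  fun_prop

theorem wa_chi_lip (w w' α β : ℂ) :
    ‖chi w α - chi w' β‖ ≤ 2 * |(α * conj w).im - (β * conj w').im| := by
  have h := wa_exp_lip (-(2 * (α * conj w).im)) (-(2 * (β * conj w').im))
  rw [Complex.ofReal_neg, Complex.ofReal_neg] at h
  refine h.trans (le_of_eq ?_)
  rw [neg_sub_neg, ← mul_sub, abs_mul, abs_two, abs_sub_comm]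

theorem chi_lip (w w' α : ℂ) : ‖chi w α - chi w' α‖ ≤ 2 * ‖w - w'‖ * ‖α‖ := by
  refine (wa_chi_lip w w' α α).trans ?_
  rw [mul_assoc]
  refine mul_le_mul_of_nonneg_left ?_ zero_le_two
  rw [← Complex.sub_im, ← mul_sub, ← map_sub]
  refine (Complex.abs_im_le_norm _).trans (le_of_eq ?_)
  rw [norm_mul, RCLike.norm_conj, mul_comm]

theorem chi_lip_right (w α β : ℂ) : ‖chi w α - chi w β‖ ≤ 2 * ‖w‖ * ‖α - β‖ := by
  refine (wa_chi_lip w w α β).trans ?_
  rw [mul_assoc]
  refine mul_le_mul_of_nonneg_left ?_ zero_le_two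
  rw [← Complex.sub_im, ← sub_mul]
  refine (Complex.abs_im_le_norm _).trans (le_of_eq ?_)
  rw [norm_mul, RCLike.norm_conj, mul_comm]

theorem wa_chi_sum (w : ℂ) (s : Finset ℕ) (f : ℕ → ℂ) :
    chi w (∑ i ∈ s, f i) = ∏ i ∈ s, chi w (f i) := by
  classical
  induction s using Finset.induction_on with
  | empty => simp [chi_zero_right]
  | insert a s ha ih => rw [Finset.sum_insert ha, Finset.prod_insert ha, chi_add_right, ih]

theorem chi_node_coset (w : ℂ) (p : ℕ) (hp : 2 ≤ p) (t : ℝ) :
    ∏ i ∈ Finset.range p, chi w (node (t + i / p)) = 1 := by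
  rw [← wa_chi_sum w (Finset.range p) fun i => node (t + i / p), node_coset_sum p hp t,
    chi_zero_right]

theorem chi_node_half (w : ℂ) (t : ℝ) : chi w (node (t + 1 / 2)) = conj (chi w (node t)) := by
  rw [node_add_half, chi_neg_right]

end Pool.Agent.Helper84.HRT
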