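import Mathlib
import Pool.Agent.Helper84.HRT.DefsA

open MeasureTheory Complex Filter
open scoped ENNReal ComplexConjugate InnerProductSpace BigOperators Topology

namespace Pool.Agent.Helper84.HRT

variable {H : Type} [NormedAddCommGroup H] [InnerProductSpace ℂ H] [CompleteSpace H]

theorem cell_le {N : ℕ} (hN : 0 < N) (t : ℝ) : cell N t ≤ t := by
  have hN' : (0 : ℝ) < N := by exact_mod_cast hN
  rw [cell, div_le_iff₀ hN']
  have := Int.floor_le ((N : ℝ) * t)
  linarith

theorem lt_cell_add {N : ℕ} (hN : 0 < N) (t : ℝ) : t < cell N t + 1 / N := by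
  have hN' : (0 : ℝ) < N := by exact_mod_cast hN
  rw [cell, ← add_div, lt_div_iff₀ hN']
  have := Int.lt_floor_add_one ((N : ℝ) * t)
  linarith

theorem wc_floor {N : ℕ} (hN : 0 < N) (k : ℤ) : cell N ((k : ℝ) / N) = (k : ℝ) / N := by
  have hN' : (N : ℝ) ≠ 0 := by exact_mod_cast hN.ne'
  rw [cell, mul_div_cancel₀ _ hN', Int.floor_intCast]

theorem cell_cell {N : ℕ} (hN : 0 < N) (t : ℝ) : cell N (cell N t) = cell N t := by
  conv_lhs => rw [cell.eq_1 N t]
  rw [wc_floor hN]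
  rfl

theorem cell_add {N p : ℕ} (hN : 0 < N) (hp : 0 < p) (h : p ∣ N) (i : ℤ) (t : ℝ) :
    cell N (t + i / p) = cell N t + i / p := by
  obtain ⟨q, rfl⟩ := h
  have hp' : (p : ℝ) ≠ 0 := by exact_mod_cast hp.ne'
  have hq : 0 < q := Nat.pos_of_mul_pos_left hN
  have hq' : (q : ℝ) ≠ 0 := by exact_mod_cast hq.ne'
  have h1 : ((p * q : ℕ) : ℝ) * (t + i / p) = ((p * q : ℕ) : ℝ) * t + ((i * q : ℤ) : ℝ) := by
    push_cast
    field_simp
  rw [cell, cell, h1, Int.floor_add_intCast]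
  push_cast
  field_simp

theorem cell_grid {N : ℕ} (hN : 0 < N) (k : ℤ) : cell N ((k : ℝ) / N) = (k : ℝ) / N :=
  wc_floor hN k

theorem cell_meas (N : ℕ) : Measurable (cell N) := by
  have h1 : Measurable fun t : ℝ => ⌊(N : ℝ) * t⌋ := Int.measurable_floor.comp (by fun_prop)
  have h2 : Measurable fun k : ℤ => (k : ℝ) / N := measurable_from_top
  exact h2.comp h1

theorem step_meas {E : Type} [TopologicalSpace E] [MeasurableSpace E] {N : ℕ} (h : ℝ → E)
    (hs : ∀ t, h (cell N t) = h t) : Measurable h := by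
  have h1 : Measurable fun t : ℝ => ⌊(N : ℝ) * t⌋ := Int.measurable_floor.comp (by fun_prop)
  have h2 : Measurable fun k : ℤ => h ((k : ℝ) / N) := measurable_from_top
  have h3 : h = (fun k : ℤ => h ((k : ℝ) / N)) ∘ fun t : ℝ => ⌊(N : ℝ) * t⌋ := by
    funext t
    rw [← hs t]
    rfl
  rw [h3]
  exact h2.comp h1

end Pool.Agent.Helper84.HRT
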