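import Mathlib
import Pool.Agent.Helper84.HRT.DefsA
import Pool.Agent.Helper84.HRT.WA
import Pool.Agent.Helper84.HRT.WC
import Pool.Agent.Helper84.HRT.L13
import Pool.Agent.Helper84.HRT.L14
import Pool.Agent.Helper79.HRT.Coset

/-!
# C5: the pair lemma for two limits along the same sequence
-/

open MeasureTheory Complex Filter
open scoped ENNReal ComplexConjugate InnerProductSpace BigOperators Topology

namespace Pool.Agent.Helper84.HRT

namespace C5aux

/-- The mean is small if the mean square is small. -/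
theorem lintegral_of_sq {α : Type} [MeasurableSpace α] (μ : Measure α) (hμ : μ Set.univ ≤ 1)
    (f : ℕ → α → ℝ≥0∞) (h : Tendsto (fun j => ∫⁻ x, f j x ^ 2 ∂μ) atTop (𝓝 0)) :
    Tendsto (fun j => ∫⁻ x, f j x ∂μ) atTop (𝓝 0) := by
  rw [ENNReal.tendsto_nhds_zero]
  intro ε hε
  rcases eq_or_ne ε ⊤ with rfl | hε'
  · exact Eventually.of_forall fun _ => le_top
  have hδ : ε / 2 ≠ 0 := (ENNReal.half_pos hε.ne').ne'
  have hδ' : ε / 2 ≠ ⊤ := (ENNReal.div_lt_top hε' two_ne_zero).ne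
  have h1 : ∀ᶠ j in atTop, ∫⁻ x, f j x ^ 2 ∂μ ≤ (ε / 2) * (ε / 2) := by
    have h2 := (ENNReal.tendsto_nhds_zero.1 h) ((ε / 2) * (ε / 2))
      (pos_iff_ne_zero.2 (mul_ne_zero hδ hδ))
    exact h2
  filter_upwards [h1] with j hj
  have h3 : ∀ x, f j x ≤ ε / 2 + (ε / 2)⁻¹ * f j x ^ 2 := by
    intro x
    rcases le_total (f j x) (ε / 2) with h4 | h4
    · exact h4.trans le_self_add
    · calc f j x = (ε / 2)⁻¹ * (ε / 2) * f j x := by
            rw [ENNReal.inv_mul_cancel hδ hδ', one_mul]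
        _ ≤ (ε / 2)⁻¹ * f j x * f j x := by gcongr
        _ = (ε / 2)⁻¹ * f j x ^ 2 := by rw [pow_two, mul_assoc]
        _ ≤ _ := le_add_self
  calc ∫⁻ x, f j x ∂μ ≤ ∫⁻ x, (ε / 2 + (ε / 2)⁻¹ * f j x ^ 2) ∂μ := lintegral_mono h3
    _ = ε / 2 * μ Set.univ + (ε / 2)⁻¹ * ∫⁻ x, f j x ^ 2 ∂μ := by
        rw [lintegral_add_left measurable_const, lintegral_const,
          lintegral_const_mul' _ _ (ENNReal.inv_ne_top.2 hδ)]
    _ ≤ ε / 2 * 1 + (ε / 2)⁻¹ * ((ε / 2) * (ε / 2)) := by gcongr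
    _ = ε / 2 + ε / 2 := by
        rw [mul_one, ← mul_assoc, ENNReal.inv_mul_cancel hδ hδ', one_mul]
    _ = ε := ENNReal.add_halves ε

/-- Removal of a weight which is positive almost everywhere. -/
theorem remove_weight {α : Type} [MeasurableSpace α] (μ : Measure α) (hμ : μ Set.univ ≤ 1)
    (h : α → ℝ≥0∞) (hm : Measurable h) (h0 : ∀ᵐ x ∂μ, h x ≠ 0) (C : ℝ≥0∞) (hC : C ≠ ⊤)
    (F : ℕ → α → ℝ≥0∞) (hF : ∀ j x, F j x ≤ C)
    (hlim : Tendsto (fun j => ∫⁻ x, h x * F j x ∂μ) atTop (𝓝 0)) :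
    Tendsto (fun j => ∫⁻ x, F j x ∂μ) atTop (𝓝 0) := by
  rw [ENNReal.tendsto_nhds_zero]
  intro ε hε
  rcases eq_or_ne ε ⊤ with rfl | hε'
  · exact Eventually.of_forall fun _ => le_top
  have hδ : ε / 2 ≠ 0 := (ENNReal.half_pos hε.ne').ne'
  -- the sets where the weight is small
  set A : ℕ → Set α := fun k => {x | h x < ((k : ℝ≥0∞) + 1)⁻¹} with hA
  have hAm : ∀ k, MeasurableSet (A k) := fun k => hm measurableSet_Iio
  have hAanti : Antitone A := by
    intro k l hkl x hx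
    refine lt_of_lt_of_le hx (ENNReal.inv_le_inv.2 ?_)
    gcongr
  have hAlim : Tendsto (fun k => μ (A k)) atTop (𝓝 (μ (⋂ k, A k))) := by
    refine tendsto_measure_iInter_atTop (fun k => (hAm k).nullMeasurableSet) hAanti ?_
    exact ⟨0, (lt_of_le_of_lt (measure_mono (Set.subset_univ _))
      (lt_of_le_of_lt hμ ENNReal.one_lt_top)).ne⟩
  have hA0 : μ (⋂ k, A k) = 0 := by
    refine measure_mono_null ?_ h0
    intro x hx
    rw [Set.mem_iInter] at hx
    change ¬ (h x ≠ 0)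
    rw [not_not]
    by_contra hne
    obtain ⟨k, hk⟩ := ENNReal.exists_inv_nat_lt hne
    have h1 : h x < ((k : ℝ≥0∞) + 1)⁻¹ := hx k
    have h2 : ((k : ℝ≥0∞) + 1)⁻¹ ≤ (k : ℝ≥0∞)⁻¹ := ENNReal.inv_le_inv.2 le_self_add
    exact absurd (h1.trans_le h2) (not_lt.2 hk.le)
  rw [hA0] at hAlim
  have h1 : Tendsto (fun k => C * μ (A k)) atTop (𝓝 0) := by
    have := ENNReal.Tendsto.const_mul hAlim (Or.inr hC)
    rwa [mul_zero] at this
  obtain ⟨k, hk⟩ := ((ENNReal.tendsto_nhds_zero.1 h1) (ε / 2) (pos_iff_ne_zero.2 hδ)).exists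
  set c : ℝ≥0∞ := ((k : ℝ≥0∞) + 1) with hc
  have hc0 : c ≠ 0 := by rw [hc]; positivity
  have hct : c ≠ ⊤ := by
    rw [hc]
    exact ENNReal.add_ne_top.2 ⟨ENNReal.natCast_ne_top k, ENNReal.one_ne_top⟩
  have h2 : Tendsto (fun j => c * ∫⁻ x, h x * F j x ∂μ) atTop (𝓝 0) := by
    have := ENNReal.Tendsto.const_mul hlim (Or.inr hct)
    rwa [mul_zero] at this
  filter_upwards [(ENNReal.tendsto_nhds_zero.1 h2) (ε / 2) (pos_iff_ne_zero.2 hδ)] with j hj
  have h3 : ∀ x, F j x ≤ (A k).indicator (fun _ => C) x + c * (h x * F j x) := by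
    intro x
    by_cases hx : x ∈ A k
    · rw [Set.indicator_of_mem hx]
      exact (hF j x).trans le_self_add
    · rw [Set.indicator_of_notMem hx, zero_add]
      have h4 : c⁻¹ ≤ h x := not_lt.1 hx
      calc F j x = c * c⁻¹ * F j x := by rw [ENNReal.mul_inv_cancel hc0 hct, one_mul]
        _ ≤ c * h x * F j x := by gcongr
        _ = _ := mul_assoc _ _ _
  calc ∫⁻ x, F j x ∂μ ≤ ∫⁻ x, ((A k).indicator (fun _ => C) x + c * (h x * F j x)) ∂μ :=
        lintegral_mono h3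
    _ = C * μ (A k) + c * ∫⁻ x, h x * F j x ∂μ := by
        rw [lintegral_add_left (measurable_const.indicator (hAm k)),
          lintegral_indicator (hAm k), setLIntegral_const, lintegral_const_mul' _ _ hct]
    _ ≤ ε / 2 + ε / 2 := add_le_add hk hj
    _ = ε := ENNReal.add_halves ε

/-- Integrals of periodic functions are invariant under translations. -/
theorem lintegral_shift (F : ℝ → ℝ≥0∞) (hper : Function.Periodic F 1) (a : ℝ) :
    ∫⁻ t in Set.Ico (0 : ℝ) 1, F (t + a) = ∫⁻ t in Set.Ico (0 : ℝ) 1, F t := by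
  have h1 : ∀ b : ℝ, ∫⁻ t in Set.Ioc b (b + 1), F t = ∫⁻ x : UnitAddCircle, hper.lift x := by
    intro b
    rw [← UnitAddCircle.lintegral_preimage b]
    rfl
  have h2 : ∫⁻ t in Set.Ico (0 : ℝ) 1, F (t + a) = ∫⁻ t in Set.Ioc a (a + 1), F t := by
    rw [setLIntegral_congr Ico_ae_eq_Ioc]
    have h3 : Set.Ioc (0 : ℝ) 1 = (fun t => t + a) ⁻¹' Set.Ioc a (a + 1) := by
      ext t
      simp only [Set.mem_Ioc, Set.mem_preimage]
      constructor
      · rintro ⟨h4, h5⟩
        exact ⟨by linarith, by linarith⟩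
      · rintro ⟨h4, h5⟩
        exact ⟨by linarith, by linarith⟩
    rw [h3]
    exact (measurePreserving_add_right volume a).setLIntegral_comp_preimage_emb
      (measurableEmbedding_addRight a) F _
  have h3 := h1 0
  rw [zero_add] at h3
  rw [h2, h1 a, ← h3, setLIntegral_congr Ico_ae_eq_Ioc]

/-- A periodic property which holds almost everywhere on `[0,1)` holds almost everywhere. -/
theorem ae_of_periodic (P : ℝ → Prop) (hper : ∀ t, P (t + 1) ↔ P t)
    (h : ∀ᵐ t ∂(volume.restrict (Set.Ico (0 : ℝ) 1)), P t) : ∀ᵐ t : ℝ, P t := by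
  have hper' : ∀ (n : ℕ) (t : ℝ), P (t + n) ↔ P t := by
    intro n
    induction n with
    | zero => simp
    | succ n ih =>
      intro t
      have e : t + ((n + 1 : ℕ) : ℝ) = t + n + 1 := by push_cast; ring
      rw [e, hper, ih]
  have hperz : ∀ (n : ℤ) (t : ℝ), P (t + n) ↔ P t := by
    intro n t
    rcases n with n | n
    · simpa using hper' n t
    · have h1 := hper' (n + 1) (t + ((Int.negSucc n : ℤ) : ℝ))
      have e : t + ((Int.negSucc n : ℤ) : ℝ) + ((n + 1 : ℕ) : ℝ) = t := by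
        rw [Int.cast_negSucc]
        push_cast
        ring
      rw [e] at h1
      exact h1.symm
  have h0 : volume ({t | ¬ P t} ∩ Set.Ico (0 : ℝ) 1) = 0 := by
    rw [ae_restrict_iff' measurableSet_Ico] at h
    refine measure_mono_null ?_ h
    rintro t ⟨h1, h2⟩
    intro h3
    exact h1 (h3 h2)
  have hsub : {t | ¬ P t} ⊆ ⋃ n : ℤ, (fun t => t + ((-n : ℤ) : ℝ)) ⁻¹'
      ({t | ¬ P t} ∩ Set.Ico (0 : ℝ) 1) := by
    intro t ht
    rw [Set.mem_iUnion]
    refine ⟨⌊t⌋, ?_⟩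
    rw [Set.mem_preimage]
    refine ⟨?_, ?_⟩
    · change ¬ P _
      rw [hperz]
      exact ht
    · have e : t + ((-⌊t⌋ : ℤ) : ℝ) = Int.fract t := by
        push_cast
        rw [← sub_eq_add_neg]
        rfl
      rw [e]
      exact ⟨Int.fract_nonneg t, Int.fract_lt_one t⟩
  refine measure_mono_null hsub (measure_iUnion_null fun n => ?_)
  rw [measure_preimage_add_right]
  exact h0

/-- The product of unimodular numbers near a family with product `1`. -/
theorem prod_near {ι : Type} (s : Finset ι) (a b : ι → ℂ) (ha : ∀ i ∈ s, ‖a i‖ = 1)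
    (hb : ∀ i ∈ s, ‖b i‖ = 1) (h : ∏ i ∈ s, b i = 1) :
    ‖∏ i ∈ s, a i - 1‖ ≤ ∑ i ∈ s, ‖a i - b i‖ := by
  have h1 : ∏ i ∈ s, a i = ∏ i ∈ s, a i * conj (b i) := by
    rw [Finset.prod_mul_distrib, ← map_prod, h, map_one, mul_one]
  rw [h1]
  refine (Pool.Agent.Helper79.HRT.norm_prod_sub_one s _ fun i hi => ?_).trans ?_
  · rw [norm_mul, ha i hi, RCLike.norm_conj, hb i hi, one_mul]
  · refine Finset.sum_le_sum fun i hi => ?_
    have h2 : b i * conj (b i) = 1 := by
      rw [Complex.mul_conj, Complex.normSq_eq_norm_sq, hb i hi]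
      norm_num
    have h3 : a i * conj (b i) - 1 = (a i - b i) * conj (b i) := by
      rw [sub_mul, h2]
    rw [h3, norm_mul, RCLike.norm_conj, hb i hi, mul_one]

end C5aux

open C5aux

variable {H : Type} [NormedAddCommGroup H] [InnerProductSpace ℂ H] [CompleteSpace H]
variable {W : Weyl H} {D : Data}

theorem c5_mf_cont (W : Weyl H) (ψ : H) : Continuous (mf W ψ) := by
  unfold mf
  exact continuous_const.inner ((W.cont ψ).comp node_cont)

theorem c5_mf_per (W : Weyl H) (ψ : H) : Function.Periodic (mf W ψ) 1 := by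
  intro t
  simp only [mf]
  rw [node_add_one]

/-- The ambiguity function vanishes only at the bad points. -/
theorem c5_mf_ne {F : Fam W D} {γ : Fin D.m → ℂ} {ξ : ℝ → ℂ} {ψ : H} (o : F.Opt γ ξ ψ)
    (Z : Finset ℝ) (hZ : o.fin.toFinset ⊆ Z) (t : ℝ) (ht : t ∉ badSet Z) : mf W ψ t ≠ 0 := by
  intro h0
  apply ht
  have h1 : mf W ψ (Int.fract t) = 0 := by
    have h2 := (c5_mf_per W ψ).int_mul ⌊t⌋ (Int.fract t)
    rw [mul_one, Int.fract_add_floor] at h2
    rw [← h2]
    exact h0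
  refine ⟨Int.fract t, hZ ?_, ⌊t⌋, (Int.fract_add_floor t).symm⟩
  rw [Set.Finite.mem_toFinset]
  exact ⟨h1, Int.fract_nonneg t, (Int.fract_lt_one t).le⟩

theorem c5_kpos (D : Data) : ∀ᵐ t : ℝ, 0 < D.κ t := by
  have h1 : ∀ᵐ t : ℝ, t ∉ D.κbad := by
    refine ae_of_periodic _ (fun t => ?_) ?_
    · have h2 := D.κbad_per t
      have h3 := D.κbad_per (t + 1 / 2)
      have e : t + 1 / 2 + 1 / 2 = t + 1 := by ring
      rw [e] at h3
      rw [h3, h2]
    · rw [ae_restrict_iff' measurableSet_Ico]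
      have h2 : volume (D.κbad ∩ Set.Icc 0 1) = 0 := D.κbad_fin.measure_zero volume
      refine measure_mono_null ?_ h2
      intro t ht
      by_contra hcon
      apply ht
      intro h3 h4
      exact hcon ⟨h4, h3.1, h3.2.le⟩
  filter_upwards [h1] with t ht
  exact D.κ_pos t ht

theorem c5_NN_pos (D : Data) (n : ℕ) : 0 < D.NN n :=
  Nat.mul_pos (Nat.factorial_pos n) D.d0_pos

theorem c5_NN_tendsto (D : Data) {n : ℕ → ℕ} (hn : Tendsto n atTop atTop) :
    Tendsto (fun j => D.NN (n j)) atTop atTop := by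
  refine tendsto_atTop_mono (fun j => ?_) hn
  calc n j ≤ (n j).factorial := Nat.self_le_factorial _
    _ ≤ (n j).factorial * D.d0 := Nat.le_mul_of_pos_right _ D.d0_pos

theorem c5_NN_dvd (D : Data) {n : ℕ → ℕ} (hn : Tendsto n atTop atTop) (p : ℕ) (hp : 0 < p) :
    ∀ᶠ j in atTop, p ∣ D.NN (n j) := by
  filter_upwards [hn.eventually_ge_atTop p] with j hj
  exact (Nat.dvd_factorial hp hj).trans (Dvd.intro _ rfl)

/-- The ratio of the phases of two ambiguity functions. -/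
noncomputable def c5_ze (W : Weyl H) (ψ ψ' : H) (t : ℝ) : ℂ :=
  conj (mf W ψ' t) / (‖mf W ψ' t‖ : ℂ) * (mf W ψ t / (‖mf W ψ t‖ : ℂ))

theorem c5_unit_le (x : ℂ) : ‖x / (‖x‖ : ℂ)‖ ≤ 1 := by
  rw [norm_div, Complex.norm_real, norm_norm]
  exact div_self_le_one _

theorem c5_unit_eq {x : ℂ} (hx : x ≠ 0) : ‖x / (‖x‖ : ℂ)‖ = 1 := by
  rw [norm_div, Complex.norm_real, norm_norm]
  exact div_self (norm_ne_zero_iff.2 hx)

theorem c5_ze_le (W : Weyl H) (ψ ψ' : H) (t : ℝ) : ‖c5_ze W ψ ψ' t‖ ≤ 1 := by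
  rw [c5_ze, norm_mul]
  have h1 : ‖conj (mf W ψ' t) / (‖mf W ψ' t‖ : ℂ)‖ ≤ 1 := by
    have := c5_unit_le (conj (mf W ψ' t))
    rwa [RCLike.norm_conj] at this
  exact mul_le_one₀ h1 (norm_nonneg _) (c5_unit_le _)

theorem c5_ze_eq (W : Weyl H) (ψ ψ' : H) (t : ℝ) (h : mf W ψ t ≠ 0) (h' : mf W ψ' t ≠ 0) :
    ‖c5_ze W ψ ψ' t‖ = 1 := by
  rw [c5_ze, norm_mul, c5_unit_eq h, mul_one]
  have := c5_unit_eq (x := conj (mf W ψ' t)) (by simpa using h')
  rwa [RCLike.norm_conj] at this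

theorem c5_ze_meas (W : Weyl H) (ψ ψ' : H) : Measurable (c5_ze W ψ ψ') := by
  have h1 : Measurable (mf W ψ) := (c5_mf_cont W ψ).measurable
  have h2 : Measurable (mf W ψ') := (c5_mf_cont W ψ').measurable
  have h3 : Measurable fun t => conj (mf W ψ' t) := Complex.continuous_conj.measurable.comp h2
  have h4 : Measurable fun t => (‖mf W ψ t‖ : ℂ) :=
    Complex.continuous_ofReal.measurable.comp h1.norm
  have h5 : Measurable fun t => (‖mf W ψ' t‖ : ℂ) :=
    Complex.continuous_ofReal.measurable.comp h2.norm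
  exact (h3.div h5).mul (h1.div h4)

theorem c5_ze_cont (W : Weyl H) (ψ ψ' : H) (t : ℝ) (h : mf W ψ t ≠ 0) (h' : mf W ψ' t ≠ 0) :
    ContinuousAt (c5_ze W ψ ψ') t := by
  have h1 : ContinuousAt (mf W ψ) t := (c5_mf_cont W ψ).continuousAt
  have h2 : ContinuousAt (mf W ψ') t := (c5_mf_cont W ψ').continuousAt
  have h3 : ContinuousAt (fun t => conj (mf W ψ' t)) t :=
    Complex.continuous_conj.continuousAt.comp h2
  have h4 : ContinuousAt (fun t => (‖mf W ψ t‖ : ℂ)) t :=
    Complex.continuous_ofReal.continuousAt.comp h1.norm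
  have h5 : ContinuousAt (fun t => (‖mf W ψ' t‖ : ℂ)) t :=
    Complex.continuous_ofReal.continuousAt.comp h2.norm
  refine (h3.div h5 ?_).mul (h1.div h4 ?_)
  · exact Complex.ofReal_ne_zero.2 (norm_ne_zero_iff.2 h')
  · exact Complex.ofReal_ne_zero.2 (norm_ne_zero_iff.2 h)

theorem c5_ze_per (W : Weyl H) (ψ ψ' : H) : Function.Periodic (c5_ze W ψ ψ') 1 := by
  intro t
  simp only [c5_ze]
  rw [c5_mf_per W ψ t, c5_mf_per W ψ' t]

/-- The coefficient functions of two optimal triples differ by the ratio of the phases. -/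
theorem c5_xi {F : Fam W D} {γ γ' : Fin D.m → ℂ} {ξ ξ' : ℝ → ℂ} {ψ ψ' : H}
    (o : F.Opt γ ξ ψ) (o' : F.Opt γ' ξ' ψ') : ∀ᵐ t : ℝ, ξ' t = ξ t * c5_ze W ψ ψ' t := by
  filter_upwards [o.phase, o'.phase, badSet_null o.fin.toFinset] with t h1 h2 h3
  have hm := c5_mf_ne o _ (Finset.Subset.refl _) t h3
  rw [h1, h2, c5_ze]
  have hn : (‖mf W ψ t‖ : ℂ) ≠ 0 := Complex.ofReal_ne_zero.2 (norm_ne_zero_iff.2 hm)
  have h4 : conj (mf W ψ t) * mf W ψ t = (‖mf W ψ t‖ : ℂ) * (‖mf W ψ t‖ : ℂ) := by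
    rw [mul_comm, Complex.mul_conj, Complex.normSq_eq_norm_sq]
    push_cast
    ring
  push_cast
  field_simp
  linear_combination ((F.r : ℂ) * (D.κ t : ℂ) * conj (mf W ψ' t) * (‖mf W ψ' t‖ : ℂ)⁻¹) * h4

theorem c5_xi_ne {F : Fam W D} {γ : Fin D.m → ℂ} {ξ : ℝ → ℂ} {ψ : H}
    (o : F.Opt γ ξ ψ) : ∀ᵐ t : ℝ, ξ t ≠ 0 := by
  filter_upwards [o.phase, badSet_null o.fin.toFinset, c5_kpos D] with t h1 h2 h3
  have hm := c5_mf_ne o _ (Finset.Subset.refl _) t h2
  rw [h1]
  refine mul_ne_zero (neg_ne_zero.2 (Complex.ofReal_ne_zero.2 ?_)) (by simpa using hm)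
  exact div_ne_zero (mul_pos F.r_pos h3).ne' (norm_ne_zero_iff.2 hm)

theorem c5_chi_sub (a b x : ℂ) : chi (a - b) x = chi a x * conj (chi b x) := by
  rw [sub_eq_add_neg, chi_add_left, chi_neg_left]

theorem c5_chi_mul_conj (a x : ℂ) : chi a x * conj (chi a x) = 1 := by
  rw [Complex.mul_conj, Complex.normSq_eq_norm_sq, chi_norm]
  norm_num

/-- C5. Two limits along the same sequence: the coefficient functions differ by a character, and
the differences of the centres converge, as characters at the nodes, to this character. -/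
theorem pair_lemma (F : Fam W D) (n : ℕ → ℕ) (hn : Tendsto n atTop atTop) {w w' : ℕ → ℂ}
    {g g' : ℕ → H} {γ γ' : Fin D.m → ℂ} {ξ ξ' : ℝ → ℂ} {ψ ψ' : H}
    (L1 : F.Lim n w g γ ξ ψ) (L2 : F.Lim n w' g' γ' ξ' ψ') :
    ∃ τ : ℂ, (∀ᵐ t : ℝ, ξ' t = ξ t * chi τ (node t)) ∧
      Tendsto (fun j => ∫⁻ t in Set.Ico (0 : ℝ) 1,
        ‖chi (w j - w' j - τ) (node (cell (D.NN (n j)) t)) - 1‖ₑ ^ 2) atTop (𝓝 0) := by
  set μ : Measure ℝ := volume.restrict (Set.Ico (0 : ℝ) 1) with hμ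
  have hμ1 : μ Set.univ ≤ 1 := by
    rw [hμ, Measure.restrict_apply_univ, Real.volume_Ico]
    simp
  set N : ℕ → ℕ := fun j => D.NN (n j) with hN
  have hNpos : ∀ j, 0 < N j := fun j => c5_NN_pos D (n j)
  set u : ℕ → ℝ → ℂ := fun j t => chi (w j - w' j) (node (cell (N j) t)) with hu
  have hu1 : ∀ j t, ‖u j t‖ = 1 := fun j t => chi_norm _ _
  have hum : ∀ j, Measurable (u j) := by
    intro j
    have h1 : Continuous fun x : ℂ => chi (w j - w' j) x :=
      chi_cont.comp (continuous_const.prodMk continuous_id)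
    exact h1.measurable.comp (node_cont.measurable.comp (cell_meas (N j)))
  have huper : ∀ j, Function.Periodic (u j) 1 := by
    intro j t
    simp only [hu]
    have h1 := cell_add (hNpos j) one_pos (one_dvd _) 1 t
    simp only [Int.cast_one, Nat.cast_one, div_one] at h1
    rw [h1, node_add_one]
  set ze := c5_ze W ψ ψ' with hze
  have hzm : Measurable ze := c5_ze_meas W ψ ψ'
  have hzper : Function.Periodic ze 1 := c5_ze_per W ψ ψ'
  -- convergence with the weight
  have hw1 : Tendsto (fun j => ∫⁻ t, ‖twN (N j) (w j) (F.ξs (n j)) t - ξ t‖ₑ ∂μ) atTop (𝓝 0) :=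
    lintegral_of_sq μ hμ1 _ L1.coef
  have hw2 : Tendsto (fun j => ∫⁻ t, ‖twN (N j) (w' j) (F.ξs (n j)) t - ξ' t‖ₑ ∂μ) atTop (𝓝 0) :=
    lintegral_of_sq μ hμ1 _ L2.coef
  have hw3 : Tendsto (fun j => ∫⁻ t, ‖ξ t‖ₑ * ‖u j t - ze t‖ₑ ∂μ) atTop (𝓝 0) := by
    have h1 := hw1.add hw2
    rw [add_zero] at h1
    refine tendsto_of_tendsto_of_tendsto_of_le_of_le' tendsto_const_nhds h1
      (Eventually.of_forall fun _ => bot_le) ?_
    filter_upwards [hn.eventually_ge_atTop F.n1] with j hj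
    have hadm := F.ξs_adm (n j) hj
    have hsm : Measurable (F.ξs (n j)) := step_meas _ hadm.step
    have hchm : ∀ a : ℂ, Measurable fun t : ℝ => chi a (node (cell (N j) t)) := by
      intro a
      have h1 : Continuous fun x : ℂ => chi a x :=
        chi_cont.comp (continuous_const.prodMk continuous_id)
      exact h1.measurable.comp (node_cont.measurable.comp (cell_meas (N j)))
    have hm1 : Measurable fun t => ‖twN (N j) (w j) (F.ξs (n j)) t - ξ t‖ₑ := by
      have h2 : Measurable fun t => twN (N j) (w j) (F.ξs (n j)) t :=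
        hsm.mul (Complex.continuous_conj.measurable.comp (hchm (w j)))
      exact (h2.sub L1.opt.adm.meas).enorm
    rw [← lintegral_add_left hm1]
    refine lintegral_mono_ae ?_
    filter_upwards [ae_restrict_of_ae (c5_xi L1.opt L2.opt)] with t ht
    have h3 : twN (N j) (w' j) (F.ξs (n j)) t = twN (N j) (w j) (F.ξs (n j)) t * u j t := by
      simp only [twN, hu]
      rw [c5_chi_sub]
      have h4 := c5_chi_mul_conj (w j) (node (cell (N j) t))
      linear_combination (-(F.ξs (n j) t) * conj (chi (w' j) (node (cell (N j) t)))) * h4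
    have h5 : ξ t * (u j t - ze t) =
        -((twN (N j) (w j) (F.ξs (n j)) t - ξ t) * u j t) +
          (twN (N j) (w' j) (F.ξs (n j)) t - ξ' t) := by
      rw [h3, ht]
      ring
    rw [← enorm_mul, h5]
    refine (enorm_add_le _ _).trans ?_
    rw [enorm_neg, enorm_mul]
    have h6 : ‖u j t‖ₑ = 1 := by
      rw [← ofReal_norm, hu1, ENNReal.ofReal_one]
    rw [h6, mul_one]
  -- removal of the weight
  have hU : Tendsto (fun j => ∫⁻ t, ‖u j t - ze t‖ₑ ∂μ) atTop (𝓝 0) := by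
    refine remove_weight μ hμ1 (fun t => ‖ξ t‖ₑ) L1.opt.adm.meas.enorm ?_ 2 (by simp) _ ?_ hw3
    · filter_upwards [ae_restrict_of_ae (c5_xi_ne L1.opt)] with t ht
      simpa using ht
    · intro j t
      have h1 : ‖u j t - ze t‖ ≤ 2 := by
        refine (norm_sub_le _ _).trans ?_
        rw [hu1]
        have := c5_ze_le W ψ ψ' t
        linarith
      rw [← ofReal_norm]
      calc ENNReal.ofReal ‖u j t - ze t‖ ≤ ENNReal.ofReal 2 := ENNReal.ofReal_le_ofReal h1
        _ = 2 := by norm_num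
  -- the bad points
  set Z : Finset ℝ := L1.opt.fin.toFinset ∪ L2.opt.fin.toFinset with hZ
  have hne : ∀ t, t ∉ badSet Z → mf W ψ t ≠ 0 := fun t ht =>
    c5_mf_ne L1.opt Z Finset.subset_union_left t ht
  have hne' : ∀ t, t ∉ badSet Z → mf W ψ' t ≠ 0 := fun t ht =>
    c5_mf_ne L2.opt Z Finset.subset_union_right t ht
  have hz1 : ∀ t, t ∉ badSet Z → ‖ze t‖ = 1 := fun t ht =>
    c5_ze_eq W ψ ψ' t (hne t ht) (hne' t ht)
  -- the coset products
  have hprod : ∀ p : ℕ, p.Prime → ∀ᵐ t : ℝ, ∏ i ∈ Finset.range p, ze (t + i / p) = 1 := by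
    intro p hp
    refine ae_of_periodic _ (fun t => ?_) ?_
    · have h1 : ∀ i : ℕ, ze (t + 1 + i / p) = ze (t + i / p) := by
        intro i
        have e : t + 1 + (i : ℝ) / p = t + i / p + 1 := by ring
        rw [e]
        exact c5_ze_per W ψ ψ' _
      simp only [h1]
    · have hPm : Measurable fun t : ℝ => ∏ i ∈ Finset.range p, ze (t + i / p) :=
        Finset.measurable_prod _ fun i _ => hzm.comp (by fun_prop)
      have hle : ∀ᶠ j in atTop,
          ∫⁻ t, ‖∏ i ∈ Finset.range p, ze (t + i / p) - 1‖ₑ ∂μ ≤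
            p * ∫⁻ t, ‖u j t - ze t‖ₑ ∂μ := by
        filter_upwards [c5_NN_dvd D hn p hp.pos] with j hj
        have h2 : ∀ᵐ t ∂μ, ‖∏ i ∈ Finset.range p, ze (t + i / p) - 1‖ₑ ≤
            ∑ i ∈ Finset.range p, ‖u j (t + i / p) - ze (t + i / p)‖ₑ := by
          have h3 : ∀ᵐ t : ℝ, ∀ i ∈ Finset.range p, t + (i : ℝ) / p ∉ badSet Z := by
            rw [Filter.eventually_all_finset]
            intro i _
            exact (measurePreserving_add_right volume ((i : ℝ) / p)).quasiMeasurePreserving.ae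
              (badSet_null Z)
          filter_upwards [ae_restrict_of_ae h3] with t ht
          have h4 : ∏ i ∈ Finset.range p, u j (t + i / p) = 1 := by
            rw [← chi_node_coset (w j - w' j) p hp.two_le (cell (N j) t)]
            refine Finset.prod_congr rfl fun i _ => ?_
            simp only [hu]
            have := cell_add (hNpos j) hp.pos hj (i : ℤ) t
            push_cast at this
            rw [this]
          have h5 := prod_near (Finset.range p) (fun i => ze (t + i / p))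
            (fun i => u j (t + i / p)) (fun i hi => hz1 _ (ht i hi)) (fun i _ => hu1 j _) h4
          rw [← ofReal_norm]
          calc ENNReal.ofReal ‖∏ i ∈ Finset.range p, ze (t + i / p) - 1‖
              ≤ ENNReal.ofReal (∑ i ∈ Finset.range p, ‖ze (t + i / p) - u j (t + i / p)‖) :=
                ENNReal.ofReal_le_ofReal h5
            _ = ∑ i ∈ Finset.range p, ‖u j (t + i / p) - ze (t + i / p)‖ₑ := by
                rw [ENNReal.ofReal_sum_of_nonneg (fun _ _ => norm_nonneg _)]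
                refine Finset.sum_congr rfl fun i _ => ?_
                rw [norm_sub_rev, ofReal_norm]
        calc ∫⁻ t, ‖∏ i ∈ Finset.range p, ze (t + i / p) - 1‖ₑ ∂μ
            ≤ ∫⁻ t, ∑ i ∈ Finset.range p, ‖u j (t + i / p) - ze (t + i / p)‖ₑ ∂μ :=
              lintegral_mono_ae h2
          _ = ∑ i ∈ Finset.range p, ∫⁻ t, ‖u j (t + i / p) - ze (t + i / p)‖ₑ ∂μ :=
              lintegral_finsetSum _ fun i _ =>
                (((hum j).comp (by fun_prop)).sub (hzm.comp (by fun_prop))).enorm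
          _ = ∑ i ∈ Finset.range p, ∫⁻ t, ‖u j t - ze t‖ₑ ∂μ := by
              refine Finset.sum_congr rfl fun i _ => ?_
              refine lintegral_shift (fun t => ‖u j t - ze t‖ₑ) (fun t => ?_) _
              simp only
              rw [huper j t, hzper t]
          _ = p * ∫⁻ t, ‖u j t - ze t‖ₑ ∂μ := by
              rw [Finset.sum_const, Finset.card_range, nsmul_eq_mul]
      have h6 : Tendsto (fun j => (p : ℝ≥0∞) * ∫⁻ t, ‖u j t - ze t‖ₑ ∂μ) atTop (𝓝 0) := by
        have := ENNReal.Tendsto.const_mul hU (Or.inr (ENNReal.natCast_ne_top p))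
        rwa [mul_zero] at this
      have h7 : ∫⁻ t, ‖∏ i ∈ Finset.range p, ze (t + i / p) - 1‖ₑ ∂μ = 0 :=
        le_antisymm (ge_of_tendsto h6 hle) bot_le
      rw [lintegral_eq_zero_iff (hPm.sub_const 1).enorm] at h7
      filter_upwards [h7] with t ht
      have h8 : ‖∏ i ∈ Finset.range p, ze (t + i / p) - 1‖ₑ = 0 := ht
      exact sub_eq_zero.1 (enorm_eq_zero.1 h8)
  have hnorm : ∀ᵐ t : ℝ, ‖ze t‖ = 1 := by
    filter_upwards [badSet_null Z] with t ht
    exact hz1 t ht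
  obtain ⟨τ, -, hτ⟩ := rigidity Z ze
    (fun t ht => c5_ze_cont W ψ ψ' t (hne t ht) (hne' t ht)) hnorm hprod
  refine ⟨τ, ?_, ?_⟩
  · filter_upwards [c5_xi L1.opt L2.opt, hτ] with t h1 h2
    rw [h1, ← h2]
  · -- the characters at the nodes
    have hNt : Tendsto (fun j => (N j : ℝ)) atTop atTop :=
      tendsto_natCast_atTop_atTop.comp (c5_NN_tendsto D hn)
    have hsmall : Tendsto (fun j => ENNReal.ofReal (4 * Real.pi * ‖τ‖ / N j)) atTop (𝓝 0) := by
      have h1 : Tendsto (fun j => 4 * Real.pi * ‖τ‖ / (N j : ℝ)) atTop (𝓝 0) :=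
        tendsto_const_nhds.div_atTop hNt
      have h2 := ENNReal.tendsto_ofReal h1
      rwa [ENNReal.ofReal_zero] at h2
    have hbound : Tendsto (fun j => 2 * (∫⁻ t, ‖u j t - ze t‖ₑ ∂μ +
        ENNReal.ofReal (4 * Real.pi * ‖τ‖ / N j))) atTop (𝓝 0) := by
      have h1 := hU.add hsmall
      rw [add_zero] at h1
      have h2 := ENNReal.Tendsto.const_mul (a := 2) h1 (Or.inr (by simp))
      rwa [mul_zero] at h2
    refine tendsto_of_tendsto_of_tendsto_of_le_of_le tendsto_const_nhds hbound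
      (fun _ => bot_le) (fun j => ?_)
    have h3 : ∀ᵐ t ∂μ, ‖chi (w j - w' j - τ) (node (cell (D.NN (n j)) t)) - 1‖ₑ ^ 2 ≤
        2 * (‖u j t - ze t‖ₑ + ENNReal.ofReal (4 * Real.pi * ‖τ‖ / N j)) := by
      filter_upwards [ae_restrict_of_ae hτ] with t ht
      set x := node (cell (N j) t) with hx
      have h4 : ‖chi (w j - w' j - τ) x - 1‖ = ‖u j t - chi τ x‖ := by
        have h5 : chi (w j - w' j - τ) x - 1 = (u j t - chi τ x) * conj (chi τ x) := by
          rw [c5_chi_sub, sub_mul, c5_chi_mul_conj]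
        rw [h5, norm_mul, RCLike.norm_conj, chi_norm, mul_one]
      have h6 : ‖u j t - chi τ x‖ ≤ ‖u j t - ze t‖ + 4 * Real.pi * ‖τ‖ / N j := by
        have h7 : ‖chi τ (node t) - chi τ x‖ ≤ 4 * Real.pi * ‖τ‖ / N j := by
          refine (chi_lip_right τ (node t) x).trans ?_
          have h8 := node_lip t (cell (N j) t)
          have h9 := cell_le (hNpos j) t
          have h10 := lt_cell_add (hNpos j) t
          rw [abs_of_nonneg (by linarith)] at h8
          have h11 : ‖node t - x‖ ≤ 2 * Real.pi * (1 / N j) := by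
            refine h8.trans ?_
            have := Real.pi_pos
            gcongr
            linarith
          calc 2 * ‖τ‖ * ‖node t - x‖ ≤ 2 * ‖τ‖ * (2 * Real.pi * (1 / N j)) := by gcongr
            _ = _ := by ring
        have h12 : u j t - chi τ x = (u j t - ze t) + (chi τ (node t) - chi τ x) := by
          rw [ht]; ring
        rw [h12]
        exact (norm_add_le _ _).trans (add_le_add le_rfl h7)
      have h13 : ‖chi (w j - w' j - τ) x - 1‖ ≤ 2 := by
        refine (norm_sub_le _ _).trans ?_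
        rw [chi_norm, norm_one]
        norm_num
      have h14 : ‖chi (w j - w' j - τ) x - 1‖ ^ 2 ≤
          2 * (‖u j t - ze t‖ + 4 * Real.pi * ‖τ‖ / N j) := by
        rw [← h4] at h6
        nlinarith [norm_nonneg (chi (w j - w' j - τ) x - 1)]
      have h15 : 0 ≤ 4 * Real.pi * ‖τ‖ / N j := by
        have := Real.pi_pos
        positivity
      calc ‖chi (w j - w' j - τ) x - 1‖ₑ ^ 2
          = ENNReal.ofReal (‖chi (w j - w' j - τ) x - 1‖ ^ 2) := by
            rw [ENNReal.ofReal_pow (norm_nonneg _), ofReal_norm]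
        _ ≤ ENNReal.ofReal (2 * (‖u j t - ze t‖ + 4 * Real.pi * ‖τ‖ / N j)) :=
            ENNReal.ofReal_le_ofReal h14
        _ = _ := by
            rw [ENNReal.ofReal_mul (by norm_num), ENNReal.ofReal_add (norm_nonneg _) h15,
              ofReal_norm]
            norm_num
    refine (lintegral_mono_ae h3).trans ?_
    rw [lintegral_const_mul' _ _ (by simp),
      lintegral_add_left (f := fun t => ‖u j t - ze t‖ₑ) (((hum j).sub hzm).enorm),
      lintegral_const]
    gcongr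
    calc ENNReal.ofReal (4 * Real.pi * ‖τ‖ / N j) * μ Set.univ
        ≤ ENNReal.ofReal (4 * Real.pi * ‖τ‖ / N j) * 1 := by gcongr
      _ = _ := mul_one _

/-- Two optimal triples with the same coefficient function have the same phases. -/
theorem opt_phase_eq {F : Fam W D} {γ γ' : Fin D.m → ℂ} {ξ : ℝ → ℂ} {ψ ψ' : H}
    (o : F.Opt γ ξ ψ) (o' : F.Opt γ' ξ ψ') (t : ℝ) (h : mf W ψ t ≠ 0) (h' : mf W ψ' t ≠ 0) :
    conj (mf W ψ' t) / (‖mf W ψ' t‖ : ℂ) = conj (mf W ψ t) / (‖mf W ψ t‖ : ℂ) := by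
  have hae : ∀ᵐ s : ℝ, c5_ze W ψ ψ' s = 1 := by
    filter_upwards [c5_xi o o', c5_xi_ne o] with s h1 h2
    have h3 : ξ s * c5_ze W ψ ψ' s = ξ s * 1 := by rw [← h1, mul_one]
    exact mul_left_cancel₀ h2 h3
  have h1 : c5_ze W ψ ψ' t = 1 :=
    Pool.Agent.Helper79.HRT.eq_of_ae (c5_ze_cont W ψ ψ' t h h') continuousAt_const hae
  rw [c5_ze] at h1
  have hn : (‖mf W ψ t‖ : ℂ) ≠ 0 := Complex.ofReal_ne_zero.2 (norm_ne_zero_iff.2 h)
  have h4 : mf W ψ t * conj (mf W ψ t) = (‖mf W ψ t‖ : ℂ) * (‖mf W ψ t‖ : ℂ) := by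
    rw [Complex.mul_conj, Complex.normSq_eq_norm_sq]
    push_cast
    ring
  have h5 : mf W ψ t / (‖mf W ψ t‖ : ℂ) * (conj (mf W ψ t) / (‖mf W ψ t‖ : ℂ)) = 1 := by
    rw [div_mul_div_comm, h4, div_self (mul_ne_zero hn hn)]
  calc conj (mf W ψ' t) / (‖mf W ψ' t‖ : ℂ)
      = conj (mf W ψ' t) / (‖mf W ψ' t‖ : ℂ) *
          (mf W ψ t / (‖mf W ψ t‖ : ℂ) * (conj (mf W ψ t) / (‖mf W ψ t‖ : ℂ))) := by
        rw [h5, mul_one]
    _ = _ := by rw [← mul_assoc, h1, one_mul]

end Pool.Agent.Helper84.HRT
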