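import Mathlib
import Pool.Agent.Helper84.HRT.DefsA

/-!
# HRT at the roots of unity: definitions for A5-A7 (the statements L15-L23)
-/

open MeasureTheory Complex Filter
open scoped ENNReal NNReal ComplexConjugate InnerProductSpace BigOperators Topology

namespace Pool.Agent.Helper84.HRT

/-- `t` has distance at least `del` from `Z + ℤ`. -/
def Far (Z : Finset ℝ) (del t : ℝ) : Prop := ∀ z ∈ Z, ∀ k : ℤ, del ≤ |t - (z + k)|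

/-- The polynomial weight `(1+|z|)^k`. -/
noncomputable def pw (k : ℤ) (z : ℂ) : ℝ := (1 + ‖z‖) ^ k

/-- Indicator function of the closed ball of radius `ρ`. -/
noncomputable def ball1 (ρ : ℝ) (z : ℂ) : ℝ := (Metric.closedBall (0 : ℂ) ρ).indicator 1 z

/-- Indicator function of `|z| ≥ ρ`. -/
noncomputable def out1 (ρ : ℝ) (z : ℂ) : ℝ := {y : ℂ | ρ ≤ ‖y‖}.indicator 1 z

/-- The slope function `2B/(R2+|z|)`. -/
noncomputable def slo (B R2 : ℝ) (z : ℂ) : ℝ := 2 * B / (R2 + ‖z‖)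

/-- The weight of L16. -/
noncomputable def OmR (R2 R : ℝ) (z : ℂ) : ℝ :=
  if ‖z‖ ≤ R then (1 + ‖z‖ / R2) ^ 390 else (1 + R / R2) ^ 780 * ((1 + ‖z‖ / R2) ^ 390)⁻¹

/-- The weight of L17. -/
noncomputable def Omc (d : ℝ) (z : ℂ) : ℝ := min 1 (Real.exp (d - ‖z‖))

/-- The weight of L19. -/
noncomputable def Omi (R2 : ℝ) (z : ℂ) : ℝ := ((1 + ‖z‖ / R2) ^ 60)⁻¹

section
variable {H : Type} [NormedAddCommGroup H] [InnerProductSpace ℂ H] [CompleteSpace H]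

/-- The local pairing. -/
noncomputable def brk (W : Weyl H) (ρ : ℝ) (f h : H) : ℂ :=
  ∫ z in Metric.closedBall (0 : ℂ) ρ, conj (W.V f z) * W.V h z ∂dA

/-- The cut off vector `T_Om g = V^*(Om V g)`. -/
noncomputable def TO (W : Weyl H) (Om : ℂ → ℝ) (g : H) : H :=
  W.Vs (fun z => ((Om z : ℝ) : ℂ) * W.V g z)

namespace Fam
variable {W : Weyl H} {D : Data}

/-- Separation for all precisions in `[e1, δ0]`. -/
def SepR (F : Fam W D) (R0 δ0 : ℝ) (n : ℕ) (e1 : ℝ) : Prop :=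
  ∀ e : ℝ, e1 ≤ e → e ≤ δ0 → F.SEP R0 n e

/-- The conclusion of L15 for `K = 600`. -/
def Coarse (F : Fam W D) (R0 δ0 : ℝ) : Prop :=
  ∃ n0 : ℕ, F.n1 ≤ n0 ∧ ∀ n, n0 ≤ n → ∀ (w w' : ℂ) (g g' : H), F.Ctr n δ0 w g →
    F.Ctr n δ0 w' g' → ‖w - w'‖ ≤ R0 ∨ (D.NN n : ℝ) ^ 600 ≤ ‖w - w'‖

/-- The conclusion of L16 (DEC). -/
def Dec (F : Fam W D) (R0 δ0 : ℝ) : Prop :=
  ∃ C e10 : ℝ, 1 ≤ C ∧ 0 < e10 ∧ ∀ n, F.n1 ≤ n → ∀ e1 : ℝ, 0 < e1 → e1 ≤ e10 →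
    F.SepR R0 δ0 n e1 → ∀ (δ : ℝ) (w : ℂ) (g : H), 0 ≤ δ → δ ≤ e1 → F.Ctr n δ w g →
    S2 (om F.R) (W.V g) = 1 → ∀ R : ℝ, 1 ≤ R → R ^ 4 * e1 ≤ 1 →
    S2 (fun z => ball1 R z * pw 390 z) (W.V g) ≤ ENNReal.ofReal (C * (1 + R ^ 395 * δ) ^ 2)

/-- The conclusion of L17 (localisation), `δ = x^400`. -/
def Loc (F : Fam W D) (R0 δ0 : ℝ) : Prop :=
  ∃ C x0 : ℝ, 1 ≤ C ∧ 0 < x0 ∧ ∀ n, F.n1 ≤ n → ∀ x : ℝ, 0 < x → x ≤ x0 →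
    F.SepR R0 δ0 n (x ^ 8) → ∀ (w : ℂ) (g : H), F.Ctr n (x ^ 400) w g →
    S2 (om F.R) (W.V g) = 1 → ∃ u : H, ‖tr W w (F.A n) u‖ ≤ x ^ 380 ∧
      S2 (pw 300) (W.V u) ≤ ENNReal.ofReal C ∧ 1 / 2 ≤ ‖u‖ ∧
      S2 (ball1 (1 / (2 * x))) (W.V (u - g)) ≤ ENNReal.ofReal (x ^ 720)

/-- The conclusion of L19 (weighted inequality). -/
def WI (F : Fam W D) (R0 δ0 : ℝ) : Prop :=
  ∃ C e10 : ℝ, ∃ n0 : ℕ, 1 ≤ C ∧ 0 < e10 ∧ F.n1 ≤ n0 ∧ ∀ n, n0 ≤ n → ∀ e1 : ℝ, 0 < e1 →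
    e1 ≤ e10 → F.SepR R0 δ0 n e1 → ∀ (w : ℂ) (g : H), F.Ctr n e1 w g →
    S2 (om F.R) (W.V g) = 1 → ∀ v : H,
    S2 (pw (-60)) (W.V v) ≤ ENNReal.ofReal C * (S2 (pw (-59)) (W.V (tr W w (F.A n) v)) +
      ‖brk W (40 * F.R) g v‖ₑ ^ 2) + ENNReal.ofReal (e1 ^ 100) * ‖v‖ₑ ^ 2

/-- The conclusion of L20 (STEP), `δ = x^400`. -/
def StepC (F : Fam W D) (R0 δ0 : ℝ) : Prop :=
  ∃ Cs τ0 : ℝ, ∃ n0 : ℕ, 0 < Cs ∧ 0 < τ0 ∧ F.n1 ≤ n0 ∧ ∀ n, n0 ≤ n → ∀ x : ℝ, 0 < x →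
    x ^ 40 * (D.NN n : ℝ) ≤ 1 → F.SepR R0 δ0 n (x ^ 8) → ∀ (w w' : ℂ) (g g' : H),
    F.Ctr n (x ^ 400) w g → F.Ctr n (x ^ 400) w' g' → ∃ τ : ℂ, ‖τ‖ ≤ τ0 ∧
      ∀ k : ℤ, ‖chi (w - w' - τ) (node ((k : ℝ) / D.NN n)) - 1‖ ≤
        Cs * Real.sqrt (D.NN n) * x ^ 180

/-- A sequence of pairs of near-null vectors with the same limit pattern (the second centre is
already shifted by the limit of the differences). -/
structure Pair (F : Fam W D) (R0 δ0 C1 : ℝ) where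
  /-- levels -/
  n : ℕ → ℕ
  /-- precisions: `δ = x^400` -/
  x : ℕ → ℝ
  /-- first centre -/
  w : ℕ → ℂ
  /-- second centre (shifted) -/
  v : ℕ → ℂ
  /-- vector of the first centre -/
  g : ℕ → H
  /-- first localised vector -/
  u : ℕ → H
  /-- second localised vector (shifted) -/
  y : ℕ → H
  /-- limit base phases of the first centre -/
  γ : Fin D.m → ℂ
  /-- limit base phases of the second centre -/
  γ2 : Fin D.m → ℂ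
  /-- the limit coefficient function -/
  ξ : ℝ → ℂ
  /-- limit of `u` -/
  ψ : H
  /-- limit of `y` -/
  ψ2 : H
  n_lim : Tendsto n atTop atTop
  n_ge : ∀ j, F.n1 ≤ n j
  x_pos : ∀ j, 0 < x j
  x_N : ∀ j, x j ^ 40 * (D.NN (n j) : ℝ) ≤ 1
  sep : ∀ j, F.SepR R0 δ0 (n j) (x j ^ 8)
  ctr : ∀ j, F.Ctr (n j) (x j ^ 400) (w j) (g j)
  nrm : ∀ j, S2 (om F.R) (W.V (g j)) = 1
  near_u : ∀ j, ‖tr W (w j) (F.A (n j)) (u j)‖ ≤ x j ^ 380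
  near_y : ∀ j, ‖tr W (v j) (F.A (n j)) (y j)‖ ≤ x j ^ 380
  mom_u : ∀ j, S2 (pw 300) (W.V (u j)) ≤ ENNReal.ofReal C1
  mom_y : ∀ j, S2 (pw 300) (W.V (y j)) ≤ ENNReal.ofReal C1
  loc : ∀ j, S2 (ball1 (40 * F.R)) (W.V (u j - g j)) ≤ ENNReal.ofReal (x j ^ 720)
  lim_u : Tendsto u atTop (nhds ψ)
  lim_y : Tendsto y atTop (nhds ψ2)
  opt : F.Opt γ ξ ψ
  opt2 : F.Opt γ2 ξ ψ2
  base : Tendsto (fun j => D.tw (w j) (F.γs (n j))) atTop (nhds γ)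
  base2 : Tendsto (fun j => D.tw (v j) (F.γs (n j))) atTop (nhds γ2)
  coef : Tendsto (fun j => ∫⁻ t in Set.Ico (0 : ℝ) 1,
    ‖twN (D.NN (n j)) (w j) (F.ξs (n j)) t - ξ t‖ₑ ^ 2) atTop (nhds 0)
  coef2 : Tendsto (fun j => ∫⁻ t in Set.Ico (0 : ℝ) 1,
    ‖twN (D.NN (n j)) (v j) (F.ξs (n j)) t - ξ t‖ₑ ^ 2) atTop (nhds 0)
  rad : Tendsto (fun j => F.rs (n j)) atTop (nhds F.r)
  ψ_one : S2 (om F.R) (W.V ψ) = 1
  ψ_tight : S2 (omm F.R) (W.V ψ) ≤ ENNReal.ofReal 441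

namespace Pair
variable {F : Fam W D} {R0 δ0 C1 : ℝ}

/-- A subsequence of a pair sequence. -/
def comp (P : Pair F R0 δ0 C1) (φ : ℕ → ℕ) (hφ : StrictMono φ) : Pair F R0 δ0 C1 where
  n := P.n ∘ φ
  x := P.x ∘ φ
  w := P.w ∘ φ
  v := P.v ∘ φ
  g := P.g ∘ φ
  u := P.u ∘ φ
  y := P.y ∘ φ
  γ := P.γ
  γ2 := P.γ2
  ξ := P.ξ
  ψ := P.ψ
  ψ2 := P.ψ2
  n_lim := P.n_lim.comp hφ.tendsto_atTop
  n_ge := fun j => P.n_ge (φ j)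
  x_pos := fun j => P.x_pos (φ j)
  x_N := fun j => P.x_N (φ j)
  sep := fun j => P.sep (φ j)
  ctr := fun j => P.ctr (φ j)
  nrm := fun j => P.nrm (φ j)
  near_u := fun j => P.near_u (φ j)
  near_y := fun j => P.near_y (φ j)
  mom_u := fun j => P.mom_u (φ j)
  mom_y := fun j => P.mom_y (φ j)
  loc := fun j => P.loc (φ j)
  lim_u := P.lim_u.comp hφ.tendsto_atTop
  lim_y := P.lim_y.comp hφ.tendsto_atTop
  opt := P.opt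
  opt2 := P.opt2
  base := P.base.comp hφ.tendsto_atTop
  base2 := P.base2.comp hφ.tendsto_atTop
  coef := P.coef.comp hφ.tendsto_atTop
  coef2 := P.coef2.comp hφ.tendsto_atTop
  rad := P.rad.comp hφ.tendsto_atTop
  ψ_one := P.ψ_one
  ψ_tight := P.ψ_tight

/-- The node `e^{2π i k/N}` at the level `N` of the `j`-th member. -/
noncomputable def nd (P : Pair F R0 δ0 C1) (j : ℕ) (k : ℤ) : ℝ := (k : ℝ) / D.NN (P.n j)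

/-- The phase of `χ_{w-v}` at the `k`-th node. -/
noncomputable def ph (P : Pair F R0 δ0 C1) (j : ℕ) (k : ℤ) : ℝ :=
  (chi (P.w j - P.v j) (node (P.nd j k))).arg

/-- `Φ` is the maximum of the phases. -/
def IsMax (P : Pair F R0 δ0 C1) (Φ : ℕ → ℝ) : Prop :=
  ∀ j, (∀ k : ℤ, |P.ph j k| ≤ Φ j) ∧ ∃ k : ℤ, |P.ph j k| = Φ j

/-- The characters `χ_{w-v}` converge uniformly to `1` at the nodes. -/
def ToOne (P : Pair F R0 δ0 C1) : Prop :=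
  ∀ ε : ℝ, 0 < ε → ∀ᶠ j in atTop, ∀ k : ℤ, ‖chi (P.w j - P.v j) (node (P.nd j k)) - 1‖ ≤ ε

/-- The first moment of the phases vanishes. -/
def Mom0 (P : Pair F R0 δ0 C1) : Prop :=
  ∀ᶠ j in atTop, ∑ k ∈ Finset.range (D.NN (P.n j)),
    ((P.ph j k : ℝ) : ℂ) * conj (node (P.nd j k)) = 0

/-- The deviation is much larger than `√N x^180`. -/
def Big (P : Pair F R0 δ0 C1) : Prop :=
  ∀ C : ℝ, ∀ᶠ j in atTop, ∃ k : ℤ, C * Real.sqrt (D.NN (P.n j)) * P.x j ^ 180 <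
    ‖chi (P.w j - P.v j) (node (P.nd j k)) - 1‖

/-- The coefficient `a`. -/
noncomputable def a (P : Pair F R0 δ0 C1) (j : ℕ) : ℂ :=
  brk W (40 * F.R) (P.u j) (P.y j) / brk W (40 * F.R) (P.u j) (P.u j)

/-- The difference quotient of the ambiguity functions. -/
noncomputable def dq (P : Pair F R0 δ0 C1) (Φ : ℕ → ℝ) (j : ℕ) (t : ℝ) : ℂ :=
  (mf W (P.y j) t - ((‖P.a j‖ ^ 2 : ℝ) : ℂ) * mf W (P.u j) t) / ((Φ j : ℝ) : ℂ)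

end Pair
end Fam
end

end Pool.Agent.Helper84.HRT
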