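import Mathlib
import Pool.Agent.Helper84.HRT.DefsA

open MeasureTheory Complex Filter
open scoped ENNReal ComplexConjugate InnerProductSpace BigOperators Topology

namespace Pool.Agent.Helper84.HRT

variable {H : Type} [NormedAddCommGroup H] [InnerProductSpace ℂ H] [CompleteSpace H]

private theorem wb_coc_neg_self (α : ℂ) : coc (-α) α = 1 := by
  unfold coc
  have h : (-α * conj α).im = 0 := by
    rw [neg_mul, mul_conj, neg_im, ofReal_im, neg_zero]
  rw [h]; simp

theorem U_neg_U (W : Weyl H) (α : ℂ) (f : H) : W.U (-α) (W.U α f) = f := by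
  rw [W.U_mul, wb_coc_neg_self, one_smul, neg_add_cancel, W.U_zero]

theorem U_U_neg (W : Weyl H) (α : ℂ) (f : H) : W.U α (W.U (-α) f) = f := by
  have := U_neg_U W (-α) f
  rwa [neg_neg] at this

theorem U_inner_U (W : Weyl H) (α : ℂ) (f h : H) :
    inner ℂ (W.U α f) (W.U α h) = inner ℂ f h := by
  let L : H →ₗᵢ[ℂ] H := ⟨(W.U α : H →ₗ[ℂ] H), W.norm_U α⟩
  exact L.inner_map_map f h

theorem U_adj (W : Weyl H) (α : ℂ) (f h : H) :
    inner ℂ (W.U α f) h = inner ℂ f (W.U (-α) h) := by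
  rw [← U_inner_U W α f (W.U (-α) h), U_U_neg]

theorem g0_norm (W : Weyl H) : ‖W.g0‖ = 1 := by
  have h := W.g0_inner 0
  rw [W.U_zero, norm_zero] at h
  have h2 : (inner ℂ W.g0 W.g0 : ℂ) = ((‖W.g0‖ ^ 2 : ℝ) : ℂ) := by
    rw [inner_self_eq_norm_sq_to_K]; simp
  rw [h2] at h
  have h3 : ‖W.g0‖ ^ 2 = 1 := by
    have := ofReal_injective h
    rw [this]; simp
  have h4 := norm_nonneg W.g0
  nlinarith

theorem tr_U (W : Weyl H) (w α : ℂ) : tr W w (W.U α) = conj (chi w α) • W.U α := by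
  ext f
  change W.U w (W.U α (W.U (-w) f)) = conj (chi w α) • W.U α f
  rw [W.U_mul α (-w) f, map_smul, W.U_mul w (α + -w) f, smul_smul]
  have e : w + (α + -w) = α := by ring
  rw [e]
  congr 1
  unfold coc chi
  rw [← Complex.exp_add, ← Complex.exp_conj]
  congr 1
  have h1 : (α * conj (-w)).im = -(α * conj w).im := by
    rw [map_neg, mul_neg, neg_im]
  have h2 : (w * conj (α + -w)).im = -(α * conj w).im := by
    simp only [map_add, map_neg, mul_im, add_re, add_im, neg_re, neg_im, conj_re, conj_im]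
    ring
  rw [h1, h2]
  simp only [map_mul, map_neg, conj_I, conj_ofReal]
  push_cast
  ring

theorem tr_tr (W : Weyl H) (w w' : ℂ) (T : H →L[ℂ] H) :
    tr W w' (tr W w T) = tr W (w + w') T := by
  ext f
  change W.U w' (W.U w (T (W.U (-w) (W.U (-w') f)))) = W.U (w + w') (T (W.U (-(w + w')) f))
  rw [W.U_mul (-w) (-w') f, map_smul, map_smul, map_smul, W.U_mul w' w, smul_smul]
  have e1 : w' + w = w + w' := by ring
  have e2 : -w + -w' = -(w + w') := by ring
  rw [e1, e2]
  have h : coc (-w) (-w') * coc w' w = 1 := by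
    unfold coc
    rw [← Complex.exp_add]
    have h1 : (-w * conj (-w')).im = -(w' * conj w).im := by
      simp only [map_neg, mul_im, neg_re, neg_im, conj_re, conj_im]
      ring
    rw [h1]
    push_cast
    rw [show (- -((w' * conj w).im : ℂ) * I + -((w' * conj w).im : ℂ) * I) = 0 by ring]
    exact Complex.exp_zero
  rw [h, one_smul]

theorem tr_zero (W : Weyl H) (T : H →L[ℂ] H) : tr W 0 T = T := by
  ext f
  change W.U 0 (T (W.U (-0) f)) = T f
  rw [neg_zero, W.U_zero, W.U_zero]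

theorem tr_apply_U (W : Weyl H) (w : ℂ) (T : H →L[ℂ] H) (f : H) :
    tr W w T (W.U w f) = W.U w (T f) := by
  change W.U w (T (W.U (-w) (W.U w f))) = W.U w (T f)
  rw [U_neg_U]

theorem tr_add (W : Weyl H) (w : ℂ) (S T : H →L[ℂ] H) :
    tr W w (S + T) = tr W w S + tr W w T := by
  ext f
  change W.U w (S (W.U (-w) f) + T (W.U (-w) f)) =
    W.U w (S (W.U (-w) f)) + W.U w (T (W.U (-w) f))
  rw [map_add]

theorem norm_tr (W : Weyl H) (w : ℂ) (T : H →L[ℂ] H) (f : H) :
    ‖tr W w T f‖ = ‖T (W.U (-w) f)‖ := W.norm_U w _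

theorem V_U (W : Weyl H) (α : ℂ) (f : H) (z : ℂ) : W.V (W.U α f) z = act α (W.V f) z := by
  unfold Weyl.V act
  have h1 : inner ℂ (W.U (-z) W.g0) (W.U α f) = inner ℂ (W.U (-α) (W.U (-z) W.g0)) f := by
    rw [U_adj W (-α), neg_neg]
  rw [h1, W.U_mul, inner_smul_left]
  have e : -α + -z = -(z + α) := by ring
  rw [e]
  congr 1
  unfold coc
  rw [← Complex.exp_conj]
  congr 1
  have h2 : (-α * conj (-z)).im = (α * conj z).im := by
    rw [map_neg, neg_mul_neg]
  rw [h2]
  simp only [map_mul, map_neg, conj_I, conj_ofReal]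
  ring

theorem norm_V_U (W : Weyl H) (α : ℂ) (f : H) (z : ℂ) :
    ‖W.V (W.U α f) z‖ = ‖W.V f (z + α)‖ := by
  rw [V_U]
  unfold act
  rw [norm_mul, Complex.norm_exp_ofReal_mul_I, one_mul]

theorem V_add (W : Weyl H) (f h : H) (z : ℂ) : W.V (f + h) z = W.V f z + W.V h z :=
  inner_add_right _ _ _

theorem V_sub (W : Weyl H) (f h : H) (z : ℂ) : W.V (f - h) z = W.V f z - W.V h z :=
  inner_sub_right _ _ _

theorem V_smul (W : Weyl H) (a : ℂ) (f : H) (z : ℂ) : W.V (a • f) z = a * W.V f z :=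
  inner_smul_right _ _ _

theorem norm_V_le (W : Weyl H) (f : H) (z : ℂ) : ‖W.V f z‖ ≤ ‖f‖ := by
  refine (norm_inner_le_norm _ _).trans ?_
  rw [W.norm_U, g0_norm, one_mul]

theorem V_cont (W : Weyl H) (f : H) : Continuous (W.V f) := by
  have h : Continuous fun z : ℂ => W.U (-z) W.g0 := (W.cont W.g0).comp continuous_neg
  exact h.inner continuous_const

end Pool.Agent.Helper84.HRT
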