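import Mathlib
import Pool.Agent.Helper84.HRT.DefsA
import Pool.Agent.Helper84.HRT.WB

open MeasureTheory Complex Filter
open scoped ENNReal ComplexConjugate InnerProductSpace BigOperators Topology

namespace Pool.Agent.Helper84.HRT

variable {H : Type} [NormedAddCommGroup H] [InnerProductSpace ℂ H] [CompleteSpace H]

/-- the entire function attached to a vector -/
noncomputable def fk1_F (W : Weyl H) (u : H) (z : ℂ) : ℂ :=
  cexp ((‖z‖ ^ 2 / 2 : ℝ) : ℂ) * W.V u z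

theorem fk1_norm_sq_add (z w : ℂ) :
    ‖z + w‖ ^ 2 = ‖z‖ ^ 2 + ‖w‖ ^ 2 + 2 * (z * conj w).re := by
  rw [← Complex.normSq_eq_norm_sq, ← Complex.normSq_eq_norm_sq, ← Complex.normSq_eq_norm_sq,
    Complex.normSq_add]

theorem fk1_gauss (W : Weyl H) (w z : ℂ) :
    fk1_F W (W.U w W.g0) z = cexp (-((‖w‖ ^ 2 / 2 : ℝ) : ℂ) - z * conj w) := by
  unfold fk1_F Weyl.V
  rw [U_adj, neg_neg, W.U_mul, inner_smul_right, W.g0_inner]
  unfold coc
  rw [Complex.ofReal_exp, ← Complex.exp_add, ← Complex.exp_add]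
  congr 1
  have h1 := fk1_norm_sq_add z w
  have h2 : (z * conj w) = ((z * conj w).re : ℂ) + ((z * conj w).im : ℂ) * I :=
    (Complex.re_add_im _).symm
  have h3 : ((‖z + w‖ ^ 2 : ℝ) : ℂ) =
      ((‖z‖ ^ 2 : ℝ) : ℂ) + ((‖w‖ ^ 2 : ℝ) : ℂ) + 2 * (((z * conj w).re : ℝ) : ℂ) := by
    rw [h1]; push_cast; ring
  calc ((‖z‖ ^ 2 / 2 : ℝ) : ℂ) + (-(((z * conj w).im : ℝ) : ℂ) * I +
        ((-‖z + w‖ ^ 2 / 2 : ℝ) : ℂ))
      = ((‖z‖ ^ 2 : ℝ) : ℂ) / 2 - (((z * conj w).im : ℝ) : ℂ) * I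
        - ((‖z + w‖ ^ 2 : ℝ) : ℂ) / 2 := by push_cast; ring
    _ = -((‖w‖ ^ 2 / 2 : ℝ) : ℂ)
        - ((((z * conj w).re : ℝ) : ℂ) + (((z * conj w).im : ℝ) : ℂ) * I) := by
        rw [h3]; push_cast; ring
    _ = -((‖w‖ ^ 2 / 2 : ℝ) : ℂ) - z * conj w := by rw [← h2]

theorem fk1_V_inj (W : Weyl H) (f : H) (h : ∀ z, W.V f z = 0) : f = 0 := by
  have h1 := W.isom f
  have h2 : ∀ z, ‖inner ℂ (W.U (-z) W.g0) f‖ₑ ^ 2 = 0 := by
    intro z
    have := h z
    unfold Weyl.V at this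
    rw [this]; simp
  simp only [h2, lintegral_zero] at h1
  have h3 : ‖f‖ₑ = 0 := by
    by_contra hne
    exact (pow_ne_zero 2 hne) h1.symm
  exact enorm_eq_zero.mp h3

/-- the span of the translates of the Gaussian -/
noncomputable def fk1_S (W : Weyl H) : Submodule ℂ H :=
  Submodule.span ℂ (Set.range fun w => W.U w W.g0)

theorem fk1_dense (W : Weyl H) : (fk1_S W).topologicalClosure = ⊤ := by
  rw [Submodule.topologicalClosure_eq_top_iff, Submodule.eq_bot_iff]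
  intro v hv
  apply fk1_V_inj W
  intro z
  rw [Submodule.mem_orthogonal] at hv
  exact hv _ (Submodule.subset_span ⟨-z, rfl⟩)

theorem fk1_diff_span (W : Weyl H) (u : H) (hu : u ∈ fk1_S W) :
    Differentiable ℂ (fk1_F W u) := by
  unfold fk1_S at hu
  induction hu using Submodule.span_induction with
  | mem x hx =>
    obtain ⟨w, rfl⟩ := hx
    have : fk1_F W ((fun w => W.U w W.g0) w) =
        fun z => cexp (-((‖w‖ ^ 2 / 2 : ℝ) : ℂ) - z * conj w) := by
      funext z; exact fk1_gauss W w z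
    rw [this]
    exact ((differentiable_const _).sub (differentiable_id.mul_const _)).cexp
  | zero =>
    have : fk1_F W 0 = fun _ => 0 := by
      funext z; unfold fk1_F Weyl.V; simp
    rw [this]; exact differentiable_const _
  | add x y _ _ hx hy =>
    have : fk1_F W (x + y) = fun z => fk1_F W x z + fk1_F W y z := by
      funext z; unfold fk1_F; rw [V_add]; ring
    rw [this]; exact hx.add hy
  | smul a x _ hx =>
    have : fk1_F W (a • x) = fun z => a * fk1_F W x z := by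
      funext z; unfold fk1_F; rw [V_smul]; ring
    rw [this]; exact (differentiable_const _).mul hx

theorem fk1_sub_le (W : Weyl H) (u v : H) (z : ℂ) :
    ‖fk1_F W u z - fk1_F W v z‖ ≤ Real.exp (‖z‖ ^ 2 / 2) * ‖u - v‖ := by
  have : fk1_F W u z - fk1_F W v z = cexp ((‖z‖ ^ 2 / 2 : ℝ) : ℂ) * W.V (u - v) z := by
    unfold fk1_F; rw [V_sub]; ring
  rw [this, norm_mul, Complex.norm_exp, Complex.ofReal_re]
  exact mul_le_mul_of_nonneg_left (norm_V_le W _ _) (Real.exp_pos _).le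

theorem fk1_diff (W : Weyl H) (u : H) : Differentiable ℂ (fk1_F W u) := by
  have hmem : u ∈ closure ((fk1_S W : Submodule ℂ H) : Set H) := by
    rw [← Submodule.topologicalClosure_coe, fk1_dense]; trivial
  obtain ⟨s, hs, hlim⟩ := mem_closure_iff_seq_limit.mp hmem
  rw [← differentiableOn_univ]
  have hloc : TendstoLocallyUniformlyOn (fun n z => fk1_F W (s n) z) (fk1_F W u) atTop
      Set.univ := by
    rw [tendstoLocallyUniformlyOn_iff_forall_isCompact isOpen_univ]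
    intro K _ hK
    rw [Metric.tendstoUniformlyOn_iff]
    intro ε hε
    obtain ⟨C, hC⟩ : ∃ C : ℝ, ∀ z ∈ K, Real.exp (‖z‖ ^ 2 / 2) ≤ C := by
      have hc : Continuous fun z : ℂ => Real.exp (‖z‖ ^ 2 / 2) := by fun_prop
      obtain ⟨C, hC⟩ := (hK.image hc).bddAbove
      exact ⟨C, fun z hz => hC ⟨z, hz, rfl⟩⟩
    have hpos : 0 < |C| + 1 := by positivity
    have hev : ∀ᶠ n in atTop, dist (s n) u < ε / (|C| + 1) :=
      (Metric.tendsto_nhds.mp hlim) _ (by positivity)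
    filter_upwards [hev] with n hn z hz
    rw [dist_eq_norm]
    calc ‖fk1_F W u z - fk1_F W (s n) z‖ ≤ Real.exp (‖z‖ ^ 2 / 2) * ‖u - s n‖ :=
          fk1_sub_le W _ _ _
      _ ≤ (|C| + 1) * ‖u - s n‖ := by
          apply mul_le_mul_of_nonneg_right _ (norm_nonneg _)
          have := hC z hz
          have := le_abs_self C
          linarith
      _ < (|C| + 1) * (ε / (|C| + 1)) := by
          apply mul_lt_mul_of_pos_left _ hpos
          rw [norm_sub_rev, ← dist_eq_norm]; exact hn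
      _ = ε := by field_simp
  exact hloc.differentiableOn
    (Eventually.of_forall fun n => (fk1_diff_span W (s n) (hs n)).differentiableOn) isOpen_univ

theorem fk1_fockU (W : Weyl H) (u : H) (α z : ℂ) :
    fockU α (fk1_F W u) z = cexp ((‖z‖ ^ 2 / 2 : ℝ) : ℂ) * W.V (W.U α u) z := by
  rw [V_U]
  unfold fockU fk1_F act
  rw [← mul_assoc, ← mul_assoc, ← Complex.exp_add, ← Complex.exp_add]
  congr 2
  have h1 := fk1_norm_sq_add z α
  have h3 : ((‖z + α‖ ^ 2 : ℝ) : ℂ) =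
      ((‖z‖ ^ 2 : ℝ) : ℂ) + ((‖α‖ ^ 2 : ℝ) : ℂ) + 2 * (((z * conj α).re : ℝ) : ℂ) := by
    rw [h1]; push_cast; ring
  have h4 : conj α * z = (((z * conj α).re : ℝ) : ℂ) - (((α * conj z).im : ℝ) : ℂ) * I := by
    apply Complex.ext <;> simp <;> ring
  rw [h4]
  calc -((‖α‖ ^ 2 / 2 : ℝ) : ℂ)
        - ((((z * conj α).re : ℝ) : ℂ) - (((α * conj z).im : ℝ) : ℂ) * I)
        + ((‖z + α‖ ^ 2 / 2 : ℝ) : ℂ)
      = -((‖α‖ ^ 2 : ℝ) : ℂ) / 2
        - ((((z * conj α).re : ℝ) : ℂ) - (((α * conj z).im : ℝ) : ℂ) * I)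
        + ((‖z + α‖ ^ 2 : ℝ) : ℂ) / 2 := by push_cast; ring
    _ = ((‖z‖ ^ 2 / 2 : ℝ) : ℂ) + (((α * conj z).im : ℝ) : ℂ) * I := by
        rw [h3]; push_cast; ring

theorem fk1_integrable (W : Weyl H) (u : H) :
    Integrable (fun z : ℂ => ‖fk1_F W u z‖ ^ 2 * Real.exp (-‖z‖ ^ 2)) := by
  have heq : (fun z : ℂ => ‖fk1_F W u z‖ ^ 2 * Real.exp (-‖z‖ ^ 2)) =
      fun z => ‖W.V u z‖ ^ 2 := by
    funext z
    unfold fk1_F
    rw [norm_mul, Complex.norm_exp, Complex.ofReal_re, mul_pow, ← Real.exp_nat_mul]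
    rw [mul_comm (Real.exp _), mul_assoc, ← Real.exp_add]
    have : ((2 : ℕ) : ℝ) * (‖z‖ ^ 2 / 2) + -‖z‖ ^ 2 = 0 := by push_cast; ring
    rw [this, Real.exp_zero, mul_one]
  rw [heq]
  have hcont : Continuous fun z => ‖W.V u z‖ ^ 2 := (V_cont W u).norm.pow 2
  refine ⟨hcont.aestronglyMeasurable, ?_⟩
  rw [HasFiniteIntegral]
  have h1 := W.isom u
  unfold dA at h1
  rw [lintegral_smul_measure] at h1
  have h2 : ∀ z, ‖(fun z => ‖W.V u z‖ ^ 2) z‖ₑ = ‖inner ℂ (W.U (-z) W.g0) u‖ₑ ^ 2 := by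
    intro z
    simp only [enorm_pow, enorm_norm]
    rfl
  simp_rw [h2]
  by_contra hne
  rw [not_lt, top_le_iff] at hne
  rw [hne] at h1
  have hpi : ENNReal.ofReal (1 / Real.pi) ≠ 0 := by
    rw [Ne, ENNReal.ofReal_eq_zero, not_le]; positivity
  rw [smul_eq_mul, ENNReal.mul_top hpi] at h1
  have : ‖u‖ₑ ^ 2 ≠ ⊤ := ENNReal.pow_ne_top enorm_ne_top
  exact this h1.symm

theorem fock_of_weyl (W : Weyl H) (N : ℕ) (hN : 0 < N) (c : ℕ → ℂ) (hc : ∃ k < N, c k ≠ 0)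
    (u : H) (hu : u ≠ 0) (h : ∑ k ∈ Finset.range N, c k • W.U (node ((k : ℝ) / N)) u = 0) :
    ∃ f : ℂ → ℂ, Differentiable ℂ f ∧ f ≠ 0 ∧
      Integrable (fun z : ℂ => ‖f z‖ ^ 2 * Real.exp (-‖z‖ ^ 2)) ∧
      ∀ z, ∑ k ∈ Finset.range N,
        c k * fockU (cexp (2 * Real.pi * I * k / N)) f z = 0 := by
  refine ⟨fk1_F W u, fk1_diff W u, ?_, fk1_integrable W u, ?_⟩
  · intro h0
    apply hu
    apply fk1_V_inj W
    intro z
    have := congrFun h0 z
    unfold fk1_F at this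
    simp only [Pi.zero_apply, mul_eq_zero, Complex.exp_ne_zero, false_or] at this
    exact this
  · intro z
    have hnode : ∀ k : ℕ, cexp (2 * Real.pi * I * k / N) = node ((k : ℝ) / N) := by
      intro k; unfold node; congr 1; push_cast; ring
    have h1 : ∀ k ∈ Finset.range N, c k * fockU (cexp (2 * Real.pi * I * k / N)) (fk1_F W u) z =
        cexp ((‖z‖ ^ 2 / 2 : ℝ) : ℂ) * W.V (c k • W.U (node ((k : ℝ) / N)) u) z := by
      intro k _
      rw [hnode, fk1_fockU, V_smul]; ring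
    rw [Finset.sum_congr rfl h1, ← Finset.mul_sum]
    have h2 : ∑ k ∈ Finset.range N, W.V (c k • W.U (node ((k : ℝ) / N)) u) z =
        W.V (∑ k ∈ Finset.range N, c k • W.U (node ((k : ℝ) / N)) u) z := by
      unfold Weyl.V; rw [inner_sum]
    rw [h2, h]
    unfold Weyl.V; simp

end Pool.Agent.Helper84.HRT
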