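import Mathlib
import Pool.Agent.Helper84.HRT.DefsA

open MeasureTheory Complex Filter
open scoped ENNReal ComplexConjugate InnerProductSpace BigOperators Topology

namespace Pool.Agent.Helper84.HRT

variable {H : Type} [NormedAddCommGroup H] [InnerProductSpace ℂ H] [CompleteSpace H]

private theorem xa_ne_zero {N : ℕ} (hN : 0 < N) : ENNReal.ofReal (1 / (N : ℝ)) ≠ 0 := by
  have h : (0 : ℝ) < 1 / (N : ℝ) := by positivity
  rw [Ne, ENNReal.ofReal_eq_zero, not_le]
  exact h

theorem muN_prob {N : ℕ} (hN : 0 < N) : IsProbabilityMeasure (muN N) := by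
  constructor
  unfold muN
  rw [Measure.finsetSum_apply]
  have h1 : ∀ k ∈ Finset.range N, (ENNReal.ofReal (1 / (N : ℝ)) •
      Measure.dirac ((k : ℝ) / N)) Set.univ = ENNReal.ofReal (1 / (N : ℝ)) := by
    intro k _
    rw [Measure.smul_apply, Measure.dirac_apply_of_mem (Set.mem_univ _), smul_eq_mul, mul_one]
  rw [Finset.sum_congr rfl h1, Finset.sum_const, Finset.card_range, nsmul_eq_mul,
    ← ENNReal.ofReal_natCast, ← ENNReal.ofReal_mul (Nat.cast_nonneg N), mul_one_div_cancel,
    ENNReal.ofReal_one]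
  exact Nat.cast_ne_zero.2 hN.ne'

instance mu8_prob : IsProbabilityMeasure mu8 := by
  constructor
  unfold mu8
  rw [Measure.restrict_apply_univ, Real.volume_Ico]
  simp

instance muN_fin (N : ℕ) : IsFiniteMeasure (muN N) := by
  rcases Nat.eq_zero_or_pos N with h | h
  · subst h
    constructor
    unfold muN
    simp
  · have := muN_prob h
    infer_instance

theorem muN_integral {E : Type} [NormedAddCommGroup E] [NormedSpace ℂ E] [CompleteSpace E]
    {N : ℕ} (hN : 0 < N) (h : ℝ → E) :
    ∫ t, h t ∂(muN N) = ((1 : ℂ) / N) • ∑ k ∈ Finset.range N, h ((k : ℝ) / N) := by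
  unfold muN
  rw [integral_finsetSum_measure]
  · rw [Finset.smul_sum]
    refine Finset.sum_congr rfl fun k _ => ?_
    rw [integral_smul_measure, integral_dirac, ENNReal.toReal_ofReal (by positivity)]
    have h1 : ((1 : ℂ) / N) = (((1 / (N : ℝ) : ℝ)) : ℂ) := by
      push_cast
      rfl
    rw [h1, Complex.coe_smul]
  · intro k _
    refine Integrable.smul_measure (integrable_dirac ?_) ENNReal.ofReal_ne_top
    exact enorm_lt_top

theorem muN_ae {N : ℕ} (hN : 0 < N) (P : ℝ → Prop) :
    (∀ᵐ t ∂(muN N), P t) ↔ ∀ k < N, P ((k : ℝ) / N) := by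
  have key : ∀ S : Finset ℕ, (∀ᵐ t ∂(∑ k ∈ S, ENNReal.ofReal (1 / (N : ℝ)) •
      Measure.dirac ((k : ℝ) / N) : Measure ℝ), P t) ↔ ∀ k ∈ S, P ((k : ℝ) / N) := by
    intro S
    induction S using Finset.induction_on with
    | empty => simp
    | insert a S ha ih =>
      rw [Finset.sum_insert ha, ae_add_measure_iff, ih,
        Measure.ae_ennreal_smul_measure_iff (xa_ne_zero hN), ae_dirac_eq, Finset.forall_mem_insert]
      rfl
  unfold muN
  rw [key]
  simp only [Finset.mem_range]

/-- The average of a step function does not depend on the measure. -/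
theorem integral_step {E : Type} [NormedAddCommGroup E] [NormedSpace ℂ E] [CompleteSpace E]
    {N : ℕ} (hN : 0 < N) (h : ℝ → E) (hs : ∀ t, h (cell N t) = h t) :
    ∫ t, h t ∂(muN N) = ∫ t, h t ∂mu8 := by
  have hN' : (0 : ℝ) < N := Nat.cast_pos.2 hN
  rw [muN_integral hN]
  unfold mu8
  rw [integral_Ico_eq_integral_Ioc, ← intervalIntegral.integral_of_le zero_le_one]
  -- on each cell the function is constant
  have hc : ∀ k : ℕ, ∀ t ∈ Set.Ico ((k : ℝ) / N) (((k + 1 : ℕ) : ℝ) / N), h t = h ((k : ℝ) / N) := by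
    intro k t ht
    rw [← hs t]
    congr 1
    unfold cell
    have h1 : ⌊(N : ℝ) * t⌋ = (k : ℤ) := by
      rw [Int.floor_eq_iff]
      constructor
      · have := ht.1
        rw [div_le_iff₀ hN'] at this
        push_cast
        linarith
      · have := ht.2
        rw [lt_div_iff₀ hN'] at this
        push_cast at this ⊢
        linarith
    rw [h1]
    push_cast
    rfl
  have hle : ∀ k : ℕ, ((k : ℝ) / N) ≤ (((k + 1 : ℕ) : ℝ) / N) := by
    intro k
    refine div_le_div_of_nonneg_right ?_ hN'.le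
    push_cast
    linarith
  have hint : ∀ k < N, IntervalIntegrable h volume ((fun k : ℕ => (k : ℝ) / N) k)
      ((fun k : ℕ => (k : ℝ) / N) (k + 1)) := by
    intro k _
    change IntervalIntegrable h volume ((k : ℝ) / N) (((k + 1 : ℕ) : ℝ) / N)
    rw [intervalIntegrable_iff_integrableOn_Ico_of_le (hle k)]
    have h1 : IntegrableOn (fun _ : ℝ => h ((k : ℝ) / N))
        (Set.Ico ((k : ℝ) / N) (((k + 1 : ℕ) : ℝ) / N)) := by
      refine integrableOn_const ?_ ?_
      · rw [Real.volume_Ico]
        exact ENNReal.ofReal_ne_top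
      · exact enorm_ne_top
    exact h1.congr_fun (fun t ht => (hc k t ht).symm) measurableSet_Ico
  have hsum := intervalIntegral.sum_integral_adjacent_intervals (μ := volume) (f := h)
    (a := fun k : ℕ => (k : ℝ) / N) (n := N) hint
  have e0 : ((0 : ℕ) : ℝ) / N = 0 := by simp
  have e1 : (N : ℝ) / N = 1 := div_self hN'.ne'
  rw [e0, e1] at hsum
  rw [← hsum, Finset.smul_sum]
  refine Finset.sum_congr rfl fun k _ => ?_
  change ((1 : ℂ) / N) • h ((k : ℝ) / N) = ∫ x in ((k : ℝ) / N)..(((k + 1 : ℕ) : ℝ) / N), h x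
  rw [intervalIntegral.integral_of_le (hle k), ← integral_Ico_eq_integral_Ioc,
    setIntegral_congr_fun measurableSet_Ico (hc k), setIntegral_const]
  have h2 : (volume : Measure ℝ).real (Set.Ico ((k : ℝ) / N) (((k + 1 : ℕ) : ℝ) / N)) =
      1 / (N : ℝ) := by
    rw [Measure.real, Real.volume_Ico, ENNReal.toReal_ofReal (by linarith [hle k])]
    push_cast
    field_simp
    ring
  rw [h2]
  have h1 : ((1 : ℂ) / N) = (((1 / (N : ℝ) : ℝ)) : ℂ) := by
    push_cast
    rfl
  rw [h1, Complex.coe_smul]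

/-- Periodic functions: shifts do not change the integral over a period. -/
theorem mu8_shift {E : Type} [NormedAddCommGroup E] [NormedSpace ℝ E] (h : ℝ → E)
    (hp : ∀ᵐ t : ℝ, h (t + 1) = h t) (a : ℝ) : ∫ t, h (t + a) ∂mu8 = ∫ t, h t ∂mu8 := by
  -- the exactly periodic version
  have hshift : ∀ (P : ℝ → Prop) (b : ℝ), (∀ᵐ t : ℝ, P t) → ∀ᵐ t : ℝ, P (t + b) := by
    intro P b hP
    exact (measurePreserving_add_right volume b).quasiMeasurePreserving.tendsto_ae.eventually hP
  have hnat : ∀ n : ℕ, ∀ᵐ t : ℝ, h (t + n) = h t := by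
    intro n
    induction n with
    | zero => exact Eventually.of_forall fun t => by simp
    | succ n ih =>
      filter_upwards [hshift (fun t => h (t + 1) = h t) n hp, ih] with t h1 h2
      push_cast
      rw [← add_assoc, h1, h2]
  have hint : ∀ n : ℤ, ∀ᵐ t : ℝ, h (t + n) = h t := by
    intro n
    rcases n.eq_nat_or_neg with ⟨m, rfl | rfl⟩
    · filter_upwards [hnat m] with t h1
      push_cast
      exact h1
    · filter_upwards [hshift (fun t => h (t + m) = h t) (-(m : ℝ)) (hnat m)] with t h1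
      push_cast
      rw [← h1]
      congr 1
      ring
  have hall : ∀ᵐ t : ℝ, ∀ n : ℤ, h (t + n) = h t := ae_all_iff.2 hint
  have hfr : ∀ᵐ t : ℝ, h (Int.fract t) = h t := by
    filter_upwards [hall] with t h1
    rw [← h1 (-⌊t⌋)]
    congr 1
    push_cast
    rw [← Int.self_sub_floor]
    ring
  set g : ℝ → E := fun t => h (Int.fract t) with hg
  have hper : Function.Periodic g 1 := by
    intro t
    simp only [hg, Int.fract_add_one]
  have e1 : ∫ t, h (t + a) ∂mu8 = ∫ t, g (t + a) ∂mu8 := by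
    refine integral_congr_ae ?_
    unfold mu8
    refine ae_restrict_of_ae ?_
    filter_upwards [hshift _ a hfr] with t h1
    exact h1.symm
  have e2 : ∫ t, h t ∂mu8 = ∫ t, g t ∂mu8 := by
    refine integral_congr_ae ?_
    unfold mu8
    refine ae_restrict_of_ae ?_
    filter_upwards [hfr] with t h1
    exact h1.symm
  rw [e1, e2]
  unfold mu8
  rw [integral_Ico_eq_integral_Ioc, integral_Ico_eq_integral_Ioc,
    ← intervalIntegral.integral_of_le zero_le_one, ← intervalIntegral.integral_of_le zero_le_one,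
    intervalIntegral.integral_comp_add_right]
  have := hper.intervalIntegral_add_eq a 0
  rw [zero_add] at this
  rw [zero_add, add_comm 1 a]
  exact this

theorem muN_shift {E : Type} [NormedAddCommGroup E] [NormedSpace ℂ E] [CompleteSpace E]
    {N : ℕ} (hN : 0 < N) (h : ℝ → E) (hp : ∀ t, h (t + 1) = h t) (j : ℤ) :
    ∫ t, h (t + j / N) ∂(muN N) = ∫ t, h t ∂(muN N) := by
  have hN' : (N : ℝ) ≠ 0 := Nat.cast_ne_zero.2 hN.ne'
  rw [muN_integral hN, muN_integral hN]
  congr 1
  -- one step
  have step : ∀ g : ℝ → E, (∀ t, g (t + 1) = g t) →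
      ∑ k ∈ Finset.range N, g ((k : ℝ) / N + 1 / N) = ∑ k ∈ Finset.range N, g ((k : ℝ) / N) := by
    intro g hg
    have h1 := Finset.sum_range_succ (fun k : ℕ => g ((k : ℝ) / N)) N
    have h2 := Finset.sum_range_succ' (fun k : ℕ => g ((k : ℝ) / N)) N
    have h3 : g ((N : ℝ) / N) = g (((0 : ℕ) : ℝ) / N) := by
      rw [div_self hN', Nat.cast_zero, zero_div, ← hg 0, zero_add]
    rw [h1, h3] at h2
    have h4 := add_right_cancel h2
    rw [h4]
    refine Finset.sum_congr rfl fun k _ => ?_
    congr 1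
    push_cast
    rw [add_div]
  induction j using Int.induction_on with
  | zero =>
    refine Finset.sum_congr rfl fun k _ => ?_
    simp
  | succ i ih =>
    rw [← ih, ← step (fun t => h (t + ((i : ℕ) : ℤ) / N)) (fun t => by
      rw [← hp (t + ((i : ℕ) : ℤ) / N)]
      congr 1
      ring)]
    refine Finset.sum_congr rfl fun k _ => ?_
    congr 1
    push_cast
    ring
  | pred i ih =>
    rw [← ih, ← step (fun t => h (t + ((-(i : ℕ) - 1 : ℤ) : ℝ) / N)) (fun t => by
      rw [← hp (t + ((-(i : ℕ) - 1 : ℤ) : ℝ) / N)]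
      congr 1
      ring)]
    refine Finset.sum_congr rfl fun k _ => ?_
    congr 1
    push_cast
    ring

end Pool.Agent.Helper84.HRT
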