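import Mathlib
import Pool.Agent.Helper84.HRT.DefsA
import Pool.Agent.Helper84.HRT.WB
import Pool.Agent.Helper84.HRT.XA

open MeasureTheory Complex Filter
open scoped ENNReal ComplexConjugate InnerProductSpace BigOperators Topology

namespace Pool.Agent.Helper84.HRT

variable {H : Type} [NormedAddCommGroup H] [InnerProductSpace ℂ H] [CompleteSpace H]
variable (W : Weyl H)

private theorem xb_node_cont : Continuous node := by
  unfold node
  fun_prop

theorem XL_integrable {μ : Measure ℝ} [IsFiniteMeasure μ] {M : ℝ} {ξ : ℝ → ℂ} (h : Bd μ M ξ)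
    (f : H) : Integrable (fun t => ξ t • W.U (node t) f) μ := by
  have hm : AEStronglyMeasurable (fun t => ξ t • W.U (node t) f) μ :=
    h.meas.aestronglyMeasurable.smul ((W.cont f).comp xb_node_cont).aestronglyMeasurable
  refine Integrable.of_bound hm (M * ‖f‖) ?_
  filter_upwards [h.bd] with t ht
  rw [norm_smul, W.norm_U]
  exact mul_le_mul_of_nonneg_right ht (norm_nonneg f)

private theorem xb_bound (μ : Measure ℝ) (ξ : ℝ → ℂ) (f : H) :
    ‖∫ t, ξ t • W.U (node t) f ∂μ‖ ≤ (∫ t, ‖ξ t‖ ∂μ) * ‖f‖ := by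
  refine (norm_integral_le_integral_norm _).trans (le_of_eq ?_)
  rw [← integral_mul_const]
  refine integral_congr_ae (Eventually.of_forall fun t => ?_)
  change ‖ξ t • W.U (node t) f‖ = ‖ξ t‖ * ‖f‖
  rw [norm_smul, W.norm_U]

private theorem xb_exists {μ : Measure ℝ} [IsFiniteMeasure μ] {M : ℝ} {ξ : ℝ → ℂ}
    (h : Bd μ M ξ) : ∃ T : H →L[ℂ] H, ∀ f, T f = ∫ t, ξ t • W.U (node t) f ∂μ := by
  refine ⟨LinearMap.mkContinuous
    { toFun := fun f => ∫ t, ξ t • W.U (node t) f ∂μ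
      map_add' := fun f g => ?_
      map_smul' := fun c f => ?_ } (∫ t, ‖ξ t‖ ∂μ) (fun f => xb_bound W μ ξ f), fun f => rfl⟩
  · rw [← integral_add (XL_integrable W h f) (XL_integrable W h g)]
    refine integral_congr_ae (Eventually.of_forall fun t => ?_)
    simp only [map_add, smul_add]
  · rw [RingHom.id_apply, ← integral_smul]
    refine integral_congr_ae (Eventually.of_forall fun t => ?_)
    simp only [map_smul]
    rw [smul_comm]

theorem XL_apply {μ : Measure ℝ} [IsFiniteMeasure μ] {M : ℝ} {ξ : ℝ → ℂ} (h : Bd μ M ξ) (f : H) :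
    XL W μ ξ f = ∫ t, ξ t • W.U (node t) f ∂μ :=
  Classical.epsilon_spec (xb_exists W h) f

/-- difference bound: L¹ norm of the coefficients -/
theorem norm_XL_L1 {μ : Measure ℝ} [IsFiniteMeasure μ] {M : ℝ} {ξ : ℝ → ℂ} (h : Bd μ M ξ) (f : H) :
    ‖XL W μ ξ f‖ ≤ (∫ t, ‖ξ t‖ ∂μ) * ‖f‖ := by
  rw [XL_apply W h]
  exact xb_bound W μ ξ f

theorem norm_XL_le {μ : Measure ℝ} [IsProbabilityMeasure μ] {M : ℝ} {ξ : ℝ → ℂ} (hM : 0 ≤ M)
    (h : Bd μ M ξ) : ‖XL W μ ξ‖ ≤ M := by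
  refine ContinuousLinearMap.opNorm_le_bound _ hM fun f => ?_
  refine (norm_XL_L1 W h f).trans (mul_le_mul_of_nonneg_right ?_ (norm_nonneg f))
  have h1 : ∫ t, ‖ξ t‖ ∂μ ≤ ∫ _t, M ∂μ :=
    integral_mono_of_nonneg (Eventually.of_forall fun t => norm_nonneg _) (integrable_const M) h.bd
  refine h1.trans (le_of_eq ?_)
  simp

theorem XL_congr {μ : Measure ℝ} {ξ η : ℝ → ℂ} (h : ξ =ᵐ[μ] η) : XL W μ ξ = XL W μ η := by
  unfold XL
  have h1 : ∀ f : H, ∫ t, ξ t • W.U (node t) f ∂μ = ∫ t, η t • W.U (node t) f ∂μ := by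
    intro f
    refine integral_congr_ae ?_
    filter_upwards [h] with t ht
    rw [ht]
  simp only [h1]

theorem XL_add {μ : Measure ℝ} [IsFiniteMeasure μ] {M M' : ℝ} {ξ η : ℝ → ℂ} (h : Bd μ M ξ)
    (h' : Bd μ M' η) : XL W μ (fun t => ξ t + η t) = XL W μ ξ + XL W μ η := by
  have h2 : Bd μ (M + M') (fun t => ξ t + η t) := by
    refine ⟨h.meas.add h'.meas, ?_⟩
    filter_upwards [h.bd, h'.bd] with t ht ht'
    exact (norm_add_le _ _).trans (add_le_add ht ht')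
  refine ContinuousLinearMap.ext fun f => ?_
  rw [_root_.add_apply, XL_apply W h2, XL_apply W h, XL_apply W h',
    ← integral_add (XL_integrable W h f) (XL_integrable W h' f)]
  refine integral_congr_ae (Eventually.of_forall fun t => ?_)
  simp only [add_smul]

theorem XL_sub {μ : Measure ℝ} [IsFiniteMeasure μ] {M M' : ℝ} {ξ η : ℝ → ℂ} (h : Bd μ M ξ)
    (h' : Bd μ M' η) : XL W μ (fun t => ξ t - η t) = XL W μ ξ - XL W μ η := by
  have h2 : Bd μ (M + M') (fun t => ξ t - η t) := by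
    refine ⟨h.meas.sub h'.meas, ?_⟩
    filter_upwards [h.bd, h'.bd] with t ht ht'
    exact (norm_sub_le _ _).trans (add_le_add ht ht')
  refine ContinuousLinearMap.ext fun f => ?_
  rw [_root_.sub_apply, XL_apply W h2, XL_apply W h, XL_apply W h',
    ← integral_sub (XL_integrable W h f) (XL_integrable W h' f)]
  refine integral_congr_ae (Eventually.of_forall fun t => ?_)
  simp only [sub_smul]

theorem XL_smul {μ : Measure ℝ} [IsFiniteMeasure μ] {M : ℝ} {ξ : ℝ → ℂ} (h : Bd μ M ξ) (a : ℂ) :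
    XL W μ (fun t => a * ξ t) = a • XL W μ ξ := by
  have h2 : Bd μ (‖a‖ * M) (fun t => a * ξ t) := by
    refine ⟨h.meas.const_mul a, ?_⟩
    filter_upwards [h.bd] with t ht
    rw [norm_mul]
    exact mul_le_mul_of_nonneg_left ht (norm_nonneg a)
  refine ContinuousLinearMap.ext fun f => ?_
  rw [_root_.smul_apply, XL_apply W h2, XL_apply W h, ← integral_smul]
  refine integral_congr_ae (Eventually.of_forall fun t => ?_)
  simp only [mul_smul]

theorem XL_muN {N : ℕ} (hN : 0 < N) {ξ : ℝ → ℂ} (hξ : Measurable ξ) (f : H) :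
    XL W (muN N) ξ f =
      ((1 : ℂ) / N) • ∑ k ∈ Finset.range N, ξ ((k : ℝ) / N) • W.U (node ((k : ℝ) / N)) f := by
  have h : Bd (muN N) (∑ k ∈ Finset.range N, ‖ξ ((k : ℝ) / N)‖) ξ := by
    refine ⟨hξ, (muN_ae hN _).2 fun k hk => ?_⟩
    exact Finset.single_le_sum (f := fun k : ℕ => ‖ξ ((k : ℝ) / N)‖)
      (fun _ _ => norm_nonneg _) (Finset.mem_range.2 hk)
  rw [XL_apply W h, muN_integral hN]

theorem inner_XL {μ : Measure ℝ} [IsFiniteMeasure μ] {M : ℝ} {ξ : ℝ → ℂ} (h : Bd μ M ξ)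
    (f f' : H) : inner ℂ f' (XL W μ ξ f) = ∫ t, ξ t * inner ℂ f' (W.U (node t) f) ∂μ := by
  rw [XL_apply W h, ← integral_inner (XL_integrable W h f)]
  refine integral_congr_ae (Eventually.of_forall fun t => ?_)
  simp only [inner_smul_right]

theorem V_XL {μ : Measure ℝ} [IsFiniteMeasure μ] {M : ℝ} {ξ : ℝ → ℂ} (h : Bd μ M ξ) (f : H)
    (z : ℂ) : W.V (XL W μ ξ f) z = actX μ ξ (W.V f) z := by
  unfold Weyl.V actX
  rw [inner_XL W h]
  refine integral_congr_ae (Eventually.of_forall fun t => ?_)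
  have h1 := V_U W (node t) f z
  unfold Weyl.V at h1
  simp only [h1]

theorem V_Bop (D : Data) (γ : Fin D.m → ℂ) (f : H) (z : ℂ) :
    W.V (Bop W D γ f) z = actB D γ (W.V f) z := by
  unfold Bop actB Weyl.V
  rw [_root_.sum_apply, inner_sum]
  refine Finset.sum_congr rfl fun i _ => ?_
  have h1 := V_U W (node (D.τ i)) f z
  unfold Weyl.V at h1
  rw [_root_.smul_apply, inner_smul_right, h1]

theorem V_Aop {μ : Measure ℝ} [IsFiniteMeasure μ] {M : ℝ} {ξ : ℝ → ℂ} (h : Bd μ M ξ) (D : Data)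
    (γ : Fin D.m → ℂ) (f : H) (z : ℂ) :
    W.V (Aop W D μ γ ξ f) z = actA D μ γ ξ (W.V f) z := by
  unfold Aop actA
  rw [_root_.add_apply, V_add, V_Bop, V_XL W h]

private theorem xb_norm_U_le (α : ℂ) : ‖W.U α‖ ≤ 1 :=
  ContinuousLinearMap.opNorm_le_bound _ zero_le_one fun f => by rw [W.norm_U, one_mul]

theorem norm_Bop_le (D : Data) {γ : Fin D.m → ℂ} (hγ : ∀ i, ‖γ i‖ ≤ 1) :
    ‖Bop W D γ‖ ≤ ∑ i, ‖D.β i‖ := by
  unfold Bop
  refine (norm_sum_le _ _).trans (Finset.sum_le_sum fun i _ => ?_)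
  rw [norm_smul, norm_mul]
  calc ‖D.β i‖ * ‖γ i‖ * ‖W.U (node (D.τ i))‖ ≤ ‖D.β i‖ * 1 * 1 :=
        mul_le_mul (mul_le_mul_of_nonneg_left (hγ i) (norm_nonneg _)) (xb_norm_U_le W _)
          (norm_nonneg _) (by positivity)
    _ = ‖D.β i‖ := by ring

theorem norm_Bop_sub (D : Data) (γ γ' : Fin D.m → ℂ) :
    ‖Bop W D γ - Bop W D γ'‖ ≤ ∑ i, ‖D.β i‖ * ‖γ i - γ' i‖ := by
  unfold Bop
  rw [← Finset.sum_sub_distrib]
  refine (norm_sum_le _ _).trans (Finset.sum_le_sum fun i _ => ?_)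
  rw [← sub_smul, ← mul_sub, norm_smul, norm_mul]
  calc ‖D.β i‖ * ‖γ i - γ' i‖ * ‖W.U (node (D.τ i))‖ ≤ ‖D.β i‖ * ‖γ i - γ' i‖ * 1 :=
        mul_le_mul_of_nonneg_left (xb_norm_U_le W _) (by positivity)
    _ = ‖D.β i‖ * ‖γ i - γ' i‖ := by ring

end Pool.Agent.Helper84.HRT
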