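import Mathlib
import Pool.Agent.Helper84.HRT.DefsA

open MeasureTheory Complex Filter
open scoped ENNReal ComplexConjugate InnerProductSpace BigOperators Topology

namespace Pool.Agent.Helper84.HRT

variable {H : Type} [NormedAddCommGroup H] [InnerProductSpace ℂ H] [CompleteSpace H]

/-! ### Cells -/

theorem xc_cell_le {N : ℕ} (hN : 0 < N) (t : ℝ) : cell N t ≤ t := by
  have hN' : (0 : ℝ) < N := by exact_mod_cast hN
  unfold cell
  rw [div_le_iff₀ hN', mul_comm]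
  exact Int.floor_le _

theorem xc_lt_cell {N : ℕ} (hN : 0 < N) (t : ℝ) : t < cell N t + 1 / N := by
  have hN' : (0 : ℝ) < N := by exact_mod_cast hN
  unfold cell
  rw [← add_div, lt_div_iff₀ hN', mul_comm]
  exact Int.lt_floor_add_one _

theorem xc_cell_cell {N : ℕ} (hN : 0 < N) (t : ℝ) : cell N (cell N t) = cell N t := by
  have hN' : (N : ℝ) ≠ 0 := by
    have : (0 : ℝ) < N := by exact_mod_cast hN
    exact this.ne'
  unfold cell
  rw [mul_div_cancel₀ _ hN', Int.floor_intCast]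

theorem xc_cell_half {N : ℕ} (hN : 0 < N) (h2 : 2 ∣ N) (t : ℝ) :
    cell N (t + 1 / 2) = cell N t + 1 / 2 := by
  have hN' : (N : ℝ) ≠ 0 := by
    have : (0 : ℝ) < N := by exact_mod_cast hN
    exact this.ne'
  obtain ⟨k, rfl⟩ := h2
  unfold cell
  have h1 : ((2 * k : ℕ) : ℝ) * (t + 1 / 2) = ((2 * k : ℕ) : ℝ) * t + (k : ℤ) := by
    push_cast
    ring
  rw [h1, Int.floor_add_intCast]
  have hk : (k : ℝ) ≠ 0 := by
    intro h0
    apply hN'
    push_cast
    rw [h0, mul_zero]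
  push_cast
  rw [add_div]
  congr 1
  rw [div_eq_div_iff (mul_ne_zero two_ne_zero hk) two_ne_zero]
  ring

theorem xc_mem_Icc {N : ℕ} (hN : 0 < N) (t : ℝ) :
    t ∈ Set.Icc (cell N t - 1 / N) (cell N t + 1 / N) := by
  have hN' : (0 : ℝ) < N := by exact_mod_cast hN
  have h1 : (0 : ℝ) < 1 / N := by positivity
  have := xc_cell_le hN t
  exact ⟨by linarith, (xc_lt_cell hN t).le⟩

theorem xc_bdd (D : Data) (s : Set ℝ) : BddBelow (D.κ '' s) :=
  ⟨0, by rintro _ ⟨t, _, rfl⟩; exact D.κ_nonneg t⟩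

theorem kN_le (D : Data) {N : ℕ} (hN : 0 < N) (t : ℝ) : D.κN N t ≤ D.κ t :=
  csInf_le (xc_bdd D _) (Set.mem_image_of_mem _ (xc_mem_Icc hN t))

theorem kN_nonneg (D : Data) {N : ℕ} (hN : 0 < N) (t : ℝ) : 0 ≤ D.κN N t := by
  refine Real.sInf_nonneg ?_
  rintro _ ⟨s, _, rfl⟩
  exact D.κ_nonneg s

theorem kN_step (D : Data) {N : ℕ} (hN : 0 < N) (t : ℝ) : D.κN N (cell N t) = D.κN N t := by
  unfold Data.κN
  rw [xc_cell_cell hN]

theorem kN_half (D : Data) {N : ℕ} (hN : 0 < N) (h2 : 2 ∣ N) (t : ℝ) :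
    D.κN N (t + 1 / 2) = D.κN N t := by
  unfold Data.κN
  rw [xc_cell_half hN h2]
  congr 1
  ext y
  constructor
  · rintro ⟨s, ⟨hs1, hs2⟩, rfl⟩
    refine ⟨s - 1 / 2, ⟨by linarith, by linarith⟩, ?_⟩
    have := D.κ_per (s - 1 / 2)
    rw [sub_add_cancel] at this
    exact this.symm
  · rintro ⟨s, ⟨hs1, hs2⟩, rfl⟩
    exact ⟨s + 1 / 2, ⟨by linarith, by linarith⟩, D.κ_per s⟩

/-- κ_N → κ at good points, along every sequence N → ∞. -/
theorem kN_tendsto (D : Data) (t : ℝ) (ht : t ∉ D.κbad) :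
    Tendsto (fun N : ℕ => D.κN N t) atTop (𝓝 (D.κ t)) := by
  have hc := D.κ_cont t ht
  rw [Metric.continuousAt_iff] at hc
  rw [Metric.tendsto_atTop]
  intro ε hε
  obtain ⟨δ, hδ, h⟩ := hc (ε / 2) (by linarith)
  obtain ⟨n, hn⟩ := exists_nat_gt (2 / δ)
  refine ⟨max n 1, fun N hN => ?_⟩
  have hN1 : 0 < N := lt_of_lt_of_le Nat.one_pos ((le_max_right _ _).trans hN)
  have hN' : (0 : ℝ) < N := by exact_mod_cast hN1
  have hnN : (n : ℝ) ≤ N := by exact_mod_cast (le_max_left _ _).trans hN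
  have h2 : 2 / (N : ℝ) < δ := by
    rw [div_lt_iff₀ hN']
    rw [div_lt_iff₀ hδ] at hn
    nlinarith
  have hle := kN_le D hN1 t
  have hge : D.κ t - ε / 2 ≤ D.κN N t := by
    refine le_csInf ⟨_, Set.mem_image_of_mem _ (xc_mem_Icc hN1 t)⟩ ?_
    rintro _ ⟨s, ⟨hs1, hs2⟩, rfl⟩
    have h3 := xc_cell_le hN1 t
    have h4 := xc_lt_cell hN1 t
    have h5 : dist s t < δ := by
      rw [Real.dist_eq, abs_lt]
      have h6 : (1 : ℝ) / N + 1 / N = 2 / N := by ring
      constructor <;> linarith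
    have h7 := h h5
    rw [Real.dist_eq, abs_lt] at h7
    linarith [h7.1]
  rw [Real.dist_eq, abs_lt]
  constructor <;> linarith

theorem xc_bad_int (D : Data) (t : ℝ) (k : ℤ) : t + k / 2 ∈ D.κbad ↔ t ∈ D.κbad := by
  induction k using Int.induction_on with
  | zero => simp
  | succ i ih =>
    have h1 := D.κbad_per (t + ((i : ℤ) : ℝ) / 2)
    have : t + ((i : ℤ) : ℝ) / 2 + 1 / 2 = t + (((i : ℤ) + 1 : ℤ) : ℝ) / 2 := by
      push_cast
      ring
    rw [this] at h1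
    exact h1.trans ih
  | pred i ih =>
    have h1 := D.κbad_per (t + ((-(i : ℤ) - 1 : ℤ) : ℝ) / 2)
    have : t + ((-(i : ℤ) - 1 : ℤ) : ℝ) / 2 + 1 / 2 = t + ((-(i : ℤ) : ℤ) : ℝ) / 2 := by
      push_cast
      ring
    rw [this] at h1
    exact h1.symm.trans ih

theorem bad_null (D : Data) : ∀ᵐ t : ℝ, t ∉ D.κbad := by
  have hcount : D.κbad.Countable := by
    have h1 : D.κbad ⊆ ⋃ k : ℤ, (fun s : ℝ => s + (k : ℝ) / 2) '' (D.κbad ∩ Set.Icc 0 1) := by
      intro t ht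
      rw [Set.mem_iUnion]
      refine ⟨⌊2 * t⌋, t - (⌊2 * t⌋ : ℝ) / 2, ⟨?_, ?_⟩, by ring⟩
      · have := xc_bad_int D (t - (⌊2 * t⌋ : ℝ) / 2) ⌊2 * t⌋
        rw [sub_add_cancel] at this
        exact this.mp ht
      · have h2 := Int.floor_le (2 * t)
        have h3 := Int.lt_floor_add_one (2 * t)
        constructor <;> linarith
    refine Set.Countable.mono h1 ?_
    refine Set.countable_iUnion fun k => ?_
    exact (D.κbad_fin.countable).image _
  exact hcount.ae_notMem volume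

/-! ### Characters -/

theorem xc_chi_norm (w α : ℂ) : ‖chi w α‖ = 1 := by
  unfold chi
  rw [← Complex.ofReal_neg, Complex.norm_exp_ofReal_mul_I]

theorem xc_chi_neg_left (w α : ℂ) : chi (-w) α = conj (chi w α) := by
  unfold chi
  rw [← Complex.exp_conj]
  congr 1
  have h1 : (α * conj (-w)).im = -(α * conj w).im := by
    rw [map_neg, mul_neg, Complex.neg_im]
  rw [h1, map_mul, map_neg, Complex.conj_I, Complex.conj_ofReal]
  push_cast
  ring

theorem xc_chi_neg_right (w α : ℂ) : chi w (-α) = conj (chi w α) := by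
  unfold chi
  rw [← Complex.exp_conj]
  congr 1
  have h1 : (-α * conj w).im = -(α * conj w).im := by
    rw [neg_mul, Complex.neg_im]
  rw [h1, map_mul, map_neg, Complex.conj_I, Complex.conj_ofReal]
  push_cast
  ring

theorem xc_chi_add (w w' α : ℂ) : chi (w + w') α = chi w α * chi w' α := by
  unfold chi
  rw [← Complex.exp_add]
  congr 1
  rw [map_add, mul_add, Complex.add_im]
  push_cast
  ring

theorem xc_node_half (t : ℝ) : node (t + 1 / 2) = -node t := by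
  unfold node
  have : ((2 * Real.pi * (t + 1 / 2) : ℝ) : ℂ) * I =
      ((2 * Real.pi * t : ℝ) : ℂ) * I + (Real.pi : ℂ) * I := by
    push_cast
    ring
  rw [this, Complex.exp_add, Complex.exp_pi_mul_I, mul_neg_one]

theorem xc_node_cont : Continuous node := by
  unfold node
  fun_prop

theorem xc_chi_cont (w : ℂ) : Continuous (chi w) := by
  unfold chi
  have h1 : Continuous fun α : ℂ => (2 * (α * conj w).im : ℝ) := by
    have : Continuous fun α : ℂ => (α * conj w).im := by fun_prop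
    exact continuous_const.mul this
  exact Complex.continuous_exp.comp
    (((Complex.continuous_ofReal.comp h1).neg).mul continuous_const)

/-! ### The classes -/

theorem xc_norm_le' {D : Data} {N : ℕ} {r : ℝ} {ξ : ℝ → ℂ} (hN : 0 < N) (h : D.AdmN N r ξ)
    (hr : 0 ≤ r) (t : ℝ) : ‖ξ t‖ ≤ r * D.κ t :=
  (h.bd t).trans (mul_le_mul_of_nonneg_left (kN_le D hN t) hr)

theorem xc_meas {D : Data} {N : ℕ} {r : ℝ} {ξ : ℝ → ℂ} (h : D.AdmN N r ξ) : Measurable ξ := by
  have h1 : ξ = (fun z : ℤ => ξ ((z : ℝ) / N)) ∘ fun t : ℝ => ⌊(N : ℝ) * t⌋ := by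
    funext t
    exact (h.step t).symm
  rw [h1]
  exact (measurable_of_countable _).comp (Int.measurable_floor.comp (measurable_const_mul _))

theorem AdmN.adm {D : Data} {N : ℕ} {r : ℝ} {ξ : ℝ → ℂ} (hN : 0 < N) (h : D.AdmN N r ξ)
    (hr : 0 ≤ r) : D.Adm r ξ where
  meas := xc_meas h
  sym := Eventually.of_forall h.sym
  bd := Eventually.of_forall (xc_norm_le' hN h hr)

theorem AdmN.norm_le {D : Data} {N : ℕ} {r : ℝ} {ξ : ℝ → ℂ} (hN : 0 < N) (h : D.AdmN N r ξ)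
    (hr : 0 ≤ r) (t : ℝ) : ‖ξ t‖ ≤ r :=
  (xc_norm_le' hN h hr t).trans (mul_le_of_le_one_right hr (D.κ_le t))

theorem AdmN.bdN {D : Data} {N : ℕ} {r : ℝ} {ξ : ℝ → ℂ} (hN : 0 < N) (h : D.AdmN N r ξ)
    (hr : 0 ≤ r) : Bd (muN N) r ξ where
  meas := xc_meas h
  bd := Eventually.of_forall (AdmN.norm_le hN h hr)

theorem Adm.bd8 {D : Data} {r : ℝ} {ξ : ℝ → ℂ} (h : D.Adm r ξ) (hr : 0 ≤ r) : Bd mu8 r ξ where
  meas := h.meas
  bd := by
    unfold mu8
    refine ae_restrict_of_ae ?_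
    filter_upwards [h.bd] with t ht
    exact ht.trans (mul_le_of_le_one_right hr (D.κ_le t))

theorem xc_twx_adm {D : Data} {r : ℝ} {ξ : ℝ → ℂ} (h : D.Adm r ξ) (w : ℂ) :
    D.Adm r (twx w ξ) where
  meas := by
    unfold twx
    refine h.meas.mul ?_
    exact (Complex.continuous_conj.comp ((xc_chi_cont w).comp xc_node_cont)).measurable
  sym := by
    filter_upwards [h.sym] with t ht
    unfold twx
    rw [ht, xc_node_half, xc_chi_neg_right, map_mul]
  bd := by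
    filter_upwards [h.bd] with t ht
    unfold twx
    rw [norm_mul, RCLike.norm_conj, xc_chi_norm, mul_one]
    exact ht

theorem Adm.twx {D : Data} {r : ℝ} {ξ : ℝ → ℂ} (h : D.Adm r ξ) (w : ℂ) :
    D.Adm r (twx w ξ) := xc_twx_adm h w

theorem xc_twN_adm {D : Data} {N : ℕ} {r : ℝ} {ξ : ℝ → ℂ} (hN : 0 < N) (h2 : 2 ∣ N)
    (h : D.AdmN N r ξ) (w : ℂ) : D.AdmN N r (twN N w ξ) where
  step t := by
    unfold twN
    rw [xc_cell_cell hN, h.step]
  sym t := by
    unfold twN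
    rw [h.sym, xc_cell_half hN h2, xc_node_half, xc_chi_neg_right, map_mul]
  bd t := by
    unfold twN
    rw [norm_mul, RCLike.norm_conj, xc_chi_norm, mul_one]
    exact h.bd t

theorem AdmN.twN {D : Data} {N : ℕ} {r : ℝ} {ξ : ℝ → ℂ} (hN : 0 < N) (h2 : 2 ∣ N)
    (h : D.AdmN N r ξ) (w : ℂ) : D.AdmN N r (twN N w ξ) := xc_twN_adm hN h2 h w

theorem AdmN.smul {D : Data} {N : ℕ} {r a : ℝ} {ξ : ℝ → ℂ} (ha : 0 ≤ a) (h : D.AdmN N r ξ) :
    D.AdmN N (a * r) (fun t => (a : ℂ) * ξ t) where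
  step t := by
    rw [h.step]
  sym t := by
    rw [h.sym, map_mul, Complex.conj_ofReal]
  bd t := by
    rw [norm_mul, Complex.norm_real, Real.norm_eq_abs, abs_of_nonneg ha, mul_assoc]
    exact mul_le_mul_of_nonneg_left (h.bd t) ha

theorem Adm.smul {D : Data} {r a : ℝ} {ξ : ℝ → ℂ} (ha : 0 ≤ a) (h : D.Adm r ξ) :
    D.Adm (a * r) (fun t => (a : ℂ) * ξ t) where
  meas := h.meas.const_mul _
  sym := by
    filter_upwards [h.sym] with t ht
    rw [ht, map_mul, Complex.conj_ofReal]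
  bd := by
    filter_upwards [h.bd] with t ht
    rw [norm_mul, Complex.norm_real, Real.norm_eq_abs, abs_of_nonneg ha, mul_assoc]
    exact mul_le_mul_of_nonneg_left ht ha

theorem AdmN.mono {D : Data} {N : ℕ} {r r' : ℝ} {ξ : ℝ → ℂ} (hN : 0 < N) (hr : r ≤ r')
    (h : D.AdmN N r ξ) : D.AdmN N r' ξ where
  step := h.step
  sym := h.sym
  bd t := (h.bd t).trans (mul_le_mul_of_nonneg_right hr (kN_nonneg D hN t))

theorem Adm.mono {D : Data} {r r' : ℝ} {ξ : ℝ → ℂ} (hr : r ≤ r') (h : D.Adm r ξ) :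
    D.Adm r' ξ where
  meas := h.meas
  sym := h.sym
  bd := by
    filter_upwards [h.bd] with t ht
    exact ht.trans (mul_le_mul_of_nonneg_right hr (D.κ_nonneg t))

theorem tw_mem {D : Data} {γ : Fin D.m → ℂ} (h : γ ∈ D.Γ) (w : ℂ) : D.tw w γ ∈ D.Γ := by
  have h1 := D.Γ_chi γ h (-w)
  have h2 : D.tw w γ = fun i => γ i * chi (-w) (node (D.τ i)) := by
    funext i
    unfold Data.tw
    rw [xc_chi_neg_left]
  rw [h2]
  exact h1

theorem tw_tw (D : Data) (w w' : ℂ) (γ : Fin D.m → ℂ) :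
    D.tw w' (D.tw w γ) = D.tw (w + w') γ := by
  funext i
  unfold Data.tw
  rw [xc_chi_add, map_mul, mul_assoc]

theorem twN_twN (N : ℕ) (w w' : ℂ) (ξ : ℝ → ℂ) : twN N w' (twN N w ξ) = twN N (w + w') ξ := by
  funext t
  unfold twN
  rw [xc_chi_add, map_mul, mul_assoc]

theorem twx_twx (w w' : ℂ) (ξ : ℝ → ℂ) : twx w' (twx w ξ) = twx (w + w') ξ := by
  funext t
  unfold twx
  rw [xc_chi_add, map_mul, mul_assoc]

/-! ### The levels -/

theorem NN_pos (D : Data) (n : ℕ) : 0 < D.NN n :=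
  Nat.mul_pos (Nat.factorial_pos n) D.d0_pos

theorem NN_even (D : Data) (n : ℕ) : 2 ∣ D.NN n :=
  Dvd.dvd.mul_left D.d0_even.two_dvd _

theorem NN_dvd (D : Data) {n p : ℕ} (hp : 0 < p) (h : p ≤ n) : p ∣ D.NN n :=
  Dvd.dvd.mul_right (Nat.dvd_factorial hp h) _

theorem NN_node (D : Data) (n : ℕ) (i : Fin D.m) : ∃ k : ℕ, D.τ i = k / D.NN n := by
  obtain ⟨k, hk⟩ := D.τ_rat i
  refine ⟨n.factorial * k, ?_⟩
  rw [hk]
  unfold Data.NN
  push_cast
  have h1 : (n.factorial : ℝ) ≠ 0 := by exact_mod_cast Nat.factorial_ne_zero n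
  rw [mul_div_mul_left _ _ h1]

theorem NN_tendsto (D : Data) : Tendsto D.NN atTop atTop := by
  refine tendsto_atTop_mono (f := fun n : ℕ => n) (fun n => ?_) tendsto_id
  unfold Data.NN
  exact (Nat.self_le_factorial n).trans (Nat.le_mul_of_pos_right _ D.d0_pos)

end Pool.Agent.Helper84.HRT
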