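import Mathlib
import Pool.Agent.Helper84.HRT.DefsA
import Pool.Agent.Helper84.HRT.WA
import Pool.Agent.Helper84.HRT.WC
import Pool.Agent.Helper84.HRT.XB
import Pool.Agent.Helper84.HRT.XC

open MeasureTheory Complex Filter
open scoped ENNReal ComplexConjugate InnerProductSpace BigOperators Topology

namespace Pool.Agent.Helper84.HRT

variable {H : Type} [NormedAddCommGroup H] [InnerProductSpace ℂ H] [CompleteSpace H]

theorem fk2_node_add_nat (t : ℝ) (j : ℕ) : node (t + j) = node t := by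
  induction j with
  | zero => simp
  | succ j ih =>
    rw [← ih, ← node_add_one (t + j)]
    congr 1
    push_cast
    ring

/-- every base node is a node of level `n` -/
theorem fk2_index (D : Data) (n : ℕ) (i : Fin D.m) :
    ∃ k < D.NN n, node ((k : ℝ) / (D.NN n : ℕ)) = node (D.τ i) := by
  obtain ⟨k, hk⟩ := D.τ_rat i
  have hd : (0 : ℝ) < D.d0 := by exact_mod_cast D.d0_pos
  have hf : (0 : ℝ) < (n.factorial : ℝ) := by exact_mod_cast n.factorial_pos
  refine ⟨n.factorial * (k % D.d0), ?_, ?_⟩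
  · unfold Data.NN
    exact Nat.mul_lt_mul_of_pos_left (Nat.mod_lt _ D.d0_pos) n.factorial_pos
  · have h1 : ((n.factorial * (k % D.d0) : ℕ) : ℝ) / (D.NN n : ℕ) = ((k % D.d0 : ℕ) : ℝ) / D.d0 := by
      unfold Data.NN
      push_cast
      field_simp
    have h2 : (k : ℝ) / D.d0 = ((k % D.d0 : ℕ) : ℝ) / D.d0 + ((k / D.d0 : ℕ) : ℝ) := by
      have h3 : ((k : ℕ) : ℝ) = ((D.d0 * (k / D.d0) + k % D.d0 : ℕ) : ℝ) := by
        rw [Nat.div_add_mod]
      rw [h3, Nat.cast_add, Nat.cast_mul, add_div, mul_div_cancel_left₀ _ hd.ne', add_comm]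
    rw [h1, hk, h2, fk2_node_add_nat]

theorem fk2_g0_ne (W : Weyl H) : W.g0 ≠ 0 := by
  intro h
  have h1 := W.g0_inner 0
  rw [W.U_zero, h, inner_zero_left] at h1
  simp at h1

/-- the coefficients of a singular pattern operator are not all zero -/
theorem coeff_of_Aop (W : Weyl H) (D : Data) (g C0 : ℝ) (hg : 0 < g)
    (hE0 : ∀ γ ∈ D.Γ, ∀ f : H, g * ‖f‖ ≤ ‖Bop W D γ f‖) :
    ∃ n0 : ℕ, ∀ n, n0 ≤ n → ∀ γ ∈ D.Γ, ∀ ξ r, 0 ≤ r → r ≤ C0 → D.AdmN (D.NN n) r ξ →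
      ∃ c : ℕ → ℂ, (∃ k < D.NN n, c k ≠ 0) ∧ ∀ u : H, Aop W D (muN (D.NN n)) γ ξ u =
        ∑ k ∈ Finset.range (D.NN n), c k • W.U (node ((k : ℝ) / (D.NN n : ℕ))) u := by
  classical
  by_cases hΓ : ∃ γ, γ ∈ D.Γ
  swap
  · exact ⟨0, fun n _ γ hγ => absurd ⟨γ, hγ⟩ hΓ⟩
  obtain ⟨γ0, hγ0⟩ := hΓ
  -- some coefficient is nonzero
  have hβ : ∃ i0, D.β i0 ≠ 0 := by
    by_contra hcon
    push Not at hcon
    have h1 := hE0 γ0 hγ0 W.g0
    have h2 : Bop W D γ0 W.g0 = 0 := by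
      unfold Bop
      rw [_root_.sum_apply]
      apply Finset.sum_eq_zero
      intro i _
      rw [hcon i, zero_mul, zero_smul]
      rfl
    rw [h2, norm_zero] at h1
    have h3 : 0 < ‖W.g0‖ := norm_pos_iff.mpr (fk2_g0_ne W)
    have h4 : 0 < g * ‖W.g0‖ := mul_pos hg h3
    linarith
  obtain ⟨i0, hi0⟩ := hβ
  have hb : 0 < ‖D.β i0‖ := norm_pos_iff.mpr hi0
  obtain ⟨n1, hn1⟩ := exists_nat_gt (C0 / ‖D.β i0‖)
  refine ⟨n1, ?_⟩
  intro n hn γ hγ ξ r hr0 hrC hξ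
  have hN : 0 < D.NN n := Nat.mul_pos n.factorial_pos D.d0_pos
  have hNr : (0 : ℝ) < (D.NN n : ℕ) := by exact_mod_cast hN
  have hnN : (n : ℝ) ≤ (D.NN n : ℕ) := by
    have h1 : n ≤ D.NN n := by
      unfold Data.NN
      exact (Nat.self_le_factorial n).trans (Nat.le_mul_of_pos_right _ D.d0_pos)
    exact_mod_cast h1
  choose idx hidx1 hidx2 using fk2_index D n
  refine ⟨fun k => (1 / (D.NN n : ℕ) : ℂ) * ξ ((k : ℝ) / (D.NN n : ℕ)) +
    ∑ i ∈ Finset.univ.filter (fun i => idx i = k), D.β i * γ i, ?_, ?_⟩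
  · refine ⟨idx i0, hidx1 i0, ?_⟩
    have h1 : (Finset.univ.filter fun i => idx i = idx i0) = {i0} := by
      ext i
      simp only [Finset.mem_filter, Finset.mem_univ, true_and, Finset.mem_singleton]
      constructor
      · intro h
        apply D.τ_inj
        rw [← hidx2 i, ← hidx2 i0, h]
      · rintro rfl
        rfl
    intro h0
    have h0' : (1 / (D.NN n : ℕ) : ℂ) * ξ ((idx i0 : ℝ) / (D.NN n : ℕ)) +
        ∑ i ∈ Finset.univ.filter (fun i => idx i = idx i0), D.β i * γ i = 0 := h0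
    rw [h1, Finset.sum_singleton] at h0'
    have h2 : D.β i0 * γ i0 = -((1 / (D.NN n : ℕ) : ℂ) * ξ ((idx i0 : ℝ) / (D.NN n : ℕ))) := by
      linear_combination h0'
    have h3 : ‖D.β i0‖ = ‖(1 / (D.NN n : ℕ) : ℂ) * ξ ((idx i0 : ℝ) / (D.NN n : ℕ))‖ := by
      have h3' : ‖D.β i0 * γ i0‖ = ‖D.β i0‖ := by rw [norm_mul, D.Γ_one γ hγ i0, mul_one]
      rw [← h3', h2, norm_neg]
    rw [norm_mul] at h3
    have h4 : ‖(1 / (D.NN n : ℕ) : ℂ)‖ = 1 / (D.NN n : ℕ) := by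
      rw [norm_div, norm_one, Complex.norm_natCast]
    have h5 : ‖ξ ((idx i0 : ℝ) / (D.NN n : ℕ))‖ ≤ C0 := (AdmN.norm_le hN hξ hr0 _).trans hrC
    rw [h4] at h3
    have h6 : ‖D.β i0‖ ≤ 1 / (D.NN n : ℕ) * C0 := by
      rw [h3]
      exact mul_le_mul_of_nonneg_left h5 (by positivity)
    have h7 : C0 < ‖D.β i0‖ * n1 := by
      rw [div_lt_iff₀ hb] at hn1
      linarith
    have h8 : (n1 : ℝ) ≤ (D.NN n : ℕ) := by
      have h9 : (n1 : ℝ) ≤ n := by exact_mod_cast hn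
      linarith
    have h10 : ‖D.β i0‖ * (D.NN n : ℕ) ≤ C0 := by
      have h11 := mul_le_mul_of_nonneg_right h6 hNr.le
      have h12 : 1 / ((D.NN n : ℕ) : ℝ) * C0 * (D.NN n : ℕ) = C0 := by
        field_simp
      linarith
    have h13 : ‖D.β i0‖ * n1 ≤ ‖D.β i0‖ * (D.NN n : ℕ) := mul_le_mul_of_nonneg_left h8 hb.le
    linarith
  · intro u
    have hmeas : Measurable ξ := step_meas (N := D.NN n) ξ hξ.step
    have h1 : Aop W D (muN (D.NN n)) γ ξ u = Bop W D γ u + XL W (muN (D.NN n)) ξ u := rfl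
    rw [h1, XL_muN W hN hmeas u]
    have h2 : Bop W D γ u = ∑ i, (D.β i * γ i) • W.U (node (D.τ i)) u := by
      unfold Bop
      rw [_root_.sum_apply]
      rfl
    have h3 : ∑ k ∈ Finset.range (D.NN n), (∑ i ∈ Finset.univ.filter (fun i => idx i = k),
        D.β i * γ i) • W.U (node ((k : ℝ) / (D.NN n : ℕ))) u = Bop W D γ u := by
      rw [h2]
      have h4 : ∀ k ∈ Finset.range (D.NN n), (∑ i ∈ Finset.univ.filter (fun i => idx i = k),
          D.β i * γ i) • W.U (node ((k : ℝ) / (D.NN n : ℕ))) u =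
          ∑ i ∈ Finset.univ.filter (fun i => idx i = k),
            (D.β i * γ i) • W.U (node (D.τ i)) u := by
        intro k _
        rw [Finset.sum_smul]
        apply Finset.sum_congr rfl
        intro i hi
        rw [Finset.mem_filter] at hi
        rw [← hi.2, hidx2 i]
      rw [Finset.sum_congr rfl h4]
      exact Finset.sum_fiberwise_of_maps_to (fun i _ => Finset.mem_range.mpr (hidx1 i)) _
    rw [← h3, Finset.smul_sum, add_comm, ← Finset.sum_add_distrib]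
    apply Finset.sum_congr rfl
    intro k _
    rw [add_smul, mul_smul]

end Pool.Agent.Helper84.HRT
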