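import Mathlib
import Pool.Agent.Helper84.HRT.DefsA

open MeasureTheory Complex Filter
open scoped ENNReal ComplexConjugate InnerProductSpace BigOperators Topology

namespace Pool.Agent.Helper84.HRT

variable {H : Type} [NormedAddCommGroup H] [InnerProductSpace ℂ H] [CompleteSpace H]

instance dA_haar : (dA).IsAddHaarMeasure := by
  unfold dA
  have h1 : ENNReal.ofReal (1 / Real.pi) ≠ 0 := by
    simp [Real.pi_pos]
  exact Measure.IsAddHaarMeasure.smul _ h1 ENNReal.ofReal_ne_top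

private theorem yg_cs (h F : ℂ → ℝ≥0∞) (hh : Measurable h) (hF : Measurable F) :
    (∫⁻ x, h x * F x ∂dA) ^ 2 ≤ (∫⁻ x, h x ∂dA) * ∫⁻ x, h x * F x ^ 2 ∂dA := by
  have e : ∀ x, h x * F x = (h x) ^ (1 / 2 : ℝ) * ((h x) ^ (1 / 2 : ℝ) * F x) := by
    intro x
    rw [← mul_assoc, ← ENNReal.rpow_add_of_nonneg _ _ (by norm_num) (by norm_num)]
    norm_num
  have hol := ENNReal.lintegral_mul_le_Lp_mul_Lq dA (p := 2) (q := 2)
    (Real.HolderConjugate.two_two) (f := fun x => (h x) ^ (1 / 2 : ℝ))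
    (g := fun x => (h x) ^ (1 / 2 : ℝ) * F x) (hh.pow_const _).aemeasurable
    ((hh.pow_const _).mul hF).aemeasurable
  have e1 : ∀ x, ((h x) ^ (1 / 2 : ℝ)) ^ (2 : ℝ) = h x := by
    intro x
    rw [← ENNReal.rpow_mul]; norm_num
  have e2 : ∀ x, ((h x) ^ (1 / 2 : ℝ) * F x) ^ (2 : ℝ) = h x * F x ^ 2 := by
    intro x
    rw [ENNReal.mul_rpow_of_nonneg _ _ (by norm_num), e1 x]
    norm_num
  simp only [Pi.mul_apply, e1, e2] at hol
  simp_rw [e]
  calc _ ≤ ((∫⁻ x, h x ∂dA) ^ (1 / 2 : ℝ) * (∫⁻ x, h x * F x ^ 2 ∂dA) ^ (1 / 2 : ℝ)) ^ 2 := by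
        gcongr
    _ = _ := by
        rw [mul_pow, ← ENNReal.rpow_natCast, ← ENNReal.rpow_natCast, ← ENNReal.rpow_mul,
          ← ENNReal.rpow_mul]
        norm_num

theorem young (h F : ℂ → ℝ≥0∞) (hh : Measurable h) (hF : Measurable F) :
    ∫⁻ z, (∫⁻ ζ, h (z - ζ) * F ζ ∂dA) ^ 2 ∂dA ≤
      (∫⁻ x, h x ∂dA) ^ 2 * ∫⁻ ζ, F ζ ^ 2 ∂dA := by
  have h0 : ∀ z : ℂ, ∫⁻ ζ, h (z - ζ) ∂dA = ∫⁻ x, h x ∂dA := by
    intro z
    exact lintegral_sub_left_eq_self h z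
  have h1 : ∀ ζ : ℂ, ∫⁻ z, h (z - ζ) ∂dA = ∫⁻ x, h x ∂dA := by
    intro ζ
    exact lintegral_sub_right_eq_self h ζ
  calc ∫⁻ z, (∫⁻ ζ, h (z - ζ) * F ζ ∂dA) ^ 2 ∂dA
      ≤ ∫⁻ z, (∫⁻ x, h x ∂dA) * ∫⁻ ζ, h (z - ζ) * F ζ ^ 2 ∂dA ∂dA := by
        refine lintegral_mono fun z => ?_
        have := yg_cs (fun ζ => h (z - ζ)) F (hh.comp (measurable_const.sub measurable_id)) hF
        rwa [h0 z] at this
    _ = (∫⁻ x, h x ∂dA) * ∫⁻ z, ∫⁻ ζ, h (z - ζ) * F ζ ^ 2 ∂dA ∂dA := by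
        rw [lintegral_const_mul]
        refine Measurable.lintegral_prod_right ?_
        exact (hh.comp (measurable_fst.sub measurable_snd)).mul
          ((hF.comp measurable_snd).pow_const 2)
    _ = (∫⁻ x, h x ∂dA) * ∫⁻ ζ, ∫⁻ z, h (z - ζ) * F ζ ^ 2 ∂dA ∂dA := by
        rw [lintegral_lintegral_swap]
        exact ((hh.comp (measurable_fst.sub measurable_snd)).mul
          ((hF.comp measurable_snd).pow_const 2)).aemeasurable
    _ = (∫⁻ x, h x ∂dA) * ∫⁻ ζ, (∫⁻ x, h x ∂dA) * F ζ ^ 2 ∂dA := by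
        congr 1
        refine lintegral_congr fun ζ => ?_
        have hm : Measurable fun z : ℂ => h (z - ζ) :=
          hh.comp (measurable_id.sub measurable_const)
        rw [lintegral_mul_const _ hm, h1 ζ]
    _ = (∫⁻ x, h x ∂dA) ^ 2 * ∫⁻ ζ, F ζ ^ 2 ∂dA := by
        rw [lintegral_const_mul _ (hF.pow_const 2), ← mul_assoc, sq]

theorem gauss_fin (a : ℝ) (k : ℕ) :
    ∫⁻ x : ℂ, ENNReal.ofReal ((1 + ‖x‖) ^ k * Real.exp (a * ‖x‖ - ‖x‖ ^ 2 / 2)) ∂dA < ⊤ := by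
  have key : ∀ x : ℂ, (1 + ‖x‖) ^ k * Real.exp (a * ‖x‖ - ‖x‖ ^ 2 / 2) ≤
      (k.factorial * Real.exp (1 + (1 + a) ^ 2)) * Real.exp (-(1 / 4) * ‖x‖ ^ 2) := by
    intro x
    have hn : 0 ≤ ‖x‖ := norm_nonneg x
    have h1 : (1 + ‖x‖) ^ k ≤ k.factorial * Real.exp (1 + ‖x‖) := by
      have := Real.pow_div_factorial_le_exp (1 + ‖x‖) (by positivity) k
      rw [div_le_iff₀ (by positivity)] at this
      linarith
    calc (1 + ‖x‖) ^ k * Real.exp (a * ‖x‖ - ‖x‖ ^ 2 / 2)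
        ≤ (k.factorial * Real.exp (1 + ‖x‖)) * Real.exp (a * ‖x‖ - ‖x‖ ^ 2 / 2) := by gcongr
      _ = k.factorial * Real.exp ((1 + ‖x‖) + (a * ‖x‖ - ‖x‖ ^ 2 / 2)) := by
          rw [mul_assoc, ← Real.exp_add]
      _ ≤ k.factorial * Real.exp ((1 + (1 + a) ^ 2) + -(1 / 4) * ‖x‖ ^ 2) := by
          have h2 : (1 + ‖x‖) + (a * ‖x‖ - ‖x‖ ^ 2 / 2) ≤
              (1 + (1 + a) ^ 2) + -(1 / 4) * ‖x‖ ^ 2 := by
            nlinarith [sq_nonneg (‖x‖ / 2 - (1 + a))]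
          exact mul_le_mul_of_nonneg_left (Real.exp_le_exp.mpr h2) (by positivity)
      _ = _ := by rw [Real.exp_add, mul_assoc]
  have hint : Integrable (fun x : ℂ => Real.exp (-(1 / 4) * ‖x‖ ^ 2)) (volume : Measure ℂ) := by
    have := (GaussianFourier.integrable_cexp_neg_mul_sq_norm_add (V := ℂ) (b := (1 / 4 : ℂ))
      (by norm_num) 0 0).norm
    refine this.congr (Filter.Eventually.of_forall fun x => ?_)
    simp only [Complex.norm_exp]
    congr 1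
    simp [← Complex.ofReal_pow]
  have hint2 : Integrable (fun x : ℂ => (k.factorial * Real.exp (1 + (1 + a) ^ 2)) *
      Real.exp (-(1 / 4) * ‖x‖ ^ 2)) dA := by
    unfold dA
    exact (hint.const_mul _).smul_measure ENNReal.ofReal_ne_top
  refine lt_of_le_of_lt (lintegral_mono fun x => ENNReal.ofReal_le_ofReal (key x)) ?_
  exact (hint2.lintegral_lt_top)

theorem Kk_norm (z ζ : ℂ) : ‖Kk z ζ‖ = Real.exp (-‖z - ζ‖ ^ 2 / 2) := by
  unfold Kk
  rw [Complex.norm_exp]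
  congr 1
  simp [-Complex.ofReal_pow]
  ring

theorem Kk_cont : Continuous fun p : ℂ × ℂ => Kk p.1 p.2 := by
  unfold Kk
  fun_prop

private theorem yg_base {R : ℝ} (hR : 1 ≤ R) (z ζ : ℂ) :
    1 + ‖ζ‖ / R ≤ (1 + ‖z‖ / R) * Real.exp (‖z - ζ‖ / R) := by
  have hR0 : 0 < R := by linarith
  have h1 : ‖ζ‖ ≤ ‖z‖ + ‖z - ζ‖ := by
    have := norm_sub_le z (z - ζ)
    simpa using this
  have h2 : ‖ζ‖ / R ≤ ‖z‖ / R + ‖z - ζ‖ / R := by
    rw [← add_div]; gcongr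
  have h3 : ‖z - ζ‖ / R + 1 ≤ Real.exp (‖z - ζ‖ / R) := Real.add_one_le_exp _
  have h4 : 0 ≤ ‖z‖ / R := by positivity
  have h5 : 0 ≤ ‖z - ζ‖ / R := by positivity
  nlinarith

theorem om_logLip {R : ℝ} (hR : 4 ≤ R) : LogLip (om R) := by
  have hR0 : 0 < R := by linarith
  refine ⟨fun z => by unfold om; positivity, fun z ζ => ?_⟩
  unfold om
  have h1 := yg_base (by linarith : 1 ≤ R) z ζ
  have hp : 0 < 1 + ‖z‖ / R := by positivity
  have hq : 0 < 1 + ‖ζ‖ / R := by positivity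
  have h2 : (1 + ‖ζ‖ / R) ^ 4 ≤ (1 + ‖z‖ / R) ^ 4 * Real.exp ‖z - ζ‖ := by
    calc (1 + ‖ζ‖ / R) ^ 4 ≤ ((1 + ‖z‖ / R) * Real.exp (‖z - ζ‖ / R)) ^ 4 := by gcongr
      _ = (1 + ‖z‖ / R) ^ 4 * Real.exp (4 * (‖z - ζ‖ / R)) := by
          rw [mul_pow, ← Real.exp_nat_mul]; norm_num
      _ ≤ _ := by
          gcongr
          rw [← mul_div_assoc, div_le_iff₀ hR0]
          nlinarith [norm_nonneg (z - ζ)]
  rw [inv_le_iff_one_le_mul₀ (by positivity), mul_comm, ← mul_assoc]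
  rw [← div_eq_mul_inv, div_mul_eq_mul_div, le_div_iff₀ (by positivity), one_mul]
  exact h2

theorem omm_logLip {R : ℝ} (hR : 4 ≤ R) : LogLip (omm R) := by
  have hR0 : 0 < R := by linarith
  refine ⟨fun z => by unfold omm; positivity, fun z ζ => ?_⟩
  unfold omm
  have h1 := yg_base (by linarith : 1 ≤ R) z ζ
  have hp : 0 < 1 + ‖z‖ / R := by positivity
  have hq : 0 < 1 + ‖ζ‖ / R := by positivity
  have h2 : (1 + ‖ζ‖ / R) ^ 3 ≤ (1 + ‖z‖ / R) ^ 3 * Real.exp ‖z - ζ‖ := by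
    calc (1 + ‖ζ‖ / R) ^ 3 ≤ ((1 + ‖z‖ / R) * Real.exp (‖z - ζ‖ / R)) ^ 3 := by gcongr
      _ = (1 + ‖z‖ / R) ^ 3 * Real.exp (3 * (‖z - ζ‖ / R)) := by
          rw [mul_pow, ← Real.exp_nat_mul]; norm_num
      _ ≤ _ := by
          gcongr
          rw [← mul_div_assoc, div_le_iff₀ hR0]
          nlinarith [norm_nonneg (z - ζ)]
  rw [inv_le_iff_one_le_mul₀ (by positivity), mul_comm, ← mul_assoc]
  rw [← div_eq_mul_inv, div_mul_eq_mul_div, le_div_iff₀ (by positivity), one_mul]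
  exact h2

theorem om_isW : ∃ C : ℝ, 0 < C ∧ ∀ R : ℝ, C ≤ R → IsW (om R) (fun _ => C / R) := by
  refine ⟨4, by norm_num, fun R hR => ?_⟩
  have hR0 : 0 < R := by linarith
  refine ⟨(om_logLip hR).pos, ?_, fun _ => by positivity, fun _ => ?_, continuous_const, ?_⟩
  · unfold om
    refine Continuous.inv₀ (by fun_prop) (fun z => ?_)
    positivity
  · rw [div_le_one hR0]; exact hR
  · intro z ζ
    unfold om
    have h1 := yg_base (by linarith : 1 ≤ R) z ζ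
    set u := 1 + ‖z‖ / R with hu
    set v := 1 + ‖ζ‖ / R with hv
    set d := ‖z - ζ‖ with hd
    have hd0 : 0 ≤ d := norm_nonneg _
    have hu1 : 1 ≤ u := by rw [hu]; have : 0 ≤ ‖z‖ / R := by positivity
                           linarith
    have hv1 : 1 ≤ v := by rw [hv]; have : 0 ≤ ‖ζ‖ / R := by positivity
                           linarith
    have hup : 0 < u := by linarith
    have hvp : 0 < v := by linarith
    set e := Real.exp (d / R) with he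
    have he1 : 1 ≤ e := by
      rw [he]; exact Real.one_le_exp (by positivity)
    have hev : v ≤ u * e := h1
    have hdiff : |v - u| ≤ d / R := by
      have : |‖ζ‖ - ‖z‖| ≤ d := by
        rw [hd, norm_sub_rev]; exact abs_norm_sub_norm_le ζ z
      have e1 : v - u = (‖ζ‖ - ‖z‖) / R := by rw [hu, hv]; ring
      rw [e1, abs_div, abs_of_pos hR0]
      gcongr
    have he3 : e ^ 3 ≤ Real.exp d := by
      rw [he, ← Real.exp_nat_mul]
      refine Real.exp_le_exp.mpr ?_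
      push_cast
      rw [← mul_div_assoc, div_le_iff₀ hR0]
      nlinarith
    have hsum : v ^ 3 + v ^ 2 * u + v * u ^ 2 + u ^ 3 ≤ 4 * e ^ 3 * u ^ 4 := by
      have a1 : v ^ 3 ≤ e ^ 3 * u ^ 3 := by
        calc v ^ 3 ≤ (u * e) ^ 3 := by gcongr
          _ = _ := by ring
      have a2 : v ^ 2 * u ≤ e ^ 3 * u ^ 3 := by
        calc v ^ 2 * u ≤ (u * e) ^ 2 * u := by gcongr
          _ = e ^ 2 * u ^ 3 := by ring
          _ ≤ e ^ 3 * u ^ 3 := by
            gcongr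
            norm_num
      have a3 : v * u ^ 2 ≤ e ^ 3 * u ^ 3 := by
        calc v * u ^ 2 ≤ (u * e) * u ^ 2 := by gcongr
          _ = e ^ 1 * u ^ 3 := by ring
          _ ≤ e ^ 3 * u ^ 3 := by
            gcongr
            norm_num
      have a4 : u ^ 3 ≤ e ^ 3 * u ^ 3 := by
        have : 1 ≤ e ^ 3 := one_le_pow₀ he1
        nlinarith [pow_pos hup 3]
      have a5 : e ^ 3 * u ^ 3 ≤ e ^ 3 * u ^ 4 := by
        gcongr
        norm_num
      linarith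
    have eq1 : (u ^ 4)⁻¹ - (v ^ 4)⁻¹ =
        (v - u) * (v ^ 3 + v ^ 2 * u + v * u ^ 2 + u ^ 3) / (u ^ 4 * v ^ 4) := by
      field_simp
      ring
    rw [eq1, abs_div, abs_mul, abs_of_pos (by positivity : 0 < u ^ 4 * v ^ 4),
      abs_of_pos (by positivity : 0 < v ^ 3 + v ^ 2 * u + v * u ^ 2 + u ^ 3),
      div_le_iff₀ (by positivity)]
    calc |v - u| * (v ^ 3 + v ^ 2 * u + v * u ^ 2 + u ^ 3)
        ≤ (d / R) * (4 * e ^ 3 * u ^ 4) := by gcongr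
      _ ≤ (d / R) * (4 * Real.exp d * u ^ 4) := by gcongr
      _ = 4 / R * (v ^ 4)⁻¹ * d * Real.exp d * (u ^ 4 * v ^ 4) := by
          field_simp

end Pool.Agent.Helper84.HRT
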