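import Mathlib
import Pool.Agent.Helper84.HRT.DefsA
import Pool.Agent.Helper84.HRT.YG

open MeasureTheory Complex Filter
open scoped ENNReal ComplexConjugate InnerProductSpace BigOperators Topology

namespace Pool.Agent.Helper84.HRT

variable {H : Type} [NormedAddCommGroup H] [InnerProductSpace ℂ H] [CompleteSpace H]

private theorem yk_cont {Y : ℂ → ℝ} (hY : LogLip Y) : Continuous Y := by
  have h1 : LipschitzWith 1 (fun z => Real.log (Y z)) := by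
    refine LipschitzWith.of_dist_le_mul fun z ζ => ?_
    have a := hY.le z ζ
    have b := hY.le ζ z
    have hz := hY.pos z
    have hζ := hY.pos ζ
    have la := Real.log_le_log hz a
    have lb := Real.log_le_log hζ b
    rw [Real.log_mul hζ.ne' (Real.exp_pos _).ne', Real.log_exp] at la
    rw [Real.log_mul hz.ne' (Real.exp_pos _).ne', Real.log_exp] at lb
    rw [norm_sub_rev] at lb
    rw [Real.dist_eq, dist_eq_norm]
    simp only [NNReal.coe_one, one_mul]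
    rw [abs_le]
    constructor <;> linarith
  have h2 : Y = fun z => Real.exp (Real.log (Y z)) := by
    funext z
    rw [Real.exp_log (hY.pos z)]
  rw [h2]
  exact Real.continuous_exp.comp h1.continuous

/-- the Gaussian majorant -/
private noncomputable def ykh (k : ℕ) (a : ℝ) (x : ℂ) : ℝ≥0∞ :=
  ENNReal.ofReal ((1 + ‖x‖) ^ k * Real.exp (a * ‖x‖ - ‖x‖ ^ 2 / 2))

private theorem ykh_meas (k : ℕ) (a : ℝ) : Measurable (ykh k a) := by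
  unfold ykh
  refine Measurable.ennreal_ofReal ?_
  exact (by fun_prop : Continuous fun x : ℂ =>
    (1 + ‖x‖) ^ k * Real.exp (a * ‖x‖ - ‖x‖ ^ 2 / 2)).measurable

private theorem yk_cs (f g : ℂ → ℝ≥0∞) (hf : Measurable f) (hg : Measurable g) :
    (∫⁻ x, f x * g x ∂dA) ^ 2 ≤ (∫⁻ x, f x ^ 2 ∂dA) * ∫⁻ x, g x ^ 2 ∂dA := by
  have hol := ENNReal.lintegral_mul_le_Lp_mul_Lq dA (p := 2) (q := 2)
    (Real.HolderConjugate.two_two) (f := f) (g := g) hf.aemeasurable hg.aemeasurable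
  simp only [Pi.mul_apply] at hol
  have e : ∀ y : ℝ≥0∞, y ^ (2 : ℝ) = y ^ 2 := fun y => by
    rw [← ENNReal.rpow_natCast]; norm_num
  simp only [e] at hol
  calc _ ≤ ((∫⁻ x, f x ^ 2 ∂dA) ^ (1 / 2 : ℝ) * (∫⁻ x, g x ^ 2 ∂dA) ^ (1 / 2 : ℝ)) ^ 2 := by
        gcongr
    _ = _ := by
        rw [mul_pow, ← ENNReal.rpow_natCast, ← ENNReal.rpow_natCast, ← ENNReal.rpow_mul,
          ← ENNReal.rpow_mul]
        norm_num

private theorem yk_kernel {Y : ℂ → ℝ} (hY : LogLip Y) (F : ℂ → ℂ) (z ζ : ℂ) :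
    ‖((Y z : ℝ) : ℂ) * (Kk z ζ * F ζ)‖ₑ ≤ ykh 0 1 (z - ζ) * ‖((Y ζ : ℝ) : ℂ) * F ζ‖ₑ := by
  have h1 : ‖((Y z : ℝ) : ℂ) * (Kk z ζ * F ζ)‖ ≤
      Real.exp (1 * ‖z - ζ‖ - ‖z - ζ‖ ^ 2 / 2) * ‖((Y ζ : ℝ) : ℂ) * F ζ‖ := by
    rw [norm_mul, norm_mul, norm_mul, Kk_norm, Complex.norm_real, Complex.norm_real,
      Real.norm_of_nonneg (hY.pos z).le, Real.norm_of_nonneg (hY.pos ζ).le]
    have e : Real.exp (1 * ‖z - ζ‖ - ‖z - ζ‖ ^ 2 / 2) =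
        Real.exp ‖z - ζ‖ * Real.exp (-‖z - ζ‖ ^ 2 / 2) := by
      rw [← Real.exp_add]; congr 1; ring
    rw [e]
    have := mul_le_mul_of_nonneg_right (hY.le z ζ)
      (mul_nonneg (Real.exp_pos (-‖z - ζ‖ ^ 2 / 2)).le (norm_nonneg (F ζ)))
    calc _ ≤ _ := this
      _ = _ := by ring
  have h2 : ykh 0 1 (z - ζ) * ‖((Y ζ : ℝ) : ℂ) * F ζ‖ₑ = ENNReal.ofReal
      (Real.exp (1 * ‖z - ζ‖ - ‖z - ζ‖ ^ 2 / 2) * ‖((Y ζ : ℝ) : ℂ) * F ζ‖) := by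
    rw [ENNReal.ofReal_mul (Real.exp_pos _).le, ofReal_norm]
    simp [ykh]
  rw [h2, ← ofReal_norm]
  exact ENNReal.ofReal_le_ofReal h1

private theorem yk_bound {Y : ℂ → ℝ} (hY : LogLip Y) (F : ℂ → ℂ) (z : ℂ) :
    ‖((Y z : ℝ) : ℂ) * Kop F z‖ₑ ≤
      ∫⁻ ζ, ykh 0 1 (z - ζ) * ‖((Y ζ : ℝ) : ℂ) * F ζ‖ₑ ∂dA := by
  unfold Kop
  rw [← integral_const_mul]
  refine (enorm_integral_le_lintegral_enorm _).trans ?_
  exact lintegral_mono fun ζ => yk_kernel hY F z ζ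

private theorem yk_congr_Kop {F F' : ℂ → ℂ} (h : F =ᵐ[dA] F') : Kop F = Kop F' := by
  funext z
  unfold Kop
  refine integral_congr_ae ?_
  filter_upwards [h] with ζ hζ
  rw [hζ]

private theorem yk_congr_S2 {F F' : ℂ → ℂ} (h : F =ᵐ[dA] F') (Y : ℂ → ℝ) :
    S2 Y F = S2 Y F' := by
  unfold S2
  refine lintegral_congr_ae ?_
  filter_upwards [h] with ζ hζ
  rw [hζ]

private theorem yk_meas {Y : ℂ → ℝ} (hY : LogLip Y) {F : ℂ → ℂ} (hF : Measurable F) :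
    Measurable fun ζ => ‖((Y ζ : ℝ) : ℂ) * F ζ‖ₑ := by
  have := (yk_cont hY).measurable
  exact ((Complex.measurable_ofReal.comp this).mul hF).enorm

private theorem yk_tr (k : ℕ) (a : ℝ) (z : ℂ) (n : ℕ) :
    ∫⁻ ζ, ykh k a (z - ζ) ^ n ∂dA = ∫⁻ x, ykh k a x ^ n ∂dA :=
  lintegral_sub_left_eq_self (fun x => ykh k a x ^ n) z

private theorem ykh_sq_fin (k : ℕ) (a : ℝ) : ∫⁻ x, ykh k a x ^ 2 ∂dA < ⊤ := by
  refine lt_of_le_of_lt (lintegral_mono fun x => ?_) (gauss_fin (2 * a) (2 * k))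
  unfold ykh
  rw [← ENNReal.ofReal_pow (by positivity)]
  refine ENNReal.ofReal_le_ofReal ?_
  rw [mul_pow, ← pow_mul, mul_comm k 2, ← Real.exp_nat_mul]
  refine mul_le_mul_of_nonneg_left ?_ (by positivity)
  refine Real.exp_le_exp.2 ?_
  push_cast
  nlinarith [sq_nonneg ‖x‖]

/-- integrability of the kernel against functions in weighted L² -/
theorem Kop_integrable (Y : ℂ → ℝ) (hY : LogLip Y) (F : ℂ → ℂ) (hF : AEStronglyMeasurable F dA)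
    (hfin : S2 Y F < ⊤) (z : ℂ) : Integrable (fun ζ => Kk z ζ * F ζ) dA := by
  have hKc : Continuous fun ζ => Kk z ζ := Kk_cont.comp (by fun_prop : Continuous fun ζ => (z, ζ))
  refine ⟨hKc.aestronglyMeasurable.mul hF, ?_⟩
  obtain ⟨F', hF', hFF'⟩ := hF
  have hF'm := hF'.measurable
  have key : (∫⁻ ζ, ‖((Y z : ℝ) : ℂ) * (Kk z ζ * F ζ)‖ₑ ∂dA) ^ 2 < ⊤ := by
    calc (∫⁻ ζ, ‖((Y z : ℝ) : ℂ) * (Kk z ζ * F ζ)‖ₑ ∂dA) ^ 2
        ≤ (∫⁻ ζ, ykh 0 1 (z - ζ) * ‖((Y ζ : ℝ) : ℂ) * F' ζ‖ₑ ∂dA) ^ 2 := by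
          gcongr 1
          have e : ∫⁻ ζ, ykh 0 1 (z - ζ) * ‖((Y ζ : ℝ) : ℂ) * F' ζ‖ₑ ∂dA =
              ∫⁻ ζ, ykh 0 1 (z - ζ) * ‖((Y ζ : ℝ) : ℂ) * F ζ‖ₑ ∂dA := by
            refine lintegral_congr_ae ?_
            filter_upwards [hFF'] with ζ hζ
            rw [hζ]
          rw [e]
          exact lintegral_mono fun ζ => yk_kernel hY F z ζ
      _ ≤ (∫⁻ ζ, ykh 0 1 (z - ζ) ^ 2 ∂dA) * ∫⁻ ζ, ‖((Y ζ : ℝ) : ℂ) * F' ζ‖ₑ ^ 2 ∂dA :=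
          yk_cs _ _ ((ykh_meas 0 1).comp (measurable_const.sub measurable_id)) (yk_meas hY hF'm)
      _ < ⊤ := by
          rw [yk_tr]
          refine ENNReal.mul_lt_top (ykh_sq_fin 0 1) ?_
          have := hfin
          rw [yk_congr_S2 hFF' Y] at this
          exact this
  have h2 : ∫⁻ ζ, ‖((Y z : ℝ) : ℂ) * (Kk z ζ * F ζ)‖ₑ ∂dA < ⊤ := by
    by_contra hcon
    rw [not_lt, top_le_iff] at hcon
    rw [hcon] at key
    simp at key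
  have e : ∀ ζ, ‖((Y z : ℝ) : ℂ) * (Kk z ζ * F ζ)‖ₑ = ‖((Y z : ℝ) : ℂ)‖ₑ * ‖Kk z ζ * F ζ‖ₑ :=
    fun ζ => enorm_mul _ _
  simp_rw [e] at h2
  rw [lintegral_const_mul' _ _ enorm_ne_top] at h2
  have hz : ‖((Y z : ℝ) : ℂ)‖ₑ ≠ 0 := by
    rw [enorm_ne_zero]
    exact_mod_cast (hY.pos z).ne'
  rw [HasFiniteIntegral]
  rcases ENNReal.mul_lt_top_iff.1 h2 with h | h | h
  · exact h.2
  · exact absurd h hz
  · rw [h]; exact ENNReal.zero_lt_top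

theorem Kop_weighted : ∃ C : ℝ, 0 < C ∧ ∀ (Y : ℂ → ℝ) (F : ℂ → ℂ), LogLip Y →
    AEStronglyMeasurable F dA → S2 Y (Kop F) ≤ ENNReal.ofReal C * S2 Y F := by
  have hfin : ∫⁻ x, ykh 0 1 x ∂dA < ⊤ := gauss_fin 1 0
  refine ⟨(∫⁻ x, ykh 0 1 x ∂dA).toReal ^ 2 + 1, by positivity, fun Y F hY hF => ?_⟩
  obtain ⟨F', hF', hFF'⟩ := hF
  have hF'm := hF'.measurable
  rw [yk_congr_Kop hFF', yk_congr_S2 hFF' Y]
  calc S2 Y (Kop F')
      ≤ ∫⁻ z, (∫⁻ ζ, ykh 0 1 (z - ζ) * ‖((Y ζ : ℝ) : ℂ) * F' ζ‖ₑ ∂dA) ^ 2 ∂dA := by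
        unfold S2
        refine lintegral_mono fun z => ?_
        gcongr 1
        exact yk_bound hY F' z
    _ ≤ (∫⁻ x, ykh 0 1 x ∂dA) ^ 2 * ∫⁻ ζ, ‖((Y ζ : ℝ) : ℂ) * F' ζ‖ₑ ^ 2 ∂dA :=
        young _ _ (ykh_meas 0 1) (yk_meas hY hF'm)
    _ ≤ _ := by
        unfold S2
        gcongr 1
        rw [ENNReal.ofReal_add (by positivity) zero_le_one,
          ENNReal.ofReal_pow ENNReal.toReal_nonneg, ENNReal.ofReal_toReal hfin.ne]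
        exact le_self_add

theorem Kop_pointwise : ∃ C : ℝ, 0 < C ∧ ∀ (Y : ℂ → ℝ) (F : ℂ → ℂ), LogLip Y →
    AEStronglyMeasurable F dA → ∀ z, ‖((Y z : ℝ) : ℂ) * Kop F z‖ₑ ^ 2 ≤ ENNReal.ofReal C * S2 Y F := by
  have hfin : ∫⁻ x, ykh 0 1 x ^ 2 ∂dA < ⊤ := ykh_sq_fin 0 1
  refine ⟨(∫⁻ x, ykh 0 1 x ^ 2 ∂dA).toReal + 1, by positivity, fun Y F hY hF z => ?_⟩
  obtain ⟨F', hF', hFF'⟩ := hF
  have hF'm := hF'.measurable
  rw [yk_congr_Kop hFF', yk_congr_S2 hFF' Y]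
  calc ‖((Y z : ℝ) : ℂ) * Kop F' z‖ₑ ^ 2
      ≤ (∫⁻ ζ, ykh 0 1 (z - ζ) * ‖((Y ζ : ℝ) : ℂ) * F' ζ‖ₑ ∂dA) ^ 2 := by
        gcongr 1
        exact yk_bound hY F' z
    _ ≤ (∫⁻ ζ, ykh 0 1 (z - ζ) ^ 2 ∂dA) * ∫⁻ ζ, ‖((Y ζ : ℝ) : ℂ) * F' ζ‖ₑ ^ 2 ∂dA :=
        yk_cs _ _ ((ykh_meas 0 1).comp (measurable_const.sub measurable_id)) (yk_meas hY hF'm)
    _ ≤ _ := by
        rw [yk_tr]
        unfold S2
        gcongr 1
        rw [ENNReal.ofReal_add ENNReal.toReal_nonneg zero_le_one, ENNReal.ofReal_toReal hfin.ne]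
        exact le_self_add

private theorem yk_exp (a b : ℂ) (M : ℝ) (ha : a.re ≤ M) (hb : b.re ≤ M) :
    ‖cexp a - cexp b‖ ≤ Real.exp M * ‖a - b‖ := by
  refine Convex.norm_image_sub_le_of_norm_deriv_le (s := {z : ℂ | z.re ≤ M})
    (fun x _ => Complex.differentiable_exp x) (fun x hx => ?_) (convex_halfSpace_re_le M) hb ha
  rw [Complex.deriv_exp, Complex.norm_exp]
  exact Real.exp_le_exp.2 hx

private theorem yk_diff (z z' ζ : ℂ) (h : ‖z - z'‖ ≤ 1) :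
    ‖Kk z ζ - Kk z' ζ‖ ≤ (2 * (1 + ‖z‖) * ‖z - z'‖) *
      ((1 + ‖z - ζ‖) * Real.exp (‖z - ζ‖ - ‖z - ζ‖ ^ 2 / 2)) := by
  set r := ‖z - ζ‖ with hr
  set r' := ‖z' - ζ‖ with hr'
  have t1 : r ≤ r' + ‖z - z'‖ := by
    have : z - ζ = (z' - ζ) + (z - z') := by ring
    rw [hr, this]; exact norm_add_le _ _
  have t2 : r' ≤ r + ‖z - z'‖ := by
    have : z' - ζ = (z - ζ) - (z - z') := by ring
    rw [hr', this]; exact norm_sub_le _ _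
  have hr0 : 0 ≤ r := norm_nonneg _
  have hr0' : 0 ≤ r' := norm_nonneg _
  have hd0 : 0 ≤ ‖z - z'‖ := norm_nonneg _
  have hζ : ‖ζ‖ ≤ ‖z‖ + r := by
    have : ζ = z - (z - ζ) := by ring
    calc ‖ζ‖ = ‖z - (z - ζ)‖ := by rw [← this]
      _ ≤ _ := norm_sub_le _ _
  unfold Kk
  have hM1 : ((((z * conj ζ).im : ℝ) : ℂ) * I - ((‖z - ζ‖ ^ 2 / 2 : ℝ) : ℂ)).re ≤ r - r ^ 2 / 2 := by
    simp only [sub_re, mul_re, ofReal_re, I_re, mul_zero, ofReal_im, I_im, mul_one, sub_self,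
      zero_sub]
    rw [← hr]; linarith
  have hM2 : ((((z' * conj ζ).im : ℝ) : ℂ) * I - ((‖z' - ζ‖ ^ 2 / 2 : ℝ) : ℂ)).re ≤
      r - r ^ 2 / 2 := by
    simp only [sub_re, mul_re, ofReal_re, I_re, mul_zero, ofReal_im, I_im, mul_one, sub_self,
      zero_sub]
    rw [← hr']
    rcases le_total r 1 with h1 | h1
    · nlinarith [sq_nonneg r']
    · nlinarith [mul_self_nonneg (r' - (r - 1)), mul_nonneg (by linarith : 0 ≤ r' - (r - 1))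
        (by linarith : 0 ≤ r' + (r - 1))]
  refine (yk_exp _ _ _ hM1 hM2).trans ?_
  have hab : ‖((((z * conj ζ).im : ℝ) : ℂ) * I - ((‖z - ζ‖ ^ 2 / 2 : ℝ) : ℂ)) -
      ((((z' * conj ζ).im : ℝ) : ℂ) * I - ((‖z' - ζ‖ ^ 2 / 2 : ℝ) : ℂ))‖ ≤
      2 * (1 + ‖z‖) * ‖z - z'‖ * (1 + r) := by
    have e : ((((z * conj ζ).im : ℝ) : ℂ) * I - ((‖z - ζ‖ ^ 2 / 2 : ℝ) : ℂ)) -
      ((((z' * conj ζ).im : ℝ) : ℂ) * I - ((‖z' - ζ‖ ^ 2 / 2 : ℝ) : ℂ)) =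
      ((((z - z') * conj ζ).im : ℝ) : ℂ) * I - (((r ^ 2 - r' ^ 2) / 2 : ℝ) : ℂ) := by
      rw [sub_mul, sub_im, ← hr, ← hr']
      push_cast
      ring
    rw [e]
    refine (norm_sub_le _ _).trans ?_
    rw [norm_mul, Complex.norm_real, Complex.norm_I, mul_one, Complex.norm_real]
    have h1 : ‖((z - z') * conj ζ).im‖ ≤ ‖z - z'‖ * ‖ζ‖ := by
      rw [Real.norm_eq_abs]
      refine (Complex.abs_im_le_norm _).trans ?_
      rw [norm_mul, Complex.norm_conj]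
    have h2 : ‖(r ^ 2 - r' ^ 2) / 2‖ ≤ ‖z - z'‖ * (r + 1 / 2) := by
      rw [Real.norm_eq_abs, abs_le]
      constructor <;> nlinarith
    nlinarith [mul_le_mul_of_nonneg_left hζ hd0, norm_nonneg z, mul_nonneg hd0 hr0,
      mul_nonneg hd0 (norm_nonneg z), mul_nonneg (mul_nonneg hd0 hr0) (norm_nonneg z)]
  calc _ ≤ Real.exp (r - r ^ 2 / 2) * (2 * (1 + ‖z‖) * ‖z - z'‖ * (1 + r)) :=
        mul_le_mul_of_nonneg_left hab (Real.exp_pos _).le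
    _ = _ := by ring

theorem Kop_lip : ∃ C : ℝ, 0 < C ∧ ∀ (Y : ℂ → ℝ) (F : ℂ → ℂ), LogLip Y →
    AEStronglyMeasurable F dA → ∀ z z', ‖z - z'‖ ≤ 1 →
    ‖((Y z : ℝ) : ℂ) * (Kop F z - Kop F z')‖ₑ ^ 2 ≤
      ENNReal.ofReal (C * (1 + ‖z‖) ^ 2 * ‖z - z'‖ ^ 2) * S2 Y F := by
  have hfin : ∫⁻ x, ykh 1 2 x ^ 2 ∂dA < ⊤ := ykh_sq_fin 1 2
  set I0 := (∫⁻ x, ykh 1 2 x ^ 2 ∂dA).toReal with hI0
  have hI0n : 0 ≤ I0 := ENNReal.toReal_nonneg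
  refine ⟨4 * I0 + 1, by positivity, fun Y F hY hF z z' hzz => ?_⟩
  by_cases hS : S2 Y F = ⊤
  · by_cases hz : z = z'
    · simp [hz]
    · have hne : 0 < ‖z - z'‖ := norm_pos_iff.2 (sub_ne_zero.2 hz)
      rw [hS, ENNReal.mul_top]
      · exact le_top
      · have : 0 < (4 * I0 + 1) * (1 + ‖z‖) ^ 2 * ‖z - z'‖ ^ 2 := by positivity
        simpa using this
  have hS' : S2 Y F < ⊤ := lt_top_iff_ne_top.2 hS
  have i1 := Kop_integrable Y hY F hF hS' z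
  have i2 := Kop_integrable Y hY F hF hS' z'
  have e : Kop F z - Kop F z' = ∫ ζ, (Kk z ζ - Kk z' ζ) * F ζ ∂dA := by
    unfold Kop
    rw [← integral_sub i1 i2]
    congr 1
    funext ζ
    ring
  have hS2 := hS
  obtain ⟨F', hF', hFF'⟩ := hF
  have hF'm := hF'.measurable
  have e' : ∫ ζ, (Kk z ζ - Kk z' ζ) * F ζ ∂dA = ∫ ζ, (Kk z ζ - Kk z' ζ) * F' ζ ∂dA := by
    refine integral_congr_ae ?_
    filter_upwards [hFF'] with ζ hζ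
    rw [hζ]
  rw [e, e', yk_congr_S2 hFF' Y]
  have hker : ∀ ζ, ‖((Y z : ℝ) : ℂ) * ((Kk z ζ - Kk z' ζ) * F' ζ)‖ₑ ≤
      ENNReal.ofReal (2 * (1 + ‖z‖) * ‖z - z'‖) *
        (ykh 1 2 (z - ζ) * ‖((Y ζ : ℝ) : ℂ) * F' ζ‖ₑ) := by
    intro ζ
    have h1 : ‖((Y z : ℝ) : ℂ) * ((Kk z ζ - Kk z' ζ) * F' ζ)‖ ≤
        (2 * (1 + ‖z‖) * ‖z - z'‖) * (((1 + ‖z - ζ‖) ^ 1 *
          Real.exp (2 * ‖z - ζ‖ - ‖z - ζ‖ ^ 2 / 2)) * ‖((Y ζ : ℝ) : ℂ) * F' ζ‖) := by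
      rw [norm_mul, norm_mul, norm_mul, Complex.norm_real, Complex.norm_real,
        Real.norm_of_nonneg (hY.pos z).le, Real.norm_of_nonneg (hY.pos ζ).le]
      have e3 : Real.exp (2 * ‖z - ζ‖ - ‖z - ζ‖ ^ 2 / 2) =
          Real.exp ‖z - ζ‖ * Real.exp (‖z - ζ‖ - ‖z - ζ‖ ^ 2 / 2) := by
        rw [← Real.exp_add]; congr 1; ring
      rw [e3]
      have a1 := hY.le z ζ
      have a2 := yk_diff z z' ζ hzz
      calc Y z * (‖Kk z ζ - Kk z' ζ‖ * ‖F' ζ‖)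
          ≤ (Y ζ * Real.exp ‖z - ζ‖) * (((2 * (1 + ‖z‖) * ‖z - z'‖) *
            ((1 + ‖z - ζ‖) * Real.exp (‖z - ζ‖ - ‖z - ζ‖ ^ 2 / 2))) * ‖F' ζ‖) := by
            refine mul_le_mul a1 (mul_le_mul_of_nonneg_right a2 (norm_nonneg _))
              (mul_nonneg (norm_nonneg _) (norm_nonneg _))
              (mul_nonneg (hY.pos ζ).le (Real.exp_pos _).le)
        _ = _ := by ring
    have h2 : ENNReal.ofReal (2 * (1 + ‖z‖) * ‖z - z'‖) *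
        (ykh 1 2 (z - ζ) * ‖((Y ζ : ℝ) : ℂ) * F' ζ‖ₑ) = ENNReal.ofReal
        ((2 * (1 + ‖z‖) * ‖z - z'‖) * (((1 + ‖z - ζ‖) ^ 1 *
          Real.exp (2 * ‖z - ζ‖ - ‖z - ζ‖ ^ 2 / 2)) * ‖((Y ζ : ℝ) : ℂ) * F' ζ‖)) := by
      rw [ENNReal.ofReal_mul (p := 2 * (1 + ‖z‖) * ‖z - z'‖) (by positivity),
        ENNReal.ofReal_mul (p := (1 + ‖z - ζ‖) ^ 1 *
          Real.exp (2 * ‖z - ζ‖ - ‖z - ζ‖ ^ 2 / 2)) (by positivity), ofReal_norm]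
      rfl
    rw [h2, ← ofReal_norm]
    exact ENNReal.ofReal_le_ofReal h1
  calc ‖((Y z : ℝ) : ℂ) * ∫ ζ, (Kk z ζ - Kk z' ζ) * F' ζ ∂dA‖ₑ ^ 2
      ≤ (ENNReal.ofReal (2 * (1 + ‖z‖) * ‖z - z'‖) *
        ∫⁻ ζ, ykh 1 2 (z - ζ) * ‖((Y ζ : ℝ) : ℂ) * F' ζ‖ₑ ∂dA) ^ 2 := by
        gcongr 1
        rw [← integral_const_mul, ← lintegral_const_mul' _ _ ENNReal.ofReal_ne_top]
        refine (enorm_integral_le_lintegral_enorm _).trans ?_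
        exact lintegral_mono hker
    _ = ENNReal.ofReal (2 * (1 + ‖z‖) * ‖z - z'‖) ^ 2 *
        (∫⁻ ζ, ykh 1 2 (z - ζ) * ‖((Y ζ : ℝ) : ℂ) * F' ζ‖ₑ ∂dA) ^ 2 := by rw [mul_pow]
    _ ≤ ENNReal.ofReal (2 * (1 + ‖z‖) * ‖z - z'‖) ^ 2 *
        ((∫⁻ ζ, ykh 1 2 (z - ζ) ^ 2 ∂dA) * ∫⁻ ζ, ‖((Y ζ : ℝ) : ℂ) * F' ζ‖ₑ ^ 2 ∂dA) := by
        gcongr 1
        exact yk_cs _ _ ((ykh_meas 1 2).comp (measurable_const.sub measurable_id))
          (yk_meas hY hF'm)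
    _ ≤ _ := by
        rw [yk_tr, ← mul_assoc]
        unfold S2
        gcongr 1
        rw [← ENNReal.ofReal_toReal hfin.ne, ← ENNReal.ofReal_pow (by positivity),
          ← ENNReal.ofReal_mul (by positivity)]
        refine ENNReal.ofReal_le_ofReal ?_
        rw [← hI0]
        have : 0 ≤ (1 + ‖z‖) ^ 2 * ‖z - z'‖ ^ 2 := by positivity
        nlinarith

theorem Kop_continuous (Y : ℂ → ℝ) (hY : LogLip Y) (F : ℂ → ℂ) (hF : AEStronglyMeasurable F dA)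
    (hfin : S2 Y F < ⊤) : Continuous (Kop F) := by
  obtain ⟨C, hC, h⟩ := Kop_lip
  set S := (S2 Y F).toReal with hS
  have hS0 : 0 ≤ S := ENNReal.toReal_nonneg
  rw [continuous_iff_continuousAt]
  intro z
  have hz := hY.pos z
  have key : ∀ z', ‖z - z'‖ ≤ 1 → ‖Kop F z - Kop F z'‖ ^ 2 ≤
      (C * (1 + ‖z‖) ^ 2 * S / Y z ^ 2) * ‖z - z'‖ ^ 2 := by
    intro z' hz'
    have h1 := h Y F hY hF z z' hz'
    rw [← ENNReal.ofReal_toReal hfin.ne, ← hS, ← ofReal_norm, ← ENNReal.ofReal_pow (norm_nonneg _),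
      ← ENNReal.ofReal_mul (by positivity)] at h1
    rw [ENNReal.ofReal_le_ofReal_iff (by positivity), norm_mul, Complex.norm_real,
      Real.norm_of_nonneg hz.le] at h1
    rw [div_mul_eq_mul_div, le_div_iff₀ (by positivity)]
    nlinarith
  rw [Metric.continuousAt_iff]
  intro ε hε
  set L := C * (1 + ‖z‖) ^ 2 * S / Y z ^ 2 with hL
  have hL0 : 0 ≤ L := by positivity
  refine ⟨min 1 (ε / (Real.sqrt L + 1)), by positivity, fun z' hz' => ?_⟩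
  rw [dist_eq_norm] at hz' ⊢
  have a1 : ‖z - z'‖ ≤ 1 := by
    rw [norm_sub_rev]; exact (hz'.trans_le (min_le_left _ _)).le
  have a2 : ‖z' - z‖ < ε / (Real.sqrt L + 1) := hz'.trans_le (min_le_right _ _)
  have a3 := key z' a1
  rw [norm_sub_rev z z'] at a3
  rw [norm_sub_rev]
  have a4 : ‖Kop F z - Kop F z'‖ ≤ Real.sqrt L * ‖z' - z‖ := by
    refine abs_le_of_sq_le_sq' ?_ (by positivity) |>.2
    rw [mul_pow, Real.sq_sqrt hL0]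
    exact a3
  have a5 : ‖z' - z‖ * (Real.sqrt L + 1) < ε := (lt_div_iff₀ (by positivity)).1 a2
  nlinarith [norm_nonneg (z' - z), Real.sqrt_nonneg L]

theorem S2_act (α : ℂ) (Y : ℂ → ℝ) (hY : LogLip Y) (G : ℂ → ℂ) :
    S2 Y (act α G) ≤ ENNReal.ofReal (Real.exp (2 * ‖α‖)) * S2 Y G := by
  unfold S2
  have e : ∫⁻ z, ‖((Y z : ℝ) : ℂ) * G z‖ₑ ^ 2 ∂dA =
      ∫⁻ z, ‖((Y (z + α) : ℝ) : ℂ) * G (z + α)‖ₑ ^ 2 ∂dA :=
    (lintegral_add_right_eq_self (fun z => ‖((Y z : ℝ) : ℂ) * G z‖ₑ ^ 2) α).symm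
  rw [e, ← lintegral_const_mul' _ _ ENNReal.ofReal_ne_top]
  refine lintegral_mono fun z => ?_
  have h1 : ‖((Y z : ℝ) : ℂ) * act α G z‖ ≤
      Real.exp ‖α‖ * ‖((Y (z + α) : ℝ) : ℂ) * G (z + α)‖ := by
    unfold act
    rw [norm_mul, norm_mul, norm_mul, Complex.norm_real, Complex.norm_real,
      Complex.norm_exp_ofReal_mul_I, one_mul, Real.norm_of_nonneg (hY.pos _).le,
      Real.norm_of_nonneg (hY.pos _).le]
    have := hY.le z (z + α)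
    rw [show z - (z + α) = -α by ring, norm_neg] at this
    calc _ ≤ (Y (z + α) * Real.exp ‖α‖) * ‖G (z + α)‖ :=
          mul_le_mul_of_nonneg_right this (norm_nonneg _)
      _ = _ := by ring
  have h2 : ‖((Y z : ℝ) : ℂ) * act α G z‖ₑ ≤
      ENNReal.ofReal (Real.exp ‖α‖) * ‖((Y (z + α) : ℝ) : ℂ) * G (z + α)‖ₑ := by
    rw [← ofReal_norm, ← ofReal_norm, ← ENNReal.ofReal_mul (Real.exp_pos _).le]
    exact ENNReal.ofReal_le_ofReal h1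
  calc _ ≤ (ENNReal.ofReal (Real.exp ‖α‖) * ‖((Y (z + α) : ℝ) : ℂ) * G (z + α)‖ₑ) ^ 2 := by
        gcongr 1
    _ = _ := by
        rw [mul_pow, ← ENNReal.ofReal_pow (Real.exp_pos _).le, ← Real.exp_nat_mul]
        norm_num

theorem act_Kop (α : ℂ) (Y : ℂ → ℝ) (hY : LogLip Y) (F : ℂ → ℂ) (hF : AEStronglyMeasurable F dA)
    (hfin : S2 Y F < ⊤) (z : ℂ) : act α (Kop F) z = Kop (act α F) z := by
  unfold act Kop
  rw [← integral_const_mul]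
  rw [← integral_add_right_eq_self
    (fun ζ => cexp ((((α * conj z).im : ℝ) : ℂ) * I) * (Kk (z + α) ζ * F ζ)) α]
  congr 1
  funext ζ
  rw [← mul_assoc, ← mul_assoc]
  congr 1
  unfold Kk
  rw [← Complex.exp_add, ← Complex.exp_add]
  congr 1
  rw [show z + α - (ζ + α) = z - ζ by ring]
  have e : (((z + α) * conj (ζ + α)).im : ℝ) =
      (z * conj ζ).im + (α * conj ζ).im - (α * conj z).im := by
    simp only [map_add, mul_im, add_re, add_im, conj_re, conj_im]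
    ring
  rw [e]
  push_cast
  ring

/-- Rep is preserved by the action of the Weyl unitaries -/
theorem rep_act (α : ℂ) (G : ℂ → ℂ) (hG : Rep G) : Rep (act α G) := by
  have hY : LogLip (om 4) := om_logLip le_rfl
  refine ⟨?_, ?_, ?_⟩
  · unfold act
    have := hG.cont
    fun_prop
  · refine (S2_act α _ hY G).trans_lt ?_
    exact ENNReal.mul_lt_top ENNReal.ofReal_lt_top hG.fin
  · intro z
    rw [← act_Kop α _ hY G hG.cont.aestronglyMeasurable hG.fin z]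
    unfold act
    rw [hG.rep]

end Pool.Agent.Helper84.HRT
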