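import Mathlib
import Pool.Agent.Helper84.HRT.DefsA
import Pool.Agent.Helper84.HRT.YG
import Pool.Agent.Helper84.HRT.YK

/-!
# HRT, piece L1A: commuting a weight with the reproducing operator
-/

open MeasureTheory Complex Filter
open scoped ENNReal ComplexConjugate InnerProductSpace BigOperators Topology

namespace Pool.Agent.Helper84.HRT

variable {H : Type} [NormedAddCommGroup H] [InnerProductSpace ℂ H] [CompleteSpace H]

private theorem l1a_cont {Y : ℂ → ℝ} (hY : LogLip Y) : Continuous Y := by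
  have h1 : LipschitzWith 1 (fun z => Real.log (Y z)) := by
    refine LipschitzWith.of_dist_le_mul fun z ζ => ?_
    have a := hY.le z ζ
    have b := hY.le ζ z
    have hz := hY.pos z
    have hζ := hY.pos ζ
    have la := Real.log_le_log hz a
    have lb := Real.log_le_log hζ b
    rw [Real.log_mul hζ.ne' (Real.exp_pos _).ne', Real.log_exp] at la
    rw [Real.log_mul hz.ne' (Real.exp_pos _).ne', Real.log_exp] at lb
    rw [norm_sub_rev] at lb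
    rw [Real.dist_eq, dist_eq_norm]
    simp only [NNReal.coe_one, one_mul]
    rw [abs_le]
    constructor <;> linarith
  have h2 : Y = fun z => Real.exp (Real.log (Y z)) := by
    funext z
    rw [Real.exp_log (hY.pos z)]
  rw [h2]
  exact Real.continuous_exp.comp h1.continuous

private theorem l1a_one : LogLip (fun _ => 1) where
  pos := fun _ => one_pos
  le := fun z ζ => by
    rw [one_mul]
    exact Real.one_le_exp (norm_nonneg _)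

/-- the kernel bound -/
private theorem l1a_ker {Ω s Y : ℂ → ℝ} {G : ℂ → ℂ} (hΩ : IsW Ω s) (hY : LogLip Y) (z ζ : ℂ) :
    ‖((Y z : ℝ) : ℂ) * (((Ω z : ℝ) : ℂ) * (Kk z ζ * G ζ) - Kk z ζ * (((Ω ζ : ℝ) : ℂ) * G ζ))‖ ≤
      ((1 + ‖z - ζ‖) ^ 1 * Real.exp (2 * ‖z - ζ‖ - ‖z - ζ‖ ^ 2 / 2)) *
        ‖((Y ζ * s ζ * Ω ζ : ℝ) : ℂ) * G ζ‖ := by
  have e : ((Y z : ℝ) : ℂ) * (((Ω z : ℝ) : ℂ) * (Kk z ζ * G ζ) -
      Kk z ζ * (((Ω ζ : ℝ) : ℂ) * G ζ)) =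
      ((Y z : ℝ) : ℂ) * ((Ω z - Ω ζ : ℝ) : ℂ) * Kk z ζ * G ζ := by
    push_cast
    ring
  have hs := hΩ.s_nonneg ζ
  have hp := hΩ.pos ζ
  have hYp := hY.pos ζ
  have hYz := hY.pos z
  rw [e, norm_mul, norm_mul, norm_mul, Kk_norm, Complex.norm_real, Complex.norm_real,
    Real.norm_of_nonneg hYz.le, Real.norm_eq_abs, norm_mul, Complex.norm_real,
    Real.norm_of_nonneg (by positivity : 0 ≤ Y ζ * s ζ * Ω ζ), ← mul_assoc]
  refine mul_le_mul_of_nonneg_right ?_ (norm_nonneg _)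
  have h1 := hY.le z ζ
  have h2 := hΩ.slope z ζ
  have hn := norm_nonneg (z - ζ)
  calc Y z * |Ω z - Ω ζ| * Real.exp (-‖z - ζ‖ ^ 2 / 2)
      ≤ (Y ζ * Real.exp ‖z - ζ‖) * (s ζ * Ω ζ * ‖z - ζ‖ * Real.exp ‖z - ζ‖) *
        Real.exp (-‖z - ζ‖ ^ 2 / 2) := by
        refine mul_le_mul_of_nonneg_right ?_ (Real.exp_pos _).le
        exact mul_le_mul h1 h2 (abs_nonneg _) (by positivity)
    _ = ‖z - ζ‖ * (Real.exp ‖z - ζ‖ * Real.exp ‖z - ζ‖ * Real.exp (-‖z - ζ‖ ^ 2 / 2)) *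
        (Y ζ * s ζ * Ω ζ) := by ring
    _ = ‖z - ζ‖ * Real.exp (2 * ‖z - ζ‖ - ‖z - ζ‖ ^ 2 / 2) * (Y ζ * s ζ * Ω ζ) := by
        rw [← Real.exp_add, ← Real.exp_add]
        congr 3
        ring
    _ ≤ (1 + ‖z - ζ‖) ^ 1 * Real.exp (2 * ‖z - ζ‖ - ‖z - ζ‖ ^ 2 / 2) * (Y ζ * s ζ * Ω ζ) := by
        refine mul_le_mul_of_nonneg_right ?_ (by positivity)
        refine mul_le_mul_of_nonneg_right ?_ (Real.exp_pos _).le
        rw [pow_one]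
        linarith

theorem L1a : ∃ C : ℝ, 0 < C ∧ ∀ (Ω s Y : ℂ → ℝ) (G : ℂ → ℂ), IsW Ω s → LogLip Y → Rep G →
    S2 Ω G < ⊤ →
    S2 Y (fun z => ((Ω z : ℝ) : ℂ) * G z - Kop (fun ζ => ((Ω ζ : ℝ) : ℂ) * G ζ) z) ≤
      ENNReal.ofReal C * S2 (fun z => Y z * s z * Ω z) G := by
  set c : ℝ≥0∞ := ∫⁻ x : ℂ,
    ENNReal.ofReal ((1 + ‖x‖) ^ 1 * Real.exp (2 * ‖x‖ - ‖x‖ ^ 2 / 2)) ∂dA with hcdef
  have hc : c < ⊤ := gauss_fin 2 1
  refine ⟨(c ^ 2).toReal + 1, by positivity, ?_⟩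
  intro Ω s Y G hΩ hY hG hfin
  have hYc : Continuous Y := l1a_cont hY
  have hΩG : Continuous fun ζ : ℂ => ((Ω ζ : ℝ) : ℂ) * G ζ :=
    (Complex.continuous_ofReal.comp hΩ.cont).mul hG.cont
  have hS : S2 (fun _ => 1) (fun ζ => ((Ω ζ : ℝ) : ℂ) * G ζ) < ⊤ := by
    refine lt_of_le_of_lt (le_of_eq ?_) hfin
    unfold S2
    refine lintegral_congr fun z => ?_
    simp
  have hpt : ∀ z, ‖((Y z : ℝ) : ℂ) * (((Ω z : ℝ) : ℂ) * G z -
      Kop (fun ζ => ((Ω ζ : ℝ) : ℂ) * G ζ) z)‖ₑ ≤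
      ∫⁻ ζ, ENNReal.ofReal ((1 + ‖z - ζ‖) ^ 1 * Real.exp (2 * ‖z - ζ‖ - ‖z - ζ‖ ^ 2 / 2)) *
        ‖((Y ζ * s ζ * Ω ζ : ℝ) : ℂ) * G ζ‖ₑ ∂dA := by
    intro z
    have i1 : Integrable (fun ζ => Kk z ζ * G ζ) dA :=
      Kop_integrable (om 4) (om_logLip le_rfl) G hG.cont.aestronglyMeasurable hG.fin z
    have i2 : Integrable (fun ζ => Kk z ζ * (((Ω ζ : ℝ) : ℂ) * G ζ)) dA :=
      Kop_integrable (fun _ => 1) l1a_one _ hΩG.aestronglyMeasurable hS z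
    have e1 : ((Ω z : ℝ) : ℂ) * G z - Kop (fun ζ => ((Ω ζ : ℝ) : ℂ) * G ζ) z =
        ∫ ζ, (((Ω z : ℝ) : ℂ) * (Kk z ζ * G ζ) - Kk z ζ * (((Ω ζ : ℝ) : ℂ) * G ζ)) ∂dA := by
      rw [integral_sub (i1.const_mul _) i2, integral_const_mul]
      congr 2
      exact (hG.rep z).symm
    rw [e1, ← integral_const_mul]
    refine (enorm_integral_le_lintegral_enorm _).trans ?_
    refine lintegral_mono fun ζ => ?_
    simp only
    rw [← ofReal_norm, ← ofReal_norm, ← ENNReal.ofReal_mul (by positivity)]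
    exact ENNReal.ofReal_le_ofReal (l1a_ker hΩ hY z ζ)
  have hyoung := young (fun x : ℂ =>
      ENNReal.ofReal ((1 + ‖x‖) ^ 1 * Real.exp (2 * ‖x‖ - ‖x‖ ^ 2 / 2)))
    (fun ζ => ‖((Y ζ * s ζ * Ω ζ : ℝ) : ℂ) * G ζ‖ₑ)
    (Measurable.ennreal_ofReal (by fun_prop : Continuous fun x : ℂ =>
      (1 + ‖x‖) ^ 1 * Real.exp (2 * ‖x‖ - ‖x‖ ^ 2 / 2)).measurable)
    (by
      have : Continuous fun ζ : ℂ => ((Y ζ * s ζ * Ω ζ : ℝ) : ℂ) * G ζ :=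
        (Complex.continuous_ofReal.comp ((hYc.mul hΩ.s_cont).mul hΩ.cont)).mul hG.cont
      exact this.measurable.enorm)
  calc S2 Y (fun z => ((Ω z : ℝ) : ℂ) * G z - Kop (fun ζ => ((Ω ζ : ℝ) : ℂ) * G ζ) z)
      ≤ ∫⁻ z, (∫⁻ ζ, ENNReal.ofReal ((1 + ‖z - ζ‖) ^ 1 *
          Real.exp (2 * ‖z - ζ‖ - ‖z - ζ‖ ^ 2 / 2)) *
          ‖((Y ζ * s ζ * Ω ζ : ℝ) : ℂ) * G ζ‖ₑ ∂dA) ^ 2 ∂dA := by
        unfold S2
        exact lintegral_mono fun z => pow_le_pow_left₀ zero_le (hpt z) 2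
    _ ≤ c ^ 2 * S2 (fun z => Y z * s z * Ω z) G := hyoung
    _ ≤ ENNReal.ofReal ((c ^ 2).toReal + 1) * S2 (fun z => Y z * s z * Ω z) G := by
        refine mul_le_mul_left ?_ _
        rw [ENNReal.ofReal_add ENNReal.toReal_nonneg zero_le_one,
          ENNReal.ofReal_toReal (ENNReal.pow_lt_top hc).ne]
        exact le_self_add

end Pool.Agent.Helper84.HRT
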