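import Mathlib
import Pool.Agent.Helper84.HRT.DefsA

open MeasureTheory Complex Filter
open scoped ENNReal ComplexConjugate InnerProductSpace BigOperators Topology

namespace Pool.Agent.Helper84.HRT

/-! ### the measure `dA` -/

theorem l1b_sfinite : SFinite dA := by unfold dA; infer_instance

theorem l1b_lint_add (f : ℂ → ℝ≥0∞) (a : ℂ) : ∫⁻ z, f (z + a) ∂dA = ∫⁻ z, f z ∂dA := by
  unfold dA
  rw [lintegral_smul_measure, lintegral_smul_measure, lintegral_add_right_eq_self]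

theorem l1b_lint_sub_left (f : ℂ → ℝ≥0∞) (a : ℂ) : ∫⁻ z, f (a - z) ∂dA = ∫⁻ z, f z ∂dA := by
  unfold dA
  rw [lintegral_smul_measure, lintegral_smul_measure, lintegral_sub_left_eq_self]

theorem l1b_lint_sub_right (f : ℂ → ℝ≥0∞) (a : ℂ) : ∫⁻ z, f (z - a) ∂dA = ∫⁻ z, f z ∂dA := by
  simpa only [sub_eq_add_neg] using l1b_lint_add f (-a)

theorem l1b_int_add (f : ℂ → ℂ) (a : ℂ) : ∫ z, f (z + a) ∂dA = ∫ z, f z ∂dA := by
  unfold dA
  rw [integral_smul_measure, integral_smul_measure, integral_add_right_eq_self]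

/-! ### kernels -/

/-- the exponential kernel which dominates everything -/
noncomputable def l1bk (x : ℂ) : ℝ := Real.exp (2 * ‖x‖ - ‖x‖ ^ 2 / 2)

/-- the modulus of the reproducing kernel -/
noncomputable def l1bg (x : ℂ) : ℝ := Real.exp (-(‖x‖ ^ 2 / 2))

theorem l1bk_cont : Continuous l1bk := by unfold l1bk; fun_prop

theorem l1bg_cont : Continuous l1bg := by unfold l1bg; fun_prop

theorem l1bk_eq (x : ℂ) : l1bk x = Real.exp (2 * ‖x‖) * l1bg x := by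
  unfold l1bk l1bg
  rw [← Real.exp_add]
  congr 1

theorem l1bk_le (x : ℂ) : l1bk x ≤ Real.exp 13 * (1 + ‖x‖) ^ (-3 : ℝ) := by
  have h0 : 0 ≤ ‖x‖ := norm_nonneg x
  have h1 : (0 : ℝ) < 1 + ‖x‖ := by linarith
  rw [Real.rpow_neg h1.le, ← div_eq_mul_inv, le_div_iff₀ (Real.rpow_pos_of_pos h1 3)]
  have h2 : (1 + ‖x‖) ^ (3 : ℝ) ≤ Real.exp (3 * ‖x‖) := by
    have h3 : 1 + ‖x‖ ≤ Real.exp ‖x‖ := by
      have := Real.add_one_le_exp ‖x‖
      linarith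
    calc (1 + ‖x‖) ^ (3 : ℝ) ≤ (Real.exp ‖x‖) ^ (3 : ℝ) := Real.rpow_le_rpow h1.le h3 (by norm_num)
      _ = Real.exp (3 * ‖x‖) := by rw [← Real.exp_mul]; congr 1; ring
  calc l1bk x * (1 + ‖x‖) ^ (3 : ℝ) ≤ l1bk x * Real.exp (3 * ‖x‖) :=
        mul_le_mul_of_nonneg_left h2 (Real.exp_nonneg _)
    _ = Real.exp (2 * ‖x‖ - ‖x‖ ^ 2 / 2 + 3 * ‖x‖) := by rw [l1bk, ← Real.exp_add]
    _ ≤ Real.exp 13 := Real.exp_le_exp.2 (by nlinarith [sq_nonneg (‖x‖ - 5)])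

theorem l1bk_sq_le (x : ℂ) : l1bk x ^ 2 ≤ Real.exp 13 * (1 + ‖x‖) ^ (-3 : ℝ) := by
  have h0 : 0 ≤ ‖x‖ := norm_nonneg x
  have h1 : (0 : ℝ) < 1 + ‖x‖ := by linarith
  rw [Real.rpow_neg h1.le, ← div_eq_mul_inv, le_div_iff₀ (Real.rpow_pos_of_pos h1 3)]
  have h2 : (1 + ‖x‖) ^ (3 : ℝ) ≤ Real.exp (3 * ‖x‖) := by
    have h3 : 1 + ‖x‖ ≤ Real.exp ‖x‖ := by
      have := Real.add_one_le_exp ‖x‖
      linarith
    calc (1 + ‖x‖) ^ (3 : ℝ) ≤ (Real.exp ‖x‖) ^ (3 : ℝ) := Real.rpow_le_rpow h1.le h3 (by norm_num)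
      _ = Real.exp (3 * ‖x‖) := by rw [← Real.exp_mul]; congr 1; ring
  calc l1bk x ^ 2 * (1 + ‖x‖) ^ (3 : ℝ) ≤ l1bk x ^ 2 * Real.exp (3 * ‖x‖) :=
        mul_le_mul_of_nonneg_left h2 (sq_nonneg _)
    _ = Real.exp (2 * (2 * ‖x‖ - ‖x‖ ^ 2 / 2) + 3 * ‖x‖) := by
        rw [l1bk, ← Real.exp_nat_mul, ← Real.exp_add]; norm_num
    _ ≤ Real.exp 13 := Real.exp_le_exp.2 (by nlinarith [sq_nonneg (‖x‖ - 7 / 2)])

theorem l1b_fin3 : ∫⁻ x : ℂ, ENNReal.ofReal (Real.exp 13 * (1 + ‖x‖) ^ (-3 : ℝ)) ∂dA < ⊤ := by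
  have h : Integrable (fun x : ℂ => (1 + ‖x‖) ^ (-3 : ℝ)) (volume : Measure ℂ) := by
    apply integrable_one_add_norm
    rw [Complex.finrank_real_complex]
    norm_num
  have h' : Integrable (fun x : ℂ => Real.exp 13 * (1 + ‖x‖) ^ (-3 : ℝ)) (volume : Measure ℂ) :=
    h.const_mul _
  unfold dA
  rw [lintegral_smul_measure]
  exact ENNReal.mul_lt_top ENNReal.ofReal_lt_top h'.lintegral_lt_top

theorem l1b_k1 : ∫⁻ x : ℂ, ENNReal.ofReal (l1bk x) ∂dA < ⊤ :=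
  lt_of_le_of_lt (lintegral_mono fun x => ENNReal.ofReal_le_ofReal (l1bk_le x)) l1b_fin3

theorem l1b_k2 : ∫⁻ x : ℂ, ENNReal.ofReal (l1bk x) ^ 2 ∂dA < ⊤ := by
  refine lt_of_le_of_lt (lintegral_mono fun x => ?_) l1b_fin3
  rw [← ENNReal.ofReal_pow (show 0 ≤ l1bk x from Real.exp_nonneg _)]
  exact ENNReal.ofReal_le_ofReal (l1bk_sq_le x)


/-! ### Cauchy-Schwarz -/

theorem l1b_cs {T : Type} [MeasurableSpace T] {ν : Measure T} {f g : T → ℝ≥0∞}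
    (hf : AEMeasurable f ν) (hg : AEMeasurable g ν) :
    (∫⁻ t, f t * g t ∂ν) ^ 2 ≤ (∫⁻ t, f t ^ 2 ∂ν) * ∫⁻ t, g t ^ 2 ∂ν := by
  have h := ENNReal.lintegral_mul_le_Lp_mul_Lq ν
    (p := 2) (q := 2) ⟨by norm_num, by norm_num, by norm_num⟩ hf hg
  have e1 : ∀ x : ℝ≥0∞, (x ^ (1 / 2 : ℝ)) ^ 2 = x := by
    intro x
    rw [← ENNReal.rpow_natCast, ← ENNReal.rpow_mul]
    norm_num
  have h2 : (∫⁻ t, f t * g t ∂ν) ≤
      (∫⁻ t, f t ^ 2 ∂ν) ^ (1 / 2 : ℝ) * (∫⁻ t, g t ^ 2 ∂ν) ^ (1 / 2 : ℝ) := by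
    simpa only [Pi.mul_apply, ENNReal.rpow_two] using h
  calc (∫⁻ t, f t * g t ∂ν) ^ 2 ≤
      ((∫⁻ t, f t ^ 2 ∂ν) ^ (1 / 2 : ℝ) * (∫⁻ t, g t ^ 2 ∂ν) ^ (1 / 2 : ℝ)) ^ 2 := by gcongr
    _ = _ := by rw [mul_pow, e1, e1]

theorem l1b_jensen {T : Type} [MeasurableSpace T] {ν : Measure T} {f g : T → ℝ≥0∞}
    (hf : AEMeasurable f ν) (hg : AEMeasurable g ν) :
    (∫⁻ t, f t * g t ∂ν) ^ 2 ≤ (∫⁻ t, f t ∂ν) * ∫⁻ t, f t * g t ^ 2 ∂ν := by
  have e1 : ∀ x : ℝ≥0∞, x ^ (1 / 2 : ℝ) * x ^ (1 / 2 : ℝ) = x := by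
    intro x
    rw [← ENNReal.rpow_add_of_nonneg _ _ (by norm_num) (by norm_num)]
    norm_num
  have h := l1b_cs (ν := ν) (f := fun t => f t ^ (1 / 2 : ℝ))
    (g := fun t => f t ^ (1 / 2 : ℝ) * g t) (hf.pow_const _) ((hf.pow_const _).mul hg)
  have e2 : ∀ t, f t ^ (1 / 2 : ℝ) * (f t ^ (1 / 2 : ℝ) * g t) = f t * g t := by
    intro t
    rw [← mul_assoc, e1]
  have e3 : ∀ t, (f t ^ (1 / 2 : ℝ)) ^ 2 = f t := by
    intro t
    rw [sq, e1]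
  have e4 : ∀ t, (f t ^ (1 / 2 : ℝ) * g t) ^ 2 = f t * g t ^ 2 := by
    intro t
    rw [mul_pow, e3]
  simpa only [e2, e3, e4] using h

/-! ### weights and the dominating operator -/

/-- weights with exponential control -/
structure L1bW (Y : ℂ → ℝ) : Prop where
  pos : ∀ z, 0 < Y z
  meas : Measurable Y
  le : ∀ z ζ, Y z ≤ Y ζ * Real.exp (2 * ‖z - ζ‖)

/-- the operator with kernel `|Kk|` -/
noncomputable def l1bJ (F : ℂ → ℝ≥0∞) (z : ℂ) : ℝ≥0∞ :=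
  ∫⁻ ζ, ENNReal.ofReal (l1bg (z - ζ)) * F ζ ∂dA

theorem l1b_J_mono {F F' : ℂ → ℝ≥0∞} (h : ∀ ζ, F ζ ≤ F' ζ) (z : ℂ) : l1bJ F z ≤ l1bJ F' z :=
  lintegral_mono fun ζ => mul_le_mul_right (h ζ) _

theorem l1b_J_le {Y : ℂ → ℝ} (hY : L1bW Y) (F : ℂ → ℝ≥0∞) (z : ℂ) :
    ENNReal.ofReal (Y z) * l1bJ F z ≤
      ∫⁻ ζ, ENNReal.ofReal (l1bk (z - ζ)) * (ENNReal.ofReal (Y ζ) * F ζ) ∂dA := by
  unfold l1bJ
  rw [← lintegral_const_mul' _ _ ENNReal.ofReal_ne_top]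
  refine lintegral_mono fun ζ => ?_
  simp only
  rw [← mul_assoc, ← mul_assoc, ← ENNReal.ofReal_mul (hY.pos z).le,
    ← ENNReal.ofReal_mul (show 0 ≤ l1bk (z - ζ) from Real.exp_nonneg _)]
  refine mul_le_mul_left (ENNReal.ofReal_le_ofReal ?_) _
  rw [l1bk_eq]
  have h1 := hY.le z ζ
  have h2 : 0 ≤ l1bg (z - ζ) := Real.exp_nonneg _
  calc Y z * l1bg (z - ζ) ≤ (Y ζ * Real.exp (2 * ‖z - ζ‖)) * l1bg (z - ζ) :=
        mul_le_mul_of_nonneg_right h1 h2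
    _ = _ := by ring

theorem l1b_meas_k : Measurable fun p : ℂ × ℂ => ENNReal.ofReal (l1bk (p.1 - p.2)) :=
  (l1bk_cont.comp (continuous_fst.sub continuous_snd)).measurable.ennreal_ofReal

theorem l1b_meas_kl (z : ℂ) : Measurable fun ζ : ℂ => ENNReal.ofReal (l1bk (z - ζ)) :=
  (l1bk_cont.comp (by fun_prop : Continuous fun ζ : ℂ => z - ζ)).measurable.ennreal_ofReal

theorem l1b_meas_kr (ζ : ℂ) : Measurable fun z : ℂ => ENNReal.ofReal (l1bk (z - ζ)) :=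
  (l1bk_cont.comp (by fun_prop : Continuous fun z : ℂ => z - ζ)).measurable.ennreal_ofReal

theorem l1b_young {Y : ℂ → ℝ} (hY : L1bW Y) {F : ℂ → ℝ≥0∞} (hF : Measurable F) :
    ∫⁻ z, (ENNReal.ofReal (Y z) * l1bJ F z) ^ 2 ∂dA ≤
      (∫⁻ x : ℂ, ENNReal.ofReal (l1bk x) ∂dA) ^ 2 *
        ∫⁻ z, (ENNReal.ofReal (Y z) * F z) ^ 2 ∂dA := by
  have := l1b_sfinite
  set K1 := ∫⁻ x : ℂ, ENNReal.ofReal (l1bk x) ∂dA with hK1
  have hh : Measurable fun ζ => ENNReal.ofReal (Y ζ) * F ζ := hY.meas.ennreal_ofReal.mul hF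
  have hk := l1b_meas_kl
  have hk' := l1b_meas_kr
  have hKz : ∀ z, ∫⁻ ζ, ENNReal.ofReal (l1bk (z - ζ)) ∂dA = K1 := fun z =>
    l1b_lint_sub_left (fun x => ENNReal.ofReal (l1bk x)) z
  have hKz' : ∀ ζ, ∫⁻ z, ENNReal.ofReal (l1bk (z - ζ)) ∂dA = K1 := fun ζ =>
    l1b_lint_sub_right (fun x => ENNReal.ofReal (l1bk x)) ζ
  calc ∫⁻ z, (ENNReal.ofReal (Y z) * l1bJ F z) ^ 2 ∂dA
      ≤ ∫⁻ z, K1 * ∫⁻ ζ, ENNReal.ofReal (l1bk (z - ζ)) *
          (ENNReal.ofReal (Y ζ) * F ζ) ^ 2 ∂dA ∂dA := by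
        refine lintegral_mono fun z => ?_
        refine (pow_le_pow_left' (l1b_J_le hY F z) 2).trans ?_
        refine (l1b_jensen (hk z).aemeasurable hh.aemeasurable).trans (le_of_eq ?_)
        rw [hKz z]
    _ = K1 * ∫⁻ z, ∫⁻ ζ, ENNReal.ofReal (l1bk (z - ζ)) *
          (ENNReal.ofReal (Y ζ) * F ζ) ^ 2 ∂dA ∂dA := by
        rw [lintegral_const_mul' _ _ l1b_k1.ne]
    _ = K1 * ∫⁻ ζ, ∫⁻ z, ENNReal.ofReal (l1bk (z - ζ)) *
          (ENNReal.ofReal (Y ζ) * F ζ) ^ 2 ∂dA ∂dA := by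
        rw [lintegral_lintegral_swap]
        exact (l1b_meas_k.mul ((hh.pow_const 2).comp measurable_snd)).aemeasurable
    _ = K1 * ∫⁻ ζ, K1 * (ENNReal.ofReal (Y ζ) * F ζ) ^ 2 ∂dA := by
        congr 1
        refine lintegral_congr fun ζ => ?_
        rw [lintegral_mul_const _ (hk' ζ), hKz' ζ]
    _ = K1 ^ 2 * ∫⁻ z, (ENNReal.ofReal (Y z) * F z) ^ 2 ∂dA := by
        rw [lintegral_const_mul' _ _ l1b_k1.ne]
        ring

theorem l1b_J_bound {Y : ℂ → ℝ} (hY : L1bW Y) {F : ℂ → ℝ≥0∞} (hF : Measurable F) (z : ℂ) :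
    (ENNReal.ofReal (Y z) * l1bJ F z) ^ 2 ≤
      (∫⁻ x : ℂ, ENNReal.ofReal (l1bk x) ^ 2 ∂dA) *
        ∫⁻ z, (ENNReal.ofReal (Y z) * F z) ^ 2 ∂dA := by
  have hh : Measurable fun ζ => ENNReal.ofReal (Y ζ) * F ζ := hY.meas.ennreal_ofReal.mul hF
  have hk := l1b_meas_kl
  refine (pow_le_pow_left' (l1b_J_le hY F z) 2).trans ?_
  refine (l1b_cs (hk z).aemeasurable hh.aemeasurable).trans (le_of_eq ?_)
  have e : ∫⁻ ζ, ENNReal.ofReal (l1bk (z - ζ)) ^ 2 ∂dA = ∫⁻ x, ENNReal.ofReal (l1bk x) ^ 2 ∂dA :=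
    l1b_lint_sub_left (fun x => ENNReal.ofReal (l1bk x) ^ 2) z
  rw [e]

/-- uniform bound on unit balls -/
theorem l1b_J_unif {Y : ℂ → ℝ} (hY : L1bW Y) {F : ℂ → ℝ≥0∞} (hF : Measurable F)
    (hfin : ∫⁻ z, (ENNReal.ofReal (Y z) * F z) ^ 2 ∂dA < ⊤) (z : ℂ) :
    ∃ J0 : ℝ≥0∞, J0 ≠ ⊤ ∧ ∀ α : ℂ, ‖α‖ ≤ 1 → l1bJ F (z + α) ≤ J0 := by
  set S := (∫⁻ x : ℂ, ENNReal.ofReal (l1bk x) ^ 2 ∂dA) *
        ∫⁻ z, (ENNReal.ofReal (Y z) * F z) ^ 2 ∂dA with hS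
  have hSfin : S ≠ ⊤ := ENNReal.mul_ne_top l1b_k2.ne hfin.ne
  have hYz := hY.pos z
  refine ⟨(ENNReal.ofReal (Y z * Real.exp (-2)))⁻¹ * S ^ (1 / 2 : ℝ), ?_, fun α hα => ?_⟩
  · refine ENNReal.mul_ne_top ?_ ?_
    · rw [ENNReal.inv_ne_top]
      exact (ENNReal.ofReal_pos.2 (mul_pos hYz (Real.exp_pos _))).ne'
    · exact ENNReal.rpow_ne_top_of_nonneg (by norm_num) hSfin
  · have h1 := l1b_J_bound hY hF (z + α)
    have h2 : ENNReal.ofReal (Y (z + α)) * l1bJ F (z + α) ≤ S ^ (1 / 2 : ℝ) := by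
      have h3 := ENNReal.rpow_le_rpow h1 (show (0 : ℝ) ≤ 1 / 2 by norm_num)
      rwa [← ENNReal.rpow_natCast, ← ENNReal.rpow_mul,
        show ((2 : ℕ) : ℝ) * (1 / 2) = 1 by norm_num, ENNReal.rpow_one] at h3
    have h4 : Y z * Real.exp (-2) ≤ Y (z + α) := by
      have h5 := hY.le z (z + α)
      have h6 : ‖z - (z + α)‖ ≤ 1 := by
        rw [sub_add_cancel_left, norm_neg]
        exact hα
      have h7 : Y z ≤ Y (z + α) * Real.exp 2 :=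
        h5.trans (mul_le_mul_of_nonneg_left (Real.exp_le_exp.2 (by linarith)) (hY.pos _).le)
      calc Y z * Real.exp (-2) ≤ (Y (z + α) * Real.exp 2) * Real.exp (-2) :=
            mul_le_mul_of_nonneg_right h7 (Real.exp_nonneg _)
        _ = Y (z + α) := by rw [mul_assoc, ← Real.exp_add]; norm_num
    have h8 : 0 < ENNReal.ofReal (Y z * Real.exp (-2)) :=
      ENNReal.ofReal_pos.2 (mul_pos hYz (Real.exp_pos _))
    rw [← ENNReal.div_eq_inv_mul, ENNReal.le_div_iff_mul_le (Or.inl h8.ne')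
      (Or.inl ENNReal.ofReal_ne_top), mul_comm]
    exact (mul_le_mul_left (ENNReal.ofReal_le_ofReal h4) _).trans h2

theorem l1b_J_meas {F : ℂ → ℝ≥0∞} (hF : Measurable F) : Measurable (l1bJ F) := by
  have := l1b_sfinite
  unfold l1bJ
  refine Measurable.lintegral_prod_right' (f := fun p : ℂ × ℂ =>
    ENNReal.ofReal (l1bg (p.1 - p.2)) * F p.2) ?_
  exact ((l1bg_cont.comp (continuous_fst.sub continuous_snd)).measurable.ennreal_ofReal).mul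
    (hF.comp measurable_snd)

theorem l1b_S2_eq {Ω : ℂ → ℝ} (h : ∀ z, 0 ≤ Ω z) (F : ℂ → ℂ) :
    S2 Ω F = ∫⁻ z, (ENNReal.ofReal (Ω z) * ‖F z‖ₑ) ^ 2 ∂dA := by
  unfold S2
  refine lintegral_congr fun z => ?_
  rw [enorm_mul]
  congr 2
  rw [← ofReal_norm, Complex.norm_real, Real.norm_of_nonneg (h z)]


/-! ### the reproducing kernel and the action -/

theorem l1b_norm_Kk (z ζ : ℂ) : ‖Kk z ζ‖ = l1bg (z - ζ) := by
  unfold Kk l1bg
  rw [Complex.norm_exp]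
  congr 1
  rw [Complex.sub_re, Complex.re_ofReal_mul, Complex.I_re, mul_zero, Complex.ofReal_re]
  ring

theorem l1b_enorm_Kk (z ζ : ℂ) : ‖Kk z ζ‖ₑ = ENNReal.ofReal (l1bg (z - ζ)) := by
  rw [← ofReal_norm, l1b_norm_Kk]

theorem l1b_Kk_cont : Continuous fun p : ℂ × ℂ => Kk p.1 p.2 := by
  unfold Kk
  fun_prop

theorem l1b_enorm_act (α : ℂ) (G : ℂ → ℂ) (z : ℂ) : ‖act α G z‖ₑ = ‖G (z + α)‖ₑ := by
  unfold act
  rw [enorm_mul]
  have h : ‖cexp ((((α * conj z).im : ℝ) : ℂ) * I)‖ₑ = 1 := by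
    rw [← ofReal_norm, Complex.norm_exp_ofReal_mul_I, ENNReal.ofReal_one]
  rw [h, one_mul]

theorem l1b_act_Kop (α : ℂ) (F : ℂ → ℂ) (z : ℂ) : Kop (act α F) z = act α (Kop F) z := by
  unfold Kop act
  rw [← integral_const_mul,
    ← l1b_int_add (fun ζ => cexp ((((α * conj z).im : ℝ) : ℂ) * I) * (Kk (z + α) ζ * F ζ)) α]
  refine integral_congr_ae (Filter.Eventually.of_forall fun ζ => ?_)
  simp only
  have key : Kk z ζ * cexp ((((α * conj ζ).im : ℝ) : ℂ) * I) =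
      cexp ((((α * conj z).im : ℝ) : ℂ) * I) * Kk (z + α) (ζ + α) := by
    unfold Kk
    rw [← Complex.exp_add, ← Complex.exp_add]
    congr 1
    have e1 : z + α - (ζ + α) = z - ζ := by ring
    have e2 : ((z + α) * conj (ζ + α)).im = (z * conj ζ).im - (α * conj z).im +
        (α * conj ζ).im := by
      simp only [map_add, Complex.mul_im, Complex.add_im, Complex.add_re, Complex.conj_re,
        Complex.conj_im]
      ring
    rw [e1, e2]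
    push_cast
    ring
  rw [← mul_assoc, key, mul_assoc]

/-! ### patterns -/

section pattern

variable {T : Type} [MeasurableSpace T]

/-- general pattern operators on functions -/
noncomputable def l1bP (ν : Measure T) (c a : T → ℂ) (G : ℂ → ℂ) (z : ℂ) : ℂ :=
  ∫ t, c t * act (a t) G z ∂ν

theorem l1b_P_le (ν : Measure T) (c a : T → ℂ) (G : ℂ → ℂ) (z : ℂ) :
    ‖l1bP ν c a G z‖ₑ ≤ ∫⁻ t, ‖c t‖ₑ * ‖G (z + a t)‖ₑ ∂ν := by
  unfold l1bP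
  refine (enorm_integral_le_lintegral_enorm _).trans (le_of_eq ?_)
  refine lintegral_congr fun t => ?_
  rw [enorm_mul, l1b_enorm_act]

theorem l1b_mink (ν : Measure T) [SFinite ν] {c a : T → ℂ} (hc : Measurable c)
    (ha : Measurable a) (ha1 : ∀ t, ‖a t‖ ≤ 1) {Y : ℂ → ℝ} {κ : ℝ} (hκ : 0 ≤ κ)
    (hYm : Measurable Y) (hY : ∀ z ζ, ‖z - ζ‖ ≤ 1 → Y z ≤ κ * Y ζ) {q : ℂ → ℝ≥0∞}
    (hq : Measurable q) {c0 : ℝ≥0∞} (hc0 : ∫⁻ t, ‖c t‖ₑ ∂ν ≤ c0) (hc0' : c0 ≠ ⊤) :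
    ∫⁻ z, (ENNReal.ofReal (Y z) * ∫⁻ t, ‖c t‖ₑ * q (z + a t) ∂ν) ^ 2 ∂dA ≤
      (ENNReal.ofReal κ * c0) ^ 2 * ∫⁻ z, (ENNReal.ofReal (Y z) * q z) ^ 2 ∂dA := by
  have := l1b_sfinite
  have hmY : Measurable fun x => ENNReal.ofReal (Y x) * q x := hYm.ennreal_ofReal.mul hq
  have hm1 : ∀ z, Measurable fun t => ENNReal.ofReal (Y (z + a t)) * q (z + a t) := fun z =>
    hmY.comp (ha.const_add z)
  have hle : ∀ z, ENNReal.ofReal (Y z) * ∫⁻ t, ‖c t‖ₑ * q (z + a t) ∂ν ≤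
      ENNReal.ofReal κ * ∫⁻ t, ‖c t‖ₑ * (ENNReal.ofReal (Y (z + a t)) * q (z + a t)) ∂ν := by
    intro z
    rw [← lintegral_const_mul' _ _ ENNReal.ofReal_ne_top,
      ← lintegral_const_mul' _ _ ENNReal.ofReal_ne_top]
    refine lintegral_mono fun t => ?_
    simp only
    have h1 : ENNReal.ofReal (Y z) ≤ ENNReal.ofReal κ * ENNReal.ofReal (Y (z + a t)) := by
      rw [← ENNReal.ofReal_mul hκ]
      refine ENNReal.ofReal_le_ofReal (hY z (z + a t) ?_)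
      rw [sub_add_cancel_left, norm_neg]
      exact ha1 t
    calc ENNReal.ofReal (Y z) * (‖c t‖ₑ * q (z + a t)) ≤
        (ENNReal.ofReal κ * ENNReal.ofReal (Y (z + a t))) * (‖c t‖ₑ * q (z + a t)) := by gcongr
      _ = _ := by ring
  calc ∫⁻ z, (ENNReal.ofReal (Y z) * ∫⁻ t, ‖c t‖ₑ * q (z + a t) ∂ν) ^ 2 ∂dA
      ≤ ∫⁻ z, (ENNReal.ofReal κ ^ 2 * c0) * ∫⁻ t, ‖c t‖ₑ *
          (ENNReal.ofReal (Y (z + a t)) * q (z + a t)) ^ 2 ∂ν ∂dA := by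
        refine lintegral_mono fun z => ?_
        refine (pow_le_pow_left' (hle z) 2).trans ?_
        rw [mul_pow, mul_assoc]
        refine mul_le_mul_right ?_ _
        refine (l1b_jensen hc.enorm.aemeasurable (hm1 z).aemeasurable).trans ?_
        gcongr
    _ = (ENNReal.ofReal κ ^ 2 * c0) * ∫⁻ z, ∫⁻ t, ‖c t‖ₑ *
          (ENNReal.ofReal (Y (z + a t)) * q (z + a t)) ^ 2 ∂ν ∂dA := by
        rw [lintegral_const_mul' _ _ (ENNReal.mul_ne_top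
          (ENNReal.pow_ne_top ENNReal.ofReal_ne_top) hc0')]
    _ = (ENNReal.ofReal κ ^ 2 * c0) * ∫⁻ t, ∫⁻ z, ‖c t‖ₑ *
          (ENNReal.ofReal (Y (z + a t)) * q (z + a t)) ^ 2 ∂dA ∂ν := by
        rw [lintegral_lintegral_swap]
        refine Measurable.aemeasurable ?_
        exact (hc.enorm.comp measurable_snd).mul
          ((hmY.comp (measurable_fst.add (ha.comp measurable_snd))).pow_const 2)
    _ = (ENNReal.ofReal κ ^ 2 * c0) * ∫⁻ t, ‖c t‖ₑ *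
          ∫⁻ z, (ENNReal.ofReal (Y z) * q z) ^ 2 ∂dA ∂ν := by
        congr 1
        refine lintegral_congr fun t => ?_
        rw [lintegral_const_mul' _ _ enorm_ne_top]
        congr 1
        exact l1b_lint_add (fun x => (ENNReal.ofReal (Y x) * q x) ^ 2) (a t)
    _ ≤ (ENNReal.ofReal κ ^ 2 * c0) * (c0 * ∫⁻ z, (ENNReal.ofReal (Y z) * q z) ^ 2 ∂dA) := by
        rw [lintegral_mul_const _ hc.enorm]
        gcongr
    _ = _ := by ring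

/-- Fubini for the kernel and a pattern -/
theorem l1b_kop_P (ν : Measure T) [SFinite ν] {c a : T → ℂ} (hc : Measurable c)
    (ha : Measurable a) (ha1 : ∀ t, ‖a t‖ ≤ 1) (hc0 : ∫⁻ t, ‖c t‖ₑ ∂ν ≠ ⊤) {Θ G : ℂ → ℂ}
    (hΘ : Measurable Θ) (hG : Measurable G) {B : ℂ → ℝ≥0∞} {κ : ℝ≥0∞}
    (hκ : κ ≠ ⊤) (hB : ∀ ζ α : ℂ, ‖α‖ ≤ 1 → ‖Θ ζ * G (ζ + α)‖ₑ ≤ κ * B (ζ + α)) (z : ℂ)
    {J0 : ℝ≥0∞} (hJ0 : J0 ≠ ⊤) (hJ : ∀ α : ℂ, ‖α‖ ≤ 1 → l1bJ B (z + α) ≤ J0) :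
    Integrable (fun ζ => Kk z ζ * (Θ ζ * l1bP ν c a G ζ)) dA ∧
      Kop (fun ζ => Θ ζ * l1bP ν c a G ζ) z =
        ∫ t, c t * Kop (fun ζ => Θ ζ * act (a t) G ζ) z ∂ν := by
  have := l1b_sfinite
  have hact : Measurable fun p : ℂ × T => act (a p.2) G p.1 := by
    unfold act
    have h1 : Measurable fun p : ℂ × T => a p.2 := ha.comp measurable_snd
    have h2 : Measurable fun p : ℂ × T => ((a p.2 * conj p.1).im : ℝ) :=
      Complex.measurable_im.comp (h1.mul (Complex.continuous_conj.measurable.comp measurable_fst))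
    exact (Complex.measurable_exp.comp ((Complex.measurable_ofReal.comp h2).mul_const I)).mul
      (hG.comp (measurable_fst.add h1))
  have hfm : Measurable fun p : ℂ × T => Kk z p.1 * (Θ p.1 * (c p.2 * act (a p.2) G p.1)) := by
    have h1 : Measurable fun p : ℂ × T => Kk z p.1 :=
      (l1b_Kk_cont.comp (by fun_prop : Continuous fun ζ : ℂ => (z, ζ))).measurable.comp
        measurable_fst
    exact h1.mul ((hΘ.comp measurable_fst).mul ((hc.comp measurable_snd).mul hact))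
  have hbound : ∀ t, ∫⁻ ζ, ‖Kk z ζ * (Θ ζ * (c t * act (a t) G ζ))‖ₑ ∂dA ≤
      ‖c t‖ₑ * (κ * J0) := by
    intro t
    calc ∫⁻ ζ, ‖Kk z ζ * (Θ ζ * (c t * act (a t) G ζ))‖ₑ ∂dA
        ≤ ∫⁻ ζ, ‖c t‖ₑ * (κ * (ENNReal.ofReal (l1bg (z + a t - (ζ + a t))) *
            B (ζ + a t))) ∂dA := by
          refine lintegral_mono fun ζ => ?_
          have e1 : z + a t - (ζ + a t) = z - ζ := by ring
          have h1 := hB ζ (a t) (ha1 t)
          rw [enorm_mul] at h1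
          rw [enorm_mul, enorm_mul, enorm_mul, l1b_enorm_Kk, l1b_enorm_act, e1]
          calc ENNReal.ofReal (l1bg (z - ζ)) * (‖Θ ζ‖ₑ * (‖c t‖ₑ * ‖G (ζ + a t)‖ₑ))
              = ‖c t‖ₑ * (ENNReal.ofReal (l1bg (z - ζ)) * (‖Θ ζ‖ₑ * ‖G (ζ + a t)‖ₑ)) := by ring
            _ ≤ ‖c t‖ₑ * (ENNReal.ofReal (l1bg (z - ζ)) * (κ * B (ζ + a t))) := by gcongr
            _ = _ := by ring
      _ = ‖c t‖ₑ * (κ * l1bJ B (z + a t)) := by
          rw [lintegral_const_mul' _ _ enorm_ne_top, lintegral_const_mul' _ _ hκ]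
          congr 2
          exact l1b_lint_add (fun ζ => ENNReal.ofReal (l1bg (z + a t - ζ)) * B ζ) (a t)
      _ ≤ _ := by
          gcongr
          exact hJ _ (ha1 t)
  have hint : Integrable (fun p : ℂ × T => Kk z p.1 * (Θ p.1 * (c p.2 * act (a p.2) G p.1)))
      (dA.prod ν) := by
    refine ⟨hfm.aestronglyMeasurable, ?_⟩
    unfold HasFiniteIntegral
    rw [lintegral_prod_symm _ hfm.enorm.aemeasurable]
    refine lt_of_le_of_lt (lintegral_mono hbound) ?_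
    rw [lintegral_mul_const _ hc.enorm]
    exact ENNReal.mul_lt_top hc0.lt_top (ENNReal.mul_lt_top hκ.lt_top hJ0.lt_top)
  have e1 : ∀ ζ, Kk z ζ * (Θ ζ * l1bP ν c a G ζ) =
      ∫ t, Kk z ζ * (Θ ζ * (c t * act (a t) G ζ)) ∂ν := by
    intro ζ
    unfold l1bP
    rw [integral_const_mul, integral_const_mul]
  constructor
  · have := hint.integral_prod_left
    simpa only [e1] using this
  · unfold Kop
    calc ∫ ζ, Kk z ζ * (Θ ζ * l1bP ν c a G ζ) ∂dA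
        = ∫ ζ, ∫ t, Kk z ζ * (Θ ζ * (c t * act (a t) G ζ)) ∂ν ∂dA := by simp only [e1]
      _ = ∫ t, ∫ ζ, Kk z ζ * (Θ ζ * (c t * act (a t) G ζ)) ∂dA ∂ν := integral_integral_swap hint
      _ = ∫ t, c t * ∫ ζ, Kk z ζ * (Θ ζ * act (a t) G ζ) ∂dA ∂ν := by
          refine integral_congr_ae (Filter.Eventually.of_forall fun t => ?_)
          simp only
          rw [← integral_const_mul]
          refine integral_congr_ae (Filter.Eventually.of_forall fun ζ => ?_)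
          simp only
          ring

theorem l1b_Kop_le (F : ℂ → ℂ) (z : ℂ) : ‖Kop F z‖ₑ ≤ l1bJ (fun ζ => ‖F ζ‖ₑ) z := by
  unfold Kop l1bJ
  refine (enorm_integral_le_lintegral_enorm _).trans (le_of_eq ?_)
  refine lintegral_congr fun ζ => ?_
  rw [enorm_mul, l1b_enorm_Kk]

/-- the dominating function of a pattern -/
noncomputable def l1bq (ν : Measure T) (c a : T → ℂ) (h : ℂ → ℝ≥0∞) (ζ : ℂ) : ℝ≥0∞ :=
  ∫⁻ t, ‖c t‖ₑ * h (ζ + a t) ∂ν

theorem l1bq_meas (ν : Measure T) [SFinite ν] {c a : T → ℂ} (hc : Measurable c)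
    (ha : Measurable a) {h : ℂ → ℝ≥0∞} (hh : Measurable h) : Measurable (l1bq ν c a h) := by
  unfold l1bq
  refine Measurable.lintegral_prod_right' (f := fun p : ℂ × T => ‖c p.2‖ₑ * h (p.1 + a p.2)) ?_
  exact (hc.enorm.comp measurable_snd).mul (hh.comp (measurable_fst.add (ha.comp measurable_snd)))

theorem l1b_int_act (ν : Measure T) {c a : T → ℂ} (hc : Measurable c)
    (ha : Measurable a) (ha1 : ∀ t, ‖a t‖ ≤ 1) (hc0 : ∫⁻ t, ‖c t‖ₑ ∂ν ≠ ⊤) {F : ℂ → ℂ}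
    (hF : Continuous F) (ζ : ℂ) : Integrable (fun t => c t * act (a t) F ζ) ν := by
  obtain ⟨M, hM⟩ := (isCompact_closedBall ζ 1).exists_bound_of_continuousOn hF.continuousOn
  have hact : Measurable fun t : T => act (a t) F ζ := by
    unfold act
    have h2 : Measurable fun t : T => ((a t * conj ζ).im : ℝ) :=
      Complex.measurable_im.comp (ha.mul_const _)
    exact (Complex.measurable_exp.comp ((Complex.measurable_ofReal.comp h2).mul_const I)).mul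
      (hF.measurable.comp (ha.const_add ζ))
  refine ⟨(hc.mul hact).aestronglyMeasurable, ?_⟩
  unfold HasFiniteIntegral
  have h1 : ∀ t, ‖c t * act (a t) F ζ‖ₑ ≤ ‖c t‖ₑ * ENNReal.ofReal M := by
    intro t
    rw [enorm_mul, l1b_enorm_act]
    gcongr
    rw [← ofReal_norm]
    refine ENNReal.ofReal_le_ofReal (hM _ ?_)
    rw [Metric.mem_closedBall, dist_eq_norm, add_sub_cancel_left]
    exact ha1 t
  refine lt_of_le_of_lt (lintegral_mono h1) ?_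
  rw [lintegral_mul_const _ hc.enorm]
  exact ENNReal.mul_lt_top hc0.lt_top ENNReal.ofReal_lt_top

theorem l1b_W1 : L1bW (fun _ => (1 : ℝ)) where
  pos _ := one_pos
  meas := measurable_const
  le z ζ := by
    rw [one_mul]
    exact Real.one_le_exp (by positivity)

theorem l1b_fin_one {Ω : ℂ → ℝ} {G : ℂ → ℂ} (hfin : S2 Ω G < ⊤) :
    ∫⁻ z, (ENNReal.ofReal 1 * ‖((Ω z : ℝ) : ℂ) * G z‖ₑ) ^ 2 ∂dA < ⊤ := by
  have h : S2 Ω G = ∫⁻ z, (ENNReal.ofReal 1 * ‖((Ω z : ℝ) : ℂ) * G z‖ₑ) ^ 2 ∂dA := by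
    unfold S2
    simp only [ENNReal.ofReal_one, one_mul]
  rwa [← h]

/-- the pointwise form of the commutator estimate -/
theorem l1b_comm_P (ν : Measure T) [SFinite ν] {c a : T → ℂ} (hc : Measurable c)
    (ha : Measurable a) (ha1 : ∀ t, ‖a t‖ ≤ 1) (hc0 : ∫⁻ t, ‖c t‖ₑ ∂ν ≠ ⊤)
    {Ω s : ℂ → ℝ} {G : ℂ → ℂ} (hΩ : IsW Ω s) (hG : Continuous G) (hfin : S2 Ω G < ⊤) (z : ℂ) :
    Integrable (fun ζ => Kk z ζ * (((Ω ζ : ℝ) : ℂ) * l1bP ν c a G ζ)) dA ∧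
    ‖l1bP ν c a (Kop fun ζ => ((Ω ζ : ℝ) : ℂ) * G ζ) z -
        Kop (fun ζ => ((Ω ζ : ℝ) : ℂ) * l1bP ν c a G ζ) z‖ₑ ≤
      l1bJ (l1bq ν c a fun x => ENNReal.ofReal (Real.exp 1 * (s x * Ω x)) * ‖G x‖ₑ) z := by
  have hΩc : Continuous fun ζ => ((Ω ζ : ℝ) : ℂ) := Complex.continuous_ofReal.comp hΩ.cont
  have hΩG : Continuous fun x => ((Ω x : ℝ) : ℂ) * G x := hΩc.mul hG
  have hBm : Measurable fun x => ‖((Ω x : ℝ) : ℂ) * G x‖ₑ := hΩG.measurable.enorm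
  obtain ⟨J0, hJ0, hJ⟩ := l1b_J_unif l1b_W1 hBm (l1b_fin_one hfin) z
  have hslope : ∀ ζ α : ℂ, ‖α‖ ≤ 1 →
      |Ω ζ - Ω (ζ + α)| ≤ Real.exp 1 * (s (ζ + α) * Ω (ζ + α)) := by
    intro ζ α hα
    have h1 := hΩ.slope ζ (ζ + α)
    have h2 : ‖ζ - (ζ + α)‖ = ‖α‖ := by rw [sub_add_cancel_left, norm_neg]
    rw [h2] at h1
    have h3 : 0 ≤ s (ζ + α) * Ω (ζ + α) := mul_nonneg (hΩ.s_nonneg _) (hΩ.pos _).le
    refine h1.trans ?_
    have h4 : ‖α‖ * Real.exp ‖α‖ ≤ 1 * Real.exp 1 :=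
      mul_le_mul hα (Real.exp_le_exp.2 hα) (Real.exp_nonneg _) zero_le_one
    calc s (ζ + α) * Ω (ζ + α) * ‖α‖ * Real.exp ‖α‖ =
        s (ζ + α) * Ω (ζ + α) * (‖α‖ * Real.exp ‖α‖) := by ring
      _ ≤ s (ζ + α) * Ω (ζ + α) * (1 * Real.exp 1) := mul_le_mul_of_nonneg_left h4 h3
      _ = _ := by ring
  have hcomp : ∀ ζ α : ℂ, ‖α‖ ≤ 1 → Ω ζ ≤ 4 * Ω (ζ + α) := by
    intro ζ α hα
    have h1 := (abs_le.1 (hslope ζ α hα)).2
    have h2 : s (ζ + α) * Ω (ζ + α) ≤ 1 * Ω (ζ + α) :=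
      mul_le_mul_of_nonneg_right (hΩ.s_le _) (hΩ.pos _).le
    have h3 : Real.exp 1 < 3 := by
      have := Real.exp_one_lt_d9
      linarith
    have h4 : 0 < Ω (ζ + α) := hΩ.pos _
    have h5 : 0 ≤ s (ζ + α) * Ω (ζ + α) := mul_nonneg (hΩ.s_nonneg _) h4.le
    nlinarith [Real.exp_pos 1]
  obtain ⟨A1, A2⟩ := l1b_kop_P ν hc ha ha1 hc0 hΩc.measurable hG.measurable
    (B := fun x => ‖((Ω x : ℝ) : ℂ) * G x‖ₑ) (κ := ENNReal.ofReal 4) ENNReal.ofReal_ne_top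
    (by
      intro ζ α hα
      rw [enorm_mul, enorm_mul, ← mul_assoc]
      gcongr
      rw [← ofReal_norm, ← ofReal_norm, Complex.norm_real, Complex.norm_real,
        Real.norm_of_nonneg (hΩ.pos _).le, Real.norm_of_nonneg (hΩ.pos _).le,
        ← ENNReal.ofReal_mul (by norm_num)]
      exact ENNReal.ofReal_le_ofReal (hcomp ζ α hα)) z hJ0 hJ
  obtain ⟨A3, A4⟩ := l1b_kop_P ν hc ha ha1 hc0 (Θ := fun _ => (1 : ℂ)) measurable_const
    hΩG.measurable (B := fun x => ‖((Ω x : ℝ) : ℂ) * G x‖ₑ) (κ := 1)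
    ENNReal.one_ne_top (fun ζ α _ => by rw [one_mul, one_mul]) z hJ0 hJ
  simp only [one_mul] at A3 A4
  refine ⟨A1, ?_⟩
  have e1 : l1bP ν c a (Kop fun ζ => ((Ω ζ : ℝ) : ℂ) * G ζ) z =
      Kop (fun ζ => l1bP ν c a (fun x => ((Ω x : ℝ) : ℂ) * G x) ζ) z := by
    rw [A4]
    unfold l1bP
    refine integral_congr_ae (Filter.Eventually.of_forall fun t => ?_)
    simp only
    rw [← l1b_act_Kop]
  have e2 : l1bP ν c a (Kop fun ζ => ((Ω ζ : ℝ) : ℂ) * G ζ) z -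
        Kop (fun ζ => ((Ω ζ : ℝ) : ℂ) * l1bP ν c a G ζ) z =
      Kop (fun ζ => l1bP ν c a (fun x => ((Ω x : ℝ) : ℂ) * G x) ζ -
        ((Ω ζ : ℝ) : ℂ) * l1bP ν c a G ζ) z := by
    rw [e1]
    unfold Kop
    refine (integral_sub A3 A1).symm.trans ?_
    refine integral_congr_ae (Filter.Eventually.of_forall fun ζ => ?_)
    simp only
    ring
  rw [e2]
  refine (l1b_Kop_le _ z).trans (l1b_J_mono (fun ζ => ?_) z)
  unfold l1bP l1bq
  rw [← integral_const_mul, ← integral_sub (l1b_int_act ν hc ha ha1 hc0 hΩG ζ)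
    ((l1b_int_act ν hc ha ha1 hc0 hG ζ).const_mul _)]
  refine (enorm_integral_le_lintegral_enorm _).trans (lintegral_mono fun t => ?_)
  simp only
  have e3 : c t * act (a t) (fun x => ((Ω x : ℝ) : ℂ) * G x) ζ -
      ((Ω ζ : ℝ) : ℂ) * (c t * act (a t) G ζ) =
      c t * ((((Ω (ζ + a t) - Ω ζ : ℝ)) : ℂ) * act (a t) G ζ) := by
    unfold act
    push_cast
    ring
  rw [e3, enorm_mul, enorm_mul, l1b_enorm_act]
  gcongr
  rw [← ofReal_norm, Complex.norm_real, Real.norm_eq_abs, abs_sub_comm]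
  exact ENNReal.ofReal_le_ofReal (hslope ζ (a t) (ha1 t))

end pattern

/-! ### the two parts of the pattern -/

theorem l1b_node_meas : Measurable node := by
  unfold node
  exact (by fun_prop : Continuous fun t : ℝ => cexp (((2 * Real.pi * t : ℝ) : ℂ) * I)).measurable

theorem l1b_node_norm (t : ℝ) : ‖node t‖ ≤ 1 := by
  unfold node
  rw [Complex.norm_exp_ofReal_mul_I]

theorem l1b_actB_eq (D : Data) (γ : Fin D.m → ℂ) (G : ℂ → ℂ) (z : ℂ) :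
    actB D γ G z = l1bP Measure.count (fun i => D.β i * γ i) (fun i => node (D.τ i)) G z := by
  unfold actB l1bP
  rw [integral_count]

theorem l1b_actX_eq (μ : Measure ℝ) (ξ : ℝ → ℂ) (G : ℂ → ℂ) (z : ℂ) :
    actX μ ξ G z = l1bP μ ξ node G z := rfl

theorem l1b_cB (D : Data) (γ : Fin D.m → ℂ) {C0 : ℝ} (h : ∑ i, ‖D.β i * γ i‖ ≤ C0) :
    ∫⁻ i, ‖D.β i * γ i‖ₑ ∂(Measure.count : Measure (Fin D.m)) ≤ ENNReal.ofReal C0 := by
  rw [lintegral_count, tsum_fintype]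
  have : ∑ i, ‖D.β i * γ i‖ₑ = ENNReal.ofReal (∑ i, ‖D.β i * γ i‖) := by
    rw [ENNReal.ofReal_sum_of_nonneg fun _ _ => norm_nonneg _]
    simp only [ofReal_norm]
  rw [this]
  exact ENNReal.ofReal_le_ofReal h

theorem l1b_cX (μ : Measure ℝ) [IsProbabilityMeasure μ] {C0 : ℝ} {ξ : ℝ → ℂ} (h : Bd μ C0 ξ) :
    ∫⁻ t, ‖ξ t‖ₑ ∂μ ≤ ENNReal.ofReal C0 := by
  calc ∫⁻ t, ‖ξ t‖ₑ ∂μ ≤ ∫⁻ _, ENNReal.ofReal C0 ∂μ := by
        refine lintegral_mono_ae ?_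
        filter_upwards [h.bd] with t ht
        rw [← ofReal_norm]
        exact ENNReal.ofReal_le_ofReal ht
    _ = ENNReal.ofReal C0 := by rw [lintegral_const, measure_univ, mul_one]

theorem l1b_sq_add (x y : ℝ≥0∞) : (x + y) ^ 2 ≤ 4 * (x ^ 2 + y ^ 2) := by
  have h : ∀ a b : ℝ≥0∞, a ≤ b → (a + b) ^ 2 ≤ 4 * (a ^ 2 + b ^ 2) := by
    intro a b hab
    calc (a + b) ^ 2 ≤ (b + b) ^ 2 := by gcongr
      _ = 4 * b ^ 2 := by ring
      _ ≤ 4 * (a ^ 2 + b ^ 2) := by gcongr; exact le_add_self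
  rcases le_total x y with h1 | h1
  · exact h x y h1
  · rw [add_comm x y, add_comm (x ^ 2)]
    exact h y x h1

/-- the common final estimate -/
theorem l1b_final {Y : ℂ → ℝ} (hY : ∀ z, 0 ≤ Y z) (D : ℂ → ℂ) {f g : ℂ → ℝ≥0∞}
    (hYm : Measurable Y) (hf : Measurable f) (hD : ∀ z, ‖D z‖ₑ ≤ f z + g z) {E : ℝ≥0∞}
    (h1 : ∫⁻ z, (ENNReal.ofReal (Y z) * f z) ^ 2 ∂dA ≤ E)
    (h2 : ∫⁻ z, (ENNReal.ofReal (Y z) * g z) ^ 2 ∂dA ≤ E) : S2 Y D ≤ 8 * E := by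
  rw [l1b_S2_eq hY]
  have hYf : Measurable fun z => (ENNReal.ofReal (Y z) * f z) ^ 2 :=
    (hYm.ennreal_ofReal.mul hf).pow_const 2
  calc ∫⁻ z, (ENNReal.ofReal (Y z) * ‖D z‖ₑ) ^ 2 ∂dA
      ≤ ∫⁻ z, 4 * ((ENNReal.ofReal (Y z) * f z) ^ 2 + (ENNReal.ofReal (Y z) * g z) ^ 2) ∂dA := by
        refine lintegral_mono fun z => ?_
        refine le_trans ?_ (l1b_sq_add _ _)
        rw [← mul_add]
        gcongr
        exact hD z
    _ = 4 * (∫⁻ z, (ENNReal.ofReal (Y z) * f z) ^ 2 ∂dA +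
          ∫⁻ z, (ENNReal.ofReal (Y z) * g z) ^ 2 ∂dA) := by
        rw [lintegral_const_mul' _ _ (by norm_num),
          lintegral_add_left hYf]
    _ ≤ 4 * (E + E) := by gcongr
    _ = 8 * E := by ring

theorem l1b_const {E : ℝ≥0∞} (hE : E ≠ ⊤) : ∃ C : ℝ, 0 < C ∧ E ≤ ENNReal.ofReal C :=
  ⟨E.toReal + 1, by positivity, by
    rw [ENNReal.ofReal_add ENNReal.toReal_nonneg zero_le_one, ENNReal.ofReal_toReal hE]
    exact le_self_add⟩

theorem l1b_S2_actA (D : Data) (μ : Measure ℝ) [IsProbabilityMeasure μ] {C0 : ℝ}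
    {γ : Fin D.m → ℂ} {ξ : ℝ → ℂ} (hb : ∑ i, ‖D.β i * γ i‖ ≤ C0) (hξ : Bd μ C0 ξ)
    {Y : ℂ → ℝ} {κ : ℝ} (hκ : 0 ≤ κ) (hY : ∀ z ζ, ‖z - ζ‖ ≤ 1 → Y z ≤ κ * Y ζ)
    (hY0 : ∀ z, 0 ≤ Y z) (hYm : Measurable Y) {G : ℂ → ℂ} (hG : Continuous G) :
    S2 Y (actA D μ γ ξ G) ≤ 8 * ((ENNReal.ofReal κ * ENNReal.ofReal C0) ^ 2 * S2 Y G) := by
  have hGm : Measurable fun x => ‖G x‖ₑ := hG.measurable.enorm
  have hcm : Measurable fun i : Fin D.m => D.β i * γ i := measurable_of_finite _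
  have ham : Measurable fun i : Fin D.m => node (D.τ i) := measurable_of_finite _
  refine l1b_final hY0 _ hYm
    (f := l1bq Measure.count (fun i => D.β i * γ i) (fun i => node (D.τ i)) fun x => ‖G x‖ₑ)
    (g := l1bq μ ξ node fun x => ‖G x‖ₑ) (l1bq_meas _ hcm ham hGm) (fun z => ?_) ?_ ?_
  · unfold actA
    refine (enorm_add_le _ _).trans (add_le_add ?_ ?_)
    · rw [l1b_actB_eq]
      exact l1b_P_le _ _ _ _ _
    · rw [l1b_actX_eq]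
      exact l1b_P_le _ _ _ _ _
  · rw [l1b_S2_eq hY0]
    exact l1b_mink _ hcm ham (fun i => l1b_node_norm _) hκ hYm hY hGm (l1b_cB D γ hb)
      ENNReal.ofReal_ne_top
  · rw [l1b_S2_eq hY0]
    exact l1b_mink _ hξ.meas l1b_node_meas l1b_node_norm hκ hYm hY hGm (l1b_cX μ hξ)
      ENNReal.ofReal_ne_top

theorem l1b_logLip_cont {Y : ℂ → ℝ} (hY : LogLip Y) : Continuous Y := by
  have h1 : LipschitzWith 1 fun z => Real.log (Y z) := by
    refine LipschitzWith.of_le_add fun z ζ => ?_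
    have h2 := Real.log_le_log (hY.pos z) (hY.le z ζ)
    rwa [Real.log_mul (hY.pos ζ).ne' (Real.exp_pos _).ne', Real.log_exp, ← dist_eq_norm] at h2
  have h3 : Y = fun z => Real.exp (Real.log (Y z)) := by
    funext z
    rw [Real.exp_log (hY.pos z)]
  rw [h3]
  exact Real.continuous_exp.comp h1.continuous

theorem l1b_logLip_W {Y : ℂ → ℝ} (hY : LogLip Y) : L1bW Y where
  pos := hY.pos
  meas := (l1b_logLip_cont hY).measurable
  le z ζ := by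
    refine (hY.le z ζ).trans (mul_le_mul_of_nonneg_left (Real.exp_le_exp.2 ?_) (hY.pos ζ).le)
    have := norm_nonneg (z - ζ)
    linarith

theorem l1b_logLip_one {Y : ℂ → ℝ} (hY : LogLip Y) (z ζ : ℂ) (h : ‖z - ζ‖ ≤ 1) :
    Y z ≤ Real.exp 1 * Y ζ := by
  rw [mul_comm]
  exact (hY.le z ζ).trans (mul_le_mul_of_nonneg_left (Real.exp_le_exp.2 h) (hY.pos ζ).le)

/-- commutator of a pattern operator with the weight, on the level of functions -/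
theorem L1b (C0 : ℝ) : ∃ C : ℝ, 0 < C ∧ ∀ (D : Data) (μ : Measure ℝ) [IsProbabilityMeasure μ]
    (γ : Fin D.m → ℂ) (ξ : ℝ → ℂ), ∑ i, ‖D.β i‖ ≤ C0 → (∀ i, ‖γ i‖ ≤ 1) → Bd μ C0 ξ →
    ∀ (Ω s Y : ℂ → ℝ) (G : ℂ → ℂ), IsW Ω s → LogLip Y → Rep G → S2 Ω G < ⊤ →
    S2 Y (fun z => actA D μ γ ξ (Kop fun ζ => ((Ω ζ : ℝ) : ℂ) * G ζ) z -
        Kop (fun ζ => ((Ω ζ : ℝ) : ℂ) * actA D μ γ ξ G ζ) z) ≤
      ENNReal.ofReal C * S2 (fun z => Y z * s z * Ω z) G := by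
  set K1 := ∫⁻ x : ℂ, ENNReal.ofReal (l1bk x) ∂dA with hK1
  set E0 : ℝ≥0∞ := K1 ^ 2 * ((ENNReal.ofReal (Real.exp 1) * ENNReal.ofReal C0) ^ 2 *
    ENNReal.ofReal (Real.exp 1) ^ 2) with hE0
  have hE0fin : 8 * E0 ≠ ⊤ := by
    refine ENNReal.mul_ne_top (by norm_num) (ENNReal.mul_ne_top (ENNReal.pow_ne_top l1b_k1.ne)
      (ENNReal.mul_ne_top (ENNReal.pow_ne_top (ENNReal.mul_ne_top ENNReal.ofReal_ne_top
        ENNReal.ofReal_ne_top)) (ENNReal.pow_ne_top ENNReal.ofReal_ne_top)))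
  obtain ⟨C, hC, hEC⟩ := l1b_const hE0fin
  refine ⟨C, hC, ?_⟩
  intro D μ _ γ ξ hβ hγ hξ Ω s Y G hΩ hY hG hfin
  have hb : ∑ i, ‖D.β i * γ i‖ ≤ C0 := by
    refine le_trans (Finset.sum_le_sum fun i _ => ?_) hβ
    rw [norm_mul]
    exact mul_le_of_le_one_right (norm_nonneg _) (hγ i)
  have hcm : Measurable fun i : Fin D.m => D.β i * γ i := measurable_of_finite _
  have ham : Measurable fun i : Fin D.m => node (D.τ i) := measurable_of_finite _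
  have hcB := l1b_cB D γ hb
  have hcX := l1b_cX μ hξ
  have hcB' := (lt_of_le_of_lt hcB ENNReal.ofReal_lt_top).ne
  have hcX' := (lt_of_le_of_lt hcX ENNReal.ofReal_lt_top).ne
  have hYW := l1b_logLip_W hY
  have hYm := hYW.meas
  set h : ℂ → ℝ≥0∞ := fun x => ENNReal.ofReal (Real.exp 1 * (s x * Ω x)) * ‖G x‖ₑ with hh
  have hhm : Measurable h := ((hΩ.s_cont.mul hΩ.cont).measurable.const_mul _).ennreal_ofReal.mul
    hG.cont.measurable.enorm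
  have hYh : ∫⁻ z, (ENNReal.ofReal (Y z) * h z) ^ 2 ∂dA =
      ENNReal.ofReal (Real.exp 1) ^ 2 * S2 (fun z => Y z * s z * Ω z) G := by
    rw [l1b_S2_eq fun z => mul_nonneg (mul_nonneg (hY.pos z).le (hΩ.s_nonneg z)) (hΩ.pos z).le,
      ← lintegral_const_mul' _ _ (ENNReal.pow_ne_top ENNReal.ofReal_ne_top)]
    refine lintegral_congr fun z => ?_
    rw [← mul_pow, hh]
    congr 1
    simp only
    rw [ENNReal.ofReal_mul (Real.exp_nonneg 1), mul_assoc (Y z), ENNReal.ofReal_mul (hY.pos z).le]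
    ring
  have bound : ∀ {T : Type} [MeasurableSpace T] (ν : Measure T) [SFinite ν] (c a : T → ℂ),
      Measurable c → Measurable a → (∀ t, ‖a t‖ ≤ 1) → ∫⁻ t, ‖c t‖ₑ ∂ν ≤ ENNReal.ofReal C0 →
      ∫⁻ z, (ENNReal.ofReal (Y z) * l1bJ (l1bq ν c a h) z) ^ 2 ∂dA ≤
        E0 * S2 (fun z => Y z * s z * Ω z) G := by
    intro T _ ν _ c a hc ha ha1 hc0
    refine (l1b_young hYW (l1bq_meas ν hc ha hhm)).trans ?_
    rw [hE0, ← hK1, mul_assoc, mul_assoc, ← hYh]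
    gcongr
    exact l1b_mink ν hc ha ha1 (Real.exp_nonneg 1) hYm (l1b_logLip_one hY) hhm hc0
      ENNReal.ofReal_ne_top
  refine (l1b_final (fun z => (hY.pos z).le) _ hYm
    (f := l1bJ (l1bq Measure.count (fun i => D.β i * γ i) (fun i => node (D.τ i)) h))
    (g := l1bJ (l1bq μ ξ node h)) (l1b_J_meas (l1bq_meas _ hcm ham hhm)) (fun z => ?_)
    (bound _ _ _ hcm ham (fun i => l1b_node_norm _) hcB)
    (bound _ _ _ hξ.meas l1b_node_meas l1b_node_norm hcX)).trans ?_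
  · obtain ⟨B1, B2⟩ := l1b_comm_P Measure.count hcm ham (fun i => l1b_node_norm _) hcB' hΩ
      hG.cont hfin z
    obtain ⟨X1, X2⟩ := l1b_comm_P μ hξ.meas l1b_node_meas l1b_node_norm hcX' hΩ hG.cont hfin z
    have e : actA D μ γ ξ (Kop fun ζ => ((Ω ζ : ℝ) : ℂ) * G ζ) z -
        Kop (fun ζ => ((Ω ζ : ℝ) : ℂ) * actA D μ γ ξ G ζ) z =
        (l1bP Measure.count (fun i => D.β i * γ i) (fun i => node (D.τ i))
            (Kop fun ζ => ((Ω ζ : ℝ) : ℂ) * G ζ) z -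
          Kop (fun ζ => ((Ω ζ : ℝ) : ℂ) * l1bP Measure.count (fun i => D.β i * γ i)
            (fun i => node (D.τ i)) G ζ) z) +
        (l1bP μ ξ node (Kop fun ζ => ((Ω ζ : ℝ) : ℂ) * G ζ) z -
          Kop (fun ζ => ((Ω ζ : ℝ) : ℂ) * l1bP μ ξ node G ζ) z) := by
      have e1 : Kop (fun ζ => ((Ω ζ : ℝ) : ℂ) * actA D μ γ ξ G ζ) z =
          Kop (fun ζ => ((Ω ζ : ℝ) : ℂ) * l1bP Measure.count (fun i => D.β i * γ i)
            (fun i => node (D.τ i)) G ζ) z +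
          Kop (fun ζ => ((Ω ζ : ℝ) : ℂ) * l1bP μ ξ node G ζ) z := by
        unfold Kop
        refine Eq.trans ?_ (integral_add B1 X1)
        refine integral_congr_ae (Filter.Eventually.of_forall fun ζ => ?_)
        simp only [actA]
        rw [l1b_actB_eq, l1b_actX_eq]
        ring
      rw [e1]
      unfold actA
      rw [l1b_actB_eq, l1b_actX_eq]
      ring
    rw [e]
    exact (enorm_add_le _ _).trans (add_le_add B2 X2)
  · rw [← mul_assoc]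
    gcongr

/-- size of pattern operators on weighted spaces -/
theorem S2_actA (C0 : ℝ) : ∃ C : ℝ, 0 < C ∧ ∀ (D : Data) (μ : Measure ℝ) [IsProbabilityMeasure μ]
    (γ : Fin D.m → ℂ) (ξ : ℝ → ℂ), ∑ i, ‖D.β i‖ ≤ C0 → (∀ i, ‖γ i‖ ≤ 1) → Bd μ C0 ξ →
    ∀ (Y : ℂ → ℝ) (G : ℂ → ℂ), (∀ z ζ, ‖z - ζ‖ ≤ 1 → Y z ≤ 20 * Y ζ) → (∀ z, 0 < Y z) →
    Measurable Y → Continuous G → S2 Y (actA D μ γ ξ G) ≤ ENNReal.ofReal C * S2 Y G := by
  have hfin : 8 * (ENNReal.ofReal 20 * ENNReal.ofReal C0) ^ 2 ≠ ⊤ :=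
    ENNReal.mul_ne_top (by norm_num) (ENNReal.pow_ne_top (ENNReal.mul_ne_top
      ENNReal.ofReal_ne_top ENNReal.ofReal_ne_top))
  obtain ⟨C, hC, hEC⟩ := l1b_const hfin
  refine ⟨C, hC, ?_⟩
  intro D μ _ γ ξ hβ hγ hξ Y G hY hY0 hYm hG
  have hb : ∑ i, ‖D.β i * γ i‖ ≤ C0 := by
    refine le_trans (Finset.sum_le_sum fun i _ => ?_) hβ
    rw [norm_mul]
    exact mul_le_of_le_one_right (norm_nonneg _) (hγ i)
  refine (l1b_S2_actA D μ hb hξ (by norm_num) hY (fun z => (hY0 z).le) hYm hG).trans ?_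
  rw [← mul_assoc]
  gcongr

theorem l1b_om_W : L1bW (om 4) where
  pos z := by unfold om; positivity
  meas := by
    have : Continuous (om 4) := by
      unfold om
      refine Continuous.inv₀ (by fun_prop) fun z => ?_
      positivity
    exact this.measurable
  le z ζ := by
    unfold om
    have h0 : ‖ζ‖ ≤ ‖z‖ + ‖z - ζ‖ := by
      have := norm_sub_le z (z - ζ)
      rwa [sub_sub_cancel] at this
    have h1 : 0 ≤ ‖z - ζ‖ := norm_nonneg _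
    have h2 : 0 ≤ ‖z‖ := norm_nonneg _
    have h3 : 0 ≤ ‖ζ‖ := norm_nonneg _
    have h4 : 1 + ‖ζ‖ / 4 ≤ (1 + ‖z‖ / 4) * Real.exp (‖z - ζ‖ / 2) := by
      have h5 := Real.add_one_le_exp (‖z - ζ‖ / 2)
      calc 1 + ‖ζ‖ / 4 ≤ (1 + ‖z‖ / 4) * (‖z - ζ‖ / 2 + 1) := by nlinarith [mul_nonneg h2 h1]
        _ ≤ _ := mul_le_mul_of_nonneg_left h5 (by positivity)
    have h6 : (1 + ‖ζ‖ / 4) ^ 4 ≤ (1 + ‖z‖ / 4) ^ 4 * Real.exp (2 * ‖z - ζ‖) := by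
      calc (1 + ‖ζ‖ / 4) ^ 4 ≤ ((1 + ‖z‖ / 4) * Real.exp (‖z - ζ‖ / 2)) ^ 4 := by gcongr
        _ = (1 + ‖z‖ / 4) ^ 4 * Real.exp (2 * ‖z - ζ‖) := by
            rw [mul_pow, ← Real.exp_nat_mul]
            congr 2
            push_cast
            ring
    rw [inv_mul_eq_div, inv_le_comm₀ (by positivity) (by positivity), inv_div,
      div_le_iff₀ (Real.exp_pos _)]
    exact h6

theorem l1b_om_one (z ζ : ℂ) (h : ‖z - ζ‖ ≤ 1) : om 4 z ≤ Real.exp 2 * om 4 ζ := by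
  rw [mul_comm]
  refine (l1b_om_W.le z ζ).trans (mul_le_mul_of_nonneg_left (Real.exp_le_exp.2 ?_)
    (l1b_om_W.pos ζ).le)
  linarith

theorem l1b_P_cont {T : Type} [MeasurableSpace T] (ν : Measure T) {c a : T → ℂ}
    (hc : Measurable c) (ha : Measurable a) (ha1 : ∀ t, ‖a t‖ ≤ 1)
    (hc0 : ∫⁻ t, ‖c t‖ₑ ∂ν ≠ ⊤) {F : ℂ → ℂ} (hF : Continuous F) :
    Continuous (l1bP ν c a F) := by
  rw [continuous_iff_continuousAt]
  intro z0
  obtain ⟨M, hM⟩ := (isCompact_closedBall z0 2).exists_bound_of_continuousOn hF.continuousOn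
  have hcint : Integrable c ν := ⟨hc.aestronglyMeasurable, lt_top_iff_ne_top.2 hc0⟩
  unfold l1bP
  refine continuousAt_of_dominated (bound := fun t => ‖c t‖ * M) ?_ ?_ (hcint.norm.mul_const M) ?_
  · exact Filter.Eventually.of_forall fun z =>
      (l1b_int_act ν hc ha ha1 hc0 hF z).aestronglyMeasurable
  · filter_upwards [Metric.closedBall_mem_nhds z0 one_pos] with z hz
    refine Filter.Eventually.of_forall fun t => ?_
    rw [norm_mul]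
    refine mul_le_mul_of_nonneg_left ?_ (norm_nonneg _)
    have h1 : ‖act (a t) F z‖ = ‖F (z + a t)‖ := by
      unfold act
      rw [norm_mul, Complex.norm_exp_ofReal_mul_I, one_mul]
    rw [h1]
    refine hM _ ?_
    rw [Metric.mem_closedBall, dist_eq_norm] at hz ⊢
    calc ‖z + a t - z0‖ = ‖(z - z0) + a t‖ := by congr 1; ring
      _ ≤ ‖z - z0‖ + ‖a t‖ := norm_add_le _ _
      _ ≤ 2 := by linarith [ha1 t]
  · refine Filter.Eventually.of_forall fun t => ?_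
    refine Continuous.continuousAt ?_
    unfold act
    fun_prop

theorem rep_actA (D : Data) (μ : Measure ℝ) [IsProbabilityMeasure μ] (M : ℝ)
    (γ : Fin D.m → ℂ) (ξ : ℝ → ℂ) (hξ : Bd μ M ξ) (G : ℂ → ℂ) (hG : Rep G) :
    Rep (actA D μ γ ξ G) := by
  set C0 := max (∑ i, ‖D.β i * γ i‖) M with hC0
  have hb : ∑ i, ‖D.β i * γ i‖ ≤ C0 := le_max_left _ _
  have hξ' : Bd μ C0 ξ := ⟨hξ.meas, hξ.bd.mono fun t ht => ht.trans (le_max_right _ _)⟩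
  have hcm : Measurable fun i : Fin D.m => D.β i * γ i := measurable_of_finite _
  have ham : Measurable fun i : Fin D.m => node (D.τ i) := measurable_of_finite _
  have hcB := (lt_of_le_of_lt (l1b_cB D γ hb) ENNReal.ofReal_lt_top).ne
  have hcX := (lt_of_le_of_lt (l1b_cX μ hξ') ENNReal.ofReal_lt_top).ne
  have hGfin : ∫⁻ z, (ENNReal.ofReal (om 4 z) * ‖G z‖ₑ) ^ 2 ∂dA < ⊤ := by
    rw [← l1b_S2_eq fun z => (l1b_om_W.pos z).le]
    exact hG.fin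
  have kopP : ∀ {T : Type} [MeasurableSpace T] (ν : Measure T) [SFinite ν] (c a : T → ℂ),
      Measurable c → Measurable a → (∀ t, ‖a t‖ ≤ 1) → ∫⁻ t, ‖c t‖ₑ ∂ν ≠ ⊤ → ∀ z,
      Integrable (fun ζ => Kk z ζ * l1bP ν c a G ζ) dA ∧
        Kop (l1bP ν c a G) z = l1bP ν c a G z := by
    intro T _ ν _ c a hc ha ha1 hc0 z
    obtain ⟨J0, hJ0, hJ⟩ := l1b_J_unif l1b_om_W hG.cont.measurable.enorm hGfin z
    obtain ⟨A3, A4⟩ := l1b_kop_P ν hc ha ha1 hc0 (Θ := fun _ => (1 : ℂ)) measurable_const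
      hG.cont.measurable (B := fun x => ‖G x‖ₑ) (κ := 1)
      ENNReal.one_ne_top (fun ζ α _ => by rw [one_mul, one_mul]) z hJ0 hJ
    simp only [one_mul] at A3 A4
    refine ⟨A3, A4.trans ?_⟩
    unfold l1bP
    refine integral_congr_ae (Filter.Eventually.of_forall fun t => ?_)
    simp only
    have e : Kop (fun ζ => act (a t) G ζ) z = act (a t) (Kop G) z := l1b_act_Kop _ _ _
    have e' : Kop G = G := funext hG.rep
    rw [e, e']
  have e0 : actA D μ γ ξ G = fun z => l1bP Measure.count (fun i => D.β i * γ i)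
      (fun i => node (D.τ i)) G z + l1bP μ ξ node G z := by
    funext z
    unfold actA
    rw [l1b_actB_eq, l1b_actX_eq]
  refine ⟨?_, ?_, fun z => ?_⟩
  · rw [e0]
    exact (l1b_P_cont _ hcm ham (fun i => l1b_node_norm _) hcB hG.cont).add
      (l1b_P_cont _ hξ.meas l1b_node_meas l1b_node_norm hcX hG.cont)
  · refine lt_of_le_of_lt (l1b_S2_actA D μ hb hξ' (Real.exp_nonneg 2) l1b_om_one
      (fun z => (l1b_om_W.pos z).le) l1b_om_W.meas hG.cont) ?_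
    exact ENNReal.mul_lt_top (by norm_num) (ENNReal.mul_lt_top (ENNReal.pow_lt_top
      (ENNReal.mul_lt_top ENNReal.ofReal_lt_top ENNReal.ofReal_lt_top)) hG.fin)
  · obtain ⟨B1, B2⟩ := kopP Measure.count _ _ hcm ham (fun i => l1b_node_norm _) hcB z
    obtain ⟨X1, X2⟩ := kopP μ ξ node hξ.meas l1b_node_meas l1b_node_norm hcX z
    rw [e0]
    simp only
    refine Eq.trans ?_ (congrArg₂ (· + ·) B2 X2)
    unfold Kop
    refine Eq.trans ?_ (integral_add B1 X1)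
    refine integral_congr_ae (Filter.Eventually.of_forall fun ζ => ?_)
    simp only
    ring

end Pool.Agent.Helper84.HRT
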