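import Mathlib
import Pool.Agent.Helper84.HRT.DefsA
import Pool.Agent.Helper84.HRT.WB

open MeasureTheory Complex Filter
open scoped ENNReal ComplexConjugate InnerProductSpace BigOperators Topology

namespace Pool.Agent.Helper84.HRT

variable {H : Type} [NormedAddCommGroup H] [InnerProductSpace ℂ H] [CompleteSpace H]

theorem S2_V (W : Weyl H) (f : H) : S2 (fun _ => 1) (W.V f) = ENNReal.ofReal (‖f‖ ^ 2) := by
  unfold S2
  simp only [ofReal_one, one_mul]
  have h := W.isom f
  unfold Weyl.V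
  rw [h, ← ofReal_norm, ENNReal.ofReal_pow (norm_nonneg _)]

theorem V_memLp (W : Weyl H) (f : H) : MemLp (W.V f) 2 dA := by
  refine ⟨(V_cont W f).aestronglyMeasurable, ?_⟩
  rw [eLpNorm_lt_top_iff_lintegral_rpow_enorm_lt_top (by norm_num) (by norm_num)]
  have h := W.isom f
  have : ∫⁻ a, ‖W.V f a‖ₑ ^ (2 : ℝ≥0∞).toReal ∂dA = ‖f‖ₑ ^ 2 := by
    rw [← h]
    refine lintegral_congr fun z => ?_
    simp [Weyl.V]
  rw [this]
  exact ENNReal.pow_lt_top enorm_lt_top

/-- the transform as a linear isometry into `L²` -/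
private noncomputable def wd_T (W : Weyl H) : H →ₗᵢ[ℂ] Lp ℂ 2 dA where
  toFun f := (V_memLp W f).toLp (W.V f)
  map_add' f h := by
    rw [← MemLp.toLp_add]
    congr 1
    funext z
    exact V_add W f h z
  map_smul' a f := by
    rw [RingHom.id_apply, ← MemLp.toLp_const_smul]
    congr 1
    funext z
    simpa using V_smul W a f z
  norm_map' f := by
    change ‖(V_memLp W f).toLp (W.V f)‖ = ‖f‖
    rw [Lp.norm_toLp]
    rw [eLpNorm_eq_lintegral_rpow_enorm_toReal (by norm_num) (by norm_num)]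
    have h := W.isom f
    have : ∫⁻ a, ‖W.V f a‖ₑ ^ (2 : ℝ≥0∞).toReal ∂dA = ‖f‖ₑ ^ 2 := by
      rw [← h]
      refine lintegral_congr fun z => ?_
      simp [Weyl.V]
    rw [this]
    rw [← ENNReal.rpow_natCast, ← ENNReal.rpow_mul]
    simp

theorem inner_eq (W : Weyl H) (f h : H) :
    inner ℂ f h = ∫ z, conj (W.V f z) * W.V h z ∂dA := by
  rw [← (wd_T W).inner_map_map f h, L2.inner_def]
  refine integral_congr_ae ?_
  have h1 : (wd_T W f : ℂ → ℂ) =ᵐ[dA] W.V f := (V_memLp W f).coeFn_toLp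
  have h2 : (wd_T W h : ℂ → ℂ) =ᵐ[dA] W.V h := (V_memLp W h).coeFn_toLp
  filter_upwards [h1, h2] with z hz1 hz2
  rw [hz1, hz2, RCLike.inner_apply, mul_comm]

theorem V_inj (W : Weyl H) (f : H) (h : ∀ z, W.V f z = 0) : f = 0 := by
  have := inner_eq W f f
  simp only [h, mul_zero, integral_zero] at this
  exact inner_self_eq_zero.1 this

theorem Kk_eq (W : Weyl H) (z ζ : ℂ) :
    Kk z ζ = inner ℂ (W.U (-z) W.g0) (W.U (-ζ) W.g0) := by
  rw [U_adj, neg_neg, W.U_mul, inner_smul_right, W.g0_inner]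
  unfold Kk coc
  rw [sub_eq_add_neg, Complex.exp_add]
  congr 1
  · congr 1
    simp
  · rw [Complex.ofReal_exp, ← sub_eq_add_neg]
    congr 1
    push_cast
    ring

theorem rep_V (W : Weyl H) (f : H) : Rep (W.V f) := by
  refine ⟨V_cont W f, ?_, ?_⟩
  · refine lt_of_le_of_lt ?_ (lt_of_eq_of_lt (S2_V W f) ENNReal.ofReal_lt_top)
    unfold S2
    refine lintegral_mono fun z => ?_
    gcongr
    refine enorm_le_iff_norm_le.2 ?_
    rw [norm_mul]
    simp only [ofReal_one, one_mul]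
    refine mul_le_of_le_one_left (norm_nonneg _) ?_
    rw [Complex.norm_real, Real.norm_eq_abs]
    unfold om
    rw [abs_of_nonneg (by positivity)]
    refine inv_le_one_of_one_le₀ ?_
    refine one_le_pow₀ ?_
    have : 0 ≤ ‖z‖ / 4 := by positivity
    linarith
  · intro z
    unfold Kop
    change _ = inner ℂ (W.U (-z) W.g0) f
    rw [inner_eq W]
    refine integral_congr_ae (ae_of_all _ fun ζ => ?_)
    simp only
    congr 1
    rw [Kk_eq W]
    unfold Weyl.V
    rw [inner_conj_symm]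

end Pool.Agent.Helper84.HRT
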