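import Mathlib
import Pool.Agent.Helper84.HRT.DefsA
import Pool.Agent.Helper84.HRT.WB
import Pool.Agent.Helper84.HRT.WD

open MeasureTheory Complex Filter
open scoped ENNReal ComplexConjugate InnerProductSpace BigOperators Topology

namespace Pool.Agent.Helper84.HRT

variable {H : Type} [NormedAddCommGroup H] [InnerProductSpace ℂ H] [CompleteSpace H]

/-- a function with finite `S2` is in `L²` -/
private theorem VS_memLp (F : ℂ → ℂ) (hF : AEStronglyMeasurable F dA)
    (hfin : S2 (fun _ => 1) F < ⊤) : MemLp F 2 dA := by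
  refine ⟨hF, ?_⟩
  rw [eLpNorm_lt_top_iff_lintegral_rpow_enorm_lt_top (by norm_num) (by norm_num)]
  have h1 : S2 (fun _ => 1) F = ∫⁻ a, ‖F a‖ₑ ^ (2 : ℝ≥0∞).toReal ∂dA := by
    unfold S2
    refine lintegral_congr fun z => ?_
    rw [ofReal_one, one_mul, ENNReal.toReal_ofNat]
    norm_num
  rwa [← h1]

/-- the square of the `L²` norm -/
private theorem VS_norm (F : ℂ → ℂ) (hF : MemLp F 2 dA) :
    ENNReal.ofReal (‖hF.toLp F‖ ^ 2) = S2 (fun _ => 1) F := by
  have h1 : ENNReal.ofReal ‖hF.toLp F‖ = eLpNorm F 2 dA := by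
    rw [Lp.norm_toLp, ENNReal.ofReal_toReal hF.2.ne]
  rw [ENNReal.ofReal_pow (norm_nonneg _), h1,
    eLpNorm_eq_lintegral_rpow_enorm_toReal (by norm_num) (by norm_num)]
  have h2 : (∫⁻ a, ‖F a‖ₑ ^ (2 : ℝ≥0∞).toReal ∂dA) = S2 (fun _ => 1) F := by
    unfold S2
    refine lintegral_congr fun z => ?_
    rw [ofReal_one, one_mul, ENNReal.toReal_ofNat]
    norm_num
  rw [h2, ← ENNReal.rpow_natCast, ← ENNReal.rpow_mul]
  norm_num

/-- the coherent state transform as a linear isometry into `L²` -/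
private noncomputable def VS_T (W : Weyl H) : H →ₗᵢ[ℂ] Lp ℂ 2 dA :=
  LinearMap.isometryOfInner
    { toFun := fun f => (V_memLp W f).toLp (W.V f)
      map_add' := fun f h => by
        rw [← MemLp.toLp_add]
        exact MemLp.toLp_congr _ _ (Eventually.of_forall fun z => V_add W f h z)
      map_smul' := fun a f => by
        rw [RingHom.id_apply, ← MemLp.toLp_const_smul]
        exact MemLp.toLp_congr _ _ (Eventually.of_forall fun z => V_smul W a f z) }
    (fun f h => by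
      rw [L2.inner_def, inner_eq W f h]
      refine integral_congr_ae ?_
      filter_upwards [(V_memLp W f).coeFn_toLp, (V_memLp W h).coeFn_toLp] with z h1 h2
      simp only [LinearMap.coe_mk, AddHom.coe_mk]
      rw [h1, h2, RCLike.inner_apply, mul_comm])

private theorem VS_inner (W : Weyl H) (F : ℂ → ℂ) (hF : MemLp F 2 dA) (h : H) :
    inner ℂ (VS_T W h) (hF.toLp F) = ∫ z, conj (W.V h z) * F z ∂dA := by
  rw [L2.inner_def]
  refine integral_congr_ae ?_
  filter_upwards [(V_memLp W h).coeFn_toLp, hF.coeFn_toLp] with z h1 h2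
  have h3 : (VS_T W h : ℂ → ℂ) z = W.V h z := h1
  rw [h3, h2, RCLike.inner_apply, mul_comm]

/-- the adjoint of the transform, applied to `F` -/
private noncomputable def VS_adj (W : Weyl H) (F : ℂ → ℂ) (hF : MemLp F 2 dA) : H :=
  ContinuousLinearMap.adjoint (VS_T W).toContinuousLinearMap (hF.toLp F)

private theorem VS_adj_spec (W : Weyl H) (F : ℂ → ℂ) (hF : MemLp F 2 dA) (h : H) :
    inner ℂ h (VS_adj W F hF) = ∫ z, conj (W.V h z) * F z ∂dA := by
  rw [VS_adj, ContinuousLinearMap.adjoint_inner_right]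
  exact VS_inner W F hF h

theorem Vs_spec (W : Weyl H) (F : ℂ → ℂ) (hF : AEStronglyMeasurable F dA)
    (hfin : S2 (fun _ => 1) F < ⊤) (h : H) :
    inner ℂ h (W.Vs F) = ∫ z, conj (W.V h z) * F z ∂dA := by
  have hex : ∃ v : H, ∀ h : H, inner ℂ h v = ∫ z, conj (W.V h z) * F z ∂dA :=
    ⟨VS_adj W F (VS_memLp F hF hfin), VS_adj_spec W F (VS_memLp F hF hfin)⟩
  exact Classical.epsilon_spec hex h

private theorem VS_eq (W : Weyl H) (F : ℂ → ℂ) (hF : AEStronglyMeasurable F dA)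
    (hfin : S2 (fun _ => 1) F < ⊤) : W.Vs F = VS_adj W F (VS_memLp F hF hfin) := by
  refine ext_inner_left ℂ fun h => ?_
  rw [Vs_spec W F hF hfin h, VS_adj_spec]

theorem V_Vs (W : Weyl H) (F : ℂ → ℂ) (hF : AEStronglyMeasurable F dA)
    (hfin : S2 (fun _ => 1) F < ⊤) (z : ℂ) : W.V (W.Vs F) z = Kop F z := by
  unfold Weyl.V Kop
  rw [Vs_spec W F hF hfin]
  refine integral_congr_ae (Eventually.of_forall fun ζ => ?_)
  change conj (inner ℂ (W.U (-ζ) W.g0) (W.U (-z) W.g0)) * F ζ = Kk z ζ * F ζ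
  rw [inner_conj_symm, ← Kk_eq]

theorem norm_Vs (W : Weyl H) (F : ℂ → ℂ) (hF : AEStronglyMeasurable F dA)
    (hfin : S2 (fun _ => 1) F < ⊤) : ENNReal.ofReal (‖W.Vs F‖ ^ 2) ≤ S2 (fun _ => 1) F := by
  rw [VS_eq W F hF hfin, ← VS_norm F (VS_memLp F hF hfin)]
  refine ENNReal.ofReal_le_ofReal (pow_le_pow_left₀ (norm_nonneg _) ?_ 2)
  have h1 := ContinuousLinearMap.le_opNorm
    (ContinuousLinearMap.adjoint (VS_T W).toContinuousLinearMap)
    ((VS_memLp F hF hfin).toLp F)
  have h2 : ‖ContinuousLinearMap.adjoint (VS_T W).toContinuousLinearMap‖ ≤ 1 := by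
    rw [LinearIsometryEquiv.norm_map]
    exact (VS_T W).norm_toContinuousLinearMap_le
  exact h1.trans (mul_le_of_le_one_left (norm_nonneg _) h2)

theorem Vs_V (W : Weyl H) (f : H) : W.Vs (W.V f) = f := by
  refine ext_inner_left ℂ fun h => ?_
  rw [Vs_spec W (W.V f) (V_memLp W f).1 (by rw [S2_V]; exact ENNReal.ofReal_lt_top), inner_eq W h f]

theorem exists_of_rep (W : Weyl H) (G : ℂ → ℂ) (hG : Rep G) (hfin : S2 (fun _ => 1) G < ⊤) :
    ∃ v : H, W.V v = G := by
  refine ⟨W.Vs G, funext fun z => ?_⟩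
  rw [V_Vs W G hG.cont.aestronglyMeasurable hfin, hG.rep]

theorem S2_one_Kop (W : Weyl H) (F : ℂ → ℂ) (hF : AEStronglyMeasurable F dA) :
    S2 (fun _ => 1) (Kop F) ≤ S2 (fun _ => 1) F := by
  rcases eq_or_lt_of_le (le_top : S2 (fun _ => 1) F ≤ ⊤) with h | h
  · rw [h]
    exact le_top
  · have h1 : Kop F = W.V (W.Vs F) := funext fun z => (V_Vs W F hF h z).symm
    rw [h1, S2_V]
    exact norm_Vs W F hF h

end Pool.Agent.Helper84.HRT
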