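import Mathlib
import Pool.Agent.Helper84.HRT.DefsA
import Pool.Agent.Helper84.HRT.WD
import Pool.Agent.Helper84.HRT.YG
import Pool.Agent.Helper84.HRT.VS
import Pool.Agent.Helper84.HRT.XA
import Pool.Agent.Helper84.HRT.XB
import Pool.Agent.Helper84.HRT.L1A
import Pool.Agent.Helper84.HRT.L1B
import Pool.Agent.Helper84.HRT.WB

open MeasureTheory Complex Filter
open scoped ENNReal ComplexConjugate InnerProductSpace BigOperators Topology

namespace Pool.Agent.Helper84.HRT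

variable {H : Type} [NormedAddCommGroup H] [InnerProductSpace ℂ H] [CompleteSpace H]

theorem l10_young {F1 F2 : ℂ → ℂ} (h1 : AEStronglyMeasurable F1 dA) :
    S2 (fun _ => 1) (fun z => F1 z + F2 z) ≤
      ENNReal.ofReal (5 / 4) * S2 (fun _ => 1) F1 + ENNReal.ofReal 5 * S2 (fun _ => 1) F2 := by
  have key : ∀ x y : ℂ, ‖x + y‖ₑ ^ 2 ≤
      ENNReal.ofReal (5 / 4) * ‖x‖ₑ ^ 2 + ENNReal.ofReal 5 * ‖y‖ₑ ^ 2 := by
    intro x y
    have h2 : ‖x + y‖ ^ 2 ≤ 5 / 4 * ‖x‖ ^ 2 + 5 * ‖y‖ ^ 2 := by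
      have h3 := norm_add_le x y
      have h4 := norm_nonneg (x + y)
      have h5 : ‖x + y‖ ^ 2 ≤ (‖x‖ + ‖y‖) ^ 2 := pow_le_pow_left₀ h4 h3 2
      nlinarith [sq_nonneg (‖x‖ - 4 * ‖y‖)]
    rw [← ofReal_norm, ← ofReal_norm, ← ofReal_norm, ← ENNReal.ofReal_pow (norm_nonneg _),
      ← ENNReal.ofReal_pow (norm_nonneg _), ← ENNReal.ofReal_pow (norm_nonneg _),
      ← ENNReal.ofReal_mul (by norm_num), ← ENNReal.ofReal_mul (by norm_num),
      ← ENNReal.ofReal_add (by positivity) (by positivity)]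
    exact ENNReal.ofReal_le_ofReal h2
  unfold S2
  simp only [ofReal_one, one_mul]
  have hm : AEMeasurable (fun z => ENNReal.ofReal (5 / 4) * ‖F1 z‖ₑ ^ 2) dA :=
    (h1.enorm.pow_const 2).const_mul _
  rw [← lintegral_const_mul' _ _ ENNReal.ofReal_ne_top, ← lintegral_const_mul' _ _
    ENNReal.ofReal_ne_top, ← lintegral_add_left' hm]
  exact lintegral_mono fun z => key _ _

theorem l10_S2_one (Ω : ℂ → ℝ) (G : ℂ → ℂ) :
    S2 (fun _ => 1) (fun z => ((Ω z : ℝ) : ℂ) * G z) = S2 Ω G := by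
  unfold S2
  simp

theorem l10_S2_const (c : ℝ) (Ω : ℂ → ℝ) (G : ℂ → ℂ) :
    S2 (fun z => 1 * c * Ω z) G = ENNReal.ofReal (c ^ 2) * S2 Ω G := by
  unfold S2
  rw [← lintegral_const_mul' _ _ ENNReal.ofReal_ne_top]
  refine lintegral_congr fun z => ?_
  have h1 : (((1 * c * Ω z : ℝ) : ℂ)) * G z = (c : ℂ) * (((Ω z : ℝ) : ℂ) * G z) := by
    push_cast; ring
  rw [h1, enorm_mul, mul_pow]
  congr 1
  rw [← ofReal_norm, ← ENNReal.ofReal_pow (norm_nonneg _)]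
  congr 1
  rw [norm_real, Real.norm_eq_abs, sq_abs]

/-- L10 -/
theorem L10 (W : Weyl H) (D : Data) (g : ℝ) (hg : 0 < g)
    (hE0 : ∀ γ ∈ D.Γ, ∀ f : H, g * ‖f‖ ≤ ‖Bop W D γ f‖) :
    ∃ R : ℝ, 4 ≤ R ∧ ∀ γ ∈ D.Γ, ∀ G, Rep G → S2 (om R) G < ⊤ →
      ENNReal.ofReal ((g / 2) ^ 2) * S2 (om R) G ≤ S2 (om R) (actB D γ G) := by
  obtain ⟨Cw, hCw, hw⟩ := om_isW
  obtain ⟨Ca, hCa, ha⟩ := L1a
  obtain ⟨Cb, hCb, hb⟩ := L1b (∑ i, ‖D.β i‖)
  set R : ℝ := 4 + Cw + 50 * Ca * Cw ^ 2 + 50 * Cb * Cw ^ 2 / g ^ 2 + 1 with hR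
  have hR4 : 4 ≤ R := by
    rw [hR]
    have : 0 ≤ 50 * Cb * Cw ^ 2 / g ^ 2 := by positivity
    have : 0 ≤ 50 * Ca * Cw ^ 2 := by positivity
    linarith
  have hRC : Cw ≤ R := by
    rw [hR]
    have : 0 ≤ 50 * Cb * Cw ^ 2 / g ^ 2 := by positivity
    have : 0 ≤ 50 * Ca * Cw ^ 2 := by positivity
    linarith
  have hR1 : 50 * Ca * Cw ^ 2 ≤ R := by
    rw [hR]
    have : 0 ≤ 50 * Cb * Cw ^ 2 / g ^ 2 := by positivity
    linarith
  have hR2 : 50 * Cb * Cw ^ 2 / g ^ 2 ≤ R := by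
    rw [hR]
    have : 0 ≤ 50 * Ca * Cw ^ 2 := by positivity
    linarith
  have hR0 : 0 < R := by linarith
  have hRR : R ≤ R ^ 2 := by nlinarith
  have hsm1 : 5 * (Ca * (Cw / R) ^ 2) ≤ 1 / 10 := by
    rw [div_pow]
    have : 5 * (Ca * (Cw ^ 2 / R ^ 2)) = (50 * Ca * Cw ^ 2 / R ^ 2) / 10 := by ring
    rw [this]
    have : 50 * Ca * Cw ^ 2 / R ^ 2 ≤ 1 := by
      rw [div_le_one (by positivity)]
      linarith
    linarith
  have hsm2 : 5 * (Cb * (Cw / R) ^ 2) ≤ g ^ 2 / 10 := by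
    rw [div_pow]
    have h1 : 50 * Cb * Cw ^ 2 ≤ g ^ 2 * R := by
      rw [div_le_iff₀ (by positivity)] at hR2
      linarith
    have h2 : 50 * Cb * Cw ^ 2 ≤ g ^ 2 * R ^ 2 :=
      h1.trans (mul_le_mul_of_nonneg_left hRR (by positivity))
    have : 5 * (Cb * (Cw ^ 2 / R ^ 2)) = (50 * Cb * Cw ^ 2 / R ^ 2) / 10 := by ring
    rw [this]
    have : 50 * Cb * Cw ^ 2 / R ^ 2 ≤ g ^ 2 := by
      rw [div_le_iff₀ (by positivity)]
      exact h2
    linarith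
  refine ⟨R, hR4, fun γ hγ G hG hfin => ?_⟩
  have hIs := hw R hRC
  have hγ1 : ∀ i, ‖γ i‖ ≤ 1 := fun i => (D.Γ_one γ hγ i).le
  have hC0 : 0 ≤ ∑ i, ‖D.β i‖ := Finset.sum_nonneg fun _ _ => norm_nonneg _
  have hBd : Bd mu8 (∑ i, ‖D.β i‖) (fun _ => 0) :=
    ⟨measurable_const, Eventually.of_forall fun t => by simpa using hC0⟩
  have hact : ∀ (G : ℂ → ℂ), actA D mu8 γ (fun _ => 0) G = actB D γ G := by
    intro G
    funext z
    unfold actA actX
    simp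
  have hLL : LogLip (fun _ => 1) := ⟨fun _ => one_pos, fun z ζ => by
    have := Real.one_le_exp (norm_nonneg (z - ζ))
    linarith⟩
  have hrepB : Rep (actB D γ G) := by
    have := rep_actA D mu8 (∑ i, ‖D.β i‖) γ (fun _ => 0) hBd G hG
    rwa [hact] at this
  by_cases hbt : S2 (om R) (actB D γ G) = ⊤
  · rw [hbt]
    exact le_top
  have hbfin : S2 (om R) (actB D γ G) < ⊤ := lt_top_iff_ne_top.2 hbt
  have hFm : AEStronglyMeasurable (fun z => ((om R z : ℝ) : ℂ) * G z) dA :=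
    ((continuous_ofReal.comp hIs.cont).mul hG.cont).aestronglyMeasurable
  have hFm2 : AEStronglyMeasurable (fun z => ((om R z : ℝ) : ℂ) * actB D γ G z) dA :=
    ((continuous_ofReal.comp hIs.cont).mul hrepB.cont).aestronglyMeasurable
  set F : ℂ → ℂ := fun z => ((om R z : ℝ) : ℂ) * G z with hF
  set F2 : ℂ → ℂ := fun z => ((om R z : ℝ) : ℂ) * actB D γ G z with hF2
  have hS1 : S2 (fun _ => 1) F = S2 (om R) G := l10_S2_one _ _
  have hS2 : S2 (fun _ => 1) F2 = S2 (om R) (actB D γ G) := l10_S2_one _ _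
  have hVv : W.V (W.Vs F) = Kop F := funext fun z => V_Vs W F hFm (by rw [hS1]; exact hfin) z
  have hVv2 : W.V (W.Vs F2) = Kop F2 :=
    funext fun z => V_Vs W F2 hFm2 (by rw [hS2]; exact hbfin) z
  set v : H := W.Vs F with hv
  have hVB : W.V (Bop W D γ v) = actB D γ (Kop F) := by
    funext z
    rw [V_Bop, hVv]
  -- the two commutator estimates
  have h1 := ha (om R) (fun _ => Cw / R) (fun _ => 1) G hIs hLL hG hfin
  have h2 := hb D mu8 γ (fun _ => 0) le_rfl hγ1 hBd (om R) (fun _ => Cw / R) (fun _ => 1) G hIs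
    hLL hG hfin
  rw [hact, hact] at h2
  rw [l10_S2_const] at h1 h2
  -- splitting
  have h3 : S2 (fun _ => 1) F ≤ ENNReal.ofReal (5 / 4) * S2 (fun _ => 1) (Kop F) +
      ENNReal.ofReal 5 * S2 (fun _ => 1) (fun z => F z - Kop F z) := by
    have := l10_young (F1 := Kop F) (F2 := fun z => F z - Kop F z) (by
      rw [← hVv]
      exact (V_cont W v).aestronglyMeasurable)
    have e : (fun z => Kop F z + (F z - Kop F z)) = F := by
      funext z
      ring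
    rw [e] at this
    exact this
  have h4 : S2 (fun _ => 1) (actB D γ (Kop F)) ≤ ENNReal.ofReal (5 / 4) * S2 (fun _ => 1) (Kop F2) +
      ENNReal.ofReal 5 * S2 (fun _ => 1) (fun z => actB D γ (Kop F) z - Kop F2 z) := by
    have := l10_young (F1 := Kop F2) (F2 := fun z => actB D γ (Kop F) z - Kop F2 z) (by
      rw [← hVv2]
      exact (V_cont W _).aestronglyMeasurable)
    have e : (fun z => Kop F2 z + (actB D γ (Kop F) z - Kop F2 z)) = actB D γ (Kop F) := by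
      funext z
      ring
    rw [e] at this
    exact this
  rw [← hVB, S2_V] at h4
  rw [← hVv, S2_V, hS1] at h3
  have h5 := S2_one_Kop W F2 hFm2
  rw [hS2] at h5
  -- real numbers
  set a : ℝ := (S2 (om R) G).toReal with ha'
  set b : ℝ := (S2 (om R) (actB D γ G)).toReal with hb'
  have ea : S2 (om R) G = ENNReal.ofReal a := (ENNReal.ofReal_toReal hfin.ne).symm
  have eb : S2 (om R) (actB D γ G) = ENNReal.ofReal b := (ENNReal.ofReal_toReal hbt).symm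
  have ha0 : 0 ≤ a := ENNReal.toReal_nonneg
  have hb0 : 0 ≤ b := ENNReal.toReal_nonneg
  rw [hVv] at h3
  have h6 : ENNReal.ofReal a ≤ ENNReal.ofReal (5 / 4 * ‖v‖ ^ 2 + 5 * (Ca * ((Cw / R) ^ 2 * a))) := by
    rw [ENNReal.ofReal_add (by positivity) (by positivity), ENNReal.ofReal_mul (by norm_num),
      ENNReal.ofReal_mul (by norm_num), ENNReal.ofReal_mul hCa.le, ENNReal.ofReal_mul (by positivity),
      ← ea]
    exact h3.trans (add_le_add le_rfl (mul_le_mul' le_rfl h1))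
  have h7 : ENNReal.ofReal (‖Bop W D γ v‖ ^ 2) ≤
      ENNReal.ofReal (5 / 4 * b + 5 * (Cb * ((Cw / R) ^ 2 * a))) := by
    rw [ENNReal.ofReal_add (by positivity) (by positivity), ENNReal.ofReal_mul (by norm_num),
      ENNReal.ofReal_mul (by norm_num), ENNReal.ofReal_mul hCb.le, ENNReal.ofReal_mul (by positivity),
      ← ea, ← eb]
    exact h4.trans (add_le_add (mul_le_mul' le_rfl h5)
      (mul_le_mul' le_rfl (by rw [hVB]; exact h2)))
  rw [ENNReal.ofReal_le_ofReal_iff (by positivity)] at h6 h7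
  have h8 := hE0 γ hγ v
  have h9 : g ^ 2 * ‖v‖ ^ 2 ≤ ‖Bop W D γ v‖ ^ 2 := by
    rw [← mul_pow]
    exact pow_le_pow_left₀ (by positivity) h8 2
  rw [ea, eb, ← ENNReal.ofReal_mul (by positivity)]
  apply ENNReal.ofReal_le_ofReal
  have h10 : 5 * (Ca * ((Cw / R) ^ 2 * a)) ≤ 1 / 10 * a := by
    have := mul_le_mul_of_nonneg_right hsm1 ha0
    nlinarith
  have h11 : 5 * (Cb * ((Cw / R) ^ 2 * a)) ≤ g ^ 2 / 10 * a := by
    have := mul_le_mul_of_nonneg_right hsm2 ha0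
    nlinarith
  have h12 : 18 / 25 * a ≤ ‖v‖ ^ 2 := by linarith
  have h13 : g ^ 2 * (18 / 25 * a) ≤ g ^ 2 * ‖v‖ ^ 2 :=
    mul_le_mul_of_nonneg_left h12 (by positivity)
  have h14 : 0 ≤ g ^ 2 * a := by positivity
  nlinarith

end Pool.Agent.Helper84.HRT
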