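import Mathlib
import Pool.Agent.Helper84.HRT.DefsA
import Pool.Agent.Helper84.HRT.WA
import Pool.Agent.Helper84.HRT.WB
import Pool.Agent.Helper84.HRT.WC
import Pool.Agent.Helper84.HRT.XA
import Pool.Agent.Helper84.HRT.WD
import Pool.Agent.Helper84.HRT.YG
import Pool.Agent.Helper84.HRT.YK
import Pool.Agent.Helper84.HRT.XB

open MeasureTheory Complex Filter
open scoped ENNReal ComplexConjugate InnerProductSpace BigOperators Topology

namespace Pool.Agent.Helper84.HRT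

variable {H : Type} [NormedAddCommGroup H] [InnerProductSpace ℂ H] [CompleteSpace H]

private theorem l2_exp_sub (a b : ℂ) (m : ℝ) (ha : a.re ≤ m) (hb : b.re ≤ m) :
    ‖cexp a - cexp b‖ ≤ Real.exp m * ‖a - b‖ := by
  have hs : Convex ℝ {z : ℂ | z.re ≤ m} := convex_halfSpace_re_le m
  refine hs.norm_image_sub_le_of_norm_hasDerivWithin_le (f := cexp) (f' := cexp)
    (fun x _ => (Complex.hasDerivAt_exp x).hasDerivWithinAt) (fun x hx => ?_) hb ha
  rw [Complex.norm_exp]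
  exact Real.exp_le_exp.2 hx

/-- the kernel of `V ∘ U α` -/
private noncomputable def l2k (α z ζ : ℂ) : ℂ :=
  cexp ((((α * conj z).im : ℝ) : ℂ) * I) * Kk (z + α) ζ

private theorem l2k_sub (α α' z ζ : ℂ) (hα : ‖α‖ = 1) (hα' : ‖α'‖ = 1) :
    ‖l2k α z ζ - l2k α' z ζ‖ ≤ 2 * ‖α - α'‖ * (1 + ‖ζ‖) *
      ((1 + ‖z - ζ‖) * Real.exp (‖z - ζ‖ - ‖z - ζ‖ ^ 2 / 2)) := by
  have key : ∀ β : ℂ, ‖β‖ = 1 → -(‖z + β - ζ‖ ^ 2 / 2) ≤ ‖z - ζ‖ - ‖z - ζ‖ ^ 2 / 2 := by
    intro β hβ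
    have h1 : ‖z - ζ‖ ≤ ‖z + β - ζ‖ + 1 := by
      have : z - ζ = (z + β - ζ) - β := by ring
      calc ‖z - ζ‖ = ‖(z + β - ζ) - β‖ := by rw [← this]
        _ ≤ ‖z + β - ζ‖ + ‖β‖ := norm_sub_le _ _
        _ = _ := by rw [hβ]
    have h2 : 0 ≤ ‖z - ζ‖ := norm_nonneg _
    have h3 : 0 ≤ ‖z + β - ζ‖ := norm_nonneg _
    by_cases h4 : ‖z - ζ‖ ≤ 1
    · nlinarith
    · nlinarith
  unfold l2k Kk
  rw [← Complex.exp_add, ← Complex.exp_add]
  refine (l2_exp_sub _ _ (‖z - ζ‖ - ‖z - ζ‖ ^ 2 / 2) ?_ ?_).trans ?_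
  · have h := key α hα
    rw [Complex.add_re, Complex.sub_re, Complex.re_ofReal_mul, Complex.re_ofReal_mul,
      Complex.I_re, mul_zero, mul_zero, Complex.ofReal_re]
    linarith
  · have h := key α' hα'
    rw [Complex.add_re, Complex.sub_re, Complex.re_ofReal_mul, Complex.re_ofReal_mul,
      Complex.I_re, mul_zero, mul_zero, Complex.ofReal_re]
    linarith
  · have h1 : ‖(((α * conj z).im : ℝ) : ℂ) * I + (((((z + α) * conj ζ).im : ℝ) : ℂ) * I -
        ((‖z + α - ζ‖ ^ 2 / 2 : ℝ) : ℂ)) - ((((α' * conj z).im : ℝ) : ℂ) * I +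
        (((((z + α') * conj ζ).im : ℝ) : ℂ) * I - ((‖z + α' - ζ‖ ^ 2 / 2 : ℝ) : ℂ)))‖ ≤
        2 * ‖α - α'‖ * (1 + ‖ζ‖) * (1 + ‖z - ζ‖) := by
      have e : (((α * conj z).im : ℝ) : ℂ) * I + (((((z + α) * conj ζ).im : ℝ) : ℂ) * I -
        ((‖z + α - ζ‖ ^ 2 / 2 : ℝ) : ℂ)) - ((((α' * conj z).im : ℝ) : ℂ) * I +
        (((((z + α') * conj ζ).im : ℝ) : ℂ) * I - ((‖z + α' - ζ‖ ^ 2 / 2 : ℝ) : ℂ))) =
        ((((α - α') * conj z).im : ℝ) : ℂ) * I + ((((α - α') * conj ζ).im : ℝ) : ℂ) * I -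
        (((‖z + α - ζ‖ ^ 2 - ‖z + α' - ζ‖ ^ 2) / 2 : ℝ) : ℂ) := by
        simp only [sub_mul, add_mul, Complex.sub_im, Complex.add_im]
        push_cast
        ring
      rw [e]
      have a1 : ‖((((α - α') * conj z).im : ℝ) : ℂ) * I‖ ≤ ‖α - α'‖ * ‖z‖ := by
        rw [norm_mul, Complex.norm_I, mul_one, Complex.norm_real]
        refine (Complex.abs_im_le_norm _).trans ?_
        rw [norm_mul, Complex.norm_conj]
      have a2 : ‖((((α - α') * conj ζ).im : ℝ) : ℂ) * I‖ ≤ ‖α - α'‖ * ‖ζ‖ := by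
        rw [norm_mul, Complex.norm_I, mul_one, Complex.norm_real]
        refine (Complex.abs_im_le_norm _).trans ?_
        rw [norm_mul, Complex.norm_conj]
      have a3 : ‖(((‖z + α - ζ‖ ^ 2 - ‖z + α' - ζ‖ ^ 2) / 2 : ℝ) : ℂ)‖ ≤
          ‖α - α'‖ * (1 + ‖z - ζ‖) := by
        rw [Complex.norm_real, Real.norm_eq_abs]
        have b1 : |‖z + α - ζ‖ - ‖z + α' - ζ‖| ≤ ‖α - α'‖ := by
          refine (abs_norm_sub_norm_le _ _).trans (le_of_eq ?_)
          congr 1; ring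
        have b2 : ‖z + α - ζ‖ ≤ 1 + ‖z - ζ‖ := by
          have : z + α - ζ = α + (z - ζ) := by ring
          rw [this, ← hα]; exact norm_add_le _ _
        have b3 : ‖z + α' - ζ‖ ≤ 1 + ‖z - ζ‖ := by
          have : z + α' - ζ = α' + (z - ζ) := by ring
          rw [this, ← hα']; exact norm_add_le _ _
        have b4 : (‖z + α - ζ‖ ^ 2 - ‖z + α' - ζ‖ ^ 2) / 2 =
          (‖z + α - ζ‖ - ‖z + α' - ζ‖) * ((‖z + α - ζ‖ + ‖z + α' - ζ‖) / 2) := by ring
        rw [b4, abs_mul]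
        refine mul_le_mul b1 ?_ (abs_nonneg _) (norm_nonneg _)
        rw [abs_of_nonneg (by positivity)]
        linarith
      have a4 : ‖z‖ ≤ ‖ζ‖ + ‖z - ζ‖ := by
        have : z = ζ + (z - ζ) := by ring
        calc ‖z‖ = ‖ζ + (z - ζ)‖ := by rw [← this]
          _ ≤ _ := norm_add_le _ _
      refine (norm_sub_le _ _).trans ?_
      refine (add_le_add (norm_add_le _ _) le_rfl).trans ?_
      have h5 := norm_nonneg (α - α')
      have h6 := norm_nonneg ζ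
      have h7 := norm_nonneg (z - ζ)
      have h8 : ‖α - α'‖ * ‖z‖ ≤ ‖α - α'‖ * (‖ζ‖ + ‖z - ζ‖) := mul_le_mul_of_nonneg_left a4 h5
      have h9 : 0 ≤ ‖α - α'‖ * (‖ζ‖ * ‖z - ζ‖) := by positivity
      nlinarith
    calc _ ≤ Real.exp (‖z - ζ‖ - ‖z - ζ‖ ^ 2 / 2) *
        (2 * ‖α - α'‖ * (1 + ‖ζ‖) * (1 + ‖z - ζ‖)) :=
          mul_le_mul_of_nonneg_left h1 (Real.exp_pos _).le
      _ = _ := by ring

private theorem l2_loglip_cont {Y : ℂ → ℝ} (hY : LogLip Y) : Continuous Y := by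
  rw [continuous_iff_continuousAt]
  intro z
  have h1 : Tendsto (fun ζ : ℂ => Y z * Real.exp ‖ζ - z‖) (𝓝 z) (𝓝 (Y z)) := by
    have : Continuous fun ζ : ℂ => Y z * Real.exp ‖ζ - z‖ := by fun_prop
    have h := this.tendsto z
    simpa using h
  have h2 : Tendsto (fun ζ : ℂ => Y z * Real.exp (-‖z - ζ‖)) (𝓝 z) (𝓝 (Y z)) := by
    have : Continuous fun ζ : ℂ => Y z * Real.exp (-‖z - ζ‖) := by fun_prop
    have h := this.tendsto z
    simpa using h
  refine tendsto_of_tendsto_of_tendsto_of_le_of_le h2 h1 (fun ζ => ?_) (fun ζ => hY.le ζ z)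
  have := hY.le z ζ
  show Y z * Real.exp (-‖z - ζ‖) ≤ Y ζ
  rw [Real.exp_neg, ← div_eq_mul_inv, div_le_iff₀ (Real.exp_pos _)]
  exact this

private theorem l2_one_logLip : LogLip (fun _ : ℂ => (1 : ℝ)) :=
  ⟨fun _ => one_pos, fun z ζ => by
    rw [one_mul]; exact Real.one_le_exp (norm_nonneg _)⟩

private theorem l2_V_int (W : Weyl H) (f : H) (α z : ℂ) :
    Integrable (fun ζ => l2k α z ζ * W.V f ζ) dA ∧
      W.V (W.U α f) z = ∫ ζ, l2k α z ζ * W.V f ζ ∂dA := by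
  have hfin : S2 (fun _ => 1) (W.V f) < ⊤ := by rw [S2_V]; exact ENNReal.ofReal_lt_top
  have hi := Kop_integrable (fun _ => 1) l2_one_logLip (W.V f)
    (V_cont W f).aestronglyMeasurable hfin (z + α)
  have e : (fun ζ => l2k α z ζ * W.V f ζ) = fun ζ =>
      cexp ((((α * conj z).im : ℝ) : ℂ) * I) * (Kk (z + α) ζ * W.V f ζ) := by
    funext ζ; unfold l2k; ring
  constructor
  · rw [e]; exact hi.const_mul _
  · rw [e, integral_const_mul, V_U, act]
    congr 1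
    exact ((rep_V W f).rep (z + α)).symm

theorem L2a : ∃ C : ℝ, 0 < C ∧ ∀ (H : Type) [NormedAddCommGroup H]
    [InnerProductSpace ℂ H] [CompleteSpace H] (W : Weyl H) (Y : ℂ → ℝ) (f : H) (α α' : ℂ),
    LogLip Y → ‖α‖ = 1 → ‖α'‖ = 1 →
    S2 Y (W.V (W.U α f - W.U α' f)) ≤
      ENNReal.ofReal (C * ‖α - α'‖ ^ 2) * S2 (fun z => (1 + ‖z‖) * Y z) (W.V f) := by
  set G : ℝ≥0∞ := ∫⁻ x : ℂ, ENNReal.ofReal ((1 + ‖x‖) ^ 1 * Real.exp (2 * ‖x‖ - ‖x‖ ^ 2 / 2)) ∂dA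
    with hG
  have hGt : G ≠ ⊤ := (gauss_fin 2 1).ne
  refine ⟨4 * G.toReal ^ 2 + 1, by positivity, ?_⟩
  intro H _ _ _ W Y f α α' hY hα hα'
  have hYc := l2_loglip_cont hY
  set F : ℂ → ℝ≥0∞ := fun ζ => ‖(((1 + ‖ζ‖) * Y ζ : ℝ) : ℂ) * W.V f ζ‖ₑ with hF
  set h : ℂ → ℝ≥0∞ := fun x => ENNReal.ofReal (2 * ‖α - α'‖) *
    ENNReal.ofReal ((1 + ‖x‖) ^ 1 * Real.exp (2 * ‖x‖ - ‖x‖ ^ 2 / 2)) with hh
  have hFm : Measurable F := by
    have : Continuous fun ζ => (((1 + ‖ζ‖) * Y ζ : ℝ) : ℂ) * W.V f ζ := by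
      have := V_cont W f
      fun_prop
    exact this.measurable.enorm
  have hhm : Measurable h := by
    have : Continuous fun x : ℂ => (1 + ‖x‖) ^ 1 * Real.exp (2 * ‖x‖ - ‖x‖ ^ 2 / 2) := by
      fun_prop
    exact (this.measurable.ennreal_ofReal).const_mul _
  have hpt : ∀ z, ‖((Y z : ℝ) : ℂ) * W.V (W.U α f - W.U α' f) z‖ₑ ≤
      ∫⁻ ζ, h (z - ζ) * F ζ ∂dA := by
    intro z
    obtain ⟨i1, e1⟩ := l2_V_int W f α z
    obtain ⟨i2, e2⟩ := l2_V_int W f α' z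
    rw [V_sub, e1, e2, ← integral_sub i1 i2, ← integral_const_mul]
    refine (enorm_integral_le_lintegral_enorm _).trans (lintegral_mono fun ζ => ?_)
    rw [hh, hF]
    simp only
    rw [← ofReal_norm, ← ofReal_norm, ← ENNReal.ofReal_mul (by positivity),
      ← ENNReal.ofReal_mul (by positivity)]
    apply ENNReal.ofReal_le_ofReal
    rw [← sub_mul, norm_mul, norm_mul, norm_mul, Complex.norm_real, Complex.norm_real,
      Real.norm_of_nonneg (hY.pos z).le,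
      Real.norm_of_nonneg (mul_nonneg (by positivity) (hY.pos ζ).le)]
    have h1 := l2k_sub α α' z ζ hα hα'
    have h2 := hY.le z ζ
    have h3 : Y z * ‖l2k α z ζ - l2k α' z ζ‖ ≤ (Y ζ * Real.exp ‖z - ζ‖) *
        (2 * ‖α - α'‖ * (1 + ‖ζ‖) *
      ((1 + ‖z - ζ‖) * Real.exp (‖z - ζ‖ - ‖z - ζ‖ ^ 2 / 2))) :=
      mul_le_mul h2 h1 (norm_nonneg _) (mul_nonneg (hY.pos ζ).le (Real.exp_pos _).le)
    have h4 : Real.exp (2 * ‖z - ζ‖ - ‖z - ζ‖ ^ 2 / 2) =
        Real.exp ‖z - ζ‖ * Real.exp (‖z - ζ‖ - ‖z - ζ‖ ^ 2 / 2) := by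
      rw [← Real.exp_add]; congr 1; ring
    calc Y z * (‖l2k α z ζ - l2k α' z ζ‖ * ‖W.V f ζ‖)
        = (Y z * ‖l2k α z ζ - l2k α' z ζ‖) * ‖W.V f ζ‖ := by ring
      _ ≤ ((Y ζ * Real.exp ‖z - ζ‖) *
        (2 * ‖α - α'‖ * (1 + ‖ζ‖) *
      ((1 + ‖z - ζ‖) * Real.exp (‖z - ζ‖ - ‖z - ζ‖ ^ 2 / 2)))) * ‖W.V f ζ‖ :=
        mul_le_mul_of_nonneg_right h3 (norm_nonneg _)
      _ = _ := by rw [h4]; ring
  have hG2 : ∫⁻ x, h x ∂dA = ENNReal.ofReal (2 * ‖α - α'‖) * G := by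
    rw [hh, lintegral_const_mul _ (by fun_prop)]
  calc S2 Y (W.V (W.U α f - W.U α' f))
      ≤ ∫⁻ z, (∫⁻ ζ, h (z - ζ) * F ζ ∂dA) ^ 2 ∂dA := by
        unfold S2
        exact lintegral_mono fun z => pow_le_pow_left' (hpt z) 2
    _ ≤ (∫⁻ x, h x ∂dA) ^ 2 * ∫⁻ ζ, F ζ ^ 2 ∂dA := young h F hhm hFm
    _ = (ENNReal.ofReal (2 * ‖α - α'‖) * G) ^ 2 * S2 (fun z => (1 + ‖z‖) * Y z) (W.V f) := by
        rw [hG2]; rfl
    _ ≤ _ := by
        refine mul_le_mul_left ?_ _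
        have : G = ENNReal.ofReal G.toReal := (ENNReal.ofReal_toReal hGt).symm
        rw [this, ← ENNReal.ofReal_mul (by positivity), ← ENNReal.ofReal_pow (by positivity)]
        apply ENNReal.ofReal_le_ofReal
        have : 0 ≤ ‖α - α'‖ ^ 2 := by positivity
        rw [ENNReal.toReal_ofReal ENNReal.toReal_nonneg]
        nlinarith

/-- the function `α ↦ (act α G)(z)` is continuous for `G` continuous -/
theorem act_cont (G : ℂ → ℂ) (hG : Continuous G) (z : ℂ) : Continuous fun α => act α G z := by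
  unfold act
  have h1 : Continuous fun α : ℂ => G (z + α) := hG.comp (by fun_prop)
  have h2 : Continuous fun α : ℂ => (((α * conj z).im : ℝ) : ℂ) :=
    Complex.continuous_ofReal.comp (Complex.continuous_im.comp (by fun_prop))
  exact (Complex.continuous_exp.comp (h2.mul continuous_const)).mul h1

/-- L2, second half. -/
theorem L2b : ∃ C : ℝ, 0 < C ∧ ∀ (H : Type) [NormedAddCommGroup H] [InnerProductSpace ℂ H]
    [CompleteSpace H] (W : Weyl H) (N : ℕ) (M : ℝ) (ξ : ℝ → ℂ) (f : H), 0 < N →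
    (∀ t, ξ (cell N t) = ξ t) → (∀ t, ‖ξ t‖ ≤ M) →
    ENNReal.ofReal (‖XL W (muN N) ξ f - XL W mu8 ξ f‖ ^ 2) ≤
      ENNReal.ofReal (C * M ^ 2 / N ^ 2) * S2 (fun z => 1 + ‖z‖) (W.V f) := by
  obtain ⟨C, hC, hL⟩ := L2a
  refine ⟨C * (2 * Real.pi) ^ 2, by positivity, ?_⟩
  intro H _ _ _ W N M ξ f hN hs hM
  have hM0 : 0 ≤ M := (norm_nonneg _).trans (hM 0)
  have hNr : (0 : ℝ) < N := by exact_mod_cast hN
  have hξm : Measurable ξ := step_meas ξ hs
  have hB8 : Bd mu8 M ξ := ⟨hξm, Eventually.of_forall hM⟩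
  have hBN : Bd (muN N) M ξ := ⟨hξm, Eventually.of_forall hM⟩
  set S : ℝ≥0∞ := S2 (fun z => 1 + ‖z‖) (W.V f) with hS
  -- pointwise bound
  set B : ℝ≥0∞ := (ENNReal.ofReal (C * (2 * Real.pi / N) ^ 2) * S) ^ (1 / 2 : ℝ) with hBdef
  have hB2 : B ^ 2 = ENNReal.ofReal (C * (2 * Real.pi / N) ^ 2) * S := by
    rw [hBdef, ← ENNReal.rpow_natCast, ← ENNReal.rpow_mul]
    norm_num
  have hpt : ∀ t, ‖W.U (node (cell N t)) f - W.U (node t) f‖ₑ ≤ B := by
    intro t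
    have h1 := hL H W (fun _ => 1) f (node (cell N t)) (node t) l2_one_logLip (node_norm _)
      (node_norm _)
    rw [S2_V] at h1
    have h2 : ‖node (cell N t) - node t‖ ≤ 2 * Real.pi / N := by
      refine (node_lip _ _).trans ?_
      rw [div_eq_mul_one_div]
      refine mul_le_mul_of_nonneg_left ?_ (by positivity)
      have c1 := cell_le hN t
      have c2 := lt_cell_add hN t
      rw [abs_of_nonpos (by linarith)]
      linarith
    have h3 : ‖W.U (node (cell N t)) f - W.U (node t) f‖ₑ ^ 2 ≤ B ^ 2 := by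
      rw [hB2, ← ofReal_norm, ← ENNReal.ofReal_pow (norm_nonneg _)]
      refine h1.trans ?_
      have e : (fun z : ℂ => (1 + ‖z‖) * (1 : ℝ)) = fun z : ℂ => 1 + ‖z‖ := by
        funext z; rw [mul_one]
      rw [e]
      refine mul_le_mul_left (ENNReal.ofReal_le_ofReal ?_) _
      refine mul_le_mul_of_nonneg_left ?_ hC.le
      exact pow_le_pow_left₀ (norm_nonneg _) h2 2
    exact (ENNReal.pow_le_pow_left_iff (by norm_num)).1 h3
  -- comparison
  set h : ℝ → H := fun t => ξ t • W.U (node (cell N t)) f with hh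
  have hstep : ∀ t, h (cell N t) = h t := by
    intro t; simp only [hh]; rw [hs, cell_cell hN]
  have e1 : XL W (muN N) ξ f = ∫ t, h t ∂mu8 := by
    have := muN_prob hN
    rw [XL_apply W hBN, ← integral_step hN h hstep]
    apply integral_congr_ae
    rw [Filter.EventuallyEq, muN_ae hN]
    intro k _
    simp only [hh]
    have := cell_grid hN (k : ℤ)
    push_cast at this
    rw [this]
  have hint : Integrable h mu8 := by
    have hm : AEStronglyMeasurable h mu8 := by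
      have hc : Continuous fun t : ℝ => W.U (node t) f := (W.cont f).comp node_cont
      have : h = fun t => ξ t • ((fun t : ℝ => W.U (node t) f) ∘ cell N) t := rfl
      rw [this]
      exact hξm.aestronglyMeasurable.smul
        ((hc.stronglyMeasurable.comp_measurable (cell_meas N)).aestronglyMeasurable)
    refine Integrable.of_bound hm (M * ‖f‖) (Eventually.of_forall fun t => ?_)
    simp only [hh]
    rw [norm_smul, W.norm_U]
    exact mul_le_mul_of_nonneg_right (hM t) (norm_nonneg _)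
  have e2 : XL W (muN N) ξ f - XL W mu8 ξ f =
      ∫ t, ξ t • (W.U (node (cell N t)) f - W.U (node t) f) ∂mu8 := by
    rw [e1, XL_apply W hB8, ← integral_sub hint (XL_integrable W hB8 f)]
    apply integral_congr_ae
    refine Eventually.of_forall fun t => ?_
    simp only [hh]
    rw [smul_sub]
  have h5 : ‖XL W (muN N) ξ f - XL W mu8 ξ f‖ₑ ≤ ENNReal.ofReal M * B := by
    rw [e2]
    refine (enorm_integral_le_lintegral_enorm _).trans ?_
    calc _ ≤ ∫⁻ _ : ℝ, ENNReal.ofReal M * B ∂mu8 := by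
          refine lintegral_mono fun t => ?_
          rw [enorm_smul]
          refine mul_le_mul' ?_ (hpt t)
          rw [← ofReal_norm]
          exact ENNReal.ofReal_le_ofReal (hM t)
      _ = _ := by
          rw [lintegral_const, measure_univ, mul_one]
  calc ENNReal.ofReal (‖XL W (muN N) ξ f - XL W mu8 ξ f‖ ^ 2)
      = ‖XL W (muN N) ξ f - XL W mu8 ξ f‖ₑ ^ 2 := by
        rw [← ofReal_norm, ENNReal.ofReal_pow (norm_nonneg _)]
    _ ≤ (ENNReal.ofReal M * B) ^ 2 := pow_le_pow_left' h5 2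
    _ = ENNReal.ofReal (C * (2 * Real.pi) ^ 2 * M ^ 2 / N ^ 2) * S := by
        rw [mul_pow, hB2, ← mul_assoc, ← ENNReal.ofReal_pow hM0,
          ← ENNReal.ofReal_mul (by positivity)]
        congr 2
        field_simp

end Pool.Agent.Helper84.HRT
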