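import Mathlib
import Pool.Agent.Helper84.HRT.DefsA
import Pool.Agent.Helper84.HRT.WD
import Pool.Agent.Helper84.HRT.YG
import Pool.Agent.Helper84.HRT.VS

open MeasureTheory Complex Filter
open scoped ENNReal ComplexConjugate InnerProductSpace BigOperators Topology

namespace Pool.Agent.Helper84.HRT

variable {H : Type} [NormedAddCommGroup H] [InnerProductSpace ℂ H] [CompleteSpace H]

private theorem l4o_sqrt (a b : ℝ) (ha : 0 ≤ a) (hb : 0 ≤ b) :
    |Real.sqrt (1 + a ^ 2) - Real.sqrt (1 + b ^ 2)| ≤ |a - b| := by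
  have h1 : 0 < Real.sqrt (1 + a ^ 2) := Real.sqrt_pos.mpr (by positivity)
  have h2 : 0 < Real.sqrt (1 + b ^ 2) := Real.sqrt_pos.mpr (by positivity)
  have s1 : Real.sqrt (1 + a ^ 2) ^ 2 = 1 + a ^ 2 := Real.sq_sqrt (by positivity)
  have s2 : Real.sqrt (1 + b ^ 2) ^ 2 = 1 + b ^ 2 := Real.sq_sqrt (by positivity)
  have la : a ≤ Real.sqrt (1 + a ^ 2) := Real.le_sqrt_of_sq_le (by linarith)
  have lb : b ≤ Real.sqrt (1 + b ^ 2) := Real.le_sqrt_of_sq_le (by linarith)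
  set x := Real.sqrt (1 + a ^ 2)
  set y := Real.sqrt (1 + b ^ 2)
  have hxy : (x - y) * (x + y) = (a - b) * (a + b) := by nlinarith
  have h3 : |x - y| * (x + y) = |a - b| * (a + b) := by
    have := congrArg abs hxy
    rwa [abs_mul, abs_mul, abs_of_pos (by linarith : 0 < x + y),
      abs_of_nonneg (by linarith : 0 ≤ a + b)] at this
  by_contra hcon
  push Not at hcon
  have h4 : |a - b| * (a + b) ≤ |a - b| * (x + y) :=
    mul_le_mul_of_nonneg_left (by linarith) (abs_nonneg _)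
  have h5 : |a - b| * (x + y) < |x - y| * (x + y) :=
    mul_lt_mul_of_pos_right hcon (by linarith)
  linarith

private theorem l4o_phi (w z ζ : ℂ) :
    |Real.sqrt (1 + ‖z - w‖ ^ 2) - Real.sqrt (1 + ‖ζ - w‖ ^ 2)| ≤ ‖z - ζ‖ := by
  refine (l4o_sqrt _ _ (norm_nonneg _) (norm_nonneg _)).trans ?_
  have := abs_norm_sub_norm_le (z - w) (ζ - w)
  simpa using this

private theorem l4o_exp (x : ℝ) : |Real.exp x - 1| ≤ |x| * Real.exp |x| := by
  rcases le_total 0 x with h | h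
  · rw [abs_of_nonneg h, abs_of_nonneg (by linarith [Real.add_one_le_exp x])]
    have := Real.add_one_le_exp (-x)
    have e : Real.exp x * Real.exp (-x) = 1 := by rw [← Real.exp_add]; simp
    nlinarith [Real.exp_pos x]
  · rw [abs_of_nonpos h, abs_of_nonpos (by linarith [Real.exp_le_one_iff.mpr h])]
    have h1 := Real.add_one_le_exp x
    have h2 : 1 ≤ Real.exp (-x) := Real.one_le_exp (by linarith)
    nlinarith

theorem Omw_isW {ρ : ℝ} (hρ : 1 ≤ ρ) (w : ℂ) : IsW (Omw ρ w) (fun _ => 1 / ρ) := by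
  have hρ0 : 0 < ρ := by linarith
  refine ⟨fun z => by unfold Omw; positivity, ?_, fun _ => by positivity,
    fun _ => ?_, continuous_const, ?_⟩
  · unfold Omw; fun_prop
  · rw [div_le_one hρ0]; exact hρ
  · intro z ζ
    have hphi := l4o_phi w z ζ
    have hd : 0 ≤ ‖z - ζ‖ := norm_nonneg _
    set x : ℝ := -(Real.sqrt (1 + ‖z - w‖ ^ 2) - Real.sqrt (1 + ‖ζ - w‖ ^ 2)) / ρ with hx
    have hxa : |x| ≤ ‖z - ζ‖ / ρ := by
      rw [hx, abs_div, abs_neg, abs_of_pos hρ0]; gcongr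
    have hxb : ‖z - ζ‖ / ρ ≤ ‖z - ζ‖ := div_le_self hd hρ
    have e1 : Omw ρ w z = Omw ρ w ζ * Real.exp x := by
      unfold Omw
      rw [← Real.exp_add]
      congr 1
      rw [hx]; ring
    have hpos : 0 < Omw ρ w ζ := by unfold Omw; positivity
    rw [e1]
    have e2 : Omw ρ w ζ * Real.exp x - Omw ρ w ζ = Omw ρ w ζ * (Real.exp x - 1) := by ring
    rw [e2, abs_mul, abs_of_pos hpos]
    calc Omw ρ w ζ * |Real.exp x - 1| ≤ Omw ρ w ζ * (|x| * Real.exp |x|) := by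
          gcongr; exact l4o_exp x
      _ ≤ Omw ρ w ζ * ((‖z - ζ‖ / ρ) * Real.exp ‖z - ζ‖) := by
          gcongr; exact hxa.trans hxb
      _ = 1 / ρ * Omw ρ w ζ * ‖z - ζ‖ * Real.exp ‖z - ζ‖ := by ring

private theorem l4o_shift (ρ : ℝ) (w z : ℂ) : Omw ρ w z = Omw ρ 0 (z - w) := by
  unfold Omw; simp

private theorem l4o_int {ρ : ℝ} (hρ : 1 ≤ ρ) : Integrable (fun z => Omw ρ 0 z ^ 2) dA := by
  have hρ0 : 0 < ρ := by linarith
  have hbase : Integrable (fun z : ℂ => (1 + ‖z‖) ^ (-(3 : ℝ))) (volume : Measure ℂ) := by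
    apply integrable_one_add_norm
    simp [Complex.finrank_real_complex]
    norm_num
  have hint : Integrable (fun z : ℂ => (Real.exp (2 / ρ) * (6 * (ρ / 2) ^ 3)) *
      (1 + ‖z‖) ^ (-(3 : ℝ))) dA := by
    unfold dA
    exact (hbase.const_mul _).smul_measure ENNReal.ofReal_ne_top
  refine hint.mono' ?_ (Filter.Eventually.of_forall fun z => ?_)
  · exact ((Omw_isW hρ 0).cont.pow 2).aestronglyMeasurable
  · have hz : 0 ≤ ‖z‖ := norm_nonneg z
    rw [Real.norm_of_nonneg (by positivity)]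
    have h1 : Omw ρ 0 z ^ 2 ≤ Real.exp (-(2 / ρ * ‖z‖)) := by
      unfold Omw
      rw [← Real.exp_nat_mul]
      refine Real.exp_le_exp.mpr ?_
      have hs : ‖z‖ ≤ Real.sqrt (1 + ‖z - 0‖ ^ 2) := by
        rw [sub_zero]; exact Real.le_sqrt_of_sq_le (by linarith)
      push_cast
      rw [neg_div, mul_neg, neg_le_neg_iff, div_mul_eq_mul_div, ← mul_div_assoc]
      gcongr
    have hX : 0 ≤ 2 / ρ * (1 + ‖z‖) := by positivity
    have h2 := Real.pow_div_factorial_le_exp (2 / ρ * (1 + ‖z‖)) hX 3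
    have h3 : (1 + ‖z‖) ^ (-(3 : ℝ)) = ((1 + ‖z‖) ^ 3)⁻¹ := by
      rw [Real.rpow_neg (by positivity)]
      norm_cast
    rw [h3]
    refine h1.trans ?_
    have h4 : Real.exp (2 / ρ * (1 + ‖z‖)) = Real.exp (2 / ρ) * Real.exp (2 / ρ * ‖z‖) := by
      rw [← Real.exp_add]; ring_nf
    rw [h4] at h2
    have h5 : Real.exp (-(2 / ρ * ‖z‖)) * Real.exp (2 / ρ * ‖z‖) = 1 := by
      rw [← Real.exp_add]; simp
    have h6 : (Nat.factorial 3 : ℝ) = 6 := by norm_num [Nat.factorial]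
    rw [h6] at h2
    rw [← div_eq_mul_inv, le_div_iff₀ (by positivity)]
    have h7 : (1 + ‖z‖) ^ 3 ≤ (6 * (ρ / 2) ^ 3) * (Real.exp (2 / ρ) * Real.exp (2 / ρ * ‖z‖)) := by
      have h8 : (2 / ρ * (1 + ‖z‖)) ^ 3 ≤ 6 * (Real.exp (2 / ρ) * Real.exp (2 / ρ * ‖z‖)) := by
        rw [div_le_iff₀ (by norm_num)] at h2
        linarith
      calc (1 + ‖z‖) ^ 3 = (ρ / 2) ^ 3 * (2 / ρ * (1 + ‖z‖)) ^ 3 := by
            field_simp
        _ ≤ (ρ / 2) ^ 3 * (6 * (Real.exp (2 / ρ) * Real.exp (2 / ρ * ‖z‖))) := by gcongr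
        _ = _ := by ring
    calc Real.exp (-(2 / ρ * ‖z‖)) * (1 + ‖z‖) ^ 3
        ≤ Real.exp (-(2 / ρ * ‖z‖)) *
          ((6 * (ρ / 2) ^ 3) * (Real.exp (2 / ρ) * Real.exp (2 / ρ * ‖z‖))) := by gcongr
      _ = (Real.exp (-(2 / ρ * ‖z‖)) * Real.exp (2 / ρ * ‖z‖)) *
          (Real.exp (2 / ρ) * (6 * (ρ / 2) ^ 3)) := by ring
      _ = _ := by rw [h5, one_mul]

theorem nrho_pos {ρ : ℝ} (hρ : 1 ≤ ρ) : 0 < nrho ρ := by
  unfold nrho
  rw [integral_pos_iff_support_of_nonneg (fun z => by positivity) (l4o_int hρ)]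
  have : (Function.support fun z => Omw ρ 0 z ^ 2) = Set.univ := by
    ext z
    simp only [Function.mem_support, Set.mem_univ, iff_true]
    have : 0 < Omw ρ 0 z := by unfold Omw; positivity
    positivity
  rw [this]
  exact isOpen_univ.measure_pos dA ⟨0, trivial⟩

theorem Omw_lintegral {ρ : ℝ} (hρ : 1 ≤ ρ) (z : ℂ) :
    ∫⁻ w, ENNReal.ofReal (Omw ρ w z ^ 2) ∂dA = ENNReal.ofReal (nrho ρ) := by
  have h1 : ∀ w, ENNReal.ofReal (Omw ρ w z ^ 2) =
      (fun u => ENNReal.ofReal (Omw ρ 0 u ^ 2)) (z - w) := fun w => by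
    simp only [l4o_shift ρ w z]
  simp_rw [h1]
  rw [lintegral_sub_left_eq_self (fun u => ENNReal.ofReal (Omw ρ 0 u ^ 2)) z]
  unfold nrho
  rw [ofReal_integral_eq_lintegral_ofReal (l4o_int hρ)
    (Filter.Eventually.of_forall fun z => by positivity)]

private theorem l4o_le_one (ρ : ℝ) (hρ : 0 < ρ) (w z : ℂ) : Omw ρ w z ≤ 1 := by
  unfold Omw
  refine Real.exp_le_one_iff.mpr ?_
  rw [neg_div]
  have : 0 ≤ Real.sqrt (1 + ‖z - w‖ ^ 2) / ρ := by positivity
  linarith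

private theorem l4o_diff {ρ : ℝ} (hρ : 1 ≤ ρ) (w w' z : ℂ) :
    |Omw ρ w z - Omw ρ w' z| ≤ ‖w - w'‖ * Real.exp ‖w - w'‖ := by
  have hρ0 : 0 < ρ := by linarith
  have h := (Omw_isW hρ 0).slope (z - w) (z - w')
  rw [l4o_shift ρ w z, l4o_shift ρ w' z]
  have e : ‖z - w - (z - w')‖ = ‖w - w'‖ := by
    rw [show z - w - (z - w') = -(w - w') by ring, norm_neg]
  rw [e] at h
  refine h.trans ?_
  have h1 : 1 / ρ ≤ 1 := by rw [div_le_one hρ0]; exact hρ
  have h2 := l4o_le_one ρ hρ0 0 (z - w')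
  have h3 : 0 ≤ Omw ρ 0 (z - w') := by unfold Omw; positivity
  have h4 : 1 / ρ * Omw ρ 0 (z - w') ≤ 1 := by
    calc 1 / ρ * Omw ρ 0 (z - w') ≤ 1 * 1 := by gcongr
      _ = 1 := one_mul 1
  have h5 : 0 ≤ ‖w - w'‖ * Real.exp ‖w - w'‖ := by positivity
  nlinarith

private theorem l4o_S2 (W : Weyl H) (v : H) (f : ℂ → ℝ) (c : ℝ) (hf : ∀ z, |f z| ≤ c) :
    S2 (fun _ => 1) (fun z => ((f z : ℝ) : ℂ) * W.V v z) ≤
      ENNReal.ofReal (c ^ 2) * ENNReal.ofReal (‖v‖ ^ 2) := by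
  have hc : 0 ≤ c := (abs_nonneg _).trans (hf 0)
  rw [← S2_V W v]
  unfold S2
  rw [← lintegral_const_mul']
  · refine lintegral_mono fun z => ?_
    simp only [Complex.ofReal_one, one_mul]
    rw [enorm_mul, mul_pow, ENNReal.ofReal_pow hc]
    gcongr
    rw [← ofReal_norm, Complex.norm_real, Real.norm_eq_abs]
    exact ENNReal.ofReal_le_ofReal (hf z)
  · exact ENNReal.ofReal_ne_top

theorem vw_cont (W : Weyl H) {ρ : ℝ} (hρ : 1 ≤ ρ) (v : H) : Continuous (vw W ρ v) := by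
  have hρ0 : 0 < ρ := by linarith
  have hVm : AEStronglyMeasurable (W.V v) dA := (V_memLp W v).1
  have hm : ∀ f : ℂ → ℝ, Continuous f →
      AEStronglyMeasurable (fun z => ((f z : ℝ) : ℂ) * W.V v z) dA := fun f hf =>
    (Complex.continuous_ofReal.comp hf).aestronglyMeasurable.mul hVm
  have hfin : ∀ w, S2 (fun _ => 1) (fun z => ((Omw ρ w z : ℝ) : ℂ) * W.V v z) < ⊤ := fun w => by
    refine lt_of_le_of_lt (l4o_S2 W v (Omw ρ w) 1 fun z => ?_) ?_
    · rw [abs_of_nonneg (by unfold Omw; positivity)]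
      exact l4o_le_one ρ hρ0 w z
    · exact ENNReal.mul_lt_top ENNReal.ofReal_lt_top ENNReal.ofReal_lt_top
  have key : ∀ w w' : ℂ, ‖vw W ρ v w - vw W ρ v w'‖ ≤
      ‖w - w'‖ * Real.exp ‖w - w'‖ * ‖v‖ := by
    intro w w'
    set F := fun z => ((Omw ρ w z - Omw ρ w' z : ℝ) : ℂ) * W.V v z with hF
    have hFm : AEStronglyMeasurable F dA :=
      hm _ (((Omw_isW hρ w).cont).sub ((Omw_isW hρ w').cont))
    have hFb : S2 (fun _ => 1) F ≤
        ENNReal.ofReal ((‖w - w'‖ * Real.exp ‖w - w'‖) ^ 2) * ENNReal.ofReal (‖v‖ ^ 2) :=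
      l4o_S2 W v _ _ (l4o_diff hρ w w')
    have hFf : S2 (fun _ => 1) F < ⊤ :=
      lt_of_le_of_lt hFb (ENNReal.mul_lt_top ENNReal.ofReal_lt_top ENNReal.ofReal_lt_top)
    have hint : ∀ (G : ℂ → ℂ), AEStronglyMeasurable G dA → S2 (fun _ => 1) G < ⊤ → ∀ h : H,
        Integrable (fun z => conj (W.V h z) * G z) dA := by
      intro G hG hGf h
      have hGL : MemLp G 2 dA := by
        refine ⟨hG, ?_⟩
        rw [eLpNorm_lt_top_iff_lintegral_rpow_enorm_lt_top (by norm_num) (by norm_num)]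
        unfold S2 at hGf
        simpa using hGf
      have hVL : MemLp (fun z => conj (W.V h z)) 2 dA := by
        refine (V_memLp W h).of_le ?_ (Filter.Eventually.of_forall fun z => ?_)
        · exact continuous_conj.comp_aestronglyMeasurable (V_memLp W h).1
        · simp
      exact hVL.integrable_mul hGL
    have e : vw W ρ v w - vw W ρ v w' = W.Vs F := by
      refine ext_inner_left ℂ fun h => ?_
      rw [inner_sub_right, Vs_spec W F hFm hFf h]
      unfold vw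
      rw [Vs_spec W _ (hm _ (Omw_isW hρ w).cont) (hfin w) h,
        Vs_spec W _ (hm _ (Omw_isW hρ w').cont) (hfin w') h,
        ← integral_sub (hint _ (hm _ (Omw_isW hρ w).cont) (hfin w) h)
          (hint _ (hm _ (Omw_isW hρ w').cont) (hfin w') h)]
      refine integral_congr_ae (Filter.Eventually.of_forall fun z => ?_)
      simp only [hF, Complex.ofReal_sub]
      ring
    have h1 := (norm_Vs W F hFm hFf).trans hFb
    rw [← e, ← ENNReal.ofReal_mul (by positivity), ← mul_pow] at h1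
    have h2 := (ENNReal.ofReal_le_ofReal_iff (by positivity)).mp h1
    exact (pow_le_pow_iff_left₀ (norm_nonneg _) (by positivity) (by norm_num)).mp h2
  rw [continuous_iff_continuousAt]
  intro w'
  rw [ContinuousAt, tendsto_iff_norm_sub_tendsto_zero]
  have hlim : Tendsto (fun w : ℂ => ‖w - w'‖ * Real.exp ‖w - w'‖ * ‖v‖) (𝓝 w') (𝓝 0) := by
    have hc : Continuous fun w : ℂ => ‖w - w'‖ * Real.exp ‖w - w'‖ * ‖v‖ := by fun_prop
    have := hc.tendsto w'
    simpa using this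
  exact squeeze_zero (fun w => norm_nonneg _) (fun w => key w w') hlim

end Pool.Agent.Helper84.HRT
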