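import Mathlib
import Pool.Agent.Helper84.HRT.DefsA
import Pool.Agent.Helper84.HRT.WB
import Pool.Agent.Helper84.HRT.YG
import Pool.Agent.Helper84.HRT.YK
import Pool.Agent.Helper84.HRT.WD
import Pool.Agent.Helper84.HRT.VS
import Pool.Agent.Helper84.HRT.XA
import Pool.Agent.Helper84.HRT.XB
import Pool.Agent.Helper84.HRT.L1A
import Pool.Agent.Helper84.HRT.L1B
import Pool.Agent.Helper84.HRT.L4O

/-!
# HRT, piece L4A: Claim 1 of L4

`∫ ⟨v_w, X v_w⟩ dA(w) = n_ρ ⟨v, X v⟩ + O(1/ρ) n_ρ |v|²`.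
-/

open MeasureTheory Complex Filter
open scoped ENNReal ComplexConjugate InnerProductSpace BigOperators Topology

namespace Pool.Agent.Helper84.HRT

variable {H : Type} [NormedAddCommGroup H] [InnerProductSpace ℂ H] [CompleteSpace H]

/-- the data without base operator -/
private noncomputable def l4aD : Data where
  m := 0
  τ := fun i => i.elim0
  β := fun i => i.elim0
  Γ := Set.univ
  d0 := 2
  κ := fun _ => 1
  d0_pos := by norm_num
  d0_even := ⟨1, rfl⟩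
  τ_rat := fun i => i.elim0
  τ_inj := fun i => i.elim0
  Γ_compact := isCompact_univ
  Γ_one := fun _ _ i => i.elim0
  Γ_chi := fun _ _ _ => Set.mem_univ _
  κ_meas := measurable_const
  κ_nonneg := fun _ => zero_le_one
  κ_le := fun _ => le_rfl
  κ_per := fun _ => rfl
  κbad := ∅
  κbad_fin := by simp
  κbad_per := fun _ => by simp
  κ_cont := fun _ _ => continuousAt_const
  κ_pos := fun _ _ => one_pos

private instance l4a_empty : IsEmpty (Fin l4aD.m) := inferInstanceAs (IsEmpty (Fin 0))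

private theorem l4a_one : LogLip (fun _ => (1 : ℝ)) := by
  refine ⟨fun _ => one_pos, fun z ζ => ?_⟩
  have := Real.one_le_exp (norm_nonneg (z - ζ))
  linarith

private theorem l4a_Om_pos (ρ : ℝ) (w z : ℂ) : 0 < Omw ρ w z := by
  unfold Omw; positivity

private theorem l4a_Om_le_one {ρ : ℝ} (hρ : 0 < ρ) (w z : ℂ) : Omw ρ w z ≤ 1 := by
  unfold Omw
  rw [Real.exp_le_one_iff]
  have := Real.sqrt_nonneg (1 + ‖z - w‖ ^ 2)
  exact div_nonpos_of_nonpos_of_nonneg (by linarith) hρ.le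

private theorem l4a_S2 (Ω : ℂ → ℝ) (G : ℂ → ℂ) :
    S2 Ω G = ∫⁻ z, ENNReal.ofReal (Ω z ^ 2) * ‖G z‖ₑ ^ 2 ∂dA := by
  unfold S2
  refine lintegral_congr fun z => ?_
  rw [enorm_mul, mul_pow]
  congr 1
  rw [← enorm_pow, ← Complex.ofReal_pow, ← ofReal_norm, Complex.norm_real,
    Real.norm_of_nonneg (sq_nonneg _)]

private theorem l4a_S2_one (Ω : ℂ → ℝ) (G : ℂ → ℂ) :
    S2 (fun _ => 1) (fun z => ((Ω z : ℝ) : ℂ) * G z) = S2 Ω G := by
  unfold S2
  refine lintegral_congr fun z => ?_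
  simp

private theorem l4a_scale {c : ℝ} (Ω : ℂ → ℝ) (G : ℂ → ℂ) :
    S2 (fun z => 1 * c * Ω z) G = ENNReal.ofReal (c ^ 2) * S2 Ω G := by
  rw [l4a_S2, l4a_S2, ← lintegral_const_mul' _ _ ENNReal.ofReal_ne_top]
  refine lintegral_congr fun z => ?_
  rw [← mul_assoc, ← ENNReal.ofReal_mul (sq_nonneg _)]
  congr 2
  ring

private theorem l4a_joint (ρ : ℝ) : Continuous fun p : ℂ × ℂ => Omw ρ p.1 p.2 := by
  unfold Omw; fun_prop

private theorem l4a_jm (ρ : ℝ) {G : ℂ → ℂ} (hG : Measurable G) :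
    Measurable fun p : ℂ × ℂ => ENNReal.ofReal (Omw ρ p.1 p.2 ^ 2) * ‖G p.2‖ₑ ^ 2 := by
  have h1 : Measurable fun p : ℂ × ℂ => Omw ρ p.1 p.2 := (l4a_joint ρ).measurable
  have h2 : Measurable fun p : ℂ × ℂ => G p.2 := hG.comp measurable_snd
  fun_prop

private theorem l4a_meas (ρ : ℝ) {G : ℂ → ℂ} (hG : Measurable G) :
    Measurable fun w => S2 (Omw ρ w) G := by
  simp_rw [l4a_S2]
  exact (l4a_jm ρ hG).lintegral_prod_right'

private theorem l4a_tonelli {ρ : ℝ} (hρ : 1 ≤ ρ) {G : ℂ → ℂ} (hG : Measurable G) :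
    ∫⁻ w, S2 (Omw ρ w) G ∂dA = ENNReal.ofReal (nrho ρ) * S2 (fun _ => 1) G := by
  simp_rw [l4a_S2]
  rw [lintegral_lintegral_swap (f := fun w z => ENNReal.ofReal (Omw ρ w z ^ 2) * ‖G z‖ₑ ^ 2)
    (l4a_jm ρ hG).aemeasurable]
  rw [← lintegral_const_mul' _ _ ENNReal.ofReal_ne_top]
  refine lintegral_congr fun z => ?_
  rw [lintegral_mul_const' _ _ (by finiteness), Omw_lintegral hρ z]
  simp

private theorem l4a_fin (W : Weyl H) {ρ : ℝ} (hρ : 1 ≤ ρ) (v : H) (w : ℂ) :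
    S2 (Omw ρ w) (W.V v) ≤ ENNReal.ofReal (‖v‖ ^ 2) := by
  rw [← S2_V W v, l4a_S2, l4a_S2]
  refine lintegral_mono fun z => ?_
  refine mul_le_mul_left ?_ _
  refine ENNReal.ofReal_le_ofReal ?_
  have h1 := l4a_Om_pos ρ w z
  have h2 := l4a_Om_le_one (by linarith : 0 < ρ) w z
  nlinarith

private theorem l4a_hF (W : Weyl H) (ρ : ℝ) (v : H) (w : ℂ) (hρ : 1 ≤ ρ) :
    Continuous fun z => ((Omw ρ w z : ℝ) : ℂ) * W.V v z := by
  have h1 : Continuous fun z => Omw ρ w z := (Omw_isW hρ w).cont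
  have h2 := V_cont W v
  fun_prop

private theorem l4a_Ffin (W : Weyl H) {ρ : ℝ} (hρ : 1 ≤ ρ) (v : H) (w : ℂ) :
    S2 (fun _ => 1) (fun z => ((Omw ρ w z : ℝ) : ℂ) * W.V v z) < ⊤ := by
  rw [l4a_S2_one]
  exact (l4a_fin W hρ v w).trans_lt ENNReal.ofReal_lt_top

private theorem l4a_Vvw (W : Weyl H) {ρ : ℝ} (hρ : 1 ≤ ρ) (v : H) (w z : ℂ) :
    W.V (vw W ρ v w) z = Kop (fun ζ => ((Omw ρ w ζ : ℝ) : ℂ) * W.V v ζ) z := by
  unfold vw
  exact V_Vs W _ (l4a_hF W ρ v w hρ).aestronglyMeasurable (l4a_Ffin W hρ v w) z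

private theorem l4a_upper (W : Weyl H) {ρ : ℝ} (hρ : 1 ≤ ρ) (v : H) (w : ℂ) :
    ‖vw W ρ v w‖ ^ 2 ≤ (S2 (Omw ρ w) (W.V v)).toReal := by
  have h := norm_Vs W (fun z => ((Omw ρ w z : ℝ) : ℂ) * W.V v z)
    (l4a_hF W ρ v w hρ).aestronglyMeasurable (l4a_Ffin W hρ v w)
  rw [l4a_S2_one] at h
  have h2 := ENNReal.toReal_mono ((l4a_fin W hρ v w).trans_lt ENNReal.ofReal_lt_top).ne h
  rwa [ENNReal.toReal_ofReal (sq_nonneg _)] at h2

/-- integrability and integral of the local masses -/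
private theorem l4a_mass (W : Weyl H) {ρ : ℝ} (hρ : 1 ≤ ρ) (v : H) :
    Integrable (fun w => (S2 (Omw ρ w) (W.V v)).toReal) dA ∧
      ∫ w, (S2 (Omw ρ w) (W.V v)).toReal ∂dA = nrho ρ * ‖v‖ ^ 2 := by
  have hm := l4a_meas ρ (V_cont W v).measurable
  have hL : ∫⁻ w, S2 (Omw ρ w) (W.V v) ∂dA = ENNReal.ofReal (nrho ρ * ‖v‖ ^ 2) := by
    rw [l4a_tonelli hρ (V_cont W v).measurable, S2_V, ENNReal.ofReal_mul (nrho_pos hρ).le]
  refine ⟨integrable_toReal_of_lintegral_ne_top hm.aemeasurable (by rw [hL]; finiteness), ?_⟩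
  rw [integral_toReal hm.aemeasurable (Eventually.of_forall fun w =>
    (l4a_fin W hρ v w).trans_lt ENNReal.ofReal_lt_top), hL, ENNReal.toReal_ofReal]
  have := nrho_pos hρ
  positivity

/-- the commutator of `X` and the localisation -/
private theorem l4a_comm (C0 : ℝ) : ∃ C : ℝ, 0 < C ∧ ∀ (H : Type) [NormedAddCommGroup H]
    [InnerProductSpace ℂ H] [CompleteSpace H] (W : Weyl H) (N : ℕ) (ξ : ℝ → ℂ), 0 < N →
    0 ≤ C0 → Bd (muN N) C0 ξ → ∀ (ρ : ℝ) (v : H) (w : ℂ), 1 ≤ ρ →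
    ‖XL W (muN N) ξ (vw W ρ v w) - vw W ρ (XL W (muN N) ξ v) w‖ ^ 2 ≤
      C / ρ ^ 2 * (S2 (Omw ρ w) (W.V v)).toReal := by
  obtain ⟨C, hC, h⟩ := L1b C0
  refine ⟨C, hC, ?_⟩
  intro H _ _ _ W N ξ hN hC0 hξ ρ v w hρ
  have := muN_prob hN
  have hρ0 : 0 < ρ := by linarith
  have hB : Bop W l4aD (fun i => i.elim0) = 0 := by
    unfold Bop
    exact Finset.sum_of_isEmpty _
  have hA : Aop W l4aD (muN N) (fun i => i.elim0) ξ = XL W (muN N) ξ := by
    unfold Aop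
    rw [hB, zero_add]
  have hVX : ∀ f z, W.V (XL W (muN N) ξ f) z =
      actA l4aD (muN N) (fun i => i.elim0) ξ (W.V f) z := by
    intro f z
    rw [← V_Aop W hξ, hA]
  have hL := h l4aD (muN N) (fun i => i.elim0) ξ (by
      rw [Finset.sum_of_isEmpty]
      exact hC0) (fun i => i.elim0) hξ (Omw ρ w) (fun _ => 1 / ρ) (fun _ => 1) (W.V v)
    (Omw_isW hρ w) l4a_one (rep_V W v) ((l4a_fin W hρ v w).trans_lt ENNReal.ofReal_lt_top)
  have e1 : (Kop fun ζ => ((Omw ρ w ζ : ℝ) : ℂ) * W.V v ζ) = W.V (vw W ρ v w) := by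
    funext z
    exact (l4a_Vvw W hρ v w z).symm
  have e2 : (Kop fun ζ => ((Omw ρ w ζ : ℝ) : ℂ) *
      actA l4aD (muN N) (fun i => i.elim0) ξ (W.V v) ζ) =
      W.V (vw W ρ (XL W (muN N) ξ v) w) := by
    funext z
    rw [l4a_Vvw W hρ]
    simp only [hVX]
  rw [e1, e2, l4a_scale] at hL
  have e3 : (fun z => actA l4aD (muN N) (fun i => i.elim0) ξ (W.V (vw W ρ v w)) z -
      W.V (vw W ρ (XL W (muN N) ξ v) w) z) =
      W.V (XL W (muN N) ξ (vw W ρ v w) - vw W ρ (XL W (muN N) ξ v) w) := by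
    funext z
    rw [V_sub, hVX]
  rw [e3, S2_V, ← mul_assoc, ← ENNReal.ofReal_mul hC.le] at hL
  have hfin := ((l4a_fin W hρ v w).trans_lt ENNReal.ofReal_lt_top).ne
  have h2 := ENNReal.toReal_mono (ENNReal.mul_ne_top ENNReal.ofReal_ne_top hfin) hL
  rw [ENNReal.toReal_ofReal (sq_nonneg _), ENNReal.toReal_mul,
    ENNReal.toReal_ofReal (by positivity)] at h2
  refine h2.trans (le_of_eq ?_)
  congr 1
  field_simp

/-- the main term at the centre `w` -/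
private noncomputable def l4aM (W : Weyl H) (ρ : ℝ) (v u : H) (w : ℂ) : ℂ :=
  ∫ z, ((Omw ρ w z ^ 2 : ℝ) : ℂ) * (conj (W.V v z) * W.V u z) ∂dA

/-- `⟨v_w, u_w⟩` against the main term -/
private theorem l4a_main : ∃ C : ℝ, 0 < C ∧ ∀ (H : Type) [NormedAddCommGroup H]
    [InnerProductSpace ℂ H] [CompleteSpace H] (W : Weyl H) (ρ : ℝ) (v u : H) (w : ℂ), 1 ≤ ρ →
    ‖inner ℂ (vw W ρ v w) (vw W ρ u w) - l4aM W ρ v u w‖ ≤
      C / ρ * ((S2 (Omw ρ w) (W.V v)).toReal + (S2 (Omw ρ w) (W.V u)).toReal) := by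
  obtain ⟨C, hC, h⟩ := L1a
  refine ⟨C + 1, by positivity, ?_⟩
  intro H _ _ _ W ρ v u w hρ
  have hρ0 : 0 < ρ := by linarith
  have hfv := (l4a_fin W hρ v w).trans_lt ENNReal.ofReal_lt_top
  have hfu := (l4a_fin W hρ u w).trans_lt ENNReal.ofReal_lt_top
  have hE := h (Omw ρ w) (fun _ => 1 / ρ) (fun _ => 1) (W.V v) (Omw_isW hρ w) l4a_one
    (rep_V W v) hfv
  rw [l4a_scale] at hE
  have e1 : (Kop fun ζ => ((Omw ρ w ζ : ℝ) : ℂ) * W.V v ζ) = W.V (vw W ρ v w) := by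
    funext z
    exact (l4a_Vvw W hρ v w z).symm
  rw [e1] at hE
  have hcv := l4a_hF W ρ v w hρ
  have hcu := l4a_hF W ρ u w hρ
  have m1 : MemLp (fun z => ((Omw ρ w z : ℝ) : ℂ) * W.V v z) 2 dA := by
    refine MemLp.of_le (V_memLp W v) hcv.aestronglyMeasurable (Eventually.of_forall fun z => ?_)
    rw [norm_mul, Complex.norm_real, Real.norm_of_nonneg (l4a_Om_pos ρ w z).le]
    exact mul_le_of_le_one_left (norm_nonneg _) (l4a_Om_le_one hρ0 w z)
  have m2 : MemLp (fun z => ((Omw ρ w z : ℝ) : ℂ) * W.V u z) 2 dA := by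
    refine MemLp.of_le (V_memLp W u) hcu.aestronglyMeasurable (Eventually.of_forall fun z => ?_)
    rw [norm_mul, Complex.norm_real, Real.norm_of_nonneg (l4a_Om_pos ρ w z).le]
    exact mul_le_of_le_one_left (norm_nonneg _) (l4a_Om_le_one hρ0 w z)
  have m3 : MemLp (W.V (vw W ρ v w)) 2 dA := V_memLp W _
  have i1 : Integrable (fun z => conj (W.V (vw W ρ v w) z) *
      (((Omw ρ w z : ℝ) : ℂ) * W.V u z)) dA := by
    have := m3.star.integrable_mul m2
    exact this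
  have i2 : Integrable (fun z => conj (((Omw ρ w z : ℝ) : ℂ) * W.V v z) *
      (((Omw ρ w z : ℝ) : ℂ) * W.V u z)) dA := by
    have := m1.star.integrable_mul m2
    exact this
  have e2 : inner ℂ (vw W ρ v w) (vw W ρ u w) - l4aM W ρ v u w =
      ∫ z, -(conj (((Omw ρ w z : ℝ) : ℂ) * W.V v z - W.V (vw W ρ v w) z) *
        (((Omw ρ w z : ℝ) : ℂ) * W.V u z)) ∂dA := by
    have e3 : inner ℂ (vw W ρ v w) (vw W ρ u w) = ∫ z, conj (W.V (vw W ρ v w) z) *
        (((Omw ρ w z : ℝ) : ℂ) * W.V u z) ∂dA := by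
      conv_lhs => rw [vw.eq_def W ρ u w]
      exact Vs_spec W _ hcu.aestronglyMeasurable (l4a_Ffin W hρ u w) _
    have e4 : l4aM W ρ v u w = ∫ z, conj (((Omw ρ w z : ℝ) : ℂ) * W.V v z) *
        (((Omw ρ w z : ℝ) : ℂ) * W.V u z) ∂dA := by
      unfold l4aM
      refine integral_congr_ae (Eventually.of_forall fun z => ?_)
      simp only [map_mul, Complex.conj_ofReal]
      push_cast
      ring
    rw [e3, e4, ← integral_sub i1 i2]
    refine integral_congr_ae (Eventually.of_forall fun z => ?_)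
    simp only [map_sub]
    ring
  rw [e2]
  have hb : ∫⁻ z, ‖-(conj (((Omw ρ w z : ℝ) : ℂ) * W.V v z - W.V (vw W ρ v w) z) *
        (((Omw ρ w z : ℝ) : ℂ) * W.V u z))‖ₑ ∂dA ≤
      ENNReal.ofReal ρ * (ENNReal.ofReal C * (ENNReal.ofReal ((1 / ρ) ^ 2) *
        S2 (Omw ρ w) (W.V v))) + ENNReal.ofReal (1 / ρ) * S2 (Omw ρ w) (W.V u) := by
    calc ∫⁻ z, ‖-(conj (((Omw ρ w z : ℝ) : ℂ) * W.V v z - W.V (vw W ρ v w) z) *
        (((Omw ρ w z : ℝ) : ℂ) * W.V u z))‖ₑ ∂dA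
        ≤ ∫⁻ z, (ENNReal.ofReal ρ *
            ‖((1 : ℝ) : ℂ) * (((Omw ρ w z : ℝ) : ℂ) * W.V v z - W.V (vw W ρ v w) z)‖ₑ ^ 2 +
            ENNReal.ofReal (1 / ρ) * ‖((Omw ρ w z : ℝ) : ℂ) * W.V u z‖ₑ ^ 2) ∂dA := by
          refine lintegral_mono fun z => ?_
          simp only [Complex.ofReal_one, one_mul]
          rw [← ofReal_norm, ← ofReal_norm, ← ofReal_norm, ← ENNReal.ofReal_pow (norm_nonneg _),
            ← ENNReal.ofReal_pow (norm_nonneg _), ← ENNReal.ofReal_mul hρ0.le,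
            ← ENNReal.ofReal_mul (by positivity), ← ENNReal.ofReal_add (by positivity)
              (by positivity)]
          refine ENNReal.ofReal_le_ofReal ?_
          rw [norm_neg, norm_mul, RCLike.norm_conj]
          generalize ‖((Omw ρ w z : ℝ) : ℂ) * W.V v z - W.V (vw W ρ v w) z‖ = a
          generalize ‖((Omw ρ w z : ℝ) : ℂ) * W.V u z‖ = b
          have h1 : 0 ≤ (ρ * a - b) ^ 2 := sq_nonneg _
          have h2 : 0 ≤ (ρ * a) ^ 2 + b ^ 2 := by positivity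
          have h3 : a * b ≤ ((ρ * a) ^ 2 + b ^ 2) / ρ := by
            rw [le_div_iff₀ hρ0]
            nlinarith
          refine h3.trans (le_of_eq ?_)
          field_simp
      _ = ENNReal.ofReal ρ * S2 (fun _ => 1) (fun z => ((Omw ρ w z : ℝ) : ℂ) * W.V v z -
            W.V (vw W ρ v w) z) + ENNReal.ofReal (1 / ρ) * S2 (Omw ρ w) (W.V u) := by
          unfold S2
          rw [lintegral_add_left, lintegral_const_mul' _ _ ENNReal.ofReal_ne_top,
            lintegral_const_mul' _ _ ENNReal.ofReal_ne_top]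
          have := V_cont W (vw W ρ v w)
          have h5 : Continuous fun z => ((1 : ℝ) : ℂ) * (((Omw ρ w z : ℝ) : ℂ) * W.V v z -
            W.V (vw W ρ v w) z) := continuous_const.mul (hcv.sub this)
          exact (h5.measurable.enorm.pow_const 2).const_mul _
      _ ≤ _ := by gcongr
  have hfin : ENNReal.ofReal ρ * (ENNReal.ofReal C * (ENNReal.ofReal ((1 / ρ) ^ 2) *
        S2 (Omw ρ w) (W.V v))) + ENNReal.ofReal (1 / ρ) * S2 (Omw ρ w) (W.V u) ≠ ⊤ := by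
    have := hfv.ne
    have := hfu.ne
    finiteness
  have h3 : ‖∫ z, -(conj (((Omw ρ w z : ℝ) : ℂ) * W.V v z - W.V (vw W ρ v w) z) *
        (((Omw ρ w z : ℝ) : ℂ) * W.V u z)) ∂dA‖ₑ ≤ _ :=
    (enorm_integral_le_lintegral_enorm _).trans hb
  have h4 := ENNReal.toReal_mono hfin h3
  rw [toReal_enorm, ENNReal.toReal_add (by have := hfv.ne; finiteness)
    (by have := hfu.ne; finiteness), ENNReal.toReal_mul, ENNReal.toReal_mul, ENNReal.toReal_mul,
    ENNReal.toReal_mul, ENNReal.toReal_ofReal hρ0.le, ENNReal.toReal_ofReal hC.le,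
    ENNReal.toReal_ofReal (by positivity), ENNReal.toReal_ofReal (by positivity)] at h4
  refine h4.trans ?_
  have p1 : 0 ≤ (S2 (Omw ρ w) (W.V v)).toReal := ENNReal.toReal_nonneg
  have p2 : 0 ≤ (S2 (Omw ρ w) (W.V u)).toReal := ENNReal.toReal_nonneg
  have e5 : ρ * (C * ((1 / ρ) ^ 2 * (S2 (Omw ρ w) (W.V v)).toReal)) +
      1 / ρ * (S2 (Omw ρ w) (W.V u)).toReal =
      (C * (S2 (Omw ρ w) (W.V v)).toReal + (S2 (Omw ρ w) (W.V u)).toReal) / ρ := by
    field_simp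
  have e6 : (C + 1) / ρ * ((S2 (Omw ρ w) (W.V v)).toReal + (S2 (Omw ρ w) (W.V u)).toReal) =
      ((C + 1) * ((S2 (Omw ρ w) (W.V v)).toReal + (S2 (Omw ρ w) (W.V u)).toReal)) / ρ := by
    ring
  rw [e5, e6]
  refine div_le_div_of_nonneg_right ?_ hρ0.le
  nlinarith

/-- the integral of the main term -/
private theorem l4a_M (W : Weyl H) {ρ : ℝ} (hρ : 1 ≤ ρ) (v u : H) :
    Integrable (l4aM W ρ v u) dA ∧ ∫ w, l4aM W ρ v u w ∂dA = nrho ρ * inner ℂ v u := by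
  have hLi := fun z : ℂ => Omw_lintegral hρ z
  have hOi : ∀ z : ℂ, Integrable (fun w => Omw ρ w z ^ 2) dA := by
    intro z
    have hc : Continuous fun w : ℂ => Omw ρ w z ^ 2 :=
      ((l4a_joint ρ).comp (continuous_id.prodMk continuous_const)).pow 2
    refine ⟨hc.aestronglyMeasurable, ?_⟩
    unfold HasFiniteIntegral
    have : ∀ w : ℂ, ‖Omw ρ w z ^ 2‖ₑ = ENNReal.ofReal (Omw ρ w z ^ 2) := fun w => by
      rw [← ofReal_norm, Real.norm_of_nonneg (sq_nonneg _)]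
    simp only [this]
    rw [hLi z]
    exact ENNReal.ofReal_lt_top
  have hOv : ∀ z : ℂ, ∫ w, Omw ρ w z ^ 2 ∂dA = nrho ρ := by
    intro z
    have h1 := ofReal_integral_eq_lintegral_ofReal (hOi z)
      (Eventually.of_forall fun w => sq_nonneg _)
    rw [hLi z] at h1
    have h2 := congrArg ENNReal.toReal h1
    rwa [ENNReal.toReal_ofReal (integral_nonneg fun w => sq_nonneg _),
      ENNReal.toReal_ofReal (nrho_pos hρ).le] at h2
  have hg : Integrable (fun z => conj (W.V v z) * W.V u z) dA := by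
    have := (V_memLp W v).star.integrable_mul (V_memLp W u)
    exact this
  have hjc : Continuous fun p : ℂ × ℂ =>
      ((Omw ρ p.1 p.2 ^ 2 : ℝ) : ℂ) * (conj (W.V v p.2) * W.V u p.2) := by
    have h1 := l4a_joint ρ
    have h2 := V_cont W v
    have h3 := V_cont W u
    have h4 : Continuous fun p : ℂ × ℂ => conj (W.V v p.2) :=
      Complex.continuous_conj.comp (h2.comp continuous_snd)
    exact (Complex.continuous_ofReal.comp (h1.pow 2)).mul (h4.mul (h3.comp continuous_snd))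
  have hI : Integrable (fun p : ℂ × ℂ =>
      ((Omw ρ p.1 p.2 ^ 2 : ℝ) : ℂ) * (conj (W.V v p.2) * W.V u p.2)) (dA.prod dA) := by
    rw [integrable_prod_iff' hjc.aestronglyMeasurable]
    refine ⟨Eventually.of_forall fun z => ?_, ?_⟩
    · have h5 : Integrable (fun w => ((Omw ρ w z ^ 2 : ℝ) : ℂ)) dA := (hOi z).ofReal (𝕜 := ℂ)
      exact h5.mul_const (conj (W.V v z) * W.V u z)
    · have : (fun z => ∫ w, ‖((Omw ρ w z ^ 2 : ℝ) : ℂ) * (conj (W.V v z) * W.V u z)‖ ∂dA) =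
          fun z => nrho ρ * ‖conj (W.V v z) * W.V u z‖ := by
        funext z
        have e : ∀ w : ℂ, ‖((Omw ρ w z ^ 2 : ℝ) : ℂ) * (conj (W.V v z) * W.V u z)‖ =
            Omw ρ w z ^ 2 * ‖conj (W.V v z) * W.V u z‖ := fun w => by
          rw [norm_mul, Complex.norm_real, Real.norm_of_nonneg (sq_nonneg _)]
        simp only [e]
        rw [integral_mul_const, hOv z]
      rw [this]
      exact hg.norm.const_mul _
  refine ⟨hI.integral_prod_left, ?_⟩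
  have hswap := integral_integral_swap (f := fun w z : ℂ =>
    ((Omw ρ w z ^ 2 : ℝ) : ℂ) * (conj (W.V v z) * W.V u z)) hI
  unfold l4aM
  rw [hswap, inner_eq W v u, ← integral_const_mul]
  refine integral_congr_ae (Eventually.of_forall fun z => ?_)
  simp only
  rw [integral_mul_const, integral_complex_ofReal, hOv z]

theorem L4a (C0 : ℝ) : ∃ C : ℝ, 0 < C ∧ ∀ (H : Type) [NormedAddCommGroup H]
    [InnerProductSpace ℂ H] [CompleteSpace H] (W : Weyl H) (N : ℕ) (ξ : ℝ → ℂ), 0 < N →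
    Bd (muN N) C0 ξ → ∀ (ρ : ℝ) (v : H), 1 ≤ ρ →
    Integrable (fun w => (inner ℂ (vw W ρ v w) (XL W (muN N) ξ (vw W ρ v w)) : ℂ).re) dA ∧
    |∫ w, (inner ℂ (vw W ρ v w) (XL W (muN N) ξ (vw W ρ v w)) : ℂ).re ∂dA -
      nrho ρ * (inner ℂ v (XL W (muN N) ξ v) : ℂ).re| ≤ C / ρ * nrho ρ * ‖v‖ ^ 2 := by
  obtain ⟨C1, hC1, h1⟩ := l4a_comm C0
  obtain ⟨C2, hC2, h2⟩ := l4a_main
  refine ⟨(1 + C1) + C2 * (1 + C0 ^ 2), by positivity, ?_⟩
  intro H _ _ _ W N ξ hN hξ ρ v hρ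
  have := muN_prob hN
  have hρ0 : 0 < ρ := by linarith
  have hC0 : 0 ≤ C0 := by
    obtain ⟨t, ht⟩ := hξ.bd.exists
    exact (norm_nonneg _).trans ht
  have hX : ‖XL W (muN N) ξ‖ ≤ C0 := norm_XL_le W hC0 hξ
  set X := XL W (muN N) ξ with hXdef
  have hXv : ‖X v‖ ^ 2 ≤ C0 ^ 2 * ‖v‖ ^ 2 := by
    rw [← mul_pow]
    exact pow_le_pow_left₀ (norm_nonneg _) (X.le_of_opNorm_le hX v) 2
  obtain ⟨mi, mv⟩ := l4a_mass W hρ v
  obtain ⟨mi', mv'⟩ := l4a_mass W hρ (X v)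
  obtain ⟨Mi, Mv⟩ := l4a_M W hρ v (X v)
  have hcv := vw_cont W hρ v
  have hAc : Continuous fun w => (inner ℂ (vw W ρ v w) (X (vw W ρ v w)) : ℂ).re :=
    Complex.continuous_re.comp (hcv.inner (X.continuous.comp hcv))
  have hAi : Integrable (fun w => (inner ℂ (vw W ρ v w) (X (vw W ρ v w)) : ℂ).re) dA := by
    refine Integrable.mono' (mi.const_mul C0) hAc.aestronglyMeasurable
      (Eventually.of_forall fun w => ?_)
    rw [Real.norm_eq_abs]
    refine (Complex.abs_re_le_norm _).trans ((norm_inner_le_norm _ _).trans ?_)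
    calc ‖vw W ρ v w‖ * ‖X (vw W ρ v w)‖ ≤ ‖vw W ρ v w‖ * (C0 * ‖vw W ρ v w‖) :=
          mul_le_mul_of_nonneg_left (X.le_of_opNorm_le hX _) (norm_nonneg _)
      _ = C0 * ‖vw W ρ v w‖ ^ 2 := by ring
      _ ≤ C0 * (S2 (Omw ρ w) (W.V v)).toReal := by
          exact mul_le_mul_of_nonneg_left (l4a_upper W hρ v w) hC0
  refine ⟨hAi, ?_⟩
  have hMr : ∫ w, (l4aM W ρ v (X v) w).re ∂dA = nrho ρ * (inner ℂ v (X v) : ℂ).re := by
    have := integral_re Mi
    have h3 : ∫ w, (l4aM W ρ v (X v) w).re ∂dA = (∫ w, l4aM W ρ v (X v) w ∂dA).re := by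
      simpa using this
    rw [h3, Mv]
    simp
  have Mi' : Integrable (fun w => (l4aM W ρ v (X v) w).re) dA := Mi.re
  rw [← hMr, ← integral_sub hAi Mi']
  have hpt : ∀ w, ‖(inner ℂ (vw W ρ v w) (X (vw W ρ v w)) : ℂ).re - (l4aM W ρ v (X v) w).re‖ ≤
      ((1 + C1) + C2) / ρ * (S2 (Omw ρ w) (W.V v)).toReal +
        C2 / ρ * (S2 (Omw ρ w) (W.V (X v))).toReal := by
    intro w
    have a1 := h1 H W N ξ hN hC0 hξ ρ v w hρ
    have a2 := h2 H W ρ v (X v) w hρ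
    have a3 := l4a_upper W hρ v w
    rw [← hXdef] at a1
    have e : inner ℂ (vw W ρ v w) (X (vw W ρ v w)) - l4aM W ρ v (X v) w =
        inner ℂ (vw W ρ v w) (X (vw W ρ v w) - vw W ρ (X v) w) +
          (inner ℂ (vw W ρ v w) (vw W ρ (X v) w) - l4aM W ρ v (X v) w) := by
      rw [inner_sub_right]
      ring
    rw [← Complex.sub_re, Real.norm_eq_abs]
    refine (Complex.abs_re_le_norm _).trans ?_
    rw [e]
    refine (norm_add_le _ _).trans ?_
    have a4 : ‖inner ℂ (vw W ρ v w) (X (vw W ρ v w) - vw W ρ (X v) w)‖ ≤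
        (1 + C1) / ρ * (S2 (Omw ρ w) (W.V v)).toReal := by
      refine (norm_inner_le_norm _ _).trans ?_
      set a := ‖vw W ρ v w‖
      set b := ‖X (vw W ρ v w) - vw W ρ (X v) w‖
      set S := (S2 (Omw ρ w) (W.V v)).toReal
      have s1 : a * b ≤ (a ^ 2 + (ρ * b) ^ 2) / ρ := by
        rw [le_div_iff₀ hρ0]
        nlinarith [sq_nonneg (a - ρ * b), sq_nonneg a, sq_nonneg (ρ * b)]
      refine s1.trans ?_
      rw [div_mul_eq_mul_div]
      refine div_le_div_of_nonneg_right ?_ hρ0.le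
      have s2 : (ρ * b) ^ 2 ≤ C1 * S := by
        calc (ρ * b) ^ 2 = ρ ^ 2 * b ^ 2 := by ring
          _ ≤ ρ ^ 2 * (C1 / ρ ^ 2 * S) := by gcongr
          _ = C1 * S := by field_simp
      nlinarith
    calc _ ≤ (1 + C1) / ρ * (S2 (Omw ρ w) (W.V v)).toReal +
          C2 / ρ * ((S2 (Omw ρ w) (W.V v)).toReal + (S2 (Omw ρ w) (W.V (X v))).toReal) :=
          add_le_add a4 a2
      _ = _ := by ring
  refine (norm_integral_le_of_norm_le
    ((mi.const_mul (((1 + C1) + C2) / ρ)).add (mi'.const_mul (C2 / ρ)))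
    (Eventually.of_forall hpt)).trans ?_
  simp only [Pi.add_apply]
  rw [integral_add (mi.const_mul _) (mi'.const_mul _), integral_const_mul, integral_const_mul,
    mv, mv']
  have hn := nrho_pos hρ
  calc ((1 + C1) + C2) / ρ * (nrho ρ * ‖v‖ ^ 2) + C2 / ρ * (nrho ρ * ‖X v‖ ^ 2)
      ≤ ((1 + C1) + C2) / ρ * (nrho ρ * ‖v‖ ^ 2) + C2 / ρ * (nrho ρ * (C0 ^ 2 * ‖v‖ ^ 2)) := by
        gcongr
    _ = _ := by ring

end Pool.Agent.Helper84.HRT
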