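import Mathlib
import Pool.Agent.Helper84.HRT.DefsA
import Pool.Agent.Helper84.HRT.WD
import Pool.Agent.Helper84.HRT.YK
import Pool.Agent.Helper84.HRT.VS
import Pool.Agent.Helper84.HRT.XB
import Pool.Agent.Helper84.HRT.L1A
import Pool.Agent.Helper84.HRT.L1B

open MeasureTheory Complex Filter
open scoped ENNReal ComplexConjugate InnerProductSpace BigOperators Topology

namespace Pool.Agent.Helper84.HRT

variable {H : Type} [NormedAddCommGroup H] [InnerProductSpace ℂ H] [CompleteSpace H]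

theorem l1h_cont {Y : ℂ → ℝ} (hY : LogLip Y) : Continuous Y := by
  have h1 : LipschitzWith 1 fun z => Real.log (Y z) := by
    refine LipschitzWith.of_le_add fun z ζ => ?_
    have h := Real.log_le_log (hY.pos z) (hY.le z ζ)
    rwa [Real.log_mul (hY.pos ζ).ne' (Real.exp_pos _).ne', Real.log_exp, ← dist_eq_norm] at h
  have h2 : Y = fun z => Real.exp (Real.log (Y z)) :=
    funext fun z => (Real.exp_log (hY.pos z)).symm
  rw [h2]
  exact Real.continuous_exp.comp h1.continuous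

theorem l1h_sq (x y : ℂ) : ‖x + y‖ₑ ^ 2 ≤ 2 * ‖x‖ₑ ^ 2 + 2 * ‖y‖ₑ ^ 2 := by
  have hc : ∀ z : ℂ, ‖z‖ₑ ^ 2 = ENNReal.ofReal (‖z‖ ^ 2) := fun z => by
    rw [← ofReal_norm, ENNReal.ofReal_pow (norm_nonneg z)]
  have h2 : (2 : ℝ≥0∞) = ENNReal.ofReal 2 := by simp
  rw [hc, hc, hc, h2, ← ENNReal.ofReal_mul zero_le_two, ← ENNReal.ofReal_mul zero_le_two,
    ← ENNReal.ofReal_add (by positivity) (by positivity)]
  refine ENNReal.ofReal_le_ofReal ?_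
  have h := norm_add_le x y
  have h0 := norm_nonneg (x + y)
  nlinarith [sq_nonneg (‖x‖ - ‖y‖), norm_nonneg x, norm_nonneg y]

theorem l1h_tri {Y : ℂ → ℝ} (hY : Continuous Y) (a : ℂ → ℂ) {b : ℂ → ℂ} (hb : Continuous b) :
    S2 Y (fun z => a z + b z) ≤ 2 * S2 Y a + 2 * S2 Y b := by
  unfold S2
  have hm : Measurable fun z => 2 * ‖((Y z : ℝ) : ℂ) * b z‖ₑ ^ 2 := by
    have hc : Continuous fun z => ((Y z : ℝ) : ℂ) * b z :=
      (Complex.continuous_ofReal.comp hY).mul hb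
    exact (hc.measurable.enorm.pow_const 2).const_mul 2
  rw [← lintegral_const_mul' _ _ (by simp), ← lintegral_const_mul' _ _ (by simp),
    ← lintegral_add_right _ hm]
  refine lintegral_mono fun z => ?_
  have h := l1h_sq (((Y z : ℝ) : ℂ) * a z) (((Y z : ℝ) : ℂ) * b z)
  rwa [← mul_add] at h

theorem l1h_one (Ω : ℂ → ℝ) (G : ℂ → ℂ) :
    S2 (fun _ => 1) (fun z => ((Ω z : ℝ) : ℂ) * G z) = S2 Ω G := by
  unfold S2
  simp

theorem l1h_mul (Y Ω : ℂ → ℝ) (G : ℂ → ℂ) :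
    S2 Y (fun z => ((Ω z : ℝ) : ℂ) * G z) = S2 (fun z => Y z * Ω z) G := by
  unfold S2
  refine lintegral_congr fun z => ?_
  rw [Complex.ofReal_mul, mul_assoc]

/-- (b) of the paper, on the level of vectors -/
theorem L1H (C0 : ℝ) : ∃ C : ℝ, 0 < C ∧ ∀ (H : Type) [NormedAddCommGroup H]
    [InnerProductSpace ℂ H] [CompleteSpace H] (W : Weyl H) (D : Data) (μ : Measure ℝ)
    [IsProbabilityMeasure μ] (γ : Fin D.m → ℂ) (ξ : ℝ → ℂ), ∑ i, ‖D.β i‖ ≤ C0 →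
    (∀ i, ‖γ i‖ ≤ 1) → Bd μ C0 ξ → ∀ (Ω s Y : ℂ → ℝ) (G : ℂ → ℂ), IsW Ω s → LogLip Y → Rep G →
    S2 Ω G < ⊤ →
    S2 Y (W.V (Aop W D μ γ ξ (W.Vs fun z => ((Ω z : ℝ) : ℂ) * G z))) ≤
      ENNReal.ofReal C * (S2 (fun z => Y z * Ω z) (actA D μ γ ξ G) +
        S2 (fun z => Y z * s z * Ω z) G) := by
  obtain ⟨C1, hC1, h1⟩ := L1b C0
  obtain ⟨C2, hC2, h2⟩ := Kop_weighted
  refine ⟨2 * max C1 C2, by positivity, ?_⟩
  intro H _ _ _ W D μ _ γ ξ hβ hγ hξ Ω s Y G hΩ hY hG hfin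
  have hC : (0 : ℝ) < 2 * max C1 C2 := by positivity
  by_cases htop : S2 (fun z => Y z * Ω z) (actA D μ γ ξ G) = ⊤
  · rw [htop, top_add, ENNReal.mul_top]
    · exact le_top
    · exact (ENNReal.ofReal_pos.2 hC).ne'
  have hGc : Continuous G := hG.cont
  have hFc : Continuous fun z => ((Ω z : ℝ) : ℂ) * G z :=
    (Complex.continuous_ofReal.comp hΩ.cont).mul hGc
  have hAc : Continuous (actA D μ γ ξ G) := (rep_actA D μ C0 γ ξ hξ G hG).cont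
  have hFc' : Continuous fun z => ((Ω z : ℝ) : ℂ) * actA D μ γ ξ G z :=
    (Complex.continuous_ofReal.comp hΩ.cont).mul hAc
  have hF1 : S2 (fun _ => 1) (fun z => ((Ω z : ℝ) : ℂ) * G z) < ⊤ := by
    rw [l1h_one]; exact hfin
  have hV : W.V (W.Vs fun z => ((Ω z : ℝ) : ℂ) * G z) =
      Kop (fun z => ((Ω z : ℝ) : ℂ) * G z) :=
    funext fun z => V_Vs W _ hFc.aestronglyMeasurable hF1 z
  have hK : Continuous (Kop fun z => ((Ω z : ℝ) : ℂ) * actA D μ γ ξ G z) := by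
    refine Kop_continuous Y hY _ hFc'.aestronglyMeasurable ?_
    rw [l1h_mul]
    exact lt_top_iff_ne_top.2 htop
  have heq : W.V (Aop W D μ γ ξ (W.Vs fun z => ((Ω z : ℝ) : ℂ) * G z)) = fun z =>
      (actA D μ γ ξ (Kop fun ζ => ((Ω ζ : ℝ) : ℂ) * G ζ) z -
        Kop (fun ζ => ((Ω ζ : ℝ) : ℂ) * actA D μ γ ξ G ζ) z) +
        Kop (fun ζ => ((Ω ζ : ℝ) : ℂ) * actA D μ γ ξ G ζ) z := by
    funext z
    rw [V_Aop W hξ D γ _ z, hV, sub_add_cancel]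
  rw [heq]
  refine (l1h_tri (l1h_cont hY) _ hK).trans ?_
  have e1 := h1 D μ γ ξ hβ hγ hξ Ω s Y G hΩ hY hG hfin
  have e2 := h2 Y (fun ζ => ((Ω ζ : ℝ) : ℂ) * actA D μ γ ξ G ζ) hY hFc'.aestronglyMeasurable
  rw [l1h_mul] at e2
  have m1 : ENNReal.ofReal C1 ≤ ENNReal.ofReal (max C1 C2) :=
    ENNReal.ofReal_le_ofReal (le_max_left _ _)
  have m2 : ENNReal.ofReal C2 ≤ ENNReal.ofReal (max C1 C2) :=
    ENNReal.ofReal_le_ofReal (le_max_right _ _)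
  have h2' : (2 : ℝ≥0∞) = ENNReal.ofReal 2 := by simp
  rw [ENNReal.ofReal_mul zero_le_two, ← h2']
  calc _ ≤ 2 * (ENNReal.ofReal (max C1 C2) * S2 (fun z => Y z * s z * Ω z) G) +
        2 * (ENNReal.ofReal (max C1 C2) * S2 (fun z => Y z * Ω z) (actA D μ γ ξ G)) := by
        gcongr
        · exact e1.trans (by gcongr)
        · exact e2.trans (by gcongr)
    _ = _ := by ring

theorem l1h_logLip_one : LogLip (fun _ => 1) where
  pos := fun _ => one_pos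
  le := fun z ζ => by
    rw [one_mul]
    exact Real.one_le_exp (norm_nonneg _)

/-- the norm of `Vs (Ω G)` -/
theorem L1N : ∃ c1 : ℝ, 0 < c1 ∧ ∀ (H : Type) [NormedAddCommGroup H]
    [InnerProductSpace ℂ H] [CompleteSpace H] (W : Weyl H) (Ω s : ℂ → ℝ) (G : ℂ → ℂ),
    IsW Ω s → (∀ z, s z ≤ c1) → Rep G → S2 Ω G < ⊤ →
    ENNReal.ofReal (‖W.Vs fun z => ((Ω z : ℝ) : ℂ) * G z‖ ^ 2) ≤ S2 Ω G ∧
    S2 Ω G ≤ 4 * ENNReal.ofReal (‖W.Vs fun z => ((Ω z : ℝ) : ℂ) * G z‖ ^ 2) := by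
  obtain ⟨C, hC, h1⟩ := L1a
  refine ⟨Real.sqrt (1 / (4 * C)), Real.sqrt_pos.2 (by positivity), ?_⟩
  intro H _ _ _ W Ω s G hΩ hs hG hfin
  have hFc : Continuous fun z => ((Ω z : ℝ) : ℂ) * G z :=
    (Complex.continuous_ofReal.comp hΩ.cont).mul hG.cont
  have hF1 : S2 (fun _ => 1) (fun z => ((Ω z : ℝ) : ℂ) * G z) < ⊤ := by
    rw [l1h_one]; exact hfin
  have hn := norm_Vs W _ hFc.aestronglyMeasurable hF1
  rw [l1h_one] at hn
  refine ⟨hn, ?_⟩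
  have hV : W.V (W.Vs fun z => ((Ω z : ℝ) : ℂ) * G z) =
      Kop (fun z => ((Ω z : ℝ) : ℂ) * G z) :=
    funext fun z => V_Vs W _ hFc.aestronglyMeasurable hF1 z
  have hKc : Continuous (Kop fun z => ((Ω z : ℝ) : ℂ) * G z) :=
    Kop_continuous (fun _ => 1) l1h_logLip_one _ hFc.aestronglyMeasurable hF1
  have hKn : S2 (fun _ => 1) (Kop fun z => ((Ω z : ℝ) : ℂ) * G z) =
      ENNReal.ofReal (‖W.Vs fun z => ((Ω z : ℝ) : ℂ) * G z‖ ^ 2) := by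
    rw [← hV, S2_V]
  have e1 := h1 Ω s (fun _ => 1) G hΩ l1h_logLip_one hG hfin
  -- the error term
  have hsm : ENNReal.ofReal C * S2 (fun z => 1 * s z * Ω z) G ≤ 4⁻¹ * S2 Ω G := by
    have hs2 : ∀ z, ‖((1 * s z * Ω z : ℝ) : ℂ) * G z‖ₑ ^ 2 ≤
        ENNReal.ofReal (1 / (4 * C)) * ‖((Ω z : ℝ) : ℂ) * G z‖ₑ ^ 2 := by
      intro z
      have e : ((1 * s z * Ω z : ℝ) : ℂ) * G z = ((s z : ℝ) : ℂ) * (((Ω z : ℝ) : ℂ) * G z) := by
        push_cast; ring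
      rw [e, enorm_mul, mul_pow]
      gcongr
      rw [← ofReal_norm, ← ENNReal.ofReal_pow (norm_nonneg _)]
      refine ENNReal.ofReal_le_ofReal ?_
      rw [Complex.norm_real, Real.norm_eq_abs, sq_abs]
      calc s z ^ 2 ≤ Real.sqrt (1 / (4 * C)) ^ 2 := by
            exact pow_le_pow_left₀ (hΩ.s_nonneg z) (hs z) 2
        _ = 1 / (4 * C) := Real.sq_sqrt (by positivity)
    have hs3 : S2 (fun z => 1 * s z * Ω z) G ≤ ENNReal.ofReal (1 / (4 * C)) * S2 Ω G := by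
      unfold S2
      rw [← lintegral_const_mul' _ _ (by simp)]
      exact lintegral_mono hs2
    calc _ ≤ ENNReal.ofReal C * (ENNReal.ofReal (1 / (4 * C)) * S2 Ω G) := by gcongr
      _ = 4⁻¹ * S2 Ω G := by
        rw [← mul_assoc, ← ENNReal.ofReal_mul hC.le]
        congr 1
        have : C * (1 / (4 * C)) = 4⁻¹ := by field_simp
        rw [this, ENNReal.ofReal_inv_of_pos (by norm_num)]
        simp
  have htri := l1h_tri (Y := fun _ => (1 : ℝ)) continuous_const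
    (fun z => ((Ω z : ℝ) : ℂ) * G z - Kop (fun ζ => ((Ω ζ : ℝ) : ℂ) * G ζ) z) hKc
  have hsimp : (fun z => (((Ω z : ℝ) : ℂ) * G z - Kop (fun ζ => ((Ω ζ : ℝ) : ℂ) * G ζ) z) +
      Kop (fun z => ((Ω z : ℝ) : ℂ) * G z) z) = fun z => ((Ω z : ℝ) : ℂ) * G z :=
    funext fun z => sub_add_cancel _ _
  rw [hsimp, l1h_one, hKn] at htri
  have h3 : S2 Ω G ≤ 2 * (4⁻¹ * S2 Ω G) +
      2 * ENNReal.ofReal (‖W.Vs fun z => ((Ω z : ℝ) : ℂ) * G z‖ ^ 2) := by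
    refine htri.trans ?_
    gcongr
    exact e1.trans hsm
  set A := S2 Ω G with hA
  set B := ENNReal.ofReal (‖W.Vs fun z => ((Ω z : ℝ) : ℂ) * G z‖ ^ 2) with hB
  have hAne : A ≠ ⊤ := hfin.ne
  have hBne : B ≠ ⊤ := ENNReal.ofReal_ne_top
  rw [← ENNReal.toReal_le_toReal hAne (by finiteness)] at h3 ⊢
  rw [ENNReal.toReal_add (by finiteness) (by finiteness)] at h3
  simp only [ENNReal.toReal_mul, ENNReal.toReal_inv, ENNReal.toReal_ofNat] at h3 ⊢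
  linarith

end Pool.Agent.Helper84.HRT
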