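import Mathlib
import Pool.Agent.Helper84.HRT.DefsA
import Pool.Agent.Helper84.HRT.WB
import Pool.Agent.Helper84.HRT.YG
import Pool.Agent.Helper84.HRT.YK
import Pool.Agent.Helper84.HRT.WD
import Pool.Agent.Helper84.HRT.VS
import Pool.Agent.Helper84.HRT.XA
import Pool.Agent.Helper84.HRT.XB
import Pool.Agent.Helper84.HRT.L1A
import Pool.Agent.Helper84.HRT.L1H
import Pool.Agent.Helper84.HRT.L4O

open MeasureTheory Complex Filter
open scoped ENNReal ComplexConjugate InnerProductSpace BigOperators Topology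

namespace Pool.Agent.Helper84.HRT

variable {H : Type} [NormedAddCommGroup H] [InnerProductSpace ℂ H] [CompleteSpace H]

private theorem l4b_Om_pos (ρ : ℝ) (w z : ℂ) : 0 < Omw ρ w z := by
  unfold Omw; positivity

private theorem l4b_Om_le_one {ρ : ℝ} (hρ : 0 < ρ) (w z : ℂ) : Omw ρ w z ≤ 1 := by
  unfold Omw
  refine Real.exp_le_one_iff.mpr ?_
  rw [neg_div]
  have : 0 ≤ Real.sqrt (1 + ‖z - w‖ ^ 2) / ρ := by positivity
  linarith

private theorem l4b_S2 (Ω : ℂ → ℝ) (G : ℂ → ℂ) :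
    S2 Ω G = ∫⁻ z, ENNReal.ofReal (Ω z ^ 2) * ‖G z‖ₑ ^ 2 ∂dA := by
  unfold S2
  refine lintegral_congr fun z => ?_
  rw [enorm_mul, mul_pow]
  congr 1
  rw [← ofReal_norm, Complex.norm_real, Real.norm_eq_abs, ← ENNReal.ofReal_pow (abs_nonneg _),
    sq_abs]

private theorem l4b_S2_one (Ω : ℂ → ℝ) (G : ℂ → ℂ) :
    S2 (fun _ => 1) (fun z => ((Ω z : ℝ) : ℂ) * G z) = S2 Ω G := by
  unfold S2
  refine lintegral_congr fun z => ?_
  simp

private theorem l4b_S2_mono {Ω Ω' : ℂ → ℝ} {c : ℝ} (hc : 0 ≤ c)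
    (h : ∀ z, Ω z ^ 2 ≤ c * Ω' z ^ 2) (G : ℂ → ℂ) :
    S2 Ω G ≤ ENNReal.ofReal c * S2 Ω' G := by
  rw [l4b_S2, l4b_S2, ← lintegral_const_mul' _ _ ENNReal.ofReal_ne_top]
  refine lintegral_mono fun z => ?_
  rw [← mul_assoc, ← ENNReal.ofReal_mul hc]
  gcongr
  exact h z

private theorem l4b_joint (ρ : ℝ) : Continuous fun p : ℂ × ℂ => Omw ρ p.1 p.2 := by
  unfold Omw; fun_prop

private theorem l4b_jm (ρ : ℝ) {G : ℂ → ℂ} (hG : Measurable G) :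
    Measurable fun p : ℂ × ℂ => ENNReal.ofReal (Omw ρ p.1 p.2 ^ 2) * ‖G p.2‖ₑ ^ 2 := by
  have h1 : Measurable fun p : ℂ × ℂ => Omw ρ p.1 p.2 := (l4b_joint ρ).measurable
  have h2 : Measurable fun p : ℂ × ℂ => G p.2 := hG.comp measurable_snd
  fun_prop

private theorem l4b_meas (ρ : ℝ) {G : ℂ → ℂ} (hG : Measurable G) :
    Measurable fun w => S2 (Omw ρ w) G := by
  simp_rw [l4b_S2]
  exact (l4b_jm ρ hG).lintegral_prod_right'

private theorem l4b_tonelli {ρ : ℝ} (hρ : 1 ≤ ρ) {G : ℂ → ℂ} (hG : Measurable G) :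
    ∫⁻ w, S2 (Omw ρ w) G ∂dA = ENNReal.ofReal (nrho ρ) * S2 (fun _ => 1) G := by
  simp_rw [l4b_S2]
  rw [lintegral_lintegral_swap (f := fun w z => ENNReal.ofReal (Omw ρ w z ^ 2) * ‖G z‖ₑ ^ 2)
    (l4b_jm ρ hG).aemeasurable]
  rw [← lintegral_const_mul' _ _ ENNReal.ofReal_ne_top]
  refine lintegral_congr fun z => ?_
  rw [lintegral_mul_const' _ _ (by finiteness), Omw_lintegral hρ z]
  simp

private theorem l4b_V (W : Weyl H) {ρ : ℝ} (hρ : 1 ≤ ρ) (v : H) :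
    ∫⁻ w, S2 (Omw ρ w) (W.V v) ∂dA = ENNReal.ofReal (nrho ρ * ‖v‖ ^ 2) := by
  rw [l4b_tonelli hρ (V_cont W v).measurable, S2_V, ENNReal.ofReal_mul (nrho_pos hρ).le]

private theorem l4b_fin (W : Weyl H) {ρ : ℝ} (hρ : 1 ≤ ρ) (v : H) (w : ℂ) :
    S2 (Omw ρ w) (W.V v) ≤ ENNReal.ofReal (‖v‖ ^ 2) := by
  have hρ0 : 0 < ρ := by linarith
  have h := l4b_S2_mono (Ω := Omw ρ w) (Ω' := fun _ => 1) (c := 1) zero_le_one (fun z => by
    have h1 := l4b_Om_pos ρ w z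
    have h2 := l4b_Om_le_one hρ0 w z
    nlinarith) (W.V v)
  rwa [S2_V, ENNReal.ofReal_one, one_mul] at h

private theorem l4b_hF (W : Weyl H) (ρ : ℝ) (v : H) (w : ℂ) (hρ : 1 ≤ ρ) :
    Continuous fun z => ((Omw ρ w z : ℝ) : ℂ) * W.V v z := by
  have h1 : Continuous fun z => Omw ρ w z := (Omw_isW hρ w).cont
  have h2 := V_cont W v
  fun_prop

private theorem l4b_Vvw (W : Weyl H) {ρ : ℝ} (hρ : 1 ≤ ρ) (v : H) (w z : ℂ) :
    W.V (vw W ρ v w) z = Kop (fun ζ => ((Omw ρ w ζ : ℝ) : ℂ) * W.V v ζ) z := by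
  unfold vw
  refine V_Vs W _ (l4b_hF W ρ v w hρ).aestronglyMeasurable ?_ z
  rw [l4b_S2_one]
  exact (l4b_fin W hρ v w).trans_lt ENNReal.ofReal_lt_top

private theorem l4b_one_logLip : LogLip (fun _ => (1 : ℝ)) := by
  refine ⟨fun _ => one_pos, fun z ζ => ?_⟩
  have := Real.one_le_exp (norm_nonneg (z - ζ))
  linarith

private theorem l4b_upper (W : Weyl H) {ρ : ℝ} (hρ : 1 ≤ ρ) (v : H) (w : ℂ) :
    ENNReal.ofReal (‖vw W ρ v w‖ ^ 2) ≤ S2 (Omw ρ w) (W.V v) := by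
  have h := norm_Vs W (fun z => ((Omw ρ w z : ℝ) : ℂ) * W.V v z)
    (l4b_hF W ρ v w hρ).aestronglyMeasurable (by
      rw [l4b_S2_one]
      exact (l4b_fin W hρ v w).trans_lt ENNReal.ofReal_lt_top)
  rwa [l4b_S2_one] at h

private theorem l4b_sq (a b ε : ℝ) (hε : 0 < ε) :
    (a + b) ^ 2 ≤ (1 + ε) * a ^ 2 + (1 + 1 / ε) * b ^ 2 := by
  have h : 0 ≤ (Real.sqrt ε * a - b / Real.sqrt ε) ^ 2 := sq_nonneg _
  have hs : 0 < Real.sqrt ε := Real.sqrt_pos.mpr hε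
  have h2 : Real.sqrt ε ^ 2 = ε := Real.sq_sqrt hε.le
  have h3 : (Real.sqrt ε * a - b / Real.sqrt ε) ^ 2 = ε * a ^ 2 - 2 * a * b + 1 / ε * b ^ 2 := by
    have : (Real.sqrt ε * a - b / Real.sqrt ε) ^ 2 =
        Real.sqrt ε ^ 2 * a ^ 2 - 2 * a * b + b ^ 2 / Real.sqrt ε ^ 2 := by
      field_simp
      ring
    rw [this, h2]; ring
  nlinarith

/-- the lower bound for `‖v_w‖²` -/
private theorem l4b_lower : ∃ C : ℝ, 0 < C ∧ ∀ (H : Type) [NormedAddCommGroup H]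
    [InnerProductSpace ℂ H] [CompleteSpace H] (W : Weyl H) (ρ : ℝ) (v : H), 1 ≤ ρ → ∀ w,
    (S2 (Omw ρ w) (W.V v)).toReal ≤ ‖vw W ρ v w‖ ^ 2 +
      C / ρ * (S2 (Omw ρ w) (W.V v)).toReal := by
  obtain ⟨C1, hC1, h1⟩ := L1a
  refine ⟨1 + 2 * C1, by positivity, ?_⟩
  intro H _ _ _ W ρ v hρ w
  have hρ0 : 0 < ρ := by linarith
  set B := S2 (Omw ρ w) (W.V v) with hB
  have hBfin : B ≤ ENNReal.ofReal (‖v‖ ^ 2) := l4b_fin W hρ v w
  have hBt : B ≠ ⊤ := (hBfin.trans_lt ENNReal.ofReal_lt_top).ne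
  set F : ℂ → ℂ := fun z => ((Omw ρ w z : ℝ) : ℂ) * W.V v z with hF
  have hFc : Continuous F := l4b_hF W ρ v w hρ
  have hK : Kop F = W.V (vw W ρ v w) := by
    funext z; exact (l4b_Vvw W hρ v w z).symm
  have hKc : Continuous (Kop F) := by rw [hK]; exact V_cont W _
  have hE := h1 (Omw ρ w) (fun _ => 1 / ρ) (fun _ => 1) (W.V v) (Omw_isW hρ w) l4b_one_logLip
    (rep_V W v) (hBfin.trans_lt ENNReal.ofReal_lt_top)
  have hE2 : S2 (fun z => 1 * (1 / ρ) * Omw ρ w z) (W.V v) ≤ ENNReal.ofReal (1 / ρ ^ 2) * B := by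
    refine l4b_S2_mono (by positivity) (fun z => le_of_eq ?_) _
    ring
  have hE3 : S2 (fun _ => 1) (fun z => F z - Kop F z) ≤ ENNReal.ofReal (C1 / ρ ^ 2) * B := by
    refine hE.trans ?_
    refine (mul_le_mul_right hE2 _).trans (le_of_eq ?_)
    rw [← mul_assoc, ← ENNReal.ofReal_mul hC1.le]
    congr 2
    ring
  have hA : S2 (fun _ => 1) (Kop F) = ENNReal.ofReal (‖vw W ρ v w‖ ^ 2) := by
    rw [hK, S2_V]
  have hmain : B ≤ ENNReal.ofReal (1 + 1 / ρ) * S2 (fun _ => 1) (Kop F) +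
      ENNReal.ofReal (1 + ρ) * S2 (fun _ => 1) (fun z => F z - Kop F z) := by
    have e1 : B = S2 (fun _ => 1) F := by rw [hF, l4b_S2_one]
    rw [e1]
    unfold S2
    rw [← lintegral_const_mul' _ _ ENNReal.ofReal_ne_top,
      ← lintegral_const_mul' _ _ ENNReal.ofReal_ne_top, ← lintegral_add_left]
    · refine lintegral_mono fun z => ?_
      simp only [Complex.ofReal_one, one_mul]
      rw [← ofReal_norm, ← ofReal_norm, ← ofReal_norm, ← ENNReal.ofReal_pow (norm_nonneg _),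
        ← ENNReal.ofReal_pow (norm_nonneg _), ← ENNReal.ofReal_pow (norm_nonneg _),
        ← ENNReal.ofReal_mul (by positivity), ← ENNReal.ofReal_mul (by positivity),
        ← ENNReal.ofReal_add (by positivity) (by positivity)]
      refine ENNReal.ofReal_le_ofReal ?_
      have t : ‖F z‖ ≤ ‖Kop F z‖ + ‖F z - Kop F z‖ := by
        calc ‖F z‖ = ‖Kop F z + (F z - Kop F z)‖ := by congr 1; ring
          _ ≤ _ := norm_add_le _ _
      have t2 := l4b_sq ‖Kop F z‖ ‖F z - Kop F z‖ (1 / ρ) (by positivity)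
      have t3 : 1 / (1 / ρ) = ρ := by field_simp
      rw [t3] at t2
      calc ‖F z‖ ^ 2 ≤ (‖Kop F z‖ + ‖F z - Kop F z‖) ^ 2 := by gcongr
        _ ≤ _ := t2
    · have : Measurable (Kop F) := hKc.measurable
      fun_prop
  rw [hA] at hmain
  have hm2 : B ≤ ENNReal.ofReal ((1 + 1 / ρ) * ‖vw W ρ v w‖ ^ 2) +
      ENNReal.ofReal ((1 + ρ) * (C1 / ρ ^ 2)) * B := by
    refine hmain.trans ?_
    rw [ENNReal.ofReal_mul (by positivity : (0 : ℝ) ≤ 1 + 1 / ρ),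
      ENNReal.ofReal_mul (by positivity : (0 : ℝ) ≤ 1 + ρ), mul_assoc]
    gcongr
  have hup : ‖vw W ρ v w‖ ^ 2 ≤ B.toReal := by
    have := l4b_upper W hρ v w
    rw [← hB] at this
    have h := ENNReal.toReal_mono hBt this
    rwa [ENNReal.toReal_ofReal (by positivity)] at h
  have hr : B.toReal ≤ (1 + 1 / ρ) * ‖vw W ρ v w‖ ^ 2 + (1 + ρ) * (C1 / ρ ^ 2) * B.toReal := by
    have hfin : ENNReal.ofReal ((1 + 1 / ρ) * ‖vw W ρ v w‖ ^ 2) +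
        ENNReal.ofReal ((1 + ρ) * (C1 / ρ ^ 2)) * B ≠ ⊤ := by finiteness
    have h := ENNReal.toReal_mono hfin hm2
    rw [ENNReal.toReal_add (by finiteness) (by finiteness), ENNReal.toReal_mul,
      ENNReal.toReal_ofReal (by positivity), ENNReal.toReal_ofReal (by positivity)] at h
    exact h
  have hb0 : 0 ≤ B.toReal := ENNReal.toReal_nonneg
  have h5 : (1 + ρ) * (C1 / ρ ^ 2) ≤ 2 * C1 / ρ := by
    rw [mul_div_assoc', div_le_div_iff₀ (by positivity) hρ0]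
    nlinarith [mul_nonneg hC1.le (mul_nonneg hρ0.le (by linarith : (0 : ℝ) ≤ ρ - 1))]
  have h6 : (1 + ρ) * (C1 / ρ ^ 2) * B.toReal ≤ 2 * C1 / ρ * B.toReal := by gcongr
  have h7 : 1 / ρ * ‖vw W ρ v w‖ ^ 2 ≤ 1 / ρ * B.toReal := by gcongr
  have h8 : (1 + 2 * C1) / ρ * B.toReal = 1 / ρ * B.toReal + 2 * C1 / ρ * B.toReal := by ring
  rw [h8]
  linarith

theorem L4b : ∃ C : ℝ, 0 < C ∧ ∀ (H : Type) [NormedAddCommGroup H]
    [InnerProductSpace ℂ H] [CompleteSpace H] (W : Weyl H) (ρ : ℝ) (v : H), 1 ≤ ρ →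
    Integrable (fun w => ‖vw W ρ v w‖ ^ 2) dA ∧
    |∫ w, ‖vw W ρ v w‖ ^ 2 ∂dA - nrho ρ * ‖v‖ ^ 2| ≤ C / ρ * nrho ρ * ‖v‖ ^ 2 := by
  obtain ⟨C, hC, hlow⟩ := l4b_lower
  refine ⟨C, hC, ?_⟩
  intro H _ _ _ W ρ v hρ
  have hρ0 : 0 < ρ := by linarith
  have hBt : ∀ w, S2 (Omw ρ w) (W.V v) ≠ ⊤ := fun w =>
    ((l4b_fin W hρ v w).trans_lt ENNReal.ofReal_lt_top).ne
  have hBm : Measurable fun w => S2 (Omw ρ w) (W.V v) := l4b_meas ρ (V_cont W v).measurable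
  have hBI : ∫⁻ w, S2 (Omw ρ w) (W.V v) ∂dA = ENNReal.ofReal (nrho ρ * ‖v‖ ^ 2) := l4b_V W hρ v
  have hbint : Integrable (fun w => (S2 (Omw ρ w) (W.V v)).toReal) dA := by
    refine integrable_toReal_of_lintegral_ne_top hBm.aemeasurable ?_
    rw [hBI]; exact ENNReal.ofReal_ne_top
  have hbI : ∫ w, (S2 (Omw ρ w) (W.V v)).toReal ∂dA = nrho ρ * ‖v‖ ^ 2 := by
    rw [integral_toReal hBm.aemeasurable (Filter.Eventually.of_forall fun w => (hBt w).lt_top),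
      hBI, ENNReal.toReal_ofReal]
    have := (nrho_pos hρ).le
    positivity
  have hup : ∀ w, ‖vw W ρ v w‖ ^ 2 ≤ (S2 (Omw ρ w) (W.V v)).toReal := fun w => by
    have h := ENNReal.toReal_mono (hBt w) (l4b_upper W hρ v w)
    rwa [ENNReal.toReal_ofReal (by positivity)] at h
  have haint : Integrable (fun w => ‖vw W ρ v w‖ ^ 2) dA := by
    refine hbint.mono' ?_ (Filter.Eventually.of_forall fun w => ?_)
    · exact ((vw_cont W hρ v).norm.pow 2).aestronglyMeasurable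
    · rw [Real.norm_of_nonneg (by positivity)]
      exact hup w
  refine ⟨haint, ?_⟩
  have h1 : ∫ w, ‖vw W ρ v w‖ ^ 2 ∂dA ≤ nrho ρ * ‖v‖ ^ 2 := by
    rw [← hbI]
    exact integral_mono haint hbint hup
  have h2 : nrho ρ * ‖v‖ ^ 2 ≤ ∫ w, ‖vw W ρ v w‖ ^ 2 ∂dA + C / ρ * (nrho ρ * ‖v‖ ^ 2) := by
    rw [← hbI, ← integral_const_mul, ← integral_add haint (hbint.const_mul _)]
    exact integral_mono hbint (haint.add (hbint.const_mul _)) (fun w => hlow H W ρ v hρ w)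
  rw [abs_le]
  have h3 : 0 ≤ C / ρ * nrho ρ * ‖v‖ ^ 2 := by
    have := (nrho_pos hρ).le
    positivity
  constructor <;> linarith

theorem L4c (C0 : ℝ) : ∃ C : ℝ, 0 < C ∧ ∀ (H : Type) [NormedAddCommGroup H]
    [InnerProductSpace ℂ H] [CompleteSpace H] (W : Weyl H) (D : Data) (N : ℕ)
    (γ : Fin D.m → ℂ) (ξ : ℝ → ℂ), 0 < N → ∑ i, ‖D.β i‖ ≤ C0 → (∀ i, ‖γ i‖ ≤ 1) →
    Bd (muN N) C0 ξ → ∀ (ρ : ℝ) (v : H), 1 ≤ ρ →
    Integrable (fun w => ‖Aop W D (muN N) γ ξ (vw W ρ v w)‖ ^ 2) dA ∧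
    ∫ w, ‖Aop W D (muN N) γ ξ (vw W ρ v w)‖ ^ 2 ∂dA ≤
      nrho ρ * (C * ‖Aop W D (muN N) γ ξ v‖ ^ 2 + C / ρ ^ 2 * ‖v‖ ^ 2) := by
  obtain ⟨C, hC, hL⟩ := L1H C0
  refine ⟨C, hC, ?_⟩
  intro H _ _ _ W D N γ ξ hN hβ hγ hξ ρ v hρ
  have hρ0 : 0 < ρ := by linarith
  have := muN_prob hN
  set A := Aop W D (muN N) γ ξ with hAdef
  have hAV : actA D (muN N) γ ξ (W.V v) = W.V (A v) := by
    funext z; exact (V_Aop W hξ D γ v z).symm
  have hpt : ∀ w, ENNReal.ofReal (‖A (vw W ρ v w)‖ ^ 2) ≤ ENNReal.ofReal C *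
      (S2 (Omw ρ w) (W.V (A v)) + ENNReal.ofReal (1 / ρ ^ 2) * S2 (Omw ρ w) (W.V v)) := by
    intro w
    have h := hL H W D (muN N) γ ξ hβ hγ hξ (Omw ρ w) (fun _ => 1 / ρ) (fun _ => 1) (W.V v)
      (Omw_isW hρ w) l4b_one_logLip (rep_V W v)
      ((l4b_fin W hρ v w).trans_lt ENNReal.ofReal_lt_top)
    rw [hAV, ← hAdef] at h
    have e : S2 (fun _ => 1) (W.V (A (W.Vs fun z => ((Omw ρ w z : ℝ) : ℂ) * W.V v z))) =
        ENNReal.ofReal (‖A (vw W ρ v w)‖ ^ 2) := by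
      rw [S2_V]; rfl
    rw [e] at h
    refine h.trans ?_
    gcongr
    · simp only [one_mul]; exact le_rfl
    · refine l4b_S2_mono (by positivity) (fun z => le_of_eq ?_) _
      ring
  have hI : ∫⁻ w, ENNReal.ofReal (‖A (vw W ρ v w)‖ ^ 2) ∂dA ≤
      ENNReal.ofReal (nrho ρ * (C * ‖A v‖ ^ 2 + C / ρ ^ 2 * ‖v‖ ^ 2)) := by
    refine (lintegral_mono hpt).trans (le_of_eq ?_)
    have hn := (nrho_pos hρ).le
    rw [lintegral_const_mul' _ _ ENNReal.ofReal_ne_top,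
      lintegral_add_left (l4b_meas ρ (V_cont W (A v)).measurable),
      lintegral_const_mul' _ _ ENNReal.ofReal_ne_top, l4b_V W hρ, l4b_V W hρ,
      ← ENNReal.ofReal_mul (by positivity), ← ENNReal.ofReal_add (by positivity) (by positivity),
      ← ENNReal.ofReal_mul hC.le]
    congr 1
    ring
  have hcont : Continuous fun w => ‖A (vw W ρ v w)‖ ^ 2 :=
    ((A.continuous.comp (vw_cont W hρ v)).norm.pow 2)
  have hnn : 0 ≤ᵐ[dA] fun w => ‖A (vw W ρ v w)‖ ^ 2 :=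
    Filter.Eventually.of_forall fun w => by positivity
  have hint : Integrable (fun w => ‖A (vw W ρ v w)‖ ^ 2) dA := by
    refine ⟨hcont.aestronglyMeasurable, ?_⟩
    rw [hasFiniteIntegral_iff_ofReal hnn]
    exact hI.trans_lt ENNReal.ofReal_lt_top
  refine ⟨hint, ?_⟩
  rw [integral_eq_lintegral_of_nonneg_ae hnn hcont.aestronglyMeasurable]
  refine ENNReal.toReal_le_of_le_ofReal ?_ hI
  have hn := (nrho_pos hρ).le
  positivity

private theorem l4b_int {ρ : ℝ} (hρ : 1 ≤ ρ) : Integrable (fun z => Omw ρ 0 z ^ 2) dA := by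
  by_contra h
  have := nrho_pos hρ
  unfold nrho at this
  rw [integral_undef h] at this
  exact lt_irrefl _ this

/-- doubling of `n_ρ` -/
private theorem l4b_double {ρ : ℝ} (hρ : 1 ≤ ρ) :
    nrho (2 * ρ) ≤ 4 * Real.exp 1 * nrho ρ := by
  have hρ0 : 0 < ρ := by linarith
  have h1 : nrho (2 * ρ) = 4 * ∫ y : ℂ, Omw (2 * ρ) 0 ((2 : ℝ) • y) ^ 2 ∂dA := by
    unfold nrho
    have h := Measure.integral_comp_smul (dA) (fun z : ℂ => Omw (2 * ρ) 0 z ^ 2) (2 : ℝ)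
    rw [h]
    rw [Complex.finrank_real_complex]
    rw [smul_eq_mul]
    norm_num
    ring
  have h2 : ∫ y : ℂ, Omw (2 * ρ) 0 ((2 : ℝ) • y) ^ 2 ∂dA ≤
      ∫ y : ℂ, Real.exp 1 * Omw ρ 0 y ^ 2 ∂dA := by
    refine integral_mono_of_nonneg (Filter.Eventually.of_forall fun y => by positivity)
      ((l4b_int hρ).const_mul _) (Filter.Eventually.of_forall fun y => ?_)
    show Omw (2 * ρ) 0 ((2 : ℝ) • y) ^ 2 ≤ Real.exp 1 * Omw ρ 0 y ^ 2
    unfold Omw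
    rw [← Real.exp_nat_mul, ← Real.exp_nat_mul, ← Real.exp_add]
    refine Real.exp_le_exp.mpr ?_
    rw [sub_zero, sub_zero, norm_smul, Real.norm_eq_abs, abs_of_pos (by norm_num : (0 : ℝ) < 2)]
    set t := ‖y‖ with ht
    have ht0 : 0 ≤ t := norm_nonneg y
    have k1 : 1 ≤ Real.sqrt (1 + (2 * t) ^ 2) := by
      rw [Real.one_le_sqrt]; nlinarith
    have k2 : 1 ≤ Real.sqrt (1 + t ^ 2) := by
      rw [Real.one_le_sqrt]; nlinarith
    have s1 : Real.sqrt (1 + (2 * t) ^ 2) ^ 2 = 1 + (2 * t) ^ 2 := Real.sq_sqrt (by positivity)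
    have s2 : Real.sqrt (1 + t ^ 2) ^ 2 = 1 + t ^ 2 := Real.sq_sqrt (by positivity)
    set a := Real.sqrt (1 + (2 * t) ^ 2)
    set b := Real.sqrt (1 + t ^ 2)
    have k3 : 2 * b ≤ 1 + a := by
      by_contra hcon
      push Not at hcon
      nlinarith
    push_cast
    have e1 : 2 * (-a / (2 * ρ)) = -(a / ρ) := by field_simp
    have e2 : 2 * (-b / ρ) = -(2 * b / ρ) := by ring
    rw [e1, e2]
    have k4 : 2 * b / ρ ≤ (1 + a) / ρ := by gcongr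
    have k5 : (1 + a) / ρ = 1 / ρ + a / ρ := by ring
    have k6 : 1 / ρ ≤ 1 := by rw [div_le_one hρ0]; exact hρ
    linarith
  rw [h1]
  rw [integral_const_mul] at h2
  have h3 : ∫ y : ℂ, Omw ρ 0 y ^ 2 ∂dA = nrho ρ := rfl
  rw [h3] at h2
  linarith

private theorem l4b_w_logLip (w : ℂ) : LogLip (fun z => 1 + ‖z - w‖) := by
  refine ⟨fun z => by positivity, fun z ζ => ?_⟩
  have h1 : ‖z - w‖ ≤ ‖ζ - w‖ + ‖z - ζ‖ := by
    calc ‖z - w‖ = ‖(ζ - w) + (z - ζ)‖ := by congr 1; ring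
      _ ≤ _ := norm_add_le _ _
  have h2 := Real.add_one_le_exp ‖z - ζ‖
  have h3 : 0 ≤ ‖ζ - w‖ := norm_nonneg _
  have h4 : 0 ≤ ‖z - ζ‖ := norm_nonneg _
  calc 1 + ‖z - w‖ ≤ (1 + ‖ζ - w‖) * (‖z - ζ‖ + 1) := by nlinarith
    _ ≤ _ := by gcongr

private theorem l4b_pt {ρ : ℝ} (hρ : 1 ≤ ρ) (w z : ℂ) :
    ((1 + ‖z - w‖) * Omw ρ w z) ^ 2 ≤ (8 * ρ ^ 2) * Omw (2 * ρ) w z ^ 2 := by
  have hρ0 : 0 < ρ := by linarith
  unfold Omw
  rw [mul_pow, ← Real.exp_nat_mul, ← Real.exp_nat_mul]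
  set t := ‖z - w‖ with ht
  have ht0 : 0 ≤ t := norm_nonneg _
  have s2 : Real.sqrt (1 + t ^ 2) ^ 2 = 1 + t ^ 2 := Real.sq_sqrt (by positivity)
  have s3 : 0 ≤ Real.sqrt (1 + t ^ 2) := Real.sqrt_nonneg _
  set b := Real.sqrt (1 + t ^ 2)
  have k1 : (1 + t) ^ 2 ≤ 4 * b ^ 2 := by nlinarith [sq_nonneg (1 - t)]
  have e1 : ((2 : ℕ) : ℝ) * (-b / ρ) = -(b / ρ) + -(b / ρ) := by push_cast; ring
  have e2 : ((2 : ℕ) : ℝ) * (-b / (2 * ρ)) = -(b / ρ) := by push_cast; field_simp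
  rw [e1, e2, Real.exp_add]
  have k2 : (b / ρ) ^ 2 * Real.exp (-(b / ρ)) ≤ 2 := by
    have h := Real.pow_div_factorial_le_exp (b / ρ) (by positivity) 2
    have h2 : (Nat.factorial 2 : ℝ) = 2 := by norm_num [Nat.factorial]
    rw [h2, div_le_iff₀ (by norm_num)] at h
    have h3 : Real.exp (b / ρ) * Real.exp (-(b / ρ)) = 1 := by rw [← Real.exp_add]; simp
    calc (b / ρ) ^ 2 * Real.exp (-(b / ρ)) ≤ (Real.exp (b / ρ) * 2) * Real.exp (-(b / ρ)) := by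
          gcongr
      _ = 2 * (Real.exp (b / ρ) * Real.exp (-(b / ρ))) := by ring
      _ = 2 := by rw [h3]; ring
  have k3 : b ^ 2 * Real.exp (-(b / ρ)) ≤ 2 * ρ ^ 2 := by
    have : b ^ 2 = ρ ^ 2 * (b / ρ) ^ 2 := by field_simp
    rw [this, mul_assoc]
    calc ρ ^ 2 * ((b / ρ) ^ 2 * Real.exp (-(b / ρ))) ≤ ρ ^ 2 * 2 := by gcongr
      _ = _ := by ring
  calc (1 + t) ^ 2 * (Real.exp (-(b / ρ)) * Real.exp (-(b / ρ)))
      ≤ (4 * b ^ 2) * (Real.exp (-(b / ρ)) * Real.exp (-(b / ρ))) := by gcongr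
    _ = 4 * (b ^ 2 * Real.exp (-(b / ρ))) * Real.exp (-(b / ρ)) := by ring
    _ ≤ 4 * (2 * ρ ^ 2) * Real.exp (-(b / ρ)) := by gcongr
    _ = _ := by ring

theorem L4d : ∃ C : ℝ, 0 < C ∧ ∀ (H : Type) [NormedAddCommGroup H]
    [InnerProductSpace ℂ H] [CompleteSpace H] (W : Weyl H) (ρ : ℝ) (v : H), 1 ≤ ρ →
    ∫⁻ w, S2 (fun z => 1 + ‖z‖) (W.V (W.U w (vw W ρ v w))) ∂dA ≤
      ENNReal.ofReal (C * ρ ^ 2 * nrho ρ * ‖v‖ ^ 2) := by
  obtain ⟨C, hC, hK⟩ := Kop_weighted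
  refine ⟨C * 8 * (4 * Real.exp 1), by positivity, ?_⟩
  intro H _ _ _ W ρ v hρ
  have hρ0 : 0 < ρ := by linarith
  have hpt : ∀ w, S2 (fun z => 1 + ‖z‖) (W.V (W.U w (vw W ρ v w))) ≤
      ENNReal.ofReal (C * (8 * ρ ^ 2)) * S2 (Omw (2 * ρ) w) (W.V v) := by
    intro w
    have e1 : S2 (fun z => 1 + ‖z‖) (W.V (W.U w (vw W ρ v w))) =
        S2 (fun z => 1 + ‖z - w‖) (W.V (vw W ρ v w)) := by
      rw [l4b_S2, l4b_S2,
        ← lintegral_add_right_eq_self (fun z => ENNReal.ofReal ((1 + ‖z - w‖) ^ 2) *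
          ‖W.V (vw W ρ v w) z‖ₑ ^ 2) w]
      refine lintegral_congr fun z => ?_
      rw [add_sub_cancel_right, ← ofReal_norm (W.V (W.U w (vw W ρ v w)) z), norm_V_U, ofReal_norm]
    have e2 : W.V (vw W ρ v w) = Kop (fun ζ => ((Omw ρ w ζ : ℝ) : ℂ) * W.V v ζ) := by
      funext z; exact l4b_Vvw W hρ v w z
    rw [e1, e2]
    refine (hK _ _ (l4b_w_logLip w) (l4b_hF W ρ v w hρ).aestronglyMeasurable).trans ?_
    rw [ENNReal.ofReal_mul hC.le, mul_assoc]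
    gcongr
    have e3 : S2 (fun z => 1 + ‖z - w‖) (fun ζ => ((Omw ρ w ζ : ℝ) : ℂ) * W.V v ζ) =
        S2 (fun z => (1 + ‖z - w‖) * Omw ρ w z) (W.V v) := by
      unfold S2
      refine lintegral_congr fun z => ?_
      push_cast
      rw [mul_assoc]
    rw [e3]
    exact l4b_S2_mono (by positivity) (fun z => l4b_pt hρ w z) _
  refine (lintegral_mono hpt).trans ?_
  rw [lintegral_const_mul' _ _ ENNReal.ofReal_ne_top, l4b_V W (by linarith : 1 ≤ 2 * ρ),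
    ← ENNReal.ofReal_mul (by positivity)]
  refine ENNReal.ofReal_le_ofReal ?_
  have hd := l4b_double hρ
  calc C * (8 * ρ ^ 2) * (nrho (2 * ρ) * ‖v‖ ^ 2)
      ≤ C * (8 * ρ ^ 2) * ((4 * Real.exp 1 * nrho ρ) * ‖v‖ ^ 2) := by gcongr
    _ = _ := by ring

end Pool.Agent.Helper84.HRT
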