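import Mathlib
import Pool.Agent.Helper84.HRT.DefsA
import Pool.Agent.Helper84.HRT.WA
import Pool.Agent.Helper84.HRT.WB
import Pool.Agent.Helper84.HRT.WC
import Pool.Agent.Helper84.HRT.XA
import Pool.Agent.Helper84.HRT.XB
import Pool.Agent.Helper84.HRT.XC

open MeasureTheory Complex Filter
open scoped ENNReal ComplexConjugate InnerProductSpace BigOperators Topology

namespace Pool.Agent.Helper84.HRT

variable {H : Type} [NormedAddCommGroup H] [InnerProductSpace ℂ H] [CompleteSpace H]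
variable (W : Weyl H)

private theorem xd_trU (w α : ℂ) (f : H) :
    W.U w (W.U α (W.U (-w) f)) = conj (chi w α) • W.U α f := by
  have h := congrArg (fun T : H →L[ℂ] H => T f) (tr_U W w α)
  exact h

private theorem xd_tr_apply (w : ℂ) (T : H →L[ℂ] H) (f : H) :
    tr W w T f = W.U w (T (W.U (-w) f)) := rfl

private theorem xd_flip (f f' : H) (t : ℝ) (a : ℂ) :
    conj (a * inner ℂ f' (W.U (node t) f)) =
      conj a * inner ℂ f (W.U (node (t + 1 / 2)) f') := by
  rw [map_mul, inner_conj_symm, U_adj, node_add_half]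

private theorem xd_left {μ : Measure ℝ} [IsFiniteMeasure μ] {M : ℝ} {ξ : ℝ → ℂ}
    (h : Bd μ M ξ) (f f' : H) :
    inner ℂ (XL W μ ξ f) f' =
      ∫ t, conj (ξ t) * inner ℂ f (W.U (node (t + 1 / 2)) f') ∂μ := by
  rw [← inner_conj_symm, inner_XL W h, ← integral_conj]
  refine integral_congr_ae (Eventually.of_forall fun t => ?_)
  exact xd_flip W f f' t (ξ t)

theorem XL_sym8 {D : Data} {r : ℝ} {ξ : ℝ → ℂ} (hr : 0 ≤ r) (h : D.Adm r ξ) (f f' : H) :
    inner ℂ (XL W mu8 ξ f) f' = inner ℂ f (XL W mu8 ξ f') := by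
  have hb : Bd mu8 r ξ := Adm.bd8 h hr
  rw [xd_left W hb, inner_XL W hb]
  have hs : ∀ᵐ t : ℝ, ξ (t + 1 / 2 + 1 / 2) = conj (ξ (t + 1 / 2)) :=
    (measurePreserving_add_right (volume : Measure ℝ) (1 / 2 : ℝ)).quasiMeasurePreserving.ae h.sym
  have hp : ∀ᵐ t : ℝ, ξ (t + 1) * inner ℂ f (W.U (node (t + 1)) f') =
      ξ t * inner ℂ f (W.U (node t) f') := by
    filter_upwards [h.sym, hs] with t h1 h2
    have h3 : t + 1 / 2 + 1 / 2 = t + 1 := by ring
    rw [h3, h1, Complex.conj_conj] at h2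
    rw [h2, node_add_one]
  rw [← mu8_shift (fun t => ξ t * inner ℂ f (W.U (node t) f')) hp (1 / 2)]
  refine integral_congr_ae ?_
  unfold mu8
  refine ae_restrict_of_ae ?_
  filter_upwards [h.sym] with t ht
  rw [ht]

theorem XL_symN {D : Data} {N : ℕ} {r : ℝ} {ξ : ℝ → ℂ} (hN : 0 < N) (h2 : 2 ∣ N) (hr : 0 ≤ r)
    (h : D.AdmN N r ξ) (f f' : H) :
    inner ℂ (XL W (muN N) ξ f) f' = inner ℂ f (XL W (muN N) ξ f') := by
  have hb : Bd (muN N) r ξ := AdmN.bdN hN h hr
  rw [xd_left W hb, inner_XL W hb]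
  obtain ⟨k, hk⟩ := h2
  have hk0 : (k : ℝ) ≠ 0 := by
    have : 0 < k := by omega
    exact_mod_cast this.ne'
  have hj : (((k : ℤ) : ℝ)) / N = 1 / 2 := by
    rw [hk]
    push_cast
    field_simp
  have hp : ∀ t, ξ (t + 1) * inner ℂ f (W.U (node (t + 1)) f') =
      ξ t * inner ℂ f (W.U (node t) f') := by
    intro t
    have h3 : t + 1 / 2 + 1 / 2 = t + 1 := by ring
    have h4 := h.sym (t + 1 / 2)
    rw [h3, h.sym, Complex.conj_conj] at h4
    rw [h4, node_add_one]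
  rw [← muN_shift hN (fun t => ξ t * inner ℂ f (W.U (node t) f')) hp (k : ℤ)]
  refine integral_congr_ae (Eventually.of_forall fun t => ?_)
  change conj (ξ t) * inner ℂ f (W.U (node (t + 1 / 2)) f') =
    ξ (t + ((k : ℤ) : ℝ) / N) * inner ℂ f (W.U (node (t + ((k : ℤ) : ℝ) / N)) f')
  rw [hj, h.sym]

theorem tr_Bop (D : Data) (w : ℂ) (γ : Fin D.m → ℂ) :
    tr W w (Bop W D γ) = Bop W D (D.tw w γ) := by
  ext f
  rw [xd_tr_apply]
  unfold Bop
  rw [sum_apply, sum_apply, map_sum]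
  refine Finset.sum_congr rfl fun i _ => ?_
  rw [ContinuousLinearMap.smul_apply, ContinuousLinearMap.smul_apply, map_smul, xd_trU, smul_smul]
  unfold Data.tw
  rw [mul_assoc]

theorem tr_XL8 {M : ℝ} {ξ : ℝ → ℂ} (h : Bd mu8 M ξ) (w : ℂ) :
    tr W w (XL W mu8 ξ) = XL W mu8 (twx w ξ) := by
  have hb : Bd mu8 M (twx w ξ) := by
    refine ⟨?_, ?_⟩
    · unfold twx
      refine h.meas.mul ?_
      exact (Complex.continuous_conj.comp ((xc_chi_cont w).comp xc_node_cont)).measurable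
    · filter_upwards [h.bd] with t ht
      unfold twx
      rw [norm_mul, RCLike.norm_conj, xc_chi_norm, mul_one]
      exact ht
  ext f
  rw [xd_tr_apply, XL_apply W h, XL_apply W hb,
    ← ContinuousLinearMap.integral_comp_comm (W.U w) (XL_integrable W h (W.U (-w) f))]
  refine integral_congr_ae (Eventually.of_forall fun t => ?_)
  change W.U w (ξ t • W.U (node t) (W.U (-w) f)) = twx w ξ t • W.U (node t) f
  rw [map_smul, xd_trU, smul_smul]
  rfl

theorem tr_XLN {N : ℕ} (hN : 0 < N) {ξ : ℝ → ℂ} (h : Measurable ξ) (w : ℂ) :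
    tr W w (XL W (muN N) ξ) = XL W (muN N) (twN N w ξ) := by
  have hm : Measurable (twN N w ξ) := by
    unfold twN
    refine h.mul ?_
    exact (Complex.continuous_conj.comp ((xc_chi_cont w).comp xc_node_cont)).measurable.comp
      (cell_meas N)
  ext f
  rw [xd_tr_apply, XL_muN W hN h, XL_muN W hN hm, map_smul, map_sum]
  congr 1
  refine Finset.sum_congr rfl fun k _ => ?_
  rw [map_smul, xd_trU, smul_smul]
  unfold twN
  have hc : cell N ((k : ℝ) / N) = (k : ℝ) / N := by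
    have := cell_grid hN (k : ℤ)
    simpa using this
  rw [hc]

theorem tr_Aop8 (D : Data) {M : ℝ} {ξ : ℝ → ℂ} (h : Bd mu8 M ξ) (γ : Fin D.m → ℂ) (w : ℂ) :
    tr W w (Aop W D mu8 γ ξ) = Aop W D mu8 (D.tw w γ) (twx w ξ) := by
  unfold Aop
  rw [tr_add, tr_Bop, tr_XL8 W h]

theorem tr_AopN (D : Data) {N : ℕ} (hN : 0 < N) {ξ : ℝ → ℂ} (h : Measurable ξ)
    (γ : Fin D.m → ℂ) (w : ℂ) :
    tr W w (Aop W D (muN N) γ ξ) = Aop W D (muN N) (D.tw w γ) (twN N w ξ) := by
  unfold Aop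
  rw [tr_add, tr_Bop, tr_XLN W hN h]

end Pool.Agent.Helper84.HRT
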