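import Mathlib
import Pool.Agent.Helper84.HRT.DefsA
import Pool.Agent.Helper84.HRT.WB
import Pool.Agent.Helper84.HRT.WC
import Pool.Agent.Helper84.HRT.XA
import Pool.Agent.Helper84.HRT.XC
import Pool.Agent.Helper84.HRT.XB
import Pool.Agent.Helper84.HRT.XD
import Pool.Agent.Helper84.HRT.L2
import Pool.Agent.Helper84.HRT.L4O
import Pool.Agent.Helper84.HRT.L4A
import Pool.Agent.Helper84.HRT.L4B

open MeasureTheory Complex Filter
open scoped ENNReal ComplexConjugate InnerProductSpace BigOperators Topology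

namespace Pool.Agent.Helper84.HRT

variable {H : Type} [NormedAddCommGroup H] [InnerProductSpace ℂ H] [CompleteSpace H]

/-- An integral is at most the integral of an upper bound of its positive part. -/
private theorem l4_integral_le {h : ℂ → ℝ} (hh : Integrable h dA) {S : ℂ → ℝ≥0∞} {K T : ℝ}
    (hT : 0 ≤ T) (hK : 0 ≤ K)
    (hle : ∀ w, ENNReal.ofReal (h w) ≤ ENNReal.ofReal K * S w)
    (hS : ∫⁻ w, S w ∂dA ≤ ENNReal.ofReal T) : ∫ w, h w ∂dA ≤ K * T := by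
  have h1 : ∫ w, h w ∂dA ≤ ∫ w, max (h w) 0 ∂dA :=
    integral_mono hh hh.pos_part fun w => le_max_left _ _
  have h2 : ENNReal.ofReal (∫ w, max (h w) 0 ∂dA) = ∫⁻ w, ENNReal.ofReal (max (h w) 0) ∂dA :=
    ofReal_integral_eq_lintegral_ofReal hh.pos_part (Eventually.of_forall fun w => le_max_right _ _)
  have h3 : ∫⁻ w, ENNReal.ofReal (max (h w) 0) ∂dA ≤ ENNReal.ofReal (K * T) := by
    calc ∫⁻ w, ENNReal.ofReal (max (h w) 0) ∂dA ≤ ∫⁻ w, ENNReal.ofReal K * S w ∂dA := by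
          apply lintegral_mono
          intro w
          have : ENNReal.ofReal (max (h w) 0) = ENNReal.ofReal (h w) := by
            rw [ENNReal.ofReal_max, ENNReal.ofReal_zero]
            exact max_eq_left bot_le
          change ENNReal.ofReal (max (h w) 0) ≤ _
          rw [this]
          exact hle w
      _ = ENNReal.ofReal K * ∫⁻ w, S w ∂dA := lintegral_const_mul' _ _ ENNReal.ofReal_ne_top
      _ ≤ ENNReal.ofReal K * ENNReal.ofReal T := by gcongr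
      _ = ENNReal.ofReal (K * T) := (ENNReal.ofReal_mul hK).symm
  have h4 : ENNReal.ofReal (∫ w, max (h w) 0 ∂dA) ≤ ENNReal.ofReal (K * T) := h2 ▸ h3
  exact h1.trans ((ENNReal.ofReal_le_ofReal_iff (mul_nonneg hK hT)).mp h4)

/-- The pointwise estimate for one centre `w`. -/
private theorem l4_point (W : Weyl H) (D : Data) {rb r1 g c C : ℝ} (hG : Good W D rb r1 g c C)
    {C2 : ℝ}
    (h2b : ∀ (N : ℕ) (M : ℝ) (ξ : ℝ → ℂ) (f : H), 0 < N →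
      (∀ t, ξ (cell N t) = ξ t) → (∀ t, ‖ξ t‖ ≤ M) →
      ENNReal.ofReal (‖XL W (muN N) ξ f - XL W mu8 ξ f‖ ^ 2) ≤
        ENNReal.ofReal (C2 * M ^ 2 / N ^ 2) * S2 (fun z => 1 + ‖z‖) (W.V f))
    (n : ℕ) {γ : Fin D.m → ℂ} (hγ : γ ∈ D.Γ) {ξ : ℝ → ℂ} (hξ : D.AdmN (D.NN n) rb ξ)
    (w : ℂ) (f : H) :
    ENNReal.ofReal ((inner ℂ f (XL W (muN (D.NN n)) ξ f) : ℂ).re + c / 2 * ‖f‖ ^ 2 -
        2 * C * ‖Aop W D (muN (D.NN n)) γ ξ f‖ ^ 2) ≤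
      ENNReal.ofReal ((2 * C + 1 / (2 * c)) * (C2 * rb ^ 2 / (D.NN n : ℝ) ^ 2)) *
        S2 (fun z => 1 + ‖z‖) (W.V (W.U w f)) := by
  have hrb : 0 ≤ rb := (hG.r1_pos.trans hG.r1_lt).le
  have hN := NN_pos D n
  have h2 := NN_even D n
  set N := D.NN n
  have hξ' : D.AdmN N rb (twN N w ξ) := AdmN.twN hN h2 hξ w
  have hγ' : D.tw w γ ∈ D.Γ := tw_mem hγ w
  have hmeas : Measurable ξ := step_meas ξ hξ.step
  -- the recentred vector
  set F : H := W.U w f with hF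
  have e1 : XL W (muN N) (twN N w ξ) F = W.U w (XL W (muN N) ξ f) := by
    rw [← tr_XLN W hN hmeas w, hF, tr_apply_U]
  have e2 : Aop W D (muN N) (D.tw w γ) (twN N w ξ) F = W.U w (Aop W D (muN N) γ ξ f) := by
    rw [← tr_AopN W D hN hmeas γ w, hF, tr_apply_U]
  have e3 : (inner ℂ F (XL W (muN N) (twN N w ξ) F) : ℂ) = inner ℂ f (XL W (muN N) ξ f) := by
    rw [e1, hF, U_inner_U]
  have e4 : ‖Aop W D (muN N) (D.tw w γ) (twN N w ξ) F‖ = ‖Aop W D (muN N) γ ξ f‖ := by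
    rw [e2, W.norm_U]
  have e5 : ‖F‖ = ‖f‖ := by rw [hF, W.norm_U]
  have hT := hG.Tp _ hγ' _ (AdmN.adm hN hξ' hrb) F
  set X8 : H := XL W mu8 (twN N w ξ) F with hX8
  set XN : H := XL W (muN N) (twN N w ξ) F with hXN
  have hA8 : Aop W D mu8 (D.tw w γ) (twN N w ξ) F =
      Aop W D (muN N) (D.tw w γ) (twN N w ξ) F - (XN - X8) := by
    simp only [Aop, add_apply, hX8, hXN]
    abel
  have hb := h2b N rb (twN N w ξ) F hN hξ'.step (fun t => AdmN.norm_le hN hξ' hrb t)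
  have hc := hG.c_pos
  have hC := hG.C_pos
  have hr : (inner ℂ F XN : ℂ).re ≤ (inner ℂ F X8 : ℂ).re + ‖F‖ * ‖XN - X8‖ := by
    have h1 : (inner ℂ F XN : ℂ) = inner ℂ F X8 + inner ℂ F (XN - X8) := by
      rw [← inner_add_right]; congr 1; abel
    rw [h1, Complex.add_re]
    have h3 : (inner ℂ F (XN - X8) : ℂ).re ≤ ‖F‖ * ‖XN - X8‖ :=
      (Complex.re_le_norm _).trans (norm_inner_le_norm F (XN - X8))
    linarith
  have hA : ‖Aop W D mu8 (D.tw w γ) (twN N w ξ) F‖ ^ 2 ≤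
      2 * ‖Aop W D (muN N) γ ξ f‖ ^ 2 + 2 * ‖XN - X8‖ ^ 2 := by
    rw [hA8]
    have h1 := norm_sub_le (Aop W D (muN N) (D.tw w γ) (twN N w ξ) F) (XN - X8)
    rw [e4] at h1
    have h2 := norm_nonneg (Aop W D (muN N) (D.tw w γ) (twN N w ξ) F - (XN - X8))
    nlinarith [sq_nonneg (‖Aop W D (muN N) γ ξ f‖ - ‖XN - X8‖)]
  have hy : ‖F‖ * ‖XN - X8‖ ≤ c / 2 * ‖F‖ ^ 2 + 1 / (2 * c) * ‖XN - X8‖ ^ 2 := by
    have h1 : c / 2 * ‖F‖ ^ 2 + 1 / (2 * c) * ‖XN - X8‖ ^ 2 - ‖F‖ * ‖XN - X8‖ =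
        1 / (2 * c) * (c * ‖F‖ - ‖XN - X8‖) ^ 2 := by
      field_simp
      ring
    have h2 : 0 ≤ 1 / (2 * c) * (c * ‖F‖ - ‖XN - X8‖) ^ 2 := by positivity
    linarith
  have hkey : (inner ℂ f (XL W (muN N) ξ f) : ℂ).re + c / 2 * ‖f‖ ^ 2 -
      2 * C * ‖Aop W D (muN N) γ ξ f‖ ^ 2 ≤ (2 * C + 1 / (2 * c)) * ‖XN - X8‖ ^ 2 := by
    rw [← e3, ← e5]
    have := mul_le_mul_of_nonneg_left hA hC.le
    nlinarith
  have hK : 0 ≤ 2 * C + 1 / (2 * c) := by positivity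
  calc ENNReal.ofReal ((inner ℂ f (XL W (muN N) ξ f) : ℂ).re + c / 2 * ‖f‖ ^ 2 -
        2 * C * ‖Aop W D (muN N) γ ξ f‖ ^ 2)
      ≤ ENNReal.ofReal ((2 * C + 1 / (2 * c)) * ‖XN - X8‖ ^ 2) := ENNReal.ofReal_le_ofReal hkey
    _ = ENNReal.ofReal (2 * C + 1 / (2 * c)) * ENNReal.ofReal (‖XN - X8‖ ^ 2) :=
        ENNReal.ofReal_mul hK
    _ ≤ ENNReal.ofReal (2 * C + 1 / (2 * c)) * (ENNReal.ofReal (C2 * rb ^ 2 / (N : ℝ) ^ 2) *
        S2 (fun z => 1 + ‖z‖) (W.V F)) := by gcongr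
    _ = _ := by rw [← mul_assoc, ← ENNReal.ofReal_mul hK]

theorem L4 (W : Weyl H) (D : Data) {rb r1 g c C : ℝ} (hG : Good W D rb r1 g c C) :
    ∃ c' C' : ℝ, 0 < c' ∧ 0 < C' ∧ ∃ n0 : ℕ, ∀ n, n0 ≤ n → ∀ γ ∈ D.Γ, ∀ ξ,
      D.AdmN (D.NN n) rb ξ → ∀ v : H,
      (inner ℂ v (XL W (muN (D.NN n)) ξ v) : ℂ).re ≤
        -c' * ‖v‖ ^ 2 + C' * ‖Aop W D (muN (D.NN n)) γ ξ v‖ ^ 2 := by
  have hrb : 0 < rb := hG.r1_pos.trans hG.r1_lt
  have hc := hG.c_pos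
  have hC := hG.C_pos
  set C0 : ℝ := ∑ i, ‖D.β i‖ + rb with hC0
  have hβ : ∑ i, ‖D.β i‖ ≤ C0 := by rw [hC0]; linarith
  have hβ0 : 0 ≤ ∑ i, ‖D.β i‖ := Finset.sum_nonneg fun i _ => norm_nonneg _
  have hrC : rb ≤ C0 := by rw [hC0]; linarith
  obtain ⟨Ca, hCa, HA⟩ := L4a C0
  obtain ⟨Cb, hCb, HB⟩ := L4b
  obtain ⟨Cc, hCc, HC⟩ := L4c C0
  obtain ⟨Cd, hCd, HD⟩ := L4d
  obtain ⟨C2, hC2, H2⟩ := L2b
  -- the choice of ρ
  set M : ℝ := Ca + c / 2 * Cb + 2 * C * Cc with hM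
  have hMpos : 0 < M := by positivity
  set ρ : ℝ := max 1 (8 * M / c) with hρ
  have hρ1 : 1 ≤ ρ := le_max_left _ _
  have hρ0 : 0 < ρ := by linarith
  have hρM : M / ρ ≤ c / 8 := by
    rw [div_le_iff₀ hρ0]
    have : 8 * M / c ≤ ρ := le_max_right _ _
    rw [div_le_iff₀ hc] at this
    linarith
  have hρ2 : Cc / ρ ^ 2 ≤ Cc / ρ := by
    apply div_le_div_of_nonneg_left hCc.le hρ0
    nlinarith
  have hnr : 0 < nrho ρ := nrho_pos hρ1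
  -- the choice of n0
  set K : ℝ := (2 * C + 1 / (2 * c)) * (C2 * rb ^ 2) * (Cd * ρ ^ 2) with hK
  have hKpos : 0 < K := by positivity
  obtain ⟨n0, hn0⟩ : ∃ n0 : ℕ, ∀ n, n0 ≤ n → 8 * K / c ≤ (D.NN n : ℝ) := by
    have h1 : Tendsto (fun n => (D.NN n : ℝ)) atTop atTop :=
      tendsto_natCast_atTop_atTop.comp (NN_tendsto D)
    exact eventually_atTop.mp (h1.eventually_ge_atTop _)
  refine ⟨c / 4, 2 * C * Cc, by positivity, by positivity, n0, ?_⟩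
  intro n hn γ hγ ξ hξ v
  have hN := NN_pos D n
  have hN1 : (1 : ℝ) ≤ (D.NN n : ℝ) := by exact_mod_cast hN
  have hγ1 : ∀ i, ‖γ i‖ ≤ 1 := fun i => (D.Γ_one γ hγ i).le
  have hbd : Bd (muN (D.NN n)) C0 ξ := by
    have := AdmN.bdN hN hξ hrb.le
    exact ⟨this.meas, this.bd.mono fun t ht => ht.trans hrC⟩
  obtain ⟨iA, bA⟩ := HA H W (D.NN n) ξ hN hbd ρ v hρ1
  obtain ⟨iB, bB⟩ := HB H W ρ v hρ1
  obtain ⟨iC, bC⟩ := HC H W D (D.NN n) γ ξ hN hβ hγ1 hbd ρ v hρ1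
  have bD := HD H W ρ v hρ1
  set a : ℂ → ℝ := fun w => (inner ℂ (vw W ρ v w) (XL W (muN (D.NN n)) ξ (vw W ρ v w)) : ℂ).re
    with ha
  set b : ℂ → ℝ := fun w => ‖vw W ρ v w‖ ^ 2 with hb
  set q : ℂ → ℝ := fun w => ‖Aop W D (muN (D.NN n)) γ ξ (vw W ρ v w)‖ ^ 2 with hq
  set Kn : ℝ := (2 * C + 1 / (2 * c)) * (C2 * rb ^ 2 / (D.NN n : ℝ) ^ 2) with hKn
  have hint : Integrable (fun w => a w + c / 2 * b w - 2 * C * q w) dA :=
    (iA.add (iB.const_mul _)).sub (iC.const_mul _)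
  have hpt : ∀ w, ENNReal.ofReal (a w + c / 2 * b w - 2 * C * q w) ≤
      ENNReal.ofReal Kn * S2 (fun z => 1 + ‖z‖) (W.V (W.U w (vw W ρ v w))) := fun w =>
    l4_point W D hG (H2 H W) n hγ hξ w (vw W ρ v w)
  have hmain := l4_integral_le hint (K := Kn) (T := Cd * ρ ^ 2 * nrho ρ * ‖v‖ ^ 2)
    (by positivity) (by positivity) hpt bD
  have hsplit : ∫ w, (a w + c / 2 * b w - 2 * C * q w) ∂dA =
      ∫ w, a w ∂dA + c / 2 * ∫ w, b w ∂dA - 2 * C * ∫ w, q w ∂dA := by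
    have e1 : Integrable (fun w => a w + c / 2 * b w) dA := iA.add (iB.const_mul _)
    have e2 : Integrable (fun w => c / 2 * b w) dA := iB.const_mul _
    have e3 : Integrable (fun w => 2 * C * q w) dA := iC.const_mul _
    rw [integral_sub e1 e3, integral_add iA e2, integral_const_mul, integral_const_mul]
  rw [hsplit] at hmain
  set x : ℝ := (inner ℂ v (XL W (muN (D.NN n)) ξ v) : ℂ).re with hx
  set y : ℝ := ‖Aop W D (muN (D.NN n)) γ ξ v‖ ^ 2 with hy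
  set s : ℝ := ‖v‖ ^ 2 with hs
  have hs0 : 0 ≤ s := by positivity
  have hy0 : 0 ≤ y := by positivity
  have k1 : nrho ρ * x - Ca / ρ * nrho ρ * s ≤ ∫ w, a w ∂dA := by
    have := (abs_le.mp bA).1
    linarith
  have k2 : nrho ρ * s - Cb / ρ * nrho ρ * s ≤ ∫ w, b w ∂dA := by
    have := (abs_le.mp bB).1
    linarith
  have hKn1 : Kn * (Cd * ρ ^ 2) ≤ c / 8 := by
    have h1 : Kn * (Cd * ρ ^ 2) = K / (D.NN n : ℝ) ^ 2 := by
      rw [hKn, hK]; ring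
    rw [h1, div_le_iff₀ (by positivity)]
    have h2 := hn0 n hn
    rw [div_le_iff₀ hc] at h2
    nlinarith
  -- everything divided by `nrho ρ`
  have k4 : nrho ρ * x ≤ nrho ρ * (-(c / 4) * s + 2 * C * Cc * y) := by
    have m1 : Kn * (Cd * ρ ^ 2 * nrho ρ * s) ≤ c / 8 * (nrho ρ * s) := by
      have : Kn * (Cd * ρ ^ 2 * nrho ρ * s) = Kn * (Cd * ρ ^ 2) * (nrho ρ * s) := by ring
      rw [this]
      exact mul_le_mul_of_nonneg_right hKn1 (by positivity)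
    have m2 : (Ca / ρ + c / 2 * (Cb / ρ) + 2 * C * (Cc / ρ)) ≤ c / 8 := by
      have : Ca / ρ + c / 2 * (Cb / ρ) + 2 * C * (Cc / ρ) = M / ρ := by rw [hM]; ring
      rw [this]; exact hρM
    have m3 : 2 * C * (Cc / ρ ^ 2) ≤ 2 * C * (Cc / ρ) :=
      mul_le_mul_of_nonneg_left hρ2 (by positivity)
    have m4 : (Ca / ρ + c / 2 * (Cb / ρ) + 2 * C * (Cc / ρ ^ 2)) * (nrho ρ * s) ≤
        c / 8 * (nrho ρ * s) :=
      mul_le_mul_of_nonneg_right (by linarith) (by positivity)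
    have m5 : c / 2 * (nrho ρ * s - Cb / ρ * nrho ρ * s) ≤ c / 2 * ∫ w, b w ∂dA :=
      mul_le_mul_of_nonneg_left k2 (by positivity)
    have m6 : 2 * C * ∫ w, q w ∂dA ≤ 2 * C * (nrho ρ * (Cc * y + Cc / ρ ^ 2 * s)) :=
      mul_le_mul_of_nonneg_left bC (by positivity)
    nlinarith
  exact le_of_mul_le_mul_left k4 hnr

end Pool.Agent.Helper84.HRT
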