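import Mathlib
import Pool.Agent.Helper84.HRT.DefsA

open MeasureTheory Complex Filter
open scoped ENNReal ComplexConjugate InnerProductSpace BigOperators Topology

namespace Pool.Agent.Helper84.HRT

variable {H : Type} [NormedAddCommGroup H] [InnerProductSpace ℂ H] [CompleteSpace H]

/-- a symmetric operator which is bounded below is invertible -/
theorem l5a_unit (T : H →L[ℂ] H) (hT : ∀ f h, inner ℂ (T f) h = inner ℂ f (T h)) (m : ℝ)
    (hm : 0 < m) (hb : ∀ u : H, m * ‖u‖ ≤ ‖T u‖) : IsUnit T := by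
  have hinj : Function.Injective T := by
    rw [injective_iff_map_eq_zero]
    intro u hu
    have h1 := hb u
    rw [hu, norm_zero] at h1
    have h2 : ‖u‖ ≤ 0 := by
      by_contra h3
      push Not at h3
      have := mul_pos hm h3
      linarith
    exact norm_le_zero_iff.mp h2
  have hanti : AntilipschitzWith (Real.toNNReal m⁻¹) T := by
    apply ContinuousLinearMap.antilipschitz_of_bound
    intro u
    rw [Real.coe_toNNReal _ (inv_nonneg.mpr hm.le), inv_mul_eq_div, le_div_iff₀ hm, mul_comm]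
    exact hb u
  have hcl : IsClosed (Set.range T) := hanti.isClosed_range T.uniformContinuous
  have hsurj : Function.Surjective T := by
    have hcl' : IsClosed ((LinearMap.range (T : H →ₗ[ℂ] H) : Submodule ℂ H) : Set H) := by
      convert hcl using 1
      ext x
      simp
    have : CompleteSpace (LinearMap.range (T : H →ₗ[ℂ] H) : Submodule ℂ H) :=
      hcl'.completeSpace_coe
    have horth : (LinearMap.range (T : H →ₗ[ℂ] H) : Submodule ℂ H)ᗮ = ⊥ := by
      rw [eq_bot_iff]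
      intro w hw
      rw [Submodule.mem_orthogonal] at hw
      have h1 : inner ℂ (T (T w)) w = 0 := hw (T (T w)) ⟨T w, rfl⟩
      rw [hT] at h1
      have h2 : T w = 0 := inner_self_eq_zero.mp h1
      have h3 : w = 0 := hinj (by rw [h2, map_zero])
      simp [h3]
    have htop := (Submodule.orthogonal_eq_bot_iff).mp horth
    intro y
    have : y ∈ (LinearMap.range (T : H →ₗ[ℂ] H) : Submodule ℂ H) := by rw [htop]; trivial
    obtain ⟨x, hx⟩ := this
    exact ⟨x, hx⟩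
  rw [ContinuousLinearMap.isUnit_iff_bijective]
  exact ⟨hinj, hsurj⟩

/-- derivative of the quadratic form of the inverse -/
theorem l5a_deriv (B X : H →L[ℂ] H) (v : H) (s : ℝ) (hu : IsUnit (B + (s : ℂ) • X)) :
    HasDerivAt (fun t : ℝ => (inner ℂ v ((Ring.inverse (B + (t : ℂ) • X)) v) : ℂ).re)
      (-(inner ℂ v ((Ring.inverse (B + (s : ℂ) • X)) (X ((Ring.inverse (B + (s : ℂ) • X)) v))) : ℂ).re)
      s := by
  have h1 : HasDerivAt (fun z : ℂ => B + z • X) X (s : ℂ) := by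
    simpa using ((hasDerivAt_id (s : ℂ)).smul_const X).const_add B
  obtain ⟨x, hx⟩ := hu
  have h2 : HasFDerivAt (Ring.inverse : (H →L[ℂ] H) → (H →L[ℂ] H))
      (-ContinuousLinearMap.mulLeftRight ℂ (H →L[ℂ] H) ↑x⁻¹ ↑x⁻¹) (x : H →L[ℂ] H) :=
    hasFDerivAt_ringInverse x
  rw [hx] at h2
  have h3 : HasDerivAt (fun z : ℂ => Ring.inverse (B + z • X))
      ((-ContinuousLinearMap.mulLeftRight ℂ (H →L[ℂ] H) ↑x⁻¹ ↑x⁻¹) X) (s : ℂ) :=
    HasFDerivAt.comp_hasDerivAt (s : ℂ) (f := fun z : ℂ => B + z • X)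
      (l := (Ring.inverse : (H →L[ℂ] H) → (H →L[ℂ] H))) h2 h1
  have hinv : Ring.inverse (B + (s : ℂ) • X) = ↑x⁻¹ := by rw [← hx, Ring.inverse_unit]
  have h4 : HasDerivAt (fun z : ℂ => (Ring.inverse (B + z • X)) v)
      (((-ContinuousLinearMap.mulLeftRight ℂ (H →L[ℂ] H) ↑x⁻¹ ↑x⁻¹) X) v) (s : ℂ) := by
    exact (ContinuousLinearMap.apply ℂ H v).hasFDerivAt.comp_hasDerivAt (s : ℂ) h3
  have h5 : HasDerivAt (fun z : ℂ => (inner ℂ v ((Ring.inverse (B + z • X)) v) : ℂ))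
      (inner ℂ v (((-ContinuousLinearMap.mulLeftRight ℂ (H →L[ℂ] H) ↑x⁻¹ ↑x⁻¹) X) v) : ℂ) (s : ℂ) := by
    exact (innerSL ℂ v).hasFDerivAt.comp_hasDerivAt (s : ℂ) h4
  have h6 := h5.real_of_complex
  convert h6 using 1
  rw [hinv]
  simp [ContinuousLinearMap.mulLeftRight_apply, mul_assoc]

omit [CompleteSpace H] in
/-- `Ring.inverse T` is a right inverse of a unit -/
theorem l5a_right (T : H →L[ℂ] H) (hT : IsUnit T) (v : H) : T ((Ring.inverse T) v) = v := by
  have h := Ring.mul_inverse_cancel T hT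
  have h2 := congrArg (fun S : H →L[ℂ] H => S v) h
  simpa using h2

omit [CompleteSpace H] in
theorem l5a_symm (T : H →L[ℂ] H) (hu : IsUnit T) (hT : ∀ f h, inner ℂ (T f) h = inner ℂ f (T h))
    (v w : H) : inner ℂ v ((Ring.inverse T) w) = inner ℂ ((Ring.inverse T) v) w := by
  conv_lhs => rw [← l5a_right T hu v]
  conv_rhs => rw [← l5a_right T hu w]
  rw [hT]

omit [CompleteSpace H] in
theorem l5a_Asymm (B X : H →L[ℂ] H) (hB : ∀ f h, inner ℂ (B f) h = inner ℂ f (B h))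
    (hX : ∀ f h, inner ℂ (X f) h = inner ℂ f (X h)) (s : ℝ) (f h : H) :
    inner ℂ ((B + (s : ℂ) • X) f) h = inner ℂ f ((B + (s : ℂ) • X) h) := by
  simp only [add_apply, smul_apply, inner_add_left,
    inner_add_right, inner_smul_left, inner_smul_right, hB, hX, Complex.conj_ofReal]

theorem riccati_lower (B X : H →L[ℂ] H) (hB : ∀ f h, inner ℂ (B f) h = inner ℂ f (B h))
    (hX : ∀ f h, inner ℂ (X f) h = inner ℂ f (X h)) (g C0 c C1 s1 : ℝ) (hg : 0 < g) (hC0 : 0 < C0)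
    (hc : 0 < c) (hC1 : 0 < C1) (hs1 : 0 < s1) (hBg : ∀ u, g * ‖u‖ ≤ ‖B u‖) (hXn : ‖X‖ ≤ C0)
    (hR : ∀ s : ℝ, 0 < s → s ≤ s1 → ∀ u : H,
      s * (inner ℂ u (X u) : ℂ).re ≤ -c * ‖u‖ ^ 2 + C1 * ‖B u + (s : ℂ) • X u‖ ^ 2)
    (hinv : ∀ s : ℝ, 0 ≤ s → s < s1 → ∃ m : ℝ, 0 < m ∧ ∀ u : H, m * ‖u‖ ≤ ‖B u + (s : ℂ) • X u‖) :
    ∀ s : ℝ, 0 ≤ s → s ≤ s1 → ∀ u : H,
      -((2 / g + C1 * s1 * (2 * C0 / g)) * ‖B u + (s : ℂ) • X u‖ ^ 2) ≤
        (inner ℂ u (B u + (s : ℂ) • X u) : ℂ).re := by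
  have happ : ∀ (s : ℝ) (u : H), B u + (s : ℂ) • X u = (B + (s : ℂ) • X) u := by
    intro s u; simp
  have hunit : ∀ s : ℝ, 0 ≤ s → s < s1 → IsUnit (B + (s : ℂ) • X) := by
    intro s h0 h1
    obtain ⟨m, hm, hb⟩ := hinv s h0 h1
    exact l5a_unit _ (l5a_Asymm B X hB hX s) m hm (fun u => by rw [← happ]; exact hb u)
  -- small `s`
  have hsmall : ∀ s : ℝ, 0 ≤ s → s ≤ g / (2 * C0) → ∀ u : H,
      -((2 / g) * ‖B u + (s : ℂ) • X u‖ ^ 2) ≤ (inner ℂ u (B u + (s : ℂ) • X u) : ℂ).re := by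
    intro s h0 h1 u
    have hXu : ‖X u‖ ≤ C0 * ‖u‖ :=
      (X.le_opNorm u).trans (mul_le_mul_of_nonneg_right hXn (norm_nonneg u))
    have hsC : s * C0 ≤ g / 2 := by
      rw [le_div_iff₀ (by positivity)] at h1
      linarith
    have h2 : ‖(s : ℂ) • X u‖ ≤ g / 2 * ‖u‖ := by
      rw [norm_smul, Complex.norm_real, Real.norm_eq_abs, abs_of_nonneg h0]
      calc s * ‖X u‖ ≤ s * (C0 * ‖u‖) := mul_le_mul_of_nonneg_left hXu h0
        _ = (s * C0) * ‖u‖ := by ring
        _ ≤ g / 2 * ‖u‖ := mul_le_mul_of_nonneg_right hsC (norm_nonneg u)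
    have h3 : g / 2 * ‖u‖ ≤ ‖B u + (s : ℂ) • X u‖ := by
      have h4 : ‖B u‖ ≤ ‖B u + (s : ℂ) • X u‖ + ‖(s : ℂ) • X u‖ := by
        have := norm_sub_le (B u + (s : ℂ) • X u) ((s : ℂ) • X u)
        rwa [add_sub_cancel_right] at this
      have := hBg u
      linarith
    have h5 : ‖u‖ ≤ 2 / g * ‖B u + (s : ℂ) • X u‖ := by
      rw [div_mul_eq_mul_div, le_div_iff₀ hg]
      linarith
    have h6 : |(inner ℂ u (B u + (s : ℂ) • X u) : ℂ).re| ≤ ‖u‖ * ‖B u + (s : ℂ) • X u‖ :=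
      (Complex.abs_re_le_norm _).trans (norm_inner_le_norm _ _)
    have h7 : ‖u‖ * ‖B u + (s : ℂ) • X u‖ ≤ 2 / g * ‖B u + (s : ℂ) • X u‖ ^ 2 := by
      calc ‖u‖ * ‖B u + (s : ℂ) • X u‖
          ≤ (2 / g * ‖B u + (s : ℂ) • X u‖) * ‖B u + (s : ℂ) • X u‖ :=
            mul_le_mul_of_nonneg_right h5 (norm_nonneg _)
        _ = _ := by ring
    have h8 := neg_abs_le (inner ℂ u (B u + (s : ℂ) • X u) : ℂ).re
    linarith
  -- `s < s1`
  have hlt : ∀ s : ℝ, 0 ≤ s → s < s1 → ∀ u : H,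
      -((2 / g + C1 * s1 * (2 * C0 / g)) * ‖B u + (s : ℂ) • X u‖ ^ 2) ≤
        (inner ℂ u (B u + (s : ℂ) • X u) : ℂ).re := by
    intro s h0 h1 u
    have hK : 0 ≤ C1 * s1 * (2 * C0 / g) := by positivity
    by_cases hs : s ≤ g / (2 * C0)
    · have h2 := hsmall s h0 hs u
      have h3 : 0 ≤ C1 * s1 * (2 * C0 / g) * ‖B u + (s : ℂ) • X u‖ ^ 2 := by positivity
      linarith
    · push Not at hs
      set s0 : ℝ := g / (2 * C0) with hs0
      have hs0pos : 0 < s0 := by positivity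
      set v : H := B u + (s : ℂ) • X u with hv
      let F : ℝ → ℝ := fun t : ℝ => (inner ℂ v ((Ring.inverse (B + (t : ℂ) • X)) v) : ℂ).re
      let F' : ℝ → ℝ := fun t : ℝ => -(inner ℂ v ((Ring.inverse (B + (t : ℂ) • X))
        (X ((Ring.inverse (B + (t : ℂ) • X)) v))) : ℂ).re
      have hF : ∀ t : ℝ, 0 ≤ t → t < s1 → HasDerivAt F (F' t) t := by
        intro t ht0 ht1
        exact l5a_deriv B X v t (hunit t ht0 ht1)
      have hF' : ∀ t : ℝ, 0 < t → t < s1 → -(C1 * ‖v‖ ^ 2) / t ≤ F' t := by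
        intro t ht0 ht1
        have hut := hunit t ht0.le ht1
        set w : H := (Ring.inverse (B + (t : ℂ) • X)) v with hw
        have h2 := hR t ht0 ht1.le w
        have h3 : B w + (t : ℂ) • X w = v := by
          rw [happ, hw]; exact l5a_right _ hut v
        rw [h3] at h2
        have h4 : F' t = -(inner ℂ w (X w) : ℂ).re := by
          change -(inner ℂ v ((Ring.inverse (B + (t : ℂ) • X)) (X w)) : ℂ).re = _
          rw [l5a_symm _ hut (l5a_Asymm B X hB hX t)]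
        rw [h4, div_le_iff₀ ht0]
        have h5 : 0 ≤ c * ‖w‖ ^ 2 := by positivity
        nlinarith
      let G : ℝ → ℝ := fun t => F t + C1 * ‖v‖ ^ 2 * Real.log t
      have hG : ∀ t : ℝ, 0 < t → t < s1 →
          HasDerivAt G (F' t + C1 * ‖v‖ ^ 2 * t⁻¹) t := by
        intro t ht0 ht1
        exact (hF t ht0.le ht1).add ((Real.hasDerivAt_log ht0.ne').const_mul _)
      have hmono : MonotoneOn G (Set.Icc s0 s) := by
        apply monotoneOn_of_deriv_nonneg (convex_Icc s0 s)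
        · intro t ht
          exact (hG t (hs0pos.trans_le ht.1) (ht.2.trans_lt h1)).continuousAt.continuousWithinAt
        · intro t ht
          rw [interior_Icc] at ht
          exact (hG t (hs0pos.trans ht.1) (ht.2.trans h1)).differentiableAt.differentiableWithinAt
        · intro t ht
          rw [interior_Icc] at ht
          rw [(hG t (hs0pos.trans ht.1) (ht.2.trans h1)).deriv]
          have h2 := hF' t (hs0pos.trans ht.1) (ht.2.trans h1)
          have h3 : -(C1 * ‖v‖ ^ 2) / t = -(C1 * ‖v‖ ^ 2 * t⁻¹) := by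
            rw [div_eq_mul_inv]; ring
          linarith
      have h2 : G s0 ≤ G s := hmono ⟨le_refl _, hs.le⟩ ⟨hs.le, le_refl _⟩ hs.le
      have h3 : -((2 / g) * ‖v‖ ^ 2) ≤ F s0 := by
        have hu0 := hunit s0 hs0pos.le (hs.trans h1)
        have h4 := hsmall s0 hs0pos.le (le_refl _) ((Ring.inverse (B + (s0 : ℂ) • X)) v)
        have h5 : B ((Ring.inverse (B + (s0 : ℂ) • X)) v) +
            (s0 : ℂ) • X ((Ring.inverse (B + (s0 : ℂ) • X)) v) = v := by
          rw [happ]; exact l5a_right _ hu0 v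
        rw [h5] at h4
        have h6 : (inner ℂ ((Ring.inverse (B + (s0 : ℂ) • X)) v) v : ℂ).re = F s0 := by
          change _ = (inner ℂ v ((Ring.inverse (B + (s0 : ℂ) • X)) v) : ℂ).re
          rw [l5a_symm _ hu0 (l5a_Asymm B X hB hX s0)]
        rw [h6] at h4
        exact h4
      have hus := hunit s h0 h1
      have h4 : (Ring.inverse (B + (s : ℂ) • X)) v = u := by
        have h5 := Ring.inverse_mul_cancel (B + (s : ℂ) • X) hus
        have h6 := congrArg (fun S : H →L[ℂ] H => S u) h5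
        rw [hv, happ]
        simpa using h6
      have h5 : F s = (inner ℂ u v : ℂ).re := by
        change (inner ℂ v ((Ring.inverse (B + (s : ℂ) • X)) v) : ℂ).re = _
        rw [l5a_symm _ hus (l5a_Asymm B X hB hX s), h4]
      rw [← h5]
      have h6 : Real.log s - Real.log s0 ≤ s1 * (2 * C0 / g) := by
        have hspos : 0 < s := hs0pos.trans hs
        rw [← Real.log_div hspos.ne' hs0pos.ne']
        have h7 : Real.log (s / s0) ≤ s / s0 := by
          have := Real.log_le_sub_one_of_pos (div_pos hspos hs0pos)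
          linarith
        have h8 : s / s0 ≤ s1 * (2 * C0 / g) := by
          rw [hs0]
          have : s / (g / (2 * C0)) = s * (2 * C0 / g) := by field_simp
          rw [this]
          exact mul_le_mul_of_nonneg_right h1.le (by positivity)
        exact h7.trans h8
      have h7 : C1 * ‖v‖ ^ 2 * (Real.log s - Real.log s0) ≤ C1 * ‖v‖ ^ 2 * (s1 * (2 * C0 / g)) :=
        mul_le_mul_of_nonneg_left h6 (by positivity)
      have h8 : F s0 + C1 * ‖v‖ ^ 2 * Real.log s0 ≤ F s + C1 * ‖v‖ ^ 2 * Real.log s := h2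
      have h9 : (2 / g + C1 * s1 * (2 * C0 / g)) * ‖v‖ ^ 2
          = (2 / g) * ‖v‖ ^ 2 + C1 * ‖v‖ ^ 2 * (s1 * (2 * C0 / g)) := by ring
      rw [h9]
      linarith
  intro s h0 h1 u
  rcases h1.lt_or_eq with h1 | h1
  · exact hlt s h0 h1 u
  · subst h1
    have hcont1 : Continuous fun t : ℝ =>
        -((2 / g + C1 * s * (2 * C0 / g)) * ‖B u + (t : ℂ) • X u‖ ^ 2) := by
      fun_prop
    have hcont2 : Continuous fun t : ℝ => (inner ℂ u (B u + (t : ℂ) • X u) : ℂ).re := by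
      fun_prop
    have ht1 := (hcont1.tendsto s).mono_left (nhdsWithin_le_nhds (s := Set.Iio s))
    have ht2 := (hcont2.tendsto s).mono_left (nhdsWithin_le_nhds (s := Set.Iio s))
    refine le_of_tendsto_of_tendsto ht1 ht2 ?_
    have hmem : Set.Ioo 0 s ∈ 𝓝[<] s := Ioo_mem_nhdsLT hs1
    filter_upwards [hmem] with t ht
    exact hlt t ht.1.le ht.2 u

end Pool.Agent.Helper84.HRT
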