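import Mathlib
import Pool.Agent.Helper84.HRT.DefsA
import Pool.Agent.Helper84.HRT.XA
import Pool.Agent.Helper84.HRT.XB
import Pool.Agent.Helper84.HRT.XC

open MeasureTheory Complex Filter
open scoped ENNReal ComplexConjugate InnerProductSpace BigOperators Topology

namespace Pool.Agent.Helper84.HRT

variable {H : Type} [NormedAddCommGroup H] [InnerProductSpace ℂ H] [CompleteSpace H]

/-- the index of the cell of `t` -/
noncomputable def l6a_idx (N : ℕ) (hN : 0 < N) (t : ℝ) : Fin N :=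
  ⟨(⌊(N : ℝ) * t⌋ % (N : ℤ)).toNat, by
    have h1 : (0 : ℤ) < N := by exact_mod_cast hN
    have h2 := Int.emod_nonneg ⌊(N : ℝ) * t⌋ h1.ne'
    have h3 := Int.emod_lt_of_pos ⌊(N : ℝ) * t⌋ h1
    omega⟩

theorem l6a_value {D : Data} {N : ℕ} {r : ℝ} {ξ : ℝ → ℂ} (hN : 0 < N) (h : D.AdmN N r ξ) (t : ℝ) :
    ξ t = ξ (((l6a_idx N hN t : Fin N) : ℕ) / N) := by
  have hper : Function.Periodic ξ 1 := by
    intro s
    have h1 := h.sym (s + 1 / 2)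
    have h2 := h.sym s
    rw [h2, Complex.conj_conj] at h1
    have h3 : s + 1 / 2 + 1 / 2 = s + 1 := by ring
    rw [h3] at h1
    exact h1
  have hN' : (N : ℝ) ≠ 0 := by exact_mod_cast hN.ne'
  have h1 : (0 : ℤ) < N := by exact_mod_cast hN
  obtain ⟨z, hz⟩ : ∃ z : ℤ, z = ⌊(N : ℝ) * t⌋ := ⟨_, rfl⟩
  have h2 : ((l6a_idx N hN t : Fin N) : ℕ) = (z % (N : ℤ)).toNat := by rw [hz]; rfl
  have h3 : ((((l6a_idx N hN t : Fin N) : ℕ) : ℤ)) = z % (N : ℤ) := by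
    rw [h2, Int.toNat_of_nonneg (Int.emod_nonneg z h1.ne')]
  have h4 : ((((l6a_idx N hN t : Fin N) : ℕ) : ℝ)) = ((z % (N : ℤ) : ℤ) : ℝ) := by
    rw [← h3]
    push_cast
    rfl
  have h5 : (z : ℝ) = (N : ℝ) * ((z / (N : ℤ) : ℤ) : ℝ) + ((z % (N : ℤ) : ℤ) : ℝ) := by
    have := Int.mul_ediv_add_emod z (N : ℤ)
    exact_mod_cast this.symm
  have h6 : cell N t = ((l6a_idx N hN t : Fin N) : ℕ) / N + ((z / (N : ℤ) : ℤ) : ℝ) * 1 := by
    unfold cell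
    rw [← hz, h5, h4]
    field_simp
    ring
  rw [← h.step t, h6]
  exact hper.int_mul (z / (N : ℤ)) _

/-- compactness of the parameters at finite level -/
theorem finite_compact (W : Weyl H) (D : Data) (N : ℕ) (hN : 0 < N) (h2 : 2 ∣ N) (ρ : ℕ → ℝ)
    (r : ℝ) (γ : ℕ → Fin D.m → ℂ) (ξ : ℕ → ℝ → ℂ) (hρ0 : ∀ j, 0 ≤ ρ j) (hγ : ∀ j, γ j ∈ D.Γ)
    (hξ : ∀ j, D.AdmN N (ρ j) (ξ j)) (hρ : Tendsto ρ atTop (𝓝 r)) :
    ∃ φ : ℕ → ℕ, StrictMono φ ∧ ∃ γ0 ∈ D.Γ, ∃ ξ0, D.AdmN N r ξ0 ∧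
      Tendsto (fun j => γ (φ j)) atTop (𝓝 γ0) ∧
      (∀ t, Tendsto (fun j => ξ (φ j) t) atTop (𝓝 (ξ0 t))) ∧
      Tendsto (fun j => Aop W D (muN N) (γ (φ j)) (ξ (φ j))) atTop
        (𝓝 (Aop W D (muN N) γ0 ξ0)) := by
  have := muN_prob hN
  have hr0 : 0 ≤ r := ge_of_tendsto' hρ hρ0
  obtain ⟨M, hM⟩ : ∃ M : ℝ, ∀ j, ρ j ≤ M := by
    obtain ⟨M, hM⟩ := hρ.bddAbove_range
    exact ⟨M, fun j => hM ⟨j, rfl⟩⟩
  obtain ⟨x, hx⟩ : ∃ x : ℕ → Fin N → ℂ, x = fun j (k : Fin N) => ξ j (((k : ℕ) : ℝ) / N) := ⟨_, rfl⟩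
  have hxb : ∀ j, x j ∈ Metric.closedBall (0 : Fin N → ℂ) M := by
    intro j
    rw [mem_closedBall_zero_iff, pi_norm_le_iff_of_nonneg ((hρ0 0).trans (hM 0))]
    intro k
    rw [hx]
    exact (AdmN.norm_le hN (hξ j) (hρ0 j) _).trans (hM j)
  have hcomp : IsCompact (D.Γ ×ˢ Metric.closedBall (0 : Fin N → ℂ) M) :=
    D.Γ_compact.prod (isCompact_closedBall _ _)
  obtain ⟨⟨γ0, x0⟩, hmem, φ, hφ, hlim⟩ := hcomp.tendsto_subseq
    (x := fun j => (γ j, x j)) fun j => ⟨hγ j, hxb j⟩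
  have hγlim : Tendsto (fun j => γ (φ j)) atTop (𝓝 γ0) :=
    (continuous_fst.tendsto _).comp hlim
  have hxlim : Tendsto (fun j => x (φ j)) atTop (𝓝 x0) :=
    (continuous_snd.tendsto _).comp hlim
  have hρlim : Tendsto (fun j => ρ (φ j)) atTop (𝓝 r) := hρ.comp hφ.tendsto_atTop
  obtain ⟨ξ0, hξ0⟩ : ∃ ξ0 : ℝ → ℂ, ξ0 = fun t => x0 (l6a_idx N hN t) := ⟨_, rfl⟩
  have hpt : ∀ t, Tendsto (fun j => ξ (φ j) t) atTop (𝓝 (ξ0 t)) := by
    intro t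
    have h3 : (fun j => ξ (φ j) t) = fun j => x (φ j) (l6a_idx N hN t) := by
      funext j
      rw [hx]
      exact l6a_value hN (hξ (φ j)) t
    rw [h3, hξ0]
    exact (tendsto_pi_nhds.1 hxlim) _
  have hadm : D.AdmN N r ξ0 := by
    refine ⟨?_, ?_, ?_⟩
    · intro t
      refine tendsto_nhds_unique (hpt (cell N t)) ?_
      have h3 : (fun j => ξ (φ j) (cell N t)) = fun j => ξ (φ j) t := by
        funext j
        exact (hξ (φ j)).step t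
      rw [h3]
      exact hpt t
    · intro t
      refine tendsto_nhds_unique (hpt (t + 1 / 2)) ?_
      have h3 : (fun j => ξ (φ j) (t + 1 / 2)) = fun j => conj (ξ (φ j) t) := by
        funext j
        exact (hξ (φ j)).sym t
      rw [h3]
      exact (Complex.continuous_conj.tendsto _).comp (hpt t)
    · intro t
      exact le_of_tendsto_of_tendsto' (hpt t).norm (hρlim.mul_const _) fun j =>
        (hξ (φ j)).bd t
  refine ⟨φ, hφ, γ0, hmem.1, ξ0, hadm, hγlim, hpt, ?_⟩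
  unfold Aop
  refine Tendsto.add ?_ ?_
  · rw [tendsto_iff_norm_sub_tendsto_zero]
    have h3 : Tendsto (fun j => ∑ i, ‖D.β i‖ * ‖γ (φ j) i - γ0 i‖) atTop (𝓝 0) := by
      have h4 : (0 : ℝ) = ∑ i : Fin D.m, ‖D.β i‖ * 0 := by simp
      rw [h4]
      refine tendsto_finsetSum _ fun i _ => ?_
      have h5 := (tendsto_pi_nhds.1 hγlim) i
      have h6 := tendsto_iff_norm_sub_tendsto_zero.1 h5
      exact h6.const_mul _
    exact squeeze_zero (fun j => norm_nonneg _) (fun j => norm_Bop_sub W D _ _) h3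
  · rw [tendsto_iff_norm_sub_tendsto_zero]
    have h3 : Tendsto (fun j => ∑ k ∈ Finset.range N, ‖ξ (φ j) ((k : ℝ) / N) -
        ξ0 ((k : ℝ) / N)‖) atTop (𝓝 0) := by
      have h4 : (0 : ℝ) = ∑ k ∈ Finset.range N, 0 := by simp
      rw [h4]
      refine tendsto_finsetSum _ fun k _ => ?_
      exact tendsto_iff_norm_sub_tendsto_zero.1 (hpt _)
    refine squeeze_zero (fun j => norm_nonneg _) (fun j => ?_) h3
    have hb1 := AdmN.bdN hN (hξ (φ j)) (hρ0 (φ j))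
    have hb2 := AdmN.bdN hN hadm hr0
    rw [← XL_sub W hb1 hb2]
    refine norm_XL_le W (Finset.sum_nonneg fun k _ => norm_nonneg _) ⟨hb1.meas.sub hb2.meas, ?_⟩
    rw [muN_ae hN]
    intro k hk
    exact Finset.single_le_sum (f := fun k : ℕ => ‖ξ (φ j) ((k : ℝ) / N) - ξ0 ((k : ℝ) / N)‖)
      (fun k _ => norm_nonneg _) (Finset.mem_range.2 hk)

end Pool.Agent.Helper84.HRT
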