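import Mathlib
import Pool.Agent.Helper84.HRT.DefsA
import Pool.Agent.Helper84.HRT.XB
import Pool.Agent.Helper84.HRT.XC
import Pool.Agent.Helper84.HRT.L6A

open MeasureTheory Complex Filter
open scoped ENNReal ComplexConjugate InnerProductSpace BigOperators Topology

namespace Pool.Agent.Helper84.HRT

variable {H : Type} [NormedAddCommGroup H] [InnerProductSpace ℂ H] [CompleteSpace H]

/-- bounded below is an open condition -/
private theorem l6b_open {T : ℕ → H →L[ℂ] H} {T0 : H →L[ℂ] H} (hT : Tendsto T atTop (𝓝 T0))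
    (h0 : BB T0) : ∃ j, BB (T j) := by
  obtain ⟨m, hm, hb⟩ := h0
  have h1 : ∀ᶠ j in atTop, dist (T j) T0 < m / 2 := by
    have := Metric.tendsto_atTop.1 hT (m / 2) (by linarith)
    obtain ⟨N, hN⟩ := this
    exact eventually_atTop.2 ⟨N, hN⟩
  obtain ⟨j, hj⟩ := h1.exists
  refine ⟨j, m / 2, by linarith, fun u => ?_⟩
  have h2 : ‖(T j - T0) u‖ ≤ m / 2 * ‖u‖ := by
    refine ((T j - T0).le_opNorm u).trans ?_
    have : ‖T j - T0‖ ≤ m / 2 := by
      rw [← dist_eq_norm]; exact hj.le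
    exact mul_le_mul_of_nonneg_right this (norm_nonneg _)
  have h3 : T0 u = T j u - (T j - T0) u := by
    simp
  have h4 := hb u
  rw [h3] at h4
  have h5 := norm_sub_le (T j u) ((T j - T0) u)
  nlinarith [norm_nonneg u]

/-- a singular operator has almost null unit vectors -/
private theorem l6b_sing {T : H →L[ℂ] H} (h : ¬ BB T) :
    ∀ ε : ℝ, 0 < ε → ∃ f : H, ‖f‖ = 1 ∧ ‖T f‖ < ε := by
  intro ε hε
  by_contra hcon
  push Not at hcon
  apply h
  refine ⟨ε, hε, fun u => ?_⟩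
  by_cases hu : u = 0
  · simp [hu]
  have hn : 0 < ‖u‖ := norm_pos_iff.2 hu
  have h1 : ‖(((‖u‖⁻¹ : ℝ) : ℂ)) • u‖ = 1 := by
    rw [norm_smul, Complex.norm_real, norm_inv, norm_norm]
    exact inv_mul_cancel₀ hn.ne'
  have h2 := hcon _ h1
  rw [map_smul, norm_smul, Complex.norm_real, norm_inv, norm_norm] at h2
  calc ε * ‖u‖ ≤ (‖u‖⁻¹ * ‖T u‖) * ‖u‖ := mul_le_mul_of_nonneg_right h2 hn.le
    _ = ‖T u‖ := by field_simp

theorem rN_spec (W : Weyl H) (D : Data) {rb r1 g c C : ℝ} (hG : Good W D rb r1 g c C) (n : ℕ) :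
    0 ≤ rN W D rb n ∧ rN W D rb n ≤ rb ∧
    (∀ r, 0 ≤ r → r < rN W D rb n → ∀ γ ∈ D.Γ, ∀ ξ, D.AdmN (D.NN n) r ξ →
      BB (Aop W D (muN (D.NN n)) γ ξ)) ∧
    (rN W D rb n < rb → ∃ γ ∈ D.Γ, ∃ ξ, D.AdmN (D.NN n) (rN W D rb n) ξ ∧
      ∀ ε : ℝ, 0 < ε → ∃ f : H, ‖f‖ = 1 ∧ ‖Aop W D (muN (D.NN n)) γ ξ f‖ < ε) := by
  classical
  have hN : 0 < D.NN n := NN_pos D n
  have hrb : 0 < rb := hG.r1_pos.trans hG.r1_lt
  have := muN_prob hN
  set S : Set ℝ := {r : ℝ | 0 ≤ r ∧ r ≤ rb ∧ ∀ γ ∈ D.Γ, ∀ ξ, D.AdmN (D.NN n) r ξ →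
    BB (Aop W D (muN (D.NN n)) γ ξ)} with hS
  have hrN : rN W D rb n = sSup S := rfl
  have h0 : (0 : ℝ) ∈ S := by
    refine ⟨le_rfl, hrb.le, ?_⟩
    intro γ hγ ξ hξ
    have hX : XL W (muN (D.NN n)) ξ = 0 :=
      norm_le_zero_iff.1 (norm_XL_le W (μ := muN (D.NN n)) le_rfl (AdmN.bdN hN hξ le_rfl))
    refine ⟨g, hG.g_pos, fun u => ?_⟩
    simp only [Aop, hX, add_zero]
    exact hG.E0 γ hγ u
  have hbdd : BddAbove S := ⟨rb, fun r hr => hr.2.1⟩
  have hle : sSup S ≤ rb := csSup_le ⟨0, h0⟩ fun r hr => hr.2.1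
  have hge : 0 ≤ sSup S := le_csSup hbdd h0
  refine ⟨by rw [hrN]; exact hge, by rw [hrN]; exact hle, ?_, ?_⟩
  · intro r _ hr γ hγ ξ hξ
    rw [hrN] at hr
    obtain ⟨r', hr', hlt⟩ := exists_lt_of_lt_csSup ⟨0, h0⟩ hr
    exact hr'.2.2 γ hγ ξ (AdmN.mono hN hlt.le hξ)
  · intro hlt
    rw [hrN] at hlt ⊢
    -- a sequence of radii decreasing to `sSup S`, outside `S`
    have hseq : ∀ j : ℕ, ∃ ρ : ℝ, sSup S < ρ ∧ ρ ≤ sSup S + (rb - sSup S) / (j + 1) ∧ ρ ∉ S := by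
      intro j
      have hpos : 0 < (rb - sSup S) / ((j : ℝ) + 1) := by
        apply div_pos (by linarith) (by positivity)
      refine ⟨sSup S + (rb - sSup S) / (j + 1), by linarith, le_rfl, ?_⟩
      intro hmem
      have := le_csSup hbdd hmem
      linarith
    choose ρ hρ1 hρ2 hρ3 using hseq
    have hρrb : ∀ j, ρ j ≤ rb := by
      intro j
      refine (hρ2 j).trans ?_
      have hd : (rb - sSup S) / ((j : ℝ) + 1) ≤ rb - sSup S := by
        apply div_le_self (by linarith)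
        have : (0 : ℝ) ≤ j := Nat.cast_nonneg j
        linarith
      linarith
    have hex : ∀ j, ∃ γ ∈ D.Γ, ∃ ξ, D.AdmN (D.NN n) (ρ j) ξ ∧
        ¬ BB (Aop W D (muN (D.NN n)) γ ξ) := by
      intro j
      by_contra hcon
      push Not at hcon
      exact hρ3 j ⟨hge.trans (hρ1 j).le, hρrb j, hcon⟩
    choose γ hγ ξ hξ hB using hex
    have hρlim : Tendsto ρ atTop (𝓝 (sSup S)) := by
      have hup : Tendsto (fun j : ℕ => sSup S + (rb - sSup S) / ((j : ℝ) + 1)) atTop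
          (𝓝 (sSup S + 0)) := by
        apply Tendsto.add tendsto_const_nhds
        exact tendsto_const_nhds.div_atTop
          (tendsto_atTop_add_const_right _ _ tendsto_natCast_atTop_atTop)
      rw [add_zero] at hup
      exact tendsto_of_tendsto_of_tendsto_of_le_of_le tendsto_const_nhds hup
        (fun j => (hρ1 j).le) hρ2
    obtain ⟨φ, -, γ0, hγ0, ξ0, hξ0, -, -, hA⟩ := finite_compact W D (D.NN n) hN (NN_even D n) ρ
      (sSup S) γ ξ (fun j => hge.trans (hρ1 j).le) hγ hξ hρlim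
    refine ⟨γ0, hγ0, ξ0, hξ0, ?_⟩
    apply l6b_sing
    intro hBB
    obtain ⟨j, hj⟩ := l6b_open hA hBB
    exact hB (φ j) hj

end Pool.Agent.Helper84.HRT
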