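import Mathlib
import Pool.Agent.Helper84.HRT.DefsA
import Pool.Agent.Helper84.HRT.XB

open MeasureTheory Complex Filter
open scoped ENNReal ComplexConjugate InnerProductSpace BigOperators Topology

namespace Pool.Agent.Helper84.HRT

variable {H : Type} [NormedAddCommGroup H] [InnerProductSpace ℂ H] [CompleteSpace H]

private theorem l6d_bd (D : Data) {r : ℝ} (hr : 0 ≤ r) {ξ : ℝ → ℂ} (h : D.Adm r ξ) :
    Bd mu8 r ξ := by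
  refine ⟨h.meas, ?_⟩
  have e1 : ∀ᵐ t ∂mu8, ‖ξ t‖ ≤ r * D.κ t := ae_restrict_of_ae h.bd
  filter_upwards [e1] with t ht
  exact ht.trans (mul_le_of_le_one_right hr (D.κ_le t))

private theorem l6d_BB (W : Weyl H) (D : Data) {rb r1 g c C : ℝ} (hG : Good W D rb r1 g c C)
    {r : ℝ} (hr : 0 ≤ r) (hrg : r < g) {γ : Fin D.m → ℂ} (hγ : γ ∈ D.Γ) {ξ : ℝ → ℂ}
    (h : D.Adm r ξ) : BB (Aop W D mu8 γ ξ) := by
  refine ⟨g - r, by linarith, fun u => ?_⟩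
  have h1 : g * ‖u‖ ≤ ‖Bop W D γ u‖ := hG.E0 γ hγ u
  have h2 : ‖XL W mu8 ξ u‖ ≤ r * ‖u‖ :=
    (ContinuousLinearMap.le_opNorm _ _).trans
      (mul_le_mul_of_nonneg_right (norm_XL_le W hr (l6d_bd D hr h)) (norm_nonneg u))
  have h3 : Aop W D mu8 γ ξ u = Bop W D γ u + XL W mu8 ξ u := rfl
  rw [h3]
  have h4 : ‖Bop W D γ u‖ - ‖XL W mu8 ξ u‖ ≤ ‖Bop W D γ u + XL W mu8 ξ u‖ := by
    have := norm_sub_norm_le (Bop W D γ u) (-(XL W mu8 ξ u))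
    rwa [norm_neg, sub_neg_eq_add] at this
  nlinarith

theorem rinf_spec (W : Weyl H) (D : Data) {rb r1 g c C : ℝ} (hG : Good W D rb r1 g c C) :
    0 < rinf W D ∧ rinf W D ≤ r1 ∧ ∀ r, 0 ≤ r → r < rinf W D → ∀ γ ∈ D.Γ, ∀ ξ, D.Adm r ξ →
      BB (Aop W D mu8 γ ξ) := by
  have hmem : r1 ∈ {r : ℝ | 0 ≤ r ∧ ∃ γ ∈ D.Γ, ∃ ξ, D.Adm r ξ ∧ ¬ BB (Aop W D mu8 γ ξ)} := by
    obtain ⟨γ, hγ, ξ, hξ, hs⟩ := hG.E1
    refine ⟨hG.r1_pos.le, γ, hγ, ξ, hξ, ?_⟩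
    rintro ⟨m, hm, hb⟩
    obtain ⟨f, hf1, hf2⟩ := hs m hm
    have := hb f
    rw [hf1, mul_one] at this
    linarith
  have hbdd : BddBelow {r : ℝ | 0 ≤ r ∧ ∃ γ ∈ D.Γ, ∃ ξ, D.Adm r ξ ∧
      ¬ BB (Aop W D mu8 γ ξ)} := ⟨0, fun r hr => hr.1⟩
  refine ⟨?_, csInf_le hbdd hmem, ?_⟩
  · refine lt_of_lt_of_le hG.g_pos (le_csInf ⟨r1, hmem⟩ ?_)
    rintro r ⟨hr0, γ, hγ, ξ, hξ, hn⟩
    by_contra hlt
    exact hn (l6d_BB W D hG hr0 (not_le.1 hlt) hγ hξ)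
  · intro r hr0 hr γ hγ ξ hξ
    by_contra hn
    exact absurd (csInf_le hbdd ⟨hr0, γ, hγ, ξ, hξ, hn⟩) (not_le.2 hr)

end Pool.Agent.Helper84.HRT
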