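import Mathlib
import Pool.Agent.Helper84.HRT.DefsA

open MeasureTheory Complex Filter
open scoped ENNReal ComplexConjugate InnerProductSpace BigOperators Topology

namespace Pool.Agent.Helper84.HRT

variable {H : Type} [NormedAddCommGroup H] [InnerProductSpace ℂ H] [CompleteSpace H]

theorem l5b_surj (A : H →L[ℂ] H) (hs : ∀ f h, inner ℂ (A f) h = inner ℂ f (A h)) (m : ℝ)
    (hm : 0 < m) (hb : ∀ u, m * ‖u‖ ≤ ‖A u‖) : Function.Surjective A := by
  have hanti : AntilipschitzWith (Real.toNNReal m⁻¹) A := by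
    apply ContinuousLinearMap.antilipschitz_of_bound
    intro x
    rw [Real.coe_toNNReal _ (by positivity)]
    have := hb x
    rw [inv_mul_eq_div, le_div_iff₀ hm]
    linarith
  have hcl : IsClosed (Set.range A) := hanti.isClosed_range A.uniformContinuous
  have hcl' : IsClosed ((LinearMap.range (A : H →ₗ[ℂ] H) : Submodule ℂ H) : Set H) := by
    rw [LinearMap.coe_range]
    exact hcl
  have hbot : (LinearMap.range (A : H →ₗ[ℂ] H))ᗮ = ⊥ := by
    rw [Submodule.eq_bot_iff]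
    intro v hv
    rw [Submodule.mem_orthogonal] at hv
    have h1 : inner ℂ (A (A v)) v = 0 := hv (A (A v)) ⟨A v, rfl⟩
    rw [hs] at h1
    have h2 : A v = 0 := inner_self_eq_zero.mp h1
    have h3 := hb v
    rw [h2, norm_zero] at h3
    have h4 : ‖v‖ ≤ 0 := by
      by_contra h
      push Not at h
      have := mul_pos hm h
      linarith
    exact norm_le_zero_iff.mp h4
  have htop := (Submodule.topologicalClosure_eq_top_iff (K := LinearMap.range (A : H →ₗ[ℂ] H))).mpr hbot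
  rw [IsClosed.submodule_topologicalClosure_eq hcl'] at htop
  intro y
  have : y ∈ LinearMap.range (A : H →ₗ[ℂ] H) := by rw [htop]; trivial
  obtain ⟨x, hx⟩ := this
  exact ⟨x, hx⟩

/-- the scalar function y(s) = Re inner(phi, R(s) phi) with its derivative. -/
theorem l5b_scalar (B X : H →L[ℂ] H) (b : ℝ)
    (hB : ∀ f h, inner ℂ (B f) h = inner ℂ f (B h)) (hX : ∀ f h, inner ℂ (X f) h = inner ℂ f (X h))
    (hinv : ∀ s : ℝ, 0 ≤ s → s ≤ b → ∃ m : ℝ, 0 < m ∧ ∀ u : H, m * ‖u‖ ≤ ‖B u + (s : ℂ) • X u‖)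
    (φ : H) : ∃ u : ℝ → H, (∀ s ∈ Set.Icc 0 b, B (u s) + (s : ℂ) • X (u s) = φ) ∧
      ∀ s ∈ Set.Icc 0 b, HasDerivWithinAt (fun t => (inner ℂ φ (u t) : ℂ).re)
        (-(inner ℂ (u s) (X (u s)) : ℂ).re) (Set.Icc 0 b) s := by
  have hex : ∀ s ∈ Set.Icc 0 b, ∃ v : H, B v + (s : ℂ) • X v = φ := by
    intro s hs
    obtain ⟨m, hm, hmb⟩ := hinv s hs.1 hs.2
    obtain ⟨v, hv⟩ := l5b_surj (B + (s : ℂ) • X) (by
      intro f h
      simp only [ContinuousLinearMap.add_apply, ContinuousLinearMap.smul_apply, inner_add_left,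
        inner_add_right, inner_smul_left, inner_smul_right, hB f h, hX f h, Complex.conj_ofReal])
      m hm (by intro u; simpa using hmb u) φ
    exact ⟨v, by simpa using hv⟩
  choose! u hu using hex
  refine ⟨u, hu, ?_⟩
  intro s hs
  -- difference formula
  have hdiff : ∀ t ∈ Set.Icc 0 b, (inner ℂ φ (u t) : ℂ).re - (inner ℂ φ (u s) : ℂ).re
      = (t - s) * (-(inner ℂ (u s) (X (u t)) : ℂ).re) := by
    intro t ht
    have h1 : (inner ℂ φ (u t) : ℂ) = inner ℂ (u s) (B (u t)) + (s : ℂ) * inner ℂ (u s) (X (u t)) := by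
      conv_lhs => rw [← hu s hs]
      rw [inner_add_left, inner_smul_left, Complex.conj_ofReal, hB, hX]
    have h2 : (inner ℂ (u s) φ : ℂ) = inner ℂ (u s) (B (u t)) + (t : ℂ) * inner ℂ (u s) (X (u t)) := by
      conv_lhs => rw [← hu t ht]
      rw [inner_add_right, inner_smul_right]
    have h3 : (inner ℂ φ (u s) : ℂ).re = (inner ℂ (u s) φ : ℂ).re := by
      rw [← inner_conj_symm, Complex.conj_re]
    rw [h3, h1, h2]
    simp only [Complex.add_re, Complex.mul_re, Complex.ofReal_re, Complex.ofReal_im, zero_mul,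
      sub_zero]
    ring
  -- continuity of u at s within the interval
  have hcont : Tendsto u (𝓝[Set.Icc 0 b] s) (𝓝 (u s)) := by
    obtain ⟨m, hm, hmb⟩ := hinv s hs.1 hs.2
    set K : ℝ := ‖X‖ + 1 with hK
    have hKpos : 0 < K := by positivity
    rw [tendsto_iff_norm_sub_tendsto_zero]
    have hbd : ∀ᶠ t in 𝓝[Set.Icc 0 b] s, ‖u t - u s‖ ≤ 2 / m * (K * ‖u s‖) * |t - s| := by
      have hball : ∀ᶠ t in 𝓝[Set.Icc 0 b] s, |t - s| < m / (2 * K) := by
        apply mem_nhdsWithin_of_mem_nhds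
        have : Metric.ball s (m / (2 * K)) ∈ 𝓝 s := Metric.ball_mem_nhds s (by positivity)
        filter_upwards [this] with t ht
        rwa [Metric.mem_ball, Real.dist_eq] at ht
      filter_upwards [hball, self_mem_nhdsWithin] with t ht htI
      have e1 : B (u t - u s) + (s : ℂ) • X (u t - u s) = -(((t - s : ℝ) : ℂ) • X (u t)) := by
        have a1 := hu t htI
        have a2 := hu s hs
        have a3 : B (u t) = φ - (t : ℂ) • X (u t) := by rw [← a1]; abel
        have a4 : B (u s) = φ - (s : ℂ) • X (u s) := by rw [← a2]; abel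
        rw [map_sub, map_sub, a3, a4, smul_sub, Complex.ofReal_sub, sub_smul]
        abel
      have e2 := hmb (u t - u s)
      rw [e1, norm_neg, norm_smul, Complex.norm_real, Real.norm_eq_abs] at e2
      have e3 : ‖X (u t)‖ ≤ K * ‖u t - u s‖ + K * ‖u s‖ := by
        calc ‖X (u t)‖ ≤ ‖X‖ * ‖u t‖ := X.le_opNorm _
          _ ≤ K * ‖u t‖ := by
              apply mul_le_mul_of_nonneg_right _ (norm_nonneg _)
              rw [hK]; linarith
          _ ≤ K * (‖u t - u s‖ + ‖u s‖) := by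
              apply mul_le_mul_of_nonneg_left _ hKpos.le
              calc ‖u t‖ = ‖(u t - u s) + u s‖ := by rw [sub_add_cancel]
                _ ≤ _ := norm_add_le _ _
          _ = _ := by ring
      have e4 : |t - s| * ‖X (u t)‖ ≤ m / 2 * ‖u t - u s‖ + |t - s| * (K * ‖u s‖) := by
        have f1 : |t - s| * ‖X (u t)‖ ≤ |t - s| * (K * ‖u t - u s‖ + K * ‖u s‖) :=
          mul_le_mul_of_nonneg_left e3 (abs_nonneg _)
        have f2 : |t - s| * K ≤ m / 2 := by
          have := mul_le_mul_of_nonneg_right ht.le hKpos.le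
          calc |t - s| * K ≤ m / (2 * K) * K := this
            _ = m / 2 := by field_simp
        have f3 : |t - s| * K * ‖u t - u s‖ ≤ m / 2 * ‖u t - u s‖ :=
          mul_le_mul_of_nonneg_right f2 (norm_nonneg _)
        linarith only [f1, f3]
      have e5 : m / 2 * ‖u t - u s‖ ≤ |t - s| * (K * ‖u s‖) := by linarith
      have e6 : ‖u t - u s‖ = 2 / m * (m / 2 * ‖u t - u s‖) := by field_simp
      rw [e6]
      calc 2 / m * (m / 2 * ‖u t - u s‖) ≤ 2 / m * (|t - s| * (K * ‖u s‖)) :=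
            mul_le_mul_of_nonneg_left e5 (by positivity)
        _ = _ := by ring
    have hlim : Tendsto (fun t => 2 / m * (K * ‖u s‖) * |t - s|) (𝓝[Set.Icc 0 b] s) (𝓝 0) := by
      have : Tendsto (fun t => 2 / m * (K * ‖u s‖) * |t - s|) (𝓝 s)
          (𝓝 (2 / m * (K * ‖u s‖) * |s - s|)) := by
        apply Continuous.tendsto
        fun_prop
      rw [sub_self, abs_zero, mul_zero] at this
      exact this.mono_left nhdsWithin_le_nhds
    exact squeeze_zero' (Eventually.of_forall fun t => norm_nonneg _) hbd hlim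
  rw [hasDerivWithinAt_iff_tendsto_slope]
  have hcont' : Tendsto (fun t => -(inner ℂ (u s) (X (u t)) : ℂ).re) (𝓝[Set.Icc 0 b \ {s}] s)
      (𝓝 (-(inner ℂ (u s) (X (u s)) : ℂ).re)) := by
    have h1 : Tendsto u (𝓝[Set.Icc 0 b \ {s}] s) (𝓝 (u s)) :=
      hcont.mono_left (nhdsWithin_mono _ Set.diff_subset)
    have h2 : Continuous fun v : H => -(inner ℂ (u s) (X v) : ℂ).re := by fun_prop
    exact (h2.tendsto (u s)).comp h1
  apply hcont'.congr'
  filter_upwards [self_mem_nhdsWithin] with t ht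
  have hne : t - s ≠ 0 := by
    intro h
    apply ht.2
    simp only [Set.mem_singleton_iff]
    linarith
  rw [slope_def_field, hdiff t ht.1]
  field_simp

theorem riccati_blow (g C0 c C1 τ : ℝ) (hg : 0 < g) (hC0 : 0 < C0) (hc : 0 < c) (hC1 : 0 < C1)
    (hτ : 0 < τ) : ∃ ε : ℝ, 0 < ε ∧ ∀ (H : Type) [NormedAddCommGroup H]
    [InnerProductSpace ℂ H] [CompleteSpace H] (B X : H →L[ℂ] H),
    (∀ f h, inner ℂ (B f) h = inner ℂ f (B h)) → (∀ f h, inner ℂ (X f) h = inner ℂ f (X h)) →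
    (∀ u, g * ‖u‖ ≤ ‖B u‖) → ‖X‖ ≤ C0 →
    (∀ s : ℝ, 0 < s → s ≤ 1 + τ → ∀ u : H,
      s * (inner ℂ u (X u) : ℂ).re ≤ -c * ‖u‖ ^ 2 + C1 * ‖B u + (s : ℂ) • X u‖ ^ 2) →
    (∀ s : ℝ, 0 ≤ s → s ≤ 1 + τ → ∃ m : ℝ, 0 < m ∧ ∀ u : H, m * ‖u‖ ≤ ‖B u + (s : ℂ) • X u‖) →
    ∀ u : H, ε * ‖u‖ ≤ ‖B u + X u‖ := by
  set a : ℝ := c / (1 + τ) with ha
  have hapos : 0 < a := by positivity
  set Y0 : ℝ := 2 / (a * τ) + 2 * C1 / a + 1 with hY0
  have hY0a : 0 < 2 / (a * τ) := by positivity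
  have hY0b : 0 < 2 * C1 / a := by positivity
  have hY0pos : 0 < Y0 := by rw [hY0]; linarith
  have hY0one : 1 ≤ Y0 := by rw [hY0]; linarith
  have hY0sq : 2 * C1 ≤ a * Y0 ^ 2 := by
    have h1 : 2 * C1 / a ≤ Y0 := by rw [hY0]; linarith
    have h2 : Y0 ≤ Y0 ^ 2 := by nlinarith only [hY0a, hY0b]
    have h3 : 2 * C1 / a ≤ Y0 ^ 2 := h1.trans h2
    rw [div_le_iff₀ hapos] at h3
    linarith
  have hY0t : 1 / Y0 ≤ a / 2 * τ := by
    have h1 : 2 / (a * τ) ≤ Y0 := by rw [hY0]; linarith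
    rw [div_le_iff₀ (by positivity)] at h1
    rw [div_le_iff₀ hY0pos]
    linarith only [h1]
  set s0 : ℝ := min 1 (g / (2 * C0)) with hs0
  have hs0pos : 0 < s0 := lt_min one_pos (by positivity)
  have hs0one : s0 ≤ 1 := min_le_left _ _
  have hs0g : s0 * C0 ≤ g / 2 := by
    have h1 : s0 ≤ g / (2 * C0) := min_le_right _ _
    calc s0 * C0 ≤ g / (2 * C0) * C0 := mul_le_mul_of_nonneg_right h1 hC0.le
      _ = g / 2 := by field_simp
  set κ : ℝ := 2 / g + C1 / s0 with hκ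
  have hκpos : 0 < κ := by positivity
  refine ⟨1 / (Y0 + κ), by positivity, ?_⟩
  intro H _ _ _ B X hB hX hBg hXC hT hinv u0
  by_contra hcon
  push Not at hcon
  set b : ℝ := 1 + τ with hb
  have hb1 : 1 < b := by rw [hb]; linarith only [hτ]
  -- lower bound for y(1)
  have hlow : ∀ (φ : H) (u : ℝ → H), (∀ s ∈ Set.Icc 0 b, B (u s) + (s : ℂ) • X (u s) = φ) →
      (∀ s ∈ Set.Icc 0 b, HasDerivWithinAt (fun t => (inner ℂ φ (u t) : ℂ).re)
        (-(inner ℂ (u s) (X (u s)) : ℂ).re) (Set.Icc 0 b) s) →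
      -(κ * ‖φ‖ ^ 2) ≤ (inner ℂ φ (u 1) : ℂ).re := by
    intro φ u hu hd
    set y : ℝ → ℝ := fun t => (inner ℂ φ (u t) : ℂ).re with hy
    have hs0I : s0 ∈ Set.Icc 0 b := ⟨hs0pos.le, by linarith⟩
    have hy0 : -(2 / g * ‖φ‖ ^ 2) ≤ y s0 := by
      have h1 : g / 2 * ‖u s0‖ ≤ ‖φ‖ := by
        have e1 := hBg (u s0)
        have e2 : ‖B (u s0)‖ ≤ ‖φ‖ + s0 * C0 * ‖u s0‖ := by
          have : B (u s0) = φ - (s0 : ℂ) • X (u s0) := by rw [← hu s0 hs0I]; abel
          rw [this]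
          calc ‖φ - (s0 : ℂ) • X (u s0)‖ ≤ ‖φ‖ + ‖(s0 : ℂ) • X (u s0)‖ := norm_sub_le _ _
            _ ≤ ‖φ‖ + s0 * C0 * ‖u s0‖ := by
              gcongr
              rw [norm_smul, Complex.norm_real, Real.norm_eq_abs, abs_of_pos hs0pos, mul_assoc]
              gcongr
              exact X.le_of_opNorm_le hXC _
        have e3 : s0 * C0 * ‖u s0‖ ≤ g / 2 * ‖u s0‖ :=
          mul_le_mul_of_nonneg_right hs0g (norm_nonneg _)
        linarith
      have h2 : ‖u s0‖ ≤ 2 / g * ‖φ‖ := by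
        have : ‖u s0‖ = 2 / g * (g / 2 * ‖u s0‖) := by field_simp
        rw [this]
        exact mul_le_mul_of_nonneg_left h1 (by positivity)
      have h3 : |y s0| ≤ ‖φ‖ * ‖u s0‖ := by
        calc |y s0| ≤ ‖(inner ℂ φ (u s0) : ℂ)‖ := Complex.abs_re_le_norm _
          _ ≤ _ := norm_inner_le_norm _ _
      have h4 : ‖φ‖ * ‖u s0‖ ≤ 2 / g * ‖φ‖ ^ 2 := by
        calc ‖φ‖ * ‖u s0‖ ≤ ‖φ‖ * (2 / g * ‖φ‖) := mul_le_mul_of_nonneg_left h2 (norm_nonneg _)
          _ = _ := by ring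
      have := neg_abs_le (y s0)
      linarith
    have hmono : MonotoneOn (fun s => y s + C1 / s0 * ‖φ‖ ^ 2 * s) (Set.Icc s0 1) := by
      apply monotoneOn_of_hasDerivWithinAt_nonneg (convex_Icc s0 1)
        (f' := fun s => -(inner ℂ (u s) (X (u s)) : ℂ).re + C1 / s0 * ‖φ‖ ^ 2 * 1)
      · intro s hs
        have hsI : s ∈ Set.Icc 0 b := ⟨hs0pos.le.trans hs.1, by linarith [hs.2]⟩
        have := ((hd s hsI).mono (Set.Icc_subset_Icc hs0pos.le hb1.le)).continuousWithinAt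
        exact this.add (by fun_prop)
      · intro s hs
        rw [interior_Icc] at hs ⊢
        have hsI : s ∈ Set.Icc 0 b := ⟨(hs0pos.trans hs.1).le, by linarith [hs.2]⟩
        have h1 := (hd s hsI).mono (Set.Ioo_subset_Icc_self.trans
          (Set.Icc_subset_Icc hs0pos.le hb1.le : Set.Icc s0 1 ⊆ Set.Icc 0 b))
        exact h1.add ((hasDerivWithinAt_id s _).const_mul _)
      · intro s hs
        rw [interior_Icc] at hs
        have hspos : 0 < s := hs0pos.trans hs.1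
        have hsI : s ∈ Set.Icc 0 b := ⟨hspos.le, by linarith [hs.2]⟩
        have h1 := hT s hspos hsI.2 (u s)
        rw [hu s hsI] at h1
        have h2 : (inner ℂ (u s) (X (u s)) : ℂ).re ≤ C1 / s * ‖φ‖ ^ 2 := by
          have : s * (inner ℂ (u s) (X (u s)) : ℂ).re ≤ C1 * ‖φ‖ ^ 2 := by
            have : 0 ≤ c * ‖u s‖ ^ 2 := by positivity
            linarith
          rw [div_mul_eq_mul_div, le_div_iff₀ hspos]
          linarith
        have h3 : C1 / s * ‖φ‖ ^ 2 ≤ C1 / s0 * ‖φ‖ ^ 2 := by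
          apply mul_le_mul_of_nonneg_right _ (by positivity)
          exact div_le_div_of_nonneg_left hC1.le hs0pos hs.1.le
        beta_reduce
        linarith only [h2, h3]
    have h5 := hmono (Set.left_mem_Icc.mpr hs0one) (Set.right_mem_Icc.mpr hs0one) hs0one
    beta_reduce at h5
    have h6 : C1 / s0 * ‖φ‖ ^ 2 * s0 ≥ 0 := by positivity
    have h7 : κ * ‖φ‖ ^ 2 = 2 / g * ‖φ‖ ^ 2 + C1 / s0 * ‖φ‖ ^ 2 := by rw [hκ]; ring
    rw [h7]
    show _ ≤ y 1
    linarith only [hy0, h5, h6]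
  -- the vector
  have hu0 : u0 ≠ 0 := by
    intro h
    rw [h] at hcon
    simp at hcon
  set ψ : H := B u0 + X u0 with hψ
  have hψ0 : ψ ≠ 0 := by
    obtain ⟨m, hm, hmb⟩ := hinv 1 zero_le_one hb1.le
    intro h
    have := hmb u0
    rw [Complex.ofReal_one, one_smul, ← hψ, h, norm_zero] at this
    have h2 : 0 < ‖u0‖ := norm_pos_iff.mpr hu0
    have := mul_pos hm h2
    linarith
  have hψn : 0 < ‖ψ‖ := norm_pos_iff.mpr hψ0
  have hun : 0 < ‖u0‖ := norm_pos_iff.mpr hu0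
  set t : ℝ := ‖ψ‖ / ‖u0‖ with ht
  have htpos : 0 < t := by positivity
  -- inverse of A(1)
  obtain ⟨m1, hm1, hmb1⟩ := hinv 1 zero_le_one hb1.le
  have hinj : ∀ v w : H, B v + X v = B w + X w → v = w := by
    intro v w h
    have := hmb1 (v - w)
    rw [Complex.ofReal_one, one_smul] at this
    have e : B (v - w) + X (v - w) = 0 := by
      rw [map_sub, map_sub]
      have : B v - B w + (X v - X w) = (B v + X v) - (B w + X w) := by abel
      rw [this, h, sub_self]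
    rw [e, norm_zero] at this
    have h2 : ‖v - w‖ ≤ 0 := by
      by_contra h3
      push Not at h3
      have := mul_pos hm1 h3
      linarith
    exact sub_eq_zero.mp (norm_le_zero_iff.mp h2)
  -- solution w1 of A(1) w1 = u0
  obtain ⟨w1, hw1⟩ := l5b_surj (B + X) (by
      intro f h
      simp only [ContinuousLinearMap.add_apply, inner_add_left, inner_add_right, hB f h, hX f h])
      m1 hm1 (by intro u; simpa using hmb1 u) u0
  rw [ContinuousLinearMap.add_apply] at hw1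
  set φ : H := ψ + (t : ℂ) • u0 with hφ
  set φ' : H := ψ - (t : ℂ) • u0 with hφ'
  obtain ⟨u, hu, hd⟩ := l5b_scalar B X b hB hX hinv φ
  obtain ⟨u', hu', hd'⟩ := l5b_scalar B X b hB hX hinv φ'
  have h1I : (1 : ℝ) ∈ Set.Icc 0 b := ⟨zero_le_one, hb1.le⟩
  have hu1 : u 1 = u0 + (t : ℂ) • w1 := by
    apply hinj
    have e := hu 1 h1I
    rw [Complex.ofReal_one, one_smul] at e
    rw [e, hφ, map_add, map_add, map_smul, map_smul, hψ]
    have : B u0 + (t : ℂ) • B w1 + (X u0 + (t : ℂ) • X w1)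
        = B u0 + X u0 + (t : ℂ) • (B w1 + X w1) := by rw [smul_add]; abel
    rw [this, hw1]
  have hu1' : u' 1 = u0 - (t : ℂ) • w1 := by
    apply hinj
    have e := hu' 1 h1I
    rw [Complex.ofReal_one, one_smul] at e
    rw [e, hφ', map_sub, map_sub, map_smul, map_smul, hψ]
    have : B u0 - (t : ℂ) • B w1 + (X u0 - (t : ℂ) • X w1)
        = B u0 + X u0 - (t : ℂ) • (B w1 + X w1) := by rw [smul_add]; abel
    rw [this, hw1]
  have hpsiw : (inner ℂ ψ w1 : ℂ) = inner ℂ u0 u0 := by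
    rw [hψ, inner_add_left, hB, hX, ← inner_add_right, hw1]
  have hpol : (inner ℂ φ (u 1) : ℂ).re - (inner ℂ φ' (u' 1) : ℂ).re = 4 * t * ‖u0‖ ^ 2 := by
    rw [hu1, hu1', hφ, hφ']
    have e1 : (inner ℂ u0 u0 : ℂ).re = ‖u0‖ ^ 2 := by
      rw [inner_self_eq_norm_sq_to_K]
      simp [← Complex.ofReal_pow]
    simp only [inner_add_left, inner_add_right, inner_sub_left, inner_sub_right, inner_smul_left,
      inner_smul_right, Complex.conj_ofReal, hpsiw, Complex.add_re, Complex.sub_re,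
      Complex.re_ofReal_mul, e1]
    ring
  have hφn : ‖φ‖ ≤ 2 * ‖ψ‖ := by
    have e : ‖(t : ℂ) • u0‖ = ‖ψ‖ := by
      rw [norm_smul, Complex.norm_real, Real.norm_eq_abs, abs_of_pos htpos, ht]
      field_simp
    calc ‖φ‖ ≤ ‖ψ‖ + ‖(t : ℂ) • u0‖ := norm_add_le _ _
      _ = 2 * ‖ψ‖ := by rw [e]; ring
  have hφn' : ‖φ'‖ ≤ 2 * ‖ψ‖ := by
    have e : ‖(t : ℂ) • u0‖ = ‖ψ‖ := by
      rw [norm_smul, Complex.norm_real, Real.norm_eq_abs, abs_of_pos htpos, ht]
      field_simp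
    calc ‖φ'‖ ≤ ‖ψ‖ + ‖(t : ℂ) • u0‖ := norm_sub_le _ _
      _ = 2 * ‖ψ‖ := by rw [e]; ring
  have hl' := hlow φ' u' hu' hd'
  have hYκ : 0 < Y0 + κ := by linarith
  have hbig : (Y0 + κ) * ‖ψ‖ < ‖u0‖ := by
    have h1 := mul_lt_mul_of_pos_left hcon hYκ
    have h2 : (Y0 + κ) * (1 / (Y0 + κ) * ‖u0‖) = ‖u0‖ := by field_simp
    rw [h2] at h1
    exact h1
  have htu : t * ‖u0‖ ^ 2 = ‖ψ‖ * ‖u0‖ := by rw [ht]; field_simp
  have hφ'sq : ‖φ'‖ ^ 2 ≤ 4 * ‖ψ‖ ^ 2 := by
    have := mul_self_le_mul_self (norm_nonneg φ') hφn'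
    linarith only [this]
  have hφsq : ‖φ‖ ^ 2 ≤ 4 * ‖ψ‖ ^ 2 := by
    have := mul_self_le_mul_self (norm_nonneg φ) hφn
    linarith only [this]
  have hy1a : 4 * (Y0 * ‖ψ‖ ^ 2) < (inner ℂ φ (u 1) : ℂ).re := by
    have e1 : 4 * t * ‖u0‖ ^ 2 = 4 * (‖ψ‖ * ‖u0‖) := by rw [← htu]; ring
    have e2 : ‖ψ‖ * ((Y0 + κ) * ‖ψ‖) < ‖ψ‖ * ‖u0‖ := mul_lt_mul_of_pos_left hbig hψn
    have e3 : κ * ‖φ'‖ ^ 2 ≤ κ * (4 * ‖ψ‖ ^ 2) := mul_le_mul_of_nonneg_left hφ'sq hκpos.le
    linarith only [hpol, hl', htu, e2, e3]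
  have hy1 : Y0 * ‖φ‖ ^ 2 < (inner ℂ φ (u 1) : ℂ).re := by
    have := mul_le_mul_of_nonneg_left hφsq hY0pos.le
    linarith
  have hφpos : 0 < ‖φ‖ := by
    rcases (norm_nonneg φ).eq_or_lt with h | h
    · exfalso
      have h0 : φ = 0 := norm_eq_zero.mp h.symm
      rw [h0] at hy1
      simp at hy1
    · exact h
  set N : ℝ := ‖φ‖ ^ 2 with hN
  have hNpos : 0 < N := by positivity
  set y : ℝ → ℝ := fun t => (inner ℂ φ (u t) : ℂ).re with hy
  have hder : ∀ s ∈ Set.Icc 1 b,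
      a * (y s) ^ 2 / N - C1 * N ≤ -(inner ℂ (u s) (X (u s)) : ℂ).re := by
    intro s hs
    have hspos : 0 < s := by linarith [hs.1]
    have hsI : s ∈ Set.Icc 0 b := ⟨hspos.le, hs.2⟩
    have h1 := hT s hspos hs.2 (u s)
    rw [hu s hsI] at h1
    have h2 : (y s) ^ 2 ≤ N * ‖u s‖ ^ 2 := by
      have e1 : |y s| ≤ ‖φ‖ * ‖u s‖ := by
        calc |y s| ≤ ‖(inner ℂ φ (u s) : ℂ)‖ := Complex.abs_re_le_norm _
          _ ≤ _ := norm_inner_le_norm _ _
      have e2 : |y s| ^ 2 ≤ (‖φ‖ * ‖u s‖) ^ 2 := pow_le_pow_left₀ (abs_nonneg _) e1 2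
      rw [sq_abs, mul_pow] at e2
      exact e2
    have h3 : a * (y s) ^ 2 / N ≤ c / s * ‖u s‖ ^ 2 := by
      rw [div_le_iff₀ hNpos]
      have e1 : a ≤ c / s := by
        rw [ha]
        exact div_le_div_of_nonneg_left hc.le hspos hs.2
      calc a * y s ^ 2 ≤ c / s * (N * ‖u s‖ ^ 2) :=
            mul_le_mul e1 h2 (sq_nonneg _) (by positivity)
        _ = c / s * ‖u s‖ ^ 2 * N := by ring
    have h4 : (inner ℂ (u s) (X (u s)) : ℂ).re ≤ -(c / s * ‖u s‖ ^ 2) + C1 / s * N := by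
      have e1 : (inner ℂ (u s) (X (u s)) : ℂ).re * s ≤ -c * ‖u s‖ ^ 2 + C1 * N := by linarith
      rw [← le_div_iff₀ hspos] at e1
      calc (inner ℂ (u s) (X (u s)) : ℂ).re ≤ (-c * ‖u s‖ ^ 2 + C1 * N) / s := e1
        _ = _ := by ring
    have h5 : C1 / s * N ≤ C1 * N := by
      apply mul_le_mul_of_nonneg_right _ hNpos.le
      rw [div_le_iff₀ hspos]
      nlinarith only [hC1, hs, hs.1]
    linarith only [h3, h4, h5]
  have hcontY : ContinuousOn y (Set.Icc 1 b) := by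
    intro s hs
    have hsI : s ∈ Set.Icc 0 b := ⟨by linarith [hs.1], hs.2⟩
    exact ((hd s hsI).mono (Set.Icc_subset_Icc_left zero_le_one)).continuousWithinAt
  -- y stays large
  have hstay : ∀ s ∈ Set.Icc 1 b, Y0 * N ≤ y s := by
    have := image_le_of_deriv_right_lt_deriv_boundary' (f := fun _ => Y0 * N) (f' := fun _ => 0)
      (a := 1) (b := b) continuousOn_const (fun x _ => hasDerivWithinAt_const _ _ _)
      (B := y) (B' := fun s => -(inner ℂ (u s) (X (u s)) : ℂ).re) hy1.le hcontY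
      (by
        intro s hs
        have hsI : s ∈ Set.Icc 0 b := ⟨by linarith [hs.1], hs.2.le⟩
        have h1 := (hd s hsI).mono (Set.Icc_subset_Icc_left (by linarith [hs.1] : (0:ℝ) ≤ s))
        exact h1.mono_of_mem_nhdsWithin (Icc_mem_nhdsGE hs.2))
      (by
        intro s hs heq
        beta_reduce at heq
        have h1 := hder s ⟨hs.1, hs.2.le⟩
        rw [← heq] at h1
        have e1 : a * (Y0 * N) ^ 2 / N = a * Y0 ^ 2 * N := by field_simp
        rw [e1] at h1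
        have e2 : 2 * C1 * N ≤ a * Y0 ^ 2 * N := mul_le_mul_of_nonneg_right hY0sq hNpos.le
        have e3 : 0 < C1 * N := by positivity
        linarith only [h1, e2, e3])
    intro s hs
    exact this hs
  have hypos : ∀ s ∈ Set.Icc 1 b, 0 < y s := by
    intro s hs
    have := hstay s hs
    have h2 : 0 < Y0 * N := by positivity
    linarith
  -- the function -N/y - (a/2) s is monotone
  have hmono2 : MonotoneOn (fun s => N * (-(y s)⁻¹) - a / 2 * s) (Set.Icc 1 b) := by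
    apply monotoneOn_of_hasDerivWithinAt_nonneg (convex_Icc 1 b)
      (f' := fun s => N * (-(-(-(inner ℂ (u s) (X (u s)) : ℂ).re) / (y s) ^ 2)) - a / 2 * 1)
    · intro s hs
      have h1 := hcontY s hs
      have h2 := h1.inv₀ (hypos s hs).ne'
      exact (h2.neg.const_mul N |>.sub (by fun_prop))
    · intro s hs
      rw [interior_Icc] at hs ⊢
      have hsI : s ∈ Set.Icc 0 b := ⟨by linarith [hs.1], hs.2.le⟩
      have h1 := (hd s hsI).mono (Set.Ioo_subset_Icc_self.trans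
        (Set.Icc_subset_Icc_left zero_le_one : Set.Icc 1 b ⊆ Set.Icc 0 b))
      have h2 := h1.inv (hypos s ⟨hs.1.le, hs.2.le⟩).ne'
      exact (h2.neg.const_mul N).sub ((hasDerivWithinAt_id s _).const_mul _)
    · intro s hs
      rw [interior_Icc] at hs
      have hs' : s ∈ Set.Icc 1 b := ⟨hs.1.le, hs.2.le⟩
      have h1 := hder s hs'
      have h2 := hstay s hs'
      have h3 := hypos s hs'
      beta_reduce
      have h4 : a / 2 ≤ N * (-(inner ℂ (u s) (X (u s)) : ℂ).re) / (y s) ^ 2 := by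
        rw [le_div_iff₀ (by positivity)]
        have e1 : N * (a * (y s) ^ 2 / N - C1 * N) = a * (y s) ^ 2 - C1 * N ^ 2 := by field_simp
        have e2 := mul_le_mul_of_nonneg_left h1 hNpos.le
        rw [e1] at e2
        have e3 : (Y0 * N) ^ 2 ≤ (y s) ^ 2 := pow_le_pow_left₀ (by positivity) h2 2
        have e4 : 2 * C1 * N ^ 2 ≤ a * (Y0 * N) ^ 2 := by
          have := mul_le_mul_of_nonneg_right hY0sq (sq_nonneg N)
          linarith only [this]
        have e5 := mul_le_mul_of_nonneg_left e3 hapos.le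
        linarith only [e2, e4, e5]
      have h5 : N * (-(-(-(inner ℂ (u s) (X (u s)) : ℂ).re) / (y s) ^ 2))
          = N * (-(inner ℂ (u s) (X (u s)) : ℂ).re) / (y s) ^ 2 := by ring
      rw [h5]
      linarith only [h4]
  have hfin := hmono2 (Set.left_mem_Icc.mpr hb1.le) (Set.right_mem_Icc.mpr hb1.le) hb1.le
  beta_reduce at hfin
  have h1I' : (1 : ℝ) ∈ Set.Icc 1 b := Set.left_mem_Icc.mpr hb1.le
  have hbI' : b ∈ Set.Icc 1 b := Set.right_mem_Icc.mpr hb1.le
  have q1 : N * (y 1)⁻¹ ≤ 1 / Y0 := by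
    have := hstay 1 h1I'
    rw [← div_eq_mul_inv, div_le_iff₀ (hypos 1 h1I'), one_div]
    have h2 : Y0⁻¹ * (Y0 * N) = N := by field_simp
    calc N = Y0⁻¹ * (Y0 * N) := h2.symm
      _ ≤ Y0⁻¹ * y 1 := mul_le_mul_of_nonneg_left this (by positivity)
  have q2 : 0 < N * (y b)⁻¹ := mul_pos hNpos (inv_pos.mpr (hypos b hbI'))
  have q3 : a / 2 * b = a / 2 + a / 2 * τ := by rw [hb]; ring
  rw [q3] at hfin
  linarith only [hY0t, hfin, q1, q2]

end Pool.Agent.Helper84.HRT
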