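import Mathlib
import Pool.Agent.Helper84.HRT.DefsA
import Pool.Agent.Helper84.HRT.WA
import Pool.Agent.Helper84.HRT.WC
import Pool.Agent.Helper84.HRT.XA
import Pool.Agent.Helper84.HRT.XB
import Pool.Agent.Helper84.HRT.XC

open MeasureTheory Complex Filter
open scoped ENNReal ComplexConjugate InnerProductSpace BigOperators Topology

namespace Pool.Agent.Helper84.HRT

variable {H : Type} [NormedAddCommGroup H] [InnerProductSpace ℂ H] [CompleteSpace H]

/-- clipping to the disc of radius `ρ` -/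
private noncomputable def l6c_clip (ρ : ℝ) (a : ℂ) : ℂ :=
  if ‖a‖ ≤ ρ then a else ((ρ / ‖a‖ : ℝ) : ℂ) * a

private theorem l6c_clip_norm {ρ : ℝ} (hρ : 0 ≤ ρ) (a : ℂ) : ‖l6c_clip ρ a‖ ≤ ρ := by
  unfold l6c_clip
  split_ifs with h
  · exact h
  · have ha : 0 < ‖a‖ := lt_of_le_of_lt hρ (not_le.1 h)
    rw [norm_mul, Complex.norm_real, Real.norm_eq_abs, abs_of_nonneg (div_nonneg hρ ha.le),
      div_mul_cancel₀ _ ha.ne']

private theorem l6c_clip_conj (ρ : ℝ) (a : ℂ) : l6c_clip ρ (conj a) = conj (l6c_clip ρ a) := by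
  unfold l6c_clip
  rw [RCLike.norm_conj]
  split_ifs with h
  · rfl
  · rw [map_mul, Complex.conj_ofReal]

private theorem l6c_clip_sub {ρ : ℝ} (hρ : 0 ≤ ρ) (a : ℂ) :
    ‖l6c_clip ρ a - a‖ ≤ max 0 (‖a‖ - ρ) := by
  unfold l6c_clip
  split_ifs with h
  · simp
  · have ha : 0 < ‖a‖ := lt_of_le_of_lt hρ (not_le.1 h)
    refine le_trans (le_of_eq ?_) (le_max_right _ _)
    have h1 : ((ρ / ‖a‖ : ℝ) : ℂ) * a - a = ((ρ / ‖a‖ - 1 : ℝ) : ℂ) * a := by
      push_cast
      ring
    have h2 : ρ / ‖a‖ - 1 ≤ 0 := by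
      rw [sub_nonpos, div_le_one ha]
      exact (not_le.1 h).le
    rw [h1, norm_mul, Complex.norm_real, Real.norm_eq_abs, abs_of_nonpos h2]
    field_simp
    ring

/-- mean over the cell -/
private noncomputable def l6c_mn (ξ : ℝ → ℂ) (N : ℕ) (t : ℝ) : ℂ :=
  (N : ℂ) * ∫ x in (cell N t)..(cell N t + 1 / N), ξ x

private theorem l6c_mn_step (ξ : ℝ → ℂ) {N : ℕ} (hN : 0 < N) (t : ℝ) :
    l6c_mn ξ N (cell N t) = l6c_mn ξ N t := by
  unfold l6c_mn
  rw [cell_cell hN]

private theorem l6c_mn_half {ξ : ℝ → ℂ} (hs : ∀ᵐ t : ℝ, ξ (t + 1 / 2) = conj (ξ t)) {N : ℕ}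
    (hN : 0 < N) (h2 : 2 ∣ N) (t : ℝ) : l6c_mn ξ N (t + 1 / 2) = conj (l6c_mn ξ N t) := by
  have h1 : cell N (t + 1 / 2) = cell N t + 1 / 2 := by
    have := cell_add hN (p := 2) (by norm_num) h2 1 t
    push_cast at this
    exact this
  have hN' : (0 : ℝ) ≤ 1 / N := by positivity
  unfold l6c_mn
  rw [h1, map_mul, Complex.conj_natCast]
  congr 1
  have h3 : cell N t + 1 / 2 + 1 / (N : ℝ) = (cell N t + 1 / N) + 1 / 2 := by ring
  rw [h3, ← intervalIntegral.integral_comp_add_right (fun x => ξ x) (1 / 2 : ℝ)]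
  rw [intervalIntegral.integral_of_le (by linarith), intervalIntegral.integral_of_le (by linarith),
    ← integral_conj]
  exact integral_congr_ae (ae_restrict_of_ae hs)

private theorem l6c_mn_tendsto {ξ : ℝ → ℂ} (hloc : LocallyIntegrable ξ volume) :
    ∀ᵐ t : ℝ, Tendsto (fun N : ℕ => l6c_mn ξ N t) atTop (𝓝 (ξ t)) := by
  filter_upwards [IsUnifLocDoublingMeasure.ae_tendsto_average (μ := (volume : Measure ℝ)) hloc 1]
    with t ht
  have hpos : ∀ᶠ N : ℕ in atTop, 0 < N := eventually_gt_atTop 0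
  have h0 : Tendsto (fun N : ℕ => 1 / (2 * (N : ℝ))) atTop (𝓝 0) := by
    have := (tendsto_one_div_atTop_nhds_zero_nat (𝕜 := ℝ)).const_mul (1 / 2 : ℝ)
    rw [mul_zero] at this
    refine this.congr fun N => ?_
    ring
  have h1 : Tendsto (fun N : ℕ => 1 / (2 * (N : ℝ))) atTop (𝓝[>] 0) := by
    refine tendsto_nhdsWithin_iff.2 ⟨h0, ?_⟩
    filter_upwards [hpos] with N hN
    have : (0 : ℝ) < N := Nat.cast_pos.2 hN
    rw [Set.mem_Ioi]
    positivity
  have h2 := ht (fun N : ℕ => cell N t + 1 / (2 * (N : ℝ))) (fun N : ℕ => 1 / (2 * (N : ℝ))) h1 (by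
    filter_upwards [hpos] with N hN
    have hN' : (0 : ℝ) < N := Nat.cast_pos.2 hN
    have ha := cell_le hN t
    have hb := lt_cell_add hN t
    have hc : (1 : ℝ) / N = 1 / (2 * N) + 1 / (2 * N) := by
      field_simp
      norm_num
    rw [Real.closedBall_eq_Icc, Set.mem_Icc]
    constructor <;> linarith)
  refine h2.congr' ?_
  filter_upwards [hpos] with N hN
  have hN' : (0 : ℝ) < N := Nat.cast_pos.2 hN
  have hc : (1 : ℝ) / N = 1 / (2 * N) + 1 / (2 * N) := by
    field_simp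
    norm_num
  have hd : Metric.closedBall (cell N t + 1 / (2 * (N : ℝ))) (1 / (2 * (N : ℝ))) =
      Set.Icc (cell N t) (cell N t + 1 / N) := by
    rw [Real.closedBall_eq_Icc, hc]
    congr 1 <;> ring
  rw [hd, setAverage_eq, Real.volume_real_Icc_of_le (by
    have : (0 : ℝ) ≤ 1 / N := by positivity
    linarith), integral_Icc_eq_integral_Ioc, ← intervalIntegral.integral_of_le (by
    have : (0 : ℝ) ≤ 1 / N := by positivity
    linarith)]
  unfold l6c_mn
  have he : (cell N t + 1 / (N : ℝ) - cell N t)⁻¹ = N := by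
    rw [add_sub_cancel_left, one_div, inv_inv]
  rw [he, Complex.real_smul, Complex.ofReal_natCast]

/-- discretisation of a pattern -/
theorem discretise (W : Weyl H) (D : Data) (r : ℝ) (hr : 0 ≤ r) (ξ : ℝ → ℂ) (h : D.Adm r ξ) :
    ∃ ξN : ℕ → ℝ → ℂ, (∀ n, D.AdmN (D.NN n) r (ξN n)) ∧ ∀ f : H,
      Tendsto (fun n => XL W (muN (D.NN n)) (ξN n) f) atTop (𝓝 (XL W mu8 ξ f)) := by
  have hbd : ∀ᵐ t : ℝ, ‖ξ t‖ ≤ r := by
    filter_upwards [h.bd] with t ht
    exact ht.trans (mul_le_of_le_one_right hr (D.κ_le t))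
  have hloc : LocallyIntegrable ξ volume :=
    (memLp_top_of_bound h.meas.aestronglyMeasurable r hbd).locallyIntegrable le_top
  obtain ⟨ξN, hξN⟩ : ∃ ξN : ℕ → ℝ → ℂ, ξN = fun n t =>
    l6c_clip (r * D.κN (D.NN n) t) (l6c_mn ξ (D.NN n) t) := ⟨_, rfl⟩
  have hρ : ∀ n t, 0 ≤ r * D.κN (D.NN n) t := fun n t => mul_nonneg hr (kN_nonneg D (NN_pos D n) t)
  have hadm : ∀ n, D.AdmN (D.NN n) r (ξN n) := by
    intro n
    refine ⟨fun t => ?_, fun t => ?_, fun t => ?_⟩
    · rw [hξN]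
      simp only
      rw [kN_step D (NN_pos D n), l6c_mn_step ξ (NN_pos D n)]
    · rw [hξN]
      simp only
      rw [kN_half D (NN_pos D n) (NN_even D n), l6c_mn_half h.sym (NN_pos D n) (NN_even D n),
        l6c_clip_conj]
    · rw [hξN]
      exact l6c_clip_norm (hρ n t) _
  refine ⟨ξN, hadm, fun f => ?_⟩
  have h1 : ∀ n, XL W (muN (D.NN n)) (ξN n) f =
      ∫ t, ξN n t • W.U (node (cell (D.NN n) t)) f ∂mu8 := by
    intro n
    rw [XL_apply W (AdmN.bdN (NN_pos D n) (hadm n) hr) f]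
    rw [← integral_step (NN_pos D n) (fun t => ξN n t • W.U (node (cell (D.NN n) t)) f) ?_]
    · refine integral_congr_ae ?_
      refine (muN_ae (NN_pos D n) _).2 fun k _ => ?_
      have hk : cell (D.NN n) ((k : ℝ) / D.NN n) = (k : ℝ) / D.NN n := by
        have := cell_grid (NN_pos D n) (k : ℤ)
        push_cast at this
        exact this
      simp only
      rw [hk]
    · intro t
      rw [(hadm n).step, cell_cell (NN_pos D n)]
  rw [XL_apply W (Adm.bd8 h hr) f]
  simp only [h1]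
  refine tendsto_integral_of_dominated_convergence (fun _ => r * ‖f‖) ?_ (integrable_const _) ?_ ?_
  · intro n
    have hm1 : Measurable (ξN n) := step_meas (ξN n) (hadm n).step
    have hm2 : StronglyMeasurable fun t => W.U (node (cell (D.NN n) t)) f :=
      ((W.cont f).stronglyMeasurable).comp_measurable
        (node_cont.measurable.comp (cell_meas (D.NN n)))
    exact (hm1.stronglyMeasurable.smul hm2).aestronglyMeasurable
  · intro n
    refine ae_of_all _ fun t => ?_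
    rw [norm_smul, W.norm_U]
    exact mul_le_mul_of_nonneg_right (AdmN.norm_le (NN_pos D n) (hadm n) hr t) (norm_nonneg _)
  · unfold mu8
    refine ae_restrict_of_ae ?_
    filter_upwards [l6c_mn_tendsto hloc, bad_null D, h.bd] with t ht1 ht2 ht3
    have hNN := NN_tendsto D
    have hm : Tendsto (fun n => l6c_mn ξ (D.NN n) t) atTop (𝓝 (ξ t)) := ht1.comp hNN
    have hk : Tendsto (fun n => D.κN (D.NN n) t) atTop (𝓝 (D.κ t)) :=
      (kN_tendsto D t ht2).comp hNN
    have hξ : Tendsto (fun n => ξN n t) atTop (𝓝 (ξ t)) := by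
      rw [tendsto_iff_norm_sub_tendsto_zero]
      have hA : Tendsto (fun n => max 0 (‖l6c_mn ξ (D.NN n) t‖ - r * D.κN (D.NN n) t) +
          ‖l6c_mn ξ (D.NN n) t - ξ t‖) atTop (𝓝 0) := by
        have h1' : Tendsto (fun n => ‖l6c_mn ξ (D.NN n) t‖ - r * D.κN (D.NN n) t) atTop
            (𝓝 (‖ξ t‖ - r * D.κ t)) := (hm.norm).sub (hk.const_mul r)
        have h2' : Tendsto (fun n => max 0 (‖l6c_mn ξ (D.NN n) t‖ - r * D.κN (D.NN n) t)) atTop
            (𝓝 (max 0 (‖ξ t‖ - r * D.κ t))) := tendsto_const_nhds.max h1'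
        rw [max_eq_left (sub_nonpos.2 ht3)] at h2'
        have h3' : Tendsto (fun n => ‖l6c_mn ξ (D.NN n) t - ξ t‖) atTop (𝓝 0) :=
          tendsto_iff_norm_sub_tendsto_zero.1 hm
        have := h2'.add h3'
        rwa [add_zero] at this
      refine squeeze_zero (fun n => norm_nonneg _) (fun n => ?_) hA
      have h4 : ξN n t - ξ t = (ξN n t - l6c_mn ξ (D.NN n) t) + (l6c_mn ξ (D.NN n) t - ξ t) := by
        ring
      rw [h4]
      refine (norm_add_le _ _).trans (add_le_add_left ?_ _)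
      rw [hξN]
      exact l6c_clip_sub (hρ n t) _
    have hcell : Tendsto (fun n => cell (D.NN n) t) atTop (𝓝 t) := by
      have hinv : Tendsto (fun n => 1 / ((D.NN n : ℕ) : ℝ)) atTop (𝓝 0) :=
        (tendsto_one_div_atTop_nhds_zero_nat (𝕜 := ℝ)).comp hNN
      have hlow : Tendsto (fun n => t - 1 / ((D.NN n : ℕ) : ℝ)) atTop (𝓝 t) := by
        have := (tendsto_const_nhds (x := t) (f := (atTop : Filter ℕ))).sub hinv
        rwa [sub_zero] at this
      refine tendsto_of_tendsto_of_tendsto_of_le_of_le hlow tendsto_const_nhds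
        (fun n => ?_) (fun n => ?_)
      · have := lt_cell_add (NN_pos D n) t
        simp only
        linarith
      · exact cell_le (NN_pos D n) t
    have hU : Tendsto (fun n => W.U (node (cell (D.NN n) t)) f) atTop (𝓝 (W.U (node t) f)) :=
      (((W.cont f).comp node_cont).tendsto t).comp hcell
    exact hξ.smul hU

end Pool.Agent.Helper84.HRT
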