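import Mathlib
import Pool.Agent.Helper84.HRT.DefsA
import Pool.Agent.Helper84.HRT.XA
import Pool.Agent.Helper84.HRT.XC
import Pool.Agent.Helper84.HRT.XB
import Pool.Agent.Helper84.HRT.XD
import Pool.Agent.Helper84.HRT.L4
import Pool.Agent.Helper84.HRT.L5B
import Pool.Agent.Helper84.HRT.L6B
import Pool.Agent.Helper84.HRT.L6C
import Pool.Agent.Helper84.HRT.L6D

open MeasureTheory Complex Filter
open scoped ENNReal ComplexConjugate InnerProductSpace BigOperators Topology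

namespace Pool.Agent.Helper84.HRT

variable {H : Type} [NormedAddCommGroup H] [InnerProductSpace ℂ H] [CompleteSpace H]

omit [CompleteSpace H] in
private theorem l6e_not_BB {T : H →L[ℂ] H} (h : ∀ ε : ℝ, 0 < ε → ∃ f : H, ‖f‖ = 1 ∧ ‖T f‖ < ε) :
    ¬ BB T := by
  rintro ⟨m, hm, hT⟩
  obtain ⟨f, hf, hf'⟩ := h m hm
  have := hT f
  rw [hf, mul_one] at this
  exact absurd this (not_le.2 hf')

/-- L7 -/
theorem usc (W : Weyl H) (D : Data) {rb r1 g c C : ℝ} (hG : Good W D rb r1 g c C) (ε : ℝ)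
    (hε : 0 < ε) : ∃ n0 : ℕ, ∀ n, n0 ≤ n → rN W D rb n ≤ rinf W D + ε := by
  obtain ⟨hρ0, -, -⟩ := rinf_spec W D hG
  -- a singular pattern with radius close to the infimum
  have hne : {r : ℝ | 0 ≤ r ∧ ∃ γ ∈ D.Γ, ∃ ξ, D.Adm r ξ ∧ ¬ BB (Aop W D mu8 γ ξ)}.Nonempty := by
    obtain ⟨γ, hγ, ξ, hξ, h⟩ := hG.E1
    exact ⟨r1, hG.r1_pos.le, γ, hγ, ξ, hξ, l6e_not_BB h⟩
  have hlt : rinf W D < rinf W D + ε / 2 := by linarith
  obtain ⟨r', ⟨hr'0, γ, hγ, ξ, hξ, hnot⟩, hr'⟩ := exists_lt_of_csInf_lt hne hlt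
  set ρ : ℝ := rinf W D with hρ
  set τ : ℝ := (ε / 2) / (ρ + ε / 2) with hτ
  have hτ0 : 0 < τ := by positivity
  have hτ1 : (1 + τ) * r' ≤ ρ + ε := by
    have h1 : (1 + τ) * r' ≤ (1 + τ) * (ρ + ε / 2) :=
      mul_le_mul_of_nonneg_left hr'.le (by positivity)
    have h2 : (1 + τ) * (ρ + ε / 2) = ρ + ε := by
      rw [hτ]
      field_simp
      ring
    exact h1.trans (le_of_eq h2)
  obtain ⟨ξN, hξN, hlim⟩ := discretise W D r' hr'0 ξ hξ
  obtain ⟨c', C', hc', hC', n0, hL4⟩ := L4 W D hG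
  obtain ⟨e, he, hblow⟩ := riccati_blow g (r' + 1) c' C' τ hG.g_pos (by linarith) hc' hC' hτ0
  -- an almost null vector
  have hu : ∃ u : H, ‖Aop W D mu8 γ ξ u‖ < e * ‖u‖ := by
    by_contra hcon
    push Not at hcon
    exact hnot ⟨e, he, hcon⟩
  obtain ⟨u, hu⟩ := hu
  have hA : Tendsto (fun n => ‖Bop W D γ u + XL W (muN (D.NN n)) (ξN n) u‖) atTop
      (𝓝 ‖Aop W D mu8 γ ξ u‖) := by
    have h1 : Aop W D mu8 γ ξ u = Bop W D γ u + XL W mu8 ξ u := rfl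
    rw [h1]
    exact (tendsto_const_nhds.add (hlim u)).norm
  obtain ⟨n1, hn1⟩ := eventually_atTop.1 (hA.eventually (gt_mem_nhds hu))
  refine ⟨max n0 n1, fun n hn => ?_⟩
  have hn0 : n0 ≤ n := (le_max_left _ _).trans hn
  have hn1' := hn1 n ((le_max_right _ _).trans hn)
  by_contra hcon
  push Not at hcon
  have hN := NN_pos D n
  have := muN_prob hN
  obtain ⟨-, hrb, hinv, -⟩ := rN_spec W D hG n
  have hbd := AdmN.bdN hN (hξN n) hr'0
  have hsm : ∀ s : ℝ, XL W (muN (D.NN n)) (fun t => (s : ℂ) * ξN n t) =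
      (s : ℂ) • XL W (muN (D.NN n)) (ξN n) := fun s => XL_smul W hbd (s : ℂ)
  have hAs : ∀ (s : ℝ) (v : H), Aop W D (muN (D.NN n)) γ (fun t => (s : ℂ) * ξN n t) v =
      Bop W D γ v + (s : ℂ) • XL W (muN (D.NN n)) (ξN n) v := by
    intro s v
    unfold Aop
    rw [hsm]
    rfl
  have hrad : ∀ s : ℝ, s ≤ 1 + τ → s * r' < rN W D rb n := by
    intro s hs
    have h1 : s * r' ≤ (1 + τ) * r' := mul_le_mul_of_nonneg_right hs hr'0
    linarith
  refine absurd (hblow H (Bop W D γ) (XL W (muN (D.NN n)) (ξN n)) (hG.sym γ hγ)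
    (XL_symN W hN (NN_even D n) hr'0 (hξN n)) (hG.E0 γ hγ)
    ((norm_XL_le W hr'0 hbd).trans (by linarith)) ?_ ?_ u) (not_le.2 hn1')
  · intro s hs0 hs v
    have h1 : D.AdmN (D.NN n) rb (fun t => (s : ℂ) * ξN n t) :=
      AdmN.mono hN ((hrad s hs).le.trans hrb) (AdmN.smul hs0.le (hξN n))
    have h2 := hL4 n hn0 γ hγ _ h1 v
    rw [hAs, hsm] at h2
    have h3 : (inner ℂ v (((s : ℂ) • XL W (muN (D.NN n)) (ξN n)) v) : ℂ).re =
        s * (inner ℂ v (XL W (muN (D.NN n)) (ξN n) v) : ℂ).re := by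
      rw [_root_.smul_apply, inner_smul_right, Complex.re_ofReal_mul]
    rw [h3] at h2
    exact h2
  · intro s hs0 hs
    obtain ⟨m, hm, hmv⟩ := hinv (s * r') (mul_nonneg hs0 hr'0) (hrad s hs) γ hγ _
      (AdmN.smul hs0 (hξN n))
    refine ⟨m, hm, fun v => ?_⟩
    have := hmv v
    rwa [hAs] at this

end Pool.Agent.Helper84.HRT
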