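import Mathlib
import Pool.Agent.Helper84.HRT.DefsA
import Pool.Agent.Helper84.HRT.XA
import Pool.Agent.Helper84.HRT.XB
import Pool.Agent.Helper84.HRT.XC
import Pool.Agent.Helper84.HRT.XD
import Pool.Agent.Helper84.HRT.L4
import Pool.Agent.Helper84.HRT.L5A
import Pool.Agent.Helper84.HRT.L6B
import Pool.Agent.Helper84.HRT.L6D
import Pool.Agent.Helper84.HRT.L6E
import Pool.Agent.Helper84.HRT.L10

open MeasureTheory Complex Filter
open scoped ENNReal ComplexConjugate InnerProductSpace BigOperators Topology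

namespace Pool.Agent.Helper84.HRT

variable {H : Type} [NormedAddCommGroup H] [InnerProductSpace ℂ H] [CompleteSpace H]

/-- the constant of the one sided bound -/
private theorem L6F_weaken {K K' a b : ℝ} (hK : K ≤ K') (ha : 0 ≤ a) (h : -(K * a) ≤ b) :
    -(a / (1 / K')) ≤ b := by
  rw [div_div_eq_mul_div, div_one]
  have := mul_le_mul_of_nonneg_right hK ha
  linarith [mul_comm a K']

/-- the one sided bound at `N = ∞` -/
private theorem L6F_AI (W : Weyl H) (D : Data) {rb r1 g c C : ℝ} (hG : Good W D rb r1 g c C)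
    (C0 : ℝ) (hC0 : rb ≤ C0) (γ : Fin D.m → ℂ) (hγ : γ ∈ D.Γ) (ξ : ℝ → ℂ)
    (hξ : D.Adm (rinf W D) ξ) (u : H) :
    -((2 / g + C * 1 * (2 * C0 / g)) * ‖Aop W D mu8 γ ξ u‖ ^ 2) ≤
      (inner ℂ u (Aop W D mu8 γ ξ u) : ℂ).re := by
  obtain ⟨hr0, hr1, hBB⟩ := rinf_spec W D hG
  have hrb : rinf W D ≤ rb := hr1.trans hG.r1_lt.le
  have hbd : Bd mu8 (rinf W D) ξ := Adm.bd8 hξ hr0.le
  have hC0pos : 0 < C0 := lt_of_lt_of_le (hr0.trans_le hrb) hC0
  have hsm : ∀ s : ℝ, XL W mu8 (fun t => (s : ℂ) * ξ t) = (s : ℂ) • XL W mu8 ξ := fun s =>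
    XL_smul W hbd (s : ℂ)
  have h := riccati_lower (Bop W D γ) (XL W mu8 ξ) (hG.sym γ hγ) (XL_sym8 W hr0.le hξ) g C0 c C 1
    hG.g_pos hC0pos hG.c_pos hG.C_pos one_pos (hG.E0 γ hγ)
    ((norm_XL_le W hr0.le hbd).trans (hrb.trans hC0)) ?_ ?_ 1 zero_le_one le_rfl u
  · have e : (Bop W D γ) u + ((1 : ℝ) : ℂ) • (XL W mu8 ξ) u = Aop W D mu8 γ ξ u := by
      rw [ofReal_one, one_smul]
      rfl
    rw [e] at h
    exact h
  · intro s hs hs1 v
    have h1 : D.Adm rb (fun t => (s : ℂ) * ξ t) := by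
      refine Adm.mono ?_ (Adm.smul hs.le hξ)
      exact (mul_le_of_le_one_left hr0.le hs1).trans hrb
    have h2 := hG.Tp γ hγ _ h1 v
    rw [hsm s] at h2
    have e1 : (inner ℂ v (((s : ℂ) • XL W mu8 ξ) v) : ℂ).re =
        s * (inner ℂ v (XL W mu8 ξ v) : ℂ).re := by
      rw [_root_.smul_apply, inner_smul_right, re_ofReal_mul]
    have e2 : Aop W D mu8 γ (fun t => (s : ℂ) * ξ t) v =
        Bop W D γ v + (s : ℂ) • XL W mu8 ξ v := by
      rw [Aop, hsm s]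
      rfl
    rw [e1, e2] at h2
    exact h2
  · intro s hs hs1
    have h1 : D.Adm (s * rinf W D) (fun t => (s : ℂ) * ξ t) := Adm.smul hs hξ
    obtain ⟨m, hm, hm2⟩ := hBB (s * rinf W D) (mul_nonneg hs hr0.le)
      (mul_lt_of_lt_one_left hr0 hs1) γ hγ _ h1
    refine ⟨m, hm, fun v => ?_⟩
    have e2 : Aop W D mu8 γ (fun t => (s : ℂ) * ξ t) v =
        Bop W D γ v + (s : ℂ) • XL W mu8 ξ v := by
      rw [Aop, hsm s]
      rfl
    rw [← e2]
    exact hm2 v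

/-- the one sided bound at level `n` -/
private theorem L6F_AIN (W : Weyl H) (D : Data) {rb r1 g c C : ℝ} (hG : Good W D rb r1 g c C)
    (C0 : ℝ) (hC0 : rb ≤ C0) (c' C' : ℝ) (hc' : 0 < c') (hC' : 0 < C') (n : ℕ)
    (h4 : ∀ γ ∈ D.Γ, ∀ ξ, D.AdmN (D.NN n) rb ξ → ∀ v : H,
      (inner ℂ v (XL W (muN (D.NN n)) ξ v) : ℂ).re ≤
        -c' * ‖v‖ ^ 2 + C' * ‖Aop W D (muN (D.NN n)) γ ξ v‖ ^ 2)
    (γ : Fin D.m → ℂ) (hγ : γ ∈ D.Γ) (ξ : ℝ → ℂ)
    (hξ : D.AdmN (D.NN n) (rN W D rb n) ξ) (u : H) :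
    -((2 / g + C' * 1 * (2 * C0 / g)) * ‖Aop W D (muN (D.NN n)) γ ξ u‖ ^ 2) ≤
      (inner ℂ u (Aop W D (muN (D.NN n)) γ ξ u) : ℂ).re := by
  obtain ⟨hr0, hrb, hBB, -⟩ := rN_spec W D hG n
  have hN := NN_pos D n
  have := muN_prob hN
  have hbd : Bd (muN (D.NN n)) (rN W D rb n) ξ := AdmN.bdN hN hξ hr0
  have hC0pos : 0 < C0 := lt_of_lt_of_le (hG.r1_pos.trans hG.r1_lt) hC0
  have hsm : ∀ s : ℝ, XL W (muN (D.NN n)) (fun t => (s : ℂ) * ξ t) =
      (s : ℂ) • XL W (muN (D.NN n)) ξ := fun s => XL_smul W hbd (s : ℂ)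
  have h := riccati_lower (Bop W D γ) (XL W (muN (D.NN n)) ξ) (hG.sym γ hγ)
    (XL_symN W hN (NN_even D n) hr0 hξ) g C0 c' C' 1
    hG.g_pos hC0pos hc' hC' one_pos (hG.E0 γ hγ)
    ((norm_XL_le W hr0 hbd).trans (hrb.trans hC0)) ?_ ?_ 1 zero_le_one le_rfl u
  · have e : (Bop W D γ) u + ((1 : ℝ) : ℂ) • (XL W (muN (D.NN n)) ξ) u =
        Aop W D (muN (D.NN n)) γ ξ u := by
      rw [ofReal_one, one_smul]
      rfl
    rw [e] at h
    exact h
  · intro s hs hs1 v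
    have h1 : D.AdmN (D.NN n) rb (fun t => (s : ℂ) * ξ t) := by
      refine AdmN.mono hN ?_ (AdmN.smul hs.le hξ)
      exact (mul_le_of_le_one_left hr0 hs1).trans hrb
    have h2 := h4 γ hγ _ h1 v
    rw [hsm s] at h2
    have e1 : (inner ℂ v (((s : ℂ) • XL W (muN (D.NN n)) ξ) v) : ℂ).re =
        s * (inner ℂ v (XL W (muN (D.NN n)) ξ v) : ℂ).re := by
      rw [_root_.smul_apply, inner_smul_right, re_ofReal_mul]
    have e2 : Aop W D (muN (D.NN n)) γ (fun t => (s : ℂ) * ξ t) v =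
        Bop W D γ v + (s : ℂ) • XL W (muN (D.NN n)) ξ v := by
      rw [Aop, hsm s]
      rfl
    rw [e1, e2] at h2
    exact h2
  · intro s hs hs1
    rcases hr0.eq_or_lt with h0 | h0
    · -- the pattern vanishes
      refine ⟨g, hG.g_pos, fun v => ?_⟩
      have hz : XL W (muN (D.NN n)) ξ v = 0 := by
        have h5 : ‖XL W (muN (D.NN n)) ξ‖ ≤ 0 := by
          have := norm_XL_le W hr0 hbd
          rwa [← h0] at this
        have h6 : XL W (muN (D.NN n)) ξ = 0 := norm_le_zero_iff.1 h5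
        rw [h6, _root_.zero_apply]
      rw [hz, smul_zero, add_zero]
      exact hG.E0 γ hγ v
    · have h1 : D.AdmN (D.NN n) (s * rN W D rb n) (fun t => (s : ℂ) * ξ t) := AdmN.smul hs hξ
      obtain ⟨m, hm, hm2⟩ := hBB (s * rN W D rb n) (mul_nonneg hs hr0)
        (mul_lt_of_lt_one_left h0 hs1) γ hγ _ h1
      refine ⟨m, hm, fun v => ?_⟩
      have e2 : Aop W D (muN (D.NN n)) γ (fun t => (s : ℂ) * ξ t) v =
          Bop W D γ v + (s : ℂ) • XL W (muN (D.NN n)) ξ v := by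
        rw [Aop, hsm s]
        rfl
      rw [← e2]
      exact hm2 v

/-- L8 and the whole package -/
theorem exists_Fam (W : Weyl H) (D : Data) {rb r1 g c C : ℝ} (hG : Good W D rb r1 g c C) :
    Nonempty (Fam W D) := by
  classical
  obtain ⟨hr0, hr1, hBB⟩ := rinf_spec W D hG
  have hrb : rinf W D ≤ rb := hr1.trans hG.r1_lt.le
  have hrbpos : 0 < rb := hG.r1_pos.trans hG.r1_lt
  obtain ⟨c', C', hc', hC', n4, h4⟩ := L4 W D hG
  obtain ⟨R, hR, hfar⟩ := L10 W D g hG.g_pos hG.E0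
  obtain ⟨n7, h7⟩ := usc W D hG ((rb - r1) / 2) (by linarith [hG.r1_lt])
  have hβ : 0 ≤ ∑ i, ‖D.β i‖ := Finset.sum_nonneg fun _ _ => norm_nonneg _
  set C0 : ℝ := ∑ i, ‖D.β i‖ + rb with hC0
  have hC0rb : rb ≤ C0 := by linarith
  have hC0pos : 0 < C0 := by linarith
  have hg := hG.g_pos
  have hC := hG.C_pos
  set K : ℝ := 2 / g + (C + C') * (2 * C0 / g) with hK
  have hKpos : 0 < K := by positivity
  have hq : 0 ≤ 2 * C0 / g := by positivity
  have hK1 : 2 / g + C * 1 * (2 * C0 / g) ≤ K := by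
    have := mul_nonneg hC'.le hq
    rw [hK]
    nlinarith
  have hK2 : 2 / g + C' * 1 * (2 * C0 / g) ≤ K := by
    have := mul_nonneg hC.le hq
    rw [hK]
    nlinarith
  have hlt : ∀ n, max n4 n7 ≤ n → rN W D rb n < rb := by
    intro n hn
    have h1 := h7 n ((le_max_right _ _).trans hn)
    linarith [hG.r1_lt]
  have hsing : ∀ n, ∃ γ : Fin D.m → ℂ, ∃ ξ : ℝ → ℂ, max n4 n7 ≤ n →
      γ ∈ D.Γ ∧ D.AdmN (D.NN n) (rN W D rb n) ξ ∧
      ∀ ε : ℝ, 0 < ε → ∃ f : H, ‖f‖ = 1 ∧ ‖Aop W D (muN (D.NN n)) γ ξ f‖ < ε := by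
    intro n
    by_cases hn : max n4 n7 ≤ n
    · obtain ⟨γ, hγ, ξ, hξ, h5⟩ := (rN_spec W D hG n).2.2.2 (hlt n hn)
      exact ⟨γ, ξ, fun _ => ⟨hγ, hξ, h5⟩⟩
    · exact ⟨0, 0, fun h => absurd h hn⟩
  choose γs ξs hs using hsing
  exact ⟨{
    g := g
    c := c
    k0 := 1 / K
    r := rinf W D
    C0 := C0
    R := R
    n1 := max n4 n7
    γs := γs
    ξs := ξs
    rs := rN W D rb
    g_pos := hg
    c_pos := hG.c_pos
    k0_pos := by positivity
    r_pos := hr0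
    C0_pos := hC0pos
    R_ge := hR
    β_le := by linarith
    r_le := hrb.trans hC0rb
    sym := hG.sym
    E0 := hG.E0
    null := fun γ hγ ξ hξ f hf => by
      have h1 := hG.Tp γ hγ ξ (Adm.mono hrb hξ) f
      rw [hf, norm_zero] at h1
      linarith
    E3 := fun γ hγ ξ hξ f h hf h1 h2 => hG.E3 γ hγ ξ (Adm.mono hrb hξ) f h hf h1 h2
    min := fun r' γ ξ hr' hγ hξ hex => by
      by_contra hlt'
      push Not at hlt'
      obtain ⟨m, hm, hm2⟩ := hBB r' hr' hlt' γ hγ ξ hξ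
      obtain ⟨f, hf, hf2⟩ := hex
      have h1 := hm2 f
      rw [hf2, norm_zero] at h1
      have h2 : 0 < m * ‖f‖ := mul_pos hm (norm_pos_iff.2 hf)
      linarith
    AI := fun γ hγ ξ hξ u =>
      L6F_weaken hK1 (sq_nonneg _) (L6F_AI W D hG C0 hC0rb γ hγ ξ hξ u)
    far := hfar
    γs_mem := fun n hn => (hs n hn).1
    ξs_adm := fun n hn => (hs n hn).2.1
    rs_nonneg := fun n => (rN_spec W D hG n).1
    rs_le := fun n => (rN_spec W D hG n).2.1.trans hC0rb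
    rs_lim := fun ε hε => usc W D hG ε hε
    AIN := fun n hn γ hγ ξ hξ u =>
      L6F_weaken hK2 (sq_nonneg _) (L6F_AIN W D hG C0 hC0rb c' C' hc' hC' n
        (h4 n ((le_max_left _ _).trans hn)) γ hγ ξ hξ u)
    sing := fun n hn => (hs n hn).2.2 }⟩

end Pool.Agent.Helper84.HRT
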