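import Mathlib
import Pool.Agent.Helper84.HRT.DefsA
import Pool.Agent.Helper84.HRT.WA
import Pool.Agent.Helper84.HRT.WC
import Pool.Agent.Helper84.HRT.XA
import Pool.Agent.Helper84.HRT.XC

open MeasureTheory Complex Filter
open scoped ENNReal ComplexConjugate InnerProductSpace BigOperators Topology

namespace Pool.Agent.Helper84.HRT

variable {H : Type} [NormedAddCommGroup H] [InnerProductSpace ℂ H] [CompleteSpace H]

private theorem l11a_act_sub (α : ℂ) (F F' : ℂ → ℂ) (z : ℂ) :
    ‖act α F z - act α F' z‖ = ‖F (z + α) - F' (z + α)‖ := by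
  unfold act
  rw [← mul_sub, norm_mul, Complex.norm_exp_ofReal_mul_I, one_mul]

private theorem l11a_act_cont (F : ℂ → ℂ) (hF : Continuous F) (z : ℂ) :
    Continuous fun t : ℝ => act (node t) F z := by
  unfold act
  have h := node_cont
  fun_prop

private theorem l11a_mem (z : ℂ) (t : ℝ) : z + node t ∈ Metric.closedBall z 1 := by
  rw [Metric.mem_closedBall, dist_eq_norm]
  simp [node_norm]

/-- uniform convergence of the sampled orbit functions -/
private theorem l11a_unif (N : ℕ → ℕ) (hN0 : ∀ j, 0 < N j) (hN : Tendsto N atTop atTop)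
    (G : ℕ → ℂ → ℂ) (G0 : ℂ → ℂ) (hG0 : Continuous G0)
    (hlim : TendstoLocallyUniformly G G0 atTop) (z : ℂ) (ε : ℝ) (hε : 0 < ε) :
    ∀ᶠ j in atTop, ∀ t ∈ Set.Ico (0 : ℝ) 1,
      ‖act (node (cell (N j) t)) (G j) z - act (node t) G0 z‖ ≤ ε := by
  have hK : TendstoUniformlyOn G G0 atTop (Metric.closedBall z 1) := by
    rw [← tendstoLocallyUniformlyOn_iff_tendstoUniformlyOn_of_compact (isCompact_closedBall z 1)]
    exact hlim.tendstoLocallyUniformlyOn
  have h1 : ∀ᶠ j in atTop, ∀ t : ℝ, ‖G j (z + node t) - G0 (z + node t)‖ ≤ ε / 2 := by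
    rw [Metric.tendstoUniformlyOn_iff] at hK
    filter_upwards [hK (ε / 2) (by positivity)] with j hj t
    have := hj (z + node t) (l11a_mem z t)
    rw [dist_eq_norm, norm_sub_rev] at this
    exact this.le
  have hu : UniformContinuousOn (fun t : ℝ => act (node t) G0 z) (Set.Icc 0 1) :=
    isCompact_Icc.uniformContinuousOn_of_continuous (l11a_act_cont G0 hG0 z).continuousOn
  rw [Metric.uniformContinuousOn_iff] at hu
  obtain ⟨δ, hδ, hu⟩ := hu (ε / 2) (by positivity)
  have h2 : ∀ᶠ j in atTop, (1 : ℝ) / N j < δ := by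
    have : Tendsto (fun j => (1 : ℝ) / N j) atTop (𝓝 0) :=
      (tendsto_one_div_atTop_nhds_zero_nat (𝕜 := ℝ)).comp hN
    exact this.eventually (gt_mem_nhds hδ)
  filter_upwards [h1, h2] with j h1 h2 t ht
  have h3 := cell_le (hN0 j) t
  have h4 := lt_cell_add (hN0 j) t
  have h5 : 0 ≤ cell (N j) t := by
    unfold cell
    have : 0 ≤ ⌊(N j : ℝ) * t⌋ := Int.floor_nonneg.2 (mul_nonneg (Nat.cast_nonneg _) ht.1)
    have h6 : (0 : ℝ) ≤ (⌊(N j : ℝ) * t⌋ : ℝ) := by exact_mod_cast this
    positivity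
  have h6 : dist (cell (N j) t) t < δ := by
    rw [Real.dist_eq, abs_lt]
    constructor <;> linarith
  have h7 := hu (cell (N j) t) ⟨h5, by linarith [ht.2]⟩ t ⟨ht.1, ht.2.le⟩ h6
  rw [dist_eq_norm] at h7
  calc ‖act (node (cell (N j) t)) (G j) z - act (node t) G0 z‖
      ≤ ‖act (node (cell (N j) t)) (G j) z - act (node (cell (N j) t)) G0 z‖ +
        ‖act (node (cell (N j) t)) G0 z - act (node t) G0 z‖ := norm_sub_le_norm_sub_add_norm_sub _ _ _
    _ ≤ ε / 2 + ε / 2 := by
        rw [l11a_act_sub]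
        exact add_le_add (h1 _) h7.le
    _ = ε := by ring

/-- pointwise convergence of the action, finite levels → ∞ -/
theorem actN_tendsto (D : Data) (N : ℕ → ℕ) (hN0 : ∀ j, 0 < N j) (hN : Tendsto N atTop atTop)
    (G : ℕ → ℂ → ℂ) (G0 : ℂ → ℂ) (hG : ∀ j, Continuous (G j)) (hG0 : Continuous G0)
    (hlim : TendstoLocallyUniformly G G0 atTop) (γ : ℕ → Fin D.m → ℂ) (γ0 : Fin D.m → ℂ)
    (hγ : Tendsto γ atTop (𝓝 γ0)) (ρ : ℕ → ℝ) (M : ℝ) (hρ0 : ∀ j, 0 ≤ ρ j) (hρM : ∀ j, ρ j ≤ M)
    (ξ : ℕ → ℝ → ℂ) (ξ0 : ℝ → ℂ) (r : ℝ) (hξ : ∀ j, D.AdmN (N j) (ρ j) (ξ j)) (hξ0 : D.Adm r ξ0)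
    (hw : ∀ h : ℝ → ℂ, Integrable h mu8 →
      Tendsto (fun j => ∫ t, h t * ξ j t ∂mu8) atTop (𝓝 (∫ t, h t * ξ0 t ∂mu8))) (z : ℂ) :
    Tendsto (fun j => actA D (muN (N j)) (γ j) (ξ j) (G j) z) atTop
      (𝓝 (actA D mu8 γ0 ξ0 G0 z)) := by
  have hpt : ∀ z, Tendsto (fun j => G j z) atTop (𝓝 (G0 z)) := fun z =>
    (tendstoLocallyUniformlyOn_univ.2 hlim).tendsto_at (Set.mem_univ z)
  have hM0 : 0 ≤ M := (hρ0 0).trans (hρM 0)
  unfold actA
  refine Tendsto.add ?_ ?_
  · unfold actB
    refine tendsto_finsetSum _ fun i _ => ?_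
    refine Tendsto.mul (tendsto_const_nhds.mul ?_) ?_
    · exact (tendsto_pi_nhds.1 hγ) i
    · unfold act
      exact (hpt _).const_mul _
  · set F0 : ℝ → ℂ := fun t => act (node t) G0 z with hF0
    have hF0c : Continuous F0 := l11a_act_cont G0 hG0 z
    have hF0i : Integrable F0 mu8 := by
      unfold mu8
      exact (hF0c.continuousOn.integrableOn_Icc (a := (0 : ℝ)) (b := 1)).mono_set
        Set.Ico_subset_Icc_self
    have hnorm : ∀ j t, ‖ξ j t‖ ≤ M := fun j t =>
      (AdmN.norm_le (hN0 j) (hξ j) (hρ0 j) t).trans (hρM j)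
    have hmeas : ∀ j, Measurable (ξ j) := fun j => step_meas (N := N j) (ξ j) (hξ j).step
    -- rewrite the finite level integral
    have hstep : ∀ j, actX (muN (N j)) (ξ j) (G j) z =
        ∫ t, ξ j t * act (node (cell (N j) t)) (G j) z ∂mu8 := by
      intro j
      rw [← integral_step (hN0 j)]
      · unfold actX
        refine integral_congr_ae ?_
        rw [EventuallyEq, muN_ae (hN0 j)]
        intro k _
        have := cell_grid (hN0 j) (k : ℤ)
        push_cast at this
        simp only [this]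
      · intro t
        simp only [cell_cell (hN0 j), (hξ j).step]
    have hcellm : ∀ j, Measurable fun t => act (node (cell (N j) t)) (G j) z := fun j =>
      (l11a_act_cont (G j) (hG j) z).measurable.comp (cell_meas (N j))
    have hint1 : ∀ j, Integrable (fun t => ξ j t * F0 t) mu8 := by
      intro j
      exact hF0i.bdd_mul (c := M) (hmeas j).aestronglyMeasurable
        (Eventually.of_forall fun t => hnorm j t)
    have hdiff : Tendsto (fun j => actX (muN (N j)) (ξ j) (G j) z - ∫ t, ξ j t * F0 t ∂mu8)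
        atTop (𝓝 0) := by
      rw [Metric.tendsto_atTop']
      intro ε hε
      obtain ⟨j0, hj0⟩ := (l11a_unif N hN0 hN G G0 hG0 hlim z (ε / (2 * (M + 1)))
        (by positivity)).exists_forall_of_atTop
      refine ⟨j0, fun j hj => ?_⟩
      have h1 := hj0 j hj.le
      rw [dist_zero_right, hstep j]
      have hae : ∀ᵐ t ∂mu8, ‖ξ j t * (act (node (cell (N j) t)) (G j) z - F0 t)‖ ≤
          M * (ε / (2 * (M + 1))) := by
        unfold mu8
        rw [ae_restrict_iff' measurableSet_Ico]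
        refine Eventually.of_forall fun t ht => ?_
        rw [norm_mul]
        exact mul_le_mul (hnorm j t) (h1 t ht) (norm_nonneg _) hM0
      have hint3 : Integrable (fun t => ξ j t * (act (node (cell (N j) t)) (G j) z - F0 t)) mu8 := by
        refine Integrable.of_bound (C := M * (ε / (2 * (M + 1)))) ?_ hae
        exact ((hmeas j).mul ((hcellm j).sub hF0c.measurable)).aestronglyMeasurable
      have heq : ∫ t, ξ j t * act (node (cell (N j) t)) (G j) z ∂mu8 - ∫ t, ξ j t * F0 t ∂mu8 =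
          ∫ t, ξ j t * (act (node (cell (N j) t)) (G j) z - F0 t) ∂mu8 := by
        have : (fun t => ξ j t * act (node (cell (N j) t)) (G j) z) =
            fun t => ξ j t * (act (node (cell (N j) t)) (G j) z - F0 t) + ξ j t * F0 t := by
          funext t; ring
        rw [this, integral_add hint3 (hint1 j)]
        ring
      rw [heq]
      have h2 := norm_integral_le_of_norm_le_const hae
      have h3 : (mu8).real Set.univ = 1 := by simp
      rw [h3, mul_one] at h2
      refine lt_of_le_of_lt h2 ?_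
      have h4 : M * (ε / (2 * (M + 1))) = ε * (M / (2 * (M + 1))) := by ring
      rw [h4]
      have h5 : M / (2 * (M + 1)) < 1 := by
        rw [div_lt_one (by positivity)]
        linarith
      nlinarith
    have hmain : Tendsto (fun j => ∫ t, ξ j t * F0 t ∂mu8) atTop (𝓝 (actX mu8 ξ0 G0 z)) := by
      have := hw F0 hF0i
      have e1 : ∀ j, ∫ t, ξ j t * F0 t ∂mu8 = ∫ t, F0 t * ξ j t ∂mu8 := fun j => by
        simp only [mul_comm]
      have e2 : actX mu8 ξ0 G0 z = ∫ t, F0 t * ξ0 t ∂mu8 := by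
        unfold actX
        simp only [hF0, mul_comm]
      rw [e2]
      simpa only [e1] using this
    have := hdiff.add hmain
    simpa using this

end Pool.Agent.Helper84.HRT
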