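import Mathlib
import Pool.Agent.Helper84.HRT.DefsA

open MeasureTheory Complex Filter
open scoped ENNReal ComplexConjugate InnerProductSpace BigOperators Topology

namespace Pool.Agent.Helper84.HRT

variable {H : Type} [NormedAddCommGroup H] [InnerProductSpace ℂ H] [CompleteSpace H]

private theorem l11b_node_cont : Continuous node := by
  unfold node
  fun_prop

private theorem l11b_norm_node (t : ℝ) : ‖node t‖ = 1 := by
  unfold node
  exact Complex.norm_exp_ofReal_mul_I _

private theorem l11b_act_sub (α z : ℂ) (G G' : ℂ → ℂ) :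
    ‖act α G z - act α G' z‖ = ‖G (z + α) - G' (z + α)‖ := by
  unfold act
  rw [← mul_sub, norm_mul, Complex.norm_exp_ofReal_mul_I, one_mul]

private theorem l11b_act_cont (z : ℂ) (G : ℂ → ℂ) (hG : Continuous G) :
    Continuous fun t : ℝ => act (node t) G z := by
  unfold act
  have h1 := l11b_node_cont
  have h2 : Continuous fun t : ℝ => (node t * conj z).im :=
    Complex.continuous_im.comp (h1.mul continuous_const)
  have h3 : Continuous fun t : ℝ => G (z + node t) := hG.comp (continuous_const.add h1)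
  exact (Complex.continuous_exp.comp ((Complex.continuous_ofReal.comp h2).mul
    continuous_const)).mul h3

private theorem l11b_int (z : ℂ) (G : ℂ → ℂ) (hG : Continuous G) :
    Integrable (fun t : ℝ => act (node t) G z) mu8 := by
  have h := (l11b_act_cont z G hG).integrableOn_Icc (μ := volume) (a := (0 : ℝ)) (b := 1)
  exact h.mono_set Set.Ico_subset_Icc_self

/-- pointwise convergence of the action, all at level ∞ -/
theorem act8_tendsto (D : Data)
    (G : ℕ → ℂ → ℂ) (G0 : ℂ → ℂ) (hG : ∀ j, Continuous (G j)) (hG0 : Continuous G0)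
    (hlim : TendstoLocallyUniformly G G0 atTop) (γ : ℕ → Fin D.m → ℂ) (γ0 : Fin D.m → ℂ)
    (hγ : Tendsto γ atTop (𝓝 γ0)) (ρ : ℕ → ℝ) (M : ℝ) (hρ0 : ∀ j, 0 ≤ ρ j) (hρM : ∀ j, ρ j ≤ M)
    (ξ : ℕ → ℝ → ℂ) (ξ0 : ℝ → ℂ) (M0 : ℝ) (hξ : ∀ j, D.Adm (ρ j) (ξ j)) (hξ0 : Bd mu8 M0 ξ0)
    (hw : ∀ h : ℝ → ℂ, Integrable h mu8 →
      Tendsto (fun j => ∫ t, h t * ξ j t ∂mu8) atTop (𝓝 (∫ t, h t * ξ0 t ∂mu8))) (z : ℂ) :
    Tendsto (fun j => actA D mu8 (γ j) (ξ j) (G j) z) atTop (𝓝 (actA D mu8 γ0 ξ0 G0 z)) := by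
  have hM : 0 ≤ M := (hρ0 0).trans (hρM 0)
  have hpt : ∀ y, Tendsto (fun j => G j y) atTop (𝓝 (G0 y)) := fun y =>
    (tendstoLocallyUniformlyOn_univ.mpr hlim).tendsto_at (Set.mem_univ y)
  have hfin : IsFiniteMeasure mu8 := by
    unfold mu8
    infer_instance
  have hreal : mu8.real Set.univ = 1 := by
    simp [mu8, Measure.real]
  have hbd : ∀ j, ∀ᵐ t ∂mu8, ‖ξ j t‖ ≤ M := by
    intro j
    refine ae_restrict_of_ae ?_
    filter_upwards [(hξ j).bd] with t ht
    refine ht.trans ?_
    calc ρ j * D.κ t ≤ ρ j * 1 := mul_le_mul_of_nonneg_left (D.κ_le t) (hρ0 j)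
      _ ≤ M := by rw [mul_one]; exact hρM j
  unfold actA
  refine Tendsto.add ?_ ?_
  · unfold actB
    refine tendsto_finsetSum _ fun i _ => ?_
    refine Tendsto.mul ?_ ?_
    · exact (tendsto_pi_nhds.mp hγ i).const_mul _
    · unfold act
      exact (hpt _).const_mul _
  · unfold actX
    have h1 : Tendsto (fun j => ∫ t, ξ j t * (act (node t) (G j) z - act (node t) G0 z) ∂mu8)
        atTop (𝓝 0) := by
      rw [Metric.tendsto_nhds]
      intro ε hε
      have hcpt : IsCompact (Metric.closedBall z 1) := isCompact_closedBall z 1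
      have hu : TendstoUniformlyOn G G0 atTop (Metric.closedBall z 1) :=
        (tendstoLocallyUniformlyOn_iff_tendstoUniformlyOn_of_compact hcpt).mp
          hlim.tendstoLocallyUniformlyOn
      have hev := Metric.tendstoUniformlyOn_iff.mp hu (ε / (M + 1)) (by positivity)
      filter_upwards [hev] with j hj
      rw [dist_zero_right]
      have h2 : ‖∫ t, ξ j t * (act (node t) (G j) z - act (node t) G0 z) ∂mu8‖ ≤
          (M * (ε / (M + 1))) * mu8.real Set.univ := by
        refine norm_integral_le_of_norm_le_const ?_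
        filter_upwards [hbd j] with t ht
        rw [norm_mul, l11b_act_sub]
        have h3 : dist (G0 (z + node t)) (G j (z + node t)) < ε / (M + 1) := by
          refine hj _ ?_
          rw [Metric.mem_closedBall, dist_eq_norm]
          simp [l11b_norm_node]
        rw [dist_comm, dist_eq_norm] at h3
        exact mul_le_mul ht h3.le (norm_nonneg _) hM
      rw [hreal, mul_one] at h2
      refine lt_of_le_of_lt h2 ?_
      rw [← mul_div_assoc, div_lt_iff₀ (by positivity)]
      nlinarith
    have h2 := hw (fun t => act (node t) G0 z) (l11b_int z G0 hG0)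
    have h3 := h1.add h2
    rw [zero_add] at h3
    have h4 : (∫ t, act (node t) G0 z * ξ0 t ∂mu8) = ∫ t, ξ0 t * act (node t) G0 z ∂mu8 := by
      congr 1
      funext t
      ring
    rw [h4] at h3
    refine h3.congr fun j => ?_
    have hi : ∀ G' : ℂ → ℂ, Continuous G' →
        Integrable (fun t : ℝ => ξ j t * act (node t) G' z) mu8 := fun G' hG' =>
      (l11b_int z G' hG').bdd_mul (c := M) (hξ j).meas.aestronglyMeasurable (hbd j)
    have h5 : (∫ t, ξ j t * (act (node t) (G j) z - act (node t) G0 z) ∂mu8) =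
        (∫ t, ξ j t * act (node t) (G j) z ∂mu8) - ∫ t, ξ j t * act (node t) G0 z ∂mu8 := by
      rw [← integral_sub (hi _ (hG j)) (hi _ hG0)]
      congr 1
      funext t
      ring
    have h6 : (∫ t, act (node t) G0 z * ξ j t ∂mu8) = ∫ t, ξ j t * act (node t) G0 z ∂mu8 := by
      congr 1
      funext t
      ring
    rw [h5, h6]
    ring

end Pool.Agent.Helper84.HRT
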