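import Mathlib
import Pool.Agent.Helper84.HRT.DefsA
import Pool.Agent.Helper84.HRT.XA

open MeasureTheory Complex Filter
open scoped ENNReal ComplexConjugate InnerProductSpace BigOperators Topology

namespace Pool.Agent.Helper84.HRT

variable {H : Type} [NormedAddCommGroup H] [InnerProductSpace ℂ H] [CompleteSpace H]

/-- the cutoff near the zeros of the cosine -/
private noncomputable def l12k (δ x : ℝ) : ℝ := δ / (Real.cos x ^ 2 + δ)

private theorem l12k_nonneg {δ : ℝ} (hδ : 0 < δ) (x : ℝ) : 0 ≤ l12k δ x := by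
  unfold l12k
  positivity

private theorem l12k_le {δ : ℝ} (hδ : 0 < δ) (x : ℝ) : l12k δ x ≤ 1 := by
  unfold l12k
  rw [div_le_one (by positivity)]
  nlinarith [sq_nonneg (Real.cos x)]

private theorem l12k_cont {δ : ℝ} (hδ : 0 < δ) : Continuous (l12k δ) := by
  unfold l12k
  refine continuous_const.div (by fun_prop) fun x => ?_
  positivity

private theorem l12k_int {ε : ℝ} (hε : 0 < ε) :
    ∃ δ : ℝ, 0 < δ ∧ ∀ θ : ℝ, ∫ t, l12k δ (2 * Real.pi * t - θ) ∂mu8 ≤ ε := by
  have hae : ∀ᵐ t : ℝ, Real.cos (2 * Real.pi * t) ≠ 0 := by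
    have hc : (Set.range fun k : ℤ => ((2 * k + 1) * Real.pi / 2) / (2 * Real.pi)).Countable :=
      Set.countable_range _
    filter_upwards [hc.ae_notMem volume] with t ht h0
    rw [Real.cos_eq_zero_iff] at h0
    obtain ⟨k, hk⟩ := h0
    refine ht ⟨k, ?_⟩
    have hpi := Real.pi_pos
    change ((2 * (k : ℝ) + 1) * Real.pi / 2) / (2 * Real.pi) = t
    rw [← hk]
    field_simp
  have hlim : Tendsto (fun n : ℕ => ∫ t, l12k (1 / ((n : ℝ) + 1)) (2 * Real.pi * t) ∂mu8) atTop
      (𝓝 (∫ _t : ℝ, (0 : ℝ) ∂mu8)) := by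
    refine tendsto_integral_of_dominated_convergence (fun _ => (1 : ℝ)) ?_ (integrable_const _) ?_ ?_
    · intro n
      exact ((l12k_cont (by positivity)).comp (by fun_prop)).aestronglyMeasurable
    · intro n
      refine Eventually.of_forall fun t => ?_
      rw [Real.norm_of_nonneg (l12k_nonneg (by positivity) _)]
      exact l12k_le (by positivity) _
    · have hae' : ∀ᵐ t ∂mu8, Real.cos (2 * Real.pi * t) ≠ 0 := by
        unfold mu8
        exact ae_restrict_of_ae hae
      filter_upwards [hae'] with t ht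
      have h1 : Tendsto (fun n : ℕ => 1 / ((n : ℝ) + 1)) atTop (𝓝 0) :=
        tendsto_one_div_add_atTop_nhds_zero_nat
      have h2 : Tendsto (fun n : ℕ => Real.cos (2 * Real.pi * t) ^ 2 + 1 / ((n : ℝ) + 1)) atTop
          (𝓝 (Real.cos (2 * Real.pi * t) ^ 2 + 0)) := h1.const_add _
      have h3 := h1.div h2 (by rw [add_zero]; exact pow_ne_zero _ ht)
      rw [zero_div] at h3
      exact h3
  rw [integral_zero] at hlim
  obtain ⟨n, hn⟩ := (hlim.eventually (gt_mem_nhds hε)).exists
  refine ⟨1 / ((n : ℝ) + 1), by positivity, fun θ => ?_⟩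
  have hpi := Real.pi_pos
  have hs := mu8_shift (fun t : ℝ => l12k (1 / ((n : ℝ) + 1)) (2 * Real.pi * t))
    (Eventually.of_forall fun t => by
      simp only [l12k]
      rw [show 2 * Real.pi * (t + 1) = 2 * Real.pi * t + 2 * Real.pi by ring,
        Real.cos_add_two_pi]) (-(θ / (2 * Real.pi)))
  have he : ∀ t : ℝ, 2 * Real.pi * (t + -(θ / (2 * Real.pi))) = 2 * Real.pi * t - θ := by
    intro t
    field_simp
    ring
  simp only [he] at hs
  rw [hs]
  exact hn.le

/-- the multiplier used in the integration by parts -/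
private noncomputable def l12q (δ x : ℝ) : ℝ := Real.cos x / (Real.cos x ^ 2 + δ)

private noncomputable def l12q' (δ x : ℝ) : ℝ :=
  (-Real.sin x * (Real.cos x ^ 2 + δ) - Real.cos x * (2 * Real.cos x * (-Real.sin x))) /
    (Real.cos x ^ 2 + δ) ^ 2

private theorem l12q_deriv {δ : ℝ} (hδ : 0 < δ) (x : ℝ) :
    HasDerivAt (l12q δ) (l12q' δ x) x := by
  unfold l12q l12q'
  have h1 := Real.hasDerivAt_cos x
  have h2 : HasDerivAt (fun x => Real.cos x ^ 2 + δ) (2 * Real.cos x * (-Real.sin x)) x := by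
    have := (h1.pow 2).add_const δ
    simpa using this
  exact h1.div h2 (by positivity)

private theorem l12q_abs {δ : ℝ} (hδ : 0 < δ) (x : ℝ) : |l12q δ x| ≤ 1 / δ := by
  unfold l12q
  have h0 : (0 : ℝ) < Real.cos x ^ 2 + δ := by positivity
  rw [abs_div, abs_of_pos h0]
  exact div_le_div₀ zero_le_one (Real.abs_cos_le_one x) hδ (by nlinarith [sq_nonneg (Real.cos x)])

private theorem l12q'_cont {δ : ℝ} (hδ : 0 < δ) : Continuous (l12q' δ) := by
  unfold l12q'
  refine Continuous.div (by fun_prop) (by fun_prop) fun x => ?_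
  positivity

private theorem l12q'_abs {δ : ℝ} (hδ : 0 < δ) (x : ℝ) : |l12q' δ x| ≤ (3 + δ) / δ ^ 2 := by
  unfold l12q'
  have h0 : (0 : ℝ) < Real.cos x ^ 2 + δ := by positivity
  rw [abs_div, abs_of_pos (pow_pos h0 2)]
  have hs := Real.abs_sin_le_one x
  have hc := Real.abs_cos_le_one x
  have hc2 : Real.cos x ^ 2 ≤ 1 := by nlinarith [Real.sin_sq_add_cos_sq x, sq_nonneg (Real.sin x)]
  refine div_le_div₀ (by positivity) ?_ (by positivity) ?_
  · have e : -Real.sin x * (Real.cos x ^ 2 + δ) - Real.cos x * (2 * Real.cos x * (-Real.sin x)) =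
        Real.sin x * (Real.cos x ^ 2 - δ) := by ring
    rw [e, abs_mul]
    have h1 : |Real.cos x ^ 2 - δ| ≤ 3 + δ := by
      rw [abs_le]
      constructor <;> nlinarith [sq_nonneg (Real.cos x)]
    calc |Real.sin x| * |Real.cos x ^ 2 - δ| ≤ 1 * (3 + δ) :=
          mul_le_mul hs h1 (abs_nonneg _) zero_le_one
      _ = 3 + δ := one_mul _
  · exact pow_le_pow_left₀ hδ.le (by nlinarith [sq_nonneg (Real.cos x)]) 2

private theorem l12_chi (w : ℂ) (t : ℝ) : chi w (node t) =
    cexp (-(((2 * ‖w‖) * Real.sin (2 * Real.pi * t - arg w) : ℝ) : ℂ) * I) := by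
  unfold chi
  congr 1
  have h1 : (node t * conj w).im = ‖w‖ * Real.sin (2 * Real.pi * t - arg w) := by
    unfold node
    rw [Complex.mul_im, Complex.exp_ofReal_mul_I_re, Complex.exp_ofReal_mul_I_im,
      Complex.conj_re, Complex.conj_im, Real.sin_sub]
    nth_rewrite 1 [← Complex.norm_mul_cos_arg w]
    nth_rewrite 1 [← Complex.norm_mul_sin_arg w]
    ring
  rw [h1, ← mul_assoc (2 : ℝ)]

private theorem l12_norm_exp (r : ℝ) : ‖cexp (-((r : ℝ) : ℂ) * I)‖ = 1 := by
  rw [← Complex.ofReal_neg, Complex.norm_exp_ofReal_mul_I]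

/-- the integration by parts -/
private theorem l12_parts {g : ℝ → ℂ} (hg : ContDiff ℝ 1 g) {M M' : ℝ} (hM : ∀ t, ‖g t‖ ≤ M)
    (hM' : ∀ t, ‖deriv g t‖ ≤ M') {δ : ℝ} (hδ : 0 < δ) {lam : ℝ} (hl : 0 < lam) (θ : ℝ) :
    ‖∫ t, g t * ((1 - l12k δ (2 * Real.pi * t - θ) : ℝ) : ℂ) *
      cexp (-((lam * Real.sin (2 * Real.pi * t - θ) : ℝ) : ℂ) * I) ∂mu8‖ ≤
      (2 * (M / δ) + (M' / δ + M * (2 * Real.pi * ((3 + δ) / δ ^ 2)))) / (2 * Real.pi * lam) := by
  have hpi := Real.pi_pos
  have hM0 : 0 ≤ M := (norm_nonneg _).trans (hM 0)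
  have hM0' : 0 ≤ M' := (norm_nonneg _).trans (hM' 0)
  set φ : ℝ → ℝ := fun t => 2 * Real.pi * t - θ with hφ
  have hφd : ∀ t, HasDerivAt φ (2 * Real.pi) t := by
    intro t
    have := ((hasDerivAt_id t).const_mul (2 * Real.pi)).sub_const θ
    simpa [hφ] using this
  have hφc : Continuous φ := by fun_prop
  have hgc : Continuous g := hg.continuous
  have hgd : ∀ t, HasDerivAt g (deriv g t) t := fun t =>
    (hg.differentiable one_ne_zero t).hasDerivAt
  have hgd' : Continuous (deriv g) := hg.continuous_deriv le_rfl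
  -- the two functions
  set v : ℝ → ℂ := fun t => cexp (-((lam * Real.sin (φ t) : ℝ) : ℂ) * I) with hv
  set v' : ℝ → ℂ := fun t => v t * (-((lam * (Real.cos (φ t) * (2 * Real.pi)) : ℝ) : ℂ) * I)
    with hv'
  set u : ℝ → ℂ := fun t => g t * ((l12q δ (φ t) : ℝ) : ℂ) with hu
  set u' : ℝ → ℂ := fun t => deriv g t * ((l12q δ (φ t) : ℝ) : ℂ) +
    g t * ((l12q' δ (φ t) * (2 * Real.pi) : ℝ) : ℂ) with hu'
  have hvd : ∀ t, HasDerivAt v (v' t) t := by
    intro t
    have h1 : HasDerivAt (fun t => lam * Real.sin (φ t)) (lam * (Real.cos (φ t) * (2 * Real.pi))) t :=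
      ((Real.hasDerivAt_sin (φ t)).comp t (hφd t)).const_mul lam
    exact ((h1.ofReal_comp.neg).mul_const I).cexp
  have hud : ∀ t, HasDerivAt u (u' t) t := by
    intro t
    have h1 : HasDerivAt (fun t => l12q δ (φ t)) (l12q' δ (φ t) * (2 * Real.pi)) t :=
      (l12q_deriv hδ (φ t)).comp t (hφd t)
    exact (hgd t).mul h1.ofReal_comp
  have hqc : Continuous fun t => l12q δ (φ t) :=
    continuous_iff_continuousAt.2 fun t => ((l12q_deriv hδ (φ t)).comp t (hφd t)).continuousAt
  have hvc : Continuous v := continuous_iff_continuousAt.2 fun t => (hvd t).continuousAt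
  have hv'c : Continuous v' := by
    refine hvc.mul ?_
    fun_prop
  have hu'c : Continuous u' := by
    refine (hgd'.mul (Complex.continuous_ofReal.comp hqc)).add (hgc.mul ?_)
    exact Complex.continuous_ofReal.comp (((l12q'_cont hδ).comp hφc).mul continuous_const)
  have hib := intervalIntegral.integral_mul_deriv_eq_deriv_mul (a := 0) (b := 1) (u := u) (v := v)
    (u' := u') (v' := v') (fun t _ => hud t) (fun t _ => hvd t)
    (hu'c.intervalIntegrable _ _) (hv'c.intervalIntegrable _ _)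
  -- the left hand side
  have hL : ∀ t, u t * v' t = (-((2 * Real.pi * lam : ℝ) : ℂ) * I) *
      (g t * ((1 - l12k δ (φ t) : ℝ) : ℂ) * v t) := by
    intro t
    have h0 : (Real.cos (φ t) ^ 2 + δ) ≠ 0 := by positivity
    have h1 : l12q δ (φ t) * Real.cos (φ t) = 1 - l12k δ (φ t) := by
      unfold l12q l12k
      field_simp
      ring
    rw [← h1]
    simp only [hu, hv']
    push_cast
    ring
  simp only [hL] at hib
  rw [intervalIntegral.integral_const_mul] at hib
  have hvn : ∀ t, ‖v t‖ = 1 := fun t => l12_norm_exp _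
  have hun : ∀ t, ‖u t‖ ≤ M / δ := by
    intro t
    simp only [hu]
    rw [norm_mul, Complex.norm_real, Real.norm_eq_abs]
    calc ‖g t‖ * |l12q δ (φ t)| ≤ M * (1 / δ) :=
          mul_le_mul (hM t) (l12q_abs hδ _) (abs_nonneg _) hM0
      _ = M / δ := by ring
  have hun' : ∀ t, ‖u' t‖ ≤ M' / δ + M * (2 * Real.pi * ((3 + δ) / δ ^ 2)) := by
    intro t
    simp only [hu']
    refine (norm_add_le _ _).trans (add_le_add ?_ ?_)
    · rw [norm_mul, Complex.norm_real, Real.norm_eq_abs]
      calc ‖deriv g t‖ * |l12q δ (φ t)| ≤ M' * (1 / δ) :=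
            mul_le_mul (hM' t) (l12q_abs hδ _) (abs_nonneg _) hM0'
        _ = M' / δ := by ring
    · rw [norm_mul, Complex.norm_real, Real.norm_eq_abs, abs_mul,
        abs_of_pos (show (0 : ℝ) < 2 * Real.pi by positivity)]
      refine mul_le_mul (hM t) ?_ (mul_nonneg (abs_nonneg _) (by positivity)) hM0
      rw [mul_comm]
      exact mul_le_mul_of_nonneg_left (l12q'_abs hδ _) (by positivity)
  have hR : ‖u 1 * v 1 - u 0 * v 0 - ∫ t in (0 : ℝ)..1, u' t * v t‖ ≤
      2 * (M / δ) + (M' / δ + M * (2 * Real.pi * ((3 + δ) / δ ^ 2))) := by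
    refine (norm_sub_le _ _).trans (add_le_add ?_ ?_)
    · have huv : ∀ t, ‖u t * v t‖ ≤ M / δ := by
        intro t
        rw [norm_mul (u t), hvn, mul_one]
        exact hun t
      rw [two_mul]
      exact (norm_sub_le _ _).trans (add_le_add (huv 1) (huv 0))
    · have := intervalIntegral.norm_integral_le_of_norm_le_const (a := 0) (b := 1)
        (f := fun t => u' t * v t) (C := M' / δ + M * (2 * Real.pi * ((3 + δ) / δ ^ 2)))
        (fun t _ => by
          rw [norm_mul, hvn, mul_one]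
          exact hun' t)
      simpa using this
  rw [← hib, norm_mul, norm_mul, norm_neg, Complex.norm_I, mul_one, Complex.norm_real,
    Real.norm_of_nonneg (by positivity)] at hR
  rw [le_div_iff₀ (by positivity)]
  unfold mu8
  rw [integral_Ico_eq_integral_Ioc, ← intervalIntegral.integral_of_le zero_le_one]
  rw [mul_comm] at hR
  exact hR

/-- L12: Riemann-Lebesgue on the circle -/
theorem L12 (h : ℝ → ℂ) (hh : Integrable h mu8) :
    Tendsto (fun w : ℂ => ∫ t, h t * chi w (node t) ∂mu8) (cocompact ℂ) (𝓝 0) := by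
  have hpi := Real.pi_pos
  have : IsFiniteMeasureOnCompacts mu8 := by
    unfold mu8
    infer_instance
  rw [Metric.tendsto_nhds]
  intro ε hε
  obtain ⟨g, hg1, hg2, hg3⟩ := (memLp_one_iff_integrable.2 hh).exist_eLpNorm_sub_le
    (by simp) le_rfl (ε := ε / 4) (by positivity)
  have hgC : ContDiff ℝ 1 g := hg2.of_le (by exact_mod_cast le_top)
  have hgint : Integrable g mu8 := hg2.continuous.integrable_of_hasCompactSupport hg1
  obtain ⟨M, hM⟩ := hg1.exists_bound_of_continuous hg2.continuous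
  obtain ⟨M', hM'⟩ := hg1.deriv.exists_bound_of_continuous (hgC.continuous_deriv le_rfl)
  have hM0 : 0 ≤ M := (norm_nonneg _).trans (hM 0)
  have hM0' : 0 ≤ M' := (norm_nonneg _).trans (hM' 0)
  -- the first difference
  have hsub : ∫ t, ‖h t - g t‖ ∂mu8 ≤ ε / 4 := by
    have h1 : Integrable (fun t => h t - g t) mu8 := hh.sub hgint
    have h2 := ofReal_integral_norm_eq_lintegral_enorm h1
    rw [eLpNorm_one_eq_lintegral_enorm] at hg3
    have h3 : ENNReal.ofReal (∫ t, ‖h t - g t‖ ∂mu8) ≤ ENNReal.ofReal (ε / 4) := by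
      rw [h2]
      exact hg3
    exact (ENNReal.ofReal_le_ofReal_iff (by positivity)).1 h3
  obtain ⟨δ, hδ, hk⟩ := l12k_int (ε := ε / (4 * (M + 1))) (by positivity)
  set C : ℝ := 2 * (M / δ) + (M' / δ + M * (2 * Real.pi * ((3 + δ) / δ ^ 2))) with hC
  have hC0 : 0 ≤ C := by positivity
  have hev : ∀ᶠ w : ℂ in cocompact ℂ, (C + 1) / ε < ‖w‖ := by
    exact (tendsto_norm_cocompact_atTop (E := ℂ)).eventually (eventually_gt_atTop _)
  filter_upwards [hev] with w hw
  have hw0 : 0 < ‖w‖ := lt_of_le_of_lt (by positivity) hw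
  rw [dist_zero_right]
  set K : ℝ → ℝ := fun t => l12k δ (2 * Real.pi * t - arg w) with hK
  have hKc : Continuous K := (l12k_cont hδ).comp (by fun_prop)
  have hchi : ∀ t, ‖chi w (node t)‖ = 1 := by
    intro t
    rw [l12_chi]
    exact l12_norm_exp _
  have hchic : Continuous fun t => chi w (node t) := by
    unfold chi node
    fun_prop
  have i1 : Integrable (fun t => (h t - g t) * chi w (node t)) mu8 := by
    refine (hh.sub hgint).mul_bdd (c := 1) hchic.aestronglyMeasurable ?_
    exact Eventually.of_forall fun t => (hchi t).le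
  have i2 : Integrable (fun t => g t * ((K t : ℝ) : ℂ) * chi w (node t)) mu8 := by
    have h1 : Integrable (fun t => g t * ((K t : ℝ) : ℂ)) mu8 := by
      refine hgint.mul_bdd (c := 1) (Complex.continuous_ofReal.comp hKc).aestronglyMeasurable ?_
      refine Eventually.of_forall fun t => ?_
      rw [Complex.norm_real, Real.norm_of_nonneg (l12k_nonneg hδ _)]
      exact l12k_le hδ _
    refine h1.mul_bdd (c := 1) hchic.aestronglyMeasurable ?_
    exact Eventually.of_forall fun t => (hchi t).le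
  have i3 : Integrable (fun t => g t * ((1 - K t : ℝ) : ℂ) * chi w (node t)) mu8 := by
    have h1 : Integrable (fun t => g t * ((1 - K t : ℝ) : ℂ)) mu8 := by
      refine hgint.mul_bdd (c := 1)
        (Complex.continuous_ofReal.comp (continuous_const.sub hKc)).aestronglyMeasurable ?_
      refine Eventually.of_forall fun t => ?_
      rw [Complex.norm_real, Real.norm_of_nonneg (by linarith [l12k_le hδ (2 * Real.pi * t - arg w)])]
      linarith [l12k_nonneg hδ (2 * Real.pi * t - arg w)]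
    refine h1.mul_bdd (c := 1) hchic.aestronglyMeasurable ?_
    exact Eventually.of_forall fun t => (hchi t).le
  have hsplit : ∫ t, h t * chi w (node t) ∂mu8 =
      ∫ t, (h t - g t) * chi w (node t) ∂mu8 +
        (∫ t, g t * ((K t : ℝ) : ℂ) * chi w (node t) ∂mu8 +
          ∫ t, g t * ((1 - K t : ℝ) : ℂ) * chi w (node t) ∂mu8) := by
    have i4 : Integrable (fun t => g t * ((K t : ℝ) : ℂ) * chi w (node t) +
        g t * ((1 - K t : ℝ) : ℂ) * chi w (node t)) mu8 := i2.add i3
    rw [← integral_add i2 i3, ← integral_add i1 i4]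
    refine integral_congr_ae (Eventually.of_forall fun t => ?_)
    change h t * chi w (node t) = (h t - g t) * chi w (node t) +
      (g t * ((K t : ℝ) : ℂ) * chi w (node t) + g t * ((1 - K t : ℝ) : ℂ) * chi w (node t))
    push_cast
    ring
  have b1 : ‖∫ t, (h t - g t) * chi w (node t) ∂mu8‖ ≤ ε / 4 := by
    refine (norm_integral_le_integral_norm _).trans ?_
    refine le_trans (le_of_eq ?_) hsub
    refine integral_congr_ae (Eventually.of_forall fun t => ?_)
    change ‖(h t - g t) * chi w (node t)‖ = ‖h t - g t‖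
    rw [norm_mul, hchi, mul_one]
  have b2 : ‖∫ t, g t * ((K t : ℝ) : ℂ) * chi w (node t) ∂mu8‖ ≤ ε / 4 := by
    have h1 : ‖∫ t, g t * ((K t : ℝ) : ℂ) * chi w (node t) ∂mu8‖ ≤ ∫ t, M * K t ∂mu8 := by
      refine norm_integral_le_of_norm_le ?_ (Eventually.of_forall fun t => ?_)
      · refine Integrable.const_mul ?_ M
        refine Integrable.mono' (integrable_const (1 : ℝ)) hKc.aestronglyMeasurable ?_
        refine Eventually.of_forall fun t => ?_
        rw [Real.norm_of_nonneg (l12k_nonneg hδ _)]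
        exact l12k_le hδ _
      · rw [norm_mul, norm_mul, hchi, mul_one, Complex.norm_real,
          Real.norm_of_nonneg (l12k_nonneg hδ _)]
        exact mul_le_mul_of_nonneg_right (hM t) (l12k_nonneg hδ _)
    rw [integral_const_mul] at h1
    refine h1.trans ?_
    calc M * ∫ t, K t ∂mu8 ≤ M * (ε / (4 * (M + 1))) := mul_le_mul_of_nonneg_left (hk _) hM0
      _ ≤ (M + 1) * (ε / (4 * (M + 1))) :=
          mul_le_mul_of_nonneg_right (by linarith) (by positivity)
      _ = ε / 4 := by field_simp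
  have b3 : ‖∫ t, g t * ((1 - K t : ℝ) : ℂ) * chi w (node t) ∂mu8‖ ≤ ε / 4 := by
    have h1 := l12_parts hgC hM hM' hδ (lam := 2 * ‖w‖) (by positivity) (arg w)
    simp only [l12_chi]
    refine h1.trans ?_
    rw [← hC]
    have h2 : C + 1 < ε * ‖w‖ := by
      rw [div_lt_iff₀ hε] at hw
      linarith
    rw [div_le_iff₀ (by positivity)]
    have h3 : (3 : ℝ) < Real.pi := Real.pi_gt_three
    have h4 : ε * ‖w‖ ≤ Real.pi * (ε * ‖w‖) := by
      nlinarith [mul_pos hε hw0]
    nlinarith
  rw [hsplit]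
  calc _ ≤ ‖∫ t, (h t - g t) * chi w (node t) ∂mu8‖ +
        (‖∫ t, g t * ((K t : ℝ) : ℂ) * chi w (node t) ∂mu8‖ +
          ‖∫ t, g t * ((1 - K t : ℝ) : ℂ) * chi w (node t) ∂mu8‖) :=
        (norm_add_le _ _).trans (add_le_add_right (norm_add_le _ _) _)
    _ < ε := by linarith

end Pool.Agent.Helper84.HRT
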