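import Mathlib
import Pool.Agent.Helper84.HRT.DefsA

open MeasureTheory Complex Filter
open scoped ENNReal ComplexConjugate InnerProductSpace BigOperators Topology

namespace Pool.Agent.Helper84.HRT

variable {H : Type} [NormedAddCommGroup H] [InnerProductSpace ℂ H] [CompleteSpace H]

private theorem l3c_fatou (Y : ℂ → ℝ) (hY : Measurable Y) (G : ℕ → ℂ → ℂ) (G0 : ℂ → ℂ)
    (hG : ∀ j, Continuous (G j)) (h : ∀ z, Tendsto (fun j => G j z) atTop (𝓝 (G0 z))) :
    S2 Y G0 ≤ liminf (fun j => S2 Y (G j)) atTop := by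
  have hm : ∀ j, Measurable fun z => ‖((Y z : ℝ) : ℂ) * G j z‖ₑ ^ 2 := by
    intro j
    have h1 : Measurable fun z => ((Y z : ℝ) : ℂ) * G j z :=
      (Complex.measurable_ofReal.comp hY).mul (hG j).measurable
    exact h1.enorm.pow_const 2
  have h2 : ∀ z, liminf (fun j => ‖((Y z : ℝ) : ℂ) * G j z‖ₑ ^ 2) atTop =
      ‖((Y z : ℝ) : ℂ) * G0 z‖ₑ ^ 2 := by
    intro z
    apply Tendsto.liminf_eq
    have h3 : Tendsto (fun j => ((Y z : ℝ) : ℂ) * G j z) atTop (𝓝 (((Y z : ℝ) : ℂ) * G0 z)) :=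
      (h z).const_mul _
    have h4 := (continuous_enorm.tendsto _).comp h3
    exact ((ENNReal.continuous_pow 2).tendsto _).comp h4
  calc S2 Y G0 = ∫⁻ z, liminf (fun j => ‖((Y z : ℝ) : ℂ) * G j z‖ₑ ^ 2) atTop ∂dA := by
        unfold S2
        exact lintegral_congr fun z => (h2 z).symm
    _ ≤ liminf (fun j => ∫⁻ z, ‖((Y z : ℝ) : ℂ) * G j z‖ₑ ^ 2 ∂dA) atTop :=
        lintegral_liminf_le hm
    _ = _ := rfl

/-- Fatou -/
theorem S2_fatou (Y : ℂ → ℝ) (hY : Measurable Y) (G : ℕ → ℂ → ℂ) (G0 : ℂ → ℂ) (C : ℝ≥0∞)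
    (hG : ∀ j, Continuous (G j)) (h : ∀ z, Tendsto (fun j => G j z) atTop (𝓝 (G0 z)))
    (hb : ∀ j, S2 Y (G j) ≤ C) : S2 Y G0 ≤ C := by
  refine (l3c_fatou Y hY G G0 hG h).trans ?_
  refine (liminf_le_limsup).trans ?_
  exact limsup_le_of_le (by isBoundedDefault) (Eventually.of_forall hb)

private theorem l3c_ball (Y : ℂ → ℝ) (hY : Continuous Y) (G : ℕ → ℂ → ℂ) (G0 : ℂ → ℂ)
    (hG : ∀ j, Continuous (G j)) (h : TendstoLocallyUniformly G G0 atTop) (ρ : ℝ) :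
    Tendsto (fun j => ∫⁻ z in Metric.closedBall (0 : ℂ) ρ,
        ‖((Y z : ℝ) : ℂ) * G j z‖ₑ ^ 2 ∂dA) atTop
      (𝓝 (∫⁻ z in Metric.closedBall (0 : ℂ) ρ, ‖((Y z : ℝ) : ℂ) * G0 z‖ₑ ^ 2 ∂dA)) := by
  have hG0 : Continuous G0 := h.continuous (Frequently.of_forall hG)
  have hcpt : IsCompact (Metric.closedBall (0 : ℂ) ρ) := isCompact_closedBall 0 ρ
  obtain ⟨M1, hM1⟩ := hcpt.exists_bound_of_continuousOn hY.continuousOn
  obtain ⟨M2, hM2⟩ := hcpt.exists_bound_of_continuousOn hG0.continuousOn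
  have hu : TendstoUniformlyOn G G0 atTop (Metric.closedBall (0 : ℂ) ρ) :=
    (tendstoLocallyUniformlyOn_iff_tendstoUniformlyOn_of_compact hcpt).mp
      h.tendstoLocallyUniformlyOn
  have hev := Metric.tendstoUniformlyOn_iff.mp hu 1 one_pos
  refine tendsto_lintegral_filter_of_dominated_convergence
    (fun _ => (ENNReal.ofReal (|M1| * (|M2| + 1))) ^ 2) ?_ ?_ ?_ ?_
  · refine Eventually.of_forall fun j => ?_
    have h1 : Continuous fun z => ((Y z : ℝ) : ℂ) * G j z :=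
      (Complex.continuous_ofReal.comp hY).mul (hG j)
    exact h1.measurable.enorm.pow_const 2
  · filter_upwards [hev] with j hj
    refine (ae_restrict_iff' Metric.isClosed_closedBall.measurableSet).mpr
      (Eventually.of_forall fun z hz => ?_)
    have h1 := hj z hz
    have h2 : ‖G j z‖ ≤ |M2| + 1 := by
      have h3 : ‖G j z‖ ≤ ‖G0 z‖ + dist (G0 z) (G j z) := by
        rw [dist_eq_norm]
        calc ‖G j z‖ = ‖G0 z - (G0 z - G j z)‖ := by congr 1; ring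
          _ ≤ _ := norm_sub_le _ _
      have h4 := hM2 z hz
      have h5 := le_abs_self M2
      linarith
    have h3 : ‖((Y z : ℝ) : ℂ) * G j z‖ ≤ |M1| * (|M2| + 1) := by
      rw [norm_mul]
      have h4 := hM1 z hz
      have h5 := le_abs_self M1
      have h6 : ‖((Y z : ℝ) : ℂ)‖ ≤ |M1| := by
        rw [Complex.norm_real]
        linarith
      exact mul_le_mul h6 h2 (norm_nonneg _) (abs_nonneg _)
    gcongr
    rw [← ofReal_norm]
    exact ENNReal.ofReal_le_ofReal h3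
  · rw [lintegral_const]
    refine ENNReal.mul_ne_top (by finiteness) ?_
    rw [Measure.restrict_apply_univ]
    unfold dA
    rw [Measure.smul_apply, smul_eq_mul]
    exact ENNReal.mul_ne_top ENNReal.ofReal_ne_top hcpt.measure_lt_top.ne
  · refine (ae_restrict_iff' Metric.isClosed_closedBall.measurableSet).mpr
      (Eventually.of_forall fun z hz => ?_)
    have h1 : Tendsto (fun j => G j z) atTop (𝓝 (G0 z)) := hu.tendsto_at hz
    have h3 : Tendsto (fun j => ((Y z : ℝ) : ℂ) * G j z) atTop (𝓝 (((Y z : ℝ) : ℂ) * G0 z)) :=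
      h1.const_mul _
    have h4 := (continuous_enorm.tendsto _).comp h3
    exact ((ENNReal.continuous_pow 2).tendsto _).comp h4

private theorem l3c_main (Y Y' : ℂ → ℝ) (hY : Continuous Y)
    (h0 : ∀ z, 0 ≤ Y z)
    (hYY : ∀ ε : ℝ, 0 < ε → ∃ ρ : ℝ, ∀ z : ℂ, ρ < ‖z‖ → Y z ≤ ε * Y' z)
    (G : ℕ → ℂ → ℂ) (G0 : ℂ → ℂ) (C : ℝ)
    (hG : ∀ j, Continuous (G j)) (h : TendstoLocallyUniformly G G0 atTop)
    (hb : ∀ j, S2 Y' (G j) ≤ ENNReal.ofReal C) :
    Tendsto (fun j => S2 Y (G j)) atTop (𝓝 (S2 Y G0)) := by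
  have hpt : ∀ z, Tendsto (fun j => G j z) atTop (𝓝 (G0 z)) := fun z =>
    (tendstoLocallyUniformlyOn_univ.mpr h).tendsto_at (Set.mem_univ z)
  refine tendsto_of_le_liminf_of_limsup_le (l3c_fatou Y hY.measurable G G0 hG hpt) ?_
  refine ENNReal.le_of_forall_pos_le_add fun ε hε _ => ?_
  have hεr : (0 : ℝ) < ε := NNReal.coe_pos.mpr hε
  obtain ⟨η, hη, hη2⟩ : ∃ η : ℝ, 0 < η ∧ η ^ 2 * |C| ≤ ε := by
    refine ⟨Real.sqrt (ε / (|C| + 1)), Real.sqrt_pos.mpr (by positivity), ?_⟩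
    rw [Real.sq_sqrt (by positivity)]
    rw [div_mul_eq_mul_div, div_le_iff₀ (by positivity)]
    nlinarith [abs_nonneg C]
  obtain ⟨ρ, hρ⟩ := hYY η hη
  have hball := l3c_ball Y hY G G0 hG h ρ
  have hsplit : ∀ j, S2 Y (G j) ≤ (∫⁻ z in Metric.closedBall (0 : ℂ) ρ,
      ‖((Y z : ℝ) : ℂ) * G j z‖ₑ ^ 2 ∂dA) + ε := by
    intro j
    have h1 : S2 Y (G j) = (∫⁻ z in Metric.closedBall (0 : ℂ) ρ,
        ‖((Y z : ℝ) : ℂ) * G j z‖ₑ ^ 2 ∂dA) + ∫⁻ z in (Metric.closedBall (0 : ℂ) ρ)ᶜ,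
        ‖((Y z : ℝ) : ℂ) * G j z‖ₑ ^ 2 ∂dA :=
      (lintegral_add_compl _ Metric.isClosed_closedBall.measurableSet).symm
    rw [h1]
    gcongr
    calc ∫⁻ z in (Metric.closedBall (0 : ℂ) ρ)ᶜ, ‖((Y z : ℝ) : ℂ) * G j z‖ₑ ^ 2 ∂dA
        ≤ ∫⁻ z in (Metric.closedBall (0 : ℂ) ρ)ᶜ,
          ENNReal.ofReal (η ^ 2) * ‖((Y' z : ℝ) : ℂ) * G j z‖ₑ ^ 2 ∂dA := by
          refine setLIntegral_mono' Metric.isClosed_closedBall.measurableSet.compl fun z hz => ?_
          have hz' : ρ < ‖z‖ := by simpa using hz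
          have h2 := hρ z hz'
          have h3 : ‖((Y z : ℝ) : ℂ) * G j z‖ ≤ η * ‖((Y' z : ℝ) : ℂ) * G j z‖ := by
            rw [norm_mul, norm_mul, Complex.norm_real, Complex.norm_real, ← mul_assoc]
            refine mul_le_mul_of_nonneg_right ?_ (norm_nonneg _)
            rw [Real.norm_eq_abs, abs_of_nonneg (h0 z)]
            exact h2.trans (mul_le_mul_of_nonneg_left (le_abs_self _) hη.le)
          rw [← ofReal_norm, ← ofReal_norm, ← ENNReal.ofReal_pow (norm_nonneg _),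
            ← ENNReal.ofReal_pow (norm_nonneg _), ← ENNReal.ofReal_mul (by positivity)]
          refine ENNReal.ofReal_le_ofReal ?_
          rw [← mul_pow]
          exact pow_le_pow_left₀ (norm_nonneg _) h3 2
      _ ≤ ∫⁻ z, ENNReal.ofReal (η ^ 2) * ‖((Y' z : ℝ) : ℂ) * G j z‖ₑ ^ 2 ∂dA :=
          setLIntegral_le_lintegral _ _
      _ = ENNReal.ofReal (η ^ 2) * S2 Y' (G j) := by
          rw [lintegral_const_mul' _ _ ENNReal.ofReal_ne_top]
          rfl
      _ ≤ ENNReal.ofReal (η ^ 2) * ENNReal.ofReal C := by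
          gcongr
          exact hb j
      _ ≤ ENNReal.ofReal (η ^ 2) * ENNReal.ofReal |C| := by
          gcongr
          exact le_abs_self C
      _ = ENNReal.ofReal (η ^ 2 * |C|) := (ENNReal.ofReal_mul (by positivity)).symm
      _ ≤ ENNReal.ofReal ε := ENNReal.ofReal_le_ofReal hη2
      _ = ε := ENNReal.ofReal_coe_nnreal
  have hlim : Tendsto (fun j => (∫⁻ z in Metric.closedBall (0 : ℂ) ρ,
      ‖((Y z : ℝ) : ℂ) * G j z‖ₑ ^ 2 ∂dA) + (ε : ℝ≥0∞)) atTop
      (𝓝 ((∫⁻ z in Metric.closedBall (0 : ℂ) ρ, ‖((Y z : ℝ) : ℂ) * G0 z‖ₑ ^ 2 ∂dA) + ε)) :=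
    hball.add_const _
  calc limsup (fun j => S2 Y (G j)) atTop
      ≤ limsup (fun j => (∫⁻ z in Metric.closedBall (0 : ℂ) ρ,
      ‖((Y z : ℝ) : ℂ) * G j z‖ₑ ^ 2 ∂dA) + (ε : ℝ≥0∞)) atTop :=
        limsup_le_limsup (Eventually.of_forall hsplit)
    _ = (∫⁻ z in Metric.closedBall (0 : ℂ) ρ, ‖((Y z : ℝ) : ℂ) * G0 z‖ₑ ^ 2 ∂dA) + ε :=
        hlim.limsup_eq
    _ ≤ S2 Y G0 + ε := by
        gcongr
        exact setLIntegral_le_lintegral _ _

/-- no loss of mass: the om-norm converges when the omm-norms are bounded -/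
theorem S2_tight (R : ℝ) (hR : 4 ≤ R) (G : ℕ → ℂ → ℂ) (G0 : ℂ → ℂ) (C : ℝ)
    (hG : ∀ j, Continuous (G j)) (h : TendstoLocallyUniformly G G0 atTop)
    (hb : ∀ j, S2 (omm R) (G j) ≤ ENNReal.ofReal C) :
    Tendsto (fun j => S2 (om R) (G j)) atTop (𝓝 (S2 (om R) G0)) := by
  have hR0 : 0 < R := by linarith
  have hpos : ∀ z : ℂ, 0 < 1 + ‖z‖ / R := fun z => by positivity
  refine l3c_main (om R) (omm R) ?_ ?_ ?_ G G0 C hG h hb
  · unfold om
    refine Continuous.inv₀ (by fun_prop) fun z => ?_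
    exact (pow_pos (hpos z) 4).ne'
  · intro z
    unfold om
    have := hpos z
    positivity
  · intro ε hε
    refine ⟨R / ε, fun z hz => ?_⟩
    unfold om omm
    have h1 := hpos z
    have h2 : 1 ≤ ε * (1 + ‖z‖ / R) := by
      have h3 : 1 ≤ ε * (‖z‖ / R) := by
        rw [← mul_div_assoc, le_div_iff₀ hR0, one_mul]
        have h4 := (div_lt_iff₀ hε).mp hz
        linarith
      nlinarith
    rw [inv_eq_one_div, inv_eq_one_div, div_le_iff₀ (pow_pos h1 4)]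
    have h5 : ε * (1 / (1 + ‖z‖ / R) ^ 3) * (1 + ‖z‖ / R) ^ 4 = ε * (1 + ‖z‖ / R) := by
      have h6 := h1.ne'
      field_simp
    rw [h5]
    exact h2

/-- same with the weights 1 and 1+|z| -/
theorem S2_tight1 (G : ℕ → ℂ → ℂ) (G0 : ℂ → ℂ) (C : ℝ)
    (hG : ∀ j, Continuous (G j)) (h : TendstoLocallyUniformly G G0 atTop)
    (hb : ∀ j, S2 (fun z => 1 + ‖z‖) (G j) ≤ ENNReal.ofReal C) :
    Tendsto (fun j => S2 (fun _ => 1) (fun z => G j z - G0 z)) atTop (𝓝 0) := by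
  have hG0 : Continuous G0 := h.continuous (Frequently.of_forall hG)
  have hYc : Continuous fun z : ℂ => 1 + ‖z‖ := by fun_prop
  have hb0 : S2 (fun z => 1 + ‖z‖) G0 ≤ ENNReal.ofReal C :=
    S2_fatou _ hYc.measurable G G0 _ hG (fun z =>
      (tendstoLocallyUniformlyOn_univ.mpr h).tendsto_at (Set.mem_univ z)) hb
  have hz : S2 (fun _ => 1) (fun _ => (0 : ℂ)) = 0 := by
    simp [S2]
  have key : Tendsto (fun j => S2 (fun _ => 1) ((fun j z => G j z - G0 z) j)) atTop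
      (𝓝 (S2 (fun _ => 1) (fun _ => (0 : ℂ)))) := by
    refine l3c_main (fun _ => 1) (fun z => 1 + ‖z‖) continuous_const (fun _ => zero_le_one) ?_
      _ _ (4 * |C|) (fun j => (hG j).sub hG0) ?_ ?_
    · intro ε hε
      refine ⟨1 / ε, fun z hz => ?_⟩
      have h1 := (div_lt_iff₀ hε).mp hz
      nlinarith [norm_nonneg z]
    · rw [Metric.tendstoLocallyUniformly_iff] at h ⊢
      intro ε hε x
      obtain ⟨t, ht, h1⟩ := h ε hε x
      refine ⟨t, ht, ?_⟩
      filter_upwards [h1] with j hj y hy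
      have h2 := hj y hy
      rw [dist_eq_norm] at h2 ⊢
      rw [zero_sub, norm_neg, norm_sub_rev]
      exact h2
    · intro j
      have hm : Measurable fun z : ℂ => ‖(((1 + ‖z‖ : ℝ)) : ℂ) * G j z‖ₑ ^ 2 := by
        have h1 : Continuous fun z : ℂ => (((1 + ‖z‖ : ℝ)) : ℂ) * G j z :=
          (Complex.continuous_ofReal.comp hYc).mul (hG j)
        exact h1.measurable.enorm.pow_const 2
      calc S2 (fun z => 1 + ‖z‖) (fun z => G j z - G0 z)
          ≤ ∫⁻ z, (2 * ‖(((1 + ‖z‖ : ℝ)) : ℂ) * G j z‖ₑ ^ 2 +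
            2 * ‖(((1 + ‖z‖ : ℝ)) : ℂ) * G0 z‖ₑ ^ 2) ∂dA := by
            unfold S2
            refine lintegral_mono fun z => ?_
            have h1 : ‖(((1 + ‖z‖ : ℝ)) : ℂ) * (G j z - G0 z)‖ ^ 2 ≤
                2 * ‖(((1 + ‖z‖ : ℝ)) : ℂ) * G j z‖ ^ 2 +
                2 * ‖(((1 + ‖z‖ : ℝ)) : ℂ) * G0 z‖ ^ 2 := by
              rw [mul_sub]
              have h2 := norm_sub_le ((((1 + ‖z‖ : ℝ)) : ℂ) * G j z)
                ((((1 + ‖z‖ : ℝ)) : ℂ) * G0 z)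
              have h3 := norm_nonneg ((((1 + ‖z‖ : ℝ)) : ℂ) * G j z -
                (((1 + ‖z‖ : ℝ)) : ℂ) * G0 z)
              nlinarith [sq_nonneg (‖(((1 + ‖z‖ : ℝ)) : ℂ) * G j z‖ -
                ‖(((1 + ‖z‖ : ℝ)) : ℂ) * G0 z‖)]
            have h2 := ENNReal.ofReal_le_ofReal h1
            rw [ENNReal.ofReal_add (by positivity) (by positivity),
              ENNReal.ofReal_mul (by positivity), ENNReal.ofReal_mul (by positivity),
              ENNReal.ofReal_pow (norm_nonneg _), ENNReal.ofReal_pow (norm_nonneg _),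
              ENNReal.ofReal_pow (norm_nonneg _), ofReal_norm, ofReal_norm,
              ofReal_norm, ENNReal.ofReal_ofNat] at h2
            exact h2
        _ = 2 * S2 (fun z => 1 + ‖z‖) (G j) + 2 * S2 (fun z => 1 + ‖z‖) G0 := by
            rw [lintegral_add_left (hm.const_mul 2), lintegral_const_mul' _ _ (by finiteness),
              lintegral_const_mul' _ _ (by finiteness)]
            rfl
        _ ≤ 2 * ENNReal.ofReal |C| + 2 * ENNReal.ofReal |C| := by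
            gcongr
            · exact (hb j).trans (ENNReal.ofReal_le_ofReal (le_abs_self C))
            · exact hb0.trans (ENNReal.ofReal_le_ofReal (le_abs_self C))
        _ = ENNReal.ofReal (4 * |C|) := by
            rw [ENNReal.ofReal_mul (by norm_num), ← add_mul]
            norm_num
  rw [hz] at key
  exact key

end Pool.Agent.Helper84.HRT
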