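import Mathlib
import Pool.Agent.Helper84.HRT.DefsA
import Pool.Agent.Helper84.HRT.YG
import Pool.Agent.Helper84.HRT.YK
import Pool.Agent.Helper84.HRT.L3C

open MeasureTheory Complex Filter
open scoped ENNReal ComplexConjugate InnerProductSpace BigOperators Topology

namespace Pool.Agent.Helper84.HRT

variable {H : Type} [NormedAddCommGroup H] [InnerProductSpace ℂ H] [CompleteSpace H]

theorem l3b_om_pos (R : ℝ) (hR : 4 ≤ R) (z : ℂ) : 0 < om R z := by
  unfold om
  have : 0 ≤ ‖z‖ / R := div_nonneg (norm_nonneg _) (by linarith)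
  positivity

/-- sequential Arzelà–Ascoli for locally Lipschitz functions with explicit bounds -/
theorem l3b_ascoli (B L : ℂ → ℝ) (G : ℕ → ℂ → ℂ) (hB : ∀ j z, ‖G j z‖ ≤ B z)
    (hL : ∀ j z z', ‖z - z'‖ ≤ 1 → ‖G j z - G j z'‖ ≤ L z * ‖z - z'‖) :
    ∃ φ : ℕ → ℕ, StrictMono φ ∧ ∃ G0 : ℂ → ℂ, Continuous G0 ∧
      TendstoLocallyUniformly (fun j => G (φ j)) G0 atTop := by
  -- the set of admissible functions
  set P : Set (ℂ → ℂ) := {f | (∀ z, f z ∈ Metric.closedBall (0 : ℂ) (B z)) ∧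
    ∀ z z', ‖z - z'‖ ≤ 1 → ‖f z - f z'‖ ≤ L z * ‖z - z'‖} with hP
  have hPcont : ∀ f ∈ P, Continuous f := by
    intro f hf
    rw [continuous_iff_continuousAt]
    intro z
    rw [ContinuousAt, tendsto_iff_norm_sub_tendsto_zero]
    have h1 : ∀ᶠ z' in 𝓝 z, ‖f z' - f z‖ ≤ L z * ‖z' - z‖ := by
      filter_upwards [Metric.ball_mem_nhds z one_pos] with z' hz'
      rw [norm_sub_rev, norm_sub_rev z']
      apply hf.2
      rw [Metric.mem_ball, dist_eq_norm, norm_sub_rev] at hz'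
      exact hz'.le
    have h2 : Tendsto (fun z' => L z * ‖z' - z‖) (𝓝 z) (𝓝 0) := by
      have : Tendsto (fun z' => L z * ‖z' - z‖) (𝓝 z) (𝓝 (L z * ‖z - z‖)) := by
        apply Continuous.tendsto
        fun_prop
      simpa using this
    exact squeeze_zero' (Eventually.of_forall fun _ => norm_nonneg _) h1 h2
  have hPcomp : IsCompact P := by
    have h1 : IsCompact (Set.pi Set.univ fun z : ℂ => Metric.closedBall (0 : ℂ) (B z)) :=
      isCompact_univ_pi fun z => isCompact_closedBall _ _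
    have h2 : IsClosed {f : ℂ → ℂ | ∀ z z', ‖z - z'‖ ≤ 1 → ‖f z - f z'‖ ≤ L z * ‖z - z'‖} := by
      simp only [Set.ofPred_forall]
      refine isClosed_iInter fun z => isClosed_iInter fun z' => isClosed_iInter fun _ => ?_
      exact isClosed_le (((continuous_apply z).sub (continuous_apply z')).norm) continuous_const
    have : P = (Set.pi Set.univ fun z : ℂ => Metric.closedBall (0 : ℂ) (B z)) ∩
        {f : ℂ → ℂ | ∀ z z', ‖z - z'‖ ≤ 1 → ‖f z - f z'‖ ≤ L z * ‖z - z'‖} := by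
      ext f
      simp [hP, Set.mem_pi]
    rw [this]
    exact h1.inter_right h2
  have hGP : ∀ j, G j ∈ P := fun j => ⟨fun z => by simpa using hB j z, hL j⟩
  set S : Set C(ℂ, ℂ) := {f | (f : ℂ → ℂ) ∈ P} with hS
  have hSc : IsCompact S := by
    apply ArzelaAscoli.isCompact_of_equicontinuous
    · have : ContinuousMap.toFun '' S = P := by
        ext f
        constructor
        · rintro ⟨g, hg, rfl⟩
          exact hg
        · intro hf
          exact ⟨⟨f, hPcont f hf⟩, hf, rfl⟩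
      rw [this]
      exact hPcomp
    · intro z
      rw [Metric.equicontinuousAt_iff]
      intro ε hε
      refine ⟨min 1 (ε / (|L z| + 1)), lt_min one_pos (by positivity), ?_⟩
      intro z' hz' f
      rw [dist_eq_norm, norm_sub_rev] at hz' ⊢
      have h1 : ‖z - z'‖ ≤ 1 := (hz'.trans_le (min_le_left _ _)).le
      have h2 : ‖z - z'‖ < ε / (|L z| + 1) := hz'.trans_le (min_le_right _ _)
      have h3 := f.2.2 z z' h1
      rw [lt_div_iff₀ (by positivity)] at h2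
      rw [norm_sub_rev]
      calc ‖(f : C(ℂ, ℂ)) z - (f : C(ℂ, ℂ)) z'‖ ≤ L z * ‖z - z'‖ := h3
        _ ≤ (|L z| + 1) * ‖z - z'‖ := by
            apply mul_le_mul_of_nonneg_right _ (norm_nonneg _)
            linarith [le_abs_self (L z)]
        _ < ε := by linarith
  obtain ⟨g, hg, φ, hφ, hlim⟩ := hSc.tendsto_subseq
    (x := fun j => (⟨G j, hPcont _ (hGP j)⟩ : C(ℂ, ℂ))) (fun j => hGP j)
  refine ⟨φ, hφ, g, g.continuous, ?_⟩
  rw [ContinuousMap.tendsto_iff_tendstoLocallyUniformly] at hlim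
  exact hlim

/-- from an `ENNReal` bound on a squared weighted norm to a real bound -/
theorem l3b_sq_bound {w a C : ℝ} {x : ℂ} (hw : 0 < w) (ha : 0 ≤ a)
    (h : ‖((w : ℝ) : ℂ) * x‖ₑ ^ 2 ≤ ENNReal.ofReal (a ^ 2) * ENNReal.ofReal C) :
    ‖x‖ ≤ a * Real.sqrt (max C 0) / w := by
  have h1 : ‖((w : ℝ) : ℂ) * x‖ₑ ^ 2 = ENNReal.ofReal ((w * ‖x‖) ^ 2) := by
    rw [← ofReal_norm, norm_mul, Complex.norm_real, Real.norm_of_nonneg hw.le,
      ENNReal.ofReal_pow (by positivity)]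
  have h2 : ENNReal.ofReal C = ENNReal.ofReal (max C 0) := by
    rcases le_total C 0 with hC | hC
    · rw [ENNReal.ofReal_of_nonpos hC, max_eq_right hC, ENNReal.ofReal_zero]
    · rw [max_eq_left hC]
  rw [h1, h2, ← ENNReal.ofReal_mul (by positivity),
    ENNReal.ofReal_le_ofReal_iff (by positivity)] at h
  have h3 : (w * ‖x‖) ^ 2 ≤ (a * Real.sqrt (max C 0)) ^ 2 := by
    rw [mul_pow a, Real.sq_sqrt (le_max_right _ _)]
    exact h
  have h4 : w * ‖x‖ ≤ a * Real.sqrt (max C 0) :=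
    abs_le_of_sq_le_sq' h3 (by positivity) |>.2
  rw [le_div_iff₀ hw]
  linarith

theorem l3b_dom (z : ℂ) :
    Integrable (fun ζ : ℂ => (1 + ‖ζ‖) ^ 4 * Real.exp (-‖z - ζ‖ ^ 2 / 2)) dA := by
  have h0 : Integrable (fun x : ℂ => (1 + ‖x‖) ^ 4 * Real.exp (0 * ‖x‖ - ‖x‖ ^ 2 / 2)) dA := by
    refine ⟨by fun_prop, ?_⟩
    rw [hasFiniteIntegral_iff_enorm]
    have := gauss_fin 0 4
    refine lt_of_le_of_lt (lintegral_mono fun x => ?_) this
    rw [← ofReal_norm, Real.norm_of_nonneg (by positivity)]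
  have h1 := h0.comp_sub_left z
  have h2 := h1.const_mul ((1 + ‖z‖) ^ 4)
  refine h2.mono' (by fun_prop) (Eventually.of_forall fun ζ => ?_)
  rw [Real.norm_of_nonneg (by positivity)]
  have h3 : 1 + ‖ζ‖ ≤ (1 + ‖z‖) * (1 + ‖z - ζ‖) := by
    have : ‖ζ‖ ≤ ‖z‖ + ‖z - ζ‖ := by
      have := norm_sub_le z (z - ζ)
      simpa using this
    nlinarith [norm_nonneg z, norm_nonneg (z - ζ)]
  have h4 : (1 + ‖ζ‖) ^ 4 ≤ ((1 + ‖z‖) * (1 + ‖z - ζ‖)) ^ 4 :=
    pow_le_pow_left₀ (by positivity) h3 4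
  have h5 : Real.exp (0 * ‖z - ζ‖ - ‖z - ζ‖ ^ 2 / 2) = Real.exp (-‖z - ζ‖ ^ 2 / 2) := by
    congr 1; ring
  simp only [h5]
  calc (1 + ‖ζ‖) ^ 4 * Real.exp (-‖z - ζ‖ ^ 2 / 2)
      ≤ ((1 + ‖z‖) * (1 + ‖z - ζ‖)) ^ 4 * Real.exp (-‖z - ζ‖ ^ 2 / 2) :=
        mul_le_mul_of_nonneg_right h4 (Real.exp_pos _).le
    _ = _ := by ring

/-- compactness in weighted spaces -/
theorem L3b (R : ℝ) (hR : 4 ≤ R) (G : ℕ → ℂ → ℂ) (hG : ∀ j, Rep (G j)) (C : ℝ)
    (hb : ∀ j, S2 (om R) (G j) ≤ ENNReal.ofReal C) :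
    ∃ φ : ℕ → ℕ, StrictMono φ ∧ ∃ G0 : ℂ → ℂ, Rep G0 ∧ S2 (om R) G0 ≤ ENNReal.ofReal C ∧
      TendstoLocallyUniformly (fun j => G (φ j)) G0 atTop := by
  obtain ⟨C1, hC1, h1⟩ := Kop_pointwise
  obtain ⟨C2, hC2, h2⟩ := Kop_lip
  have hKG : ∀ j, Kop (G j) = G j := fun j => funext (hG j).rep
  have hmeas : ∀ j, AEStronglyMeasurable (G j) dA := fun j => (hG j).cont.aestronglyMeasurable
  have hom : ∀ z, 0 < om R z := l3b_om_pos R hR
  -- pointwise bound
  have hB : ∀ j z, ‖G j z‖ ≤ Real.sqrt C1 * Real.sqrt (max C 0) / om R z := by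
    intro j z
    have := h1 (om R) (G j) (om_logLip hR) (hmeas j) z
    rw [hKG] at this
    refine l3b_sq_bound (hom z) (Real.sqrt_nonneg _) (this.trans ?_)
    rw [Real.sq_sqrt hC1.le]
    gcongr
    exact hb j
  have hL : ∀ j z z', ‖z - z'‖ ≤ 1 → ‖G j z - G j z'‖ ≤
      (Real.sqrt C2 * (1 + ‖z‖) * Real.sqrt (max C 0) / om R z) * ‖z - z'‖ := by
    intro j z z' hz
    have := h2 (om R) (G j) (om_logLip hR) (hmeas j) z z' hz
    rw [hKG] at this
    have h3 := l3b_sq_bound (a := Real.sqrt C2 * (1 + ‖z‖) * ‖z - z'‖) (C := C) (hom z)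
      (by positivity) (this.trans ?_)
    · refine h3.trans (le_of_eq ?_)
      ring
    · rw [mul_pow, mul_pow, Real.sq_sqrt hC2.le]
      gcongr
      exact hb j
  obtain ⟨φ, hφ, G0, hG0c, hlim⟩ := l3b_ascoli _ _ G hB hL
  have hpt : ∀ z, Tendsto (fun j => G (φ j) z) atTop (𝓝 (G0 z)) := fun z =>
    (tendstoLocallyUniformlyOn_univ.2 hlim).tendsto_at (Set.mem_univ z)
  have hom_meas : Measurable (om R) := by
    unfold om
    fun_prop
  have hS : S2 (om R) G0 ≤ ENNReal.ofReal C :=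
    S2_fatou (om R) hom_meas (fun j => G (φ j)) G0 _ (fun j => (hG _).cont) hpt
      (fun j => hb _)
  refine ⟨φ, hφ, G0, ⟨hG0c, ?_, ?_⟩, hS, hlim⟩
  · refine lt_of_le_of_lt ?_ (lt_of_le_of_lt hS ENNReal.ofReal_lt_top)
    unfold S2
    refine lintegral_mono fun z => ?_
    gcongr
    rw [← ofReal_norm, ← ofReal_norm]
    apply ENNReal.ofReal_le_ofReal
    rw [norm_mul, norm_mul, Complex.norm_real, Complex.norm_real,
      Real.norm_of_nonneg (l3b_om_pos 4 le_rfl z).le, Real.norm_of_nonneg (hom z).le]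
    apply mul_le_mul_of_nonneg_right _ (norm_nonneg _)
    unfold om
    have h0 : ‖z‖ / R ≤ ‖z‖ / 4 := div_le_div_of_nonneg_left (norm_nonneg _) (by norm_num) hR
    have h00 : 0 ≤ ‖z‖ / R := div_nonneg (norm_nonneg _) (by linarith)
    gcongr
  · intro z
    have hK : Tendsto (fun j => Kop (G (φ j)) z) atTop (𝓝 (Kop G0 z)) := by
      unfold Kop
      refine tendsto_integral_of_dominated_convergence
        (fun ζ => (Real.sqrt C1 * Real.sqrt (max C 0)) *
          ((1 + ‖ζ‖) ^ 4 * Real.exp (-‖z - ζ‖ ^ 2 / 2))) ?_ ?_ ?_ ?_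
      · intro j
        have : Continuous fun ζ => Kk z ζ * G (φ j) ζ :=
          (Kk_cont.comp (Continuous.prodMk continuous_const continuous_id)).mul (hG _).cont
        exact this.aestronglyMeasurable
      · exact (l3b_dom z).const_mul _
      · intro j
        refine Eventually.of_forall fun ζ => ?_
        rw [norm_mul, Kk_norm]
        have h3 := hB (φ j) ζ
        have h4 : Real.sqrt C1 * Real.sqrt (max C 0) / om R ζ ≤
            Real.sqrt C1 * Real.sqrt (max C 0) * (1 + ‖ζ‖) ^ 4 := by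
          unfold om
          rw [div_inv_eq_mul]
          have h5 : ‖ζ‖ / R ≤ ‖ζ‖ := by
            apply div_le_self (norm_nonneg _)
            linarith
          have h00 : 0 ≤ ‖ζ‖ / R := div_nonneg (norm_nonneg _) (by linarith)
          gcongr
        calc Real.exp (-‖z - ζ‖ ^ 2 / 2) * ‖G (φ j) ζ‖
            ≤ Real.exp (-‖z - ζ‖ ^ 2 / 2) *
              (Real.sqrt C1 * Real.sqrt (max C 0) * (1 + ‖ζ‖) ^ 4) :=
              mul_le_mul_of_nonneg_left (h3.trans h4) (Real.exp_pos _).le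
          _ = _ := by ring
      · exact Eventually.of_forall fun ζ => (hpt ζ).const_mul _
    have hK2 : (fun j => Kop (G (φ j)) z) = fun j => G (φ j) z := by
      funext j
      rw [hKG]
    rw [hK2] at hK
    exact tendsto_nhds_unique hK (hpt z)

end Pool.Agent.Helper84.HRT
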