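import Mathlib
import Pool.Agent.Helper84.HRT.DefsA
import Pool.Agent.Helper84.HRT.WB
import Pool.Agent.Helper84.HRT.WD
import Pool.Agent.Helper84.HRT.VS
import Pool.Agent.Helper84.HRT.L3C
import Pool.Agent.Helper84.HRT.L3B

open MeasureTheory Complex Filter
open scoped ENNReal ComplexConjugate InnerProductSpace BigOperators Topology

namespace Pool.Agent.Helper84.HRT

variable {H : Type} [NormedAddCommGroup H] [InnerProductSpace ℂ H] [CompleteSpace H]

private theorem L3A_mono {Y Y' : ℂ → ℝ} (h : ∀ z, |Y z| ≤ |Y' z|) (F : ℂ → ℂ) :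
    S2 Y F ≤ S2 Y' F := by
  unfold S2
  refine lintegral_mono fun z => ?_
  refine pow_le_pow_left' ?_ 2
  rw [enorm_mul, enorm_mul]
  refine mul_le_mul_left ?_ _
  rw [enorm_le_iff_norm_le, norm_real, norm_real]
  exact h z

private theorem L3A_om_le (z : ℂ) : |om 4 z| ≤ |(1 : ℝ)| := by
  have h1 : (1 : ℝ) ≤ (1 + ‖z‖ / 4) ^ 4 := one_le_pow₀ (by have := norm_nonneg z; linarith)
  have h2 : 0 ≤ om 4 z := inv_nonneg.2 (by linarith)
  rw [abs_of_nonneg h2, abs_one]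
  exact inv_le_one_of_one_le₀ h1

private theorem L3A_one_le (z : ℂ) : |(1 : ℝ)| ≤ |1 + ‖z‖| := by
  have := norm_nonneg z
  rw [abs_one, abs_of_nonneg (by linarith)]
  linarith

/-- locally uniform convergence and tightness give norm convergence -/
private theorem L3A_conv (W : Weyl H) (f : ℕ → H) (g : H) (C : ℝ)
    (hb : ∀ j, S2 (fun z => 1 + ‖z‖) (W.V (f j)) ≤ ENNReal.ofReal C)
    (h : TendstoLocallyUniformly (fun j => W.V (f j)) (W.V g) atTop) :
    Tendsto f atTop (𝓝 g) := by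
  have h1 := S2_tight1 (fun j => W.V (f j)) (W.V g) C (fun j => V_cont W (f j)) h hb
  have h2 : ∀ j, S2 (fun _ => 1) (fun z => W.V (f j) z - W.V g z) =
      ENNReal.ofReal (‖f j - g‖ ^ 2) := by
    intro j
    rw [← S2_V W (f j - g)]
    congr 1
    funext z
    rw [V_sub]
  simp only [h2] at h1
  have h3 : Tendsto (fun j => ‖f j - g‖ ^ 2) atTop (𝓝 0) := by
    have h4 := (ENNReal.tendsto_toReal ENNReal.zero_ne_top).comp h1
    simp only [ENNReal.toReal_zero] at h4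
    refine h4.congr fun j => ?_
    rw [Function.comp_apply, ENNReal.toReal_ofReal (sq_nonneg _)]
  rw [tendsto_iff_norm_sub_tendsto_zero]
  have h5 := (Real.continuous_sqrt.tendsto 0).comp h3
  rw [Real.sqrt_zero] at h5
  refine h5.congr fun j => ?_
  rw [Function.comp_apply, Real.sqrt_sq (norm_nonneg _)]

/-- the vectors `U(-z) g0` span a dense subspace -/
private theorem L3A_dense (W : Weyl H) :
    (Submodule.span ℂ (Set.range fun z : ℂ => W.U (-z) W.g0)).topologicalClosure = ⊤ := by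
  rw [Submodule.topologicalClosure_eq_top_iff, Submodule.eq_bot_iff]
  intro f hf
  refine V_inj W f fun z => ?_
  rw [Submodule.mem_orthogonal] at hf
  exact hf _ (Submodule.subset_span ⟨z, rfl⟩)

/-- pointwise convergence of the transforms and boundedness give weak convergence -/
private theorem L3A_weak (W : Weyl H) (f : ℕ → H) (g : H) (C : ℝ) (hf : ∀ j, ‖f j‖ ≤ C)
    (hg : ‖g‖ ≤ C) (h : ∀ z, Tendsto (fun j => W.V (f j) z) atTop (𝓝 (W.V g z))) (x : H) :
    Tendsto (fun j => (inner ℂ x (f j) : ℂ)) atTop (𝓝 (inner ℂ x g)) := by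
  have hC : 0 ≤ C := (norm_nonneg _).trans hg
  -- the span
  have hS : ∀ y ∈ Submodule.span ℂ (Set.range fun z : ℂ => W.U (-z) W.g0),
      Tendsto (fun j => (inner ℂ y (f j) : ℂ)) atTop (𝓝 (inner ℂ y g)) := by
    intro y hy
    induction hy using Submodule.span_induction with
    | mem y hy =>
      obtain ⟨z, rfl⟩ := hy
      exact h z
    | zero =>
      simp only [inner_zero_left]
      exact tendsto_const_nhds
    | add y y' _ _ h1 h2 =>
      simp only [inner_add_left]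
      exact h1.add h2
    | smul a y _ h1 =>
      simp only [inner_smul_left]
      exact h1.const_mul _
  rw [Metric.tendsto_atTop]
  intro ε hε
  have hx : x ∈ closure ((Submodule.span ℂ (Set.range fun z : ℂ => W.U (-z) W.g0) :
      Submodule ℂ H) : Set H) := by
    have h1 : x ∈ (Submodule.span ℂ (Set.range fun z : ℂ => W.U (-z) W.g0)).topologicalClosure := by
      rw [L3A_dense]
      exact Submodule.mem_top
    exact h1
  have hδ : 0 < ε / (4 * (C + 1)) := by positivity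
  obtain ⟨y, hy, hxy⟩ := Metric.mem_closure_iff.1 hx _ hδ
  obtain ⟨N, hN⟩ := Metric.tendsto_atTop.1 (hS y hy) (ε / 2) (by positivity)
  refine ⟨N, fun j hj => ?_⟩
  have h1 := hN j hj
  rw [dist_eq_norm] at h1 ⊢
  have h2 : (inner ℂ x (f j) : ℂ) - inner ℂ x g =
      (inner ℂ y (f j) - inner ℂ y g) + inner ℂ (x - y) (f j - g) := by
    simp only [inner_sub_left, inner_sub_right]
    ring
  have h3 : ‖(inner ℂ (x - y) (f j - g) : ℂ)‖ ≤ ‖x - y‖ * ‖f j - g‖ := norm_inner_le_norm _ _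
  have h4 : ‖f j - g‖ ≤ 2 * C := (norm_sub_le _ _).trans (by linarith [hf j])
  rw [dist_eq_norm] at hxy
  have h5 : ‖x - y‖ * ‖f j - g‖ < ε / 2 := by
    calc ‖x - y‖ * ‖f j - g‖ ≤ ε / (4 * (C + 1)) * (2 * C) :=
          mul_le_mul hxy.le h4 (norm_nonneg _) hδ.le
      _ < ε / (4 * (C + 1)) * (2 * (C + 1)) := by
          refine mul_lt_mul_of_pos_left ?_ hδ
          linarith
      _ = ε / 2 := by
          field_simp
          ring
  rw [h2]
  calc ‖(inner ℂ y (f j) - inner ℂ y g) + inner ℂ (x - y) (f j - g)‖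
      ≤ ‖(inner ℂ y (f j) : ℂ) - inner ℂ y g‖ + ‖(inner ℂ (x - y) (f j - g) : ℂ)‖ :=
        norm_add_le _ _
    _ < ε / 2 + ε / 2 := add_lt_add_of_lt_of_lt h1 (h3.trans_lt h5)
    _ = ε := by ring

/-- weak compactness in H -/
private theorem L3A_c (W : Weyl H) (f : ℕ → H) (C : ℝ) (hf : ∀ j, ‖f j‖ ≤ C) :
    ∃ φ : ℕ → ℕ, StrictMono φ ∧ ∃ g : H, ‖g‖ ≤ C ∧
      (∀ h : H, Tendsto (fun j => (inner ℂ h (f (φ j)) : ℂ)) atTop (𝓝 (inner ℂ h g))) ∧
      TendstoLocallyUniformly (fun j => W.V (f (φ j))) (W.V g) atTop := by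
  have hC : 0 ≤ C := (norm_nonneg _).trans (hf 0)
  have h1 : ∀ j, S2 (fun _ => 1) (W.V (f j)) ≤ ENNReal.ofReal (C ^ 2) := by
    intro j
    rw [S2_V]
    exact ENNReal.ofReal_le_ofReal (pow_le_pow_left₀ (norm_nonneg _) (hf j) 2)
  obtain ⟨φ, hφ, G0, hG0, -, hlim⟩ := L3b 4 le_rfl (fun j => W.V (f j)) (fun j => rep_V W (f j))
    (C ^ 2) (fun j => (L3A_mono L3A_om_le _).trans (h1 j))
  have hpt : ∀ z, Tendsto (fun j => W.V (f (φ j)) z) atTop (𝓝 (G0 z)) := fun z =>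
    (tendstoLocallyUniformlyOn_univ.2 hlim).tendsto_at (Set.mem_univ z)
  have h2 : S2 (fun _ => 1) G0 ≤ ENNReal.ofReal (C ^ 2) :=
    S2_fatou (fun _ => 1) measurable_const (fun j => W.V (f (φ j))) G0 _
      (fun j => V_cont W _) hpt (fun j => h1 (φ j))
  obtain ⟨g, hg⟩ := exists_of_rep W G0 hG0 (h2.trans_lt ENNReal.ofReal_lt_top)
  have hgC : ‖g‖ ≤ C := by
    rw [← hg, S2_V, ENNReal.ofReal_le_ofReal_iff (sq_nonneg _)] at h2
    exact le_of_sq_le_sq h2 hC
  rw [← hg] at hlim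
  refine ⟨φ, hφ, g, hgC, ?_, hlim⟩
  exact L3A_weak W (fun j => f (φ j)) g C (fun j => hf _) hgC fun z => by
    rw [hg]
    exact hpt z

theorem L3a (W : Weyl H) (f : ℕ → H) (C : ℝ) (hf : ∀ j, ‖f j‖ ≤ C)
    (hb : ∀ j, S2 (fun z => 1 + ‖z‖) (W.V (f j)) ≤ ENNReal.ofReal C) :
    ∃ φ : ℕ → ℕ, StrictMono φ ∧ ∃ g : H, Tendsto (fun j => f (φ j)) atTop (𝓝 g) := by
  obtain ⟨φ, hφ, g, -, -, hlim⟩ := L3A_c W f C hf
  exact ⟨φ, hφ, g, L3A_conv W (fun j => f (φ j)) g C (fun j => hb _) hlim⟩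

/-- weak compactness in H -/
theorem L3c (W : Weyl H) (f : ℕ → H) (C : ℝ) (hf : ∀ j, ‖f j‖ ≤ C) :
    ∃ φ : ℕ → ℕ, StrictMono φ ∧ ∃ g : H, ‖g‖ ≤ C ∧
      (∀ h : H, Tendsto (fun j => (inner ℂ h (f (φ j)) : ℂ)) atTop (𝓝 (inner ℂ h g))) ∧
      TendstoLocallyUniformly (fun j => W.V (f (φ j))) (W.V g) atTop := L3A_c W f C hf

/-- if `V f_j → V g` locally uniformly, and tight, then norm convergence -/
theorem L3d (W : Weyl H) (f : ℕ → H) (g : H) (C : ℝ)
    (hb : ∀ j, S2 (fun z => 1 + ‖z‖) (W.V (f j)) ≤ ENNReal.ofReal C)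
    (h : ∀ z, Tendsto (fun j => W.V (f j) z) atTop (𝓝 (W.V g z))) :
    Tendsto f atTop (𝓝 g) := by
  have hbd : ∀ j, ‖f j‖ ≤ Real.sqrt (max C 0) := by
    intro j
    have h1 := (L3A_mono L3A_one_le (W.V (f j))).trans (hb j)
    rw [S2_V] at h1
    refine Real.le_sqrt_of_sq_le ?_
    have h2 : ENNReal.ofReal (‖f j‖ ^ 2) ≤ ENNReal.ofReal (max C 0) :=
      h1.trans (ENNReal.ofReal_le_ofReal (le_max_left _ _))
    rwa [ENNReal.ofReal_le_ofReal_iff (le_max_right _ _)] at h2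
  refine tendsto_of_subseq_tendsto fun ns hns => ?_
  obtain ⟨φ, hφ, g', -, -, hlim⟩ := L3A_c W (fun j => f (ns j)) _ (fun j => hbd _)
  have hgg : g' = g := by
    have h1 : ∀ z, W.V g' z = W.V g z := by
      intro z
      have h2 : Tendsto (fun j => W.V (f (ns (φ j))) z) atTop (𝓝 (W.V g' z)) :=
        (tendstoLocallyUniformlyOn_univ.2 hlim).tendsto_at (Set.mem_univ z)
      have h3 : Tendsto (fun j => W.V (f (ns (φ j))) z) atTop (𝓝 (W.V g z)) :=
        (h z).comp (hns.comp hφ.tendsto_atTop)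
      exact tendsto_nhds_unique h2 h3
    have h4 : g' - g = 0 := V_inj W _ fun z => by rw [V_sub, h1, sub_self]
    exact sub_eq_zero.1 h4
  rw [hgg] at hlim
  exact ⟨φ, L3A_conv W (fun j => f (ns (φ j))) g C (fun j => hb _) hlim⟩

end Pool.Agent.Helper84.HRT
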