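import Mathlib
import Pool.Agent.Helper84.HRT.DefsA
import Pool.Agent.Helper84.HRT.WA
import Pool.Agent.Helper84.HRT.WB
import Pool.Agent.Helper84.HRT.L3A
import Pool.Agent.Helper84.HRT.WD
import Pool.Agent.Helper84.HRT.XA
import Pool.Agent.Helper84.HRT.XB
import Pool.Agent.Helper84.HRT.XC
import Pool.Agent.Helper84.HRT.XD
import Pool.Agent.Helper84.HRT.L3B
import Pool.Agent.Helper84.HRT.L12
import Pool.Agent.Helper84.HRT.L11B

open MeasureTheory Complex Filter
open scoped ENNReal ComplexConjugate InnerProductSpace BigOperators Topology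

namespace Pool.Agent.Helper84.HRT

variable {H : Type} [NormedAddCommGroup H] [InnerProductSpace ℂ H] [CompleteSpace H]
variable {W : Weyl H} {D : Data}

private theorem l11d_om_pos {R : ℝ} (hR : 0 < R) (z : ℂ) : 0 < om R z := by
  unfold om; positivity

private theorem l11d_om_le {R : ℝ} (hR : 0 < R) (z : ℂ) : om R z ≤ 1 := by
  unfold om
  apply inv_le_one_of_one_le₀
  apply one_le_pow₀
  have : 0 ≤ ‖z‖ / R := by positivity
  linarith

private theorem l11d_S2_smul (Y : ℂ → ℝ) (a : ℂ) (G : ℂ → ℂ) :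
    S2 Y (fun z => a * G z) = ‖a‖ₑ ^ 2 * S2 Y G := by
  unfold S2
  rw [← lintegral_const_mul' _ _ (by finiteness)]
  congr 1
  ext z
  rw [show ((Y z : ℝ) : ℂ) * (a * G z) = a * (((Y z : ℝ) : ℂ) * G z) by ring, enorm_mul, mul_pow]

private theorem l11d_S2_om_ne_top {R : ℝ} (hR : 0 < R) (g : H) : S2 (om R) (W.V g) ≠ ⊤ := by
  apply ne_of_lt
  calc S2 (om R) (W.V g) ≤ S2 (fun _ => 1) (W.V g) := by
        unfold S2
        apply lintegral_mono
        intro z
        dsimp only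
        gcongr 1
        rw [enorm_mul, enorm_mul]
        gcongr 1
        rw [← ofReal_norm, ← ofReal_norm]
        apply ENNReal.ofReal_le_ofReal
        rw [Complex.norm_real, Complex.norm_real, Real.norm_of_nonneg (l11d_om_pos hR z).le]
        simpa using l11d_om_le hR z
    _ = ENNReal.ofReal (‖g‖ ^ 2) := S2_V W g
    _ < ⊤ := ENNReal.ofReal_lt_top

private theorem l11d_S2_om_ne_zero {R : ℝ} (hR : 0 < R) {g : H} (hg : g ≠ 0) :
    S2 (om R) (W.V g) ≠ 0 := by
  intro h0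
  have hmeas : Measurable (fun z => ‖((om R z : ℝ) : ℂ) * W.V g z‖ₑ ^ 2) := by
    have h1 : Continuous (om R) := by
      unfold om
      apply Continuous.inv₀
      · fun_prop
      · intro z
        have : 0 ≤ ‖z‖ / R := by positivity
        positivity
    have h2 : Continuous fun z => ((om R z : ℝ) : ℂ) * W.V g z :=
      (continuous_ofReal.comp h1).mul (V_cont W g)
    exact h2.measurable.enorm.pow_const 2
  unfold S2 at h0
  rw [lintegral_eq_zero_iff hmeas] at h0
  have h3 : S2 (fun _ => 1) (W.V g) = 0 := by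
    unfold S2
    rw [← lintegral_zero (μ := dA)]
    apply lintegral_congr_ae
    filter_upwards [h0] with z hz
    have hz' : ((om R z : ℝ) : ℂ) * W.V g z = 0 := by
      simpa using hz
    have hom : ((om R z : ℝ) : ℂ) ≠ 0 := by
      exact_mod_cast (l11d_om_pos hR z).ne'
    have : W.V g z = 0 := by
      rcases mul_eq_zero.mp hz' with h | h
      · exact absurd h hom
      · exact h
    simp [this]
  rw [S2_V] at h3
  have : ‖g‖ ^ 2 ≤ 0 := by simpa using h3
  have hn : 0 < ‖g‖ := norm_pos_iff.mpr hg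
  nlinarith [sq_nonneg ‖g‖]

/-- normalisation of a centre vector -/
private theorem l11d_normalise {R δ : ℝ} (hR : 0 < R) {T : H →L[ℂ] H} {g : H}
    (h : IsCen W R δ T g) : ∃ g' : H, IsCen W R δ T g' ∧ S2 (om R) (W.V g') = 1 := by
  set s := S2 (om R) (W.V g) with hs
  have hs0 : s ≠ 0 := l11d_S2_om_ne_zero hR h.ne
  have hst : s ≠ ⊤ := l11d_S2_om_ne_top hR g
  have hpos : 0 < s.toReal := ENNReal.toReal_pos hs0 hst
  set a : ℂ := (((Real.sqrt s.toReal)⁻¹ : ℝ) : ℂ) with ha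
  have hsq : 0 < Real.sqrt s.toReal := Real.sqrt_pos.mpr hpos
  have hane : a ≠ 0 := by
    rw [ha]
    exact_mod_cast (inv_pos.mpr hsq).ne'
  have hnorm : ‖a‖ₑ ^ 2 = s⁻¹ := by
    rw [ha, ← ofReal_norm, Complex.norm_real, Real.norm_of_nonneg (inv_pos.mpr hsq).le,
      ← ENNReal.ofReal_pow (inv_pos.mpr hsq).le, inv_pow, Real.sq_sqrt hpos.le,
      ENNReal.ofReal_inv_of_pos hpos, ENNReal.ofReal_toReal hst]
  have key : ∀ (Y : ℂ → ℝ) (f : H), S2 Y (W.V (a • f)) = s⁻¹ * S2 Y (W.V f) := by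
    intro Y f
    rw [← hnorm, ← l11d_S2_smul]
    congr 1
    ext z
    exact V_smul W a f z
  refine ⟨a • g, ⟨smul_ne_zero hane h.ne, ?_, ?_⟩, ?_⟩
  · rw [key, key]
    calc s⁻¹ * S2 (omm R) (W.V g) ≤ s⁻¹ * (ENNReal.ofReal 441 * S2 (om R) (W.V g)) := by
          gcongr
          exact h.tight
      _ = ENNReal.ofReal 441 * (s⁻¹ * S2 (om R) (W.V g)) := by ring
  · rw [map_smul, key, key]
    calc s⁻¹ * S2 (om R) (W.V (T g))
        ≤ s⁻¹ * (ENNReal.ofReal (δ ^ 2) * S2 (om R) (W.V g)) := by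
          gcongr
          exact h.small
      _ = ENNReal.ofReal (δ ^ 2) * (s⁻¹ * S2 (om R) (W.V g)) := by ring
  · rw [key, ← hs]
    exact ENNReal.inv_mul_cancel hs0 hst

private theorem l11d_om_meas (R : ℝ) : Measurable (om R) := by
  unfold om
  fun_prop

/-- the weak limit of the twisted coefficients is zero -/
private theorem l11d_weak {r : ℝ} (hr : 0 ≤ r) {ξ : ℝ → ℂ} (hξ : D.Adm r ξ) (w : ℕ → ℂ)
    (hw : Tendsto (fun j => ‖w j‖) atTop atTop) (h : ℝ → ℂ) (hh : Integrable h mu8) :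
    Tendsto (fun j => ∫ t, h t * twx (w j) ξ t ∂mu8) atTop
      (𝓝 (∫ t, h t * (fun _ : ℝ => (0 : ℂ)) t ∂mu8)) := by
  have hbd := Adm.bd8 hξ hr
  have hint : Integrable (fun t => h t * ξ t) mu8 := by
    refine Integrable.mono' (hh.norm.mul_const r) ?_ ?_
    · exact hh.aestronglyMeasurable.mul hbd.meas.aestronglyMeasurable
    · filter_upwards [hbd.bd] with t ht
      rw [norm_mul]
      gcongr
  have h12 := L12 (fun t => h t * ξ t) hint
  have hcoc : Tendsto (fun j => -w j) atTop (cocompact ℂ) := by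
    rw [← Metric.cobounded_eq_cocompact, ← comap_norm_atTop, tendsto_comap_iff]
    simpa [Function.comp_def] using hw
  have h2 := h12.comp hcoc
  simp only [mul_zero, integral_zero]
  refine h2.congr ?_
  intro j
  simp only [Function.comp_apply]
  apply integral_congr_ae
  filter_upwards with t
  simp only [twx]
  rw [chi_neg_left]
  ring

/-- far away there are no centres of a fixed operator at N = ∞ -/
theorem no_far_centre (F : Fam W D) (γ : Fin D.m → ℂ) (hγ : γ ∈ D.Γ) (r : ℝ) (hr : 0 ≤ r)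
    (ξ : ℝ → ℂ) (hξ : D.Adm r ξ) (δ : ℝ) (hδ0 : 0 ≤ δ) (hδ : δ < F.g / 2) :
    ∃ T0 : ℝ, ∀ w : ℂ, T0 ≤ ‖w‖ → ∀ g : H, ¬ IsCen W F.R δ (tr W w (Aop W D mu8 γ ξ)) g := by
  by_contra hcon
  push Not at hcon
  have hR4 : (4 : ℝ) ≤ F.R := F.R_ge
  have hR : 0 < F.R := by linarith
  have hbd8 : Bd mu8 r ξ := Adm.bd8 hξ hr
  -- sequences
  have hex : ∀ j : ℕ, ∃ w : ℂ, ∃ g : H, (j : ℝ) ≤ ‖w‖ ∧
      IsCen W F.R δ (tr W w (Aop W D mu8 γ ξ)) g ∧ S2 (om F.R) (W.V g) = 1 := by
    intro j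
    obtain ⟨w, hw, g, hg⟩ := hcon j
    obtain ⟨g', hg', h1⟩ := l11d_normalise hR hg
    exact ⟨w, g', hw, hg', h1⟩
  choose w g hw hg hone using hex
  -- local uniform limit
  obtain ⟨φ, hφ, G0, hG0, -, hlim⟩ := L3b F.R hR4 (fun j => W.V (g j)) (fun j => rep_V W (g j)) 1
    (by intro j; rw [hone j]; simp)
  -- limit of the base phases
  obtain ⟨γ0, hγ0, ψ, hψ, hγlim⟩ := D.Γ_compact.tendsto_subseq
    (x := fun j => D.tw (w (φ j)) γ) (fun j => tw_mem hγ _)
  have hmono : StrictMono (φ ∘ ψ) := hφ.comp hψ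
  have hlim' : TendstoLocallyUniformly (fun j => W.V (g (φ (ψ j)))) G0 atTop := by
    intro u hu x
    obtain ⟨t, ht, h⟩ := hlim u hu x
    exact ⟨t, ht, hψ.tendsto_atTop.eventually h⟩
  have hwinf : Tendsto (fun j => ‖w (φ (ψ j))‖) atTop atTop := by
    refine tendsto_atTop_mono (fun j => ?_) tendsto_natCast_atTop_atTop
    calc ((j : ℕ) : ℝ) ≤ ((φ (ψ j) : ℕ) : ℝ) := by exact_mod_cast hmono.id_le j
      _ ≤ ‖w (φ (ψ j))‖ := hw _
  -- no loss of mass
  have hmass : Tendsto (fun j => S2 (om F.R) (W.V (g (φ (ψ j))))) atTop (𝓝 (S2 (om F.R) G0)) := by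
    refine S2_tight F.R hR4 _ G0 441 (fun j => V_cont W _) hlim' ?_
    intro j
    have := (hg (φ (ψ j))).tight
    rw [hone, mul_one] at this
    exact this
  have hG1 : S2 (om F.R) G0 = 1 := by
    have : Tendsto (fun j => S2 (om F.R) (W.V (g (φ (ψ j))))) atTop (𝓝 1) := by
      simp only [hone]
      exact tendsto_const_nhds
    exact tendsto_nhds_unique hmass this
  -- the action converges pointwise
  have hact : ∀ z, Tendsto (fun j => actA D mu8 (D.tw (w (φ (ψ j))) γ) (twx (w (φ (ψ j))) ξ)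
      (W.V (g (φ (ψ j)))) z) atTop (𝓝 (actA D mu8 γ0 (fun _ => 0) G0 z)) := by
    intro z
    refine act8_tendsto D (fun j => W.V (g (φ (ψ j)))) G0 (fun j => V_cont W _) hG0.cont hlim'
      (fun j => D.tw (w (φ (ψ j))) γ) γ0 hγlim (fun _ => r) r (fun _ => hr) (fun _ => le_rfl)
      (fun j => twx (w (φ (ψ j))) ξ) (fun _ => 0) 0 (fun j => Adm.twx hξ _) ?_ ?_ z
    · exact ⟨measurable_const, by simp⟩
    · intro h hh
      exact l11d_weak hr hξ _ hwinf h hh
  have hzero : ∀ z, actA D mu8 γ0 (fun _ => 0) G0 z = actB D γ0 G0 z := by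
    intro z
    simp [actA, actX]
  have hVact : ∀ j z, W.V (tr W (w j) (Aop W D mu8 γ ξ) (g j)) z =
      actA D mu8 (D.tw (w j) γ) (twx (w j) ξ) (W.V (g j)) z := by
    intro j z
    rw [tr_Aop8 W D hbd8]
    exact V_Aop W (Adm.bd8 (Adm.twx hξ _) hr) D _ _ z
  have hfat : S2 (om F.R) (actB D γ0 G0) ≤ ENNReal.ofReal (δ ^ 2) := by
    refine S2_fatou (om F.R) (l11d_om_meas _)
      (fun j => W.V (tr W (w (φ (ψ j))) (Aop W D mu8 γ ξ) (g (φ (ψ j))))) _ _
      (fun j => V_cont W _) ?_ ?_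
    · intro z
      have := hact z
      rw [hzero] at this
      refine this.congr ?_
      intro j
      exact (hVact _ z).symm
    · intro j
      have := (hg (φ (ψ j))).small
      rw [hone, mul_one] at this
      exact this
  have hfar := F.far γ0 hγ0 G0 hG0 (by rw [hG1]; exact ENNReal.one_lt_top)
  rw [hG1, mul_one] at hfar
  have hle : ENNReal.ofReal ((F.g / 2) ^ 2) ≤ ENNReal.ofReal (δ ^ 2) := hfar.trans hfat
  have hgp := F.g_pos
  rw [ENNReal.ofReal_le_ofReal_iff (sq_nonneg _)] at hle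
  nlinarith

end Pool.Agent.Helper84.HRT
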