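import Mathlib
import Pool.Agent.Helper84.HRT.DefsA
import Pool.Agent.Helper84.HRT.WB
import Pool.Agent.Helper84.HRT.WD
import Pool.Agent.Helper84.HRT.YG

/-!
# HRT, piece L9A: the mass of the recentred vectors

By Tonelli the mass is `∫ (1+|x|/R)^{-8} dA * |v|^2 = R^2/21 |v|^2`.
-/

open MeasureTheory Complex Filter
open scoped ENNReal ComplexConjugate InnerProductSpace BigOperators Topology

namespace Pool.Agent.Helper84.HRT

variable {H : Type} [NormedAddCommGroup H] [InnerProductSpace ℂ H] [CompleteSpace H]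

theorem S2_om_shift (W : Weyl H) (R : ℝ) (v : H) (w : ℂ) :
    S2 (om R) (W.V (W.U w v)) = ∫⁻ z, ENNReal.ofReal (om R (z - w) ^ 2) * ‖W.V v z‖ₑ ^ 2 ∂dA := by
  unfold S2
  rw [← lintegral_add_right_eq_self
    (fun z => ENNReal.ofReal (om R (z - w) ^ 2) * ‖W.V v z‖ₑ ^ 2) w]
  refine lintegral_congr fun z => ?_
  rw [add_sub_cancel_right, enorm_mul, mul_pow]
  congr 1
  · rw [← enorm_pow, ← Complex.ofReal_pow, ← ofReal_norm, Complex.norm_real,
      Real.norm_of_nonneg (sq_nonneg _)]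
  · rw [← ofReal_norm, norm_V_U, ofReal_norm]

/-- the antiderivative of `y (1 + y / R)^{-8}` -/
private theorem l9a_deriv {R : ℝ} (hR : 0 < R) {y : ℝ} (hy : 0 ≤ y) :
    HasDerivAt (fun y : ℝ => -(R ^ 2) * (((1 + y / R) ^ 6)⁻¹ / 6 - ((1 + y / R) ^ 7)⁻¹ / 7))
      (y * (((1 + y / R) ^ 4)⁻¹) ^ 2) y := by
  have h0 : 0 < 1 + y / R := by positivity
  have h1 : HasDerivAt (fun y : ℝ => 1 + y / R) (1 / R) y := by
    simpa using ((hasDerivAt_id y).div_const R).const_add 1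
  have h6 := ((h1.pow 6).inv (pow_pos h0 6).ne').div_const 6
  have h7 := ((h1.pow 7).inv (pow_pos h0 7).ne').div_const 7
  have h := (h6.sub h7).const_mul (-(R ^ 2))
  refine HasDerivAt.congr_deriv h ?_
  simp only [Pi.pow_apply]
  have hR0 : R ≠ 0 := hR.ne'
  have e : y = R * ((1 + y / R) - 1) := by field_simp; ring
  generalize 1 + y / R = a at e h0 ⊢
  rw [e]
  have ha : a ≠ 0 := h0.ne'
  push_cast
  field_simp
  ring

private theorem l9a_tendsto {R : ℝ} (hR : 0 < R) :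
    Tendsto (fun y : ℝ => -(R ^ 2) * (((1 + y / R) ^ 6)⁻¹ / 6 - ((1 + y / R) ^ 7)⁻¹ / 7))
      atTop (𝓝 0) := by
  have h0 : Tendsto (fun y : ℝ => 1 + y / R) atTop atTop :=
    tendsto_atTop_add_const_left _ _ (tendsto_id.atTop_div_const hR)
  have h6 : Tendsto (fun y : ℝ => ((1 + y / R) ^ 6)⁻¹ / 6) atTop (𝓝 (0 / 6)) :=
    (tendsto_inv_atTop_zero.comp ((tendsto_pow_atTop (by norm_num)).comp h0)).div_const 6
  have h7 : Tendsto (fun y : ℝ => ((1 + y / R) ^ 7)⁻¹ / 7) atTop (𝓝 (0 / 7)) :=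
    (tendsto_inv_atTop_zero.comp ((tendsto_pow_atTop (by norm_num)).comp h0)).div_const 7
  have h := (h6.sub h7).const_mul (-(R ^ 2))
  simpa using h

private theorem l9a_radial {R : ℝ} (hR : 0 < R) :
    ∫ y in Set.Ioi (0 : ℝ), y * (((1 + y / R) ^ 4)⁻¹) ^ 2 = R ^ 2 / 42 ∧
      IntegrableOn (fun y : ℝ => y * (((1 + y / R) ^ 4)⁻¹) ^ 2) (Set.Ioi 0) := by
  have hd : ∀ y ∈ Set.Ici (0 : ℝ), HasDerivAt
      (fun y : ℝ => -(R ^ 2) * (((1 + y / R) ^ 6)⁻¹ / 6 - ((1 + y / R) ^ 7)⁻¹ / 7))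
      (y * (((1 + y / R) ^ 4)⁻¹) ^ 2) y := fun y hy => l9a_deriv hR hy
  have hp : ∀ y ∈ Set.Ioi (0 : ℝ), 0 ≤ y * (((1 + y / R) ^ 4)⁻¹) ^ 2 := fun y hy =>
    mul_nonneg (le_of_lt hy) (sq_nonneg _)
  refine ⟨?_, integrableOn_Ioi_deriv_of_nonneg' hd hp (l9a_tendsto hR)⟩
  rw [integral_Ioi_of_hasDerivAt_of_nonneg' hd hp (l9a_tendsto hR)]
  norm_num
  ring

/-- `∫ (1+|x|/R)^{-8} dA = R² / 21` -/
theorem l9a_om (R : ℝ) (hR : 0 < R) :
    ∫⁻ x : ℂ, ENNReal.ofReal (om R x ^ 2) ∂dA = ENNReal.ofReal (R ^ 2 / 21) := by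
  obtain ⟨h1, h2⟩ := l9a_radial hR
  have hint : Integrable (fun x : ℂ => om R x ^ 2) (volume : Measure ℂ) := by
    have := (integrable_fun_norm_addHaar (volume : Measure ℂ)
      (f := fun r : ℝ => ((((1 + r / R) ^ 4)⁻¹) ^ 2 : ℝ))).mpr (by
        simpa [Complex.finrank_real_complex] using h2)
    exact this
  have hval : ∫ x : ℂ, om R x ^ 2 = Real.pi * (R ^ 2 / 21) := by
    have := integral_fun_norm_addHaar (volume : Measure ℂ)
      (fun r : ℝ => ((((1 + r / R) ^ 4)⁻¹) ^ 2 : ℝ))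
    rw [Complex.finrank_real_complex] at this
    have hb : (volume : Measure ℂ).real (Metric.ball 0 1) = Real.pi := by
      rw [Measure.real, Complex.volume_ball]
      simp
    rw [hb] at this
    simp only [Nat.add_one_sub_one, pow_one, smul_eq_mul, nsmul_eq_mul] at this
    rw [h1] at this
    have h3 : ∫ x : ℂ, om R x ^ 2 = ∫ x : ℂ, ((((1 + ‖x‖ / R) ^ 4)⁻¹) ^ 2 : ℝ) := rfl
    rw [h3, this]
    push_cast
    ring
  unfold dA
  rw [lintegral_smul_measure, ← ofReal_integral_eq_lintegral_ofReal hint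
    (Eventually.of_forall fun x => sq_nonneg _), hval, smul_eq_mul, ← ENNReal.ofReal_mul (by positivity)]
  congr 1
  have := Real.pi_ne_zero
  field_simp

theorem mass_univ (W : Weyl H) (R : ℝ) (hR : 1 ≤ R) (v : H) :
    mass W R v Set.univ = ENNReal.ofReal (R ^ 2 / 21) * ENNReal.ofReal (‖v‖ ^ 2) := by
  have hR0 : 0 < R := lt_of_lt_of_le one_pos hR
  have hom : Continuous (om R) := by
    unfold om
    refine Continuous.inv₀ (by fun_prop) fun z => ?_
    positivity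
  unfold mass
  rw [Measure.restrict_univ]
  simp only [S2_om_shift]
  have hV : Measurable fun z : ℂ => ‖W.V v z‖ₑ ^ 2 :=
    (V_cont W v).measurable.enorm.pow_const 2
  rw [lintegral_lintegral_swap]
  · have h1 : ∀ z : ℂ, ∫⁻ w, ENNReal.ofReal (om R (z - w) ^ 2) * ‖W.V v z‖ₑ ^ 2 ∂dA =
        ENNReal.ofReal (R ^ 2 / 21) * ‖W.V v z‖ₑ ^ 2 := by
      intro z
      rw [lintegral_mul_const]
      · congr 1
        rw [← l9a_om R hR0]
        exact lintegral_sub_left_eq_self (fun w => ENNReal.ofReal (om R w ^ 2)) z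
      · exact ((hom.measurable.comp (measurable_const.sub measurable_id)).pow_const 2).ennreal_ofReal
    simp only [h1]
    rw [lintegral_const_mul _ hV, ← S2_V W v]
    congr 1
    unfold S2
    refine lintegral_congr fun z => ?_
    simp
  · refine Measurable.aemeasurable ?_
    refine Measurable.mul ?_ (hV.comp measurable_snd)
    exact ((hom.measurable.comp (measurable_snd.sub measurable_fst)).pow_const 2).ennreal_ofReal

end Pool.Agent.Helper84.HRT
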