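import Mathlib
import Pool.Agent.Helper84.HRT.DefsA
import Pool.Agent.Helper84.HRT.WB
import Pool.Agent.Helper84.HRT.WD
import Pool.Agent.Helper84.HRT.YG
import Pool.Agent.Helper84.HRT.L9A

open MeasureTheory Complex Filter
open scoped ENNReal ComplexConjugate InnerProductSpace BigOperators Topology

namespace Pool.Agent.Helper84.HRT

/-- radial integrals -/
theorem l9_radial (f : ℝ → ℝ) (c : ℝ) (hf0 : ∀ y, 0 ≤ y → 0 ≤ f y)
    (hint : IntegrableOn (fun y => y * f y) (Set.Ioi 0))
    (hval : ∫ y in Set.Ioi (0 : ℝ), y * f y = c) :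
    ∫⁻ x : ℂ, ENNReal.ofReal (f ‖x‖) ∂dA = ENNReal.ofReal (2 * c) := by
  have h1 : Integrable (fun x : ℂ => f ‖x‖) (volume : Measure ℂ) := by
    rw [integrable_fun_norm_addHaar (volume : Measure ℂ)]
    simpa [Complex.finrank_real_complex] using hint
  have h2 := integral_fun_norm_addHaar (volume : Measure ℂ) f
  have h3 : (volume : Measure ℂ).real (Metric.ball 0 1) = Real.pi := by
    rw [Measure.real, Complex.volume_ball]
    simp
  have h4 : ∫ x : ℂ, f ‖x‖ = 2 * Real.pi * c := by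
    rw [h2, h3, Complex.finrank_real_complex]
    simp only [Nat.reduceSub, pow_one, smul_eq_mul]
    rw [hval]
    simp
    ring
  have h5 : ∫⁻ x : ℂ, ENNReal.ofReal (f ‖x‖) = ENNReal.ofReal (2 * Real.pi * c) := by
    rw [← h4, ofReal_integral_eq_lintegral_ofReal h1
      (Eventually.of_forall fun x => hf0 _ (norm_nonneg x))]
  unfold dA
  rw [lintegral_smul_measure, h5, smul_eq_mul, ← ENNReal.ofReal_mul (by positivity)]
  congr 1
  have := Real.pi_pos.ne'
  field_simp

theorem l9_omm_int {R : ℝ} (hR : 0 < R) :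
    ∫⁻ x, ENNReal.ofReal (omm R x ^ 2) ∂dA = ENNReal.ofReal (R ^ 2 / 10) := by
  have hpos : ∀ y : ℝ, 0 ≤ y → 0 < 1 + y / R := fun y hy => by positivity
  have hder : ∀ y ∈ Set.Ici (0 : ℝ), HasDerivAt
      (fun y : ℝ => R ^ 2 * (((1 + y / R) ^ 5)⁻¹ / 5 - ((1 + y / R) ^ 4)⁻¹ / 4))
      (y * ((1 + y / R) ^ 6)⁻¹) y := by
    intro y hy
    have h0 := (hpos y hy).ne'
    have h1 : HasDerivAt (fun y : ℝ => 1 + y / R) (1 / R) y :=
      ((hasDerivAt_id y).div_const R).const_add 1
    have h2 := ((h1.fun_pow 5).fun_inv (pow_ne_zero 5 h0)).div_const 5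
    have h3 := ((h1.fun_pow 4).fun_inv (pow_ne_zero 4 h0)).div_const 4
    have h4 := (h2.fun_sub h3).const_mul (R ^ 2)
    refine h4.congr_deriv ?_
    have hR' := hR.ne'
    have hy2 : y = R * ((1 + y / R) - 1) := by
      field_simp
      ring
    clear h1 h2 h3 h4
    set t : ℝ := 1 + y / R with ht
    clear_value t
    rw [hy2]
    field_simp
    ring
  have hlim : Tendsto
      (fun y : ℝ => R ^ 2 * (((1 + y / R) ^ 5)⁻¹ / 5 - ((1 + y / R) ^ 4)⁻¹ / 4)) atTop (𝓝 0) := by
    have h1 : Tendsto (fun y : ℝ => 1 + y / R) atTop atTop :=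
      tendsto_atTop_add_const_left _ _ (tendsto_id.atTop_div_const hR)
    have h2 : Tendsto (fun y : ℝ => ((1 + y / R) ^ 5)⁻¹) atTop (𝓝 0) :=
      ((tendsto_pow_atTop (n := 5) (by norm_num)).comp h1).inv_tendsto_atTop
    have h3 : Tendsto (fun y : ℝ => ((1 + y / R) ^ 4)⁻¹) atTop (𝓝 0) :=
      ((tendsto_pow_atTop (n := 4) (by norm_num)).comp h1).inv_tendsto_atTop
    have h4 := ((h2.div_const 5).sub (h3.div_const 4)).const_mul (R ^ 2)
    simpa using h4
  have hnn : ∀ y ∈ Set.Ioi (0 : ℝ), 0 ≤ y * ((1 + y / R) ^ 6)⁻¹ := by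
    intro y hy
    have h0 : 0 < y := hy
    positivity
  have hint := integrableOn_Ioi_deriv_of_nonneg' hder hnn hlim
  have hval := integral_Ioi_of_hasDerivAt_of_nonneg' hder hnn hlim
  have h := l9_radial (fun y => ((1 + y / R) ^ 6)⁻¹) (R ^ 2 / 20) (fun y hy => by
    have := hpos y hy
    positivity) hint (by
    rw [hval]
    simp
    ring)
  have e : ∀ x : ℂ, omm R x ^ 2 = ((1 + ‖x‖ / R) ^ 6)⁻¹ := by
    intro x
    unfold omm
    rw [inv_pow, ← pow_mul]
  simp only [e]
  rw [h]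
  congr 1
  ring

/-- shift, for every weight -/
theorem l9_shift {H : Type} [NormedAddCommGroup H] [InnerProductSpace ℂ H] [CompleteSpace H]
    (W : Weyl H) (Ω : ℂ → ℝ) (v : H) (w : ℂ) :
    S2 Ω (W.V (W.U w v)) = ∫⁻ z, ENNReal.ofReal (Ω (z - w) ^ 2) * ‖W.V v z‖ₑ ^ 2 ∂dA := by
  have e : ∀ (a : ℝ) (b : ℂ), ‖((a : ℝ) : ℂ) * b‖ₑ ^ 2 = ENNReal.ofReal (a ^ 2) * ‖b‖ₑ ^ 2 := by
    intro a b
    rw [enorm_mul, mul_pow]
    congr 1
    rw [← ofReal_norm, ← ENNReal.ofReal_pow (norm_nonneg _)]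
    congr 1
    rw [norm_real, Real.norm_eq_abs, sq_abs]
  have h1 : S2 Ω (W.V (W.U w v)) =
      ∫⁻ z, (fun z => ENNReal.ofReal (Ω (z - w) ^ 2) * ‖W.V v z‖ₑ ^ 2) (z + w) ∂dA := by
    unfold S2
    refine lintegral_congr fun z => ?_
    rw [e]
    simp only [add_sub_cancel_right]
    congr 2
    rw [← ofReal_norm, norm_V_U, ofReal_norm]
  rw [h1]
  exact lintegral_add_right_eq_self (μ := dA)
    (fun z => ENNReal.ofReal (Ω (z - w) ^ 2) * ‖W.V v z‖ₑ ^ 2) w

theorem l9_conv (h : ℂ → ℝ≥0∞) (hh : Measurable h) (heven : ∀ x, h (-x) = h x)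
    (f : ℂ → ℝ≥0∞) (hf : Measurable f) :
    ∫⁻ w, ∫⁻ z, h (z - w) * f z ∂dA ∂dA = (∫⁻ x, h x ∂dA) * ∫⁻ z, f z ∂dA := by
  have hm : Measurable fun p : ℂ × ℂ => h (p.2 - p.1) * f p.2 :=
    (hh.comp (measurable_snd.sub measurable_fst)).mul (hf.comp measurable_snd)
  rw [lintegral_lintegral_swap hm.aemeasurable]
  have h1 : ∀ z, ∫⁻ w, h (z - w) * f z ∂dA = (∫⁻ x, h x ∂dA) * f z := by
    intro z
    rw [lintegral_mul_const]
    · congr 1
      have h2 : ∀ w, h (z - w) = h (w - z) := fun w => by rw [← heven, neg_sub]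
      simp only [h2]
      exact lintegral_sub_right_eq_self h z
    · exact hh.comp (measurable_const.sub measurable_id)
  simp only [h1]
  rw [lintegral_const_mul _ hf]

theorem l9_meas (h : ℂ → ℝ≥0∞) (hh : Measurable h) (f : ℂ → ℝ≥0∞) (hf : Measurable f) :
    Measurable fun w => ∫⁻ z, h (z - w) * f z ∂dA := by
  have hm : Measurable fun p : ℂ × ℂ => h (p.2 - p.1) * f p.2 :=
    (hh.comp (measurable_snd.sub measurable_fst)).mul (hf.comp measurable_snd)
  exact hm.lintegral_prod_right'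

theorem l9_om_cont {R : ℝ} (hR : 0 < R) : Continuous (om R) := by
  unfold om
  refine Continuous.inv₀ (by fun_prop) fun z => ?_
  have : 0 ≤ ‖z‖ / R := by positivity
  positivity

theorem l9_omm_cont {R : ℝ} (hR : 0 < R) : Continuous (omm R) := by
  unfold omm
  refine Continuous.inv₀ (by fun_prop) fun z => ?_
  have : 0 ≤ ‖z‖ / R := by positivity
  positivity

theorem l9_om_even (R : ℝ) (x : ℂ) : om R (-x) = om R x := by
  unfold om
  rw [norm_neg]

theorem l9_omm_even (R : ℝ) (x : ℂ) : omm R (-x) = omm R x := by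
  unfold omm
  rw [norm_neg]

theorem L9 : ∃ C9 : ℝ, 0 < C9 ∧ ∀ (H : Type) [NormedAddCommGroup H]
    [InnerProductSpace ℂ H] [CompleteSpace H] (W : Weyl H) (R : ℝ), 1 ≤ R →
    ∀ (T : H →L[ℂ] H) (v : H) (s : ℂ → ℝ) (M0 : ℝ), Continuous s → (∀ z, 0 < s z) →
    (∀ z, s z ≤ 1) → (∀ z w, s z ≤ (1 + ‖z - w‖) * s w) → 0 ≤ M0 → v ≠ 0 →
    S2 (fun z => (s z)⁻¹) (W.V (T v)) ≤ ENNReal.ofReal (M0 * ‖v‖ ^ 2) →
    ∃ E : Set ℂ, MeasurableSet E ∧
      (∀ w ∈ E, IsCen W R (C9 * Real.sqrt M0 * R * s w) (tr W w T) (W.U w v)) ∧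
      mass W R v Eᶜ ≤ ENNReal.ofReal (1 / 100) * mass W R v Set.univ := by
  refine ⟨21, by norm_num, ?_⟩
  intro H _ _ _ W R hR T v s M0 hs hs0 hs1 hsl hM0 hv hT
  have hR0 : 0 < R := by linarith
  set p : ℂ → ℝ≥0∞ := fun z => ‖W.V v z‖ₑ ^ 2 with hp
  set q : ℂ → ℝ≥0∞ := fun z => ‖W.V (T v) z‖ₑ ^ 2 with hq
  have hpm : Measurable p := (V_cont W v).measurable.enorm.pow_const 2
  have hqm : Measurable q := (V_cont W (T v)).measurable.enorm.pow_const 2
  set k : ℂ → ℝ≥0∞ := fun x => ENNReal.ofReal (om R x ^ 2) with hk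
  set km : ℂ → ℝ≥0∞ := fun x => ENNReal.ofReal (omm R x ^ 2) with hkm
  have hkme : ∀ x, km (-x) = km x := fun x => by
    show ENNReal.ofReal (omm R (-x) ^ 2) = ENNReal.ofReal (omm R x ^ 2)
    rw [l9_omm_even]
  have hkmeas : Measurable k := ((l9_om_cont hR0).measurable.pow_const 2).ennreal_ofReal
  have hkmmeas : Measurable km := ((l9_omm_cont hR0).measurable.pow_const 2).ennreal_ofReal
  set P : ℂ → ℝ≥0∞ := fun w => ∫⁻ z, k (z - w) * p z ∂dA with hP
  set Pm : ℂ → ℝ≥0∞ := fun w => ∫⁻ z, km (z - w) * p z ∂dA with hPm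
  set Q : ℂ → ℝ≥0∞ := fun w => ∫⁻ z, k (z - w) * q z ∂dA with hQ
  have hPmeas : Measurable P := l9_meas k hkmeas p hpm
  have hPmmeas : Measurable Pm := l9_meas km hkmmeas p hpm
  have hQmeas : Measurable Q := l9_meas k hkmeas q hqm
  have eP : ∀ w, S2 (om R) (W.V (W.U w v)) = P w := fun w => l9_shift W (om R) v w
  have ePm : ∀ w, S2 (omm R) (W.V (W.U w v)) = Pm w := fun w => l9_shift W (omm R) v w
  have eQ : ∀ w, S2 (om R) (W.V (W.U w (T v))) = Q w := fun w => l9_shift W (om R) (T v) w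
  set c : ℂ → ℝ≥0∞ := fun w => ENNReal.ofReal ((21 * Real.sqrt M0 * R * s w) ^ 2) with hc
  have hcmeas : Measurable c :=
    ((hs.measurable.const_mul (21 * Real.sqrt M0 * R)).pow_const 2).ennreal_ofReal
  have hM1 : MeasurableSet {w | Pm w ≤ ENNReal.ofReal 441 * P w} :=
    measurableSet_le hPmmeas (hPmeas.const_mul _)
  have hM2 : MeasurableSet {w | Q w ≤ c w * P w} :=
    measurableSet_le hQmeas (hcmeas.mul hPmeas)
  have htot : ∫⁻ z, p z ∂dA = ENNReal.ofReal (‖v‖ ^ 2) := by
    rw [← S2_V W v]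
    unfold S2
    simp [hp]
  have hPmtot : ∫⁻ w, Pm w ∂dA = ENNReal.ofReal (R ^ 2 / 10) * ENNReal.ofReal (‖v‖ ^ 2) := by
    have h1 := l9_conv km hkmmeas hkme p hpm
    rw [htot] at h1
    rw [← l9_omm_int hR0]
    exact h1
  have hmu : ENNReal.ofReal (R ^ 2 / 10) * ENNReal.ofReal (‖v‖ ^ 2) =
      ENNReal.ofReal (21 / 10) * mass W R v Set.univ := by
    rw [mass_univ W R hR v, ← mul_assoc, ← ENNReal.ofReal_mul (p := 21 / 10) (by norm_num)]
    congr 2
    ring
  -- first bad set
  have hbad1 : mass W R v {w | Pm w ≤ ENNReal.ofReal 441 * P w}ᶜ ≤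
      ENNReal.ofReal (1 / 210) * mass W R v Set.univ := by
    have h1 : ENNReal.ofReal 441 * mass W R v {w | Pm w ≤ ENNReal.ofReal 441 * P w}ᶜ ≤
        ENNReal.ofReal (21 / 10) * mass W R v Set.univ := by
      rw [← hmu, ← hPmtot]
      unfold mass
      simp only [eP]
      rw [← lintegral_const_mul _ hPmeas]
      refine (setLIntegral_mono hPmmeas ?_).trans (setLIntegral_le_lintegral _ _)
      intro w hw
      have hw' : ¬ (Pm w ≤ ENNReal.ofReal 441 * P w) := hw
      exact (not_le.1 hw').le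
    have h2 : mass W R v {w | Pm w ≤ ENNReal.ofReal 441 * P w}ᶜ =
        ENNReal.ofReal (1 / 441) *
          (ENNReal.ofReal 441 * mass W R v {w | Pm w ≤ ENNReal.ofReal 441 * P w}ᶜ) := by
      rw [← mul_assoc, ← ENNReal.ofReal_mul (by norm_num)]
      norm_num
    rw [h2]
    refine (mul_le_mul' le_rfl h1).trans ?_
    rw [← mul_assoc, ← ENNReal.ofReal_mul (by norm_num)]
    norm_num
  -- second bad set
  have hbad2 : mass W R v {w | Q w ≤ c w * P w}ᶜ ≤
      ENNReal.ofReal (1 / 210) * mass W R v Set.univ := by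
    rcases hM0.eq_or_lt with h0 | h0
    · -- `M0 = 0`
      have h1 : S2 (fun z => (s z)⁻¹) (W.V (T v)) = 0 := by
        rw [← h0, zero_mul, ENNReal.ofReal_zero] at hT
        exact le_antisymm hT (zero_le)
      have h2 : ∀ᵐ z ∂dA, q z = 0 := by
        unfold S2 at h1
        rw [lintegral_eq_zero_iff] at h1
        · filter_upwards [h1] with z hz
          simp only [Pi.zero_apply, ne_eq, OfNat.ofNat_ne_zero, not_false_eq_true,
            pow_eq_zero_iff, enorm_eq_zero, mul_eq_zero, ofReal_eq_zero, inv_eq_zero] at hz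
          rcases hz with hz | hz
          · exact absurd hz (hs0 z).ne'
          · simp [hq, hz]
        · refine Measurable.pow_const (Measurable.enorm ?_) 2
          exact (measurable_ofReal.comp hs.measurable.inv).mul (V_cont W (T v)).measurable
      have h3 : ∀ w, Q w = 0 := by
        intro w
        simp only [hQ]
        rw [lintegral_eq_zero_iff]
        · filter_upwards [h2] with z hz
          simp [hz]
        · exact (hkmeas.comp (measurable_id.sub measurable_const)).mul hqm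
      have h4 : {w | Q w ≤ c w * P w}ᶜ = ∅ := by
        ext w
        simp [h3]
      rw [h4]
      unfold mass
      simp
    · -- `M0 > 0`
      have h1 : ∀ w z, ENNReal.ofReal ((s w)⁻¹ ^ 2) * (k (z - w) * q z) ≤
          (ENNReal.ofReal (R ^ 2) * km (z - w)) * (ENNReal.ofReal ((s z)⁻¹ ^ 2) * q z) := by
        intro w z
        have h2 : (s w)⁻¹ ^ 2 * om R (z - w) ^ 2 ≤ R ^ 2 * omm R (z - w) ^ 2 * (s z)⁻¹ ^ 2 := by
          have h3 : (s w)⁻¹ * om R (z - w) ≤ R * omm R (z - w) * (s z)⁻¹ := by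
            have h4 : (s w)⁻¹ ≤ (1 + ‖z - w‖) * (s z)⁻¹ := by
              have := hsl z w
              have h5 := hs0 z
              have h6 := hs0 w
              rw [inv_le_comm₀ h6 (by positivity)]
              rw [mul_inv, inv_inv]
              rw [inv_mul_le_iff₀ (by positivity)]
              exact this
            have h5 : (1 + ‖z - w‖) * om R (z - w) ≤ R * omm R (z - w) := by
              have h6 : om R (z - w) = (1 + ‖z - w‖ / R)⁻¹ * omm R (z - w) := by
                unfold om omm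
                rw [← mul_inv]
                congr 1
                ring
              have h7 : 0 ≤ omm R (z - w) := by
                unfold omm
                positivity
              rw [h6, ← mul_assoc]
              refine mul_le_mul_of_nonneg_right ?_ h7
              have h8 : 0 < 1 + ‖z - w‖ / R := by positivity
              rw [← div_eq_mul_inv, div_le_iff₀ h8]
              have h9 : R * (1 + ‖z - w‖ / R) = R + ‖z - w‖ := by field_simp
              rw [h9]
              linarith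
            have h6 : 0 ≤ om R (z - w) := by
              unfold om
              positivity
            have h7 : 0 ≤ (s z)⁻¹ := (inv_pos.2 (hs0 z)).le
            calc (s w)⁻¹ * om R (z - w) ≤ ((1 + ‖z - w‖) * (s z)⁻¹) * om R (z - w) :=
                  mul_le_mul_of_nonneg_right h4 h6
              _ = ((1 + ‖z - w‖) * om R (z - w)) * (s z)⁻¹ := by ring
              _ ≤ (R * omm R (z - w)) * (s z)⁻¹ := mul_le_mul_of_nonneg_right h5 h7
          have h6 : 0 ≤ om R (z - w) := by
            unfold om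
            positivity
          have h8 : 0 ≤ (s w)⁻¹ := (inv_pos.2 (hs0 w)).le
          have h9 := pow_le_pow_left₀ (mul_nonneg h8 h6) h3 2
          calc (s w)⁻¹ ^ 2 * om R (z - w) ^ 2 = ((s w)⁻¹ * om R (z - w)) ^ 2 := by ring
            _ ≤ (R * omm R (z - w) * (s z)⁻¹) ^ 2 := h9
            _ = _ := by ring
        have h3 : ENNReal.ofReal ((s w)⁻¹ ^ 2) * k (z - w) ≤
            (ENNReal.ofReal (R ^ 2) * km (z - w)) * ENNReal.ofReal ((s z)⁻¹ ^ 2) := by
          simp only [hk, hkm]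
          rw [← ENNReal.ofReal_mul (by positivity), ← ENNReal.ofReal_mul (by positivity),
            ← ENNReal.ofReal_mul (by positivity)]
          exact ENNReal.ofReal_le_ofReal h2
        calc ENNReal.ofReal ((s w)⁻¹ ^ 2) * (k (z - w) * q z)
            = (ENNReal.ofReal ((s w)⁻¹ ^ 2) * k (z - w)) * q z := by ring
          _ ≤ ((ENNReal.ofReal (R ^ 2) * km (z - w)) * ENNReal.ofReal ((s z)⁻¹ ^ 2)) * q z :=
            mul_le_mul' h3 le_rfl
          _ = _ := by ring
      have hsm : Measurable fun z => ENNReal.ofReal ((s z)⁻¹ ^ 2) :=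
        (hs.measurable.inv.pow_const 2).ennreal_ofReal
      have h2 : ∫⁻ w, ENNReal.ofReal ((s w)⁻¹ ^ 2) * Q w ∂dA ≤
          ENNReal.ofReal (R ^ 2) * (ENNReal.ofReal (R ^ 2 / 10) *
            ENNReal.ofReal (M0 * ‖v‖ ^ 2)) := by
        have h3 : ∀ w, ENNReal.ofReal ((s w)⁻¹ ^ 2) * Q w ≤
            ENNReal.ofReal (R ^ 2) *
              ∫⁻ z, km (z - w) * (ENNReal.ofReal ((s z)⁻¹ ^ 2) * q z) ∂dA := by
          intro w
          simp only [hQ]
          rw [← lintegral_const_mul' _ _ ENNReal.ofReal_ne_top,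
            ← lintegral_const_mul' _ _ ENNReal.ofReal_ne_top]
          refine lintegral_mono fun z => ?_
          refine (h1 w z).trans (le_of_eq ?_)
          ring
        refine (lintegral_mono h3).trans ?_
        rw [lintegral_const_mul' _ _ ENNReal.ofReal_ne_top,
          l9_conv km hkmmeas hkme (fun z => ENNReal.ofReal ((s z)⁻¹ ^ 2) * q z) (hsm.mul hqm),
          l9_omm_int hR0]
        refine mul_le_mul' le_rfl (mul_le_mul' le_rfl (le_trans (le_of_eq ?_) hT))
        unfold S2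
        refine lintegral_congr fun z => ?_
        simp only [hq]
        rw [enorm_mul, mul_pow]
        congr 1
        rw [← ofReal_norm, ← ENNReal.ofReal_pow (norm_nonneg _)]
        congr 1
        rw [norm_real, Real.norm_eq_abs, sq_abs]
      have h3 : ENNReal.ofReal ((21 * Real.sqrt M0 * R) ^ 2) *
          mass W R v {w | Q w ≤ c w * P w}ᶜ ≤ ENNReal.ofReal (R ^ 2) * (ENNReal.ofReal (R ^ 2 / 10) *
            ENNReal.ofReal (M0 * ‖v‖ ^ 2)) := by
        refine le_trans ?_ h2
        unfold mass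
        simp only [eP]
        rw [← lintegral_const_mul _ hPmeas]
        refine (setLIntegral_mono (hsm.mul hQmeas) ?_).trans (setLIntegral_le_lintegral _ _)
        intro w hw
        have hw' : ¬ (Q w ≤ c w * P w) := hw
        have h4 : c w * P w ≤ Q w := (not_le.1 hw').le
        have h5 := mul_le_mul' (le_refl (ENNReal.ofReal ((s w)⁻¹ ^ 2))) h4
        refine le_trans (le_of_eq ?_) h5
        simp only [hc]
        rw [← mul_assoc, ← ENNReal.ofReal_mul (by positivity)]
        congr 2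
        have := (hs0 w).ne'
        field_simp
      have hsq : (21 * Real.sqrt M0 * R) ^ 2 = 441 * M0 * R ^ 2 := by
        rw [mul_pow, mul_pow, Real.sq_sqrt hM0]
        norm_num
      rw [hsq] at h3
      have h4 : mass W R v {w | Q w ≤ c w * P w}ᶜ = ENNReal.ofReal (1 / (441 * M0 * R ^ 2)) *
          (ENNReal.ofReal (441 * M0 * R ^ 2) * mass W R v {w | Q w ≤ c w * P w}ᶜ) := by
        rw [← mul_assoc, ← ENNReal.ofReal_mul (by positivity),
          one_div_mul_cancel (by positivity), ENNReal.ofReal_one, one_mul]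
      rw [h4]
      refine (mul_le_mul' le_rfl h3).trans (le_of_eq ?_)
      rw [mass_univ W R hR v, ← ENNReal.ofReal_mul (by positivity),
        ← ENNReal.ofReal_mul (by positivity), ← ENNReal.ofReal_mul (by positivity),
        ← ENNReal.ofReal_mul (by positivity), ← ENNReal.ofReal_mul (by positivity)]
      congr 1
      field_simp
      norm_num
  refine ⟨{w | Pm w ≤ ENNReal.ofReal 441 * P w} ∩ {w | Q w ≤ c w * P w}, hM1.inter hM2, ?_, ?_⟩
  · rintro w ⟨hw1, hw2⟩
    refine ⟨?_, ?_, ?_⟩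
    · intro h
      have h1 := W.norm_U w v
      rw [h, norm_zero] at h1
      exact hv (norm_eq_zero.1 h1.symm)
    · rw [eP, ePm]
      exact hw1
    · rw [tr_apply_U, eP, eQ]
      exact hw2
  · rw [Set.compl_inter]
    have h1 : mass W R v ({w | Pm w ≤ ENNReal.ofReal 441 * P w}ᶜ ∪ {w | Q w ≤ c w * P w}ᶜ) ≤
        mass W R v {w | Pm w ≤ ENNReal.ofReal 441 * P w}ᶜ +
          mass W R v {w | Q w ≤ c w * P w}ᶜ := by
      unfold mass
      exact lintegral_union_le _ _ _
    refine h1.trans ((add_le_add hbad1 hbad2).trans ?_)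
    rw [← add_mul, ← ENNReal.ofReal_add (by norm_num) (by norm_num)]
    exact mul_le_mul' (ENNReal.ofReal_le_ofReal (by norm_num)) le_rfl

end Pool.Agent.Helper84.HRT
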