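import Mathlib
import Pool.Agent.Helper84.HRT.DefsA
import Pool.Agent.Helper84.HRT.WB
import Pool.Agent.Helper84.HRT.YG
import Pool.Agent.Helper84.HRT.WD
import Pool.Agent.Helper84.HRT.L9A

open MeasureTheory Complex Filter
open scoped ENNReal ComplexConjugate InnerProductSpace BigOperators Topology

namespace Pool.Agent.Helper84.HRT

variable {H : Type} [NormedAddCommGroup H] [InnerProductSpace ℂ H] [CompleteSpace H]

theorem l9b_om_cont {R : ℝ} (hR : 0 < R) : Continuous (om R) := by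
  unfold om
  refine Continuous.inv₀ (by fun_prop) fun z => ?_
  have : 0 ≤ ‖z‖ / R := by positivity
  positivity

theorem l9b_om_nonneg {R : ℝ} (hR : 0 < R) (z : ℂ) : 0 ≤ om R z := by
  unfold om; positivity

theorem l9b_om_sub (R : ℝ) (z w : ℂ) : om R (z - w) = om R (w - z) := by
  unfold om; rw [norm_sub_rev]

theorem l9b_meas {R : ℝ} (hR : 0 < R) : Measurable fun x => ENNReal.ofReal (om R x ^ 2) :=
  ((l9b_om_cont hR).pow 2).measurable.ennreal_ofReal

theorem l9b_p (W : Weyl H) (v : H) :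
    ∫⁻ z, ‖W.V v z‖ₑ ^ 2 ∂dA = ENNReal.ofReal (‖v‖ ^ 2) := by
  rw [← S2_V W v]
  unfold S2
  simp

theorem l9b_pm (W : Weyl H) (v : H) : Measurable fun z => ‖W.V v z‖ₑ ^ 2 :=
  (V_cont W v).measurable.enorm.pow_const 2

/-- the tail of the weight -/
theorem l9b_tail {R t : ℝ} (hR : 0 < R) (ht : 0 < t) :
    ∫⁻ x in {x : ℂ | t ≤ ‖x‖}, ENNReal.ofReal (om R x ^ 2) ∂dA ≤
      ENNReal.ofReal (256 * (R / t) ^ 6) * ∫⁻ x, ENNReal.ofReal (om R x ^ 2) ∂dA := by
  have hms : MeasurableSet {x : ℂ | t ≤ ‖x‖} :=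
    measurableSet_le measurable_const measurable_norm
  set l : ℝ := t / R with hl
  have hl0 : 0 < l := div_pos ht hR
  set g : ℂ → ℝ≥0∞ := {x : ℂ | t ≤ ‖x‖}.indicator fun x => ENNReal.ofReal (om R x ^ 2) with hg
  have hgm : Measurable g := (l9b_meas hR).indicator hms
  have h1 : ∫⁻ y, g (l • y) ∂dA = ENNReal.ofReal ((l ^ 2)⁻¹) * ∫⁻ x, g x ∂dA := by
    rw [← lintegral_map hgm (measurable_const_smul l), Measure.map_addHaar_smul dA hl0.ne',
      lintegral_smul_measure, Complex.finrank_real_complex, abs_of_pos (by positivity),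
      smul_eq_mul]
  have h2 : ∫⁻ x, g x ∂dA = ENNReal.ofReal (l ^ 2) * ∫⁻ y, g (l • y) ∂dA := by
    rw [h1, ← mul_assoc, ← ENNReal.ofReal_mul (by positivity), mul_inv_cancel₀ (by positivity),
      ENNReal.ofReal_one, one_mul]
  have h3 : ∀ y, g (l • y) ≤
      ENNReal.ofReal (256 * (l ^ 8)⁻¹) * ENNReal.ofReal (om R y ^ 2) := by
    intro y
    by_cases hy : l • y ∈ {x : ℂ | t ≤ ‖x‖}
    · rw [hg, Set.indicator_of_mem hy, ← ENNReal.ofReal_mul (by positivity)]
      refine ENNReal.ofReal_le_ofReal ?_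
      rw [Set.mem_ofPred_eq, norm_smul, Real.norm_eq_abs, abs_of_pos hl0] at hy
      have hu : 1 ≤ ‖y‖ / R := by
        rw [hl, div_mul_eq_mul_div, le_div_iff₀ hR, mul_le_mul_iff_right₀ ht] at hy
        rwa [one_le_div hR]
      have e1 : om R (l • y) = ((1 + l * (‖y‖ / R)) ^ 4)⁻¹ := by
        unfold om
        rw [norm_smul, Real.norm_eq_abs, abs_of_pos hl0, mul_div_assoc]
      have e2 : (l / 2) ^ 4 * (1 + ‖y‖ / R) ^ 4 ≤ (1 + l * (‖y‖ / R)) ^ 4 := by
        rw [← mul_pow]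
        refine pow_le_pow_left₀ (by positivity) ?_ 4
        nlinarith
      have e3 : om R (l • y) ≤ 16 * (l ^ 4)⁻¹ * om R y := by
        rw [e1]
        refine (inv_anti₀ (by positivity) e2).trans (le_of_eq ?_)
        unfold om
        rw [mul_inv, div_pow, inv_div]
        ring
      calc om R (l • y) ^ 2 ≤ (16 * (l ^ 4)⁻¹ * om R y) ^ 2 :=
            pow_le_pow_left₀ (l9b_om_nonneg hR _) e3 2
        _ = 256 * (l ^ 8)⁻¹ * om R y ^ 2 := by
            rw [mul_pow, mul_pow, ← inv_pow, ← inv_pow, ← pow_mul]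
            ring
    · rw [hg, Set.indicator_of_notMem hy]
      exact bot_le
  rw [← lintegral_indicator hms]
  calc ∫⁻ x, g x ∂dA = ENNReal.ofReal (l ^ 2) * ∫⁻ y, g (l • y) ∂dA := h2
    _ ≤ ENNReal.ofReal (l ^ 2) *
        ∫⁻ y, ENNReal.ofReal (256 * (l ^ 8)⁻¹) * ENNReal.ofReal (om R y ^ 2) ∂dA := by
        gcongr with y
        exact h3 y
    _ = ENNReal.ofReal (256 * (R / t) ^ 6) * ∫⁻ x, ENNReal.ofReal (om R x ^ 2) ∂dA := by
        rw [lintegral_const_mul' _ _ ENNReal.ofReal_ne_top, ← mul_assoc,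
          ← ENNReal.ofReal_mul (by positivity)]
        congr 2
        rw [hl]
        field_simp

/-- the integral of the weight -/
theorem l9b_int (W : Weyl H) {R : ℝ} (hR : 1 ≤ R) :
    ∫⁻ x, ENNReal.ofReal (om R x ^ 2) ∂dA = ENNReal.ofReal (R ^ 2 / 21) := by
  have hR0 : 0 < R := by linarith
  have h := mass_univ W R hR W.g0
  rw [g0_norm, one_pow, ENNReal.ofReal_one, mul_one] at h
  rw [← h]
  unfold mass
  rw [Measure.restrict_univ]
  have e1 : ∀ w, S2 (om R) (W.V (W.U w W.g0)) =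
      ∫⁻ z, ENNReal.ofReal (om R (z - w) ^ 2) * ‖W.V W.g0 z‖ₑ ^ 2 ∂dA :=
    fun w => S2_om_shift W R W.g0 w
  simp only [e1]
  have hm : Measurable (Function.uncurry fun (w z : ℂ) =>
      ENNReal.ofReal (om R (z - w) ^ 2) * ‖W.V W.g0 z‖ₑ ^ 2) := by
    refine Measurable.mul ?_ ((l9b_pm W W.g0).comp measurable_snd)
    exact (l9b_meas hR0).comp (measurable_snd.sub measurable_fst)
  rw [lintegral_lintegral_swap hm.aemeasurable]
  have e2 : ∀ z, ∫⁻ w, ENNReal.ofReal (om R (z - w) ^ 2) * ‖W.V W.g0 z‖ₑ ^ 2 ∂dA =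
      (∫⁻ x, ENNReal.ofReal (om R x ^ 2) ∂dA) * ‖W.V W.g0 z‖ₑ ^ 2 := by
    intro z
    rw [lintegral_mul_const' _ _ (by simp)]
    congr 1
    simp only [l9b_om_sub R z]
    exact lintegral_sub_right_eq_self (fun x => ENNReal.ofReal (om R x ^ 2)) z
  simp only [e2]
  rw [lintegral_const_mul _ (l9b_pm W W.g0), l9b_p, g0_norm, one_pow, ENNReal.ofReal_one,
    mul_one]

theorem l9b_split (W : Weyl H) {R : ℝ} (hR : 1 ≤ R) (v : H) {t : ℝ} (ht : 0 < t) {E F : Set ℂ}
    (hE : MeasurableSet E) (hF : MeasurableSet F) (h : ∀ z, z ∉ F → ∀ w ∈ E, t ≤ ‖z - w‖) :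
    mass W R v E ≤ ENNReal.ofReal (R ^ 2 / 21) * (∫⁻ z in F, ‖W.V v z‖ₑ ^ 2 ∂dA) +
      ENNReal.ofReal (256 * (R / t) ^ 6) * mass W R v Set.univ := by
  have hR0 : 0 < R := by linarith
  have hI := l9b_int W hR
  set I := ∫⁻ x, ENNReal.ofReal (om R x ^ 2) ∂dA with hIdef
  have e1 : mass W R v E = ∫⁻ w in E, ∫⁻ z, ENNReal.ofReal (om R (z - w) ^ 2) *
      ‖W.V v z‖ₑ ^ 2 ∂dA ∂dA := by
    unfold mass
    exact lintegral_congr fun w => S2_om_shift W R v w
  have hm : Measurable (Function.uncurry fun (w z : ℂ) =>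
      ENNReal.ofReal (om R (z - w) ^ 2) * ‖W.V v z‖ₑ ^ 2) := by
    refine Measurable.mul ?_ ((l9b_pm W v).comp measurable_snd)
    exact (l9b_meas hR0).comp (measurable_snd.sub measurable_fst)
  rw [e1, lintegral_lintegral_swap hm.aemeasurable]
  have e2 : ∀ z, ∫⁻ w in E, ENNReal.ofReal (om R (z - w) ^ 2) * ‖W.V v z‖ₑ ^ 2 ∂dA ≤
      F.indicator (fun z => I * ‖W.V v z‖ₑ ^ 2) z +
        ENNReal.ofReal (256 * (R / t) ^ 6) * I * ‖W.V v z‖ₑ ^ 2 := by
    intro z
    rw [lintegral_mul_const' _ _ (by simp)]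
    by_cases hz : z ∈ F
    · rw [Set.indicator_of_mem hz]
      refine le_trans ?_ le_self_add
      gcongr
      refine (setLIntegral_le_lintegral _ _).trans (le_of_eq ?_)
      simp only [l9b_om_sub R z]
      exact lintegral_sub_right_eq_self (fun x => ENNReal.ofReal (om R x ^ 2)) z
    · rw [Set.indicator_of_notMem hz, zero_add]
      gcongr
      have hms : MeasurableSet {x : ℂ | t ≤ ‖x‖} :=
        measurableSet_le measurable_const measurable_norm
      have h3 := l9b_tail (R := R) hR0 ht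
      rw [← hIdef] at h3
      refine le_trans ?_ h3
      rw [← lintegral_indicator hE, ← lintegral_indicator hms]
      calc ∫⁻ w, E.indicator (fun w => ENNReal.ofReal (om R (z - w) ^ 2)) w ∂dA
          ≤ ∫⁻ w, {x : ℂ | t ≤ ‖x‖}.indicator (fun x => ENNReal.ofReal (om R x ^ 2)) (w - z)
            ∂dA := by
            refine lintegral_mono fun w => ?_
            by_cases hw : w ∈ E
            · have hmem : w - z ∈ {x : ℂ | t ≤ ‖x‖} := by
                rw [Set.mem_ofPred_eq, norm_sub_rev]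
                exact h z hz w hw
              rw [Set.indicator_of_mem hw, Set.indicator_of_mem hmem, l9b_om_sub]
            · rw [Set.indicator_of_notMem hw]
              exact bot_le
        _ = _ := lintegral_sub_right_eq_self
            ({x : ℂ | t ≤ ‖x‖}.indicator (fun x => ENNReal.ofReal (om R x ^ 2))) z
  refine (lintegral_mono e2).trans (le_of_eq ?_)
  rw [lintegral_add_left (((l9b_pm W v).const_mul I).indicator hF), lintegral_indicator hF,
    lintegral_const_mul _ (l9b_pm W v), lintegral_const_mul _ (l9b_pm W v), l9b_p,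
    mass_univ W R hR v, hI, mul_assoc]

/-- the part of the mass far from the origin -/
theorem mass_far : ∃ C : ℝ, 0 < C ∧ ∀ (H : Type) [NormedAddCommGroup H]
    [InnerProductSpace ℂ H] [CompleteSpace H] (W : Weyl H) (R : ℝ), 1 ≤ R → ∀ (T : ℝ), R ≤ T →
    ∀ v : H, mass W R v {w | T ≤ ‖w‖} ≤
      ENNReal.ofReal (R ^ 2 / 21) * (∫⁻ z in {z | T / 2 ≤ ‖z‖}, ‖W.V v z‖ₑ ^ 2 ∂dA) +
      ENNReal.ofReal (C * (R / T) ^ 6) * mass W R v Set.univ := by
  refine ⟨256 * 64, by norm_num, ?_⟩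
  intro H _ _ _ W R hR T hT v
  have hT0 : 0 < T := by linarith
  have h := l9b_split W hR v (t := T / 2) (by positivity)
    (E := {w | T ≤ ‖w‖}) (F := {z | T / 2 ≤ ‖z‖})
    (measurableSet_le measurable_const measurable_norm)
    (measurableSet_le measurable_const measurable_norm) (fun z hz w hw => by
      rw [Set.mem_ofPred_eq] at hz hw
      push Not at hz
      have := norm_sub_norm_le w z
      rw [norm_sub_rev] at this
      linarith)
  refine h.trans (le_of_eq ?_)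
  congr 3
  rw [div_div_eq_mul_div]
  ring

/-- if most of the mass of the centres is near the origin, so is most of the mass of `v` -/
theorem mass_near (R R0 : ℝ) (hR : 1 ≤ R) (hR0 : 0 ≤ R0) : ∃ R1 : ℝ, R0 ≤ R1 ∧
    ∀ (H : Type) [NormedAddCommGroup H] [InnerProductSpace ℂ H] [CompleteSpace H] (W : Weyl H)
    (v : H), ENNReal.ofReal (9 / 10) * mass W R v Set.univ ≤ mass W R v {w | ‖w‖ ≤ R0} →
    ENNReal.ofReal (8 / 10 * ‖v‖ ^ 2) ≤ ∫⁻ z in {z | ‖z‖ ≤ R1}, ‖W.V v z‖ₑ ^ 2 ∂dA := by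
  refine ⟨R0 + 4 * R, by linarith, ?_⟩
  intro H _ _ _ W v hv
  have h := l9b_split W hR v (t := 4 * R) (by positivity)
    (E := {w | ‖w‖ ≤ R0}) (F := {z | ‖z‖ ≤ R0 + 4 * R})
    (measurableSet_le measurable_norm measurable_const)
    (measurableSet_le measurable_norm measurable_const) (fun z hz w hw => by
      rw [Set.mem_ofPred_eq] at hz hw
      push Not at hz
      have := norm_sub_norm_le z w
      linarith)
  have h2 := hv.trans h
  have hfin : ∫⁻ z in {z | ‖z‖ ≤ R0 + 4 * R}, ‖W.V v z‖ₑ ^ 2 ∂dA ≠ ⊤ := by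
    refine ne_top_of_le_ne_top ?_ (setLIntegral_le_lintegral _ _)
    rw [l9b_p]; exact ENNReal.ofReal_ne_top
  rw [mass_univ W R hR v] at h2
  set P := ∫⁻ z in {z | ‖z‖ ≤ R0 + 4 * R}, ‖W.V v z‖ₑ ^ 2 ∂dA with hP
  have hP2 : P = ENNReal.ofReal P.toReal := (ENNReal.ofReal_toReal hfin).symm
  have hRpos : 0 < R := by linarith
  have hq : R / (4 * R) = 1 / 4 := by field_simp
  rw [hP2, hq, ← ENNReal.ofReal_mul (by positivity), ← ENNReal.ofReal_mul (by positivity),
    ← ENNReal.ofReal_mul (by positivity), ← ENNReal.ofReal_mul (by positivity),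
    ← ENNReal.ofReal_add (by positivity) (by positivity),
    ENNReal.ofReal_le_ofReal_iff (by positivity)] at h2
  rw [hP2]
  refine ENNReal.ofReal_le_ofReal ?_
  have hc : 0 < R ^ 2 / 21 := by positivity
  have h3 : (R ^ 2 / 21) * (9 / 10 * ‖v‖ ^ 2) ≤
      (R ^ 2 / 21) * (P.toReal + 256 * (1 / 4) ^ 6 * ‖v‖ ^ 2) := by
    linarith
  have h4 := le_of_mul_le_mul_left h3 hc
  have h5 : 0 ≤ ‖v‖ ^ 2 := by positivity
  nlinarith

/-- the mass on bounded sets is small when the vector has little mass on bounded sets -/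
theorem mass_ball (R : ℝ) (hR : 1 ≤ R) (T ε : ℝ) (hε : 0 < ε) : ∃ T' : ℝ, 0 < T' ∧
    ∀ (H : Type) [NormedAddCommGroup H] [InnerProductSpace ℂ H] [CompleteSpace H] (W : Weyl H)
    (v : H), mass W R v {w | ‖w‖ ≤ T} ≤
      ENNReal.ofReal (R ^ 2 / 21) * (∫⁻ z in {z | ‖z‖ ≤ T'}, ‖W.V v z‖ₑ ^ 2 ∂dA) +
      ENNReal.ofReal ε * mass W R v Set.univ := by
  have hRpos : 0 < R := by linarith
  set t : ℝ := max R (256 * R / ε) with ht
  have ht0 : 0 < t := lt_of_lt_of_le hRpos (le_max_left _ _)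
  refine ⟨|T| + t, by positivity, ?_⟩
  intro H _ _ _ W v
  have h := l9b_split W hR v (t := t) ht0
    (E := {w | ‖w‖ ≤ T}) (F := {z | ‖z‖ ≤ |T| + t})
    (measurableSet_le measurable_norm measurable_const)
    (measurableSet_le measurable_norm measurable_const) (fun z hz w hw => by
      rw [Set.mem_ofPred_eq] at hz hw
      push Not at hz
      have := norm_sub_norm_le z w
      have := le_abs_self T
      linarith)
  refine h.trans ?_
  gcongr
  have h1 : R / t ≤ 1 := by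
    rw [div_le_one ht0]; exact le_max_left _ _
  have h0 : 0 ≤ R / t := by positivity
  have h2 : (R / t) ^ 6 ≤ R / t := pow_le_of_le_one h0 h1 (by norm_num)
  have h3 : 256 * (R / t) ≤ ε := by
    rw [← mul_div_assoc, div_le_iff₀ ht0, mul_comm ε t, ← div_le_iff₀ hε]
    exact le_max_right _ _
  linarith

end Pool.Agent.Helper84.HRT
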