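import Mathlib
import Pool.Agent.Helper84.HRT.DefsA
import Pool.Agent.Helper84.HRT.YG
import Pool.Agent.Helper84.HRT.YK
import Pool.Agent.Helper84.HRT.VS
import Pool.Agent.Helper84.HRT.XA
import Pool.Agent.Helper84.HRT.XC
import Pool.Agent.Helper84.HRT.L1H
import Pool.Agent.Helper84.HRT.L3C
import Pool.Agent.Helper84.HRT.L9A
import Pool.Agent.Helper84.HRT.L9
import Pool.Agent.Helper84.HRT.L9B
import Pool.Agent.Helper84.HRT.L11D

open MeasureTheory Complex Filter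
open scoped ENNReal ComplexConjugate InnerProductSpace BigOperators Topology

namespace Pool.Agent.Helper84.HRT

theorem l11e_exp_sub_one (x : ℝ) : |Real.exp x - 1| ≤ |x| * Real.exp |x| := by
  rcases le_or_gt 0 x with hx | hx
  · rw [abs_of_nonneg hx, abs_of_nonneg (by linarith [Real.add_one_le_exp x])]
    have h1 := Real.add_one_le_exp (-x)
    have h2 : Real.exp (-x) * Real.exp x = 1 := by
      rw [← Real.exp_add]; simp
    nlinarith [Real.exp_pos x]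
  · rw [abs_of_neg hx, abs_of_nonpos (by linarith [Real.exp_le_one_iff.mpr hx.le])]
    have h1 := Real.add_one_le_exp x
    have h2 : (1 : ℝ) ≤ Real.exp (-x) := Real.one_le_exp (by linarith)
    nlinarith

/-- the truncated exponential weight -/
theorem expw_isW : ∃ C : ℝ, 0 < C ∧ ∀ σ T : ℝ, 0 < σ → C * σ ≤ 1 → 0 < T →
    IsW (fun z => Real.exp (σ * min ‖z‖ (2 * T - ‖z‖))) (fun _ => C * σ) := by
  refine ⟨1, one_pos, ?_⟩
  intro σ T hσ hCσ hT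
  have hlip : ∀ z ζ : ℂ, |min ‖z‖ (2 * T - ‖z‖) - min ‖ζ‖ (2 * T - ‖ζ‖)| ≤ ‖z - ζ‖ := by
    intro z ζ
    have h0 : |‖z‖ - ‖ζ‖| ≤ ‖z - ζ‖ := abs_norm_sub_norm_le z ζ
    refine (abs_min_sub_min_le_max _ _ _ _).trans (max_le h0 ?_)
    have : 2 * T - ‖z‖ - (2 * T - ‖ζ‖) = -(‖z‖ - ‖ζ‖) := by ring
    rw [this, abs_neg]; exact h0
  refine ⟨fun z => Real.exp_pos _, ?_, fun _ => by positivity, fun _ => hCσ, continuous_const, ?_⟩
  · fun_prop
  · intro z ζ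
    set φ : ℂ → ℝ := fun z => min ‖z‖ (2 * T - ‖z‖) with hφ
    have hz : Real.exp (σ * φ z) = Real.exp (σ * φ ζ) * Real.exp (σ * (φ z - φ ζ)) := by
      rw [← Real.exp_add]; congr 1; ring
    have hy : |σ * (φ z - φ ζ)| ≤ σ * ‖z - ζ‖ := by
      rw [abs_mul, abs_of_pos hσ]
      exact mul_le_mul_of_nonneg_left (hlip z ζ) hσ.le
    have hy1 : |σ * (φ z - φ ζ)| ≤ ‖z - ζ‖ := by
      refine hy.trans ?_
      nlinarith [norm_nonneg (z - ζ)]
    have he := l11e_exp_sub_one (σ * (φ z - φ ζ))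
    have h1 : |Real.exp (σ * φ z) - Real.exp (σ * φ ζ)| =
        Real.exp (σ * φ ζ) * |Real.exp (σ * (φ z - φ ζ)) - 1| := by
      rw [hz]
      have : Real.exp (σ * φ ζ) * Real.exp (σ * (φ z - φ ζ)) - Real.exp (σ * φ ζ) =
        Real.exp (σ * φ ζ) * (Real.exp (σ * (φ z - φ ζ)) - 1) := by ring
      rw [this, abs_mul, abs_of_pos (Real.exp_pos _)]
    show |Real.exp (σ * φ z) - Real.exp (σ * φ ζ)| ≤
      1 * σ * Real.exp (σ * φ ζ) * ‖z - ζ‖ * Real.exp ‖z - ζ‖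
    rw [h1]
    have h2 : |Real.exp (σ * (φ z - φ ζ)) - 1| ≤ (σ * ‖z - ζ‖) * Real.exp ‖z - ζ‖ := by
      refine he.trans ?_
      exact mul_le_mul hy (Real.exp_le_exp.mpr hy1) (Real.exp_pos _).le (by positivity)
    calc Real.exp (σ * φ ζ) * |Real.exp (σ * (φ z - φ ζ)) - 1|
        ≤ Real.exp (σ * φ ζ) * ((σ * ‖z - ζ‖) * Real.exp ‖z - ζ‖) :=
          mul_le_mul_of_nonneg_left h2 (Real.exp_pos _).le
      _ = 1 * σ * Real.exp (σ * φ ζ) * ‖z - ζ‖ * Real.exp ‖z - ζ‖ := by ring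

theorem l11e_S2_mono (Ω Ω' : ℂ → ℝ) (F : ℂ → ℂ) (K : ℝ) (_hK : 0 ≤ K)
    (h : ∀ z, |Ω z| ≤ K * |Ω' z|) : S2 Ω F ≤ ENNReal.ofReal (K ^ 2) * S2 Ω' F := by
  unfold S2
  rw [← lintegral_const_mul' _ _ ENNReal.ofReal_ne_top]
  refine lintegral_mono fun z => ?_
  have e1 : ‖((Ω z : ℝ) : ℂ) * F z‖ₑ ^ 2 = ENNReal.ofReal ((|Ω z| * ‖F z‖) ^ 2) := by
    rw [← ofReal_norm, norm_mul, Complex.norm_real, Real.norm_eq_abs,
      ENNReal.ofReal_pow (by positivity)]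
  have e2 : ‖((Ω' z : ℝ) : ℂ) * F z‖ₑ ^ 2 = ENNReal.ofReal ((|Ω' z| * ‖F z‖) ^ 2) := by
    rw [← ofReal_norm, norm_mul, Complex.norm_real, Real.norm_eq_abs,
      ENNReal.ofReal_pow (by positivity)]
  rw [e1, e2, ← ENNReal.ofReal_mul (by positivity)]
  apply ENNReal.ofReal_le_ofReal
  have : |Ω z| * ‖F z‖ ≤ K * (|Ω' z| * ‖F z‖) := by
    rw [← mul_assoc]
    exact mul_le_mul_of_nonneg_right (h z) (norm_nonneg _)
  calc (|Ω z| * ‖F z‖) ^ 2 ≤ (K * (|Ω' z| * ‖F z‖)) ^ 2 := by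
        apply pow_le_pow_left₀ (by positivity) this
    _ = K ^ 2 * (|Ω' z| * ‖F z‖) ^ 2 := by ring

theorem l11e_exp_le_om (a R : ℝ) (ha : 0 < a) (hR : 0 < R) :
    ∃ K : ℝ, 0 < K ∧ ∀ z : ℂ, Real.exp (-(a * ‖z‖)) ≤ K * om R z := by
  refine ⟨24 / (a * R) ^ 4 * Real.exp (a * R), by positivity, fun z => ?_⟩
  have h1 := Real.pow_div_factorial_le_exp (a * R * (1 + ‖z‖ / R)) (by positivity) 4
  have h4 : ((Nat.factorial 4 : ℕ) : ℝ) = 24 := by norm_num [Nat.factorial]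
  rw [h4] at h1
  have h2 : a * R * (1 + ‖z‖ / R) = a * R + a * ‖z‖ := by field_simp
  have h3 : (a * R * (1 + ‖z‖ / R)) ^ 4 / 24 ≤ Real.exp (a * R) * Real.exp (a * ‖z‖) := by
    rw [← Real.exp_add, ← h2]; exact h1
  have hpos : 0 < (1 + ‖z‖ / R) ^ 4 := by positivity
  unfold om
  rw [Real.exp_neg, ← one_div, div_le_iff₀ (Real.exp_pos _)]
  have h5 : 24 / (a * R) ^ 4 * Real.exp (a * R) * ((1 + ‖z‖ / R) ^ 4)⁻¹ * Real.exp (a * ‖z‖) =
      (Real.exp (a * R) * Real.exp (a * ‖z‖)) / ((a * R * (1 + ‖z‖ / R)) ^ 4 / 24) := by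
    field_simp
  rw [h5, le_div_iff₀ (by positivity), one_mul]
  exact h3

variable {H : Type} [NormedAddCommGroup H] [InnerProductSpace ℂ H] [CompleteSpace H]
variable {W : Weyl H} {D : Data}

theorem l11e_S2_one_mul (Ω : ℂ → ℝ) (G : ℂ → ℂ) :
    S2 (fun _ => 1) (fun z => ((Ω z : ℝ) : ℂ) * G z) = S2 Ω G := by
  unfold S2; simp

theorem l11e_S2_weight_mul (Y Ω : ℂ → ℝ) (G : ℂ → ℂ) :
    S2 Y (fun z => ((Ω z : ℝ) : ℂ) * G z) = S2 (fun z => Y z * Ω z) G := by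
  unfold S2
  congr 1; ext z; congr 2; push_cast; ring

/-- the key estimate for one truncation -/
theorem l11e_key (F : Fam W D) (γ : Fin D.m → ℂ) (hγ : γ ∈ D.Γ) (r : ℝ) (hr : 0 ≤ r)
    (hrC : r ≤ F.C0) (ξ : ℝ → ℂ) (hξ : D.Adm r ξ) (G : ℂ → ℂ) (hG : Rep G)
    (hfin : S2 (om F.R) G < ⊤) (hnull : ∀ z, actA D mu8 γ ξ G z = 0) :
    ∃ σ : ℝ, 0 < σ ∧ ∃ K : ℝ≥0∞, K < ⊤ ∧ ∀ T : ℝ, 0 < T →
      S2 (fun z => Real.exp (σ * min ‖z‖ (2 * T - ‖z‖))) G ≤ K := by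
  obtain ⟨Ce, hCe, He⟩ := expw_isW
  obtain ⟨C1, hC1, H1⟩ := L1H F.C0
  obtain ⟨c1, hc1, HN⟩ := L1N
  obtain ⟨C9, hC9, H9⟩ := L9
  obtain ⟨CK, hCK, HK⟩ := Kop_pointwise
  have hR4 : 4 ≤ F.R := F.R_ge
  have hR0 : 0 < F.R := by linarith
  have hg := F.g_pos
  -- choice of σ
  obtain ⟨σ, hσ0, hσ1, hσ2, hσ3, hσ4⟩ : ∃ σ : ℝ, 0 < σ ∧ σ ≤ 1 / 2 ∧ Ce * σ ≤ 1 ∧ Ce * σ ≤ c1 ∧
      C9 * (2 * Real.sqrt C1 * (Ce * σ)) * F.R < F.g / 2 := by
    set A : ℝ := 2 + Ce + Ce / c1 + 4 * (C9 * Real.sqrt C1 * Ce * F.R) / F.g + 1 with hA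
    have hsq : 0 ≤ Real.sqrt C1 := Real.sqrt_nonneg _
    have hA2 : 0 ≤ Ce / c1 := by positivity
    have hA3 : 0 ≤ 4 * (C9 * Real.sqrt C1 * Ce * F.R) / F.g := by positivity
    have hApos : 0 < A := by positivity
    refine ⟨1 / A, by positivity, ?_, ?_, ?_, ?_⟩
    · apply one_div_le_one_div_of_le (by norm_num); rw [hA]; linarith
    · rw [mul_one_div, div_le_one hApos]; rw [hA]; linarith
    · rw [mul_one_div, div_le_iff₀ hApos]
      have : Ce = c1 * (Ce / c1) := by field_simp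
      nlinarith
    · have h1 : C9 * (2 * Real.sqrt C1 * (Ce * (1 / A))) * F.R =
        (2 * (C9 * Real.sqrt C1 * Ce * F.R)) / A := by field_simp
      rw [h1, div_lt_iff₀ hApos]
      have h2 : F.g / 2 * (4 * (C9 * Real.sqrt C1 * Ce * F.R) / F.g) =
        2 * (C9 * Real.sqrt C1 * Ce * F.R) := by field_simp; ring
      have h3 : F.g / 2 * A = F.g / 2 * (2 + Ce + Ce / c1 + 1) +
        F.g / 2 * (4 * (C9 * Real.sqrt C1 * Ce * F.R) / F.g) := by rw [hA]; ring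
      rw [h3, h2]
      have : 0 < F.g / 2 * (2 + Ce + Ce / c1 + 1) := by positivity
      linarith
  set M0 : ℝ := C1 * (Ce * σ) ^ 2 * 4 with hM0
  have hM0n : 0 ≤ M0 := by positivity
  have hsqM0 : Real.sqrt M0 = 2 * Real.sqrt C1 * (Ce * σ) := by
    have : M0 = C1 * (2 * (Ce * σ)) ^ 2 := by rw [hM0]; ring
    rw [this, Real.sqrt_mul hC1.le, Real.sqrt_sq (by positivity)]; ring
  set δ : ℝ := C9 * Real.sqrt M0 * F.R * 1 with hδ
  have hδ0 : 0 ≤ δ := by positivity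
  have hδ1 : δ < F.g / 2 := by
    rw [hδ, hsqM0]; linarith
  obtain ⟨T0, hT0⟩ := no_far_centre F γ hγ r hr ξ hξ δ hδ0 hδ1
  obtain ⟨T', hT', Hball⟩ := mass_ball F.R (by linarith) T0 (1 / 2) (by norm_num)
  obtain ⟨Kh, hKh, HKh⟩ := l11e_exp_le_om (1 / 2) F.R (by norm_num) hR0
  have hmu : IsProbabilityMeasure mu8 := mu8_prob
  have hγ1 : ∀ i, ‖γ i‖ ≤ 1 := fun i => (D.Γ_one γ hγ i).le
  have hbd : Bd mu8 F.C0 ξ := Adm.bd8 (Adm.mono hrC hξ) F.C0_pos.le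
  -- the uniform bound
  set K2 : ℝ≥0∞ := ENNReal.ofReal (Real.exp T' ^ 2) * (ENNReal.ofReal CK *
    (ENNReal.ofReal (Kh ^ 2) * S2 (om F.R) G)) with hK2
  set K3 : ℝ≥0∞ := K2 * dA {z : ℂ | ‖z‖ ≤ T'} with hK3
  have hball : dA {z : ℂ | ‖z‖ ≤ T'} < ⊤ := by
    have hb : {z : ℂ | ‖z‖ ≤ T'} = Metric.closedBall 0 T' := by
      ext z; simp
    rw [hb]
    exact (isCompact_closedBall (0 : ℂ) T').measure_lt_top
  have hK2t : K2 < ⊤ := by
    refine ENNReal.mul_lt_top ENNReal.ofReal_lt_top (ENNReal.mul_lt_top ENNReal.ofReal_lt_top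
      (ENNReal.mul_lt_top ENNReal.ofReal_lt_top hfin))
  have hK3t : K3 < ⊤ := ENNReal.mul_lt_top hK2t hball
  refine ⟨σ, hσ0, 4 * (3 * K3), by
    refine ENNReal.mul_lt_top (by norm_num) (ENNReal.mul_lt_top (by norm_num) hK3t), ?_⟩
  intro T hT
  set Ω : ℂ → ℝ := fun z => Real.exp (σ * min ‖z‖ (2 * T - ‖z‖)) with hΩ
  have hIsW : IsW Ω (fun _ => Ce * σ) := He σ T hσ0 hσ2 hT
  have hΩG : S2 Ω G < ⊤ := by
    obtain ⟨Kσ, hKσ, HKσ⟩ := l11e_exp_le_om σ F.R hσ0 hR0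
    refine lt_of_le_of_lt (l11e_S2_mono Ω (om F.R) G (Real.exp (2 * σ * T) * Kσ)
      (by positivity) (fun z => ?_)) (ENNReal.mul_lt_top ENNReal.ofReal_lt_top hfin)
    have hompos : 0 < om F.R z := by unfold om; positivity
    rw [abs_of_pos (hIsW.pos z), abs_of_pos hompos]
    have h1 : Ω z ≤ Real.exp (2 * σ * T) * Real.exp (-(σ * ‖z‖)) := by
      rw [← Real.exp_add]
      apply Real.exp_le_exp.mpr
      have := min_le_right ‖z‖ (2 * T - ‖z‖)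
      nlinarith
    calc Ω z ≤ Real.exp (2 * σ * T) * Real.exp (-(σ * ‖z‖)) := h1
      _ ≤ Real.exp (2 * σ * T) * (Kσ * om F.R z) :=
          mul_le_mul_of_nonneg_left (HKσ z) (Real.exp_pos _).le
      _ = Real.exp (2 * σ * T) * Kσ * om F.R z := by ring
  have hΩ1 : S2 (fun _ => 1) (fun z => ((Ω z : ℝ) : ℂ) * G z) < ⊤ := by
    rw [l11e_S2_one_mul]; exact hΩG
  have hmeas : AEStronglyMeasurable (fun z => ((Ω z : ℝ) : ℂ) * G z) dA :=
    ((Complex.continuous_ofReal.comp hIsW.cont).mul hG.cont).aestronglyMeasurable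
  set v : H := W.Vs (fun z => ((Ω z : ℝ) : ℂ) * G z) with hv
  have hN := (HN H W Ω (fun _ => Ce * σ) G hIsW (fun _ => hσ3) hG hΩG).2
  rw [← hv] at hN
  -- bound for A v
  have hAv : S2 (fun _ => 1) (W.V (Aop W D mu8 γ ξ v)) ≤ ENNReal.ofReal (M0 * ‖v‖ ^ 2) := by
    have h1 := H1 H W D mu8 γ ξ F.β_le hγ1 hbd Ω (fun _ => Ce * σ) (fun _ => 1) G hIsW
      ⟨fun _ => one_pos, fun z ζ => by
        rw [one_mul]; exact Real.one_le_exp (norm_nonneg _)⟩ hG hΩG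
    rw [← hv] at h1
    have h2 : S2 (fun z => 1 * Ω z) (actA D mu8 γ ξ G) = 0 := by
      unfold S2
      simp [hnull]
    have h3 : S2 (fun z => 1 * (Ce * σ) * Ω z) G ≤ ENNReal.ofReal ((Ce * σ) ^ 2) * S2 Ω G := by
      refine l11e_S2_mono _ _ _ (Ce * σ) (by positivity) (fun z => ?_)
      rw [one_mul, abs_mul, abs_of_pos (by positivity : 0 < Ce * σ)]
    rw [h2, zero_add] at h1
    calc S2 (fun _ => 1) (W.V (Aop W D mu8 γ ξ v))
        ≤ ENNReal.ofReal C1 * S2 (fun z => 1 * (Ce * σ) * Ω z) G := h1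
      _ ≤ ENNReal.ofReal C1 * (ENNReal.ofReal ((Ce * σ) ^ 2) *
          (4 * ENNReal.ofReal (‖v‖ ^ 2))) := by
          gcongr
          exact h3.trans (by gcongr)
      _ = ENNReal.ofReal (M0 * ‖v‖ ^ 2) := by
          have h4 : (4 : ℝ≥0∞) = ENNReal.ofReal 4 := by norm_num
          rw [h4, ← ENNReal.ofReal_mul (by norm_num), ← ENNReal.ofReal_mul (by positivity),
            ← ENNReal.ofReal_mul hC1.le]
          congr 1; rw [hM0]; ring
  by_cases hv0 : v = 0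
  · have : S2 Ω G ≤ 0 := by
      refine hN.trans ?_
      rw [hv0]; simp
    exact this.trans zero_le
  obtain ⟨E, hEm, hE1, hE2⟩ := H9 H W F.R (by linarith) (Aop W D mu8 γ ξ) v (fun _ => 1) M0
    continuous_const (fun _ => one_pos) (fun _ => le_rfl)
    (fun z w => by nlinarith [norm_nonneg (z - w)]) hM0n hv0 (by simpa using hAv)
  have hEsub : Set.univ ⊆ {w : ℂ | ‖w‖ ≤ T0} ∪ Eᶜ := by
    intro w _
    by_cases hw : w ∈ E
    · left
      by_contra hcon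
      exact hT0 w (not_le.mp hcon).le (W.U w v) (hE1 w hw)
    · right; exact hw
  have hmass : mass W F.R v Set.univ ≤ mass W F.R v {w | ‖w‖ ≤ T0} + mass W F.R v Eᶜ := by
    unfold mass
    calc ∫⁻ w in Set.univ, S2 (om F.R) (W.V (W.U w v)) ∂dA
        ≤ ∫⁻ w in {w : ℂ | ‖w‖ ≤ T0} ∪ Eᶜ, S2 (om F.R) (W.V (W.U w v)) ∂dA :=
          lintegral_mono_set hEsub
      _ ≤ _ := lintegral_union_le _ _ _
  have hmu1 := mass_univ W F.R (by linarith) v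
  have hb := Hball H W v
  -- pointwise bound
  have hpt : ∀ z : ℂ, ‖z‖ ≤ T' → ‖W.V v z‖ₑ ^ 2 ≤ K2 := by
    intro z hz
    have hY : LogLip (fun z : ℂ => Real.exp (-‖z‖)) := by
      refine ⟨fun z => Real.exp_pos _, fun z ζ => ?_⟩
      rw [← Real.exp_add]
      apply Real.exp_le_exp.mpr
      have h0 := norm_sub_norm_le ζ z
      rw [norm_sub_rev] at h0
      linarith
    have h1 := HK (fun z => Real.exp (-‖z‖)) (fun z => ((Ω z : ℝ) : ℂ) * G z) hY hmeas z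
    rw [l11e_S2_weight_mul] at h1
    have h2 : S2 (fun z => Real.exp (-‖z‖) * Ω z) G ≤
        ENNReal.ofReal (Kh ^ 2) * S2 (om F.R) G := by
      refine l11e_S2_mono _ _ _ Kh hKh.le (fun z => ?_)
      have hompos : 0 < om F.R z := by unfold om; positivity
      rw [abs_of_pos (by have := hIsW.pos z; positivity), abs_of_pos hompos]
      refine le_trans ?_ (HKh z)
      rw [← Real.exp_add]
      apply Real.exp_le_exp.mpr
      have h3 := min_le_left ‖z‖ (2 * T - ‖z‖)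
      nlinarith [norm_nonneg z]
    have h3 : W.V v z = Kop (fun z => ((Ω z : ℝ) : ℂ) * G z) z := V_Vs W _ hmeas hΩ1 z
    have h4 : ‖W.V v z‖ₑ ^ 2 = ENNReal.ofReal (Real.exp ‖z‖ ^ 2) *
        ‖((Real.exp (-‖z‖) : ℝ) : ℂ) * Kop (fun z => ((Ω z : ℝ) : ℂ) * G z) z‖ₑ ^ 2 := by
      rw [h3, ← ofReal_norm, ← ofReal_norm, norm_mul, Complex.norm_real,
        Real.norm_of_nonneg (Real.exp_pos _).le, ← ENNReal.ofReal_pow (by positivity),
        ← ENNReal.ofReal_pow (by positivity), ← ENNReal.ofReal_mul (by positivity)]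
      congr 1
      have : Real.exp ‖z‖ * Real.exp (-‖z‖) = 1 := by rw [← Real.exp_add]; simp
      calc ‖Kop (fun z => ((Ω z : ℝ) : ℂ) * G z) z‖ ^ 2
          = (Real.exp ‖z‖ * Real.exp (-‖z‖)) ^ 2 *
            ‖Kop (fun z => ((Ω z : ℝ) : ℂ) * G z) z‖ ^ 2 := by rw [this]; ring
        _ = _ := by ring
    rw [h4, hK2]
    have h5 : ENNReal.ofReal (Real.exp ‖z‖ ^ 2) ≤ ENNReal.ofReal (Real.exp T' ^ 2) := by
      apply ENNReal.ofReal_le_ofReal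
      apply pow_le_pow_left₀ (Real.exp_pos _).le
      exact Real.exp_le_exp.mpr hz
    exact mul_le_mul' h5 (h1.trans (mul_le_mul' le_rfl h2))
  have hint : ∫⁻ z in {z : ℂ | ‖z‖ ≤ T'}, ‖W.V v z‖ₑ ^ 2 ∂dA ≤ K3 := by
    have hms : MeasurableSet {z : ℂ | ‖z‖ ≤ T'} := by
      have hb : {z : ℂ | ‖z‖ ≤ T'} = Metric.closedBall 0 T' := by
        ext z; simp
      rw [hb]; exact Metric.isClosed_closedBall.measurableSet
    calc ∫⁻ z in {z : ℂ | ‖z‖ ≤ T'}, ‖W.V v z‖ₑ ^ 2 ∂dA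
        ≤ ∫⁻ z in {z : ℂ | ‖z‖ ≤ T'}, K2 ∂dA :=
          setLIntegral_mono' hms (fun z hz => hpt z hz)
      _ = K3 := by rw [setLIntegral_const]
  -- conclusion
  have hfinal : ENNReal.ofReal (‖v‖ ^ 2) ≤ 3 * K3 := by
    set I : ℝ≥0∞ := ∫⁻ z in {z : ℂ | ‖z‖ ≤ T'}, ‖W.V v z‖ₑ ^ 2 ∂dA with hI
    have hIt : I < ⊤ := lt_of_le_of_lt hint hK3t
    have hIr : ENNReal.ofReal I.toReal = I := ENNReal.ofReal_toReal hIt.ne
    have hRp : 0 < F.R ^ 2 / 21 := by positivity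
    rw [hmu1] at hmass hb hE2
    rw [← hIr] at hb
    have h1 : ENNReal.ofReal (F.R ^ 2 / 21) * ENNReal.ofReal (‖v‖ ^ 2) ≤
        (ENNReal.ofReal (F.R ^ 2 / 21) * ENNReal.ofReal I.toReal +
          ENNReal.ofReal (1 / 2) * (ENNReal.ofReal (F.R ^ 2 / 21) * ENNReal.ofReal (‖v‖ ^ 2))) +
        ENNReal.ofReal (1 / 100) * (ENNReal.ofReal (F.R ^ 2 / 21) * ENNReal.ofReal (‖v‖ ^ 2)) :=
      hmass.trans (add_le_add hb hE2)
    have hIn : 0 ≤ I.toReal := ENNReal.toReal_nonneg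
    rw [← ENNReal.ofReal_mul hRp.le, ← ENNReal.ofReal_mul hRp.le,
      ← ENNReal.ofReal_mul (by norm_num), ← ENNReal.ofReal_mul (by norm_num),
      ← ENNReal.ofReal_add (by positivity) (by positivity),
      ← ENNReal.ofReal_add (by positivity) (by positivity),
      ENNReal.ofReal_le_ofReal_iff (by positivity)] at h1
    have h2 : ‖v‖ ^ 2 ≤ 3 * I.toReal := by
      have h3 : F.R ^ 2 / 21 * (‖v‖ ^ 2 * (1 - 1 / 2 - 1 / 100)) ≤ F.R ^ 2 / 21 * I.toReal := by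
        nlinarith
      have h4 := le_of_mul_le_mul_left h3 hRp
      nlinarith [sq_nonneg ‖v‖]
    calc ENNReal.ofReal (‖v‖ ^ 2) ≤ ENNReal.ofReal (3 * I.toReal) :=
          ENNReal.ofReal_le_ofReal h2
      _ = 3 * I := by
          rw [ENNReal.ofReal_mul (by norm_num), hIr]; norm_num
      _ ≤ 3 * K3 := mul_le_mul' le_rfl hint
  exact hN.trans (mul_le_mul' le_rfl hfinal)

/-- exponential decay of generalised null functions -/
theorem decay (F : Fam W D) (γ : Fin D.m → ℂ) (hγ : γ ∈ D.Γ) (r : ℝ) (hr : 0 ≤ r)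
    (hrC : r ≤ F.C0) (ξ : ℝ → ℂ) (hξ : D.Adm r ξ) (G : ℂ → ℂ) (hG : Rep G)
    (hfin : S2 (om F.R) G < ⊤) (hnull : ∀ z, actA D mu8 γ ξ G z = 0) :
    ∃ σ : ℝ, 0 < σ ∧ S2 (fun z => Real.exp (σ * ‖z‖)) G < ⊤ := by
  obtain ⟨σ, hσ, K, hK, HK⟩ := l11e_key F γ hγ r hr hrC ξ hξ G hG hfin hnull
  refine ⟨σ, hσ, lt_of_le_of_lt ?_ hK⟩
  set Y : ℂ → ℝ := fun z => Real.exp (σ * ‖z‖) with hY
  have hYc : Continuous Y := by fun_prop
  set Ω : ℕ → ℂ → ℝ := fun j z => Real.exp (σ * min ‖z‖ (2 * ((j : ℝ) + 1) - ‖z‖)) with hΩ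
  have hΩc : ∀ j, Continuous (Ω j) := by
    intro j; rw [hΩ]; fun_prop
  refine S2_fatou Y hYc.measurable (fun j z => ((Ω j z / Y z : ℝ) : ℂ) * G z) G K ?_ ?_ ?_
  · intro j
    have : Continuous fun z => Ω j z / Y z := (hΩc j).div hYc (fun z => (Real.exp_pos _).ne')
    exact (Complex.continuous_ofReal.comp this).mul hG.cont
  · intro z
    obtain ⟨j0, hj0⟩ := exists_nat_gt ‖z‖
    apply tendsto_nhds_of_eventually_eq
    filter_upwards [eventually_ge_atTop j0] with j hj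
    have hj1 : (j0 : ℝ) ≤ j := by exact_mod_cast hj
    have h1 : min ‖z‖ (2 * ((j : ℝ) + 1) - ‖z‖) = ‖z‖ := by
      apply min_eq_left; linarith
    have h2 : Ω j z / Y z = 1 := by
      rw [hΩ, hY]; simp only [h1]
      exact div_self (Real.exp_pos _).ne'
    simp only [h2]; simp
  · intro j
    rw [l11e_S2_weight_mul]
    have h1 : (fun z => Y z * (Ω j z / Y z)) = Ω j := by
      funext z
      have := (Real.exp_pos (σ * ‖z‖)).ne'
      rw [hY]; field_simp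
    rw [h1]
    exact HK ((j : ℝ) + 1) (by positivity)

end Pool.Agent.Helper84.HRT
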