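import Mathlib
import Pool.Agent.Helper84.HRT.DefsA
import Pool.Agent.Helper84.HRT.WA
import Pool.Agent.Helper84.HRT.WB

open MeasureTheory Complex Filter
open scoped ENNReal ComplexConjugate InnerProductSpace BigOperators Topology

namespace Pool.Agent.Helper84.HRT

variable {H : Type} [NormedAddCommGroup H] [InnerProductSpace ℂ H] [CompleteSpace H]

theorem mf_cont (W : Weyl H) (ψ : H) : Continuous (mf W ψ) := by
  have h : Continuous fun t : ℝ => W.U (node t) ψ := (W.cont ψ).comp node_cont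
  exact continuous_const.inner h

theorem mf_half (W : Weyl H) (ψ : H) (t : ℝ) : mf W ψ (t + 1 / 2) = conj (mf W ψ t) := by
  unfold mf
  rw [node_add_half, ← U_adj, inner_conj_symm]

theorem mf_norm_le (W : Weyl H) (ψ : H) (t : ℝ) : ‖mf W ψ t‖ ≤ ‖ψ‖ ^ 2 := by
  unfold mf
  refine (norm_inner_le_norm _ _).trans (le_of_eq ?_)
  rw [W.norm_U, sq]

private theorem l11f_chi (w α : ℂ) : conj (chi (-w) α) = chi w α := by
  unfold chi
  rw [← Complex.exp_conj]
  congr 1
  have h : (α * conj (-w)).im = -(α * conj w).im := by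
    rw [map_neg, mul_neg, neg_im]
  rw [h]
  simp only [map_mul, map_neg, conj_I, conj_ofReal]
  push_cast
  ring

theorem mf_U (W : Weyl H) (ψ : H) (w : ℂ) (t : ℝ) :
    mf W (W.U w ψ) t = chi w (node t) * mf W ψ t := by
  unfold mf
  rw [U_adj]
  have h : W.U (-w) (W.U (node t) (W.U w ψ)) = tr W (-w) (W.U (node t)) ψ := by
    change _ = W.U (-w) (W.U (node t) (W.U (- -w) ψ))
    rw [neg_neg]
  rw [h, tr_U, l11f_chi]
  change inner ℂ ψ (chi w (node t) • W.U (node t) ψ) = _
  rw [inner_smul_right]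

end Pool.Agent.Helper84.HRT
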