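import Mathlib
import Pool.Agent.Helper84.HRT.DefsA
import Pool.Agent.Helper84.HRT.WB
import Pool.Agent.Helper84.HRT.WD
import Pool.Agent.Helper84.HRT.YG

open MeasureTheory Complex Filter
open scoped ENNReal ComplexConjugate InnerProductSpace BigOperators Topology

namespace Pool.Agent.Helper84.HRT

variable {H : Type} [NormedAddCommGroup H] [InnerProductSpace ℂ H] [CompleteSpace H]

/-- the integrand of the double integral -/
private noncomputable def l11g_G (F : ℂ → ℂ) (α : ℂ) (p : ℂ × ℂ) : ℂ :=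
  conj (F p.2) * F p.1 * cexp (-((‖p.2‖ ^ 2 / 2 : ℝ) : ℂ) - ((‖p.1‖ ^ 2 / 2 : ℝ) : ℂ) - 1 / 2 +
    (p.2 + α) * conj p.1 - p.2 * α⁻¹)

/-- its derivative -/
private noncomputable def l11g_G' (F : ℂ → ℂ) (α : ℂ) (p : ℂ × ℂ) : ℂ :=
  l11g_G F α p * (conj p.1 + p.2 * (α ^ 2)⁻¹)

private theorem l11g_exp_int (σ : ℝ) (hσ : 0 < σ) :
    Integrable (fun z : ℂ => Real.exp (-(σ * ‖z‖))) dA := by
  have h1 : Integrable (fun z : ℂ => (1 + ‖z‖) ^ (-(4 : ℝ))) (volume : Measure ℂ) := by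
    apply integrable_one_add_norm
    rw [Complex.finrank_real_complex]
    norm_num
  obtain ⟨C, hC⟩ : ∃ C : ℝ, ∀ x : ℝ, 0 ≤ x → Real.exp (-(σ * x)) ≤ C * (1 + x) ^ (-(4 : ℝ)) := by
    refine ⟨(24 : ℝ) * Real.exp σ / σ ^ 4, fun x hx => ?_⟩
    have h2 : (σ * (1 + x)) ^ 4 / 24 ≤ Real.exp (σ * (1 + x)) := by
      have := Real.pow_div_factorial_le_exp (σ * (1 + x)) (by positivity) 4
      simpa [Nat.factorial] using this
    have h3 : (1 + x) ^ (-(4 : ℝ)) = ((1 + x) ^ 4)⁻¹ := by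
      rw [Real.rpow_neg (by positivity)]
      norm_cast
    rw [h3]
    have h4 : Real.exp (-(σ * x)) = Real.exp σ * (Real.exp (σ * (1 + x)))⁻¹ := by
      rw [← Real.exp_neg, ← Real.exp_add]
      congr 1
      ring
    rw [h4]
    have h5 : (Real.exp (σ * (1 + x)))⁻¹ ≤ ((σ * (1 + x)) ^ 4 / 24)⁻¹ :=
      inv_anti₀ (by positivity) h2
    calc Real.exp σ * (Real.exp (σ * (1 + x)))⁻¹ ≤ Real.exp σ * ((σ * (1 + x)) ^ 4 / 24)⁻¹ := by
          gcongr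
      _ = 24 * Real.exp σ / σ ^ 4 * ((1 + x) ^ 4)⁻¹ := by
          field_simp
  have h6 : Integrable (fun z : ℂ => Real.exp (-(σ * ‖z‖))) (volume : Measure ℂ) := by
    refine (h1.const_mul C).mono' (by fun_prop) (ae_of_all _ fun z => ?_)
    rw [Real.norm_eq_abs, abs_of_pos (Real.exp_pos _)]
    exact hC _ (norm_nonneg z)
  rw [dA]
  exact h6.smul_measure ENNReal.ofReal_ne_top

private theorem l11g_a_int (F : ℂ → ℂ) (hF : Continuous F) (σ : ℝ) (hσ : 0 < σ)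
    (h : S2 (fun z => Real.exp (σ * ‖z‖)) F < ⊤) :
    Integrable (fun z : ℂ => Real.exp (σ / 2 * ‖z‖) * ‖F z‖) dA := by
  have h1 := l11g_exp_int σ hσ
  have h2 : Integrable (fun z : ℂ => (Real.exp (σ * ‖z‖) * ‖F z‖) ^ 2) dA := by
    refine ⟨(by fun_prop : Continuous _).aestronglyMeasurable, ?_⟩
    unfold S2 at h
    refine lt_of_le_of_lt (le_of_eq ?_) h
    refine lintegral_congr fun z => ?_
    rw [← ofReal_norm, ← ofReal_norm, norm_pow, norm_mul, norm_mul, norm_norm, Complex.norm_real,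
      ENNReal.ofReal_pow (by positivity)]
  refine (h1.add h2).mono' (by fun_prop) (ae_of_all _ fun z => ?_)
  rw [Real.norm_eq_abs, abs_of_nonneg (by positivity)]
  simp only [Pi.add_apply]
  have h3 : Real.exp (σ / 2 * ‖z‖) * ‖F z‖ =
      Real.exp (-(σ / 2 * ‖z‖)) * (Real.exp (σ * ‖z‖) * ‖F z‖) := by
    rw [← mul_assoc, ← Real.exp_add]
    congr 2
    ring
  have h4 : Real.exp (-(σ * ‖z‖)) = Real.exp (-(σ / 2 * ‖z‖)) ^ 2 := by
    rw [← Real.exp_nat_mul]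
    congr 1
    push_cast
    ring
  rw [h3, h4]
  nlinarith [sq_nonneg (Real.exp (-(σ / 2 * ‖z‖)) - Real.exp (σ * ‖z‖) * ‖F z‖),
    sq_nonneg (Real.exp (-(σ / 2 * ‖z‖)) + Real.exp (σ * ‖z‖) * ‖F z‖)]

private theorem l11g_b_int :
    Integrable (fun x : ℂ => Real.exp (3 * ‖x‖ - ‖x‖ ^ 2 / 2)) dA := by
  refine ⟨(by fun_prop : Continuous _).aestronglyMeasurable, ?_⟩
  refine lt_of_le_of_lt (le_of_eq ?_) (gauss_fin 3 0)
  refine lintegral_congr fun x => ?_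
  rw [← ofReal_norm, Real.norm_eq_abs, abs_of_pos (Real.exp_pos _)]
  simp

private theorem l11g_norm (F : ℂ → ℂ) (α : ℂ) (p : ℂ × ℂ) (δ : ℝ)
    (h1 : ‖conj α - α⁻¹‖ ≤ δ) (h2 : ‖α‖ ≤ 2) :
    ‖l11g_G F α p‖ ≤ ‖F p.2‖ * ‖F p.1‖ *
      (Real.exp (2 * ‖p.1 - p.2‖ - ‖p.1 - p.2‖ ^ 2 / 2) * Real.exp (δ * ‖p.2‖)) := by
  unfold l11g_G
  rw [norm_mul, norm_mul, RCLike.norm_conj, Complex.norm_exp, ← Real.exp_add]
  gcongr
  have e1 : ‖p.1 - p.2‖ ^ 2 = ‖p.1‖ ^ 2 + ‖p.2‖ ^ 2 - 2 * (p.2 * conj p.1).re := by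
    rw [← Complex.normSq_eq_norm_sq, ← Complex.normSq_eq_norm_sq, ← Complex.normSq_eq_norm_sq,
      Complex.normSq_sub]
    simp [Complex.mul_re]
    ring
  have e2 : (α * conj p.1 - p.2 * α⁻¹).re ≤ 2 * ‖p.1 - p.2‖ + δ * ‖p.2‖ := by
    have e3 : α * conj p.1 - p.2 * α⁻¹ = α * conj (p.1 - p.2) + (α * conj p.2 - p.2 * α⁻¹) := by
      simp
      ring
    have e4 : (α * conj p.2 - p.2 * α⁻¹).re = (p.2 * (conj α - α⁻¹)).re := by
      simp [Complex.mul_re]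
      ring
    rw [e3, Complex.add_re, e4]
    have e5 : (α * conj (p.1 - p.2)).re ≤ 2 * ‖p.1 - p.2‖ := by
      refine (Complex.re_le_norm _).trans ?_
      rw [norm_mul, RCLike.norm_conj]
      gcongr
    have e6 : (p.2 * (conj α - α⁻¹)).re ≤ δ * ‖p.2‖ := by
      refine (Complex.re_le_norm _).trans ?_
      rw [norm_mul, mul_comm]
      gcongr
    linarith
  have e7 : (-((‖p.2‖ ^ 2 / 2 : ℝ) : ℂ) - ((‖p.1‖ ^ 2 / 2 : ℝ) : ℂ) - 1 / 2 +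
      (p.2 + α) * conj p.1 - p.2 * α⁻¹).re =
      -(‖p.2‖ ^ 2 / 2) - ‖p.1‖ ^ 2 / 2 - 1 / 2 + (p.2 * conj p.1).re +
        (α * conj p.1 - p.2 * α⁻¹).re := by
    rw [show (-((‖p.2‖ ^ 2 / 2 : ℝ) : ℂ) - ((‖p.1‖ ^ 2 / 2 : ℝ) : ℂ) - 1 / 2 +
      (p.2 + α) * conj p.1 - p.2 * α⁻¹) = -((‖p.2‖ ^ 2 / 2 : ℝ) : ℂ) - ((‖p.1‖ ^ 2 / 2 : ℝ) : ℂ)
        - ((1 / 2 : ℝ) : ℂ) + p.2 * conj p.1 + (α * conj p.1 - p.2 * α⁻¹) by push_cast; ring]
    simp only [Complex.add_re, Complex.sub_re, Complex.neg_re, Complex.ofReal_re]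
  rw [e7]
  nlinarith

/-- the unit circle thickened -/
private def l11g_S (δ : ℝ) : Set ℂ := {α | 1 / 2 < ‖α‖ ∧ ‖α‖ < 2 ∧ ‖conj α - α⁻¹‖ < δ}

private theorem l11g_open (δ : ℝ) : IsOpen (l11g_S δ) := by
  rw [isOpen_iff_mem_nhds]
  intro α hα
  have h0 : α ≠ 0 := by
    intro h
    have := hα.1
    rw [h, norm_zero] at this
    norm_num at this
  have c1 : ∀ᶠ β in 𝓝 α, 1 / 2 < ‖β‖ := continuous_norm.continuousAt.eventually_const_lt hα.1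
  have c2 : ∀ᶠ β in 𝓝 α, ‖β‖ < 2 := continuous_norm.continuousAt.eventually_lt_const hα.2.1
  have c3 : ∀ᶠ β in 𝓝 α, ‖conj β - β⁻¹‖ < δ := by
    have : ContinuousAt (fun β : ℂ => ‖conj β - β⁻¹‖) α :=
      ((Complex.continuous_conj.continuousAt).sub (continuousAt_inv₀ h0)).norm
    exact this.eventually_lt_const hα.2.2
  filter_upwards [c1, c2, c3] with β h1 h2 h3 using ⟨h1, h2, h3⟩

private theorem l11g_deriv (F : ℂ → ℂ) (α : ℂ) (hα : α ≠ 0) (p : ℂ × ℂ) :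
    HasDerivAt (fun β => l11g_G F β p) (l11g_G' F α p) α := by
  unfold l11g_G' l11g_G
  have h1 : HasDerivAt (fun β : ℂ => -((‖p.2‖ ^ 2 / 2 : ℝ) : ℂ) - ((‖p.1‖ ^ 2 / 2 : ℝ) : ℂ)
      - 1 / 2 + (p.2 + β) * conj p.1 - p.2 * β⁻¹) (conj p.1 + p.2 * (α ^ 2)⁻¹) α := by
    have a1 : HasDerivAt (fun β : ℂ => (p.2 + β) * conj p.1) (conj p.1) α := by
      simpa using ((hasDerivAt_id α).const_add p.2).mul_const (conj p.1)
    have a2 : HasDerivAt (fun β : ℂ => p.2 * β⁻¹) (p.2 * (-(α ^ 2)⁻¹)) α :=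
      (hasDerivAt_inv hα).const_mul p.2
    have a3 := (a1.const_add (-((‖p.2‖ ^ 2 / 2 : ℝ) : ℂ) - ((‖p.1‖ ^ 2 / 2 : ℝ) : ℂ)
      - 1 / 2)).sub a2
    have e : conj p.1 - p.2 * (-(α ^ 2)⁻¹) = conj p.1 + p.2 * (α ^ 2)⁻¹ := by ring
    rw [e] at a3
    exact a3
  have h2 := (h1.cexp).const_mul (conj (F p.2) * F p.1)
  rw [mul_assoc]
  exact h2

private theorem l11g_cont (F : ℂ → ℂ) (hF : Continuous F) (α : ℂ) :
    Continuous (l11g_G F α) := by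
  unfold l11g_G
  fun_prop

private theorem l11g_cont' (F : ℂ → ℂ) (hF : Continuous F) (α : ℂ) :
    Continuous (l11g_G' F α) := by
  unfold l11g_G'
  have := l11g_cont F hF α
  fun_prop

/-- dominating function -/
private noncomputable def l11g_B (F : ℂ → ℂ) (σ M : ℝ) (p : ℂ × ℂ) : ℝ :=
  (M * (1 + 20 / σ)) * ((Real.exp (σ / 2 * ‖p.2‖) * ‖F p.2‖) *
    Real.exp (3 * ‖p.1 - p.2‖ - ‖p.1 - p.2‖ ^ 2 / 2))

private theorem l11g_B_int (F : ℂ → ℂ) (hF : Continuous F) (σ : ℝ) (hσ : 0 < σ) (M : ℝ)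
    (h : S2 (fun z => Real.exp (σ * ‖z‖)) F < ⊤) :
    Integrable (l11g_B F σ M) (dA.prod dA) := by
  have h1 := (l11g_a_int F hF σ hσ h).convolution_integrand (ContinuousLinearMap.mul ℝ ℝ)
    l11g_b_int
  unfold l11g_B
  exact h1.const_mul _

private theorem l11g_bd (F : ℂ → ℂ) (σ : ℝ) (hσ : 0 < σ) (M : ℝ) (hM : ∀ z, ‖F z‖ ≤ M)
    (α : ℂ) (hα : α ∈ l11g_S (σ / 4)) (p : ℂ × ℂ) :
    ‖l11g_G' F α p‖ ≤ l11g_B F σ M p ∧ ‖l11g_G F α p‖ ≤ l11g_B F σ M p := by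
  have hM0 : 0 ≤ M := (norm_nonneg _).trans (hM 0)
  have h1 := l11g_norm F α p (σ / 4) hα.2.2.le hα.2.1.le
  have h2 : ‖conj p.1 + p.2 * (α ^ 2)⁻¹‖ ≤
      (1 + 20 / σ) * (Real.exp (‖p.1 - p.2‖) * Real.exp (σ / 4 * ‖p.2‖)) := by
    have a1 : ‖(α ^ 2)⁻¹‖ ≤ 4 := by
      rw [norm_inv, norm_pow]
      have : (1 / 2 : ℝ) ^ 2 ≤ ‖α‖ ^ 2 := by
        have := hα.1
        gcongr
      calc (‖α‖ ^ 2)⁻¹ ≤ ((1 / 2 : ℝ) ^ 2)⁻¹ := inv_anti₀ (by norm_num) this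
        _ = 4 := by norm_num
    have a2 : ‖conj p.1 + p.2 * (α ^ 2)⁻¹‖ ≤ ‖p.1 - p.2‖ + 5 * ‖p.2‖ := by
      calc ‖conj p.1 + p.2 * (α ^ 2)⁻¹‖ ≤ ‖conj p.1‖ + ‖p.2 * (α ^ 2)⁻¹‖ := norm_add_le _ _
        _ = ‖p.1‖ + ‖p.2‖ * ‖(α ^ 2)⁻¹‖ := by rw [RCLike.norm_conj, norm_mul]
        _ ≤ (‖p.1 - p.2‖ + ‖p.2‖) + ‖p.2‖ * 4 := by
            gcongr
            calc ‖p.1‖ = ‖(p.1 - p.2) + p.2‖ := by rw [sub_add_cancel]
              _ ≤ _ := norm_add_le _ _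
        _ = _ := by ring
    have a3 : ‖p.1 - p.2‖ ≤ Real.exp (‖p.1 - p.2‖) := by
      have := Real.add_one_le_exp (‖p.1 - p.2‖)
      linarith
    have a4 : 5 * ‖p.2‖ ≤ 20 / σ * Real.exp (σ / 4 * ‖p.2‖) := by
      have := Real.add_one_le_exp (σ / 4 * ‖p.2‖)
      have h5 : σ / 4 * ‖p.2‖ ≤ Real.exp (σ / 4 * ‖p.2‖) := by linarith
      calc 5 * ‖p.2‖ = 20 / σ * (σ / 4 * ‖p.2‖) := by field_simp; ring
        _ ≤ _ := by gcongr
    have a5 : 1 ≤ Real.exp (‖p.1 - p.2‖) := Real.one_le_exp (norm_nonneg _)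
    have a6 : 1 ≤ Real.exp (σ / 4 * ‖p.2‖) := Real.one_le_exp (by positivity)
    calc ‖conj p.1 + p.2 * (α ^ 2)⁻¹‖ ≤ ‖p.1 - p.2‖ + 5 * ‖p.2‖ := a2
      _ ≤ Real.exp (‖p.1 - p.2‖) * 1 + 1 * (20 / σ * Real.exp (σ / 4 * ‖p.2‖)) := by linarith
      _ ≤ Real.exp (‖p.1 - p.2‖) * Real.exp (σ / 4 * ‖p.2‖) +
          Real.exp (‖p.1 - p.2‖) * (20 / σ * Real.exp (σ / 4 * ‖p.2‖)) := by gcongr
      _ = _ := by ring
  have h3 : ‖F p.2‖ * ‖F p.1‖ *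
      (Real.exp (2 * ‖p.1 - p.2‖ - ‖p.1 - p.2‖ ^ 2 / 2) * Real.exp (σ / 4 * ‖p.2‖)) ≤
      ‖F p.2‖ * M *
      (Real.exp (2 * ‖p.1 - p.2‖ - ‖p.1 - p.2‖ ^ 2 / 2) * Real.exp (σ / 4 * ‖p.2‖)) := by
    gcongr
    exact hM _
  have e1 : Real.exp (2 * ‖p.1 - p.2‖ - ‖p.1 - p.2‖ ^ 2 / 2) * Real.exp (‖p.1 - p.2‖) =
      Real.exp (3 * ‖p.1 - p.2‖ - ‖p.1 - p.2‖ ^ 2 / 2) := by
    rw [← Real.exp_add]
    congr 1
    ring
  have e2 : Real.exp (σ / 4 * ‖p.2‖) * Real.exp (σ / 4 * ‖p.2‖) = Real.exp (σ / 2 * ‖p.2‖) := by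
    rw [← Real.exp_add]
    congr 1
    ring
  have h4 : ‖F p.2‖ * M *
      (Real.exp (2 * ‖p.1 - p.2‖ - ‖p.1 - p.2‖ ^ 2 / 2) * Real.exp (σ / 4 * ‖p.2‖)) *
      ((1 + 20 / σ) * (Real.exp (‖p.1 - p.2‖) * Real.exp (σ / 4 * ‖p.2‖))) = l11g_B F σ M p := by
    unfold l11g_B
    rw [← e1, ← e2]
    ring
  constructor
  · unfold l11g_G'
    rw [norm_mul, ← h4]
    exact mul_le_mul (h1.trans h3) h2 (norm_nonneg _) (by positivity)
  · refine (h1.trans h3).trans ?_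
    rw [← h4]
    refine le_mul_of_one_le_right (by positivity) ?_
    have a5 : 1 ≤ Real.exp (‖p.1 - p.2‖) := Real.one_le_exp (norm_nonneg _)
    have a6 : 1 ≤ Real.exp (σ / 4 * ‖p.2‖) := Real.one_le_exp (by positivity)
    have a7 : (0 : ℝ) ≤ 20 / σ := by positivity
    calc (1 : ℝ) = 1 * (1 * 1) := by ring
      _ ≤ (1 + 20 / σ) * (Real.exp (‖p.1 - p.2‖) * Real.exp (σ / 4 * ‖p.2‖)) := by
          gcongr
          linarith

private theorem l11g_diff (F : ℂ → ℂ) (hF : Continuous F) (σ : ℝ) (hσ : 0 < σ) (M : ℝ)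
    (hM : ∀ z, ‖F z‖ ≤ M) (h : S2 (fun z => Real.exp (σ * ‖z‖)) F < ⊤) :
    DifferentiableOn ℂ (fun α => ∫ p, l11g_G F α p ∂(dA.prod dA)) (l11g_S (σ / 4)) := by
  intro α hα
  have ho := l11g_open (σ / 4)
  have hint := l11g_B_int F hF σ hσ M h
  have h1 := hasDerivAt_integral_of_dominated_loc_of_deriv_le (μ := dA.prod dA)
    (F := fun α p => l11g_G F α p) (F' := fun α p => l11g_G' F α p) (x₀ := α)
    (s := l11g_S (σ / 4)) (bound := l11g_B F σ M) (ho.mem_nhds hα)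
    (Eventually.of_forall fun β => (l11g_cont F hF β).aestronglyMeasurable)
    (hint.mono' (l11g_cont F hF α).aestronglyMeasurable
      (ae_of_all _ fun p => (l11g_bd F σ hσ M hM α hα p).2))
    (l11g_cont' F hF α).aestronglyMeasurable
    (ae_of_all _ fun p β hβ => (l11g_bd F σ hσ M hM β hβ p).1) hint
    (ae_of_all _ fun p β hβ => l11g_deriv F β (by
      intro h0
      have := hβ.1
      rw [h0, norm_zero] at this
      norm_num at this) p)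
  exact h1.2.differentiableAt.differentiableWithinAt

private theorem l11g_node_mem (σ : ℝ) (hσ : 0 < σ) (t : ℝ) : node t ∈ l11g_S (σ / 4) := by
  have h1 : ‖node t‖ = 1 := by
    unfold node
    rw [Complex.norm_exp_ofReal_mul_I]
  have h2 : conj (node t) = (node t)⁻¹ := by
    rw [Complex.inv_def, Complex.normSq_eq_norm_sq, h1]
    simp
  refine ⟨by rw [h1]; norm_num, by rw [h1]; norm_num, ?_⟩
  rw [h2, sub_self, norm_zero]
  positivity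

private theorem l11g_mf (W : Weyl H) (ψ : H) (σ : ℝ) (hσ : 0 < σ)
    (h : S2 (fun z => Real.exp (σ * ‖z‖)) (W.V ψ) < ⊤) (t : ℝ) :
    mf W ψ t = ∫ p, l11g_G (W.V ψ) (node t) p ∂(dA.prod dA) := by
  have hc := V_cont W ψ
  have hmem := l11g_node_mem σ hσ t
  have hint : Integrable (l11g_G (W.V ψ) (node t)) (dA.prod dA) :=
    (l11g_B_int (W.V ψ) hc σ hσ ‖ψ‖ h).mono' (l11g_cont _ hc _).aestronglyMeasurable
      (ae_of_all _ fun p => (l11g_bd (W.V ψ) σ hσ ‖ψ‖ (norm_V_le W ψ) _ hmem p).2)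
  rw [integral_prod_symm _ hint]
  unfold mf
  rw [inner_eq]
  refine integral_congr_ae (ae_of_all _ fun z => ?_)
  simp only
  rw [V_U]
  unfold act
  rw [← (rep_V W ψ).rep (z + node t)]
  unfold Kop
  rw [← integral_const_mul, ← integral_const_mul]
  refine integral_congr_ae (ae_of_all _ fun ζ => ?_)
  simp only
  unfold l11g_G Kk
  have h1 : ‖node t‖ = 1 := by
    unfold node
    rw [Complex.norm_exp_ofReal_mul_I]
  have h2 : conj (node t) = (node t)⁻¹ := by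
    rw [Complex.inv_def, Complex.normSq_eq_norm_sq, h1]
    simp
  rw [← h2]
  generalize node t = α at *
  have key : cexp (((α * conj z).im : ℝ) * I) *
      cexp ((((z + α) * conj ζ).im : ℝ) * I - ((‖z + α - ζ‖ ^ 2 / 2 : ℝ) : ℂ)) =
      cexp (-((‖z‖ ^ 2 / 2 : ℝ) : ℂ) - ((‖ζ‖ ^ 2 / 2 : ℝ) : ℂ) - 1 / 2 +
        (z + α) * conj ζ - z * conj α) := by
    rw [← Complex.exp_add]
    congr 1
    have im1 : ∀ x : ℂ, ((x.im : ℝ) : ℂ) * I = (x - conj x) / 2 := by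
      intro x
      apply Complex.ext <;> simp
    have sq1 : ∀ x : ℂ, ((‖x‖ ^ 2 / 2 : ℝ) : ℂ) = x * conj x / 2 := by
      intro x
      rw [Complex.mul_conj, Complex.normSq_eq_norm_sq]
      push_cast
      ring
    have ha : α * conj α = 1 := by
      rw [Complex.mul_conj, Complex.normSq_eq_norm_sq, h1]
      simp
    rw [im1, im1, sq1, sq1, sq1]
    simp only [map_mul, map_add, map_sub, Complex.conj_conj]
    linear_combination (-1 / 2 : ℂ) * ha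
  calc conj (W.V ψ z) * (cexp (((α * conj z).im : ℝ) * I) *
        (cexp ((((z + α) * conj ζ).im : ℝ) * I - ((‖z + α - ζ‖ ^ 2 / 2 : ℝ) : ℂ)) * W.V ψ ζ))
      = conj (W.V ψ z) * W.V ψ ζ * (cexp (((α * conj z).im : ℝ) * I) *
        cexp ((((z + α) * conj ζ).im : ℝ) * I - ((‖z + α - ζ‖ ^ 2 / 2 : ℝ) : ℂ))) := by ring
    _ = _ := by rw [key]

/-- analyticity of the ambiguity function on the circle -/
theorem mf_analytic (W : Weyl H) (ψ : H) (σ : ℝ) (hσ : 0 < σ)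
    (h : S2 (fun z => Real.exp (σ * ‖z‖)) (W.V ψ) < ⊤) : AnalyticOn ℝ (mf W ψ) Set.univ := by
  have h1 := l11g_diff (W.V ψ) (V_cont W ψ) σ hσ ‖ψ‖ (norm_V_le W ψ) h
  have h2 : AnalyticOnNhd ℂ (fun α => ∫ p, l11g_G (W.V ψ) α p ∂(dA.prod dA)) (l11g_S (σ / 4)) :=
    h1.analyticOnNhd (l11g_open _)
  have h3 : ∀ t : ℝ, AnalyticAt ℝ node t := by
    intro t
    unfold node
    have a1 : AnalyticAt ℝ (fun s : ℝ => ((2 * Real.pi * s : ℝ) : ℂ) * I) t := by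
      have b1 : AnalyticAt ℝ (fun s : ℝ => 2 * Real.pi * s) t := by fun_prop
      have b2 : AnalyticAt ℝ (fun s : ℝ => ((2 * Real.pi * s : ℝ) : ℂ)) t :=
        (Complex.ofRealCLM.analyticAt (2 * Real.pi * t)).comp b1
      exact b2.mul analyticAt_const
    exact (analyticAt_cexp.restrictScalars).comp a1
  have h4 : mf W ψ = (fun α => ∫ p, l11g_G (W.V ψ) α p ∂(dA.prod dA)) ∘ node := by
    funext t
    exact l11g_mf W ψ σ hσ h t
  rw [h4]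
  intro t _
  have a2 := (h2 (node t) (l11g_node_mem σ hσ t)).restrictScalars (𝕜 := ℝ)
  exact (a2.comp (h3 t)).analyticWithinAt

end Pool.Agent.Helper84.HRT
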