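import Mathlib
import Pool.Agent.Helper84.HRT.DefsA
import Pool.Agent.Helper84.HRT.WA
import Pool.Agent.Helper84.HRT.WB
import Pool.Agent.Helper84.HRT.WD
import Pool.Agent.Helper84.HRT.XA
import Pool.Agent.Helper84.HRT.XB
import Pool.Agent.Helper84.HRT.XC
import Pool.Agent.Helper84.HRT.L11E
import Pool.Agent.Helper84.HRT.L11F
import Pool.Agent.Helper84.HRT.L11G

open MeasureTheory Complex Filter
open scoped ENNReal ComplexConjugate InnerProductSpace BigOperators Topology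

namespace Pool.Agent.Helper84.HRT

variable {H : Type} [NormedAddCommGroup H] [InnerProductSpace ℂ H] [CompleteSpace H]
variable {W : Weyl H} {D : Data}

private theorem l11h_shift {P : ℝ → Prop} (h : ∀ᵐ t : ℝ, P t) (a : ℝ) : ∀ᵐ t : ℝ, P (t + a) :=
  (measurePreserving_add_right (volume : Measure ℝ) a).quasiMeasurePreserving.ae h

private theorem l11h_all {P : ℝ → Prop} (h1 : ∀ᵐ t : ℝ, (P (t + 1 / 2) ↔ P t))
    (h2 : ∀ᵐ t : ℝ, t ∈ Set.Ico (0 : ℝ) 1 → P t) : ∀ᵐ t : ℝ, P t := by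
  have h3 : ∀ n : ℕ, ∀ᵐ t : ℝ, (P (t + (n : ℝ) / 2) ↔ P t) := by
    intro n
    induction n with
    | zero => exact ae_of_all _ fun t => by simp
    | succ n ih =>
      have := l11h_shift h1 ((n : ℝ) / 2)
      filter_upwards [this, ih] with t a b
      rw [← b, ← a]
      have : t + ((n + 1 : ℕ) : ℝ) / 2 = t + (n : ℝ) / 2 + 1 / 2 := by push_cast; ring
      rw [this]
  have h4 : ∀ n : ℕ, ∀ᵐ t : ℝ, (P (t - (n : ℝ)) ↔ P t) := by
    intro n
    have := l11h_shift (h3 (2 * n)) (-(n : ℝ))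
    filter_upwards [this] with t a
    have e : t + -(n : ℝ) + ((2 * n : ℕ) : ℝ) / 2 = t := by push_cast; ring
    rw [e] at a
    rw [sub_eq_add_neg]
    exact a.symm
  have h5 : ∀ n : ℕ, ∀ᵐ t : ℝ, (P (t + (n : ℝ)) ↔ P t) := by
    intro n
    filter_upwards [h3 (2 * n)] with t a
    have e : t + ((2 * n : ℕ) : ℝ) / 2 = t + (n : ℝ) := by push_cast; ring
    rw [e] at a
    exact a
  have h6 : ∀ᵐ t : ℝ, ∀ n : ℕ, (P (t - (n : ℝ)) ↔ P t) := ae_all_iff.2 h4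
  have h7 : ∀ᵐ t : ℝ, ∀ n : ℕ, (P (t + (n : ℝ)) ↔ P t) := ae_all_iff.2 h5
  have h8 : ∀ᵐ t : ℝ, ∀ n : ℤ, t + (n : ℝ) ∈ Set.Ico (0 : ℝ) 1 → P (t + (n : ℝ)) :=
    ae_all_iff.2 fun n => l11h_shift h2 (n : ℝ)
  filter_upwards [h6, h7, h8] with t a b c
  have d := c (-⌊t⌋) (by
    constructor
    · push_cast
      linarith [Int.floor_le t]
    · push_cast
      linarith [Int.lt_floor_add_one t])
  rcases Int.eq_nat_or_neg (-⌊t⌋) with ⟨n, hn | hn⟩
  · rw [hn] at d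
    exact (b n).1 (by exact_mod_cast d)
  · rw [hn] at d
    refine (a n).1 ?_
    have e : t + ((-(n : ℤ) : ℤ) : ℝ) = t - (n : ℝ) := by push_cast; ring
    rw [e] at d
    exact d

private theorem l11h_lim {x K : ℝ} (hK : 0 ≤ K) (h : ∀ s : ℝ, 0 < s → s ≤ 1 → -(s ^ 2 * K) ≤ s * x) :
    0 ≤ x := by
  by_contra hx
  push Not at hx
  set s := min 1 (-x / (2 * (K + 1))) with hs
  have h0 : 0 < s := lt_min one_pos (by apply div_pos <;> linarith)
  have h1 := h s h0 (min_le_left _ _)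
  have h2 : s ≤ -x / (2 * (K + 1)) := min_le_right _ _
  have h3 : s * K < -x := by
    calc s * K ≤ -x / (2 * (K + 1)) * K := by gcongr
      _ = -x * (K / (2 * (K + 1))) := by ring
      _ < -x * 1 := by
        apply mul_lt_mul_of_pos_left _ (by linarith)
        rw [div_lt_one (by linarith)]
        linarith
      _ = -x := by ring
  have h4 : -(s ^ 2 * K) - s * x = s * (-x - s * K) := by ring
  nlinarith [mul_pos h0 (by linarith : 0 < -x - s * K)]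

private theorem l11h_point {x y : ℂ} {a : ℝ} (hy : y ≠ 0) (h1 : ‖x‖ ≤ a)
    (h2 : (x * y).re = -(a * ‖y‖)) : x = -((a / ‖y‖ : ℝ) : ℂ) * conj y := by
  have hy' : 0 < ‖y‖ := norm_pos_iff.2 hy
  have h3 : ‖x * y‖ ≤ a * ‖y‖ := by
    rw [norm_mul]
    gcongr
  have h4 : (x * y).im = 0 := by
    have := Complex.normSq_apply (x * y)
    rw [Complex.normSq_eq_norm_sq] at this
    have h5 : ‖x * y‖ ^ 2 ≤ (a * ‖y‖) ^ 2 := by
      apply pow_le_pow_left₀ (norm_nonneg _) h3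
    have h6 : (x * y).im * (x * y).im ≤ 0 := by
      rw [h2] at this
      nlinarith
    nlinarith [mul_self_nonneg (x * y).im, sq_nonneg (x * y).im,
      mul_self_eq_zero.1 (le_antisymm h6 (mul_self_nonneg _))]
  have h7 : x * y = ((-(a * ‖y‖) : ℝ) : ℂ) := by
    apply Complex.ext
    · rw [h2, Complex.ofReal_re]
    · rw [h4, Complex.ofReal_im]
  have h8 : y * conj y = ((‖y‖ ^ 2 : ℝ) : ℂ) := by
    rw [Complex.mul_conj, Complex.normSq_eq_norm_sq]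
  have h9 : x * (y * conj y) = -((a / ‖y‖ : ℝ) : ℂ) * conj y * ((‖y‖ ^ 2 : ℝ) : ℂ) := by
    rw [← mul_assoc, h7]
    push_cast
    have : (‖y‖ : ℂ) ≠ 0 := by exact_mod_cast hy'.ne'
    field_simp
  rw [h8] at h9
  exact mul_right_cancel₀ (by exact_mod_cast (by positivity : (‖y‖ ^ 2 : ℝ) ≠ 0)) h9

/-- the optimal coefficient -/
private noncomputable def l11h_eta (F : Fam W D) (ψ : H) (t : ℝ) : ℂ :=
  -((F.r * D.κ t / ‖mf W ψ t‖ : ℝ) : ℂ) * conj (mf W ψ t)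

private theorem l11h_eta_norm (F : Fam W D) (ψ : H) (t : ℝ) :
    ‖l11h_eta F ψ t‖ ≤ F.r * D.κ t := by
  have h0 : 0 ≤ F.r * D.κ t := mul_nonneg F.r_pos.le (D.κ_nonneg t)
  unfold l11h_eta
  rw [norm_mul, norm_neg, RCLike.norm_conj, Complex.norm_real, Real.norm_eq_abs,
    abs_of_nonneg (div_nonneg h0 (norm_nonneg _))]
  by_cases h : ‖mf W ψ t‖ = 0
  · rw [h]
    simpa using h0
  · rw [div_mul_cancel₀ _ h]

private theorem l11h_eta_half (F : Fam W D) (ψ : H) (t : ℝ) :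
    l11h_eta F ψ (t + 1 / 2) = conj (l11h_eta F ψ t) := by
  unfold l11h_eta
  rw [mf_half, D.κ_per, RCLike.norm_conj, map_mul, map_neg, Complex.conj_ofReal]

private theorem l11h_eta_meas (F : Fam W D) (ψ : H) : Measurable (l11h_eta F ψ) := by
  have h1 : Measurable (mf W ψ) := (mf_cont W ψ).measurable
  have h2 := D.κ_meas
  unfold l11h_eta
  have h3 : Measurable fun t => F.r * D.κ t / ‖mf W ψ t‖ := (h2.const_mul _).div h1.norm
  have h4 : Measurable fun t => ((F.r * D.κ t / ‖mf W ψ t‖ : ℝ) : ℂ) :=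
    Complex.measurable_ofReal.comp h3
  have h5 : Measurable fun t => conj (mf W ψ t) := Complex.continuous_conj.measurable.comp h1
  exact h4.neg.mul h5

private theorem l11h_adm (F : Fam W D) (ψ : H) (ξ : ℝ → ℂ) (hξ : D.Adm F.r ξ) (s : ℝ)
    (h0 : 0 ≤ s) (h1 : s ≤ 1) :
    D.Adm F.r (fun t => ξ t + (s : ℂ) * (l11h_eta F ψ t - ξ t)) := by
  constructor
  · exact hξ.meas.add (((l11h_eta_meas F ψ).sub hξ.meas).const_mul _)
  · filter_upwards [hξ.sym] with t ht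
    rw [ht, l11h_eta_half]
    simp
  · filter_upwards [hξ.bd] with t ht
    have e : ξ t + (s : ℂ) * (l11h_eta F ψ t - ξ t) =
        ((1 - s : ℝ) : ℂ) * ξ t + ((s : ℝ) : ℂ) * l11h_eta F ψ t := by
      push_cast
      ring
    rw [e]
    calc ‖((1 - s : ℝ) : ℂ) * ξ t + ((s : ℝ) : ℂ) * l11h_eta F ψ t‖
        ≤ ‖((1 - s : ℝ) : ℂ) * ξ t‖ + ‖((s : ℝ) : ℂ) * l11h_eta F ψ t‖ := norm_add_le _ _
      _ = (1 - s) * ‖ξ t‖ + s * ‖l11h_eta F ψ t‖ := by
          rw [norm_mul, norm_mul, Complex.norm_real, Complex.norm_real, Real.norm_eq_abs,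
            Real.norm_eq_abs, abs_of_nonneg h0, abs_of_nonneg (by linarith)]
      _ ≤ (1 - s) * (F.r * D.κ t) + s * (F.r * D.κ t) := by
          have h5 : 0 ≤ 1 - s := by linarith
          gcongr
          exact l11h_eta_norm F ψ t
      _ = F.r * D.κ t := by ring

private theorem l11h_finite (F : Fam W D) (γ : Fin D.m → ℂ) (hγ : γ ∈ D.Γ) (ξ : ℝ → ℂ)
    (hξ : D.Adm F.r ξ) (ψ : H) (hψ : ψ ≠ 0) (hnull : Aop W D mu8 γ ξ ψ = 0)
    (ha : AnalyticOn ℝ (mf W ψ) Set.univ) :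
    ({t : ℝ | mf W ψ t = 0} ∩ Set.Icc 0 1).Finite := by
  by_contra hinf
  have hinf' : ({t : ℝ | mf W ψ t = 0} ∩ Set.Icc 0 1).Infinite := hinf
  obtain ⟨x, hx, hacc⟩ := hinf'.exists_accPt_of_subset_isCompact isCompact_Icc
    Set.inter_subset_right
  have h1 : ∃ᶠ y in 𝓝[≠] x, mf W ψ y = 0 := by
    rw [accPt_iff_frequently] at hacc
    rw [frequently_nhdsWithin_iff]
    refine hacc.mono ?_
    rintro y ⟨hy, hy'⟩
    exact ⟨hy'.1, hy⟩
  have ha' : AnalyticOnNhd ℝ (mf W ψ) Set.univ := by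
    rwa [← isOpen_univ.analyticOn_iff_analyticOnNhd]
  have h2 : Set.EqOn (mf W ψ) 0 Set.univ :=
    ha'.eqOn_zero_of_preconnected_of_frequently_eq_zero isPreconnected_univ (Set.mem_univ x) h1
  have h3 := F.null γ hγ ξ hξ ψ hnull
  rw [inner_XL W (Adm.bd8 hξ F.r_pos.le)] at h3
  have h4 : ∫ t, ξ t * inner ℂ ψ (W.U (node t) ψ) ∂mu8 = 0 := by
    have : ∀ t, ξ t * inner ℂ ψ (W.U (node t) ψ) = 0 := by
      intro t
      have := h2 (Set.mem_univ t)
      unfold mf at this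
      simp only [Pi.zero_apply] at this
      rw [this, mul_zero]
    simp [this]
  rw [h4] at h3
  have h5 : 0 < ‖ψ‖ := norm_pos_iff.2 hψ
  have := F.c_pos
  simp only [Complex.zero_re] at h3
  nlinarith [mul_pos this (pow_pos h5 2)]

private theorem l11h_key (F : Fam W D) (γ : Fin D.m → ℂ) (hγ : γ ∈ D.Γ) (ξ : ℝ → ℂ)
    (hξ : D.Adm F.r ξ) (ψ : H) (hnull : Aop W D mu8 γ ξ ψ = 0) :
    0 ≤ (∫ t, (l11h_eta F ψ t - ξ t) * mf W ψ t ∂mu8).re := by
  have hr := F.r_pos.le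
  have hb1 : Bd mu8 F.r ξ := Adm.bd8 hξ hr
  have hadm1 := l11h_adm F ψ ξ hξ 1 zero_le_one le_rfl
  have hb2 : Bd mu8 F.r (fun t => ξ t + ((1 : ℝ) : ℂ) * (l11h_eta F ψ t - ξ t)) :=
    Adm.bd8 hadm1 hr
  have hb3 : Bd mu8 (F.r + F.r) (fun t => l11h_eta F ψ t - ξ t) := by
    refine ⟨(l11h_eta_meas F ψ).sub hξ.meas, ?_⟩
    filter_upwards [hb1.bd, hb2.bd] with t h1 h2
    have e : l11h_eta F ψ t - ξ t =
        (ξ t + ((1 : ℝ) : ℂ) * (l11h_eta F ψ t - ξ t)) - ξ t := by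
      push_cast
      ring
    rw [e]
    exact (norm_sub_le _ _).trans (add_le_add h2 h1)
  have hb4 : ∀ s : ℝ, Bd mu8 (|s| * (F.r + F.r)) (fun t => (s : ℂ) * (l11h_eta F ψ t - ξ t)) := by
    intro s
    refine ⟨hb3.meas.const_mul _, ?_⟩
    filter_upwards [hb3.bd] with t h1
    rw [norm_mul, Complex.norm_real, Real.norm_eq_abs]
    gcongr
  set X := XL W mu8 (fun t => l11h_eta F ψ t - ξ t) with hX
  have hAs : ∀ s : ℝ, Aop W D mu8 γ (fun t => ξ t + (s : ℂ) * (l11h_eta F ψ t - ξ t)) ψ =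
      (s : ℂ) • X ψ := by
    intro s
    unfold Aop
    rw [XL_add W hb1 (hb4 s), XL_smul W hb3, ← add_assoc]
    have : (Bop W D γ + XL W mu8 ξ) ψ = 0 := hnull
    rw [add_apply, this, zero_add]
    rfl
  have hin : ∫ t, (l11h_eta F ψ t - ξ t) * mf W ψ t ∂mu8 = inner ℂ ψ (X ψ) := by
    rw [hX, inner_XL W hb3]
    rfl
  rw [hin]
  refine l11h_lim (K := ‖X ψ‖ ^ 2 / F.k0) (div_nonneg (sq_nonneg _) F.k0_pos.le) ?_
  intro s h0 h1
  have h2 := F.AI γ hγ _ (l11h_adm F ψ ξ hξ s h0.le h1) ψ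
  rw [hAs s, norm_smul, Complex.norm_real, Real.norm_eq_abs, abs_of_pos h0, inner_smul_right,
    Complex.re_ofReal_mul] at h2
  calc -(s ^ 2 * (‖X ψ‖ ^ 2 / F.k0)) = -((s * ‖X ψ‖) ^ 2 / F.k0) := by ring
    _ ≤ _ := h2

private theorem l11h_phase (F : Fam W D) (γ : Fin D.m → ℂ) (hγ : γ ∈ D.Γ) (ξ : ℝ → ℂ)
    (hξ : D.Adm F.r ξ) (ψ : H) (hnull : Aop W D mu8 γ ξ ψ = 0)
    (hfin : ({t : ℝ | mf W ψ t = 0} ∩ Set.Icc 0 1).Finite) :
    ∀ᵐ t : ℝ, ξ t = l11h_eta F ψ t := by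
  have hr := F.r_pos.le
  have hmc := mf_cont W ψ
  have key := l11h_key F γ hγ ξ hξ ψ hnull
  have hb1 : Bd mu8 F.r ξ := Adm.bd8 hξ hr
  have hmu : ∀ {P : ℝ → Prop}, (∀ᵐ t : ℝ, P t) → ∀ᵐ t ∂mu8, P t := by
    intro P h
    exact ae_restrict_of_ae h
  have hbd : ∀ᵐ t ∂mu8, ‖ξ t‖ ≤ F.r * D.κ t := hmu hξ.bd
  have hmeas : AEStronglyMeasurable (fun t => (l11h_eta F ψ t - ξ t) * mf W ψ t) mu8 :=
    (((l11h_eta_meas F ψ).sub hξ.meas).mul hmc.measurable).aestronglyMeasurable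
  have hint : Integrable (fun t => (l11h_eta F ψ t - ξ t) * mf W ψ t) mu8 := by
    have := mu8_prob
    refine (integrable_const ((F.r + F.r) * ‖ψ‖ ^ 2)).mono' hmeas ?_
    filter_upwards [hb1.bd] with t h1
    rw [norm_mul]
    have h2 : ‖l11h_eta F ψ t‖ ≤ F.r := by
      refine (l11h_eta_norm F ψ t).trans ?_
      exact mul_le_of_le_one_right hr (D.κ_le t)
    exact mul_le_mul ((norm_sub_le _ _).trans (add_le_add h2 h1)) (mf_norm_le W ψ t)
      (norm_nonneg _) (by positivity)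
  have hpt : ∀ t, ‖ξ t‖ ≤ F.r * D.κ t →
      (l11h_eta F ψ t * mf W ψ t).re = -(F.r * D.κ t * ‖mf W ψ t‖) := by
    intro t _
    unfold l11h_eta
    rw [mul_assoc, mul_comm (conj (mf W ψ t)), Complex.mul_conj, Complex.normSq_eq_norm_sq,
      ← Complex.ofReal_neg, ← Complex.ofReal_mul, Complex.ofReal_re]
    by_cases h : ‖mf W ψ t‖ = 0
    · rw [h]
      simp
    · field_simp
  have hre : 0 ≤ ∫ t, ((l11h_eta F ψ t - ξ t) * mf W ψ t).re ∂mu8 := by
    have := integral_re hint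
    simp only [RCLike.re_eq_complex_re] at this
    rw [this]
    exact key
  have hnn : 0 ≤ᵐ[mu8] fun t => -((l11h_eta F ψ t - ξ t) * mf W ψ t).re := by
    filter_upwards [hbd] with t h1
    simp only [Pi.zero_apply]
    rw [sub_mul, Complex.sub_re, hpt t h1]
    have h2 : -(ξ t * mf W ψ t).re ≤ F.r * D.κ t * ‖mf W ψ t‖ := by
      have h3 := (abs_le.1 (Complex.abs_re_le_norm (ξ t * mf W ψ t))).1
      rw [norm_mul] at h3
      have h4 : ‖ξ t‖ * ‖mf W ψ t‖ ≤ F.r * D.κ t * ‖mf W ψ t‖ := by gcongr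
      linarith
    linarith
  have hi0 : ∫ t, -((l11h_eta F ψ t - ξ t) * mf W ψ t).re ∂mu8 = 0 := by
    apply le_antisymm
    · rw [integral_neg]
      linarith
    · exact integral_nonneg_of_ae hnn
  have hz : (fun t => -((l11h_eta F ψ t - ξ t) * mf W ψ t).re) =ᵐ[mu8] 0 := by
    rwa [integral_eq_zero_iff_of_nonneg_ae hnn hint.re.neg] at hi0
  have hm0 : ∀ᵐ t ∂mu8, mf W ψ t ≠ 0 := by
    rw [mu8, ae_restrict_iff' measurableSet_Ico]
    have : volume ({t : ℝ | mf W ψ t = 0} ∩ Set.Icc 0 1) = 0 := hfin.measure_zero _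
    rw [ae_iff]
    refine measure_mono_null ?_ this
    intro t ht
    simp only [Set.mem_ofPred_eq] at ht
    push Not at ht
    exact ⟨ht.2, ht.1.1, ht.1.2.le⟩
  have hae : ∀ᵐ t ∂mu8, ξ t = l11h_eta F ψ t := by
    filter_upwards [hbd, hz, hm0] with t h1 h2 h3
    simp only [Pi.zero_apply] at h2
    rw [sub_mul, Complex.sub_re, hpt t h1] at h2
    have h4 : (ξ t * mf W ψ t).re = -(F.r * D.κ t * ‖mf W ψ t‖) := by linarith
    exact l11h_point h3 h1 h4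
  rw [mu8, ae_restrict_iff' measurableSet_Ico] at hae
  refine l11h_all (P := fun t => ξ t = l11h_eta F ψ t) ?_ hae
  filter_upwards [hξ.sym] with t ht
  rw [ht, l11h_eta_half]
  exact (starRingEnd ℂ).injective.eq_iff

/-- optimality of null vectors at the touching radius -/
theorem opt_of_null (F : Fam W D) (γ : Fin D.m → ℂ) (hγ : γ ∈ D.Γ) (ξ : ℝ → ℂ)
    (hξ : D.Adm F.r ξ) (ψ : H) (hψ : ψ ≠ 0) (hnull : Aop W D mu8 γ ξ ψ = 0) :
    F.Opt γ ξ ψ := by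
  have hr := F.r_pos.le
  have hb1 : Bd mu8 F.r ξ := Adm.bd8 hξ hr
  have hdec : ∃ σ : ℝ, 0 < σ ∧ S2 (fun z => Real.exp (σ * ‖z‖)) (W.V ψ) < ⊤ := by
    refine decay F γ hγ F.r hr F.r_le ξ hξ (W.V ψ) (rep_V W ψ) ?_ ?_
    · refine lt_of_le_of_lt ?_ (S2_V W ψ ▸ ENNReal.ofReal_lt_top :
        S2 (fun _ => 1) (W.V ψ) < ⊤)
      unfold S2
      refine lintegral_mono fun z => ?_
      gcongr
      rw [enorm_mul, enorm_mul]
      gcongr
      rw [← ofReal_norm, ← ofReal_norm]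
      apply ENNReal.ofReal_le_ofReal
      rw [Complex.norm_real, Complex.norm_real, Real.norm_eq_abs, Real.norm_eq_abs, abs_one]
      unfold om
      have hR : 0 ≤ F.R := by linarith [F.R_ge]
      have h1 : 1 ≤ 1 + ‖z‖ / F.R := by
        have : 0 ≤ ‖z‖ / F.R := by positivity
        linarith
      rw [abs_of_nonneg (by positivity)]
      exact inv_le_one_of_one_le₀ (one_le_pow₀ h1)
    · intro z
      rw [← V_Aop W hb1 D γ ψ z, hnull]
      unfold Weyl.V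
      simp
  obtain ⟨σ, hσ, hS⟩ := hdec
  have hfin := l11h_finite F γ hγ ξ hξ ψ hψ hnull (mf_analytic W ψ σ hσ hS)
  exact ⟨hγ, hξ, hψ, hnull, ⟨σ, hσ, hS⟩, hfin, l11h_phase F γ hγ ξ hξ ψ hnull hfin⟩

end Pool.Agent.Helper84.HRT
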