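import Mathlib
import Pool.Agent.Helper84.HRT.DefsA

open MeasureTheory Complex Filter
open scoped ENNReal ComplexConjugate InnerProductSpace BigOperators Topology

namespace Pool.Agent.Helper84.HRT

variable {H : Type} [NormedAddCommGroup H] [InnerProductSpace ℂ H] [CompleteSpace H]

private theorem ws2_norm_sub_sq (a b : ℂ) :
    ‖a - b‖ ^ 2 = ‖a‖ ^ 2 - 2 * (conj b * a).re + ‖b‖ ^ 2 := by
  rw [← Complex.normSq_eq_norm_sq, ← Complex.normSq_eq_norm_sq, ← Complex.normSq_eq_norm_sq,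
    Complex.normSq_sub]
  rw [mul_comm (conj b) a]
  ring

private theorem ws2_aux (D : Data) {a b : ℝ} (ha : 0 ≤ a) (hb : 0 ≤ b) {ξ ξ' : ℝ → ℂ}
    (h : D.Adm a ξ) (h' : D.Adm b ξ') : Integrable (fun t => conj (ξ t) * ξ' t) mu8 := by
  have hfin : IsFiniteMeasure mu8 := by
    unfold mu8; infer_instance
  refine Integrable.of_bound (C := a * b) ?_ ?_
  · exact ((Complex.continuous_conj.measurable.comp h.meas).mul h'.meas).aestronglyMeasurable
  · have e1 : ∀ᵐ t ∂mu8, ‖ξ t‖ ≤ a * D.κ t := ae_restrict_of_ae h.bd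
    have e2 : ∀ᵐ t ∂mu8, ‖ξ' t‖ ≤ b * D.κ t := ae_restrict_of_ae h'.bd
    filter_upwards [e1, e2] with t h1 h2
    rw [norm_mul, Complex.norm_conj]
    have k0 := D.κ_nonneg t
    have k1 := D.κ_le t
    calc ‖ξ t‖ * ‖ξ' t‖ ≤ (a * D.κ t) * (b * D.κ t) :=
          mul_le_mul h1 h2 (norm_nonneg _) (mul_nonneg ha k0)
      _ ≤ (a * 1) * (b * 1) := by
          refine mul_le_mul (mul_le_mul_of_nonneg_left k1 ha) (mul_le_mul_of_nonneg_left k1 hb)
            (mul_nonneg hb k0) (by simpa using ha)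
      _ = a * b := by ring

/-- weak convergence plus convergence of the radii to full modulus gives strong convergence -/
theorem strong_of_weak (D : Data) (ξ : ℕ → ℝ → ℂ) (ρ : ℕ → ℝ) (r : ℝ) (ξ0 : ℝ → ℂ)
    (hρ0 : ∀ j, 0 ≤ ρ j) (hξ : ∀ j, D.Adm (ρ j) (ξ j)) (hρ : Tendsto ρ atTop (𝓝 r))
    (hw : ∀ h : ℝ → ℂ, Integrable h mu8 →
      Tendsto (fun j => ∫ t, h t * ξ j t ∂mu8) atTop (𝓝 (∫ t, h t * ξ0 t ∂mu8)))
    (h0 : D.Adm r ξ0) (hfull : ∀ᵐ t : ℝ, ‖ξ0 t‖ = r * D.κ t) :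
    Tendsto (fun j => ∫⁻ t in Set.Ico (0 : ℝ) 1, ‖ξ j t - ξ0 t‖ₑ ^ 2) atTop (𝓝 0) := by
  have hfin : IsFiniteMeasure mu8 := by
    unfold mu8; infer_instance
  have hr : 0 ≤ r := ge_of_tendsto' hρ hρ0
  have hk : Integrable (fun t => D.κ t ^ 2) mu8 := by
    refine Integrable.of_bound (C := 1) (D.κ_meas.pow_const 2).aestronglyMeasurable ?_
    refine Eventually.of_forall fun t => ?_
    have k0 := D.κ_nonneg t
    have k1 := D.κ_le t
    rw [Real.norm_eq_abs, abs_of_nonneg (sq_nonneg _)]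
    nlinarith
  set K : ℝ := ∫ t, D.κ t ^ 2 ∂mu8 with hK
  have hfull' : ∀ᵐ t ∂mu8, ‖ξ0 t‖ = r * D.κ t := ae_restrict_of_ae hfull
  -- the weak limit
  have hint0 : Integrable (fun t => conj (ξ0 t)) mu8 := by
    refine Integrable.of_bound (C := r)
      (Complex.continuous_conj.measurable.comp h0.meas).aestronglyMeasurable ?_
    filter_upwards [hfull'] with t ht
    rw [Complex.norm_conj, ht]
    have k1 := D.κ_le t
    nlinarith
  have hlim := hw _ hint0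
  have hval : (∫ t, conj (ξ0 t) * ξ0 t ∂mu8) = ((r ^ 2 * K : ℝ) : ℂ) := by
    have e1 : (∫ t, conj (ξ0 t) * ξ0 t ∂mu8) = ∫ t, ((r ^ 2 * D.κ t ^ 2 : ℝ) : ℂ) ∂mu8 := by
      refine integral_congr_ae ?_
      filter_upwards [hfull'] with t ht
      rw [← Complex.normSq_eq_conj_mul_self, Complex.normSq_eq_norm_sq, ht, mul_pow]
    rw [e1, integral_complex_ofReal, integral_const_mul]
  rw [hval] at hlim
  have hre : Tendsto (fun j => (∫ t, conj (ξ0 t) * ξ j t ∂mu8).re) atTop (𝓝 (r ^ 2 * K)) := by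
    have := (Complex.continuous_re.tendsto _).comp hlim
    rw [Complex.ofReal_re] at this
    exact this
  have hup : Tendsto (fun j => ρ j ^ 2 * K - 2 * (∫ t, conj (ξ0 t) * ξ j t ∂mu8).re + r ^ 2 * K)
      atTop (𝓝 0) := by
    have h1 := (((hρ.pow 2).mul_const K).sub (hre.const_mul 2)).add_const (r ^ 2 * K)
    have e : r ^ 2 * K - 2 * (r ^ 2 * K) + r ^ 2 * K = 0 := by ring
    rw [e] at h1
    exact h1
  have hintj : ∀ j, Integrable (fun t => conj (ξ0 t) * ξ j t) mu8 := fun j =>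
    ws2_aux D hr (hρ0 j) h0 (hξ j)
  have hintre : ∀ j, Integrable (fun t => (conj (ξ0 t) * ξ j t).re) mu8 := fun j => (hintj j).re
  have hmaj : ∀ j, Integrable (fun t => ρ j ^ 2 * D.κ t ^ 2 - 2 * (conj (ξ0 t) * ξ j t).re
      + r ^ 2 * D.κ t ^ 2) mu8 := fun j =>
    ((hk.const_mul _).sub ((hintre j).const_mul 2)).add (hk.const_mul _)
  have hpt : ∀ j, ∀ᵐ t ∂mu8, ‖ξ j t - ξ0 t‖ ^ 2 ≤ ρ j ^ 2 * D.κ t ^ 2
      - 2 * (conj (ξ0 t) * ξ j t).re + r ^ 2 * D.κ t ^ 2 := by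
    intro j
    have e1 : ∀ᵐ t ∂mu8, ‖ξ j t‖ ≤ ρ j * D.κ t := ae_restrict_of_ae (hξ j).bd
    filter_upwards [e1, hfull'] with t h1 h2
    rw [ws2_norm_sub_sq, h2, mul_pow]
    have h3 : ‖ξ j t‖ ^ 2 ≤ (ρ j * D.κ t) ^ 2 := pow_le_pow_left₀ (norm_nonneg _) h1 2
    rw [mul_pow] at h3
    linarith
  have hmeas : ∀ j, AEStronglyMeasurable (fun t => ‖ξ j t - ξ0 t‖ ^ 2) mu8 := fun j =>
    (((hξ j).meas.sub h0.meas).norm.pow_const 2).aestronglyMeasurable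
  have hintd : ∀ j, Integrable (fun t => ‖ξ j t - ξ0 t‖ ^ 2) mu8 := by
    intro j
    refine (hmaj j).mono' (hmeas j) ?_
    filter_upwards [hpt j] with t ht
    rw [Real.norm_eq_abs, abs_of_nonneg (sq_nonneg _)]
    exact ht
  have hle : ∀ j, (∫ t, ‖ξ j t - ξ0 t‖ ^ 2 ∂mu8) ≤
      ρ j ^ 2 * K - 2 * (∫ t, conj (ξ0 t) * ξ j t ∂mu8).re + r ^ 2 * K := by
    intro j
    refine (integral_mono_ae (hintd j) (hmaj j) (hpt j)).trans (le_of_eq ?_)
    have h1 : Integrable (fun t => ρ j ^ 2 * D.κ t ^ 2) mu8 := hk.const_mul _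
    have h2 : Integrable (fun t => 2 * (conj (ξ0 t) * ξ j t).re) mu8 := (hintre j).const_mul 2
    have h3 : Integrable (fun t => r ^ 2 * D.κ t ^ 2) mu8 := hk.const_mul _
    have h12 : Integrable (fun t => ρ j ^ 2 * D.κ t ^ 2 - 2 * (conj (ξ0 t) * ξ j t).re) mu8 :=
      h1.sub h2
    rw [integral_add h12 h3, integral_sub h1 h2, integral_const_mul, integral_const_mul,
      integral_const_mul]
    have h4 : ∫ t, (conj (ξ0 t) * ξ j t).re ∂mu8 = (∫ t, conj (ξ0 t) * ξ j t ∂mu8).re :=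
      integral_re (hintj j)
    rw [h4]
  have hsq : Tendsto (fun j => ∫ t, ‖ξ j t - ξ0 t‖ ^ 2 ∂mu8) atTop (𝓝 0) :=
    squeeze_zero (fun j => integral_nonneg fun t => sq_nonneg _) hle hup
  have hfinal : ∀ j, (∫⁻ t in Set.Ico (0 : ℝ) 1, ‖ξ j t - ξ0 t‖ₑ ^ 2) =
      ENNReal.ofReal (∫ t, ‖ξ j t - ξ0 t‖ ^ 2 ∂mu8) := by
    intro j
    rw [ofReal_integral_eq_lintegral_ofReal (hintd j) (Eventually.of_forall fun t => sq_nonneg _)]
    change (∫⁻ t, ‖ξ j t - ξ0 t‖ₑ ^ 2 ∂mu8) = _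
    refine lintegral_congr fun t => ?_
    rw [ENNReal.ofReal_pow (norm_nonneg _), ofReal_norm]
  simp only [hfinal]
  have := ENNReal.tendsto_ofReal hsq
  simpa using this

end Pool.Agent.Helper84.HRT
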