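import Mathlib
import Pool.Agent.Helper84.HRT.DefsA
import Pool.Agent.Helper84.HRT.WB
import Pool.Agent.Helper84.HRT.WC
import Pool.Agent.Helper84.HRT.WD
import Pool.Agent.Helper84.HRT.YG
import Pool.Agent.Helper84.HRT.YK
import Pool.Agent.Helper84.HRT.VS
import Pool.Agent.Helper84.HRT.XA
import Pool.Agent.Helper84.HRT.XC
import Pool.Agent.Helper84.HRT.XB
import Pool.Agent.Helper84.HRT.XD
import Pool.Agent.Helper84.HRT.L3B
import Pool.Agent.Helper84.HRT.L3C
import Pool.Agent.Helper84.HRT.WS1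
import Pool.Agent.Helper84.HRT.WS2
import Pool.Agent.Helper84.HRT.L11A
import Pool.Agent.Helper84.HRT.L11E
import Pool.Agent.Helper84.HRT.L11F
import Pool.Agent.Helper84.HRT.L11H

open MeasureTheory Complex Filter
open scoped ENNReal ComplexConjugate InnerProductSpace BigOperators Topology

namespace Pool.Agent.Helper84.HRT

variable {H : Type} [NormedAddCommGroup H] [InnerProductSpace ℂ H] [CompleteSpace H]
variable {W : Weyl H} {D : Data}

/-- the zero set of the ambiguity function of an optimal vector is null -/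
theorem lim_mf_ne (W : Weyl H) (ψ : H) (hfin : ({t : ℝ | mf W ψ t = 0} ∩ Set.Icc 0 1).Finite) :
    ∀ᵐ t : ℝ, mf W ψ t ≠ 0 := by
  have hper : ∀ t, mf W ψ (t + 1) = mf W ψ t := by
    intro t
    have h1 := mf_half W ψ (t + 1 / 2)
    have h2 := mf_half W ψ t
    rw [show t + 1 / 2 + 1 / 2 = t + 1 by ring] at h1
    rw [h1, h2]; simp
  have hperZ : ∀ (k : ℤ) t, mf W ψ (t + k) = mf W ψ t := by
    intro k
    induction k using Int.induction_on with
    | zero => intro t; simp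
    | succ i ih =>
      intro t
      have := ih t
      push_cast at this ⊢
      rw [← this, ← hper (t + i)]
      congr 1; ring
    | pred i ih =>
      intro t
      have h3 := ih t
      have h4 := hper (t + (-(i : ℝ) - 1))
      push_cast at h3 ⊢
      rw [← h3, ← h4]
      congr 1; ring
  have hsub : {t : ℝ | mf W ψ t = 0} ⊆
      ⋃ k : ℤ, (fun t : ℝ => t + k) '' ({t : ℝ | mf W ψ t = 0} ∩ Set.Icc 0 1) := by
    intro t ht
    refine Set.mem_iUnion.2 ⟨⌊t⌋, Int.fract t, ⟨?_, ?_⟩, ?_⟩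
    · show mf W ψ (Int.fract t) = 0
      rw [← hperZ ⌊t⌋ (Int.fract t)]
      rw [Int.fract_add_floor]; exact ht
    · exact ⟨Int.fract_nonneg t, (Int.fract_lt_one t).le⟩
    · exact Int.fract_add_floor t
  have hc : ({t : ℝ | mf W ψ t = 0}).Countable := by
    refine Set.Countable.mono hsub (Set.countable_iUnion fun k => ?_)
    exact (hfin.image _).countable
  have h0 := hc.measure_zero volume
  exact measure_eq_zero_iff_ae_notMem.1 h0

theorem LIM (F : Fam W D) (n : ℕ → ℕ) (hn : Tendsto n atTop atTop) (hn1 : ∀ j, F.n1 ≤ n j)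
    (δ : ℕ → ℝ) (hδ0 : ∀ j, 0 ≤ δ j) (hδ : Tendsto δ atTop (𝓝 0)) (w : ℕ → ℂ) (g : ℕ → H)
    (hc : ∀ j, F.Ctr (n j) (δ j) (w j) (g j)) (h1 : ∀ j, S2 (om F.R) (W.V (g j)) = 1) :
    ∃ φ : ℕ → ℕ, StrictMono φ ∧ ∃ γ ξ ψ, F.Lim (n ∘ φ) (w ∘ φ) (g ∘ φ) γ ξ ψ := by
  have hR := F.R_ge
  -- the twisted data
  set Γs : ℕ → Fin D.m → ℂ := fun j => D.tw (w j) (F.γs (n j)) with hΓs
  set Ξ : ℕ → ℝ → ℂ := fun j => twN (D.NN (n j)) (w j) (F.ξs (n j)) with hΞ
  have hΞN : ∀ j, D.AdmN (D.NN (n j)) (F.rs (n j)) (Ξ j) := fun j =>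
    AdmN.twN (NN_pos D _) (NN_even D _) (F.ξs_adm _ (hn1 j)) (w j)
  have hΞA : ∀ j, D.Adm (F.rs (n j)) (Ξ j) := fun j =>
    AdmN.adm (NN_pos D _) (hΞN j) (F.rs_nonneg _)
  have hΓm : ∀ j, Γs j ∈ D.Γ := fun j => tw_mem (F.γs_mem _ (hn1 j)) (w j)
  have hT : ∀ j, tr W (w j) (F.A (n j)) = Aop W D (muN (D.NN (n j))) (Γs j) (Ξ j) := fun j =>
    tr_AopN W D (NN_pos D _) (step_meas _ (F.ξs_adm _ (hn1 j)).step) _ _
  -- subsequences
  obtain ⟨φ1, hφ1, G0, hG0, hG0le, hG0lim⟩ := L3b F.R hR (fun j => W.V (g j))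
    (fun j => rep_V W (g j)) 1 (fun j => by simp [h1 j])
  obtain ⟨γ0, hγ0, φ2, hφ2, hγlim⟩ := D.Γ_compact.tendsto_subseq (fun j => hΓm (φ1 j))
  obtain ⟨r', hr', φ3, hφ3, hrlim⟩ := (isCompact_Icc (a := (0 : ℝ)) (b := F.C0)).tendsto_subseq
    (x := fun j => F.rs (n (φ1 (φ2 j)))) (fun j => ⟨F.rs_nonneg _, F.rs_le _⟩)
  obtain ⟨φ4, hφ4, ξ0, hξ0, hξlim⟩ := weakstar D (fun j => Ξ (φ1 (φ2 (φ3 j))))
    (fun j => F.rs (n (φ1 (φ2 (φ3 j))))) r' (fun j => F.rs_nonneg _) (fun j => hΞA _) hrlim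
  set φ : ℕ → ℕ := fun j => φ1 (φ2 (φ3 (φ4 j))) with hφ
  have hφm : StrictMono φ := hφ1.comp (hφ2.comp (hφ3.comp hφ4))
  have hφt : Tendsto φ atTop atTop := hφm.tendsto_atTop
  have h234 : Tendsto (fun j => φ2 (φ3 (φ4 j))) atTop atTop :=
    (hφ2.comp (hφ3.comp hφ4)).tendsto_atTop
  have h34 : Tendsto (fun j => φ3 (φ4 j)) atTop atTop := (hφ3.comp hφ4).tendsto_atTop
  have h4 : Tendsto φ4 atTop atTop := hφ4.tendsto_atTop
  have hvec : TendstoLocallyUniformly (fun j => W.V (g (φ j))) G0 atTop := by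
    intro u hu x
    obtain ⟨t, ht, h⟩ := hG0lim u hu x
    exact ⟨t, ht, h234.eventually h⟩
  have hbase : Tendsto (fun j => Γs (φ j)) atTop (𝓝 γ0) := hγlim.comp h34
  have hrad : Tendsto (fun j => F.rs (n (φ j))) atTop (𝓝 r') := hrlim.comp h4
  have hNt : Tendsto (fun j => D.NN (n (φ j))) atTop atTop :=
    (NN_tendsto D).comp (hn.comp hφt)
  -- norms of the limit
  have hVc : ∀ j, Continuous (W.V (g j)) := fun j => V_cont W (g j)
  have homm : ∀ j, S2 (omm F.R) (W.V (g (φ j))) ≤ ENNReal.ofReal 441 := by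
    intro j
    have := (hc (φ j)).tight
    rwa [h1, mul_one] at this
  have hone : S2 (om F.R) G0 = 1 := by
    have h := S2_tight F.R hR (fun j => W.V (g (φ j))) G0 441 (fun j => hVc _) hvec homm
    have h' : Tendsto (fun j => S2 (om F.R) (W.V (g (φ j)))) atTop (𝓝 1) := by
      simp only [h1]; exact tendsto_const_nhds
    exact tendsto_nhds_unique h h'
  have hptw : ∀ z, Tendsto (fun j => W.V (g (φ j)) z) atTop (𝓝 (G0 z)) := fun z =>
    hvec.tendsto_comp hG0.cont.continuousAt tendsto_const_nhds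
  have hommc : Measurable (omm F.R) := by
    unfold omm; fun_prop
  have htight : S2 (omm F.R) G0 ≤ ENNReal.ofReal 441 :=
    S2_fatou (omm F.R) hommc (fun j => W.V (g (φ j))) G0 _ (fun j => hVc _) hptw homm
  -- the null equation
  obtain ⟨CK, hCK, hK⟩ := Kop_pointwise
  have hnull : ∀ z, actA D mu8 γ0 ξ0 G0 z = 0 := by
    intro z
    have hlim := actN_tendsto D (fun j => D.NN (n (φ j))) (fun j => NN_pos D _) hNt
      (fun j => W.V (g (φ j))) G0 (fun j => hVc _) hG0.cont hvec (fun j => Γs (φ j)) γ0 hbase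
      (fun j => F.rs (n (φ j))) F.C0 (fun j => F.rs_nonneg _) (fun j => F.rs_le _)
      (fun j => Ξ (φ j)) ξ0 r' (fun j => hΞN _) hξ0 (fun h hh => hξlim h hh) z
    have heq : ∀ j, actA D (muN (D.NN (n (φ j)))) (Γs (φ j)) (Ξ (φ j)) (W.V (g (φ j))) z =
        W.V (tr W (w (φ j)) (F.A (n (φ j))) (g (φ j))) z := by
      intro j
      rw [hT, V_Aop W (AdmN.bdN (NN_pos D _) (hΞN _) (F.rs_nonneg _)) D]
    simp only [heq] at hlim
    have hzero : Tendsto (fun j => W.V (tr W (w (φ j)) (F.A (n (φ j))) (g (φ j))) z) atTop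
        (𝓝 0) := by
      have hom0 : 0 < om F.R z := (om_logLip hR).pos z
      have hb : ∀ j, ‖((om F.R z : ℝ) : ℂ) *
          W.V (tr W (w (φ j)) (F.A (n (φ j))) (g (φ j))) z‖ₑ ^ 2 ≤
          ENNReal.ofReal (CK * δ (φ j) ^ 2) := by
        intro j
        set v := tr W (w (φ j)) (F.A (n (φ j))) (g (φ j))
        have h2 := hK (om F.R) (W.V v) (om_logLip hR) (V_cont W v).aestronglyMeasurable z
        rw [(rep_V W v).rep z] at h2
        refine h2.trans ?_
        rw [ENNReal.ofReal_mul hCK.le]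
        gcongr
        have h3 := (hc (φ j)).small
        rwa [h1, mul_one] at h3
      have hδ' : Tendsto (fun j => ENNReal.ofReal (CK * δ (φ j) ^ 2)) atTop (𝓝 0) := by
        have : Tendsto (fun j => CK * δ (φ j) ^ 2) atTop (𝓝 (CK * 0 ^ 2)) :=
          ((hδ.comp hφt).pow 2).const_mul CK
        have h5 := ENNReal.tendsto_ofReal this
        simpa using h5
      have hsq := tendsto_of_tendsto_of_tendsto_of_le_of_le tendsto_const_nhds hδ'
        (fun j => zero_le) hb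
      -- from squares of enorms to the values
      have hreal : Tendsto (fun j => ‖((om F.R z : ℝ) : ℂ) *
          W.V (tr W (w (φ j)) (F.A (n (φ j))) (g (φ j))) z‖ ^ 2) atTop (𝓝 0) := by
        have h6 := (ENNReal.tendsto_toReal ENNReal.zero_ne_top).comp hsq
        refine (h6.congr fun j => ?_)
        simp [ENNReal.toReal_pow, toReal_enorm]
      have hn0 : Tendsto (fun j => ‖((om F.R z : ℝ) : ℂ) *
          W.V (tr W (w (φ j)) (F.A (n (φ j))) (g (φ j))) z‖) atTop (𝓝 0) := by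
        have h7 := hreal.sqrt
        rw [Real.sqrt_zero] at h7
        exact h7.congr fun j => Real.sqrt_sq (norm_nonneg _)
      have h8 : Tendsto (fun j => (om F.R z)⁻¹ * ‖((om F.R z : ℝ) : ℂ) *
          W.V (tr W (w (φ j)) (F.A (n (φ j))) (g (φ j))) z‖) atTop (𝓝 0) := by
        simpa using hn0.const_mul (om F.R z)⁻¹
      rw [tendsto_zero_iff_norm_tendsto_zero]
      refine h8.congr fun j => ?_
      rw [norm_mul, Complex.norm_real, Real.norm_of_nonneg hom0.le, ← mul_assoc,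
        inv_mul_cancel₀ hom0.ne', one_mul]
    exact tendsto_nhds_unique hlim hzero
  -- the limit is in H
  have hrr : 0 ≤ r' := hr'.1
  obtain ⟨σ, hσ, hexp⟩ := decay F γ0 hγ0 r' hrr hr'.2 ξ0 hξ0 G0 hG0
    (by rw [hone]; exact ENNReal.one_lt_top) hnull
  have hL2 : S2 (fun _ => 1) G0 < ⊤ := by
    refine lt_of_le_of_lt ?_ hexp
    unfold S2
    refine lintegral_mono fun z => ?_
    have : (1 : ℝ) ≤ Real.exp (σ * ‖z‖) := Real.one_le_exp (by positivity)
    gcongr ?_ ^ 2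
    rw [enorm_mul, enorm_mul]
    gcongr
    rw [← ofReal_norm, ← ofReal_norm, Complex.norm_real, Complex.norm_real]
    apply ENNReal.ofReal_le_ofReal
    rw [Real.norm_of_nonneg (by positivity), Real.norm_of_nonneg (by positivity)]
    exact this
  obtain ⟨ψ, hψ⟩ := exists_of_rep W G0 hG0 hL2
  have hψ0 : ψ ≠ 0 := by
    rintro rfl
    have : S2 (om F.R) (W.V (0 : H)) = 0 := by
      have h9 : ∀ z, W.V (0 : H) z = 0 := fun z => by simp [Weyl.V]
      simp [S2, h9]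
    rw [hψ, hone] at this
    exact one_ne_zero this
  have hAψ : Aop W D mu8 γ0 ξ0 ψ = 0 := by
    refine V_inj W _ fun z => ?_
    rw [V_Aop W (Adm.bd8 hξ0 hrr) D, hψ]
    exact hnull z
  -- the radius
  have hle1 : F.r ≤ r' := F.min r' γ0 ξ0 hrr hγ0 hξ0 ⟨ψ, hψ0, hAψ⟩
  have hle2 : r' ≤ F.r := by
    refine le_of_forall_pos_le_add fun ε hε => ?_
    obtain ⟨n0, hn0⟩ := F.rs_lim ε hε
    refine le_of_tendsto hrad ?_
    filter_upwards [(hn.comp hφt).eventually_ge_atTop n0] with j hj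
    exact hn0 _ hj
  have hreq : r' = F.r := le_antisymm hle2 hle1
  rw [hreq] at hξ0 hrad
  have hopt : F.Opt γ0 ξ0 ψ := opt_of_null F γ0 hγ0 ξ0 hξ0 ψ hψ0 hAψ
  have hfull : ∀ᵐ t : ℝ, ‖ξ0 t‖ = F.r * D.κ t := by
    filter_upwards [hopt.phase, lim_mf_ne W ψ hopt.fin] with t h1 h2
    rw [h1, norm_mul, norm_neg, Complex.norm_real, RCLike.norm_conj,
      Real.norm_of_nonneg (by have := D.κ_nonneg t; have := F.r_pos; positivity)]
    field_simp
  have hcoef := strong_of_weak D (fun j => Ξ (φ j)) (fun j => F.rs (n (φ j))) F.r ξ0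
    (fun j => F.rs_nonneg _) (fun j => hΞA _) hrad (fun h hh => hξlim h hh) hξ0 hfull
  refine ⟨φ, hφm, γ0, ξ0, ψ, ⟨hopt, hbase, hcoef, ?_, hrad, ?_, ?_⟩⟩
  · rw [hψ]; exact hvec
  · rw [hψ]; exact hone
  · rw [hψ]; exact htight

end Pool.Agent.Helper84.HRT
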