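import Mathlib
import Pool.Agent.Helper84.HRT.DefsA
import Pool.Agent.Helper84.HRT.WB
import Pool.Agent.Helper84.HRT.C4
import Pool.Agent.Helper84.HRT.C5
import Pool.Agent.Helper84.HRT.LIM

/-!
# L15: coarse separation of the centres
-/

open MeasureTheory Complex Filter
open scoped ENNReal NNReal ComplexConjugate InnerProductSpace BigOperators Topology

namespace Pool.Agent.Helper84.HRT

variable {H : Type} [NormedAddCommGroup H] [InnerProductSpace ℂ H] [CompleteSpace H]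
variable {W : Weyl H} {D : Data}

theorem l15_S2_smul (W : Weyl H) (Om : ℂ → ℝ) (c : ℂ) (g : H) :
    S2 Om (W.V (c • g)) = ‖c‖ₑ ^ 2 * S2 Om (W.V g) := by
  unfold S2
  rw [← lintegral_const_mul' _ _ (by finiteness)]
  refine lintegral_congr fun z => ?_
  rw [V_smul, ← mul_pow, ← enorm_mul]
  congr 2
  ring

theorem l15_om_pos (R : ℝ) (hR : 0 < R) (z : ℂ) : 0 < om R z := by
  unfold om
  positivity

theorem l15_om_le (R : ℝ) (hR : 0 < R) (z : ℂ) : om R z ≤ 1 := by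
  unfold om
  refine inv_le_one_of_one_le₀ ?_
  have h : 0 ≤ ‖z‖ / R := by positivity
  exact one_le_pow₀ (by linarith)

theorem l15_S2_lt_top (W : Weyl H) (R : ℝ) (hR : 0 < R) (g : H) : S2 (om R) (W.V g) < ⊤ := by
  have h : S2 (om R) (W.V g) ≤ ‖g‖ₑ ^ 2 := by
    rw [← W.isom g]
    unfold S2
    refine lintegral_mono fun z => ?_
    have h1 : ‖((om R z : ℝ) : ℂ) * W.V g z‖ₑ ≤ ‖W.V g z‖ₑ := by
      rw [enorm_le_iff_norm_le, norm_mul, Complex.norm_real, Real.norm_eq_abs,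
        abs_of_pos (l15_om_pos R hR z)]
      exact mul_le_of_le_one_left (norm_nonneg _) (l15_om_le R hR z)
    exact pow_le_pow_left₀ zero_le h1 2
  exact h.trans_lt (by finiteness)

theorem l15_S2_pos (W : Weyl H) (R : ℝ) (hR : 0 < R) (g : H) (hg : g ≠ 0) :
    0 < S2 (om R) (W.V g) := by
  rw [pos_iff_ne_zero]
  intro h0
  have hc : Continuous fun z : ℂ => ((om R z : ℝ) : ℂ) * W.V g z := by
    refine Continuous.mul (Complex.continuous_ofReal.comp ?_) (V_cont W g)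
    unfold om
    refine Continuous.inv₀ (by fun_prop) fun z => ?_
    positivity
  have h1 := (lintegral_eq_zero_iff (μ := dA) (by
    exact hc.enorm.measurable.pow_const 2)).1 h0
  have h2 : ∫⁻ z, ‖inner ℂ (W.U (-z) W.g0) g‖ₑ ^ 2 ∂dA = 0 := by
    rw [lintegral_eq_zero_iff (by
      have h := (V_cont W g).enorm.measurable.pow_const 2
      exact h)]
    filter_upwards [h1] with z hz
    have h3 : ((om R z : ℝ) : ℂ) * W.V g z = 0 := by
      have : ‖((om R z : ℝ) : ℂ) * W.V g z‖ₑ ^ 2 = 0 := hz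
      have h4 := pow_eq_zero_iff (two_ne_zero) |>.1 this
      exact enorm_eq_zero.1 h4
    rcases mul_eq_zero.1 h3 with h5 | h5
    · exact absurd (Complex.ofReal_eq_zero.1 h5) (l15_om_pos R hR z).ne'
    · show ‖W.V g z‖ₑ ^ 2 = 0
      rw [h5]; simp
  rw [W.isom g] at h2
  have h3 := pow_eq_zero_iff (two_ne_zero) |>.1 h2
  exact hg (enorm_eq_zero.1 h3)

theorem l15_normalise {F : Fam W D} {n : ℕ} {δ : ℝ} {w : ℂ} {g : H}
    (hg : F.Ctr n δ w g) : ∃ g' : H, F.Ctr n δ w g' ∧ S2 (om F.R) (W.V g') = 1 := by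
  have hR : 0 < F.R := by linarith [F.R_ge]
  have hpos := l15_S2_pos W F.R hR g hg.ne
  have hlt := l15_S2_lt_top W F.R hR g
  set S := S2 (om F.R) (W.V g) with hS
  have hSr : 0 < S.toReal := ENNReal.toReal_pos hpos.ne' hlt.ne
  set c : ℝ := (Real.sqrt S.toReal)⁻¹ with hc
  have hc0 : 0 < c := inv_pos.2 (Real.sqrt_pos.2 hSr)
  have hcc : ‖(c : ℂ)‖ₑ ^ 2 * S = 1 := by
    rw [← ENNReal.ofReal_toReal hlt.ne, ← ofReal_norm, ← ENNReal.ofReal_pow (norm_nonneg _),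
      ← ENNReal.ofReal_mul (by positivity), Complex.norm_real, Real.norm_eq_abs, sq_abs, hc,
      inv_pow, Real.sq_sqrt hSr.le, inv_mul_cancel₀ hSr.ne', ENNReal.ofReal_one]
  have hcn : (c : ℂ) ≠ 0 := Complex.ofReal_ne_zero.2 hc0.ne'
  refine ⟨(c : ℂ) • g, ⟨smul_ne_zero hcn hg.ne, ?_, ?_⟩, ?_⟩
  · rw [l15_S2_smul, l15_S2_smul, mul_left_comm]
    exact mul_le_mul_right hg.tight _
  · rw [map_smul, l15_S2_smul, l15_S2_smul, mul_left_comm]
    exact mul_le_mul_right hg.small _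
  · rw [l15_S2_smul]
    exact hcc

theorem l15_lim_comp {F : Fam W D} {n : ℕ → ℕ} {w : ℕ → ℂ} {g : ℕ → H}
    {γ : Fin D.m → ℂ} {ξ : ℝ → ℂ} {ψ : H} (h : F.Lim n w g γ ξ ψ) (φ : ℕ → ℕ)
    (hφ : StrictMono φ) : F.Lim (n ∘ φ) (w ∘ φ) (g ∘ φ) γ ξ ψ where
  opt := h.opt
  base := h.base.comp hφ.tendsto_atTop
  coef := h.coef.comp hφ.tendsto_atTop
  vec := by
    intro u hu x
    obtain ⟨t, ht, h'⟩ := h.vec u hu x
    exact ⟨t, ht, hφ.tendsto_atTop.eventually h'⟩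
  rad := h.rad.comp hφ.tendsto_atTop
  one := h.one
  tight := h.tight

/-- L15: coarse separation of the centres. -/
theorem L15 {W : Weyl H} {D : Data} (F : Fam W D) (K : ℕ) : ∃ (δ0 R0 : ℝ) (n0 : ℕ), 0 < δ0 ∧
    1 ≤ R0 ∧ F.n1 ≤ n0 ∧ ∀ n, n0 ≤ n → ∀ (w w' : ℂ) (g g' : H), F.Ctr n δ0 w g →
    F.Ctr n δ0 w' g' → ‖w - w'‖ ≤ R0 ∨ (D.NN n : ℝ) ^ K ≤ ‖w - w'‖ := by
  by_contra hcon
  push Not at hcon
  have hj : ∀ j : ℕ, ∃ n, max F.n1 j ≤ n ∧ ∃ (w w' : ℂ) (g g' : H),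
      F.Ctr n (1 / ((j : ℝ) + 1)) w g ∧ F.Ctr n (1 / ((j : ℝ) + 1)) w' g' ∧
      (j : ℝ) + 1 < ‖w - w'‖ ∧ ‖w - w'‖ < (D.NN n : ℝ) ^ K := by
    intro j
    obtain ⟨n, h1, w, w', g, g', h2, h3, h4, h5⟩ := hcon (1 / ((j : ℝ) + 1)) ((j : ℝ) + 1)
      (max F.n1 j) (by positivity) (by linarith [Nat.cast_nonneg (α := ℝ) j]) (le_max_left _ _)
    exact ⟨n, h1, w, w', g, g', h2, h3, h4, h5⟩
  choose n hn w w' g0 g0' hc0 hc0' hfar hnear using hj
  have hg : ∀ j, ∃ g : H, F.Ctr (n j) (1 / ((j : ℝ) + 1)) (w j) g ∧ S2 (om F.R) (W.V g) = 1 :=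
    fun j => l15_normalise (hc0 j)
  have hg' : ∀ j, ∃ g : H, F.Ctr (n j) (1 / ((j : ℝ) + 1)) (w' j) g ∧ S2 (om F.R) (W.V g) = 1 :=
    fun j => l15_normalise (hc0' j)
  choose g hc hg1 using hg
  choose g' hc' hg1' using hg'
  have hnj : ∀ j, j ≤ n j := fun j => le_trans (le_max_right _ _) (hn j)
  have hn1 : ∀ j, F.n1 ≤ n j := fun j => le_trans (le_max_left _ _) (hn j)
  have hnt : Tendsto n atTop atTop := tendsto_atTop_mono hnj tendsto_id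
  have hδt : Tendsto (fun j : ℕ => 1 / ((j : ℝ) + 1)) atTop (𝓝 0) :=
    tendsto_one_div_add_atTop_nhds_zero_nat
  obtain ⟨φ, hφ, γ, ξ, ψ, hL1⟩ := LIM F n hnt hn1 (fun j => 1 / ((j : ℝ) + 1))
    (fun j => by positivity) hδt w g hc hg1
  obtain ⟨φ', hφ', γ', ξ', ψ', hL2⟩ := LIM F (n ∘ φ) (hnt.comp hφ.tendsto_atTop)
    (fun j => hn1 (φ j)) (fun j => 1 / ((φ j : ℝ) + 1)) (fun j => by positivity)
    (hδt.comp hφ.tendsto_atTop) (w' ∘ φ) (g' ∘ φ) (fun j => hc' (φ j)) (fun j => hg1' (φ j))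
  have hL1' := l15_lim_comp hL1 φ' hφ'
  set θ : ℕ → ℕ := fun j => φ (φ' j) with hθ
  have hθm : StrictMono θ := hφ.comp hφ'
  have hθt : Tendsto θ atTop atTop := hθm.tendsto_atTop
  obtain ⟨τ, -, hτ⟩ := pair_lemma F ((n ∘ φ) ∘ φ') ((hnt.comp hφ.tendsto_atTop).comp
    hφ'.tendsto_atTop) hL1' hL2
  have hNt : Tendsto (fun j => D.NN (n (θ j))) atTop atTop := by
    have h1 : Tendsto (fun k : ℕ => (D.NN k)) atTop atTop := by
      refine tendsto_atTop_mono (fun k => ?_) tendsto_id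
      unfold Data.NN
      calc k ≤ k.factorial := Nat.self_le_factorial k
        _ = k.factorial * 1 := (mul_one _).symm
        _ ≤ k.factorial * D.d0 := Nat.mul_le_mul_left _ D.d0_pos
    exact h1.comp (hnt.comp hθt)
  have hev := small_or_large (fun j => w (θ j) - w' (θ j) - τ) (fun j => D.NN (n (θ j))) hNt hτ
    (K + 1) 1 one_pos
  obtain ⟨M, hM⟩ := exists_nat_ge (2 + ‖τ‖)
  have hj1 : ∀ᶠ j in atTop, M ≤ θ j := hθt.eventually_ge_atTop M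
  have hj2 : ∀ᶠ j in atTop, M ≤ D.NN (n (θ j)) := hNt.eventually_ge_atTop M
  obtain ⟨j, h1, h2, h3⟩ := (hev.and (hj1.and hj2)).exists
  have hf := hfar (θ j)
  have hr := hnear (θ j)
  have h2' : (M : ℝ) ≤ θ j := by exact_mod_cast h2
  have h3' : (M : ℝ) ≤ D.NN (n (θ j)) := by exact_mod_cast h3
  have hτ0 : 0 ≤ ‖τ‖ := norm_nonneg _
  rcases h1 with h4 | h4
  · have h5 : ‖w (θ j) - w' (θ j)‖ ≤ ‖w (θ j) - w' (θ j) - τ‖ + ‖τ‖ := by
      have := norm_add_le (w (θ j) - w' (θ j) - τ) τ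
      rwa [sub_add_cancel] at this
    linarith
  · have h5 : ‖w (θ j) - w' (θ j) - τ‖ ≤ ‖w (θ j) - w' (θ j)‖ + ‖τ‖ := norm_sub_le _ _
    set X : ℝ := (D.NN (n (θ j)) : ℝ) with hX
    have hX1 : 1 ≤ X := by linarith
    have hXK : 1 ≤ X ^ K := one_le_pow₀ hX1
    rw [pow_succ] at h4
    nlinarith [mul_nonneg (by linarith : (0 : ℝ) ≤ X ^ K - 1) hτ0,
      mul_le_mul_of_nonneg_left (hM.trans h3') (by linarith : (0 : ℝ) ≤ X ^ K)]

end Pool.Agent.Helper84.HRT
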