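import Mathlib
import Pool.Agent.Helper84.HRT.DefsS

open MeasureTheory Complex Filter
open scoped ENNReal NNReal ComplexConjugate InnerProductSpace BigOperators Topology

namespace Pool.Agent.Helper84.HRT

variable {H : Type} [NormedAddCommGroup H] [InnerProductSpace ℂ H] [CompleteSpace H]

/-! Weights of log-slope `B/(R2+|z|)` and the weight of L17. -/

/-- `|e^x - 1| ≤ |x| e^|x|`. -/
private theorem sa_exp_sub_one (x : ℝ) : |Real.exp x - 1| ≤ |x| * Real.exp |x| := by
  have h1 := Real.add_one_le_exp x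
  have h2 := Real.add_one_le_exp (-x)
  have h3 : Real.exp x * Real.exp (-x) = 1 := by rw [← Real.exp_add]; simp
  have hpos := Real.exp_pos x
  rcases le_total 0 x with hx | hx
  · rw [abs_of_nonneg hx]
    have h4 : 0 ≤ Real.exp x - 1 := by linarith
    rw [abs_of_nonneg h4]
    nlinarith
  · rw [abs_of_nonpos hx]
    have h4 : Real.exp x ≤ 1 := by
      rw [← Real.exp_zero]
      exact Real.exp_le_exp.mpr hx
    rw [abs_of_nonpos (by linarith)]
    have h5 : 1 ≤ Real.exp (-x) := by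
      rw [← Real.exp_zero]
      exact Real.exp_le_exp.mpr (by linarith)
    nlinarith

private theorem sa_exp_sub (x y : ℝ) :
    |Real.exp x - Real.exp y| ≤ Real.exp y * (|x - y| * Real.exp |x - y|) := by
  have h1 : Real.exp x - Real.exp y = Real.exp y * (Real.exp (x - y) - 1) := by
    rw [mul_sub, ← Real.exp_add, mul_one]
    congr 2
    ring
  rw [h1, abs_mul, abs_of_pos (Real.exp_pos y)]
  exact mul_le_mul_of_nonneg_left (sa_exp_sub_one _) (Real.exp_pos y).le

theorem slo_pos (B R2 : ℝ) (hB : 0 < B) (hR : 0 < R2) (z : ℂ) : 0 < slo B R2 z := by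
  unfold slo
  have := norm_nonneg z
  positivity

theorem slo_le (B R2 : ℝ) (hB : 0 < B) (hR : 0 < R2) (z : ℂ) : slo B R2 z ≤ 2 * B / R2 := by
  unfold slo
  have := norm_nonneg z
  exact div_le_div_of_nonneg_left (by positivity) hR (by linarith)

theorem slo_doubling (B R2 : ℝ) (hB : 0 < B) (hR : 1 ≤ R2) (z w : ℂ) :
    slo B R2 z ≤ (1 + ‖z - w‖) * slo B R2 w := by
  unfold slo
  have h1 := norm_nonneg z
  have h2 := norm_nonneg w
  have h3 := norm_nonneg (z - w)
  have h4 : ‖w‖ ≤ ‖z‖ + ‖z - w‖ := by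
    have := norm_sub_le z (z - w)
    rw [sub_sub_cancel] at this
    exact this
  rw [mul_div_assoc', div_le_div_iff₀ (by linarith) (by linarith)]
  have h5 : R2 + ‖w‖ ≤ (1 + ‖z - w‖) * (R2 + ‖z‖) := by nlinarith [mul_nonneg h3 h1]
  calc 2 * B * (R2 + ‖w‖) ≤ 2 * B * ((1 + ‖z - w‖) * (R2 + ‖z‖)) :=
        mul_le_mul_of_nonneg_left h5 (by linarith)
    _ = (1 + ‖z - w‖) * (2 * B) * (R2 + ‖z‖) := by ring

theorem slo_cont (B R2 : ℝ) (hR : 0 < R2) : Continuous (slo B R2) := by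
  unfold slo
  refine Continuous.div continuous_const (continuous_const.add continuous_norm) fun z => ?_
  have := norm_nonneg z
  positivity

theorem isW_of_log (B R2 : ℝ) (hB : 1 ≤ B) (hR : 4 * B ≤ R2) (φ : ℂ → ℝ)
    (h : ∀ z ζ, |φ z - φ ζ| ≤ B * ‖z - ζ‖ / (R2 + min ‖z‖ ‖ζ‖)) :
    IsW (fun z => Real.exp (φ z)) (slo B R2) := by
  have hR2 : 0 < R2 := by linarith
  have hlip : ∀ z ζ, |φ z - φ ζ| ≤ B * ‖z - ζ‖ / R2 := by
    intro z ζ
    refine (h z ζ).trans ?_
    have h1 := norm_nonneg (z - ζ)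
    have h2 : 0 ≤ min ‖z‖ ‖ζ‖ := le_min (norm_nonneg _) (norm_nonneg _)
    exact div_le_div_of_nonneg_left (by positivity) hR2 (by linarith)
  have hlip1 : ∀ z ζ, |φ z - φ ζ| ≤ ‖z - ζ‖ / 4 := by
    intro z ζ
    refine (hlip z ζ).trans ?_
    rw [div_le_div_iff₀ hR2 (by norm_num)]
    have h1 := norm_nonneg (z - ζ)
    nlinarith
  have hcont : Continuous φ := by
    have : LipschitzWith 1 φ := by
      refine LipschitzWith.of_dist_le_mul fun z ζ => ?_
      rw [Real.dist_eq, dist_eq_norm, NNReal.coe_one, one_mul]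
      have := hlip1 z ζ
      have h1 := norm_nonneg (z - ζ)
      linarith
    exact this.continuous
  refine ⟨fun z => Real.exp_pos _, Real.continuous_exp.comp hcont,
    fun z => (slo_pos B R2 (by linarith) hR2 z).le, ?_, slo_cont B R2 hR2, ?_⟩
  · intro z
    refine (slo_le B R2 (by linarith) hR2 z).trans ?_
    rw [div_le_one hR2]
    linarith
  · intro z ζ
    have hr := norm_nonneg (z - ζ)
    have ha := norm_nonneg ζ
    have hx0 := abs_nonneg (φ z - φ ζ)
    refine (sa_exp_sub (φ z) (φ ζ)).trans ?_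
    have key : |φ z - φ ζ| * Real.exp |φ z - φ ζ| ≤
        slo B R2 ζ * ‖z - ζ‖ * Real.exp ‖z - ζ‖ := by
      rcases le_total ‖z - ζ‖ ((R2 + ‖ζ‖) / 2) with hc | hc
      · have h1 : (R2 + ‖ζ‖) / 2 ≤ R2 + min ‖z‖ ‖ζ‖ := by
          have h2 : ‖ζ‖ ≤ ‖z‖ + ‖z - ζ‖ := by
            have := norm_sub_le z (z - ζ)
            rw [sub_sub_cancel] at this
            exact this
          rcases le_total ‖z‖ ‖ζ‖ with h3 | h3
          · rw [min_eq_left h3]
            linarith
          · rw [min_eq_right h3]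
            linarith
        have h2 : |φ z - φ ζ| ≤ slo B R2 ζ * ‖z - ζ‖ := by
          refine (h z ζ).trans ?_
          have h3 : B * ‖z - ζ‖ / (R2 + min ‖z‖ ‖ζ‖) ≤ B * ‖z - ζ‖ / ((R2 + ‖ζ‖) / 2) :=
            div_le_div_of_nonneg_left (by positivity) (by positivity) h1
          refine h3.trans (le_of_eq ?_)
          unfold slo
          field_simp
        refine mul_le_mul h2 (Real.exp_le_exp.mpr ?_) (Real.exp_pos _).le
          (mul_nonneg (slo_pos B R2 (by linarith) hR2 ζ).le hr)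
        have := hlip1 z ζ
        linarith
      · have h1 := hlip z ζ
        have h2 := hlip1 z ζ
        have h3 : Real.exp |φ z - φ ζ| ≤ Real.exp (‖z - ζ‖ / 4) := Real.exp_le_exp.mpr h2
        have h4 : (R2 + ‖ζ‖) / (2 * R2) ≤ Real.exp (‖z - ζ‖ * (3 / 4)) := by
          have h5 := Real.add_one_le_exp (‖z - ζ‖ * (3 / 4))
          rw [div_le_iff₀ (by positivity)]
          have h6 : R2 + ‖ζ‖ ≤ 2 * ‖z - ζ‖ := by linarith
          have h7 : (‖z - ζ‖ * (3 / 4) + 1) * (2 * R2) ≤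
              Real.exp (‖z - ζ‖ * (3 / 4)) * (2 * R2) :=
            mul_le_mul_of_nonneg_right h5 (by positivity)
          nlinarith
        have h8 : Real.exp ‖z - ζ‖ = Real.exp (‖z - ζ‖ / 4) * Real.exp (‖z - ζ‖ * (3 / 4)) := by
          rw [← Real.exp_add]
          congr 1
          ring
        have h9 : B * ‖z - ζ‖ / R2 = slo B R2 ζ * ‖z - ζ‖ * ((R2 + ‖ζ‖) / (2 * R2)) := by
          unfold slo
          have : R2 + ‖ζ‖ ≠ 0 := by positivity
          field_simp
        calc |φ z - φ ζ| * Real.exp |φ z - φ ζ|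
            ≤ (B * ‖z - ζ‖ / R2) * Real.exp (‖z - ζ‖ / 4) :=
              mul_le_mul h1 h3 (Real.exp_pos _).le (by positivity)
          _ = slo B R2 ζ * ‖z - ζ‖ * (((R2 + ‖ζ‖) / (2 * R2)) * Real.exp (‖z - ζ‖ / 4)) := by
              rw [h9]; ring
          _ ≤ slo B R2 ζ * ‖z - ζ‖ *
              (Real.exp (‖z - ζ‖ * (3 / 4)) * Real.exp (‖z - ζ‖ / 4)) :=
              mul_le_mul_of_nonneg_left
                (mul_le_mul_of_nonneg_right h4 (Real.exp_pos _).le)
                (mul_nonneg (slo_pos B R2 (by linarith) hR2 ζ).le hr)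
          _ = slo B R2 ζ * ‖z - ζ‖ * Real.exp ‖z - ζ‖ := by rw [h8]; ring
    calc Real.exp (φ ζ) * (|φ z - φ ζ| * Real.exp |φ z - φ ζ|)
        ≤ Real.exp (φ ζ) * (slo B R2 ζ * ‖z - ζ‖ * Real.exp ‖z - ζ‖) :=
          mul_le_mul_of_nonneg_left key (Real.exp_pos _).le
      _ = slo B R2 ζ * Real.exp (φ ζ) * ‖z - ζ‖ * Real.exp ‖z - ζ‖ := by ring

/-- `log(1+t/R2)` has slope `1/(R2+t)`. -/
private theorem sa_log_slope {R2 : ℝ} (hR : 0 < R2) {t u : ℝ} (ht : 0 ≤ t) (hu : 0 ≤ u) :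
    |Real.log (1 + t / R2) - Real.log (1 + u / R2)| ≤ |t - u| / (R2 + min t u) := by
  wlog htu : u ≤ t generalizing t u
  · have := this hu ht (le_of_lt (not_le.mp htu))
    rw [abs_sub_comm, abs_sub_comm t u, min_comm]
    exact this
  have h1 : 0 < 1 + u / R2 := by positivity
  have h2 : 0 < 1 + t / R2 := by positivity
  have h3 : 1 + u / R2 ≤ 1 + t / R2 := by
    have := div_le_div_of_nonneg_right htu hR.le
    linarith
  rw [min_eq_right htu, abs_of_nonneg (by linarith [Real.log_le_log h1 h3]),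
    abs_of_nonneg (by linarith), ← Real.log_div h2.ne' h1.ne']
  have h4 := Real.log_le_sub_one_of_pos (div_pos h2 h1)
  refine h4.trans (le_of_eq ?_)
  have h5 : R2 + u ≠ 0 := by positivity
  have h6 : 1 + u / R2 ≠ 0 := h1.ne'
  have h7 : (1 + t / R2) / (1 + u / R2) = (R2 + t) / (R2 + u) := by
    rw [div_eq_div_iff h6 h5]
    field_simp
  rw [h7]
  field_simp
  ring

private theorem sa_norm_log {R2 : ℝ} (hR : 0 < R2) (B : ℝ) (hB : 0 ≤ B) (z ζ : ℂ) :
    B * |Real.log (1 + ‖z‖ / R2) - Real.log (1 + ‖ζ‖ / R2)| ≤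
      B * ‖z - ζ‖ / (R2 + min ‖z‖ ‖ζ‖) := by
  have h1 := sa_log_slope hR (norm_nonneg z) (norm_nonneg ζ)
  have h2 : 0 ≤ min ‖z‖ ‖ζ‖ := le_min (norm_nonneg _) (norm_nonneg _)
  have h3 : |‖z‖ - ‖ζ‖| / (R2 + min ‖z‖ ‖ζ‖) ≤ ‖z - ζ‖ / (R2 + min ‖z‖ ‖ζ‖) :=
    div_le_div_of_nonneg_right (abs_norm_sub_norm_le z ζ) (by positivity)
  rw [mul_div_assoc]
  exact mul_le_mul_of_nonneg_left (h1.trans h3) hB

theorem isW_OmR (R2 R : ℝ) (hR2 : 1560 ≤ R2) (hR : 1 ≤ R) : IsW (OmR R2 R) (slo 390 R2) := by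
  have hR0 : 0 < R2 := by linarith
  have hpos : ∀ t : ℝ, 0 ≤ t → 0 < 1 + t / R2 := fun t ht => by positivity
  have hfun : OmR R2 R = fun z => Real.exp (390 * (2 * Real.log (1 + min ‖z‖ R / R2) -
      Real.log (1 + ‖z‖ / R2))) := by
    funext z
    have hz := norm_nonneg z
    have e1 : ∀ t : ℝ, 0 ≤ t → Real.exp (390 * Real.log (1 + t / R2)) = (1 + t / R2) ^ 390 := by
      intro t ht
      rw [show (390 : ℝ) * Real.log (1 + t / R2) = ((390 : ℕ) : ℝ) * Real.log (1 + t / R2) by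
        norm_num, Real.exp_nat_mul, Real.exp_log (hpos t ht)]
    unfold OmR
    by_cases hzR : ‖z‖ ≤ R
    · rw [if_pos hzR, min_eq_left hzR, ← e1 _ hz]
      congr 1
      ring
    · rw [if_neg hzR, min_eq_right (le_of_lt (not_le.mp hzR))]
      have hR' : (0 : ℝ) ≤ R := by linarith
      rw [← e1 _ hz, ← Real.exp_neg]
      have e2 : (1 + R / R2) ^ 780 = Real.exp (390 * (2 * Real.log (1 + R / R2))) := by
        rw [show (390 : ℝ) * (2 * Real.log (1 + R / R2)) = ((780 : ℕ) : ℝ) *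
          Real.log (1 + R / R2) by push_cast; ring, Real.exp_nat_mul, Real.exp_log (hpos R hR')]
      rw [e2, ← Real.exp_add]
      congr 1
      ring
  rw [hfun]
  refine isW_of_log 390 R2 (by norm_num) (by linarith) _ fun z ζ => ?_
  refine le_trans ?_ (sa_norm_log hR0 390 (by norm_num) z ζ)
  rw [← mul_sub, abs_mul, abs_of_nonneg (by norm_num : (0 : ℝ) ≤ 390)]
  refine mul_le_mul_of_nonneg_left ?_ (by norm_num)
  -- the folded logarithm is 1-Lipschitz with respect to the logarithm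
  have hR' : (0 : ℝ) ≤ R := by linarith
  have hmono : ∀ t u : ℝ, 0 ≤ t → t ≤ u → Real.log (1 + t / R2) ≤ Real.log (1 + u / R2) := by
    intro t u ht htu
    refine Real.log_le_log (hpos t ht) ?_
    have := div_le_div_of_nonneg_right htu hR0.le
    linarith
  have hz := norm_nonneg z
  have hζ := norm_nonneg ζ
  rcases le_total ‖z‖ R with h1 | h1 <;> rcases le_total ‖ζ‖ R with h2 | h2
  · rw [min_eq_left h1, min_eq_left h2]
    refine le_of_eq ?_
    congr 1
    ring
  · rw [min_eq_left h1, min_eq_right h2]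
    have h3 := hmono _ _ hz h1
    have h4 := hmono _ _ hR' h2
    rw [abs_sub_comm (Real.log (1 + ‖z‖ / R2)),
      abs_of_nonneg (by linarith : 0 ≤ Real.log (1 + ‖ζ‖ / R2) - Real.log (1 + ‖z‖ / R2)), abs_le]
    constructor <;> linarith
  · rw [min_eq_right h1, min_eq_left h2]
    have h3 := hmono _ _ hζ h2
    have h4 := hmono _ _ hR' h1
    rw [abs_of_nonneg (by linarith : 0 ≤ Real.log (1 + ‖z‖ / R2) - Real.log (1 + ‖ζ‖ / R2)), abs_le]
    constructor <;> linarith
  · rw [min_eq_right h1, min_eq_right h2]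
    rw [abs_sub_comm (Real.log (1 + ‖z‖ / R2))]
    refine le_of_eq ?_
    congr 1
    ring

theorem isW_Omi (R2 : ℝ) (hR2 : 240 ≤ R2) : IsW (Omi R2) (slo 60 R2) := by
  have hR0 : 0 < R2 := by linarith
  have hfun : Omi R2 = fun z => Real.exp (-(60 * Real.log (1 + ‖z‖ / R2))) := by
    funext z
    have hz := norm_nonneg z
    have hp : 0 < 1 + ‖z‖ / R2 := by positivity
    unfold Omi
    rw [Real.exp_neg, show (60 : ℝ) * Real.log (1 + ‖z‖ / R2) = ((60 : ℕ) : ℝ) *
      Real.log (1 + ‖z‖ / R2) by norm_num, Real.exp_nat_mul, Real.exp_log hp]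
  rw [hfun]
  refine isW_of_log 60 R2 (by norm_num) (by linarith) _ fun z ζ => ?_
  refine le_trans (le_of_eq ?_) (sa_norm_log hR0 60 (by norm_num) z ζ)
  rw [show -(60 * Real.log (1 + ‖z‖ / R2)) - -(60 * Real.log (1 + ‖ζ‖ / R2)) =
    -(60 * (Real.log (1 + ‖z‖ / R2) - Real.log (1 + ‖ζ‖ / R2))) by ring, abs_neg, abs_mul,
    abs_of_nonneg (by norm_num : (0 : ℝ) ≤ 60)]

/-- the slope function of `Omc d` is `min 1 (exp (|z|-d))` -/
theorem isW_Omc (d : ℝ) : IsW (Omc d) (fun z => min 1 (Real.exp (‖z‖ - d))) := by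
  refine ⟨fun z => lt_min one_pos (Real.exp_pos _), ?_, fun z => le_min zero_le_one
    (Real.exp_pos _).le, fun z => min_le_left _ _, ?_, ?_⟩
  · unfold Omc
    exact continuous_const.min (Real.continuous_exp.comp (continuous_const.sub continuous_norm))
  · exact continuous_const.min (Real.continuous_exp.comp (continuous_norm.sub continuous_const))
  · intro z ζ
    have hr := norm_nonneg (z - ζ)
    have h1 : |‖z‖ - ‖ζ‖| ≤ ‖z - ζ‖ := abs_norm_sub_norm_le z ζ
    have h1' := abs_le.mp h1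
    have hfun : ∀ z : ℂ, Omc d z = Real.exp (min 0 (d - ‖z‖)) := by
      intro z
      unfold Omc
      rcases le_total 0 (d - ‖z‖) with h | h
      · rw [min_eq_left h, Real.exp_zero, min_eq_left]
        rw [← Real.exp_zero]
        exact Real.exp_le_exp.mpr h
      · rw [min_eq_right h, min_eq_right]
        rw [← Real.exp_zero]
        exact Real.exp_le_exp.mpr h
    rcases le_total d ‖ζ‖ with hd | hd
    · -- `s ζ = 1`
      have hs : min 1 (Real.exp (‖ζ‖ - d)) = 1 := by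
        rw [min_eq_left]
        rw [← Real.exp_zero]
        exact Real.exp_le_exp.mpr (by linarith)
      rw [hs, one_mul, hfun z, hfun ζ]
      refine (sa_exp_sub _ _).trans ?_
      have h2 : |min 0 (d - ‖z‖) - min 0 (d - ‖ζ‖)| ≤ ‖z - ζ‖ := by
        have h3 := abs_min_sub_min_le_max 0 (d - ‖z‖) 0 (d - ‖ζ‖)
        refine h3.trans ?_
        rw [sub_self, abs_zero, max_eq_right (abs_nonneg _)]
        rw [show d - ‖z‖ - (d - ‖ζ‖) = -(‖z‖ - ‖ζ‖) by ring, abs_neg]
        exact h1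
      rw [mul_assoc]
      refine mul_le_mul_of_nonneg_left ?_ (Real.exp_pos _).le
      exact mul_le_mul h2 (Real.exp_le_exp.mpr h2) (Real.exp_pos _).le hr
    · have hs : min 1 (Real.exp (‖ζ‖ - d)) = Real.exp (‖ζ‖ - d) := by
        rw [min_eq_right]
        rw [← Real.exp_zero]
        exact Real.exp_le_exp.mpr (by linarith)
      have hΩ : Omc d ζ = 1 := by
        rw [hfun, min_eq_left (by linarith), Real.exp_zero]
      rw [hs, hΩ, mul_one, hfun z]
      rcases le_total 0 (d - ‖z‖) with h | h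
      · rw [min_eq_left h, Real.exp_zero, sub_self, abs_zero]
        positivity
      · rw [min_eq_right h]
        have h2 : Real.exp (d - ‖z‖) ≤ 1 := by
          rw [← Real.exp_zero]
          exact Real.exp_le_exp.mpr h
        rw [abs_of_nonpos (by linarith)]
        have h3 := Real.add_one_le_exp (d - ‖z‖)
        have h4 : -(Real.exp (d - ‖z‖) - 1) ≤ ‖z‖ - d := by linarith
        refine h4.trans ?_
        have h5 : ‖z‖ - d ≤ ‖z - ζ‖ := by linarith [h1'.2]
        have h6 : 1 ≤ Real.exp (‖ζ‖ - d) * Real.exp ‖z - ζ‖ := by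
          rw [← Real.exp_add, ← Real.exp_zero]
          exact Real.exp_le_exp.mpr (by linarith [h1'.2])
        calc ‖z‖ - d ≤ ‖z - ζ‖ * 1 := by rw [mul_one]; exact h5
          _ ≤ ‖z - ζ‖ * (Real.exp (‖ζ‖ - d) * Real.exp ‖z - ζ‖) :=
              mul_le_mul_of_nonneg_left h6 hr
          _ = Real.exp (‖ζ‖ - d) * ‖z - ζ‖ * Real.exp ‖z - ζ‖ := by ring

end Pool.Agent.Helper84.HRT
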