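import Mathlib
import Pool.Agent.Helper84.HRT.DefsS

open MeasureTheory Complex Filter
open scoped ENNReal NNReal ComplexConjugate InnerProductSpace BigOperators Topology

namespace Pool.Agent.Helper84.HRT

variable {H : Type} [NormedAddCommGroup H] [InnerProductSpace ℂ H] [CompleteSpace H]

/-! Elementary rules for `S2`. -/

private theorem sc_enorm (a : ℝ) (b : ℂ) : ‖((a : ℝ) : ℂ) * b‖ₑ = ENNReal.ofReal (|a| * ‖b‖) := by
  rw [← ofReal_norm, norm_mul, Complex.norm_real, Real.norm_eq_abs]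

theorem S2_mono {Y Y' : ℂ → ℝ} {c : ℝ} (hc : 0 ≤ c) (F : ℂ → ℂ)
    (h : ∀ z, |Y z| ≤ c * |Y' z|) : S2 Y F ≤ ENNReal.ofReal (c ^ 2) * S2 Y' F := by
  unfold S2
  rw [← lintegral_const_mul' _ _ ENNReal.ofReal_ne_top]
  refine lintegral_mono (fun z => ?_)
  rw [sc_enorm, sc_enorm, ENNReal.ofReal_pow hc, ← mul_pow, ← ENNReal.ofReal_mul hc]
  refine pow_le_pow_left' (ENNReal.ofReal_le_ofReal ?_) 2
  calc |Y z| * ‖F z‖ ≤ (c * |Y' z|) * ‖F z‖ := mul_le_mul_of_nonneg_right (h z) (norm_nonneg _)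
    _ = c * (|Y' z| * ‖F z‖) := by ring

theorem S2_mono2 {Y Y' : ℂ → ℝ} {F G : ℂ → ℂ} (h : ∀ z, |Y z| * ‖F z‖ ≤ |Y' z| * ‖G z‖) :
    S2 Y F ≤ S2 Y' G := by
  unfold S2
  refine lintegral_mono (fun z => ?_)
  rw [sc_enorm, sc_enorm]
  exact pow_le_pow_left' (ENNReal.ofReal_le_ofReal (h z)) 2

private theorem sc_sq_add (a b : ℝ≥0∞) : (a + b) ^ 2 ≤ 2 * (a ^ 2 + b ^ 2) := by
  have h := ENNReal.rpow_add_le_mul_rpow_add_rpow a b (show (1 : ℝ) ≤ 2 by norm_num)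
  rw [show (2 : ℝ) - 1 = 1 by norm_num, ENNReal.rpow_one] at h
  simpa only [← ENNReal.rpow_natCast, Nat.cast_ofNat] using h

theorem S2_add (Y : ℂ → ℝ) (hY : Measurable Y) (F G : ℂ → ℂ) (hF : AEStronglyMeasurable F dA) :
    S2 Y (fun z => F z + G z) ≤ 2 * (S2 Y F + S2 Y G) := by
  unfold S2
  have hm : AEMeasurable (fun z => ‖((Y z : ℝ) : ℂ) * F z‖ₑ ^ 2) dA := by
    have h1 : AEStronglyMeasurable (fun z => ((Y z : ℝ) : ℂ) * F z) dA :=
      (Complex.measurable_ofReal.comp hY).aestronglyMeasurable.mul hF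
    exact h1.enorm.pow_const 2
  rw [← lintegral_add_left' hm, ← lintegral_const_mul' _ _ (by norm_num)]
  refine lintegral_mono (fun z => ?_)
  refine le_trans ?_ (sc_sq_add _ _)
  gcongr
  rw [mul_add]
  exact enorm_add_le _ _

theorem S2_sub (Y : ℂ → ℝ) (hY : Measurable Y) (F G : ℂ → ℂ) (hF : AEStronglyMeasurable F dA) :
    S2 Y (fun z => F z - G z) ≤ 2 * (S2 Y F + S2 Y G) := by
  have h := S2_add Y hY F (fun z => - G z) hF
  have e : S2 Y (fun z => - G z) = S2 Y G := by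
    unfold S2
    refine lintegral_congr (fun z => ?_)
    rw [mul_neg, enorm_neg]
  rw [e] at h
  simpa only [sub_eq_add_neg] using h

theorem S2_smul (Y : ℂ → ℝ) (c : ℂ) (F : ℂ → ℂ) :
    S2 Y (fun z => c * F z) = ‖c‖ₑ ^ 2 * S2 Y F := by
  unfold S2
  rw [← lintegral_const_mul' _ _ (by simp)]
  refine lintegral_congr (fun z => ?_)
  rw [← mul_pow, ← enorm_mul]
  congr 2
  ring

theorem S2_mul_weight (Y Om : ℂ → ℝ) (F : ℂ → ℂ) :
    S2 Y (fun z => ((Om z : ℝ) : ℂ) * F z) = S2 (fun z => Y z * Om z) F := by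
  unfold S2
  refine lintegral_congr (fun z => ?_)
  congr 2
  push_cast
  ring

private theorem sc_ind (s : Set ℂ) (hs : MeasurableSet s) (F : ℂ → ℂ) :
    S2 (fun z => s.indicator 1 z) F = ∫⁻ z in s, ‖F z‖ₑ ^ 2 ∂dA := by
  unfold S2
  rw [← lintegral_indicator hs]
  refine lintegral_congr (fun z => ?_)
  by_cases hz : z ∈ s
  · simp [hz]
  · simp [hz]

theorem S2_ball_eq (ρ : ℝ) (F : ℂ → ℂ) :
    S2 (ball1 ρ) F = ∫⁻ z in {z : ℂ | ‖z‖ ≤ ρ}, ‖F z‖ₑ ^ 2 ∂dA := by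
  have h : (Metric.closedBall (0 : ℂ) ρ) = {z : ℂ | ‖z‖ ≤ ρ} := by
    ext z; simp
  have h2 := sc_ind (Metric.closedBall (0 : ℂ) ρ) Metric.isClosed_closedBall.measurableSet F
  rw [h] at h2
  rw [← h2]
  unfold ball1
  rw [h]

theorem S2_out_eq (ρ : ℝ) (F : ℂ → ℂ) :
    S2 (out1 ρ) F = ∫⁻ z in {z : ℂ | ρ ≤ ‖z‖}, ‖F z‖ₑ ^ 2 ∂dA := by
  have hm : MeasurableSet {y : ℂ | ρ ≤ ‖y‖} := measurableSet_le measurable_const measurable_norm
  exact sc_ind _ hm F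

theorem ball1_meas (ρ : ℝ) : Measurable (ball1 ρ) := by
  unfold ball1
  exact (measurable_const (a := (1 : ℝ))).indicator Metric.isClosed_closedBall.measurableSet

theorem out1_meas (ρ : ℝ) : Measurable (out1 ρ) := by
  have hm : MeasurableSet {y : ℂ | ρ ≤ ‖y‖} := measurableSet_le measurable_const measurable_norm
  unfold out1
  exact (measurable_const (a := (1 : ℝ))).indicator hm

end Pool.Agent.Helper84.HRT
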