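import Mathlib
import Pool.Agent.Helper84.HRT.DefsS
import Pool.Agent.Helper84.HRT.WB

open MeasureTheory Complex Filter
open scoped ENNReal NNReal ComplexConjugate InnerProductSpace BigOperators Topology

namespace Pool.Agent.Helper84.HRT

variable {H : Type} [NormedAddCommGroup H] [InnerProductSpace ℂ H] [CompleteSpace H]

/-! Centres. -/

private theorem sg_int_V (W : Weyl H) (g : H) : ∫⁻ z, ‖W.V g z‖ₑ ^ 2 ∂dA = ‖g‖ₑ ^ 2 :=
  W.isom g

private theorem sg_S2_smul (Om : ℂ → ℝ) (c : ℂ) (F : ℂ → ℂ) :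
    S2 Om (fun z => c * F z) = ‖c‖ₑ ^ 2 * S2 Om F := by
  unfold S2
  rw [← lintegral_const_mul' _ _ (ENNReal.pow_ne_top enorm_ne_top)]
  refine lintegral_congr fun z => ?_
  rw [← mul_pow, ← enorm_mul]
  congr 2
  ring

private theorem sg_S2_V_smul (W : Weyl H) (Om : ℂ → ℝ) (c : ℂ) (g : H) :
    S2 Om (W.V (c • g)) = ‖c‖ₑ ^ 2 * S2 Om (W.V g) := by
  rw [← sg_S2_smul]
  congr 1
  funext z
  exact V_smul W c g z

theorem S2_V_lt_top (W : Weyl H) (Om : ℂ → ℝ) (C : ℝ) (hOm : ∀ z, |Om z| ≤ C) (g : H) :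
    S2 Om (W.V g) < ⊤ := by
  have h1 : S2 Om (W.V g) ≤ ENNReal.ofReal C ^ 2 * ‖g‖ₑ ^ 2 := by
    unfold S2
    rw [← sg_int_V W g, ← lintegral_const_mul' _ _ (ENNReal.pow_ne_top ENNReal.ofReal_ne_top)]
    refine lintegral_mono fun z => ?_
    rw [enorm_mul, mul_pow]
    gcongr
    rw [← ofReal_norm_eq_enorm, Complex.norm_real, Real.norm_eq_abs]
    exact ENNReal.ofReal_le_ofReal (hOm z)
  refine h1.trans_lt ?_
  exact ENNReal.mul_lt_top (ENNReal.pow_lt_top ENNReal.ofReal_lt_top)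
    (ENNReal.pow_lt_top enorm_lt_top)

theorem S2_V_pos (W : Weyl H) (Om : ℂ → ℝ) (hOm : ∀ z, 0 < Om z) (hc : Continuous Om) (g : H)
    (hg : g ≠ 0) : 0 < S2 Om (W.V g) := by
  rw [pos_iff_ne_zero]
  intro h0
  unfold S2 at h0
  have hV := V_cont W g
  have hm : Measurable fun z : ℂ => ‖((Om z : ℝ) : ℂ) * W.V g z‖ₑ ^ 2 := by
    have : Continuous fun z : ℂ => ((Om z : ℝ) : ℂ) * W.V g z := by fun_prop
    exact (this.measurable.enorm).pow_const 2
  rw [lintegral_eq_zero_iff hm] at h0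
  have h1 : ∫⁻ z, ‖W.V g z‖ₑ ^ 2 ∂dA = 0 := by
    rw [lintegral_eq_zero_iff ((hV.measurable.enorm).pow_const 2)]
    filter_upwards [h0] with z hz
    simp only [Pi.zero_apply, pow_eq_zero_iff, ne_eq, OfNat.ofNat_ne_zero, not_false_eq_true,
      enorm_eq_zero, mul_eq_zero, Complex.ofReal_eq_zero] at hz ⊢
    exact hz.resolve_left (hOm z).ne'
  rw [sg_int_V] at h1
  simp only [pow_eq_zero_iff, ne_eq, OfNat.ofNat_ne_zero, not_false_eq_true, enorm_eq_zero] at h1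
  exact hg h1

theorem isCen_mono {W : Weyl H} {R δ δ' : ℝ} (h0 : 0 ≤ δ) (h : δ ≤ δ') {T : H →L[ℂ] H} {g : H}
    (hg : IsCen W R δ T g) : IsCen W R δ' T g := by
  refine ⟨hg.ne, hg.tight, hg.small.trans ?_⟩
  gcongr

theorem isCen_smul {W : Weyl H} {R δ : ℝ} {T : H →L[ℂ] H} {g : H} (c : ℂ) (hc : c ≠ 0)
    (hg : IsCen W R δ T g) : IsCen W R δ T (c • g) := by
  refine ⟨smul_ne_zero hc hg.ne, ?_, ?_⟩
  · rw [sg_S2_V_smul, sg_S2_V_smul, mul_left_comm]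
    gcongr
    exact hg.tight
  · rw [map_smul, sg_S2_V_smul, sg_S2_V_smul, mul_left_comm]
    gcongr
    exact hg.small

theorem ctr_mono {W : Weyl H} {D : Data} {F : Fam W D} {n : ℕ} {δ δ' : ℝ} (h0 : 0 ≤ δ)
    (h : δ ≤ δ') {w : ℂ} {g : H} (hg : F.Ctr n δ w g) : F.Ctr n δ' w g :=
  isCen_mono h0 h hg

/-- normalisation of the vector of a centre -/
theorem ctr_normalise {W : Weyl H} {D : Data} {F : Fam W D} {n : ℕ} {δ : ℝ} {w : ℂ} {g : H}
    (hg : F.Ctr n δ w g) : ∃ g' : H, F.Ctr n δ w g' ∧ S2 (om F.R) (W.V g') = 1 := by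
  have hR : (0 : ℝ) < F.R := by linarith [F.R_ge]
  have hpos : ∀ z : ℂ, 0 < om F.R z := fun z => by unfold om; positivity
  have hc : Continuous (om F.R) := by
    unfold om
    refine Continuous.inv₀ (by fun_prop) fun z => ?_
    positivity
  have hle : ∀ z : ℂ, |om F.R z| ≤ 1 := fun z => by
    rw [abs_of_pos (hpos z)]
    unfold om
    apply inv_le_one_of_one_le₀
    apply one_le_pow₀
    have : 0 ≤ ‖z‖ / F.R := by positivity
    linarith
  have h1 := S2_V_pos W (om F.R) hpos hc g hg.ne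
  have h2 := S2_V_lt_top W (om F.R) 1 hle g
  set a : ℝ := (S2 (om F.R) (W.V g)).toReal with ha
  have ha0 : 0 < a := ENNReal.toReal_pos h1.ne' h2.ne
  have haS : S2 (om F.R) (W.V g) = ENNReal.ofReal a := (ENNReal.ofReal_toReal h2.ne).symm
  set c : ℝ := (Real.sqrt a)⁻¹ with hcdef
  have hc0 : 0 < c := by positivity
  have hc2 : c ^ 2 * a = 1 := by
    rw [hcdef, inv_pow, Real.sq_sqrt ha0.le, inv_mul_cancel₀ ha0.ne']
  refine ⟨((c : ℝ) : ℂ) • g, isCen_smul _ (by exact_mod_cast hc0.ne') hg, ?_⟩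
  rw [sg_S2_V_smul, haS, ← ofReal_norm_eq_enorm, Complex.norm_real, Real.norm_eq_abs,
    abs_of_pos hc0, ← ENNReal.ofReal_pow hc0.le, ← ENNReal.ofReal_mul (by positivity), hc2,
    ENNReal.ofReal_one]

/-- centres of the translated operator (`tr_tr`) -/
theorem ctr_iff {W : Weyl H} {D : Data} (F : Fam W D) (n : ℕ) (δ : ℝ) (w w' : ℂ) (g : H) :
    F.Ctr n δ (w + w') g ↔ IsCen W F.R δ (tr W w' (tr W w (F.A n))) g := by
  rw [tr_tr]
  exact Iff.rfl

theorem sepR_mono {W : Weyl H} {D : Data} (F : Fam W D) {R0 δ0 : ℝ} {n : ℕ} {e1 e2 : ℝ}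
    (h : F.SepR R0 δ0 n e1) (h12 : e1 ≤ e2) : F.SepR R0 δ0 n e2 :=
  fun e he1 he2 => h e (h12.trans he1) he2

end Pool.Agent.Helper84.HRT
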