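import Mathlib
import Pool.Agent.Helper84.HRT.DefsS
import Pool.Agent.Helper84.HRT.L9A
import Pool.Agent.Helper84.HRT.L9
import Pool.Agent.Helper84.HRT.L9B
import Pool.Agent.Helper84.HRT.SA
import Pool.Agent.Helper84.HRT.SC
import Pool.Agent.Helper84.HRT.SG

open MeasureTheory Complex Filter
open scoped ENNReal NNReal ComplexConjugate InnerProductSpace BigOperators Topology

namespace Pool.Agent.Helper84.HRT

variable {H : Type} [NormedAddCommGroup H] [InnerProductSpace ℂ H] [CompleteSpace H]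

omit [InnerProductSpace ℂ H] [CompleteSpace H] in
private theorem l16a_enorm (v : H) : ‖v‖ₑ ^ 2 = ENNReal.ofReal (‖v‖ ^ 2) := by
  rw [← ofReal_norm, ENNReal.ofReal_pow (norm_nonneg _)]

/-- location of the centres -/
private theorem l16a_loc {W : Weyl H} {D : Data} (F : Fam W D) {R0 Dd δ0 R2 e1 e : ℝ} {n : ℕ}
    (hD : 2 ≤ Dd) (hδ0 : δ0 ≤ 1 / Dd) (hR2 : 0 < R2) (hR2δ : Dd ≤ δ0 * R2)
    (he1 : 0 < e1) (he1R : e1 * R2 ≤ Dd / 2) (hsep : F.SepR R0 δ0 n e1) {w w' : ℂ} {g g' : H}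
    (hg : F.Ctr n e1 w g) (he : e = Dd / (R2 + ‖w'‖)) (hg' : F.Ctr n e (w + w') g') :
    ‖w'‖ ≤ R0 ∨ 1 / e1 ≤ ‖w'‖ := by
  have hw := norm_nonneg w'
  have hpos : 0 < R2 + ‖w'‖ := by linarith
  have he0 : 0 < e := by
    rw [he]
    positivity
  have heq : e * (R2 + ‖w'‖) = Dd := by
    rw [he]
    field_simp
  have hδ0pos : 0 < δ0 := by
    by_contra hcon
    push Not at hcon
    nlinarith
  have heδ : e ≤ δ0 := by
    rw [he, div_le_iff₀ hpos]
    nlinarith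
  have heD : e * Dd ≤ 1 := by
    have : δ0 * Dd ≤ 1 := by
      calc δ0 * Dd ≤ 1 / Dd * Dd := by gcongr
        _ = 1 := by field_simp
    nlinarith
  have he_le : e ≤ 1 := by nlinarith
  rcases le_or_gt e1 e with h | h
  · have h1 := hsep e h heδ (w + w') w ⟨g', hg'⟩ ⟨g, ctr_mono he1.le h hg⟩
    rw [add_sub_cancel_left] at h1
    rcases h1 with h1 | h1
    · exact Or.inl h1
    · exfalso
      have h2 : 1 ≤ e ^ 50 * ‖w'‖ := by
        rw [inv_le_iff_one_le_mul₀ (by positivity)] at h1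
        linarith
      have h3 : e ^ 49 ≤ e := by
        calc e ^ 49 ≤ e ^ 1 := pow_le_pow_of_le_one he0.le he_le (by norm_num)
          _ = e := pow_one e
      have h4 : e * ‖w'‖ < Dd := by nlinarith
      have h5 : e ^ 50 * ‖w'‖ = e ^ 49 * (e * ‖w'‖) := by ring
      have h6 : 0 < e ^ 49 := by positivity
      have h7 : e ^ 49 * (e * ‖w'‖) < e ^ 49 * Dd := by gcongr
      have h8 : e ^ 49 * Dd ≤ e * Dd := by gcongr
      linarith
  · right
    rw [div_le_iff₀ he1]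
    have h1 : Dd < e1 * (R2 + ‖w'‖) := by
      rw [← heq]
      gcongr
    nlinarith

/-- CONC: a vector which is near-null at all scales `s` has its mass near `0` or very far out. -/
theorem conc {W : Weyl H} {D : Data} (F : Fam W D) (R0 M0 B : ℝ) (hR0 : 1 ≤ R0) (hM0 : 1 ≤ M0)
    (hB : 1 ≤ B) : ∃ ρ : ℝ, 0 < ρ ∧ ∃ δ00 : ℝ, 0 < δ00 ∧ ∀ δ0 : ℝ, 0 < δ0 → δ0 ≤ δ00 →
    ∃ R20 : ℝ, 1 ≤ R20 ∧ ∀ R2 : ℝ, R20 ≤ R2 → ∃ e10 : ℝ, 0 < e10 ∧ ∀ n, F.n1 ≤ n →
    ∀ e1 : ℝ, 0 < e1 → e1 ≤ e10 → F.SepR R0 δ0 n e1 → ∀ (w : ℂ) (g : H), F.Ctr n e1 w g →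
    ∀ v : H, S2 (fun z => (slo B R2 z)⁻¹) (W.V (tr W w (F.A n) v)) ≤
      ENNReal.ofReal M0 * ‖v‖ₑ ^ 2 →
    ENNReal.ofReal (8 / 10) * ‖v‖ₑ ^ 2 ≤ S2 (ball1 ρ) (W.V v) ∨
    ENNReal.ofReal (1 / 20) * ‖v‖ₑ ^ 2 ≤ S2 (out1 (1 / (2 * e1))) (W.V v) := by
  obtain ⟨C9, hC9, h9⟩ := L9
  have hFR := F.R_ge
  have hFR1 : 1 ≤ F.R := by linarith
  obtain ⟨R1, hR1, hnear⟩ := mass_near F.R R0 hFR1 (by linarith)
  obtain ⟨C, hC, hfar⟩ := mass_far
  set Dd : ℝ := max C9 1 * Real.sqrt M0 * F.R * (2 * B) with hDd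
  have hsq : 1 ≤ Real.sqrt M0 := Real.one_le_sqrt.2 hM0
  have hm1 : 1 ≤ max C9 1 := le_max_right _ _
  have hDd2 : 2 ≤ Dd := by
    have a1 : 1 ≤ max C9 1 * Real.sqrt M0 := one_le_mul_of_one_le_of_one_le hm1 hsq
    have a2 : 1 ≤ max C9 1 * Real.sqrt M0 * F.R := one_le_mul_of_one_le_of_one_le a1 hFR1
    rw [hDd]
    nlinarith
  refine ⟨R1, by linarith, 1 / Dd, by positivity, fun δ0 hδ0 hδ00 => ?_⟩
  refine ⟨max 1 (max (Dd / δ0) (2 * B)), le_max_left _ _, fun R2 hR2 => ?_⟩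
  have hR2a : 1 ≤ R2 := (le_max_left _ _).trans hR2
  have hR2b : Dd / δ0 ≤ R2 := ((le_max_left _ _).trans (le_max_right _ _)).trans hR2
  have hR2c : 2 * B ≤ R2 := ((le_max_right _ _).trans (le_max_right _ _)).trans hR2
  have hR2d : Dd ≤ δ0 * R2 := by
    rw [div_le_iff₀ hδ0] at hR2b
    linarith
  refine ⟨min (Dd / (2 * R2)) (1 / (F.R * (1 + 100 * C))), by positivity, ?_⟩
  intro n hn e1 he1 he10 hsep w g hg v hv
  have he1a : e1 ≤ Dd / (2 * R2) := he10.trans (min_le_left _ _)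
  have he1b : e1 ≤ 1 / (F.R * (1 + 100 * C)) := he10.trans (min_le_right _ _)
  have he1R : e1 * R2 ≤ Dd / 2 := by
    rw [le_div_iff₀ (by positivity)] at he1a
    linarith
  by_cases hv0 : v = 0
  · left
    rw [hv0]
    simp
  have hv' : S2 (fun z => (slo B R2 z)⁻¹) (W.V (tr W w (F.A n) v)) ≤
      ENNReal.ofReal (M0 * ‖v‖ ^ 2) := by
    rw [ENNReal.ofReal_mul (by linarith), ← l16a_enorm]
    exact hv
  obtain ⟨E, hE, hEc, hEm⟩ := h9 H W F.R hFR1 (tr W w (F.A n)) v (slo B R2) M0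
    (slo_cont B R2 (by linarith)) (slo_pos B R2 (by linarith) (by linarith))
    (fun z => (slo_le B R2 (by linarith) (by linarith) z).trans (by
      rw [div_le_one (by linarith)]; exact hR2c))
    (slo_doubling B R2 (by linarith) hR2a) (by linarith) hv0 hv'
  have hsub : ∀ w' ∈ E, ‖w'‖ ≤ R0 ∨ 1 / e1 ≤ ‖w'‖ := by
    intro w' hw'
    have h1 := hEc w' hw'
    have h2 : C9 * Real.sqrt M0 * F.R * slo B R2 w' ≤ Dd / (R2 + ‖w'‖) := by
      unfold slo
      have h0 : 0 ≤ 2 * B / (R2 + ‖w'‖) := by positivity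
      have h1 : C9 ≤ max C9 1 := le_max_left _ _
      calc C9 * Real.sqrt M0 * F.R * (2 * B / (R2 + ‖w'‖)) ≤
          max C9 1 * Real.sqrt M0 * F.R * (2 * B / (R2 + ‖w'‖)) := by gcongr
        _ = Dd / (R2 + ‖w'‖) := by rw [hDd]; ring
    have h3 : 0 ≤ C9 * Real.sqrt M0 * F.R * slo B R2 w' := by
      have := (slo_pos B R2 (by linarith) (by linarith) w').le
      positivity
    have h4 := isCen_mono h3 h2 h1
    have h5 : F.Ctr n (Dd / (R2 + ‖w'‖)) (w + w') (W.U w' v) := (ctr_iff F n _ w w' _).2 h4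
    exact l16a_loc F hDd2 hδ00 (by linarith) hR2d he1 he1R hsep hg rfl h5
  rcases le_or_gt (ENNReal.ofReal (1 / 20) * ‖v‖ₑ ^ 2) (S2 (out1 (1 / (2 * e1))) (W.V v))
    with h | h
  · exact Or.inr h
  left
  have hT : F.R ≤ 1 / e1 := by
    rw [le_div_iff₀ he1]
    calc F.R * e1 ≤ F.R * (1 / (F.R * (1 + 100 * C))) := by gcongr
      _ = 1 / (1 + 100 * C) := by field_simp
      _ ≤ 1 := by
        rw [div_le_one (by positivity)]
        linarith
  have hf := hfar H W F.R hFR1 (1 / e1) hT v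
  have hmu := mass_univ W F.R hFR1 v
  have hbig : C * (F.R / (1 / e1)) ^ 6 ≤ 1 / 100 := by
    have a0 : F.R / (1 / e1) = F.R * e1 := by field_simp
    have a1 : F.R * e1 ≤ 1 / (1 + 100 * C) := by
      calc F.R * e1 ≤ F.R * (1 / (F.R * (1 + 100 * C))) := by gcongr
        _ = 1 / (1 + 100 * C) := by field_simp
    have a2 : (1 : ℝ) / (1 + 100 * C) ≤ 1 := by
      rw [div_le_one (by positivity)]
      linarith
    have a3 : (F.R * e1) ^ 6 ≤ 1 / (1 + 100 * C) := by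
      calc (F.R * e1) ^ 6 ≤ (1 / (1 + 100 * C)) ^ 6 := by gcongr
        _ ≤ (1 / (1 + 100 * C)) ^ 1 := pow_le_pow_of_le_one (by positivity) a2 (by norm_num)
        _ = _ := pow_one _
    rw [a0]
    calc C * (F.R * e1) ^ 6 ≤ C * (1 / (1 + 100 * C)) := by gcongr
      _ ≤ 1 / 100 := by
        rw [mul_one_div, div_le_div_iff₀ (by positivity) (by norm_num)]
        linarith
  have hfarm : mass W F.R v {w | 1 / e1 ≤ ‖w‖} ≤
      ENNReal.ofReal (6 / 100) * mass W F.R v Set.univ := by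
    refine hf.trans ?_
    have e2 : (1 / e1) / 2 = 1 / (2 * e1) := by
      field_simp
    rw [e2, ← S2_out_eq]
    have b1 : ENNReal.ofReal (F.R ^ 2 / 21) * S2 (out1 (1 / (2 * e1))) (W.V v) ≤
        ENNReal.ofReal (1 / 20) * mass W F.R v Set.univ := by
      rw [hmu, ← l16a_enorm]
      calc ENNReal.ofReal (F.R ^ 2 / 21) * S2 (out1 (1 / (2 * e1))) (W.V v)
          ≤ ENNReal.ofReal (F.R ^ 2 / 21) * (ENNReal.ofReal (1 / 20) * ‖v‖ₑ ^ 2) := by
            gcongr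
        _ = _ := by ring
    have b2 : ENNReal.ofReal (C * (F.R / (1 / e1)) ^ 6) * mass W F.R v Set.univ ≤
        ENNReal.ofReal (1 / 100) * mass W F.R v Set.univ := by
      gcongr
    refine (add_le_add b1 b2).trans (le_of_eq ?_)
    rw [← add_mul, ← ENNReal.ofReal_add (by norm_num) (by norm_num)]
    norm_num
  have htop : mass W F.R v Set.univ ≠ ⊤ := by
    rw [hmu]
    exact ENNReal.mul_ne_top ENNReal.ofReal_ne_top ENNReal.ofReal_ne_top
  have hcover : mass W F.R v Set.univ ≤ mass W F.R v {w | ‖w‖ ≤ R0} +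
      (mass W F.R v {w | 1 / e1 ≤ ‖w‖} + mass W F.R v Eᶜ) := by
    unfold mass
    have hU : (Set.univ : Set ℂ) ⊆ {w : ℂ | ‖w‖ ≤ R0} ∪ ({w : ℂ | 1 / e1 ≤ ‖w‖} ∪ Eᶜ) := by
      intro x _
      by_cases hx : x ∈ E
      · rcases hsub x hx with h1 | h1
        · exact Or.inl h1
        · exact Or.inr (Or.inl h1)
      · exact Or.inr (Or.inr hx)
    refine (lintegral_mono_set hU).trans ((lintegral_union_le _ _ _).trans ?_)
    gcongr
    exact lintegral_union_le _ _ _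
  have hnear' : ENNReal.ofReal (9 / 10) * mass W F.R v Set.univ ≤
      mass W F.R v {w | ‖w‖ ≤ R0} := by
    have c1 : mass W F.R v Set.univ ≤ mass W F.R v {w | ‖w‖ ≤ R0} +
        ENNReal.ofReal (7 / 100) * mass W F.R v Set.univ := by
      refine hcover.trans ?_
      gcongr
      refine (add_le_add hfarm hEm).trans (le_of_eq ?_)
      rw [← add_mul, ← ENNReal.ofReal_add (by norm_num) (by norm_num)]
      norm_num
    have c2 : mass W F.R v Set.univ = ENNReal.ofReal (93 / 100) * mass W F.R v Set.univ +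
        ENNReal.ofReal (7 / 100) * mass W F.R v Set.univ := by
      rw [← add_mul, ← ENNReal.ofReal_add (by norm_num) (by norm_num)]
      norm_num
    have c3 : ENNReal.ofReal (93 / 100) * mass W F.R v Set.univ ≤
        mass W F.R v {w | ‖w‖ ≤ R0} :=
      ENNReal.le_of_add_le_add_right (ENNReal.mul_ne_top ENNReal.ofReal_ne_top htop)
        (c2.symm.le.trans c1)
    refine le_trans ?_ c3
    have c4 : ENNReal.ofReal (9 / 10) ≤ ENNReal.ofReal (93 / 100) :=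
      ENNReal.ofReal_le_ofReal (by norm_num)
    gcongr
  have hfin := hnear H W v hnear'
  rw [S2_ball_eq]
  refine le_trans (le_of_eq ?_) hfin
  rw [ENNReal.ofReal_mul (by norm_num), l16a_enorm]

end Pool.Agent.Helper84.HRT
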