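import Mathlib
import Pool.Agent.Helper84.HRT.DefsS

open MeasureTheory Complex Filter
open scoped ENNReal NNReal ComplexConjugate InnerProductSpace BigOperators Topology

namespace Pool.Agent.Helper84.HRT

variable {H : Type} [NormedAddCommGroup H] [InnerProductSpace ℂ H] [CompleteSpace H]

/-! Log-Lipschitz functions. -/

theorem logLip_one : LogLip (fun _ => 1) where
  pos := fun _ => one_pos
  le := fun z ζ => by
    rw [one_mul]
    exact Real.one_le_exp (norm_nonneg _)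

private theorem sb_tri (z ζ : ℂ) : ‖z‖ ≤ ‖ζ‖ + ‖z - ζ‖ := by
  have h := norm_add_le ζ (z - ζ)
  rwa [add_sub_cancel] at h

private theorem sb_tri' (z ζ : ℂ) : ‖ζ‖ ≤ ‖z‖ + ‖z - ζ‖ := by
  have h := sb_tri ζ z
  rwa [norm_sub_rev] at h

theorem logLip_slo_inv (B R2 : ℝ) (hB : 0 < B) (hR : 1 ≤ R2) :
    LogLip (fun z => (slo B R2 z)⁻¹) where
  pos := fun z => by
    unfold slo
    have := norm_nonneg z
    positivity
  le := fun z ζ => by
    unfold slo
    rw [inv_div, inv_div]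
    have h1 := sb_tri z ζ
    have h2 := Real.add_one_le_exp ‖z - ζ‖
    have h3 := norm_nonneg (z - ζ)
    have h4 := norm_nonneg ζ
    rw [div_mul_eq_mul_div]
    refine div_le_div_of_nonneg_right ?_ (by positivity)
    calc R2 + ‖z‖ ≤ (R2 + ‖ζ‖) * (‖z - ζ‖ + 1) := by nlinarith
      _ ≤ _ := mul_le_mul_of_nonneg_left h2 (by positivity)

theorem logLip_in (T : ℝ) : LogLip (fun z => min 1 (Real.exp (‖z‖ - T))) where
  pos := fun z => lt_min one_pos (Real.exp_pos _)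
  le := fun z ζ => by
    have h1 := sb_tri z ζ
    have h0 : 0 ≤ Real.exp ‖z - ζ‖ := (Real.exp_pos _).le
    rw [min_mul_of_nonneg _ _ h0, one_mul]
    refine le_min ((min_le_left _ _).trans (Real.one_le_exp (norm_nonneg _)))
      ((min_le_right _ _).trans ?_)
    rw [← Real.exp_add]
    exact Real.exp_le_exp.2 (by linarith)

theorem logLip_out (T : ℝ) : LogLip (fun z => min 1 (Real.exp (T - ‖z‖))) where
  pos := fun z => lt_min one_pos (Real.exp_pos _)
  le := fun z ζ => by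
    have h1 := sb_tri' z ζ
    have h0 : 0 ≤ Real.exp ‖z - ζ‖ := (Real.exp_pos _).le
    rw [min_mul_of_nonneg _ _ h0, one_mul]
    refine le_min ((min_le_left _ _).trans (Real.one_le_exp (norm_nonneg _)))
      ((min_le_right _ _).trans ?_)
    rw [← Real.exp_add]
    exact Real.exp_le_exp.2 (by linarith)

theorem logLip_exp_neg : LogLip (fun z => Real.exp (-‖z‖)) where
  pos := fun z => Real.exp_pos _
  le := fun z ζ => by
    have h1 := sb_tri' z ζ
    rw [← Real.exp_add]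
    exact Real.exp_le_exp.2 (by linarith)

private theorem sb_ratio (m : ℕ) {a b t : ℝ} (hb : 0 ≤ b) (ha : 0 ≤ a) (ht : 0 ≤ t)
    (h : a ≤ b + t) :
    (1 + a / ((m : ℝ) + 1)) ^ m ≤ (1 + b / ((m : ℝ) + 1)) ^ m * Real.exp t := by
  have hm : (0 : ℝ) < (m : ℝ) + 1 := by positivity
  have h1 : 1 + a / ((m : ℝ) + 1) ≤ (1 + b / ((m : ℝ) + 1)) * Real.exp (t / ((m : ℝ) + 1)) := by
    have h2 := Real.add_one_le_exp (t / ((m : ℝ) + 1))
    have h3 : a / ((m : ℝ) + 1) ≤ b / ((m : ℝ) + 1) + t / ((m : ℝ) + 1) := by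
      rw [← add_div]
      exact div_le_div_of_nonneg_right h hm.le
    have h4 : 0 ≤ b / ((m : ℝ) + 1) := by positivity
    have h5 : 0 ≤ t / ((m : ℝ) + 1) := by positivity
    calc 1 + a / ((m : ℝ) + 1) ≤
        (1 + b / ((m : ℝ) + 1)) * (t / ((m : ℝ) + 1) + 1) := by nlinarith
      _ ≤ _ := mul_le_mul_of_nonneg_left h2 (by positivity)
  calc (1 + a / ((m : ℝ) + 1)) ^ m
      ≤ ((1 + b / ((m : ℝ) + 1)) * Real.exp (t / ((m : ℝ) + 1))) ^ m :=
        pow_le_pow_left₀ (by positivity) h1 m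
    _ = (1 + b / ((m : ℝ) + 1)) ^ m * Real.exp (m * (t / ((m : ℝ) + 1))) := by
        rw [mul_pow, ← Real.exp_nat_mul]
    _ ≤ _ := by
        refine mul_le_mul_of_nonneg_left (Real.exp_le_exp.2 ?_) (by positivity)
        rw [mul_div_assoc', div_le_iff₀ hm]
        nlinarith

private theorem sb_comp (m : ℕ) {a : ℝ} (ha : 0 ≤ a) :
    (1 + a / ((m : ℝ) + 1)) ^ m ≤ (1 + a) ^ m ∧
      (1 + a) ^ m ≤ ((m : ℝ) + 1) ^ m * (1 + a / ((m : ℝ) + 1)) ^ m := by
  have hm : (0 : ℝ) < (m : ℝ) + 1 := by positivity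
  have hm0 : (0 : ℝ) ≤ (m : ℝ) := Nat.cast_nonneg m
  constructor
  · refine pow_le_pow_left₀ (by positivity) ?_ m
    have : a / ((m : ℝ) + 1) ≤ a := div_le_self ha (by linarith)
    linarith
  · rw [← mul_pow]
    refine pow_le_pow_left₀ (by positivity) ?_ m
    rw [mul_add, mul_div_cancel₀ _ hm.ne']
    linarith

/-- comparison of `pw k` with the log-Lipschitz weight `(1+|z|/(|k|+1))^k` -/
theorem exists_logLip_pw (k : ℤ) : ∃ (Y : ℂ → ℝ) (c : ℝ), 0 < c ∧ LogLip Y ∧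
    ∀ z, Y z ≤ c * pw k z ∧ pw k z ≤ c * Y z := by
  obtain ⟨m, rfl | rfl⟩ := k.eq_nat_or_neg
  · refine ⟨fun z => (1 + ‖z‖ / ((m : ℝ) + 1)) ^ m, ((m : ℝ) + 1) ^ m, by positivity, ?_, ?_⟩
    · refine ⟨fun z => by positivity, fun z ζ => ?_⟩
      exact sb_ratio m (norm_nonneg _) (norm_nonneg _) (norm_nonneg _) (sb_tri z ζ)
    · intro z
      obtain ⟨h1, h2⟩ := sb_comp m (norm_nonneg z)
      unfold pw
      rw [zpow_natCast]
      refine ⟨?_, h2⟩
      have h3 : (1 : ℝ) ≤ ((m : ℝ) + 1) ^ m := one_le_pow₀ (by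
        have : (0 : ℝ) ≤ (m : ℝ) := Nat.cast_nonneg m
        linarith)
      have h4 : 0 ≤ (1 + ‖z‖) ^ m := by positivity
      nlinarith
  · refine ⟨fun z => ((1 + ‖z‖ / ((m : ℝ) + 1)) ^ m)⁻¹, ((m : ℝ) + 1) ^ m, by positivity, ?_, ?_⟩
    · refine ⟨fun z => by positivity, fun z ζ => ?_⟩
      have h1 := sb_ratio m (norm_nonneg z) (norm_nonneg ζ) (norm_nonneg (z - ζ)) (sb_tri' z ζ)
      have h2 : 0 < (1 + ‖z‖ / ((m : ℝ) + 1)) ^ m := by positivity
      have h3 : 0 < (1 + ‖ζ‖ / ((m : ℝ) + 1)) ^ m := by positivity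
      rw [inv_le_iff_one_le_mul₀ h2, mul_comm, ← mul_assoc, ← div_eq_mul_inv,
        div_mul_eq_mul_div, le_div_iff₀ h3, one_mul]
      exact h1
    · intro z
      obtain ⟨h1, h2⟩ := sb_comp m (norm_nonneg z)
      unfold pw
      rw [zpow_neg, zpow_natCast]
      have h3 : (1 : ℝ) ≤ ((m : ℝ) + 1) ^ m := one_le_pow₀ (by
        have : (0 : ℝ) ≤ (m : ℝ) := Nat.cast_nonneg m
        linarith)
      have h4 : 0 < (1 + ‖z‖) ^ m := by positivity
      have h5 : 0 < (1 + ‖z‖ / ((m : ℝ) + 1)) ^ m := by positivity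
      constructor
      · rw [inv_le_iff_one_le_mul₀ h5, mul_comm, ← mul_assoc, ← div_eq_mul_inv,
          le_div_iff₀ h4, one_mul, mul_comm]
        exact h2
      · have h6 : ((1 + ‖z‖) ^ m)⁻¹ ≤ ((1 + ‖z‖ / ((m : ℝ) + 1)) ^ m)⁻¹ :=
          inv_anti₀ h5 h1
        refine h6.trans ?_
        have h7 : 0 < ((1 + ‖z‖ / ((m : ℝ) + 1)) ^ m)⁻¹ := by positivity
        nlinarith

end Pool.Agent.Helper84.HRT
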