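import Mathlib
import Pool.Agent.Helper84.HRT.DefsS
import Pool.Agent.Helper84.HRT.YK
import Pool.Agent.Helper84.HRT.SB

open MeasureTheory Complex Filter
open scoped ENNReal NNReal ComplexConjugate InnerProductSpace BigOperators Topology

namespace Pool.Agent.Helper84.HRT

variable {H : Type} [NormedAddCommGroup H] [InnerProductSpace ℂ H] [CompleteSpace H]

/-! `Kop` on polynomial weights and cut offs (from `Kop_weighted` in YK, and SB). -/

private theorem sd_S2_le (Y Y' : ℂ → ℝ) (c : ℝ) (h0 : ∀ z, 0 ≤ Y z)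
    (h : ∀ z, Y z ≤ c * Y' z) (F : ℂ → ℂ) : S2 Y F ≤ ENNReal.ofReal (c ^ 2) * S2 Y' F := by
  unfold S2
  rw [← lintegral_const_mul' _ _ ENNReal.ofReal_ne_top]
  refine lintegral_mono fun z => ?_
  have h1 : ‖((Y z : ℝ) : ℂ) * F z‖ ^ 2 ≤ c ^ 2 * ‖((Y' z : ℝ) : ℂ) * F z‖ ^ 2 := by
    rw [norm_mul, norm_mul, Complex.norm_real, Complex.norm_real, Real.norm_eq_abs,
      Real.norm_eq_abs, mul_pow, mul_pow, sq_abs, sq_abs, ← mul_assoc]
    refine mul_le_mul_of_nonneg_right ?_ (by positivity)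
    rw [← mul_pow]
    exact pow_le_pow_left₀ (h0 z) (h z) 2
  have h2 := ENNReal.ofReal_le_ofReal h1
  rw [ENNReal.ofReal_mul (by positivity), ENNReal.ofReal_pow (norm_nonneg _),
    ENNReal.ofReal_pow (norm_nonneg _), ofReal_norm, ofReal_norm] at h2
  exact h2

theorem Kop_pw (k : ℤ) : ∃ C : ℝ, 0 < C ∧ ∀ F : ℂ → ℂ, AEStronglyMeasurable F dA →
    S2 (pw k) (Kop F) ≤ ENNReal.ofReal C * S2 (pw k) F := by
  obtain ⟨C, hC, hK⟩ := Kop_weighted
  obtain ⟨Y, c, hc, hY, hYc⟩ := exists_logLip_pw k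
  have hpw : ∀ z, 0 ≤ pw k z := fun z => by
    unfold pw
    positivity
  refine ⟨c ^ 2 * (C * c ^ 2), by positivity, fun F hF => ?_⟩
  calc S2 (pw k) (Kop F) ≤ ENNReal.ofReal (c ^ 2) * S2 Y (Kop F) :=
        sd_S2_le _ _ c hpw (fun z => (hYc z).2) _
    _ ≤ ENNReal.ofReal (c ^ 2) * (ENNReal.ofReal C * S2 Y F) := by
        gcongr
        exact hK Y F hY hF
    _ ≤ ENNReal.ofReal (c ^ 2) * (ENNReal.ofReal C * (ENNReal.ofReal (c ^ 2) * S2 (pw k) F)) := by
        gcongr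
        exact sd_S2_le _ _ c (fun z => (hY.pos z).le) (fun z => (hYc z).1) _
    _ = ENNReal.ofReal (c ^ 2 * (C * c ^ 2)) * S2 (pw k) F := by
        rw [ENNReal.ofReal_mul (by positivity), ENNReal.ofReal_mul hC.le]
        ring

/-- `Kop_weighted` with `Y = min 1 (exp (|z|-T/2))` -/
theorem Kop_out : ∃ C : ℝ, 0 < C ∧ ∀ T : ℝ, 0 ≤ T → ∀ F : ℂ → ℂ, AEStronglyMeasurable F dA →
    S2 (out1 (T / 2)) (Kop F) ≤ ENNReal.ofReal C * (S2 (out1 (T / 4)) F +
      ENNReal.ofReal (Real.exp (-(T / 2))) * S2 (fun _ => 1) F) := by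
  obtain ⟨C, hC, hK⟩ := Kop_weighted
  refine ⟨C, hC, fun T hT F hF => ?_⟩
  have hnn : ∀ ρ z, 0 ≤ out1 ρ z := by
    intro ρ z
    unfold out1
    by_cases h : z ∈ {y : ℂ | ρ ≤ ‖y‖}
    · rw [Set.indicator_of_mem h]; exact zero_le_one
    · rw [Set.indicator_of_notMem h]
  have h1 : S2 (out1 (T / 2)) (Kop F) ≤ S2 (fun z => min 1 (Real.exp (‖z‖ - T / 2))) (Kop F) := by
    have h2 := sd_S2_le (out1 (T / 2)) (fun z => min 1 (Real.exp (‖z‖ - T / 2))) 1 (hnn _) ?_
      (Kop F)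
    · simpa using h2
    · intro z
      rw [one_mul]
      unfold out1
      by_cases h : z ∈ {y : ℂ | T / 2 ≤ ‖y‖}
      · rw [Set.indicator_of_mem h, Pi.one_apply]
        have h3 : (0 : ℝ) ≤ ‖z‖ - T / 2 := sub_nonneg.2 h
        exact le_min le_rfl (Real.one_le_exp h3)
      · rw [Set.indicator_of_notMem h]
        positivity
  have h2 := hK _ F (logLip_in (T / 2)) hF
  refine (h1.trans h2).trans ?_
  gcongr
  have hm : AEMeasurable (fun z => ‖((out1 (T / 4) z : ℝ) : ℂ) * F z‖ₑ ^ 2) dA := by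
    have hs : MeasurableSet {y : ℂ | T / 4 ≤ ‖y‖} := measurableSet_le measurable_const
      measurable_norm
    have h3 : Measurable fun z => ((out1 (T / 4) z : ℝ) : ℂ) := by
      unfold out1
      exact Complex.measurable_ofReal.comp (measurable_one.indicator hs)
    exact ((h3.aemeasurable.mul hF.aemeasurable).enorm).pow_const 2
  have h4 : ENNReal.ofReal (Real.exp (-(T / 2))) * S2 (fun _ => 1) F =
      ∫⁻ z, ENNReal.ofReal (Real.exp (-(T / 2))) * ‖F z‖ₑ ^ 2 ∂dA := by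
    unfold S2
    rw [lintegral_const_mul' _ _ ENNReal.ofReal_ne_top]
    simp
  rw [h4]
  unfold S2
  rw [← lintegral_add_left' hm]
  refine lintegral_mono fun z => ?_
  by_cases h : z ∈ {y : ℂ | T / 4 ≤ ‖y‖}
  · refine le_trans ?_ le_self_add
    have h5 : out1 (T / 4) z = 1 := by
      unfold out1
      rw [Set.indicator_of_mem h, Pi.one_apply]
    rw [h5]
    have h6 : ‖((min 1 (Real.exp (‖z‖ - T / 2)) : ℝ) : ℂ) * F z‖ ≤ ‖(((1 : ℝ)) : ℂ) * F z‖ := by
      rw [norm_mul, norm_mul, Complex.norm_real, Complex.norm_real]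
      refine mul_le_mul_of_nonneg_right ?_ (norm_nonneg _)
      rw [Real.norm_eq_abs, abs_of_nonneg (by positivity), norm_one]
      exact min_le_left _ _
    have h7 : ‖((min 1 (Real.exp (‖z‖ - T / 2)) : ℝ) : ℂ) * F z‖ₑ ≤ ‖(((1 : ℝ)) : ℂ) * F z‖ₑ := by
      rw [← ofReal_norm, ← ofReal_norm]
      exact ENNReal.ofReal_le_ofReal h6
    exact pow_le_pow_left' h7 2
  · refine le_trans ?_ le_add_self
    have h3 : ‖z‖ < T / 4 := not_le.1 h
    have h5 : ‖((min 1 (Real.exp (‖z‖ - T / 2)) : ℝ) : ℂ) * F z‖ ^ 2 ≤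
        Real.exp (-(T / 2)) * ‖F z‖ ^ 2 := by
      rw [norm_mul, mul_pow, Complex.norm_real, Real.norm_eq_abs, sq_abs]
      refine mul_le_mul_of_nonneg_right ?_ (by positivity)
      have h6 : min 1 (Real.exp (‖z‖ - T / 2)) ≤ Real.exp (-(T / 4)) :=
        (min_le_right _ _).trans (Real.exp_le_exp.2 (by linarith))
      have h7 : Real.exp (-(T / 4)) ^ 2 = Real.exp (-(T / 2)) := by
        rw [← Real.exp_nat_mul]
        congr 1
        push_cast
        ring
      rw [← h7]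
      exact pow_le_pow_left₀ (by positivity) h6 2
    have h8 := ENNReal.ofReal_le_ofReal h5
    rw [ENNReal.ofReal_mul (by positivity), ENNReal.ofReal_pow (norm_nonneg _),
      ENNReal.ofReal_pow (norm_nonneg _), ofReal_norm, ofReal_norm] at h8
    exact h8

/-- `Kop_weighted` with `Y = min 1 (exp (T-|z|))` -/
theorem Kop_in : ∃ C : ℝ, 0 < C ∧ ∀ (T : ℝ) (F : ℂ → ℂ), AEStronglyMeasurable F dA →
    S2 (ball1 T) (Kop F) ≤
      ENNReal.ofReal C * S2 (fun z => min 1 (Real.exp (T - ‖z‖))) F := by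
  obtain ⟨C, hC, hK⟩ := Kop_weighted
  refine ⟨C, hC, fun T F hF => ?_⟩
  have h1 : S2 (ball1 T) (Kop F) ≤ S2 (fun z => min 1 (Real.exp (T - ‖z‖))) (Kop F) := by
    have h2 := sd_S2_le (ball1 T) (fun z => min 1 (Real.exp (T - ‖z‖))) 1 ?_ ?_ (Kop F)
    · simpa using h2
    · intro z
      unfold ball1
      by_cases h : z ∈ Metric.closedBall (0 : ℂ) T
      · rw [Set.indicator_of_mem h]; exact zero_le_one
      · rw [Set.indicator_of_notMem h]
    · intro z
      rw [one_mul]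
      unfold ball1
      by_cases h : z ∈ Metric.closedBall (0 : ℂ) T
      · rw [Set.indicator_of_mem h, Pi.one_apply]
        have h3 : ‖z‖ ≤ T := by simpa using h
        exact le_min le_rfl (Real.one_le_exp (by linarith))
      · rw [Set.indicator_of_notMem h]
        positivity
  exact h1.trans (hK _ F (logLip_out T) hF)

end Pool.Agent.Helper84.HRT
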