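import Mathlib
import Pool.Agent.Helper84.HRT.DefsS

open MeasureTheory Complex Filter
open scoped ENNReal NNReal ComplexConjugate InnerProductSpace BigOperators Topology

namespace Pool.Agent.Helper84.HRT

variable {H : Type} [NormedAddCommGroup H] [InnerProductSpace ℂ H] [CompleteSpace H]

/-! The weight `OmR` of L16. -/

private theorem se_one_le (R2 : ℝ) (hR2 : 0 < R2) {t : ℝ} (ht : 0 ≤ t) : 1 ≤ 1 + t / R2 := by
  have := div_nonneg ht hR2.le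
  linarith

private theorem se_mono (R2 : ℝ) (hR2 : 0 < R2) {s t : ℝ} (h : s ≤ t) :
    1 + s / R2 ≤ 1 + t / R2 := by
  have := div_le_div_of_nonneg_right h hR2.le
  linarith

private theorem se_up {a b : ℝ} (hb : 1 ≤ b) (hab : b ≤ a) : b ^ 780 * (a ^ 390)⁻¹ ≤ a ^ 390 := by
  have ha : 0 < a := by linarith
  rw [mul_inv_le_iff₀ (pow_pos ha _), ← pow_add]
  exact pow_le_pow_left₀ (by linarith) hab _

private theorem se_up2 {a b : ℝ} (hb : 1 ≤ b) (hab : b ≤ a) : b ^ 780 * (a ^ 390)⁻¹ ≤ b ^ 390 := by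
  have ha : 0 < a := by linarith
  have hb0 : 0 < b := by linarith
  rw [mul_inv_le_iff₀ (pow_pos ha _)]
  calc b ^ 780 = b ^ 390 * b ^ 390 := by rw [← pow_add]
    _ ≤ b ^ 390 * a ^ 390 :=
        mul_le_mul_of_nonneg_left (pow_le_pow_left₀ hb0.le hab _) (pow_pos hb0 _).le

theorem OmR_pos (R2 R : ℝ) (hR2 : 0 < R2) (hR : 0 ≤ R) (z : ℂ) : 0 < OmR R2 R z := by
  have h1 : 0 < 1 + ‖z‖ / R2 := lt_of_lt_of_le one_pos (se_one_le R2 hR2 (norm_nonneg z))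
  have h2 : 0 < 1 + R / R2 := lt_of_lt_of_le one_pos (se_one_le R2 hR2 hR)
  unfold OmR
  split_ifs
  · exact pow_pos h1 _
  · exact mul_pos (pow_pos h2 _) (inv_pos.2 (pow_pos h1 _))

theorem OmR_le (R2 R : ℝ) (hR2 : 0 < R2) (hR : 0 ≤ R) (z : ℂ) :
    OmR R2 R z ≤ (1 + ‖z‖ / R2) ^ 390 := by
  unfold OmR
  split_ifs with h
  · exact le_rfl
  · exact se_up (se_one_le R2 hR2 hR) (se_mono R2 hR2 (not_le.1 h).le)

theorem OmR_bdd (R2 R : ℝ) (hR2 : 0 < R2) (hR : 0 ≤ R) (z : ℂ) :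
    OmR R2 R z ≤ (1 + R / R2) ^ 390 := by
  unfold OmR
  split_ifs with h
  · exact pow_le_pow_left₀ (by have := se_one_le R2 hR2 (norm_nonneg z); linarith)
      (se_mono R2 hR2 h) _
  · exact se_up2 (se_one_le R2 hR2 hR) (se_mono R2 hR2 (not_le.1 h).le)

private theorem se_scale {R2 : ℝ} (hR2 : 1 ≤ R2) (t : ℝ) : R2 * (1 + t / R2) = R2 + t := by
  have : R2 ≠ 0 := by positivity
  field_simp

/-- in the ball of radius `R`, `OmR` dominates `pw 390` -/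
theorem pw_le_OmR (R2 : ℝ) (hR2 : 1 ≤ R2) (R : ℝ) (z : ℂ) :
    ball1 R z * pw 390 z ≤ R2 ^ 390 * OmR R2 R z := by
  have hz := norm_nonneg z
  have hR20 : 0 < R2 := by linarith
  by_cases h : ‖z‖ ≤ R
  · have h1 : ball1 R z = 1 := by
      unfold ball1
      rw [Set.indicator_of_mem (by simpa using h)]
      rfl
    have h2 : OmR R2 R z = (1 + ‖z‖ / R2) ^ 390 := by
      unfold OmR
      rw [if_pos h]
    have h3 : pw 390 z = (1 + ‖z‖) ^ 390 := by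
      unfold pw
      exact zpow_ofNat _ _
    rw [h1, h2, h3, one_mul, ← mul_pow, se_scale hR2]
    exact pow_le_pow_left₀ (by linarith) (by linarith) _
  · have h1 : ball1 R z = 0 := by
      unfold ball1
      exact Set.indicator_of_notMem (by simpa using h) _
    have h2 : OmR R2 R z = (1 + R / R2) ^ 780 * ((1 + ‖z‖ / R2) ^ 390)⁻¹ := by
      unfold OmR
      rw [if_neg h]
    rw [h1, zero_mul, h2]
    have h4 : 0 < 1 + ‖z‖ / R2 := lt_of_lt_of_le one_pos (se_one_le R2 hR20 hz)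
    have h5 : 0 ≤ (1 + R / R2) ^ 780 := Even.pow_nonneg (by decide) _
    exact mul_nonneg (pow_nonneg hR20.le _) (mul_nonneg h5 (inv_nonneg.2 (pow_pos h4 _).le))

private theorem se_om_pos {Rc : ℝ} (hRc : 1 ≤ Rc) (z : ℂ) : 0 < 1 + ‖z‖ / Rc :=
  lt_of_lt_of_le one_pos (se_one_le Rc (by linarith) (norm_nonneg z))

/-- it is enough to bound the product with `(1+|z|/Rc)^4` -/
private theorem se_om {Rc : ℝ} (hRc : 1 ≤ Rc) (z : ℂ) {x C : ℝ}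
    (h : x * (1 + ‖z‖ / Rc) ^ 4 ≤ C) : x ≤ C * om Rc z := by
  unfold om
  rw [← div_eq_mul_inv, le_div_iff₀ (pow_pos (se_om_pos hRc z) _)]
  exact h

private theorem se_le_one_add {Rc : ℝ} (hRc : 1 ≤ Rc) (z : ℂ) : 1 + ‖z‖ / Rc ≤ 1 + ‖z‖ := by
  have := div_le_self (norm_nonneg z) hRc
  linarith

private theorem se_le_scale {R2 Rc : ℝ} (hR2 : 1 ≤ R2) (hRc : 1 ≤ Rc) (z : ℂ) :
    1 + ‖z‖ / Rc ≤ R2 * (1 + ‖z‖ / R2) := by
  rw [se_scale hR2]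
  have := se_le_one_add hRc z
  linarith

private theorem se_b {R2 R : ℝ} (hR2 : 1 ≤ R2) (hR : 1 ≤ R) : 1 + R / R2 ≤ 2 * R := by
  have := div_le_self (by linarith : (0 : ℝ) ≤ R) hR2
  linarith

private theorem se_tail {a b c R R2 : ℝ} (hR2 : 1 ≤ R2) (hR : 1 ≤ R) (hb : 1 ≤ b)
    (hba : b ≤ a) (hb2 : b ≤ 2 * R) (hc0 : 0 ≤ c) (hca : c ≤ R2 * a)
    (ha : R ^ 4 ≤ 4 * R2 * a) :
    b ^ 780 * (a ^ 390)⁻¹ * c ^ 4 ≤ 2 ^ 780 * (4 * R2) ^ 386 * R2 ^ 4 := by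
  have ha0 : 0 < a := by linarith
  have hR0 : 0 < R := by linarith
  have hb0 : 0 ≤ b := by linarith
  have h4R : 0 ≤ 4 * R2 := by linarith
  have h1 : c ^ 4 ≤ R2 ^ 4 * a ^ 4 := by
    rw [← mul_pow]
    exact pow_le_pow_left₀ hc0 hca 4
  have h2 : b ^ 780 ≤ 2 ^ 780 * R ^ 780 := by
    rw [← mul_pow]
    exact pow_le_pow_left₀ hb0 hb2 780
  have h3 : R ^ 780 ≤ (4 * R2) ^ 386 * a ^ 386 := by
    calc R ^ 780 ≤ R ^ (4 * 386) := pow_le_pow_right₀ hR (by norm_num)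
      _ = (R ^ 4) ^ 386 := pow_mul R 4 386
      _ ≤ (4 * R2 * a) ^ 386 := pow_le_pow_left₀ (by positivity) ha 386
      _ = (4 * R2) ^ 386 * a ^ 386 := mul_pow _ _ _
  have h4 : (a ^ 390)⁻¹ * a ^ 4 * a ^ 386 = 1 := by
    rw [mul_assoc, ← pow_add]
    exact inv_mul_cancel₀ (pow_pos ha0 _).ne'
  have hinv : 0 ≤ (a ^ 390)⁻¹ := inv_nonneg.2 (pow_pos ha0 _).le
  calc b ^ 780 * (a ^ 390)⁻¹ * c ^ 4
      ≤ (2 ^ 780 * ((4 * R2) ^ 386 * a ^ 386)) * (a ^ 390)⁻¹ * (R2 ^ 4 * a ^ 4) := by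
        refine mul_le_mul (mul_le_mul_of_nonneg_right (h2.trans ?_) hinv) h1
          (pow_nonneg hc0 _) ?_
        · exact mul_le_mul_of_nonneg_left h3 (pow_nonneg (by norm_num) _)
        · exact mul_nonneg (mul_nonneg (pow_nonneg (by norm_num) _)
            (mul_nonneg (pow_nonneg h4R _) (pow_nonneg ha0.le _))) hinv
    _ = (2 ^ 780 * (4 * R2) ^ 386 * R2 ^ 4) * ((a ^ 390)⁻¹ * a ^ 4 * a ^ 386) := by
        generalize (2 : ℝ) ^ 780 = p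
        generalize (4 * R2) ^ 386 = q
        generalize a ^ 386 = u
        generalize (a ^ 390)⁻¹ = v
        generalize R2 ^ 4 = w
        generalize a ^ 4 = y
        ring
    _ = 2 ^ 780 * (4 * R2) ^ 386 * R2 ^ 4 := by rw [h4, mul_one]

private theorem se_tail1 {R2 Rc R : ℝ} (hR2 : 1 ≤ R2) (hRc : 1 ≤ Rc) (hR : 1 ≤ R) (z : ℂ)
    (hz : R ^ 4 ≤ 4 * ‖z‖) (h : ‖z‖ ≤ R) :
    OmR R2 R z * (1 + ‖z‖ / Rc) ^ 4 ≤ 3 ^ 390 * 3 ^ 4 := by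
  have hR20 : 0 < R2 := by linarith
  have hR0 : 0 ≤ R := by linarith
  have hzn := norm_nonneg z
  have hc1 : 0 < 1 + ‖z‖ / Rc := se_om_pos hRc z
  have hR3 : R ≤ 2 := by
    by_contra hcon
    have hcon : 2 < R := not_le.1 hcon
    have h2 : (8 : ℝ) < R ^ 3 := by
      have := pow_lt_pow_left₀ hcon (by norm_num) (n := 3) (by norm_num)
      linarith
    have h3 : R ^ 4 = R * R ^ 3 := by ring
    nlinarith
  have hb0 : 0 ≤ 1 + R / R2 := by have := se_one_le R2 hR20 hR0; linarith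
  have hb3 : 1 + R / R2 ≤ 3 := by have := div_le_self hR0 hR2; linarith
  have hc3 : 1 + ‖z‖ / Rc ≤ 3 := by have := se_le_one_add hRc z; linarith
  exact mul_le_mul ((OmR_bdd R2 R hR20 hR0 z).trans (pow_le_pow_left₀ hb0 hb3 _))
    (pow_le_pow_left₀ hc1.le hc3 4) (pow_nonneg hc1.le _) (pow_nonneg (by norm_num) _)

private theorem se_tail2 {R2 Rc R : ℝ} (hR2 : 1 ≤ R2) (hRc : 1 ≤ Rc) (hR : 1 ≤ R) (z : ℂ)
    (hz : R ^ 4 ≤ 4 * ‖z‖) (h : ¬ ‖z‖ ≤ R) :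
    OmR R2 R z * (1 + ‖z‖ / Rc) ^ 4 ≤ 2 ^ 780 * (4 * R2) ^ 386 * R2 ^ 4 := by
  have hR20 : 0 < R2 := by linarith
  have hR0 : 0 ≤ R := by linarith
  have h0 : R ^ 4 ≤ 4 * R2 * (1 + ‖z‖ / R2) := by
    have : 4 * R2 * (1 + ‖z‖ / R2) = 4 * (R2 + ‖z‖) := by
      rw [mul_assoc, se_scale hR2]
    rw [this]; linarith
  have h1 : OmR R2 R z = (1 + R / R2) ^ 780 * ((1 + ‖z‖ / R2) ^ 390)⁻¹ := by
    unfold OmR
    rw [if_neg h]
  rw [h1]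
  exact se_tail hR2 hR (se_one_le R2 hR20 hR0) (se_mono R2 hR20 (not_le.1 h).le)
    (se_b hR2 hR) (se_om_pos hRc z).le (se_le_scale hR2 hRc z) h0

theorem OmR_tail (R2 Rc : ℝ) (hR2 : 1 ≤ R2) (hRc : 1 ≤ Rc) : ∃ C : ℝ, 0 < C ∧ ∀ R : ℝ, 1 ≤ R →
    ∀ z : ℂ, R ^ 4 ≤ 4 * ‖z‖ → OmR R2 R z ≤ C * om Rc z := by
  have hR20 : 0 ≤ R2 := zero_le_one.trans hR2
  have hq : (0 : ℝ) ≤ 2 ^ 780 * (4 * R2) ^ 386 * R2 ^ 4 :=
    mul_nonneg (mul_nonneg (pow_nonneg zero_le_two _)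
      (pow_nonneg (mul_nonneg zero_le_four hR20) _)) (pow_nonneg hR20 _)
  have hp : (0 : ℝ) < 3 ^ 390 * 3 ^ 4 := mul_pos (pow_pos three_pos _) (pow_pos three_pos _)
  refine ⟨3 ^ 390 * 3 ^ 4 + 2 ^ 780 * (4 * R2) ^ 386 * R2 ^ 4, add_pos_of_pos_of_nonneg hp hq, ?_⟩
  intro R hR z hz
  refine se_om hRc z ?_
  by_cases h : ‖z‖ ≤ R
  · exact (se_tail1 hR2 hRc hR z hz h).trans (le_add_of_nonneg_right hq)
  · exact (se_tail2 hR2 hRc hR z hz h).trans (le_add_of_nonneg_left hp.le)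

private theorem se_sup {a b c R R2 : ℝ} (hR2 : 1 ≤ R2) (hb : 1 ≤ b)
    (hb2 : b ≤ 2 * R) (hc0 : 0 ≤ c) (hca : c ≤ R2 * a) (ha1 : 1 ≤ a) {Om : ℝ} (hOm : 0 ≤ Om)
    (h : Om * a ^ 5 ≤ b ^ 395) :
    (R2 * a / 780) * Om * c ^ 4 ≤ (2 ^ 395 * R2 ^ 5) * R ^ 395 := by
  have ha0 : 0 < a := zero_lt_one.trans_le ha1
  have hR20 : 0 < R2 := zero_lt_one.trans_le hR2
  have hb0 : 0 ≤ b := zero_le_one.trans hb
  have h1 : c ^ 4 ≤ R2 ^ 4 * a ^ 4 := by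
    rw [← mul_pow]
    exact pow_le_pow_left₀ hc0 hca 4
  have h2 : b ^ 395 ≤ 2 ^ 395 * R ^ 395 := by
    rw [← mul_pow]
    exact pow_le_pow_left₀ hb0 hb2 395
  have h3 : R2 * a / 780 ≤ R2 * a := div_le_self (mul_pos hR20 ha0).le (by norm_num)
  calc (R2 * a / 780) * Om * c ^ 4
      ≤ (R2 * a) * Om * (R2 ^ 4 * a ^ 4) := by
        refine mul_le_mul (mul_le_mul_of_nonneg_right h3 hOm) h1 (pow_nonneg hc0 _) ?_
        exact mul_nonneg (mul_pos hR20 ha0).le hOm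
    _ = R2 ^ 5 * (Om * a ^ 5) := by ring
    _ ≤ R2 ^ 5 * (2 ^ 395 * R ^ 395) :=
        mul_le_mul_of_nonneg_left (h.trans h2) (pow_nonneg hR20.le _)
    _ = (2 ^ 395 * R2 ^ 5) * R ^ 395 := by
        generalize (2 : ℝ) ^ 395 = p
        generalize R ^ 395 = q
        ring

theorem OmR_sup (R2 Rc : ℝ) (hR2 : 1 ≤ R2) (hRc : 1 ≤ Rc) : ∃ C : ℝ, 0 < C ∧ ∀ R : ℝ, 1 ≤ R →
    ∀ z : ℂ, (slo 390 R2 z)⁻¹ * OmR R2 R z ≤ C * R ^ 395 * om Rc z := by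
  have hR20 : 0 < R2 := by linarith
  refine ⟨2 ^ 395 * R2 ^ 5, mul_pos (pow_pos (by norm_num) _) (pow_pos hR20 _), ?_⟩
  intro R hR z
  have hzn := norm_nonneg z
  have hR0 : 0 ≤ R := by linarith
  refine se_om hRc z ?_
  have hslo : (slo 390 R2 z)⁻¹ = R2 * (1 + ‖z‖ / R2) / 780 := by
    rw [se_scale hR2]
    unfold slo
    rw [inv_div]
    norm_num
  rw [hslo]
  have ha1 := se_one_le R2 hR20 hzn
  have hb1 := se_one_le R2 hR20 hR0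
  refine se_sup hR2 hb1 (se_b hR2 hR) (se_om_pos hRc z).le (se_le_scale hR2 hRc z) ha1
    (OmR_pos R2 R hR20 hR0 z).le ?_
  by_cases h : ‖z‖ ≤ R
  · have h1 : OmR R2 R z = (1 + ‖z‖ / R2) ^ 390 := by
      unfold OmR
      rw [if_pos h]
    rw [h1, ← pow_add]
    exact pow_le_pow_left₀ (zero_le_one.trans ha1) (se_mono R2 hR20 h) _
  · have h1 : OmR R2 R z = (1 + R / R2) ^ 780 * ((1 + ‖z‖ / R2) ^ 390)⁻¹ := by
      unfold OmR
      rw [if_neg h]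
    rw [h1]
    have hab := se_mono R2 hR20 (not_le.1 h).le
    generalize 1 + ‖z‖ / R2 = a at *
    generalize 1 + R / R2 = b at *
    have ha0 : 0 < a := zero_lt_one.trans_le ha1
    have hb0 : 0 < b := zero_lt_one.trans_le hb1
    have h2 : b ^ 780 * (a ^ 390)⁻¹ * a ^ 5 = b ^ 780 / a ^ 385 := by
      rw [div_eq_mul_inv, mul_assoc]
      congr 1
      rw [show (390 : ℕ) = 385 + 5 from rfl, pow_add, mul_inv, mul_assoc,
        inv_mul_cancel₀ (pow_pos ha0 _).ne', mul_one]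
    rw [h2, div_le_iff₀ (pow_pos ha0 _)]
    calc b ^ 780 = b ^ 395 * b ^ 385 := by rw [← pow_add]
      _ ≤ b ^ 395 * a ^ 385 :=
          mul_le_mul_of_nonneg_left (pow_le_pow_left₀ hb0.le hab _) (pow_pos hb0 _).le

private theorem se_fac : ∃ F : ℝ, 0 < F ∧ ∀ t : ℝ, 0 ≤ t → t ^ 394 ≤ F * Real.exp t := by
  refine ⟨(Nat.factorial 394 : ℕ), Nat.cast_pos.2 (Nat.factorial_pos 394), fun t ht => ?_⟩
  have h := Real.pow_div_factorial_le_exp t ht 394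
  rwa [div_le_iff₀ (Nat.cast_pos.2 (Nat.factorial_pos 394)), mul_comm] at h

theorem OmR_exp (R2 Rc : ℝ) (hR2 : 1 ≤ R2) (hRc : 1 ≤ Rc) : ∃ C : ℝ, 0 < C ∧ ∀ R : ℝ, 1 ≤ R →
    ∀ z : ℂ, Real.exp (-‖z‖) * OmR R2 R z ≤ C * om Rc z := by
  have hR20 : 0 < R2 := by linarith
  obtain ⟨F, hF, hFe⟩ := se_fac
  refine ⟨F * Real.exp 1, mul_pos hF (Real.exp_pos _), ?_⟩
  intro R hR z
  have hzn := norm_nonneg z
  refine se_om hRc z ?_
  have h1 : OmR R2 R z ≤ (1 + ‖z‖) ^ 390 := by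
    refine (OmR_le R2 R hR20 (by linarith) z).trans ?_
    refine pow_le_pow_left₀ (by have := se_one_le R2 hR20 hzn; linarith) ?_ _
    have := div_le_self hzn hR2
    linarith
  have h2 : (1 + ‖z‖ / Rc) ^ 4 ≤ (1 + ‖z‖) ^ 4 :=
    pow_le_pow_left₀ (se_om_pos hRc z).le (se_le_one_add hRc z) 4
  have h3 : (1 + ‖z‖) ^ 394 ≤ F * Real.exp (1 + ‖z‖) := hFe _ (by linarith)
  have h4 : OmR R2 R z * (1 + ‖z‖ / Rc) ^ 4 ≤ (1 + ‖z‖) ^ 394 := by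
    calc OmR R2 R z * (1 + ‖z‖ / Rc) ^ 4 ≤ (1 + ‖z‖) ^ 390 * (1 + ‖z‖) ^ 4 :=
          mul_le_mul h1 h2 (pow_nonneg (se_om_pos hRc z).le _) (pow_nonneg (by linarith) _)
      _ = (1 + ‖z‖) ^ 394 := by rw [← pow_add]
  calc Real.exp (-‖z‖) * OmR R2 R z * (1 + ‖z‖ / Rc) ^ 4
      = Real.exp (-‖z‖) * (OmR R2 R z * (1 + ‖z‖ / Rc) ^ 4) := mul_assoc _ _ _
    _ ≤ Real.exp (-‖z‖) * (F * Real.exp (1 + ‖z‖)) :=
        mul_le_mul_of_nonneg_left (h4.trans h3) (Real.exp_pos _).le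
    _ = F * (Real.exp (-‖z‖) * Real.exp (1 + ‖z‖)) := by ring
    _ = F * Real.exp 1 := by
        rw [← Real.exp_add]
        have e : -‖z‖ + (1 + ‖z‖) = 1 := by ring
        rw [e]

end Pool.Agent.Helper84.HRT
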