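import Mathlib
import Pool.Agent.Helper84.HRT.DefsS
import Pool.Agent.Helper84.HRT.WA
import Pool.Agent.Helper84.HRT.WB
import Pool.Agent.Helper84.HRT.WC
import Pool.Agent.Helper84.HRT.XA
import Pool.Agent.Helper84.HRT.XB
import Pool.Agent.Helper84.HRT.XC
import Pool.Agent.Helper84.HRT.XD

open MeasureTheory Complex Filter
open scoped ENNReal NNReal ComplexConjugate InnerProductSpace BigOperators Topology

namespace Pool.Agent.Helper84.HRT

variable {H : Type} [NormedAddCommGroup H] [InnerProductSpace ℂ H] [CompleteSpace H]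

/-! The translates of the touching operators are pattern operators (XB, XC, XD). -/

theorem AdmN_per {D : Data} {N : ℕ} {r : ℝ} {ξ : ℝ → ℂ} (h : D.AdmN N r ξ) (t : ℝ) :
    ξ (t + 1) = ξ t := by
  have h1 : t + 1 = (t + 1 / 2) + 1 / 2 := by ring
  rw [h1, h.sym, h.sym, Complex.conj_conj]

theorem trA_eq {W : Weyl H} {D : Data} (F : Fam W D) {n : ℕ} (hn : F.n1 ≤ n) (w : ℂ) :
    tr W w (F.A n) =
      Aop W D (muN (D.NN n)) (D.tw w (F.γs n)) (twN (D.NN n) w (F.ξs n)) := by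
  unfold Fam.A
  exact tr_AopN W D (NN_pos D n) (step_meas _ (F.ξs_adm n hn).step) (F.γs n) w

theorem trA_mem {W : Weyl H} {D : Data} (F : Fam W D) {n : ℕ} (hn : F.n1 ≤ n) (w : ℂ) :
    D.tw w (F.γs n) ∈ D.Γ ∧ D.AdmN (D.NN n) (F.rs n) (twN (D.NN n) w (F.ξs n)) :=
  ⟨tw_mem (F.γs_mem n hn) w, AdmN.twN (NN_pos D n) (NN_even D n) (F.ξs_adm n hn) w⟩

theorem norm_trA_le {W : Weyl H} {D : Data} (F : Fam W D) {n : ℕ} (hn : F.n1 ≤ n) (w : ℂ)
    (f : H) : ‖tr W w (F.A n) f‖ ≤ 2 * F.C0 * ‖f‖ := by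
  have := muN_prob (NN_pos D n)
  obtain ⟨h1, h2⟩ := trA_mem F hn w
  rw [trA_eq F hn w]
  unfold Aop
  have h3 : ‖Bop W D (D.tw w (F.γs n))‖ ≤ F.C0 :=
    (norm_Bop_le W D (fun i => (D.Γ_one _ h1 i).le)).trans F.β_le
  have h4 : ‖XL W (muN (D.NN n)) (twN (D.NN n) w (F.ξs n))‖ ≤ F.C0 :=
    (norm_XL_le W (F.rs_nonneg n) (AdmN.bdN (NN_pos D n) h2 (F.rs_nonneg n))).trans (F.rs_le n)
  refine (ContinuousLinearMap.le_opNorm _ f).trans ?_
  refine mul_le_mul_of_nonneg_right ?_ (norm_nonneg f)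
  refine (norm_add_le _ _).trans ?_
  linarith

private theorem sh_chi (w v a : ℂ) : ‖chi w a - chi v a‖ = ‖chi (w - v) a - 1‖ := by
  have h1 : chi w a = chi (w - v) a * chi v a := by
    rw [← chi_add_left, sub_add_cancel]
  have h2 : chi w a - chi v a = (chi (w - v) a - 1) * chi v a := by
    rw [h1]; ring
  rw [h2, norm_mul, chi_norm, mul_one]

private theorem sh_conj (w v a : ℂ) : ‖conj (chi w a) - conj (chi v a)‖ =
    ‖chi (w - v) a - 1‖ := by
  rw [← map_sub, RCLike.norm_conj, sh_chi]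

/-- difference of two translates of a touching operator (`D.τ i` is a node, `NN_node`) -/
theorem tr_sub_le {W : Weyl H} {D : Data} (F : Fam W D) (n : ℕ) (hn : F.n1 ≤ n) (w v : ℂ) (Φ : ℝ)
    (h : ∀ k : ℤ, ‖chi (w - v) (node ((k : ℝ) / D.NN n)) - 1‖ ≤ Φ) (f : H) :
    ‖tr W w (F.A n) f - tr W v (F.A n) f‖ ≤ 2 * F.C0 * Φ * ‖f‖ := by
  have := muN_prob (NN_pos D n)
  have hΦ : 0 ≤ Φ := (norm_nonneg _).trans (h 0)
  have hC0 := F.C0_pos.le
  have hrs := F.rs_nonneg n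
  rw [trA_eq F hn w, trA_eq F hn v]
  unfold Aop
  obtain ⟨hw1, hw2⟩ := trA_mem F hn w
  obtain ⟨hv1, hv2⟩ := trA_mem F hn v
  have e1 : (Bop W D (D.tw w (F.γs n)) + XL W (muN (D.NN n)) (twN (D.NN n) w (F.ξs n))) f -
      (Bop W D (D.tw v (F.γs n)) + XL W (muN (D.NN n)) (twN (D.NN n) v (F.ξs n))) f =
      ((Bop W D (D.tw w (F.γs n)) - Bop W D (D.tw v (F.γs n))) +
      (XL W (muN (D.NN n)) (twN (D.NN n) w (F.ξs n)) -
        XL W (muN (D.NN n)) (twN (D.NN n) v (F.ξs n)))) f := by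
    rw [← _root_.sub_apply]
    congr 1
    abel
  rw [e1]
  have h3 : ‖Bop W D (D.tw w (F.γs n)) - Bop W D (D.tw v (F.γs n))‖ ≤ F.C0 * Φ := by
    refine (norm_Bop_sub W D _ _).trans ?_
    calc ∑ i, ‖D.β i‖ * ‖D.tw w (F.γs n) i - D.tw v (F.γs n) i‖
        ≤ ∑ i, ‖D.β i‖ * Φ := by
          refine Finset.sum_le_sum (fun i _ => ?_)
          refine mul_le_mul_of_nonneg_left ?_ (norm_nonneg _)
          unfold Data.tw
          rw [← mul_sub, norm_mul, D.Γ_one _ (F.γs_mem n hn) i, one_mul, sh_conj]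
          obtain ⟨k, hk⟩ := NN_node D n i
          have := h (k : ℤ)
          rw [hk]
          simpa using this
      _ = (∑ i, ‖D.β i‖) * Φ := by rw [Finset.sum_mul]
      _ ≤ F.C0 * Φ := mul_le_mul_of_nonneg_right F.β_le hΦ
  have h4 : ‖XL W (muN (D.NN n)) (twN (D.NN n) w (F.ξs n)) -
      XL W (muN (D.NN n)) (twN (D.NN n) v (F.ξs n))‖ ≤ F.C0 * Φ := by
    have b1 := AdmN.bdN (NN_pos D n) hw2 hrs
    have b2 := AdmN.bdN (NN_pos D n) hv2 hrs
    rw [← XL_sub W b1 b2]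
    have hb : Bd (muN (D.NN n)) (F.rs n * Φ)
        (fun t => twN (D.NN n) w (F.ξs n) t - twN (D.NN n) v (F.ξs n) t) := by
      refine ⟨b1.meas.sub b2.meas, Filter.Eventually.of_forall fun t => ?_⟩
      unfold twN
      rw [← mul_sub, norm_mul, sh_conj]
      have c1 := AdmN.norm_le (NN_pos D n) (F.ξs_adm n hn) hrs t
      have c2 := h ⌊(D.NN n : ℝ) * t⌋
      have c3 : cell (D.NN n) t = (⌊(D.NN n : ℝ) * t⌋ : ℝ) / D.NN n := rfl
      rw [c3]
      exact mul_le_mul c1 c2 (norm_nonneg _) hrs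
    refine (norm_XL_le W (mul_nonneg hrs hΦ) hb).trans ?_
    exact mul_le_mul_of_nonneg_right (F.rs_le n) hΦ
  refine (ContinuousLinearMap.le_opNorm _ f).trans ?_
  refine mul_le_mul_of_nonneg_right ?_ (norm_nonneg f)
  refine (norm_add_le _ _).trans ?_
  linarith

end Pool.Agent.Helper84.HRT
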