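import Mathlib
import Pool.Agent.Helper84.HRT.DefsS
import Pool.Agent.Helper84.HRT.XA
import Pool.Agent.Helper84.HRT.XB
import Pool.Agent.Helper84.HRT.XC
import Pool.Agent.Helper84.HRT.VS
import Pool.Agent.Helper84.HRT.L1H
import Pool.Agent.Helper84.HRT.WD
import Pool.Agent.Helper84.HRT.L1A
import Pool.Agent.Helper84.HRT.SH

open MeasureTheory Complex Filter
open scoped ENNReal NNReal ComplexConjugate InnerProductSpace BigOperators Topology

namespace Pool.Agent.Helper84.HRT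

variable {H : Type} [NormedAddCommGroup H] [InnerProductSpace ℂ H] [CompleteSpace H]

/-! L1 for the cut off vectors `TO W Om g` (from L1A, L1H, VS, SH). -/

theorem V_TO (W : Weyl H) (Om s : ℂ → ℝ) (hOm : IsW Om s) (g : H) (hg : S2 Om (W.V g) < ⊤)
    (z : ℂ) : W.V (TO W Om g) z = Kop (fun z => ((Om z : ℝ) : ℂ) * W.V g z) z := by
  have hFc : Continuous fun z => ((Om z : ℝ) : ℂ) * W.V g z :=
    (Complex.continuous_ofReal.comp hOm.cont).mul (rep_V W g).cont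
  unfold TO
  exact V_Vs W _ hFc.aestronglyMeasurable (by rw [l1h_one]; exact hg) z

/-- L1(b) for the translates of the touching operators -/
theorem TO_op {W : Weyl H} {D : Data} (F : Fam W D) : ∃ C : ℝ, 1 ≤ C ∧ ∀ n, F.n1 ≤ n →
    ∀ (w : ℂ) (Om s Y : ℂ → ℝ), IsW Om s → LogLip Y → ∀ g : H, S2 Om (W.V g) < ⊤ →
    S2 Y (W.V (tr W w (F.A n) (TO W Om g))) ≤ ENNReal.ofReal C *
      (S2 (fun z => Y z * Om z) (W.V (tr W w (F.A n) g)) +
        S2 (fun z => Y z * s z * Om z) (W.V g)) := by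
  obtain ⟨C, hC, h⟩ := L1H F.C0
  refine ⟨max C 1, le_max_right _ _, ?_⟩
  intro n hn w Om s Y hOm hY g hg
  have hN := NN_pos D n
  have := muN_prob hN
  obtain ⟨hγ, hξ⟩ := trA_mem F hn w
  have hbd := AdmN.bdN hN hξ (F.rs_nonneg n)
  have hbd' : Bd (muN (D.NN n)) F.C0 (twN (D.NN n) w (F.ξs n)) :=
    ⟨hbd.meas, hbd.bd.mono fun t ht => ht.trans (F.rs_le n)⟩
  have e1 := h H W D (muN (D.NN n)) (D.tw w (F.γs n)) (twN (D.NN n) w (F.ξs n)) F.β_le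
    (fun i => (D.Γ_one _ hγ i).le) hbd' Om s Y (W.V g) hOm hY (rep_V W g) hg
  have e2 : actA D (muN (D.NN n)) (D.tw w (F.γs n)) (twN (D.NN n) w (F.ξs n)) (W.V g) =
      W.V (tr W w (F.A n) g) := by
    funext z
    rw [trA_eq F hn w, V_Aop W hbd' D]
  rw [e2] at e1
  have e3 : tr W w (F.A n) (TO W Om g) = Aop W D (muN (D.NN n)) (D.tw w (F.γs n))
      (twN (D.NN n) w (F.ξs n)) (W.Vs fun z => ((Om z : ℝ) : ℂ) * W.V g z) := by
    rw [trA_eq F hn w]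
    rfl
  rw [e3]
  refine e1.trans ?_
  gcongr
  exact le_max_left _ _

/-- L1, first part -/
theorem TO_err (W : Weyl H) : ∃ C : ℝ, 1 ≤ C ∧ ∀ (Om s Y : ℂ → ℝ), IsW Om s → LogLip Y →
    ∀ g : H, S2 Om (W.V g) < ⊤ →
    S2 Y (fun z => ((Om z : ℝ) : ℂ) * W.V g z - W.V (TO W Om g) z) ≤
      ENNReal.ofReal C * S2 (fun z => Y z * s z * Om z) (W.V g) := by
  obtain ⟨C, hC, h⟩ := L1a
  refine ⟨max C 1, le_max_right _ _, ?_⟩
  intro Om s Y hOm hY g hg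
  have e1 := h Om s Y (W.V g) hOm hY (rep_V W g) hg
  have e2 : (fun z => ((Om z : ℝ) : ℂ) * W.V g z - W.V (TO W Om g) z) =
      fun z => ((Om z : ℝ) : ℂ) * W.V g z - Kop (fun ζ => ((Om ζ : ℝ) : ℂ) * W.V g ζ) z :=
    funext fun z => by rw [V_TO W Om s hOm g hg z]
  rw [e2]
  refine e1.trans ?_
  gcongr
  exact le_max_left _ _

/-- L1(a) -/
theorem TO_norm (W : Weyl H) : ∃ c1 : ℝ, 0 < c1 ∧ ∀ (Om s : ℂ → ℝ), IsW Om s → (∀ z, s z ≤ c1) →
    ∀ g : H, S2 Om (W.V g) < ⊤ → S2 Om (W.V g) ≤ 4 * ‖TO W Om g‖ₑ ^ 2 := by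
  obtain ⟨c1, hc1, h⟩ := L1N
  refine ⟨c1, hc1, ?_⟩
  intro Om s hOm hs g hg
  have e1 := (h H W Om s (W.V g) hOm hs (rep_V W g) hg).2
  refine e1.trans (le_of_eq ?_)
  unfold TO
  rw [← ofReal_norm, ENNReal.ofReal_pow (norm_nonneg _)]

end Pool.Agent.Helper84.HRT
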