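import Mathlib
import Pool.Agent.Helper84.HRT.DefsS
import Pool.Agent.Helper84.HRT.WB
import Pool.Agent.Helper84.HRT.YK
import Pool.Agent.Helper84.HRT.SA
import Pool.Agent.Helper84.HRT.SB
import Pool.Agent.Helper84.HRT.SC
import Pool.Agent.Helper84.HRT.SD
import Pool.Agent.Helper84.HRT.SE
import Pool.Agent.Helper84.HRT.SG
import Pool.Agent.Helper84.HRT.SI
import Pool.Agent.Helper84.HRT.L16A

open MeasureTheory Complex Filter
open scoped ENNReal NNReal ComplexConjugate InnerProductSpace BigOperators Topology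

namespace Pool.Agent.Helper84.HRT

variable {H : Type} [NormedAddCommGroup H] [InnerProductSpace ℂ H] [CompleteSpace H]

omit [InnerProductSpace ℂ H] [CompleteSpace H] in
private theorem l16b_enorm (v : H) : ‖v‖ₑ ^ 2 = ENNReal.ofReal (‖v‖ ^ 2) := by
  rw [← ofReal_norm, ENNReal.ofReal_pow (norm_nonneg _)]

/-- L16, Case I. -/
theorem dec_caseI {W : Weyl H} {D : Data} (F : Fam W D) (R0 : ℝ) (hR0 : 1 ≤ R0) :
    ∃ δ00 : ℝ, 0 < δ00 ∧ ∀ δ0 : ℝ, 0 < δ0 → δ0 ≤ δ00 → ∃ R2 C e10 : ℝ, 1560 ≤ R2 ∧ 1 ≤ C ∧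
    0 < e10 ∧ ∀ n, F.n1 ≤ n → ∀ e1 : ℝ, 0 < e1 → e1 ≤ e10 → F.SepR R0 δ0 n e1 →
    ∀ (w : ℂ) (g : H), F.Ctr n e1 w g → S2 (om F.R) (W.V g) = 1 → ∀ R : ℝ, 1 ≤ R →
    R ^ 4 * e1 ≤ 1 →
    S2 (fun z => (slo 390 R2 z)⁻¹ * OmR R2 R z) (W.V (tr W w (F.A n) g)) ≤
      S2 (OmR R2 R) (W.V g) → S2 (OmR R2 R) (W.V g) ≤ ENNReal.ofReal C := by
  obtain ⟨C1, hC1, hop⟩ := TO_op F
  obtain ⟨c1, hc1, hnorm⟩ := TO_norm W
  obtain ⟨C2, hC2, hKw⟩ := Kop_weighted
  obtain ⟨C4, hC4, hKout⟩ := Kop_out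
  have hFR := F.R_ge
  have hFR1 : 1 ≤ F.R := by linarith
  obtain ⟨ρ, hρ, δ00, hδ00, hconc⟩ := conc F R0 (8 * C1) 390 hR0 (by linarith) (by norm_num)
  refine ⟨δ00, hδ00, fun δ0 hδ0 hδ => ?_⟩
  obtain ⟨R20, hR20, hconc2⟩ := hconc δ0 hδ0 hδ
  set R2 : ℝ := max R20 (max 1560 (780 / c1)) with hR2
  have hR2a : R20 ≤ R2 := le_max_left _ _
  have hR2b : 1560 ≤ R2 := (le_max_left _ _).trans (le_max_right _ _)
  have hR2c : 780 / c1 ≤ R2 := (le_max_right _ _).trans (le_max_right _ _)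
  have hR21 : 1 ≤ R2 := by linarith
  obtain ⟨e10, he10, hconc3⟩ := hconc2 R2 hR2a
  obtain ⟨C3, hC3, hexp⟩ := OmR_exp R2 F.R hR21 hFR1
  obtain ⟨C5, hC5, htail⟩ := OmR_tail R2 F.R hR21 hFR1
  set K1 : ℝ := Real.exp ρ ^ 2 * (C2 * C3 ^ 2) with hK1
  have hK1pos : 0 < K1 := by positivity
  refine ⟨R2, 1 + 5 * K1 + 160 * (C4 * C5 ^ 2), min e10 (1 / (320 * C4)), hR2b, ?_, ?_, ?_⟩
  · have : 0 ≤ 160 * (C4 * C5 ^ 2) := by positivity
    linarith
  · positivity
  intro n hn e1 he1 he1' hsep w g hg hg1 R hR hRe hcase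
  have he1a : e1 ≤ e10 := he1'.trans (min_le_left _ _)
  have he1b : e1 ≤ 1 / (320 * C4) := he1'.trans (min_le_right _ _)
  have hW := isW_OmR R2 R hR2b hR
  have hspos := slo_pos 390 R2 (by norm_num) (by linarith)
  have hfin : S2 (OmR R2 R) (W.V g) < ⊤ := by
    refine S2_V_lt_top W _ ((1 + R / R2) ^ 390) (fun z => ?_) g
    rw [abs_of_pos (hW.pos z)]
    exact OmR_bdd R2 R (by linarith) (by linarith) z
  set v := TO W (OmR R2 R) g with hv
  have hn4 : S2 (OmR R2 R) (W.V g) ≤ 4 * ‖v‖ₑ ^ 2 := by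
    refine hnorm (OmR R2 R) (slo 390 R2) hW (fun z => ?_) g hfin
    refine (slo_le 390 R2 (by norm_num) (by linarith) z).trans ?_
    rw [div_le_iff₀ (by linarith)]
    rw [div_le_iff₀ hc1] at hR2c
    linarith
  have hM : S2 (fun z => (slo 390 R2 z)⁻¹) (W.V (tr W w (F.A n) v)) ≤
      ENNReal.ofReal (8 * C1) * ‖v‖ₑ ^ 2 := by
    have h1 := hop n hn w (OmR R2 R) (slo 390 R2) (fun z => (slo 390 R2 z)⁻¹) hW
      (logLip_slo_inv 390 R2 (by norm_num) hR21) g hfin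
    have h2 : (fun z => (slo 390 R2 z)⁻¹ * slo 390 R2 z * OmR R2 R z) = OmR R2 R := by
      funext z
      rw [inv_mul_cancel₀ (hspos z).ne', one_mul]
    rw [h2] at h1
    refine h1.trans ?_
    have h3 : S2 (fun z => (slo 390 R2 z)⁻¹ * OmR R2 R z) (W.V (tr W w (F.A n) g)) +
        S2 (OmR R2 R) (W.V g) ≤ 8 * ‖v‖ₑ ^ 2 := by
      calc _ ≤ S2 (OmR R2 R) (W.V g) + S2 (OmR R2 R) (W.V g) := by gcongr
        _ ≤ 4 * ‖v‖ₑ ^ 2 + 4 * ‖v‖ₑ ^ 2 := add_le_add hn4 hn4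
        _ = 8 * ‖v‖ₑ ^ 2 := by ring
    calc _ ≤ ENNReal.ofReal C1 * (8 * ‖v‖ₑ ^ 2) := by gcongr
      _ = ENNReal.ofReal (8 * C1) * ‖v‖ₑ ^ 2 := by
        rw [ENNReal.ofReal_mul (by norm_num), ENNReal.ofReal_ofNat]
        ring
  have hV : W.V v = Kop (fun z => ((OmR R2 R z : ℝ) : ℂ) * W.V g z) := by
    funext z
    exact V_TO W (OmR R2 R) (slo 390 R2) hW g hfin z
  have hmeas : AEStronglyMeasurable (fun z => ((OmR R2 R z : ℝ) : ℂ) * W.V g z) dA := by
    have a1 := hW.cont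
    have a2 := V_cont W g
    exact (by fun_prop : Continuous fun z => ((OmR R2 R z : ℝ) : ℂ) * W.V g z).aestronglyMeasurable
  have hx : ‖v‖ₑ ^ 2 = ENNReal.ofReal (‖v‖ ^ 2) := l16b_enorm v
  have hx0 : 0 ≤ ‖v‖ ^ 2 := sq_nonneg _
  rw [hx] at hn4
  have hgoal : ∀ K : ℝ, ‖v‖ ^ 2 ≤ K → 4 * K ≤ 1 + 5 * K1 + 160 * (C4 * C5 ^ 2) →
      S2 (OmR R2 R) (W.V g) ≤ ENNReal.ofReal (1 + 5 * K1 + 160 * (C4 * C5 ^ 2)) := by
    intro K h1 h2
    refine hn4.trans ?_
    rw [← ENNReal.ofReal_ofNat, ← ENNReal.ofReal_mul (by norm_num)]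
    exact ENNReal.ofReal_le_ofReal (by linarith)
  have hpos2 : 0 ≤ C4 * C5 ^ 2 := by positivity
  rcases hconc3 n hn e1 he1 he1a hsep w g hg v hM with h | h
  · have h1 : S2 (ball1 ρ) (W.V v) ≤ ENNReal.ofReal K1 := by
      have a1 : S2 (ball1 ρ) (W.V v) ≤
          ENNReal.ofReal (Real.exp ρ ^ 2) * S2 (fun z => Real.exp (-‖z‖)) (W.V v) := by
        refine S2_mono (Real.exp_pos _).le _ fun z => ?_
        rw [abs_of_pos (Real.exp_pos _), ← Real.exp_add]
        unfold ball1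
        by_cases hz : z ∈ Metric.closedBall (0 : ℂ) ρ
        · rw [Set.indicator_of_mem hz]
          simp only [Pi.one_apply, abs_one]
          rw [mem_closedBall_zero_iff] at hz
          exact Real.one_le_exp (by linarith)
        · rw [Set.indicator_of_notMem hz, abs_zero]
          exact (Real.exp_pos _).le
      have a2 : S2 (fun z => Real.exp (-‖z‖)) (W.V v) ≤ ENNReal.ofReal (C2 * C3 ^ 2) := by
        rw [hV]
        refine (hKw _ _ logLip_exp_neg hmeas).trans ?_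
        rw [S2_mul_weight, ENNReal.ofReal_mul hC2.le]
        gcongr
        have a3 : S2 (fun z => Real.exp (-‖z‖) * OmR R2 R z) (W.V g) ≤
            ENNReal.ofReal (C3 ^ 2) * S2 (om F.R) (W.V g) := by
          refine S2_mono hC3.le _ fun z => ?_
          have b1 : 0 < om F.R z := by
            unfold om
            positivity
          have b2 := hW.pos z
          rw [abs_of_pos (by positivity), abs_of_pos b1]
          exact hexp R hR z
        rw [hg1, mul_one] at a3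
        exact a3
      refine a1.trans ?_
      rw [hK1, ENNReal.ofReal_mul (by positivity)]
      gcongr
    have h2 := h.trans h1
    rw [hx, ← ENNReal.ofReal_mul (by norm_num), ENNReal.ofReal_le_ofReal_iff hK1pos.le] at h2
    exact hgoal (5 / 4 * K1) (by linarith) (by linarith)
  · have h1 := hKout (1 / e1) (by positivity) (fun z => ((OmR R2 R z : ℝ) : ℂ) * W.V g z) hmeas
    rw [← hV] at h1
    have e2 : (1 / e1) / 2 = 1 / (2 * e1) := by
      field_simp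
    rw [e2, S2_mul_weight, S2_mul_weight] at h1
    have h2 : S2 (fun z => out1 ((1 / e1) / 4) z * OmR R2 R z) (W.V g) ≤
        ENNReal.ofReal (C5 ^ 2) := by
      have a3 : S2 (fun z => out1 ((1 / e1) / 4) z * OmR R2 R z) (W.V g) ≤
          ENNReal.ofReal (C5 ^ 2) * S2 (om F.R) (W.V g) := by
        refine S2_mono hC5.le _ fun z => ?_
        have b1 : 0 < om F.R z := by
          unfold om
          positivity
        have b2 := hW.pos z
        rw [abs_of_pos b1]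
        unfold out1
        by_cases hz : z ∈ {y : ℂ | (1 / e1) / 4 ≤ ‖y‖}
        · rw [Set.indicator_of_mem hz]
          simp only [Pi.one_apply, one_mul]
          rw [abs_of_pos b2]
          refine htail R hR z ?_
          have hz' : (1 / e1) / 4 ≤ ‖z‖ := hz
          have : R ^ 4 ≤ 1 / e1 := by
            rw [le_div_iff₀ he1]
            exact hRe
          linarith
        · rw [Set.indicator_of_notMem hz, zero_mul, abs_zero]
          positivity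
      rw [hg1, mul_one] at a3
      exact a3
    have h3 : S2 (fun z => 1 * OmR R2 R z) (W.V g) ≤ 4 * ENNReal.ofReal (‖v‖ ^ 2) := by
      simp only [one_mul]
      exact hn4
    have h4 : Real.exp (-(1 / (2 * e1))) ≤ 2 * e1 := by
      have a1 := Real.add_one_le_exp (1 / (2 * e1))
      have a2 : 1 / (2 * e1) ≤ Real.exp (1 / (2 * e1)) := by linarith
      rw [Real.exp_neg]
      calc (Real.exp (1 / (2 * e1)))⁻¹ ≤ (1 / (2 * e1))⁻¹ := inv_anti₀ (by positivity) a2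
        _ = 2 * e1 := by field_simp
    have h5 : S2 (out1 (1 / (2 * e1))) (W.V v) ≤
        ENNReal.ofReal (C4 * (C5 ^ 2 + 2 * e1 * (4 * ‖v‖ ^ 2))) := by
      refine h1.trans ?_
      rw [ENNReal.ofReal_mul hC4.le, ENNReal.ofReal_add (by positivity) (by positivity),
        ENNReal.ofReal_mul (by positivity : 0 ≤ 2 * e1),
        ENNReal.ofReal_mul (by norm_num : (0 : ℝ) ≤ 4), ENNReal.ofReal_ofNat]
      exact mul_le_mul' le_rfl (add_le_add h2 (mul_le_mul' (ENNReal.ofReal_le_ofReal h4) h3))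
    have h6 := h.trans h5
    rw [hx, ← ENNReal.ofReal_mul (by norm_num), ENNReal.ofReal_le_ofReal_iff (by positivity)] at h6
    have h7 : C4 * e1 ≤ 1 / 320 := by
      calc C4 * e1 ≤ C4 * (1 / (320 * C4)) := by gcongr
        _ = 1 / 320 := by field_simp
    have h8 : C4 * (2 * e1 * (4 * ‖v‖ ^ 2)) ≤ 1 / 40 * ‖v‖ ^ 2 := by
      calc C4 * (2 * e1 * (4 * ‖v‖ ^ 2)) = 8 * (C4 * e1) * ‖v‖ ^ 2 := by ring
        _ ≤ 8 * (1 / 320) * ‖v‖ ^ 2 := by gcongr
        _ = 1 / 40 * ‖v‖ ^ 2 := by ring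
    exact hgoal (40 * (C4 * C5 ^ 2)) (by linarith) (by linarith)

end Pool.Agent.Helper84.HRT
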