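import Mathlib
import Pool.Agent.Helper84.HRT.DefsS
import Pool.Agent.Helper84.HRT.SA
import Pool.Agent.Helper84.HRT.SC
import Pool.Agent.Helper84.HRT.SE
import Pool.Agent.Helper84.HRT.L16B

open MeasureTheory Complex Filter
open scoped ENNReal NNReal ComplexConjugate InnerProductSpace BigOperators Topology

namespace Pool.Agent.Helper84.HRT

variable {H : Type} [NormedAddCommGroup H] [InnerProductSpace ℂ H] [CompleteSpace H]

theorem l16c_om_pos (R : ℝ) (hR : 0 < R) (z : ℂ) : 0 < om R z := by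
  unfold om
  positivity

theorem l16c_ctr_mono {W : Weyl H} {D : Data} (F : Fam W D) {n : ℕ} {δ e : ℝ} (h0 : 0 ≤ δ)
    (h : δ ≤ e) {w : ℂ} {g : H} (hc : F.Ctr n δ w g) : F.Ctr n e w g where
  ne := hc.ne
  tight := hc.tight
  small := hc.small.trans (by
    gcongr)

/-- L16 (DEC), from `dec_caseI`; Case II: `S2 Om (V g) ≤ S2 (s⁻¹ Om) (V (A g)) ≤
(C R^395)² S2 om (V (A g)) ≤ (C R^395 δ)²` by `OmR_sup`; then `pw_le_OmR`. -/
theorem L16 {W : Weyl H} {D : Data} (F : Fam W D) (R0 : ℝ) (hR0 : 1 ≤ R0) :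
    ∃ δ00 : ℝ, 0 < δ00 ∧ ∀ δ0 : ℝ, 0 < δ0 → δ0 ≤ δ00 → F.Dec R0 δ0 := by
  obtain ⟨δ00, hδ00, h00⟩ := dec_caseI F R0 hR0
  refine ⟨δ00, hδ00, fun δ0 hδ0 hδ0' => ?_⟩
  obtain ⟨R2, C1, e10, hR2, hC1, he10, h1⟩ := h00 δ0 hδ0 hδ0'
  have hR2' : (1 : ℝ) ≤ R2 := by linarith
  have hRc : (1 : ℝ) ≤ F.R := by linarith [F.R_ge]
  obtain ⟨C2, hC2, h2⟩ := OmR_sup R2 F.R hR2' hRc
  set K : ℝ := (R2 ^ 390) ^ 2 * (C1 + C2 ^ 2) with hK
  have hR2p : (1 : ℝ) ≤ R2 ^ 390 := one_le_pow₀ hR2'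
  have hK1 : 1 ≤ K := by
    have e1 : (1 : ℝ) ≤ (R2 ^ 390) ^ 2 := one_le_pow₀ hR2p
    have e2 : (1 : ℝ) ≤ C1 + C2 ^ 2 := by nlinarith [sq_nonneg C2]
    exact one_le_mul_of_one_le_of_one_le e1 e2
  refine ⟨K, e10, hK1, he10, ?_⟩
  intro n hn e1 he1 he1' hsep δ w g hδ hδe hctr hone R hR hRe
  have hctr1 : F.Ctr n e1 w g := l16c_ctr_mono F hδ hδe hctr
  have hR0' : (0 : ℝ) ≤ R := by linarith
  have hR2pos : (0 : ℝ) < R2 := by linarith
  have hmono : S2 (fun z => ball1 R z * pw 390 z) (W.V g) ≤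
      ENNReal.ofReal ((R2 ^ 390) ^ 2) * S2 (OmR R2 R) (W.V g) := by
    refine S2_mono (c := R2 ^ 390) (pow_nonneg hR2pos.le 390) _ fun z => ?_
    have hp : 0 < OmR R2 R z := OmR_pos R2 R hR2pos hR0' z
    have hb : 0 ≤ ball1 R z * pw 390 z := by
      refine mul_nonneg ?_ ?_
      · unfold ball1
        exact Set.indicator_nonneg (fun _ _ => by simp) _
      · unfold pw
        positivity
    rw [abs_of_nonneg hb, abs_of_pos hp]
    exact pw_le_OmR R2 hR2' R z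
  rcases le_total (S2 (fun z => (slo 390 R2 z)⁻¹ * OmR R2 R z) (W.V (tr W w (F.A n) g)))
      (S2 (OmR R2 R) (W.V g)) with hcase | hcase
  · have h3 := h1 n hn e1 he1 he1' hsep w g hctr1 hone R hR hRe hcase
    refine hmono.trans ((mul_le_mul_right h3 _).trans ?_)
    rw [← ENNReal.ofReal_mul (sq_nonneg _)]
    refine ENNReal.ofReal_le_ofReal ?_
    have e1 : (1 : ℝ) ≤ (1 + R ^ 395 * δ) ^ 2 := by
      refine one_le_pow₀ ?_
      have : 0 ≤ R ^ 395 * δ := mul_nonneg (pow_nonneg hR0' 395) hδ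
      linarith
    calc (R2 ^ 390) ^ 2 * C1 ≤ K * 1 := by
          rw [hK, mul_one]
          refine mul_le_mul_of_nonneg_left ?_ (sq_nonneg _)
          nlinarith [sq_nonneg C2]
      _ ≤ K * (1 + R ^ 395 * δ) ^ 2 := mul_le_mul_of_nonneg_left e1 (by linarith)
  · have h3 : S2 (fun z => (slo 390 R2 z)⁻¹ * OmR R2 R z) (W.V (tr W w (F.A n) g)) ≤
        ENNReal.ofReal ((C2 * R ^ 395) ^ 2) * S2 (om F.R) (W.V (tr W w (F.A n) g)) := by
      refine S2_mono (c := C2 * R ^ 395) (mul_nonneg hC2.le (pow_nonneg hR0' 395)) _ fun z => ?_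
      have hp : 0 < OmR R2 R z := OmR_pos R2 R hR2pos hR0' z
      have hs : 0 < slo 390 R2 z := slo_pos 390 R2 (by norm_num) hR2pos z
      have ho : 0 < om F.R z := l16c_om_pos _ (by linarith) z
      rw [abs_of_pos (mul_pos (inv_pos.2 hs) hp), abs_of_pos ho]
      exact h2 R hR z
    have h4 : S2 (om F.R) (W.V (tr W w (F.A n) g)) ≤ ENNReal.ofReal (δ ^ 2) := by
      have := hctr.small
      rw [hone, mul_one] at this
      exact this
    have h5 : S2 (OmR R2 R) (W.V g) ≤ ENNReal.ofReal ((C2 * R ^ 395) ^ 2 * δ ^ 2) := by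
      refine hcase.trans (h3.trans ((mul_le_mul_right h4 _).trans ?_))
      rw [← ENNReal.ofReal_mul (sq_nonneg _)]
    refine hmono.trans ((mul_le_mul_right h5 _).trans ?_)
    rw [← ENNReal.ofReal_mul (sq_nonneg _)]
    refine ENNReal.ofReal_le_ofReal ?_
    have hx : 0 ≤ R ^ 395 * δ := mul_nonneg (pow_nonneg hR0' 395) hδ
    have e2 : (R ^ 395 * δ) ^ 2 ≤ (1 + R ^ 395 * δ) ^ 2 := by
      refine pow_le_pow_left₀ hx ?_ 2
      linarith
    calc (R2 ^ 390) ^ 2 * ((C2 * R ^ 395) ^ 2 * δ ^ 2)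
        = ((R2 ^ 390) ^ 2 * C2 ^ 2) * (R ^ 395 * δ) ^ 2 := by ring
      _ ≤ K * (R ^ 395 * δ) ^ 2 := by
          refine mul_le_mul_of_nonneg_right ?_ (sq_nonneg _)
          rw [hK]
          refine mul_le_mul_of_nonneg_left ?_ (sq_nonneg _)
          linarith
      _ ≤ K * (1 + R ^ 395 * δ) ^ 2 := mul_le_mul_of_nonneg_left e2 (by linarith)

end Pool.Agent.Helper84.HRT
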