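import Mathlib
import Pool.Agent.Helper84.HRT.DefsS

open MeasureTheory Complex Filter
open scoped ENNReal NNReal ComplexConjugate InnerProductSpace BigOperators Topology

namespace Pool.Agent.Helper84.HRT

variable {H : Type} [NormedAddCommGroup H] [InnerProductSpace ℂ H] [CompleteSpace H]

private theorem l17a_sq (a : ℝ) (z : ℂ) :
    ‖((a : ℝ) : ℂ) * z‖ₑ ^ 2 = ENNReal.ofReal (a ^ 2) * ‖z‖ₑ ^ 2 := by
  rw [enorm_mul, mul_pow]
  congr 1
  rw [← ofReal_norm, Complex.norm_real, Real.norm_eq_abs, ← ENNReal.ofReal_pow (abs_nonneg _),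
    sq_abs]

private theorem l17a_om_cont (Rc : ℝ) (hRc : 4 ≤ Rc) : Continuous (om Rc) := by
  unfold om
  have : ∀ z : ℂ, (1 + ‖z‖ / Rc) ^ 4 ≠ 0 := by
    intro z
    have : 0 ≤ ‖z‖ / Rc := div_nonneg (norm_nonneg _) (by linarith)
    positivity
  exact Continuous.inv₀ (by fun_prop) this

private theorem l17a_S2_le (Rc : ℝ) (hRc : 4 ≤ Rc) (Ω Ω1 : ℂ → ℝ) (A B : ℝ) (hA : 0 ≤ A)
    (hB : 0 ≤ B) (h : ∀ z, Ω z ^ 2 ≤ A * Ω1 z ^ 2 + B * om Rc z ^ 2) (G : ℂ → ℂ)
    (hG : Measurable G) :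
    S2 Ω G ≤ ENNReal.ofReal A * S2 Ω1 G + ENNReal.ofReal B * S2 (om Rc) G := by
  have hm : Measurable fun z => ENNReal.ofReal B * ‖((om Rc z : ℝ) : ℂ) * G z‖ₑ ^ 2 := by
    have h1 : Measurable (om Rc) := (l17a_om_cont Rc hRc).measurable
    have h2 : Measurable fun z => ((om Rc z : ℝ) : ℂ) := Complex.measurable_ofReal.comp h1
    exact (((h2.mul hG).enorm).pow_const 2).const_mul _
  calc S2 Ω G ≤ ∫⁻ z, (ENNReal.ofReal A * ‖((Ω1 z : ℝ) : ℂ) * G z‖ₑ ^ 2 +
        ENNReal.ofReal B * ‖((om Rc z : ℝ) : ℂ) * G z‖ₑ ^ 2) ∂dA := by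
        unfold S2
        refine lintegral_mono fun z => ?_
        simp only [l17a_sq]
        rw [← mul_assoc, ← mul_assoc, ← add_mul, ← ENNReal.ofReal_mul hA, ← ENNReal.ofReal_mul hB,
          ← ENNReal.ofReal_add (by positivity) (by positivity)]
        gcongr
        exact h z
    _ = _ := by
        rw [lintegral_add_right _ hm, lintegral_const_mul' _ _ ENNReal.ofReal_ne_top,
          lintegral_const_mul' _ _ ENNReal.ofReal_ne_top]
        rfl

private theorem l17a_om_ge (Rc : ℝ) (hRc : 4 ≤ Rc) (z : ℂ) :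
    ((1 + ‖z‖) ^ 8)⁻¹ ≤ om Rc z ^ 2 := by
  unfold om
  have h0 : 0 ≤ ‖z‖ := norm_nonneg z
  have h1 : ‖z‖ / Rc ≤ ‖z‖ := div_le_self h0 (by linarith)
  have h2 : 0 ≤ ‖z‖ / Rc := div_nonneg h0 (by linarith)
  rw [inv_pow, ← pow_mul]
  apply inv_anti₀ (by positivity)
  exact pow_le_pow_left₀ (by positivity) (by linarith) 8

private theorem l17a_pow_exp (n : ℕ) (a : ℝ) (ha : 0 < a) (r : ℝ) (hr : 0 ≤ r) :
    (1 + r) ^ n ≤ n.factorial * a⁻¹ ^ n * Real.exp (a * (1 + r)) := by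
  have h := Real.pow_div_factorial_le_exp (a * (1 + r)) (by positivity) n
  rw [mul_pow, div_le_iff₀ (by positivity)] at h
  have : (1 + r) ^ n = a⁻¹ ^ n * (a ^ n * (1 + r) ^ n) := by
    rw [← mul_assoc, ← mul_pow, inv_mul_cancel₀ ha.ne', one_pow, one_mul]
  rw [this]
  calc a⁻¹ ^ n * (a ^ n * (1 + r) ^ n) ≤ a⁻¹ ^ n * (Real.exp (a * (1 + r)) * n.factorial) := by
        gcongr
    _ = _ := by ring

private theorem l17a_exp_neg (n : ℕ) (x : ℝ) (hx : 0 < x) :
    Real.exp (-(1 / x)) ≤ n.factorial * x ^ n := by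
  have h := Real.pow_div_factorial_le_exp (1 / x) (by positivity) n
  rw [Real.exp_neg]
  rw [inv_le_iff_one_le_mul₀ (Real.exp_pos _)]
  have h2 : (1 : ℝ) = ((1 / x) ^ n / n.factorial) * (n.factorial * x ^ n) := by
    rw [one_div, inv_pow]
    have : (n.factorial : ℝ) ≠ 0 := by positivity
    field_simp
  calc (1 : ℝ) = ((1 / x) ^ n / n.factorial) * (n.factorial * x ^ n) := h2
    _ ≤ Real.exp (1 / x) * (n.factorial * x ^ n) := by gcongr
    _ = _ := by ring

private theorem l17a_ball1 (ρ : ℝ) (z : ℂ) (h : ‖z‖ ≤ ρ) : ball1 ρ z = 1 := by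
  unfold ball1
  rw [Set.indicator_of_mem]
  · rfl
  · simpa using h

private theorem l17a_pw (n : ℕ) (z : ℂ) : pw (n : ℤ) z = (1 + ‖z‖) ^ n := by
  unfold pw
  exact zpow_natCast _ _

/-- the constant -/
private noncomputable def l17K : ℝ := (8 : ℕ).factorial * (1 / 2 : ℝ)⁻¹ ^ 8 * Real.exp (1 / 2)

private theorem l17K_pos : 0 < l17K := by
  unfold l17K; positivity

private theorem l17a_K (r : ℝ) (hr : 0 ≤ r) :
    Real.exp (-r) ≤ l17K * Real.exp (-(r / 2)) * ((1 + r) ^ 8)⁻¹ := by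
  have h := l17a_pow_exp 8 (1 / 2) (by norm_num) r hr
  rw [le_mul_inv_iff₀ (by positivity)]
  calc Real.exp (-r) * (1 + r) ^ 8
      ≤ Real.exp (-r) * ((8 : ℕ).factorial * (1 / 2 : ℝ)⁻¹ ^ 8 *
        Real.exp (1 / 2 * (1 + r))) := by gcongr
    _ = (8 : ℕ).factorial * (1 / 2 : ℝ)⁻¹ ^ 8 * (Real.exp (-r) * Real.exp (1 / 2 * (1 + r))) := by
        ring
    _ = (8 : ℕ).factorial * (1 / 2 : ℝ)⁻¹ ^ 8 * (Real.exp (1 / 2) * Real.exp (-(r / 2))) := by
        rw [← Real.exp_add, ← Real.exp_add]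
        congr 2; ring
    _ = l17K * Real.exp (-(r / 2)) := by unfold l17K; ring

private theorem l17a_min_nonneg (t : ℝ) : 0 ≤ min 1 (Real.exp t) :=
  le_min zero_le_one (Real.exp_pos _).le

private theorem l17a_i (Rc : ℝ) (hRc : 4 ≤ Rc) (x : ℝ) (hx : 0 < x) (z : ℂ) :
    (min 1 (Real.exp (‖z‖ - 1 / x)) * Omc (1 / x) z) ^ 2 ≤
      (Real.exp (-(1 / x)) + (2 * x) ^ 780) * (ball1 (2 / x) z * pw 390 z) ^ 2 +
      l17K * Real.exp (-(1 / x)) * om Rc z ^ 2 := by
  have h0 : 0 ≤ ‖z‖ := norm_nonneg z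
  have hpw : pw 390 z = (1 + ‖z‖) ^ 390 := l17a_pw 390 z
  have hK := l17K_pos
  have hb : 0 ≤ l17K * Real.exp (-(1 / x)) * om Rc z ^ 2 := by positivity
  have hO : Omc (1 / x) z = min 1 (Real.exp (1 / x - ‖z‖)) := rfl
  have hO0 := l17a_min_nonneg (1 / x - ‖z‖)
  have hO1 : min 1 (Real.exp (1 / x - ‖z‖)) ≤ 1 := min_le_left _ _
  have hP0 := l17a_min_nonneg (‖z‖ - 1 / x)
  have hP1 : min 1 (Real.exp (‖z‖ - 1 / x)) ≤ 1 := min_le_left _ _
  rw [hO]
  by_cases h1 : ‖z‖ ≤ 2 / x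
  · rw [l17a_ball1 _ _ h1, one_mul, hpw, ← pow_mul]
    have h2 : (1 : ℝ) ≤ (1 + ‖z‖) ^ (390 * 2) := one_le_pow₀ (by linarith only [h0])
    by_cases h3 : ‖z‖ ≤ 1 / (2 * x)
    · have h4 : min 1 (Real.exp (‖z‖ - 1 / x)) * min 1 (Real.exp (1 / x - ‖z‖)) ≤
          Real.exp (-(1 / (2 * x))) := by
        calc _ ≤ Real.exp (‖z‖ - 1 / x) * 1 := by
              gcongr
              exact min_le_right _ _
          _ ≤ _ := by
              rw [mul_one]
              apply Real.exp_le_exp.2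
              have : 1 / x = 1 / (2 * x) + 1 / (2 * x) := by field_simp; norm_num
              linarith only [h3, this]
      calc _ ≤ Real.exp (-(1 / (2 * x))) ^ 2 := by gcongr
        _ = Real.exp (-(1 / x)) := by
            rw [← Real.exp_nat_mul]; congr 1; push_cast; field_simp
        _ ≤ (Real.exp (-(1 / x)) + (2 * x) ^ 780) * (1 + ‖z‖) ^ (390 * 2) + 0 := by
            rw [add_zero]
            calc Real.exp (-(1 / x)) ≤ (Real.exp (-(1 / x)) + (2 * x) ^ 780) * 1 := by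
                  rw [mul_one]
                  have : 0 ≤ (2 * x) ^ 780 := by positivity
                  linarith only [this]
              _ ≤ _ := by gcongr
        _ ≤ _ := by gcongr
    · push Not at h3
      have h5 : (1 : ℝ) ≤ (2 * x) ^ 780 * (1 + ‖z‖) ^ (390 * 2) := by
        rw [show (390 * 2 : ℕ) = 780 from rfl, ← mul_pow]
        apply one_le_pow₀
        have : 1 = 2 * x * (1 / (2 * x)) := by field_simp
        nlinarith only [hx, this, h3]
      calc _ ≤ (1 * 1 : ℝ) ^ 2 := by gcongr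
        _ = 1 := by norm_num
        _ ≤ (2 * x) ^ 780 * (1 + ‖z‖) ^ (390 * 2) := h5
        _ ≤ (Real.exp (-(1 / x)) + (2 * x) ^ 780) * (1 + ‖z‖) ^ (390 * 2) + 0 := by
            rw [add_zero]
            gcongr
            have := Real.exp_pos (-(1 / x))
            linarith only [this]
        _ ≤ _ := by gcongr
  · push Not at h1
    have h2 : min 1 (Real.exp (‖z‖ - 1 / x)) * min 1 (Real.exp (1 / x - ‖z‖)) ≤
        Real.exp (1 / x - ‖z‖) := by
      calc _ ≤ 1 * Real.exp (1 / x - ‖z‖) := by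
            gcongr
            exact min_le_right _ _
        _ = _ := one_mul _
    have h3 : 1 / x * 2 = 2 / x := by ring
    calc _ ≤ Real.exp (1 / x - ‖z‖) ^ 2 := by gcongr
      _ = Real.exp (2 * (1 / x - ‖z‖)) := by rw [← Real.exp_nat_mul]; push_cast; rfl
      _ ≤ Real.exp (-‖z‖) := by
          apply Real.exp_le_exp.2; linarith only [h1, h3]
      _ ≤ l17K * Real.exp (-(‖z‖ / 2)) * ((1 + ‖z‖) ^ 8)⁻¹ := l17a_K _ h0
      _ ≤ l17K * Real.exp (-(1 / x)) * om Rc z ^ 2 := by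
          have e1 : Real.exp (-(‖z‖ / 2)) ≤ Real.exp (-(1 / x)) := by
            apply Real.exp_le_exp.2; linarith only [h1, h3]
          exact mul_le_mul (mul_le_mul_of_nonneg_left e1 hK.le) (l17a_om_ge Rc hRc z)
            (by positivity) (by positivity)
      _ ≤ _ := by
          have : 0 ≤ (Real.exp (-(1 / x)) + (2 * x) ^ 780) * (ball1 (2 / x) z * pw 390 z) ^ 2 := by
            positivity
          linarith only [this]

private theorem l17a_ii (Rc : ℝ) (hRc : 4 ≤ Rc) (x : ℝ) (hx : 0 < x) (z : ℂ) :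
    (pw 300 z * Omc (1 / x) z) ^ 2 ≤ 1 * (ball1 (2 / x) z * pw 390 z) ^ 2 +
      (608 : ℕ).factorial * Real.exp 1 * om Rc z ^ 2 := by
  have h0 : 0 ≤ ‖z‖ := norm_nonneg z
  have hpw : pw 390 z = (1 + ‖z‖) ^ 390 := l17a_pw 390 z
  have hpw3 : pw 300 z = (1 + ‖z‖) ^ 300 := l17a_pw 300 z
  have hO : Omc (1 / x) z = min 1 (Real.exp (1 / x - ‖z‖)) := rfl
  have hO0 := l17a_min_nonneg (1 / x - ‖z‖)
  have hO1 : min 1 (Real.exp (1 / x - ‖z‖)) ≤ 1 := min_le_left _ _
  have hb : 0 ≤ (608 : ℕ).factorial * Real.exp 1 * om Rc z ^ 2 := by positivity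
  rw [hO, hpw3]
  by_cases h1 : ‖z‖ ≤ 2 / x
  · rw [l17a_ball1 _ _ h1, one_mul, one_mul, hpw]
    calc _ ≤ ((1 + ‖z‖) ^ 300 * 1) ^ 2 := by gcongr
      _ ≤ ((1 + ‖z‖) ^ 390) ^ 2 + 0 := by
          rw [mul_one, add_zero]
          gcongr
          · linarith only [h0]
          · norm_num
      _ ≤ _ := by gcongr
  · push Not at h1
    have h3 : 1 / x * 2 = 2 / x := by ring
    have h4 := l17a_pow_exp 608 1 one_pos ‖z‖ h0
    simp only [inv_one, one_pow, mul_one, one_mul] at h4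
    calc _ ≤ ((1 + ‖z‖) ^ 300 * Real.exp (1 / x - ‖z‖)) ^ 2 := by
          gcongr
          exact min_le_right _ _
      _ = (1 + ‖z‖) ^ 600 * Real.exp (2 * (1 / x - ‖z‖)) := by
          rw [mul_pow, ← pow_mul, ← Real.exp_nat_mul]; push_cast; rfl
      _ ≤ (1 + ‖z‖) ^ 600 * Real.exp (-‖z‖) := by
          gcongr; linarith only [h1, h3]
      _ = ((1 + ‖z‖) ^ 608 * Real.exp (-‖z‖)) * ((1 + ‖z‖) ^ 8)⁻¹ := by
          rw [show (608 : ℕ) = 600 + 8 from rfl, pow_add]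
          have : (1 + ‖z‖) ^ 8 ≠ 0 := by positivity
          field_simp
      _ ≤ (((608 : ℕ).factorial * Real.exp (1 + ‖z‖)) * Real.exp (-‖z‖)) *
            ((1 + ‖z‖) ^ 8)⁻¹ := by gcongr
      _ = (608 : ℕ).factorial * Real.exp 1 * ((1 + ‖z‖) ^ 8)⁻¹ := by
          rw [mul_assoc ((608 : ℕ).factorial : ℝ), ← Real.exp_add]
          congr 3; ring
      _ ≤ (608 : ℕ).factorial * Real.exp 1 * om Rc z ^ 2 := by
          gcongr
          exact l17a_om_ge Rc hRc z
      _ ≤ _ := by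
          have : 0 ≤ 1 * (ball1 (2 / x) z * pw 390 z) ^ 2 := by positivity
          linarith only [this]

private theorem l17a_iii (Rc : ℝ) (hRc : 4 ≤ Rc) (x : ℝ) (hx : 0 < x) (z : ℂ) :
    (min 1 (Real.exp (1 / (2 * x) - ‖z‖)) * (1 - Omc (1 / x) z)) ^ 2 ≤
      0 * (0 : ℝ) ^ 2 + l17K * Real.exp (-(1 / (2 * x))) * om Rc z ^ 2 := by
  have h0 : 0 ≤ ‖z‖ := norm_nonneg z
  have hK := l17K_pos
  have hO : Omc (1 / x) z = min 1 (Real.exp (1 / x - ‖z‖)) := rfl
  have hO0 := l17a_min_nonneg (1 / x - ‖z‖)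
  have hO1 : min 1 (Real.exp (1 / x - ‖z‖)) ≤ 1 := min_le_left _ _
  have hP0 := l17a_min_nonneg (1 / (2 * x) - ‖z‖)
  rw [hO, zero_mul, zero_add]
  by_cases h1 : ‖z‖ ≤ 1 / x
  · have h2 : min 1 (Real.exp (1 / x - ‖z‖)) = 1 := by
      apply min_eq_left
      rw [Real.one_le_exp_iff]
      linarith only [h1]
    rw [h2, sub_self, mul_zero, zero_pow two_ne_zero]
    positivity
  · push Not at h1
    have h3 : 1 / x = 1 / (2 * x) + 1 / (2 * x) := by field_simp; norm_num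
    have h6 : 0 ≤ 1 - min 1 (Real.exp (1 / x - ‖z‖)) := by linarith only [hO1]
    calc _ ≤ (Real.exp (1 / (2 * x) - ‖z‖) * 1) ^ 2 := by
          gcongr
          · exact min_le_right _ _
          · linarith only [hO0]
      _ = Real.exp (2 * (1 / (2 * x) - ‖z‖)) := by
          rw [mul_one, ← Real.exp_nat_mul]; push_cast; rfl
      _ ≤ Real.exp (-‖z‖) := by
          apply Real.exp_le_exp.2; linarith only [h1, h3]
      _ ≤ l17K * Real.exp (-(‖z‖ / 2)) * ((1 + ‖z‖) ^ 8)⁻¹ := l17a_K _ h0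
      _ ≤ l17K * Real.exp (-(1 / (2 * x))) * om Rc z ^ 2 := by
          have e1 : Real.exp (-(‖z‖ / 2)) ≤ Real.exp (-(1 / (2 * x))) := by
            apply Real.exp_le_exp.2; linarith only [h1, h3]
          exact mul_le_mul (mul_le_mul_of_nonneg_left e1 hK.le) (l17a_om_ge Rc hRc z)
            (by positivity) (by positivity)

/-- L17a: weighted masses of a function `G` with a moment bound up to `2d` and total
`om`-mass 1 (pure analysis; `G` measurable). `d = 1/x`.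
(i) `∫ e^{-2| |z|-d |} |G|² ≤ x^{770}`: `|z| ≤ d/2`: `e^{-d} C`; `d/2 ≤ |z| ≤ 2d`: `C (d/2)^{-780}`;
`|z| ≥ 2d`: `e^{-2(|z|-d)} ≤ e^{-|z|}` and `om` is at least `c (1+|z|)^{-4}`.
(ii) `∫ (1+|z|)^{600} Omc² |G|² ≤ C'`. (iii) `∫_{|z|≥d} e^{-2(|z|-d/2)} |G|² ≤ x^{800}`. -/
theorem loc_masses (Rc C : ℝ) (hRc : 4 ≤ Rc) (hC : 1 ≤ C) : ∃ C' x0 : ℝ, 1 ≤ C' ∧ 0 < x0 ∧
    ∀ (G : ℂ → ℂ), Measurable G → ∀ x : ℝ, 0 < x → x ≤ x0 → S2 (om Rc) G = 1 →
    S2 (fun z => ball1 (2 / x) z * pw 390 z) G ≤ ENNReal.ofReal C →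
    S2 (fun z => min 1 (Real.exp (‖z‖ - 1 / x)) * Omc (1 / x) z) G ≤ ENNReal.ofReal (x ^ 770) ∧
    S2 (fun z => pw 300 z * Omc (1 / x) z) G ≤ ENNReal.ofReal C' ∧
    S2 (fun z => min 1 (Real.exp (1 / (2 * x) - ‖z‖)) * (1 - Omc (1 / x) z)) G ≤
      ENNReal.ofReal (x ^ 800) := by
  have hK := l17K_pos
  set M : ℝ := ((900 : ℕ).factorial : ℝ) with hM
  have hM0 : 0 < M := by positivity
  set T : ℝ := (2 : ℝ) ^ 780 with hT
  have hT0 : 0 < T := by positivity
  set T2 : ℝ := (2 : ℝ) ^ 900 with hT2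
  have hT20 : 0 < T2 := by positivity
  set L : ℝ := (C + l17K) * M + C * T + l17K * M * T2 + 1 with hL
  have hL1 : 1 ≤ L := by
    have : 0 ≤ (C + l17K) * M + C * T + l17K * M * T2 := by positivity
    linarith
  refine ⟨C + (608 : ℕ).factorial * Real.exp 1, 1 / L, ?_, by positivity, ?_⟩
  · have : 0 ≤ ((608 : ℕ).factorial : ℝ) * Real.exp 1 := by positivity
    linarith
  intro G hG x hx hx0 hom hmom
  have hxL : x * L ≤ 1 := by rwa [le_div_iff₀ (by positivity)] at hx0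
  have hx1 : x ≤ 1 := by
    calc x = x * 1 := (mul_one x).symm
      _ ≤ x * L := by gcongr
      _ ≤ 1 := hxL
  have he := l17a_exp_neg 900 x hx
  have he2 : Real.exp (-(1 / (2 * x))) ≤ M * (2 * x) ^ 900 := l17a_exp_neg 900 (2 * x) (by positivity)
  rw [← hM] at he
  have hp : ∀ n : ℕ, 771 ≤ n → x ^ n ≤ x ^ 771 := fun n hn =>
    pow_le_pow_of_le_one hx.le hx1 hn
  refine ⟨?_, ?_, ?_⟩
  · refine (l17a_S2_le Rc hRc _ _ _ _ (by positivity) (by positivity)
      (l17a_i Rc hRc x hx) G hG).trans ?_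
    rw [hom, mul_one]
    calc _ ≤ ENNReal.ofReal (Real.exp (-(1 / x)) + (2 * x) ^ 780) * ENNReal.ofReal C +
          ENNReal.ofReal (l17K * Real.exp (-(1 / x))) := by gcongr
      _ = ENNReal.ofReal ((Real.exp (-(1 / x)) + (2 * x) ^ 780) * C +
          l17K * Real.exp (-(1 / x))) := by
          rw [← ENNReal.ofReal_mul (by positivity), ← ENNReal.ofReal_add (by positivity)
            (by positivity)]
      _ ≤ _ := by
          apply ENNReal.ofReal_le_ofReal
          have e1 : (2 * x) ^ 780 = T * x ^ 780 := by rw [mul_pow]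
          calc (Real.exp (-(1 / x)) + (2 * x) ^ 780) * C + l17K * Real.exp (-(1 / x))
              = (C + l17K) * Real.exp (-(1 / x)) + C * T * x ^ 780 := by rw [e1]; ring
            _ ≤ (C + l17K) * (M * x ^ 900) + C * T * x ^ 780 := by gcongr
            _ ≤ (C + l17K) * (M * x ^ 771) + C * T * x ^ 771 := by
                have q1 := hp 900 (by norm_num)
                have q2 := hp 780 (by norm_num)
                exact add_le_add (mul_le_mul_of_nonneg_left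
                  (mul_le_mul_of_nonneg_left q1 hM0.le) (by positivity))
                  (mul_le_mul_of_nonneg_left q2 (by positivity))
            _ = x ^ 770 * (x * ((C + l17K) * M + C * T)) := by ring
            _ ≤ x ^ 770 * 1 := by
                gcongr
                calc x * ((C + l17K) * M + C * T) ≤ x * L := by
                      gcongr
                      have : 0 ≤ l17K * M * T2 := by positivity
                      linarith only [this]
                  _ ≤ 1 := hxL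
            _ = _ := mul_one _
  · refine (l17a_S2_le Rc hRc _ _ _ _ (by positivity) (by positivity)
      (l17a_ii Rc hRc x hx) G hG).trans ?_
    rw [hom, mul_one]
    calc _ ≤ ENNReal.ofReal 1 * ENNReal.ofReal C +
          ENNReal.ofReal ((608 : ℕ).factorial * Real.exp 1) := by gcongr
      _ = _ := by
          rw [← ENNReal.ofReal_mul (by positivity), one_mul, ← ENNReal.ofReal_add (by positivity)
            (by positivity)]
  · refine (l17a_S2_le Rc hRc _ (fun _ => 0) _ _ le_rfl (by positivity)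
      (l17a_iii Rc hRc x hx) G hG).trans ?_
    rw [hom, mul_one, ENNReal.ofReal_zero, zero_mul, zero_add]
    apply ENNReal.ofReal_le_ofReal
    calc l17K * Real.exp (-(1 / (2 * x))) ≤ l17K * (M * (2 * x) ^ 900) := by gcongr
      _ = l17K * M * T2 * x ^ 900 := by rw [mul_pow]; ring
      _ ≤ l17K * M * T2 * x ^ 801 :=
          mul_le_mul_of_nonneg_left (pow_le_pow_of_le_one hx.le hx1 (by norm_num))
            (by positivity)
      _ = x ^ 800 * (x * (l17K * M * T2)) := by ring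
      _ ≤ x ^ 800 * 1 := by
          gcongr
          calc x * (l17K * M * T2) ≤ x * L := by
                gcongr
                have : 0 ≤ (C + l17K) * M + C * T := by positivity
                linarith only [this]
            _ ≤ 1 := hxL
      _ = _ := mul_one _

/-- L17b: `Omc (1/x) ≤ C x^{-4} om`. -/
theorem Omc_le_om (Rc : ℝ) (hRc : 4 ≤ Rc) : ∃ C : ℝ, 1 ≤ C ∧ ∀ x : ℝ, 0 < x → x ≤ 1 →
    ∀ z : ℂ, Omc (1 / x) z * x ^ 4 ≤ C * om Rc z := by
  set K : ℝ := (4 : ℕ).factorial * (1 / 2 : ℝ)⁻¹ ^ 4 * Real.exp (1 / 2) with hK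
  have hK0 : 0 < K := by positivity
  refine ⟨81 + K, by linarith only [hK0], fun x hx hx1 z => ?_⟩
  have h0 : 0 ≤ ‖z‖ := norm_nonneg z
  have hO : Omc (1 / x) z = min 1 (Real.exp (1 / x - ‖z‖)) := rfl
  have hO0 := l17a_min_nonneg (1 / x - ‖z‖)
  have hO1 : min 1 (Real.exp (1 / x - ‖z‖)) ≤ 1 := min_le_left _ _
  have h1 : ‖z‖ / Rc ≤ ‖z‖ := div_le_self h0 (by linarith only [hRc])
  have h2 : 0 ≤ ‖z‖ / Rc := div_nonneg h0 (by linarith only [hRc])
  have hom : ((1 + ‖z‖) ^ 4)⁻¹ ≤ om Rc z := by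
    unfold om
    apply inv_anti₀ (by positivity)
    gcongr
  rw [hO]
  have key : min 1 (Real.exp (1 / x - ‖z‖)) * x ^ 4 * (1 + ‖z‖) ^ 4 ≤ 81 + K := by
    by_cases h3 : ‖z‖ ≤ 2 / x
    · have h4 : x * (1 + ‖z‖) ≤ 3 := by
        have : x * (2 / x) = 2 := by field_simp
        nlinarith only [hx1, this, hx, h3]
      calc _ ≤ 1 * x ^ 4 * (1 + ‖z‖) ^ 4 := by gcongr
        _ = (x * (1 + ‖z‖)) ^ 4 := by ring
        _ ≤ 3 ^ 4 := by gcongr
        _ ≤ 81 + K := by norm_num; linarith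
    · push Not at h3
      have h5 : 1 / x * 2 = 2 / x := by ring
      have h6 := l17a_pow_exp 4 (1 / 2) (by norm_num) ‖z‖ h0
      have h7 : x ^ 4 ≤ 1 := pow_le_one₀ hx.le hx1
      calc _ ≤ Real.exp (-(‖z‖ / 2)) * 1 * ((4 : ℕ).factorial * (1 / 2 : ℝ)⁻¹ ^ 4 *
            Real.exp (1 / 2 * (1 + ‖z‖))) := by
            gcongr
            refine (min_le_right _ _).trans ?_
            apply Real.exp_le_exp.2
            linarith only [h3, h5]
        _ = (4 : ℕ).factorial * (1 / 2 : ℝ)⁻¹ ^ 4 *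
            (Real.exp (-(‖z‖ / 2)) * Real.exp (1 / 2 * (1 + ‖z‖))) := by ring
        _ = K := by
            rw [← Real.exp_add, hK]
            congr 2; ring
        _ ≤ 81 + K := by linarith only []
  calc min 1 (Real.exp (1 / x - ‖z‖)) * x ^ 4
      = (min 1 (Real.exp (1 / x - ‖z‖)) * x ^ 4 * (1 + ‖z‖) ^ 4) * ((1 + ‖z‖) ^ 4)⁻¹ := by
        have : (1 + ‖z‖) ^ 4 ≠ 0 := by positivity
        field_simp
    _ ≤ (81 + K) * ((1 + ‖z‖) ^ 4)⁻¹ := by gcongr
    _ ≤ (81 + K) * om Rc z := by gcongr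

end Pool.Agent.Helper84.HRT
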