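import Mathlib
import Pool.Agent.Helper84.HRT.DefsS

open MeasureTheory Complex Filter
open scoped ENNReal NNReal ComplexConjugate InnerProductSpace BigOperators Topology

namespace Pool.Agent.Helper84.HRT

variable {H : Type} [NormedAddCommGroup H] [InnerProductSpace ℂ H] [CompleteSpace H]

theorem l17b_sq (a : ℝ) (w : ℂ) : ‖((a : ℝ) : ℂ) * w‖ₑ ^ 2 = ENNReal.ofReal (a ^ 2) * ‖w‖ₑ ^ 2 := by
  rw [enorm_mul, mul_pow]
  congr 1
  rw [← ofReal_norm, ← ENNReal.ofReal_pow (norm_nonneg _), Complex.norm_real,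
    Real.norm_eq_abs, sq_abs]

/-- tightness: at least `7/10` of the `om`-mass of a tight vector lies in `|z| ≤ 40 R`
(`∫_{|z|>40R} om² ≤ 41^{-2} ∫ omm² ≤ 441/1681 ≤ 3/10`). -/
theorem tight_ball (R : ℝ) (hR : 4 ≤ R) (G : ℂ → ℂ) (hG : Measurable G)
    (h1 : S2 (om R) G = 1) (h2 : S2 (omm R) G ≤ ENNReal.ofReal 441) :
    ENNReal.ofReal (7 / 10) ≤ S2 (ball1 (40 * R)) G := by
  have hR0 : 0 < R := by linarith
  have hpt : ∀ z : ℂ, ‖((om R z : ℝ) : ℂ) * G z‖ₑ ^ 2 ≤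
      ‖((ball1 (40 * R) z : ℝ) : ℂ) * G z‖ₑ ^ 2 +
        ENNReal.ofReal (1 / 1681) * ‖((omm R z : ℝ) : ℂ) * G z‖ₑ ^ 2 := by
    intro z
    rw [l17b_sq, l17b_sq, l17b_sq, ← mul_assoc, ← ENNReal.ofReal_mul (by norm_num), ← add_mul,
      ← ENNReal.ofReal_add (by positivity) (by positivity)]
    refine mul_le_mul_left (ENNReal.ofReal_le_ofReal ?_) _
    have hz : 0 ≤ ‖z‖ / R := by positivity
    unfold om omm
    by_cases hzR : ‖z‖ ≤ 40 * R
    · have hb : ball1 (40 * R) z = 1 := by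
        unfold ball1
        rw [Set.indicator_of_mem]
        · rfl
        · rw [mem_closedBall_zero_iff]
          exact hzR
      rw [hb]
      have h3 : ((1 + ‖z‖ / R) ^ 4)⁻¹ ≤ 1 := by
        apply inv_le_one_of_one_le₀
        exact one_le_pow₀ (by linarith)
      have h4 : 0 ≤ ((1 + ‖z‖ / R) ^ 4)⁻¹ := by positivity
      have h5 : 0 ≤ ((1 + ‖z‖ / R) ^ 3)⁻¹ := by positivity
      nlinarith
    · push Not at hzR
      have h41 : 41 ≤ 1 + ‖z‖ / R := by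
        have h3 : 40 < ‖z‖ / R := by
          rw [lt_div_iff₀ hR0]
          exact hzR
        linarith
      have h3 : ((1 + ‖z‖ / R) ^ 4)⁻¹ ≤ 1 / 41 * ((1 + ‖z‖ / R) ^ 3)⁻¹ := by
        rw [pow_succ, mul_inv, mul_comm]
        refine mul_le_mul_of_nonneg_right ?_ (by positivity)
        rw [one_div]
        exact inv_anti₀ (by norm_num) h41
      have h4 : 0 ≤ ((1 + ‖z‖ / R) ^ 4)⁻¹ := by positivity
      have h5 : (((1 + ‖z‖ / R) ^ 4)⁻¹) ^ 2 ≤ (1 / 41 * ((1 + ‖z‖ / R) ^ 3)⁻¹) ^ 2 :=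
        pow_le_pow_left₀ h4 h3 2
      have h6 : 0 ≤ ball1 (40 * R) z ^ 2 := sq_nonneg _
      calc (((1 + ‖z‖ / R) ^ 4)⁻¹) ^ 2 ≤ (1 / 41 * ((1 + ‖z‖ / R) ^ 3)⁻¹) ^ 2 := h5
        _ = 1 / 1681 * (((1 + ‖z‖ / R) ^ 3)⁻¹) ^ 2 := by ring
        _ ≤ _ := by linarith
  have hmeas : Measurable fun z : ℂ => ENNReal.ofReal (1 / 1681) *
      ‖((omm R z : ℝ) : ℂ) * G z‖ₑ ^ 2 := by
    have h3 : Measurable (omm R) := by
      unfold omm
      fun_prop
    fun_prop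
  have hint : S2 (om R) G ≤ S2 (ball1 (40 * R)) G + ENNReal.ofReal (1 / 1681) * S2 (omm R) G := by
    unfold S2
    rw [← lintegral_const_mul' _ _ ENNReal.ofReal_ne_top, ← lintegral_add_right _ hmeas]
    exact lintegral_mono hpt
  rw [h1] at hint
  have h3 : ENNReal.ofReal (1 / 1681) * S2 (omm R) G ≤ ENNReal.ofReal (3 / 10) := by
    refine (mul_le_mul_right h2 _).trans ?_
    rw [← ENNReal.ofReal_mul (by norm_num)]
    exact ENNReal.ofReal_le_ofReal (by norm_num)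
  have h4 : (1 : ℝ≥0∞) ≤ S2 (ball1 (40 * R)) G + ENNReal.ofReal (3 / 10) :=
    hint.trans (add_le_add_right h3 _)
  have h5 : (1 : ℝ≥0∞) = ENNReal.ofReal (7 / 10) + ENNReal.ofReal (3 / 10) := by
    rw [← ENNReal.ofReal_add (by norm_num) (by norm_num)]
    norm_num
  rw [h5] at h4
  exact (ENNReal.add_le_add_iff_right ENNReal.ofReal_ne_top).1 h4

/-- the mass in a ball is controlled by the `om`-mass -/
theorem ball_le_om (R ρ : ℝ) (hR : 0 < R) (hρ : 0 ≤ ρ) (G : ℂ → ℂ) :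
    S2 (ball1 ρ) G ≤ ENNReal.ofReal ((1 + ρ / R) ^ 8) * S2 (om R) G := by
  unfold S2
  rw [← lintegral_const_mul' _ _ ENNReal.ofReal_ne_top]
  refine lintegral_mono fun z => ?_
  rw [l17b_sq, l17b_sq, ← mul_assoc, ← ENNReal.ofReal_mul (by positivity)]
  refine mul_le_mul_left (ENNReal.ofReal_le_ofReal ?_) _
  by_cases hz : ‖z‖ ≤ ρ
  · have hb : ball1 ρ z = 1 := by
      unfold ball1
      rw [Set.indicator_of_mem]
      · rfl
      · rw [mem_closedBall_zero_iff]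
        exact hz
    rw [hb]
    unfold om
    have h1 : 0 < 1 + ‖z‖ / R := by positivity
    have h2 : 1 + ‖z‖ / R ≤ 1 + ρ / R := by
      have := div_le_div_of_nonneg_right hz hR.le
      linarith
    have h3 : (1 + ‖z‖ / R) ^ 8 ≤ (1 + ρ / R) ^ 8 := pow_le_pow_left₀ h1.le h2 8
    have h4 : (((1 + ‖z‖ / R) ^ 4)⁻¹) ^ 2 = ((1 + ‖z‖ / R) ^ 8)⁻¹ := by
      rw [inv_pow, ← pow_mul]
    rw [h4, ← div_eq_mul_inv, one_pow, le_div_iff₀ (by positivity), one_mul]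
    exact h3
  · have hb : ball1 ρ z = 0 := by
      unfold ball1
      rw [Set.indicator_of_notMem]
      rw [mem_closedBall_zero_iff]
      exact hz
    rw [hb]
    have : 0 ≤ (1 + ρ / R) ^ 8 * om R z ^ 2 := by positivity
    simpa using this

end Pool.Agent.Helper84.HRT
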