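import Mathlib
import Pool.Agent.Helper84.HRT.DefsS
import Pool.Agent.Helper84.HRT.WB
import Pool.Agent.Helper84.HRT.WD
import Pool.Agent.Helper84.HRT.YK
import Pool.Agent.Helper84.HRT.SA
import Pool.Agent.Helper84.HRT.SB
import Pool.Agent.Helper84.HRT.SC
import Pool.Agent.Helper84.HRT.SD
import Pool.Agent.Helper84.HRT.SG
import Pool.Agent.Helper84.HRT.SI
import Pool.Agent.Helper84.HRT.L17A
import Pool.Agent.Helper84.HRT.L17B

open MeasureTheory Complex Filter
open scoped ENNReal NNReal ComplexConjugate InnerProductSpace BigOperators Topology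

namespace Pool.Agent.Helper84.HRT

variable {H : Type} [NormedAddCommGroup H] [InnerProductSpace ℂ H] [CompleteSpace H]

private theorem l17c_Omc_nonneg (d : ℝ) (z : ℂ) : 0 ≤ Omc d z :=
  le_min zero_le_one (Real.exp_pos _).le

private theorem l17c_Omc_le (d : ℝ) (z : ℂ) : Omc d z ≤ 1 := min_le_left _ _

private theorem l17c_om_nonneg {R : ℝ} (hR : 0 < R) (z : ℂ) : 0 ≤ om R z := by
  unfold om
  positivity

/-- from squares in `ENNReal` -/
private theorem l17c_sq {a b : ℝ} (ha : 0 ≤ a) (hb : 0 ≤ b)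
    (h : ENNReal.ofReal (a ^ 2) ≤ ENNReal.ofReal (b ^ 2)) : a ≤ b := by
  have h1 : a ^ 2 ≤ b ^ 2 := (ENNReal.ofReal_le_ofReal_iff (by positivity)).1 h
  exact (pow_le_pow_iff_left₀ ha hb two_ne_zero).1 h1

private theorem l17c_e (x : ℝ) (hx : 0 < x) : (2 / x) ^ 395 * x ^ 400 = 2 ^ 395 * x ^ 5 := by
  have hx' : x ≠ 0 := hx.ne'
  have h1 : x ^ 400 = x ^ 395 * x ^ 5 := by rw [← pow_add]
  rw [div_pow, h1]
  field_simp

private theorem l17c_small (x : ℝ) (hx : 0 < x) (h : x ≤ (1 / 2) ^ 79) : 2 ^ 395 * x ^ 5 ≤ 1 := by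
  calc 2 ^ 395 * x ^ 5 ≤ 2 ^ 395 * ((1 / 2) ^ 79) ^ 5 := by gcongr
    _ = (2 * (1 / 2)) ^ 395 := by rw [mul_pow, ← pow_mul]
    _ = 1 := by rw [mul_one_div_cancel (two_ne_zero), one_pow]

/-- L17 (localisation). `δ = x^400`, `u = TO W (Omc (1/x)) g`; L16 with `e1 = x^8`, `R = 2/x`
(`R^4 e1 = 16 x^4 ≤ 1`, `R^395 δ = 2^395 x^5 ≤ 1` for small `x`).
`‖A u‖² ≤ C (S2 Omc (V (A g)) + S2 (s Omc) (V g)) ≤ C (C² x^{-8} x^{800} + x^{770})
≤ x^{760}` (TO_op with `Y = 1`, `isW_Omc`, `Omc_le_om`). Moments: `V_TO`, `Kop_pw 300`, (ii).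
`V u - V g = Kop ((Omc - 1) V g)` (as `V g = Kop (V g)`, `rep_V`), `Kop_in` with `T = 1/(2x)`
and (iii). Lower bound: `tight_ball`, `S2_add`. -/
theorem L17 {W : Weyl H} {D : Data} (F : Fam W D) (R0 δ0 : ℝ) (h : F.Dec R0 δ0) :
    F.Loc R0 δ0 := by
  obtain ⟨CD, e10, hCD, he10, hdec⟩ := h
  obtain ⟨C', x1, hC', hx1, hmass⟩ := loc_masses F.R (4 * CD) F.R_ge (by linarith)
  obtain ⟨CO, hCO, hOm⟩ := Omc_le_om F.R F.R_ge
  obtain ⟨C1, hC1, hTO⟩ := TO_op F
  obtain ⟨Cp, hCp, hKp⟩ := Kop_pw 300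
  obtain ⟨Ci, hCi, hKi⟩ := Kop_in
  have hR : 4 ≤ F.R := F.R_ge
  have hR0 : 0 < F.R := by linarith
  set K : ℝ := C1 * (CO ^ 2 + 1) with hK
  have hKpos : 0 < K := by positivity
  refine ⟨max 1 (Cp * C'), min (min (min x1 e10) (min ((1 / 2) ^ 79) (1 / K)))
    (min (1 / (Ci + 1)) (1 / (80 * F.R))), le_max_left _ _, by positivity, ?_⟩
  intro n hn x hx hx0 hsep w g hctr hone
  have hxx1 : x ≤ x1 := hx0.trans ((min_le_left _ _).trans ((min_le_left _ _).trans (min_le_left _ _)))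
  have hxe : x ≤ e10 := hx0.trans ((min_le_left _ _).trans ((min_le_left _ _).trans (min_le_right _ _)))
  have hx79 : x ≤ (1 / 2) ^ 79 :=
    hx0.trans ((min_le_left _ _).trans ((min_le_right _ _).trans (min_le_left _ _)))
  have hxK : x ≤ 1 / K :=
    hx0.trans ((min_le_left _ _).trans ((min_le_right _ _).trans (min_le_right _ _)))
  have hxC : x ≤ 1 / (Ci + 1) := hx0.trans ((min_le_right _ _).trans (min_le_left _ _))
  have hxR : x ≤ 1 / (80 * F.R) := hx0.trans ((min_le_right _ _).trans (min_le_right _ _))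
  have hxhalf : x ≤ 1 / 2 := hx79.trans (by norm_num)
  have hx1' : x ≤ 1 := by linarith
  have hpow : ∀ k : ℕ, 1 ≤ k → x ^ k ≤ x := fun k hk => by
    calc x ^ k ≤ x ^ 1 := pow_le_pow_of_le_one hx.le hx1' hk
      _ = x := pow_one x
  -- the moment bound from L16
  have hmom : S2 (fun z => ball1 (2 / x) z * pw 390 z) (W.V g) ≤ ENNReal.ofReal (4 * CD) := by
    refine (hdec n hn (x ^ 8) (by positivity) ((hpow 8 (by norm_num)).trans hxe) hsep (x ^ 400) w g
      (by positivity) (pow_le_pow_of_le_one hx.le hx1' (by norm_num)) hctr hone (2 / x) ?_ ?_).trans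
      (ENNReal.ofReal_le_ofReal ?_)
    · rw [le_div_iff₀ hx]; linarith
    · have e : (2 / x) ^ 4 * x ^ 8 = (2 * x) ^ 4 := by field_simp
      rw [e]
      exact pow_le_one₀ (by positivity) (by linarith)
    · have e : (2 / x) ^ 395 * x ^ 400 = 2 ^ 395 * x ^ 5 := l17c_e x hx
      have h5 : 2 ^ 395 * x ^ 5 ≤ 1 := l17c_small x hx hx79
      rw [e]
      have h7 : 0 ≤ 2 ^ 395 * x ^ 5 := by positivity
      generalize 2 ^ 395 * x ^ 5 = y at h5 h7 ⊢
      have h8 : (1 + y) ^ 2 ≤ 4 := by nlinarith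
      calc CD * (1 + y) ^ 2 ≤ CD * 4 := by gcongr
        _ = 4 * CD := by ring
  obtain ⟨hm1, hm2, hm3⟩ := hmass (W.V g) (V_cont W g).measurable x hx hxx1 hone hmom
  have hW : IsW (Omc (1 / x)) (fun z => min 1 (Real.exp (‖z‖ - 1 / x))) := isW_Omc (1 / x)
  have hfin : S2 (Omc (1 / x)) (W.V g) < ⊤ := by
    refine S2_V_lt_top W _ 1 (fun z => ?_) g
    rw [abs_of_nonneg (l17c_Omc_nonneg _ _)]
    exact l17c_Omc_le _ _
  set u : H := TO W (Omc (1 / x)) g with hu
  have hVu : W.V u = Kop (fun z => ((Omc (1 / x) z : ℝ) : ℂ) * W.V g z) := by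
    funext z
    exact V_TO W _ _ hW g hfin z
  have hmeasF : AEStronglyMeasurable (fun z => ((Omc (1 / x) z : ℝ) : ℂ) * W.V g z) dA := by
    have h1 : Continuous fun z => ((Omc (1 / x) z : ℝ) : ℂ) :=
      Complex.continuous_ofReal.comp hW.cont
    exact (h1.mul (V_cont W g)).aestronglyMeasurable
  -- locality
  have hloc : S2 (ball1 (1 / (2 * x))) (W.V (u - g)) ≤ ENNReal.ofReal (x ^ 720) := by
    have hrep := (rep_V W g).rep
    have hint1 : ∀ z, Integrable (fun ζ => Kk z ζ * (((Omc (1 / x) ζ : ℝ) : ℂ) * W.V g ζ)) dA := by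
      intro z
      refine Kop_integrable (fun _ => 1) logLip_one _ hmeasF ?_ z
      rw [S2_mul_weight]
      simpa using hfin
    have hint2 : ∀ z, Integrable (fun ζ => Kk z ζ * W.V g ζ) dA := by
      intro z
      refine Kop_integrable (fun _ => 1) logLip_one _ (V_cont W g).aestronglyMeasurable ?_ z
      exact S2_V_lt_top W _ 1 (fun z => by simp) g
    have hV : W.V (u - g) = Kop (fun z => ((Omc (1 / x) z - 1 : ℝ) : ℂ) * W.V g z) := by
      funext z
      rw [V_sub, hVu, ← hrep z]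
      unfold Kop
      rw [← integral_sub (hint1 z) (hint2 z)]
      refine integral_congr_ae (ae_of_all _ fun ζ => ?_)
      simp only
      push_cast
      ring
    have hmeasG : AEStronglyMeasurable
        (fun z => ((Omc (1 / x) z - 1 : ℝ) : ℂ) * W.V g z) dA := by
      have h1 : Continuous fun z => ((Omc (1 / x) z - 1 : ℝ) : ℂ) :=
        Complex.continuous_ofReal.comp (hW.cont.sub continuous_const)
      exact (h1.mul (V_cont W g)).aestronglyMeasurable
    rw [hV]
    refine (hKi (1 / (2 * x)) _ hmeasG).trans ?_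
    have h1 : S2 (fun z => min 1 (Real.exp (1 / (2 * x) - ‖z‖)))
        (fun z => ((Omc (1 / x) z - 1 : ℝ) : ℂ) * W.V g z) ≤ ENNReal.ofReal (x ^ 800) := by
      refine le_trans (S2_mono2 fun z => ?_) hm3
      rw [norm_mul, Complex.norm_real, Real.norm_eq_abs, abs_mul, abs_sub_comm]
      exact le_of_eq (by ring)
    calc ENNReal.ofReal Ci * _ ≤ ENNReal.ofReal Ci * ENNReal.ofReal (x ^ 800) := by gcongr
      _ = ENNReal.ofReal (Ci * x ^ 800) := (ENNReal.ofReal_mul hCi.le).symm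
      _ ≤ ENNReal.ofReal (x ^ 720) := by
        apply ENNReal.ofReal_le_ofReal
        have h2 : x ^ 800 = x ^ 80 * x ^ 720 := by rw [← pow_add]
        have h3 : Ci * x ^ 80 ≤ 1 := by
          have h4 := hpow 80 (by norm_num)
          have h5 : (Ci + 1) * x ≤ 1 := by
            rw [le_div_iff₀ (by positivity)] at hxC
            linarith
          nlinarith
        rw [h2, ← mul_assoc]
        exact mul_le_of_le_one_left (by positivity) h3
  refine ⟨u, ?_, ?_, ?_, hloc⟩
  · -- smallness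
    refine l17c_sq (norm_nonneg _) (by positivity) ?_
    rw [← S2_V W]
    refine (hTO n hn w _ _ _ hW logLip_one g hfin).trans ?_
    have h1 : S2 (fun z => (1 : ℝ) * Omc (1 / x) z) (W.V (tr W w (F.A n) g)) ≤
        ENNReal.ofReal (CO ^ 2 * x ^ 792) := by
      have h2 := S2_mono (Y := fun z => (1 : ℝ) * Omc (1 / x) z) (Y' := om F.R)
        (c := CO / x ^ 4) (by positivity) (W.V (tr W w (F.A n) g)) (fun z => by
          rw [one_mul, abs_of_nonneg (l17c_Omc_nonneg _ _), abs_of_nonneg (l17c_om_nonneg hR0 _),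
            div_mul_eq_mul_div, le_div_iff₀ (by positivity)]
          exact hOm x hx hx1' z)
      refine h2.trans ?_
      have h3 := hctr.small
      rw [hone, mul_one] at h3
      calc ENNReal.ofReal ((CO / x ^ 4) ^ 2) * S2 (om F.R) (W.V (tr W w (F.A n) g))
          ≤ ENNReal.ofReal ((CO / x ^ 4) ^ 2) * ENNReal.ofReal ((x ^ 400) ^ 2) := by gcongr
        _ = ENNReal.ofReal ((CO / x ^ 4) ^ 2 * (x ^ 400) ^ 2) :=
          (ENNReal.ofReal_mul (by positivity)).symm
        _ = ENNReal.ofReal (CO ^ 2 * x ^ 792) := by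
          congr 1
          rw [div_pow]
          field_simp
    have h4 : S2 (fun z => (1 : ℝ) * min 1 (Real.exp (‖z‖ - 1 / x)) * Omc (1 / x) z) (W.V g) ≤
        ENNReal.ofReal (x ^ 770) := by
      simpa only [one_mul] using hm1
    calc ENNReal.ofReal C1 * (S2 (fun z => (1 : ℝ) * Omc (1 / x) z) (W.V (tr W w (F.A n) g)) +
          S2 (fun z => (1 : ℝ) * min 1 (Real.exp (‖z‖ - 1 / x)) * Omc (1 / x) z) (W.V g))
        ≤ ENNReal.ofReal C1 * (ENNReal.ofReal (CO ^ 2 * x ^ 792) + ENNReal.ofReal (x ^ 770)) := by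
          gcongr
      _ = ENNReal.ofReal (C1 * (CO ^ 2 * x ^ 792 + x ^ 770)) := by
          rw [← ENNReal.ofReal_add (by positivity) (by positivity),
            ← ENNReal.ofReal_mul (by linarith)]
      _ ≤ ENNReal.ofReal ((x ^ 380) ^ 2) := by
          apply ENNReal.ofReal_le_ofReal
          have h5 : x ^ 792 ≤ x ^ 770 := pow_le_pow_of_le_one hx.le hx1' (by norm_num)
          have h6 : x ^ 770 = x ^ 10 * (x ^ 380) ^ 2 := by ring
          have h7 : K * x ^ 10 ≤ 1 := by
            have h8 := hpow 10 (by norm_num)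
            rw [le_div_iff₀ hKpos] at hxK
            nlinarith
          calc C1 * (CO ^ 2 * x ^ 792 + x ^ 770) ≤ C1 * (CO ^ 2 * x ^ 770 + x ^ 770) := by
                gcongr
            _ = K * x ^ 10 * (x ^ 380) ^ 2 := by rw [hK, h6]; ring
            _ ≤ (x ^ 380) ^ 2 := mul_le_of_le_one_left (by positivity) h7
  · -- moments
    rw [hVu]
    refine (hKp _ hmeasF).trans ?_
    rw [S2_mul_weight]
    calc ENNReal.ofReal Cp * _ ≤ ENNReal.ofReal Cp * ENNReal.ofReal C' := by gcongr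
      _ = ENNReal.ofReal (Cp * C') := (ENNReal.ofReal_mul hCp.le).symm
      _ ≤ _ := ENNReal.ofReal_le_ofReal (le_max_right _ _)
  · -- lower bound
    have htight := hctr.tight
    rw [hone, mul_one] at htight
    have h1 := tight_ball F.R hR (W.V g) (V_cont W g).measurable hone htight
    have e : W.V g = fun z => W.V u z - W.V (u - g) z := by
      funext z
      rw [V_sub]
      ring
    have h2 : S2 (ball1 (40 * F.R)) (W.V g) ≤
        2 * (S2 (ball1 (40 * F.R)) (W.V u) + S2 (ball1 (40 * F.R)) (W.V (u - g))) := by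
      conv_lhs => rw [e]
      exact S2_sub _ (ball1_meas _) _ _ (V_cont W u).aestronglyMeasurable
    have h3 : S2 (ball1 (40 * F.R)) (W.V u) ≤ ENNReal.ofReal (‖u‖ ^ 2) := by
      rw [← S2_V W]
      refine S2_mono2 fun z => ?_
      have : |ball1 (40 * F.R) z| ≤ |(1 : ℝ)| := by
        unfold ball1
        by_cases hz : z ∈ Metric.closedBall (0 : ℂ) (40 * F.R)
        · rw [Set.indicator_of_mem hz]; simp
        · rw [Set.indicator_of_notMem hz]; simp
      gcongr
    have h4 : S2 (ball1 (40 * F.R)) (W.V (u - g)) ≤ ENNReal.ofReal (x ^ 720) := by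
      refine le_trans (S2_mono2 fun z => ?_) hloc
      have hle : 40 * F.R ≤ 1 / (2 * x) := by
        rw [le_div_iff₀ (by positivity)] at hxR ⊢
        linarith
      have : |ball1 (40 * F.R) z| ≤ |ball1 (1 / (2 * x)) z| := by
        unfold ball1
        by_cases hz : z ∈ Metric.closedBall (0 : ℂ) (40 * F.R)
        · rw [Set.indicator_of_mem hz,
            Set.indicator_of_mem (Metric.closedBall_subset_closedBall hle hz)]
        · rw [Set.indicator_of_notMem hz]
          simp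
      gcongr
    have h5 : ENNReal.ofReal (7 / 10) ≤ ENNReal.ofReal (2 * (‖u‖ ^ 2 + x ^ 720)) := by
      refine h1.trans (h2.trans ?_)
      rw [ENNReal.ofReal_mul (by norm_num), ENNReal.ofReal_add (by positivity) (by positivity),
        ENNReal.ofReal_ofNat]
      gcongr
    have h6 := (ENNReal.ofReal_le_ofReal_iff (by positivity)).1 h5
    have h7 : x ^ 720 ≤ 1 / 10 := by
      calc x ^ 720 ≤ x ^ 4 := pow_le_pow_of_le_one hx.le hx1' (by norm_num)
        _ ≤ (1 / 2) ^ 4 := by gcongr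
        _ ≤ 1 / 10 := by norm_num
    nlinarith [norm_nonneg u]

end Pool.Agent.Helper84.HRT
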