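import Mathlib
import Pool.Agent.Helper84.HRT.DefsS
import Pool.Agent.Helper84.HRT.WB

open MeasureTheory Complex Filter
open scoped ENNReal NNReal ComplexConjugate InnerProductSpace BigOperators Topology

namespace Pool.Agent.Helper84.HRT

variable {H : Type} [NormedAddCommGroup H] [InnerProductSpace ℂ H] [CompleteSpace H]

/-! The local pairing. -/

theorem l18a_int (ρ : ℝ) (F : ℂ → ℂ) (hF : Continuous F) :
    IntegrableOn F (Metric.closedBall (0 : ℂ) ρ) dA := by
  have h : IntegrableOn F (Metric.closedBall (0 : ℂ) ρ) volume :=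
    hF.continuousOn.integrableOn_compact (isCompact_closedBall (0 : ℂ) ρ)
  unfold IntegrableOn dA at *
  rw [Measure.restrict_smul]
  exact h.smul_measure ENNReal.ofReal_ne_top

theorem l18a_S2 (ρ : ℝ) (F : ℂ → ℂ) :
    S2 (ball1 ρ) F = ∫⁻ z in Metric.closedBall (0 : ℂ) ρ, ‖F z‖ₑ ^ 2 ∂dA := by
  unfold S2
  rw [← lintegral_indicator Metric.isClosed_closedBall.measurableSet]
  refine lintegral_congr fun z => ?_
  unfold ball1
  by_cases hz : z ∈ Metric.closedBall (0 : ℂ) ρ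
  · simp [Set.indicator_of_mem hz]
  · simp [Set.indicator_of_notMem hz]

theorem l18a_cont (W : Weyl H) (f h : H) : Continuous fun z => conj (W.V f z) * W.V h z :=
  (Complex.continuous_conj.comp (V_cont W f)).mul (V_cont W h)

theorem brk_add (W : Weyl H) (ρ : ℝ) (f h h' : H) :
    brk W ρ f (h + h') = brk W ρ f h + brk W ρ f h' := by
  unfold brk
  rw [← integral_add (l18a_int ρ _ (l18a_cont W f h)) (l18a_int ρ _ (l18a_cont W f h'))]
  refine integral_congr_ae (Eventually.of_forall fun z => ?_)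
  simp only [V_add]
  ring

theorem brk_sub (W : Weyl H) (ρ : ℝ) (f h h' : H) :
    brk W ρ f (h - h') = brk W ρ f h - brk W ρ f h' := by
  unfold brk
  rw [← integral_sub (l18a_int ρ _ (l18a_cont W f h)) (l18a_int ρ _ (l18a_cont W f h'))]
  refine integral_congr_ae (Eventually.of_forall fun z => ?_)
  simp only [V_sub]
  ring

theorem brk_sub_left (W : Weyl H) (ρ : ℝ) (f f' h : H) :
    brk W ρ (f - f') h = brk W ρ f h - brk W ρ f' h := by
  unfold brk
  rw [← integral_sub (l18a_int ρ _ (l18a_cont W f h)) (l18a_int ρ _ (l18a_cont W f' h))]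
  refine integral_congr_ae (Eventually.of_forall fun z => ?_)
  simp only [V_sub, map_sub]
  ring

theorem brk_smul (W : Weyl H) (ρ : ℝ) (f h : H) (c : ℂ) :
    brk W ρ f (c • h) = c * brk W ρ f h := by
  unfold brk
  rw [← integral_const_mul]
  refine integral_congr_ae (Eventually.of_forall fun z => ?_)
  simp only [V_smul]
  ring

/-- Cauchy-Schwarz -/
theorem brk_le (W : Weyl H) (ρ : ℝ) (f h : H) :
    ‖brk W ρ f h‖ₑ ^ 2 ≤ S2 (ball1 ρ) (W.V f) * S2 (ball1 ρ) (W.V h) := by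
  rw [l18a_S2, l18a_S2]
  unfold brk
  have h1 : ‖∫ z in Metric.closedBall (0 : ℂ) ρ, conj (W.V f z) * W.V h z ∂dA‖ₑ ≤
      ∫⁻ z in Metric.closedBall (0 : ℂ) ρ, ‖W.V f z‖ₑ * ‖W.V h z‖ₑ ∂dA := by
    refine (enorm_integral_le_lintegral_enorm _).trans (le_of_eq ?_)
    refine lintegral_congr fun z => ?_
    rw [enorm_mul]
    congr 1
    rw [← ofReal_norm, ← ofReal_norm, RCLike.norm_conj]
  have h2 := ENNReal.lintegral_mul_le_Lp_mul_Lq (dA.restrict (Metric.closedBall (0 : ℂ) ρ))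
    (Real.HolderConjugate.two_two) (f := fun z => ‖W.V f z‖ₑ) (g := fun z => ‖W.V h z‖ₑ)
    (V_cont W f).enorm.measurable.aemeasurable (V_cont W h).enorm.measurable.aemeasurable
  have h3 := h1.trans h2
  calc _ ≤ ((∫⁻ z in Metric.closedBall (0 : ℂ) ρ, ‖W.V f z‖ₑ ^ (2 : ℝ) ∂dA) ^ (1 / (2 : ℝ)) *
        (∫⁻ z in Metric.closedBall (0 : ℂ) ρ, ‖W.V h z‖ₑ ^ (2 : ℝ) ∂dA) ^ (1 / (2 : ℝ))) ^ 2 :=
        pow_le_pow_left' h3 2
    _ = _ := by
        rw [mul_pow, ← ENNReal.rpow_natCast, ← ENNReal.rpow_natCast, ← ENNReal.rpow_mul,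
          ← ENNReal.rpow_mul]
        norm_num

theorem brk_self (W : Weyl H) (ρ : ℝ) (f : H) :
    brk W ρ f f = (((S2 (ball1 ρ) (W.V f)).toReal : ℝ) : ℂ) := by
  rw [l18a_S2]
  unfold brk
  have h1 : (∫ z in Metric.closedBall (0 : ℂ) ρ, conj (W.V f z) * W.V f z ∂dA) =
      ∫ z in Metric.closedBall (0 : ℂ) ρ, ((‖W.V f z‖ ^ 2 : ℝ) : ℂ) ∂dA := by
    refine integral_congr_ae (Eventually.of_forall fun z => ?_)
    simp only
    rw [RCLike.conj_mul]
    push_cast
    rfl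
  rw [h1]
  refine (integral_ofReal (𝕜 := ℂ) (f := fun z => ‖W.V f z‖ ^ 2)).trans ?_
  change (((∫ z in Metric.closedBall (0 : ℂ) ρ, ‖W.V f z‖ ^ 2 ∂dA : ℝ)) : ℂ) = _
  congr 1
  rw [integral_eq_lintegral_of_nonneg_ae (Eventually.of_forall fun z => by positivity)
    (show AEStronglyMeasurable (fun z => ‖W.V f z‖ ^ 2) _ from
      ((V_cont W f).norm.pow 2).aestronglyMeasurable)]
  congr 1
  refine lintegral_congr fun z => ?_
  rw [ENNReal.ofReal_pow (norm_nonneg _), ofReal_norm]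

end Pool.Agent.Helper84.HRT
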