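import Mathlib
import Pool.Agent.Helper84.HRT.DefsS
import Pool.Agent.Helper84.HRT.WB
import Pool.Agent.Helper84.HRT.L18A

open MeasureTheory Complex Filter
open scoped ENNReal NNReal ComplexConjugate InnerProductSpace BigOperators Topology

namespace Pool.Agent.Helper84.HRT

variable {H : Type} [NormedAddCommGroup H] [InnerProductSpace ℂ H] [CompleteSpace H]

/-! Limits of local pairings and local masses. -/

theorem l18b_fin (ρ : ℝ) : dA (Metric.closedBall (0 : ℂ) ρ) < ⊤ := by
  unfold dA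
  rw [Measure.smul_apply]
  exact ENNReal.mul_lt_top ENNReal.ofReal_lt_top
    (isCompact_closedBall (0 : ℂ) ρ).measure_lt_top

theorem l18b_bd (W : Weyl H) (ρ : ℝ) (f : ℕ → H) (f0 : H)
    (hf : TendstoLocallyUniformly (fun j => W.V (f j)) (W.V f0) atTop) :
    ∀ᶠ j in atTop, ∀ z ∈ Metric.closedBall (0 : ℂ) ρ, ‖W.V (f j) z‖ ≤ ‖f0‖ + 1 := by
  have h1 := (tendstoLocallyUniformly_iff_forall_isCompact.mp hf) _
    (isCompact_closedBall (0 : ℂ) ρ)
  rw [Metric.tendstoUniformlyOn_iff] at h1
  filter_upwards [h1 1 one_pos] with j hj z hz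
  have h2 := hj z hz
  rw [dist_eq_norm] at h2
  have h3 := norm_V_le W f0 z
  have h4 : ‖W.V (f j) z‖ ≤ ‖W.V f0 z‖ + ‖W.V f0 z - W.V (f j) z‖ := by
    have := norm_sub_le (W.V f0 z) (W.V f0 z - W.V (f j) z)
    rwa [sub_sub_cancel] at this
  linarith

theorem l18b_pt (W : Weyl H) (f : ℕ → H) (f0 : H)
    (hf : TendstoLocallyUniformly (fun j => W.V (f j)) (W.V f0) atTop) (z : ℂ) :
    Tendsto (fun j => W.V (f j) z) atTop (nhds (W.V f0 z)) :=
  (hf.tendstoLocallyUniformlyOn (s := Set.univ)).tendsto_at (Set.mem_univ z)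

theorem brk_tendsto (W : Weyl H) (ρ : ℝ) (f h : ℕ → H) (f0 h0 : H)
    (hf : TendstoLocallyUniformly (fun j => W.V (f j)) (W.V f0) atTop)
    (hh : TendstoLocallyUniformly (fun j => W.V (h j)) (W.V h0) atTop) :
    Tendsto (fun j => brk W ρ (f j) (h j)) atTop (nhds (brk W ρ f0 h0)) := by
  unfold brk
  refine tendsto_integral_filter_of_dominated_convergence
    (fun _ => (‖f0‖ + 1) * (‖h0‖ + 1)) ?_ ?_ ?_ ?_
  · exact Eventually.of_forall fun j => (l18a_cont W (f j) (h j)).aestronglyMeasurable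
  · filter_upwards [l18b_bd W ρ f f0 hf, l18b_bd W ρ h h0 hh] with j h1 h2
    refine (ae_restrict_iff' Metric.isClosed_closedBall.measurableSet).mpr
      (Eventually.of_forall fun z hz => ?_)
    rw [norm_mul, RCLike.norm_conj]
    exact mul_le_mul (h1 z hz) (h2 z hz) (norm_nonneg _) (by positivity)
  · exact integrableOn_const (l18b_fin ρ).ne
  · refine Eventually.of_forall fun z => ?_
    exact ((Complex.continuous_conj.tendsto _).comp (l18b_pt W f f0 hf z)).mul
      (l18b_pt W h h0 hh z)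

theorem ball_tendsto (W : Weyl H) (ρ : ℝ) (f : ℕ → H) (f0 : H)
    (hf : TendstoLocallyUniformly (fun j => W.V (f j)) (W.V f0) atTop) :
    Tendsto (fun j => S2 (ball1 ρ) (W.V (f j))) atTop (nhds (S2 (ball1 ρ) (W.V f0))) := by
  simp only [l18a_S2]
  refine tendsto_lintegral_filter_of_dominated_convergence
    (fun _ => ENNReal.ofReal ((‖f0‖ + 1) ^ 2)) ?_ ?_ ?_ ?_
  · exact Eventually.of_forall fun j => ((V_cont W (f j)).enorm.measurable.pow_const 2)
  · filter_upwards [l18b_bd W ρ f f0 hf] with j h1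
    refine (ae_restrict_iff' Metric.isClosed_closedBall.measurableSet).mpr
      (Eventually.of_forall fun z hz => ?_)
    rw [ENNReal.ofReal_pow (by positivity), ← ofReal_norm]
    exact pow_le_pow_left' (ENNReal.ofReal_le_ofReal (h1 z hz)) 2
  · rw [setLIntegral_const]
    exact (ENNReal.mul_lt_top ENNReal.ofReal_lt_top (l18b_fin ρ)).ne
  · refine Eventually.of_forall fun z => ?_
    exact (ENNReal.continuous_pow 2).tendsto _ |>.comp ((l18b_pt W f f0 hf z).enorm)

/-- norm convergence in `H` implies locally uniform convergence of the transforms -/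
theorem unif_of_tendsto (W : Weyl H) (f : ℕ → H) (f0 : H) (hf : Tendsto f atTop (nhds f0)) :
    TendstoLocallyUniformly (fun j => W.V (f j)) (W.V f0) atTop := by
  refine TendstoUniformly.tendstoLocallyUniformly ?_
  rw [Metric.tendstoUniformly_iff]
  intro ε hε
  have h1 := Metric.tendsto_nhds.mp hf ε hε
  filter_upwards [h1] with j hj z
  rw [dist_eq_norm, ← V_sub]
  refine (norm_V_le W _ z).trans_lt ?_
  rwa [← dist_eq_norm, dist_comm]

end Pool.Agent.Helper84.HRT
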