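import Mathlib
import Pool.Agent.Helper84.HRT.DefsS
import Pool.Agent.Helper84.HRT.WB
import Pool.Agent.Helper84.HRT.XA
import Pool.Agent.Helper84.HRT.XB
import Pool.Agent.Helper84.HRT.XC
import Pool.Agent.Helper84.HRT.L11A
import Pool.Agent.Helper84.HRT.SH

open MeasureTheory Complex Filter
open scoped ENNReal NNReal ComplexConjugate InnerProductSpace BigOperators Topology

namespace Pool.Agent.Helper84.HRT

variable {H : Type} [NormedAddCommGroup H] [InnerProductSpace ℂ H] [CompleteSpace H]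

/-! Convergence of patterns. -/

/-- strong convergence with a uniform bound implies weak-* convergence against `L¹` -/
private theorem sj_weak (μ : Measure ℝ) [IsFiniteMeasure μ] (f : ℕ → ℝ → ℂ) (g : ℝ → ℂ) (M : ℝ)
    (hf : ∀ j, Measurable (f j)) (hg : Measurable g) (hfM : ∀ j, ∀ᵐ t ∂μ, ‖f j t‖ ≤ M)
    (hc : Tendsto (fun j => ∫⁻ t, ‖f j t - g t‖ₑ ^ 2 ∂μ) atTop (𝓝 0)) (h : ℝ → ℂ)
    (hh : Integrable h μ) :
    Tendsto (fun j => ∫ t, h t * f j t ∂μ) atTop (𝓝 (∫ t, h t * g t ∂μ)) := by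
  have hmeas : TendstoInMeasure μ f atTop g := by
    refine tendstoInMeasure_of_tendsto_eLpNorm (p := 2) (by norm_num)
      (fun j => (hf j).aestronglyMeasurable) hg.aestronglyMeasurable ?_
    have h1 : ∀ j, eLpNorm (f j - g) 2 μ = (∫⁻ t, ‖f j t - g t‖ₑ ^ 2 ∂μ) ^ (1 / 2 : ℝ) := by
      intro j
      rw [eLpNorm_eq_lintegral_rpow_enorm_toReal (by norm_num) (by norm_num)]
      simp
    simp only [h1]
    have h2 := (ENNReal.continuous_rpow_const (y := (1 / 2 : ℝ))).tendsto (0 : ℝ≥0∞)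
    have h3 : (0 : ℝ≥0∞) ^ (1 / 2 : ℝ) = 0 := ENNReal.zero_rpow_of_pos (by norm_num)
    rw [h3] at h2
    exact h2.comp hc
  refine tendsto_of_subseq_tendsto fun ns hns => ?_
  have h4 : TendstoInMeasure μ (fun i => f (ns i)) atTop g := by
    intro ε hε
    exact (hmeas ε hε).comp hns
  obtain ⟨ms, -, hms⟩ := h4.exists_seq_tendsto_ae
  refine ⟨ms, ?_⟩
  refine tendsto_integral_of_dominated_convergence (fun t => ‖h t‖ * M) ?_ ?_ ?_ ?_
  · intro i
    exact hh.aestronglyMeasurable.mul (hf _).aestronglyMeasurable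
  · exact hh.norm.mul_const M
  · intro i
    filter_upwards [hfM (ns (ms i))] with t ht
    rw [norm_mul]
    gcongr
  · filter_upwards [hms] with t ht
    exact ht.const_mul (h t)

/-- convergence of the patterns implies convergence of the operators, pointwise on the V side
(`trA_eq`, `V_Aop`, `actN_tendsto`; strong convergence of the coefficients implies weak-*
convergence by Cauchy-Schwarz for bounded `h`, then density, the coefficients are bounded by
`F.C0`) -/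
theorem lim_apply {W : Weyl H} {D : Data} (F : Fam W D) (n : ℕ → ℕ) (w : ℕ → ℂ)
    (hn : Tendsto n atTop atTop) (hn1 : ∀ j, F.n1 ≤ n j) (γ : Fin D.m → ℂ) (ξ : ℝ → ℂ)
    (hξ : D.Adm F.r ξ)
    (hb : Tendsto (fun j => D.tw (w j) (F.γs (n j))) atTop (nhds γ))
    (hc : Tendsto (fun j => ∫⁻ t in Set.Ico (0 : ℝ) 1,
      ‖twN (D.NN (n j)) (w j) (F.ξs (n j)) t - ξ t‖ₑ ^ 2) atTop (nhds 0))
    (f : ℕ → H) (f0 : H)
    (hl : TendstoLocallyUniformly (fun j => W.V (f j)) (W.V f0) atTop) (z : ℂ) :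
    Tendsto (fun j => W.V (tr W (w j) (F.A (n j)) (f j)) z) atTop
      (nhds (W.V (Aop W D mu8 γ ξ f0) z)) := by
  have hadm : ∀ j, D.AdmN (D.NN (n j)) (F.rs (n j)) (twN (D.NN (n j)) (w j) (F.ξs (n j))) :=
    fun j => (trA_mem F (hn1 j) (w j)).2
  have hpos : ∀ j, 0 < D.NN (n j) := fun j => NN_pos D (n j)
  have e1 : ∀ j, W.V (tr W (w j) (F.A (n j)) (f j)) z =
      actA D (muN (D.NN (n j))) (D.tw (w j) (F.γs (n j)))
        (twN (D.NN (n j)) (w j) (F.ξs (n j))) (W.V (f j)) z := by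
    intro j
    rw [trA_eq F (hn1 j) (w j)]
    exact V_Aop W (AdmN.bdN (hpos j) (hadm j) (F.rs_nonneg _)) D _ _ _
  have e2 : W.V (Aop W D mu8 γ ξ f0) z = actA D mu8 γ ξ (W.V f0) z :=
    V_Aop W (Adm.bd8 hξ F.r_pos.le) D _ _ _
  simp only [e1, e2]
  have hmeas : ∀ j, Measurable (twN (D.NN (n j)) (w j) (F.ξs (n j))) := fun j =>
    xc_meas (hadm j)
  refine actN_tendsto D (fun j => D.NN (n j)) hpos ((NN_tendsto D).comp hn) _ _
    (fun j => V_cont W (f j)) (V_cont W f0) hl _ _ hb (fun j => F.rs (n j)) F.C0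
    (fun j => F.rs_nonneg _) (fun j => F.rs_le _) _ _ F.r hadm hξ ?_ z
  intro h hh
  exact sj_weak mu8 _ ξ F.C0 hmeas hξ.meas (fun j => ae_of_all _ fun t =>
    (AdmN.norm_le (hpos j) (hadm j) (F.rs_nonneg _) t).trans (F.rs_le _)) hc h hh

theorem lim_comp {W : Weyl H} {D : Data} {F : Fam W D} {n : ℕ → ℕ} {w : ℕ → ℂ} {g : ℕ → H}
    {γ : Fin D.m → ℂ} {ξ : ℝ → ℂ} {ψ : H} (h : F.Lim n w g γ ξ ψ) (φ : ℕ → ℕ)
    (hφ : StrictMono φ) : F.Lim (n ∘ φ) (w ∘ φ) (g ∘ φ) γ ξ ψ where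
  opt := h.opt
  base := h.base.comp hφ.tendsto_atTop
  coef := h.coef.comp hφ.tendsto_atTop
  vec := by
    intro u hu x
    obtain ⟨t, ht, h1⟩ := h.vec u hu x
    exact ⟨t, ht, hφ.tendsto_atTop.eventually h1⟩
  rad := h.rad.comp hφ.tendsto_atTop
  one := h.one
  tight := h.tight

end Pool.Agent.Helper84.HRT
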