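import Mathlib
import Pool.Agent.Helper84.HRT.DefsS
import Pool.Agent.Helper84.HRT.WB
import Pool.Agent.Helper84.HRT.WD
import Pool.Agent.Helper84.HRT.L3A
import Pool.Agent.Helper84.HRT.LIM
import Pool.Agent.Helper84.HRT.SC
import Pool.Agent.Helper84.HRT.SG
import Pool.Agent.Helper84.HRT.SJ
import Pool.Agent.Helper84.HRT.L17B
import Pool.Agent.Helper84.HRT.L18A
import Pool.Agent.Helper84.HRT.L18B

open MeasureTheory Complex Filter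
open scoped ENNReal NNReal ComplexConjugate InnerProductSpace BigOperators Topology

namespace Pool.Agent.Helper84.HRT

variable {H : Type} [NormedAddCommGroup H] [InnerProductSpace ℂ H] [CompleteSpace H]

private theorem l18c_S2_V_smul (W : Weyl H) (Y : ℂ → ℝ) (a : ℂ) (f : H) :
    S2 Y (W.V (a • f)) = ‖a‖ₑ ^ 2 * S2 Y (W.V f) := by
  rw [← S2_smul]
  congr 1
  funext z
  exact V_smul W a f z

/-- the limit step: `x_j → a S` in norm, `x_j < c`, masses -/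
private theorem l18c_num (r x S : ℝ) (hr : 0 ≤ r) (hx : 1 ≤ x) (hS : 7 / 10 ≤ S)
    (h1 : 8 / 10 ≤ r ^ 2 * x ^ 8) (h2 : r * S ≤ (1 / 2) / x ^ 4) : False := by
  have hx0 : (0 : ℝ) < x := by linarith
  have hx4 : (0 : ℝ) < x ^ 4 := by positivity
  have h3 : r * S * x ^ 4 ≤ 1 / 2 := by
    have := mul_le_mul_of_nonneg_right h2 hx4.le
    rwa [div_mul_cancel₀ _ hx4.ne'] at this
  have hy : 0 ≤ r * x ^ 4 := by positivity
  have h4 : (r * x ^ 4) * (7 / 10) ≤ 1 / 2 := by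
    have : (r * x ^ 4) * (7 / 10) ≤ (r * x ^ 4) * S := mul_le_mul_of_nonneg_left hS hy
    nlinarith
  have h5 : 8 / 10 ≤ (r * x ^ 4) ^ 2 := by
    have : (r * x ^ 4) ^ 2 = r ^ 2 * x ^ 8 := by ring
    rw [this]; exact h1
  nlinarith

/-- L18 (LG). By contradiction: for `c` (fixed below) and `ε2 = 1/(j+1)` there are `n_j ≥ j`,
`w_j, g_j`, `v_j` with `‖v_j‖ = 1` (normalise). LIM and `L3c` (for `v_j`), `lim_apply`:
`Aop mu8 γ ξ v* = 0` (`|V (A v_j) z| ≤ ‖A v_j‖ → 0`, `V_inj`), `F.E3`: `v* = a ψ`. `ball_tendsto`: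
`8/10 ≤ |a|² S2 (ball1 ρ) (V ψ) ≤ |a|² (1+ρ/R)^8` (`ball_le_om`, `S2 om (V ψ) = 1`),
`brk g_j v_j → a S2 (ball1 (40R)) (V ψ)`, at least `7/10 |a|` (`tight_ball`).
`c := (1/2) (7/10) sqrt (8/10) (1+ρ/R)^{-4}`. -/
theorem L18 {W : Weyl H} {D : Data} (F : Fam W D) (ρ : ℝ) (hρ : 0 < ρ) :
    ∃ ε2 c : ℝ, ∃ n0 : ℕ, 0 < ε2 ∧ 0 < c ∧ F.n1 ≤ n0 ∧ ∀ n, n0 ≤ n → ∀ (w : ℂ) (g : H),
    F.Ctr n ε2 w g → S2 (om F.R) (W.V g) = 1 → ∀ v : H, ‖tr W w (F.A n) v‖ ≤ ε2 * ‖v‖ →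
    ENNReal.ofReal (8 / 10) * ‖v‖ₑ ^ 2 ≤ S2 (ball1 ρ) (W.V v) →
    c * ‖v‖ ≤ ‖brk W (40 * F.R) g v‖ := by
  classical
  have hR4 : (4 : ℝ) ≤ F.R := F.R_ge
  have hR0 : (0 : ℝ) < F.R := by linarith
  have hX1 : (1 : ℝ) ≤ 1 + ρ / F.R := by
    have : 0 ≤ ρ / F.R := by positivity
    linarith
  set c : ℝ := (1 / 2) / (1 + ρ / F.R) ^ 4 with hc
  have hc0 : 0 < c := by positivity
  by_contra hcon
  push Not at hcon
  -- the sequences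
  have hε : ∀ j : ℕ, (0 : ℝ) < 1 / ((j : ℝ) + 1) := fun j => by positivity
  have hex : ∀ j : ℕ, ∃ n, max j F.n1 ≤ n ∧ ∃ (w : ℂ) (g : H),
      F.Ctr n (1 / ((j : ℝ) + 1)) w g ∧ S2 (om F.R) (W.V g) = 1 ∧ ∃ v : H,
      ‖tr W w (F.A n) v‖ ≤ 1 / ((j : ℝ) + 1) * ‖v‖ ∧
      ENNReal.ofReal (8 / 10) * ‖v‖ₑ ^ 2 ≤ S2 (ball1 ρ) (W.V v) ∧
      ‖brk W (40 * F.R) g v‖ < c * ‖v‖ :=
    fun j => hcon (1 / ((j : ℝ) + 1)) c (max j F.n1) (hε j) hc0 (le_max_right _ _)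
  choose n hn w g hg hg1 v hv1 hv2 hv3 using hex
  have hn1 : ∀ j, F.n1 ≤ n j := fun j => (le_max_right _ _).trans (hn j)
  have hnlim : Tendsto n atTop atTop :=
    tendsto_atTop_mono (fun j => (le_max_left _ _).trans (hn j)) tendsto_id
  have hvne : ∀ j, v j ≠ 0 := by
    intro j h0
    have := hv3 j
    rw [h0, norm_zero, mul_zero] at this
    exact absurd this (not_lt.mpr (norm_nonneg _))
  have hvpos : ∀ j, 0 < ‖v j‖ := fun j => norm_pos_iff.mpr (hvne j)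
  -- normalised vectors
  set v' : ℕ → H := fun j => ((‖v j‖⁻¹ : ℝ) : ℂ) • v j with hv'
  have hv'n : ∀ j, ‖v' j‖ = 1 := by
    intro j
    simp only [hv', norm_smul, Complex.norm_real, norm_inv, norm_norm]
    exact inv_mul_cancel₀ (hvpos j).ne'
  have hv'1 : ∀ j, ‖tr W (w j) (F.A (n j)) (v' j)‖ ≤ 1 / ((j : ℝ) + 1) := by
    intro j
    simp only [hv', map_smul, norm_smul, Complex.norm_real, norm_inv, norm_norm]
    calc ‖v j‖⁻¹ * ‖tr W (w j) (F.A (n j)) (v j)‖ ≤ ‖v j‖⁻¹ * (1 / ((j : ℝ) + 1) * ‖v j‖) :=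
          mul_le_mul_of_nonneg_left (hv1 j) (by positivity)
      _ = 1 / ((j : ℝ) + 1) := by field_simp [(hvpos j).ne']
  have hv'2 : ∀ j, ENNReal.ofReal (8 / 10) ≤ S2 (ball1 ρ) (W.V (v' j)) := by
    intro j
    simp only [hv']
    rw [l18c_S2_V_smul]
    have h1 : ‖((‖v j‖⁻¹ : ℝ) : ℂ)‖ₑ ^ 2 * (ENNReal.ofReal (8 / 10) * ‖v j‖ₑ ^ 2) ≤
        ‖((‖v j‖⁻¹ : ℝ) : ℂ)‖ₑ ^ 2 * S2 (ball1 ρ) (W.V (v j)) := by
      gcongr
      exact hv2 j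
    refine le_trans (le_of_eq ?_) h1
    have h2 : ‖((‖v j‖⁻¹ : ℝ) : ℂ)‖ₑ * ‖v j‖ₑ = 1 := by
      rw [← ofReal_norm, ← ofReal_norm, ← ENNReal.ofReal_mul (norm_nonneg _)]
      simp only [Complex.norm_real, norm_inv, norm_norm]
      rw [inv_mul_cancel₀ (hvpos j).ne', ENNReal.ofReal_one]
    calc ENNReal.ofReal (8 / 10) = (‖((‖v j‖⁻¹ : ℝ) : ℂ)‖ₑ * ‖v j‖ₑ) ^ 2 *
          ENNReal.ofReal (8 / 10) := by rw [h2, one_pow, one_mul]
      _ = _ := by rw [mul_pow]; ring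
  have hv'3 : ∀ j, ‖brk W (40 * F.R) (g j) (v' j)‖ ≤ c := by
    intro j
    simp only [hv']
    rw [brk_smul, norm_mul, Complex.norm_real, norm_inv, norm_norm]
    calc ‖v j‖⁻¹ * ‖brk W (40 * F.R) (g j) (v j)‖ ≤ ‖v j‖⁻¹ * (c * ‖v j‖) :=
          mul_le_mul_of_nonneg_left (hv3 j).le (by positivity)
      _ = c := by field_simp [(hvpos j).ne']
  -- limits
  have hδ : Tendsto (fun j : ℕ => (1 : ℝ) / ((j : ℝ) + 1)) atTop (𝓝 0) :=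
    tendsto_one_div_add_atTop_nhds_zero_nat
  obtain ⟨φ, hφ, γ, ξ, ψ, hL⟩ := LIM F n hnlim hn1 (fun j => 1 / ((j : ℝ) + 1))
    (fun j => (hε j).le) hδ w g hg hg1
  obtain ⟨φ', hφ', vs, -, -, hvs⟩ := L3c W (v' ∘ φ) 1 (fun j => (hv'n (φ j)).le)
  have hL' := lim_comp hL φ' hφ'
  have hΦ : StrictMono (φ ∘ φ') := hφ.comp hφ'
  have hnull : Aop W D mu8 γ ξ vs = 0 := by
    refine V_inj W _ fun z => ?_
    have h1 := lim_apply F ((n ∘ φ) ∘ φ') ((w ∘ φ) ∘ φ')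
      ((hnlim.comp hφ.tendsto_atTop).comp hφ'.tendsto_atTop)
      (fun j => hn1 _) γ ξ hL'.opt.adm hL'.base hL'.coef (fun j => v' (φ (φ' j))) vs hvs z
    have h2 : Tendsto (fun j => W.V (tr W (((w ∘ φ) ∘ φ') j) (F.A (((n ∘ φ) ∘ φ') j))
        (v' (φ (φ' j)))) z) atTop (𝓝 0) := by
      refine squeeze_zero_norm (a := fun j : ℕ => 1 / (((φ (φ' j) : ℕ) : ℝ) + 1)) ?_
        (hδ.comp hΦ.tendsto_atTop)
      intro j
      exact (norm_V_le W _ z).trans (hv'1 (φ (φ' j)))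
    exact tendsto_nhds_unique h1 h2
  obtain ⟨a, ha⟩ := F.E3 γ hL'.opt.γ_mem ξ hL'.opt.adm ψ vs hL'.opt.ne hL'.opt.null hnull
  -- masses
  have hm : ENNReal.ofReal (8 / 10) ≤ S2 (ball1 ρ) (W.V vs) := by
    have h1 := ball_tendsto W ρ (fun j => v' (φ (φ' j))) vs hvs
    exact ge_of_tendsto' h1 fun j => hv'2 _
  have hm2 : ENNReal.ofReal (8 / 10) ≤ ‖a‖ₑ ^ 2 * ENNReal.ofReal ((1 + ρ / F.R) ^ 8) := by
    rw [ha, l18c_S2_V_smul] at hm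
    refine hm.trans ?_
    gcongr
    have := ball_le_om F.R ρ hR0 hρ.le (W.V ψ)
    rwa [hL'.one, mul_one] at this
  have hm3 : 8 / 10 ≤ ‖a‖ ^ 2 * (1 + ρ / F.R) ^ 8 := by
    rw [← ofReal_norm, ← ENNReal.ofReal_pow (norm_nonneg _),
      ← ENNReal.ofReal_mul (by positivity)] at hm2
    exact (ENNReal.ofReal_le_ofReal_iff (by positivity)).mp hm2
  -- the local pairing
  have hT := tight_ball F.R hR4 (W.V ψ) (V_cont W ψ).measurable hL'.one hL'.tight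
  have hfin : S2 (ball1 (40 * F.R)) (W.V ψ) < ⊤ := by
    have h40 : (0 : ℝ) ≤ 40 * F.R := by positivity
    have := ball_le_om F.R (40 * F.R) hR0 h40 (W.V ψ)
    rw [hL'.one, mul_one] at this
    exact this.trans_lt ENNReal.ofReal_lt_top
  have hS : 7 / 10 ≤ (S2 (ball1 (40 * F.R)) (W.V ψ)).toReal := by
    have := ENNReal.toReal_mono hfin.ne hT
    rwa [ENNReal.toReal_ofReal (by norm_num)] at this
  have hbr := brk_tendsto W (40 * F.R) (fun j => g (φ (φ' j))) (fun j => v' (φ (φ' j))) ψ vs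
    hL'.vec hvs
  have hbr2 : ‖brk W (40 * F.R) ψ vs‖ ≤ c :=
    le_of_tendsto' hbr.norm fun j => hv'3 _
  have hbr3 : ‖brk W (40 * F.R) ψ vs‖ = ‖a‖ * (S2 (ball1 (40 * F.R)) (W.V ψ)).toReal := by
    rw [ha, brk_smul, brk_self, norm_mul, Complex.norm_real, Real.norm_of_nonneg
      ENNReal.toReal_nonneg]
  rw [hbr3, hc] at hbr2
  exact l18c_num ‖a‖ (1 + ρ / F.R) _ (norm_nonneg _) hX1 hS hm3 hbr2

end Pool.Agent.Helper84.HRT
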