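import Mathlib
import Pool.Agent.Helper84.HRT.DefsS

open MeasureTheory Complex Filter
open scoped ENNReal NNReal ComplexConjugate InnerProductSpace BigOperators Topology

namespace Pool.Agent.Helper84.HRT

variable {H : Type} [NormedAddCommGroup H] [InnerProductSpace ℂ H] [CompleteSpace H]

/-! The weight `Omi` of L19. -/

theorem Omi_pos (R2 : ℝ) (hR2 : 0 < R2) (z : ℂ) : 0 < Omi R2 z ∧ Omi R2 z ≤ 1 := by
  unfold Omi
  have h : 0 ≤ ‖z‖ / R2 := div_nonneg (norm_nonneg z) hR2.le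
  have h1 : (1 : ℝ) ≤ (1 + ‖z‖ / R2) ^ 60 := one_le_pow₀ (by linarith)
  exact ⟨inv_pos.2 (by linarith), inv_le_one_of_one_le₀ h1⟩

theorem pw_le_Omi (R2 : ℝ) (hR2 : 1 ≤ R2) (z : ℂ) : pw (-60) z ≤ Omi R2 z := by
  unfold pw Omi
  have hR : 0 < R2 := by linarith
  have hz := norm_nonneg z
  have h1 : ‖z‖ / R2 ≤ ‖z‖ := div_le_self hz hR2
  have h0 : 0 ≤ ‖z‖ / R2 := div_nonneg hz hR.le
  rw [zpow_neg]
  have e1 : ((1 : ℝ) + ‖z‖) ^ (60 : ℤ) = (1 + ‖z‖) ^ 60 := by norm_cast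
  rw [e1]
  apply inv_anti₀ (by positivity)
  exact pow_le_pow_left₀ (by linarith) (by linarith) 60

theorem Omi_slo_le (R2 : ℝ) (hR2 : 1 ≤ R2) (z : ℂ) :
    (slo 60 R2 z)⁻¹ * Omi R2 z ≤ R2 ^ 60 * pw (-59) z := by
  unfold slo Omi pw
  have hR : 0 < R2 := by linarith
  have hz := norm_nonneg z
  have hs : 0 < R2 + ‖z‖ := by linarith
  have h1 : 0 < 1 + ‖z‖ := by linarith
  have e1 : ((1 : ℝ) + ‖z‖) ^ (-59 : ℤ) = ((1 + ‖z‖) ^ 59)⁻¹ := by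
    rw [zpow_neg]
    norm_cast
  have e2 : (1 : ℝ) + ‖z‖ / R2 = (R2 + ‖z‖) / R2 := by
    field_simp
  have e3 : (2 * 60 / (R2 + ‖z‖))⁻¹ * (((R2 + ‖z‖) / R2) ^ 60)⁻¹ =
      R2 ^ 60 * (((R2 + ‖z‖) ^ 59)⁻¹ / 120) := by
    rw [div_pow, inv_div, inv_div]
    field_simp
    norm_num
  rw [e1, e2, e3]
  refine mul_le_mul_of_nonneg_left ?_ (by positivity)
  have h2 : ((R2 + ‖z‖) ^ 59)⁻¹ ≤ ((1 + ‖z‖) ^ 59)⁻¹ :=
    inv_anti₀ (by positivity) (pow_le_pow_left₀ h1.le (by linarith) 59)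
  have h3 : 0 ≤ ((R2 + ‖z‖) ^ 59)⁻¹ := by positivity
  linarith

theorem Omi_out (R2 T : ℝ) (hR2 : 0 < R2) (hT : 0 < T) (z : ℂ) (hz : T ≤ ‖z‖) :
    Omi R2 z ≤ (R2 / T) ^ 60 := by
  unfold Omi
  have e1 : (R2 / T) ^ 60 = ((T / R2) ^ 60)⁻¹ := by
    rw [← inv_pow, inv_div]
  rw [e1]
  apply inv_anti₀ (by positivity)
  apply pow_le_pow_left₀ (by positivity)
  have : T / R2 ≤ ‖z‖ / R2 := div_le_div_of_nonneg_right hz hR2.le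
  linarith

theorem Omi_near (R2 ρ : ℝ) (hρ : 0 < ρ) (hR2 : 60 * ρ ≤ R2) (z : ℂ) (hz : ‖z‖ ≤ ρ) :
    1 - 60 * ρ / R2 ≤ Omi R2 z ∧ Omi R2 z ≤ 1 := by
  have hR : 0 < R2 := by linarith
  refine ⟨?_, (Omi_pos R2 hR z).2⟩
  unfold Omi
  set x : ℝ := ‖z‖ / R2 with hx
  have h0 : 0 ≤ x := div_nonneg (norm_nonneg z) hR.le
  have h1 : x ≤ ρ / R2 := div_le_div_of_nonneg_right hz hR.le
  have h2 : ρ / R2 ≤ 1 / 60 := by
    rw [div_le_iff₀ hR]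
    linarith
  have h3 : 1 + (60 : ℕ) * (-x) ≤ (1 + (-x)) ^ 60 := one_add_mul_le_pow (by linarith) 60
  push_cast at h3
  have h4 : (1 + (-x)) ^ 60 ≤ ((1 + x) ^ 60)⁻¹ := by
    rw [← inv_pow]
    apply pow_le_pow_left₀ (by linarith)
    rw [le_inv_comm₀ (by linarith) (by linarith), ← one_div, le_div_iff₀ (by linarith)]
    nlinarith
  have h5 : 60 * ρ / R2 = 60 * (ρ / R2) := by ring
  rw [h5]
  linarith

end Pool.Agent.Helper84.HRT
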