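import Mathlib
import Pool.Agent.Helper84.HRT.DefsS
import Pool.Agent.Helper84.HRT.WB
import Pool.Agent.Helper84.HRT.WD
import Pool.Agent.Helper84.HRT.SA
import Pool.Agent.Helper84.HRT.SB
import Pool.Agent.Helper84.HRT.SC
import Pool.Agent.Helper84.HRT.SD
import Pool.Agent.Helper84.HRT.SF
import Pool.Agent.Helper84.HRT.SG
import Pool.Agent.Helper84.HRT.SI
import Pool.Agent.Helper84.HRT.L16A
import Pool.Agent.Helper84.HRT.L17B
import Pool.Agent.Helper84.HRT.L18A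
import Pool.Agent.Helper84.HRT.L18C

open MeasureTheory Complex Filter
open scoped ENNReal NNReal ComplexConjugate InnerProductSpace BigOperators Topology

namespace Pool.Agent.Helper84.HRT

variable {H : Type} [NormedAddCommGroup H] [InnerProductSpace ℂ H] [CompleteSpace H]

private theorem l19a_ennorm (v : H) : ‖v‖ₑ ^ 2 = ENNReal.ofReal (‖v‖ ^ 2) := by
  rw [← ofReal_norm, ENNReal.ofReal_pow (norm_nonneg _)]

private theorem l19a_ennormC (v : ℂ) : ‖v‖ₑ ^ 2 = ENNReal.ofReal (‖v‖ ^ 2) := by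
  rw [← ofReal_norm, ENNReal.ofReal_pow (norm_nonneg _)]

private theorem l19a_ball_le (ρ : ℝ) (z : ℂ) : |ball1 ρ z| ≤ 1 := by
  unfold ball1
  by_cases hz : z ∈ Metric.closedBall (0 : ℂ) ρ
  · rw [Set.indicator_of_mem hz]; simp
  · rw [Set.indicator_of_notMem hz]; simp

private theorem l19a_out_mul (R2 T : ℝ) (hR2 : 0 < R2) (hT : 0 < T) (z : ℂ) :
    |out1 T z * Omi R2 z| ≤ (R2 / T) ^ 60 * |(1 : ℝ)| := by
  have h0 := Omi_pos R2 hR2 z
  unfold out1
  by_cases hz : z ∈ {y : ℂ | T ≤ ‖y‖}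
  · rw [Set.indicator_of_mem hz]
    simp only [Pi.one_apply, one_mul, abs_one, mul_one]
    rw [abs_of_pos h0.1]
    exact Omi_out R2 T hR2 hT z hz
  · rw [Set.indicator_of_notMem hz, zero_mul, abs_zero]
    positivity

private theorem l19a_ball_mul (R2 ρ : ℝ) (hρ : 0 < ρ) (hR2 : 120 * ρ ≤ R2) (z : ℂ) :
    |ball1 ρ z * (Omi R2 z - 1)| ≤ (120 * ρ / R2) * |Omi R2 z| := by
  have hR2pos : 0 < R2 := by linarith
  have h0 := Omi_pos R2 hR2pos z
  unfold ball1
  by_cases hz : z ∈ Metric.closedBall (0 : ℂ) ρ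
  · rw [Set.indicator_of_mem hz]
    have hz' : ‖z‖ ≤ ρ := by simpa using hz
    obtain ⟨h1, h2⟩ := Omi_near R2 ρ hρ (by linarith) z hz'
    simp only [Pi.one_apply, one_mul]
    rw [abs_of_nonpos (by linarith), abs_of_pos h0.1]
    have h3 : 60 * ρ / R2 ≤ 1 / 2 := by
      rw [div_le_iff₀ hR2pos]
      linarith
    have h4 : 120 * ρ / R2 = 2 * (60 * ρ / R2) := by ring
    have h5 : 0 ≤ 60 * ρ / R2 := by positivity
    rw [h4]
    nlinarith
  · rw [Set.indicator_of_notMem hz, zero_mul, abs_zero]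
    positivity

/-- the end of the first alternative, in real numbers -/
private theorem l19a_real (c a2 v2 b b' d K' : ℝ) (hc : 0 < c) (h1 : a2 ≤ 4 * v2)
    (h2 : c ^ 2 * v2 ≤ b' ^ 2) (h3 : b' ≤ b + d) (hb' : 0 ≤ b') (hb : 0 ≤ b) (hd : 0 ≤ d)
    (h4 : d ^ 2 ≤ K' * a2) (h5 : 16 * K' ≤ c ^ 2) (ha2 : 0 ≤ a2) :
    a2 ≤ 16 / c ^ 2 * b ^ 2 := by
  have h6 : b' ^ 2 ≤ 2 * b ^ 2 + 2 * d ^ 2 := by nlinarith [sq_nonneg (b - d)]
  have hc2 : 0 < c ^ 2 := by positivity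
  have h7 : c ^ 2 * a2 ≤ 16 * b ^ 2 := by nlinarith
  rw [div_mul_eq_mul_div, le_div_iff₀ hc2]
  linarith

private theorem l19a_const (K c R2 : ℝ) (hR2pos : 0 < R2) (hc : 0 < c) (hK1 : 1 ≤ K)
    (hR2f : 16 * 41 ^ 8 * K / c ≤ R2) : 16 * (41 ^ 8 * (K / R2 ^ 2)) ≤ c ^ 2 := by
  have h6 : 16 * 41 ^ 8 * K ≤ c * R2 := by
    rw [div_le_iff₀ hc] at hR2f
    linarith
  have h7 : 1 ≤ 16 * 41 ^ 8 * K := by
    calc (1 : ℝ) ≤ 16 * 41 ^ 8 * 1 := by norm_num
      _ ≤ 16 * 41 ^ 8 * K := by gcongr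
  have h8 : 16 * 41 ^ 8 * K ≤ c ^ 2 * R2 ^ 2 := by
    calc 16 * 41 ^ 8 * K ≤ (16 * 41 ^ 8 * K) ^ 2 := le_self_pow₀ h7 two_ne_zero
      _ ≤ (c * R2) ^ 2 := pow_le_pow_left₀ (by positivity) h6 2
      _ = c ^ 2 * R2 ^ 2 := by ring
  have h10 : 16 * (41 ^ 8 * (K / R2 ^ 2)) = 16 * 41 ^ 8 * K / R2 ^ 2 := by ring
  rw [h10, div_le_iff₀ (by positivity)]
  exact h8

/-- L19, main case. `Om = Omi R2`, `s = slo 60 R2`, `v' = TO W Om v`, `A2 = S2 Om (V v)`,
`A1 = S2 (s⁻¹ Om) (V (A v)) ≤ A2`. TO_op (`Y = s⁻¹`), TO_norm: `S2 (s⁻¹) (V (A v')) ≤ 2 C A2 ≤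
8C ‖v'‖²`, so `conc` (`M0 = 8C`, `B = 60`; `ρ` comes before `δ0`, `R2`: apply L18 to `ρ` first).
Second alternative: `Kop_out` (`T = 1/e1`), `Omi_out`:
`‖v'‖²/20 ≤ C ((4 R2 e1)^{120} ‖v‖² + e^{-1/(2 e1)} A2)`, so `A2 ≤ 4 ‖v'‖² ≤ e1^{100} ‖v‖²` for
small `e1`. First alternative: TO_op (`Y = 1`): `‖A v'‖² ≤ C (120/R2)² (A1 + A2) ≤ ε2² ‖v'‖²` for
large `R2`, so L18: `c ‖v'‖ ≤ |brk g v'|`; `|brk g v' - brk g v| ≤ C |1_B (V v' - V v)| ≤
C' A2^{1/2}/R2` (TO_err with `Y = 1`; `Omi_near`; `brk_le`, `ball_le_om`), so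
`A2 ≤ C |brk g v|²`. -/
theorem wi_main {W : Weyl H} {D : Data} (F : Fam W D) (R0 : ℝ) (hR0 : 1 ≤ R0) :
    ∃ δ00 : ℝ, 0 < δ00 ∧ ∀ δ0 : ℝ, 0 < δ0 → δ0 ≤ δ00 → ∃ R2 C e10 : ℝ, ∃ n0 : ℕ, 240 ≤ R2 ∧
    1 ≤ C ∧ 0 < e10 ∧ F.n1 ≤ n0 ∧ ∀ n, n0 ≤ n → ∀ e1 : ℝ, 0 < e1 → e1 ≤ e10 →
    F.SepR R0 δ0 n e1 → ∀ (w : ℂ) (g : H), F.Ctr n e1 w g → S2 (om F.R) (W.V g) = 1 →
    ∀ v : H, S2 (fun z => (slo 60 R2 z)⁻¹ * Omi R2 z) (W.V (tr W w (F.A n) v)) ≤
      S2 (Omi R2) (W.V v) →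
    S2 (Omi R2) (W.V v) ≤ ENNReal.ofReal C * ‖brk W (40 * F.R) g v‖ₑ ^ 2 +
      ENNReal.ofReal (e1 ^ 100) * ‖v‖ₑ ^ 2 := by
  obtain ⟨C1, hC1, hTO⟩ := TO_op F
  obtain ⟨Ce, hCe, hTE⟩ := TO_err W
  obtain ⟨c1, hc1, hTN⟩ := TO_norm W
  obtain ⟨Co, hCo, hKo⟩ := Kop_out
  obtain ⟨ρ, hρ, δ00, hδ00, hconc⟩ := conc F R0 (8 * C1) 60 hR0 (by linarith) (by norm_num)
  obtain ⟨ε2, c, n0, hε2, hc, hn0, hL18⟩ := L18 F ρ hρ
  refine ⟨δ00, hδ00, fun δ0 h0 h1 => ?_⟩
  obtain ⟨R20, hR20, hconc⟩ := hconc δ0 h0 h1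
  have hRc : 4 ≤ F.R := F.R_ge
  set ρ4 : ℝ := 40 * F.R with hρ4
  have hρ4pos : 0 < ρ4 := by positivity
  set K : ℝ := 2 * (Ce * 120 ^ 2 + (120 * ρ4) ^ 2) with hK
  have hKpos : 0 < K := by positivity
  set R2 : ℝ := max (max R20 240) (max (max (120 / c1) (8 * C1 * 120 / ε2))
    (max (120 * ρ4) (16 * 41 ^ 8 * K / c))) with hR2def
  have hR2a : R20 ≤ R2 := (le_max_left _ _).trans (le_max_left _ _)
  have hR2b : 240 ≤ R2 := (le_max_right _ _).trans (le_max_left _ _)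
  have hR2c : 120 / c1 ≤ R2 :=
    (le_max_left _ _).trans ((le_max_left _ _).trans (le_max_right _ _))
  have hR2d : 8 * C1 * 120 / ε2 ≤ R2 :=
    (le_max_right _ _).trans ((le_max_left _ _).trans (le_max_right _ _))
  have hR2e : 120 * ρ4 ≤ R2 :=
    (le_max_left _ _).trans ((le_max_right _ _).trans (le_max_right _ _))
  have hR2f : 16 * 41 ^ 8 * K / c ≤ R2 :=
    (le_max_right _ _).trans ((le_max_right _ _).trans (le_max_right _ _))
  have hR2pos : 0 < R2 := by linarith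
  obtain ⟨e10, he10, hconc⟩ := hconc R2 hR2a
  have hIsW : IsW (Omi R2) (slo 60 R2) := isW_Omi R2 hR2b
  have hslo : ∀ z, slo 60 R2 z ≤ 120 / R2 := by
    intro z
    have := slo_le 60 R2 (by norm_num) hR2pos z
    norm_num at this ⊢
    exact this
  have hslop : ∀ z, 0 < slo 60 R2 z := fun z => slo_pos 60 R2 (by norm_num) hR2pos z
  set Kb : ℝ := 160 * Co * (4 * R2) ^ 120 with hKb
  have hKbpos : 0 < Kb := by positivity
  refine ⟨R2, max 1 (16 / c ^ 2), min (min e10 ε2) (min 1 (min (1 / Kb) (1 / (320 * Co)))), n0,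
    hR2b, le_max_left _ _, by positivity, hn0, ?_⟩
  intro n hn e1 he1 he1' hsep w g hctr hone v hA
  have hea : e1 ≤ e10 := he1'.trans ((min_le_left _ _).trans (min_le_left _ _))
  have heb : e1 ≤ ε2 := he1'.trans ((min_le_left _ _).trans (min_le_right _ _))
  have hec : e1 ≤ 1 := he1'.trans ((min_le_right _ _).trans (min_le_left _ _))
  have hed : e1 ≤ 1 / Kb :=
    he1'.trans ((min_le_right _ _).trans ((min_le_right _ _).trans (min_le_left _ _)))
  have hee : e1 ≤ 1 / (320 * Co) :=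
    he1'.trans ((min_le_right _ _).trans ((min_le_right _ _).trans (min_le_right _ _)))
  have hn1 : F.n1 ≤ n := hn0.trans hn
  -- finiteness
  have hfin : S2 (Omi R2) (W.V v) < ⊤ := by
    refine S2_V_lt_top W _ 1 (fun z => ?_) v
    rw [abs_of_pos (Omi_pos R2 hR2pos z).1]
    exact (Omi_pos R2 hR2pos z).2
  set A2 := S2 (Omi R2) (W.V v) with hA2
  set v' : H := TO W (Omi R2) v with hv'
  have hVv' : W.V v' = Kop (fun z => ((Omi R2 z : ℝ) : ℂ) * W.V v z) := by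
    funext z
    exact V_TO W _ _ hIsW v hfin z
  have hmeasF : AEStronglyMeasurable (fun z => ((Omi R2 z : ℝ) : ℂ) * W.V v z) dA := by
    have h2 : Continuous fun z => ((Omi R2 z : ℝ) : ℂ) :=
      Complex.continuous_ofReal.comp hIsW.cont
    exact (h2.mul (V_cont W v)).aestronglyMeasurable
  -- A2 ≤ 4 |v'|²
  have hA2v : A2 ≤ 4 * ‖v'‖ₑ ^ 2 := by
    refine hTN (Omi R2) (slo 60 R2) hIsW (fun z => (hslo z).trans ?_) v hfin
    rw [div_le_iff₀ hc1] at hR2c
    rw [div_le_iff₀ hR2pos]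
    linarith
  -- real numbers
  set a2 : ℝ := A2.toReal with ha2
  have hA2a : A2 = ENNReal.ofReal a2 := (ENNReal.ofReal_toReal hfin.ne).symm
  have ha20 : 0 ≤ a2 := ENNReal.toReal_nonneg
  have ha2v : a2 ≤ 4 * ‖v'‖ ^ 2 := by
    rw [hA2a, l19a_ennorm, ← ENNReal.ofReal_ofNat, ← ENNReal.ofReal_mul (by norm_num)] at hA2v
    exact (ENNReal.ofReal_le_ofReal_iff (by positivity)).1 hA2v
  -- commutator with Y = s⁻¹
  have hcomm : S2 (fun z => (slo 60 R2 z)⁻¹) (W.V (tr W w (F.A n) v')) ≤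
      ENNReal.ofReal (8 * C1) * ‖v'‖ₑ ^ 2 := by
    have h2 := hTO n hn1 w (Omi R2) (slo 60 R2) (fun z => (slo 60 R2 z)⁻¹) hIsW
      (logLip_slo_inv 60 R2 (by norm_num) (by linarith)) v hfin
    have e : (fun z => (slo 60 R2 z)⁻¹ * slo 60 R2 z * Omi R2 z) = Omi R2 := by
      funext z
      rw [inv_mul_cancel₀ (hslop z).ne', one_mul]
    rw [e] at h2
    calc _ ≤ _ := h2
      _ ≤ ENNReal.ofReal C1 * (A2 + A2) := by gcongr
      _ = ENNReal.ofReal C1 * ENNReal.ofReal (2 * a2) := by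
          rw [hA2a, ← ENNReal.ofReal_add ha20 ha20]
          congr 2
          ring
      _ = ENNReal.ofReal (C1 * (2 * a2)) := (ENNReal.ofReal_mul (by linarith)).symm
      _ ≤ ENNReal.ofReal (8 * C1 * ‖v'‖ ^ 2) := by
          apply ENNReal.ofReal_le_ofReal
          nlinarith
      _ = ENNReal.ofReal (8 * C1) * ‖v'‖ₑ ^ 2 := by
          rw [l19a_ennorm, ENNReal.ofReal_mul (by linarith)]
  rcases hconc n hn1 e1 he1 hea hsep w g hctr v' hcomm with halt | halt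
  · -- first alternative
    have hsmall : ‖tr W w (F.A n) v'‖ ≤ ε2 * ‖v'‖ := by
      have h2 := hTO n hn1 w (Omi R2) (slo 60 R2) (fun _ => 1) hIsW logLip_one v hfin
      rw [S2_V W] at h2
      have h3 : S2 (fun z => (1 : ℝ) * Omi R2 z) (W.V (tr W w (F.A n) v)) ≤
          ENNReal.ofReal ((120 / R2) ^ 2) * A2 := by
        refine (S2_mono (c := 120 / R2) (Y' := fun z => (slo 60 R2 z)⁻¹ * Omi R2 z)
          (by positivity) _ fun z => ?_).trans (by gcongr)
        have h4 := (Omi_pos R2 hR2pos z).1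
        have h5 := hslop z
        rw [one_mul, abs_of_pos h4, abs_of_pos (by positivity), ← mul_assoc]
        have h6 : 1 ≤ 120 / R2 * (slo 60 R2 z)⁻¹ := by
          rw [← div_eq_mul_inv, le_div_iff₀ h5, one_mul]
          exact hslo z
        nlinarith
      have h7 : S2 (fun z => (1 : ℝ) * slo 60 R2 z * Omi R2 z) (W.V v) ≤
          ENNReal.ofReal ((120 / R2) ^ 2) * A2 := by
        refine S2_mono (c := 120 / R2) (by positivity) _ fun z => ?_
        have h4 := (Omi_pos R2 hR2pos z).1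
        have h5 := hslop z
        rw [one_mul, abs_of_pos (by positivity), abs_of_pos h4]
        have := hslo z
        gcongr
      have h8 : ENNReal.ofReal (‖tr W w (F.A n) v'‖ ^ 2) ≤
          ENNReal.ofReal (C1 * (2 * ((120 / R2) ^ 2 * a2))) := by
        calc _ ≤ _ := h2
          _ ≤ ENNReal.ofReal C1 * (ENNReal.ofReal ((120 / R2) ^ 2) * A2 +
              ENNReal.ofReal ((120 / R2) ^ 2) * A2) := by gcongr
          _ = _ := by
              rw [hA2a, ← ENNReal.ofReal_mul (by positivity),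
                ← ENNReal.ofReal_add (by positivity) (by positivity),
                ← ENNReal.ofReal_mul (by linarith)]
              congr 2
              ring
      have h9 := (ENNReal.ofReal_le_ofReal_iff (by positivity)).1 h8
      have h10 : C1 * (2 * ((120 / R2) ^ 2 * a2)) ≤ (ε2 * ‖v'‖) ^ 2 := by
        have h11 : 8 * C1 * (120 / R2) ^ 2 ≤ ε2 ^ 2 := by
          rw [div_le_iff₀ hε2] at hR2d
          have h12 : 8 * C1 * 120 / R2 ≤ ε2 := by
            rw [div_le_iff₀ hR2pos]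
            linarith
          have h13 : 0 ≤ 8 * C1 * 120 / R2 := by positivity
          have h14 : 8 * C1 * (120 / R2) ^ 2 ≤ (8 * C1 * 120 / R2) ^ 2 := by
            have h15 : (8 * C1 * 120 / R2) ^ 2 = 8 * C1 * (8 * C1 * (120 / R2) ^ 2) := by ring
            rw [h15]
            have h16 : 0 ≤ 8 * C1 * (120 / R2) ^ 2 := by positivity
            nlinarith
          exact h14.trans (pow_le_pow_left₀ h13 h12 2)
        calc C1 * (2 * ((120 / R2) ^ 2 * a2)) ≤ C1 * (2 * ((120 / R2) ^ 2 * (4 * ‖v'‖ ^ 2))) := by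
              gcongr
          _ = 8 * C1 * (120 / R2) ^ 2 * ‖v'‖ ^ 2 := by ring
          _ ≤ ε2 ^ 2 * ‖v'‖ ^ 2 := by gcongr
          _ = (ε2 * ‖v'‖) ^ 2 := by ring
      exact (pow_le_pow_iff_left₀ (norm_nonneg _) (by positivity) two_ne_zero).1 (h9.trans h10)
    have hb := hL18 n hn w g (ctr_mono he1.le heb hctr) hone v' hsmall halt
    -- difference of the pairings
    have hdiff : ‖brk W ρ4 g (v' - v)‖ ^ 2 ≤ 41 ^ 8 * (K / R2 ^ 2) * a2 := by
      have hg8 : S2 (ball1 ρ4) (W.V g) ≤ ENNReal.ofReal (41 ^ 8) := by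
        have h2 := ball_le_om F.R ρ4 (by linarith) hρ4pos.le (W.V g)
        rw [hone, mul_one] at h2
        have e : (1 + ρ4 / F.R) = 41 := by
          rw [hρ4, mul_div_assoc, div_self (by linarith)]
          norm_num
        rwa [e] at h2
      have hd2 : S2 (ball1 ρ4) (W.V (v' - v)) ≤ ENNReal.ofReal (K / R2 ^ 2 * a2) := by
        have e : W.V (v' - v) = fun z => ((Omi R2 z - 1 : ℝ) : ℂ) * W.V v z -
            (((Omi R2 z : ℝ) : ℂ) * W.V v z - W.V v' z) := by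
          funext z
          rw [V_sub]
          push_cast
          ring
        have hmeasG : AEStronglyMeasurable
            (fun z => ((Omi R2 z - 1 : ℝ) : ℂ) * W.V v z) dA := by
          have h2 : Continuous fun z => ((Omi R2 z - 1 : ℝ) : ℂ) :=
            Complex.continuous_ofReal.comp (hIsW.cont.sub continuous_const)
          exact (h2.mul (V_cont W v)).aestronglyMeasurable
        rw [e]
        refine (S2_sub _ (ball1_meas _) _ _ hmeasG).trans ?_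
        rw [S2_mul_weight]
        have h3 : S2 (fun z => ball1 ρ4 z * (Omi R2 z - 1)) (W.V v) ≤
            ENNReal.ofReal ((120 * ρ4 / R2) ^ 2) * A2 :=
          S2_mono (by positivity) _ fun z => l19a_ball_mul R2 ρ4 hρ4pos hR2e z
        have h4 : S2 (ball1 ρ4) (fun z => ((Omi R2 z : ℝ) : ℂ) * W.V v z - W.V v' z) ≤
            ENNReal.ofReal Ce * (ENNReal.ofReal ((120 / R2) ^ 2) * A2) := by
          refine le_trans (S2_mono2 (Y' := fun _ => 1) fun z => ?_)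
            ((hTE (Omi R2) (slo 60 R2) (fun _ => 1) hIsW logLip_one v hfin).trans ?_)
          · have := l19a_ball_le ρ4 z
            rw [abs_one]
            gcongr
          · gcongr
            refine S2_mono (c := 120 / R2) (by positivity) _ fun z => ?_
            have h4 := (Omi_pos R2 hR2pos z).1
            have h5 := hslop z
            rw [one_mul, abs_of_pos (by positivity), abs_of_pos h4]
            have := hslo z
            gcongr
        calc 2 * (S2 (fun z => ball1 ρ4 z * (Omi R2 z - 1)) (W.V v) +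
              S2 (ball1 ρ4) (fun z => ((Omi R2 z : ℝ) : ℂ) * W.V v z - W.V v' z))
            ≤ 2 * (ENNReal.ofReal ((120 * ρ4 / R2) ^ 2) * A2 +
              ENNReal.ofReal Ce * (ENNReal.ofReal ((120 / R2) ^ 2) * A2)) := by gcongr
          _ = ENNReal.ofReal (2 * ((120 * ρ4 / R2) ^ 2 * a2 + Ce * ((120 / R2) ^ 2 * a2))) := by
              rw [hA2a, ← ENNReal.ofReal_mul (by positivity), ← ENNReal.ofReal_mul (by positivity),
                ← ENNReal.ofReal_mul (by positivity),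
                ← ENNReal.ofReal_add (by positivity) (by positivity), ← ENNReal.ofReal_ofNat,
                ← ENNReal.ofReal_mul (by norm_num)]
          _ = ENNReal.ofReal (K / R2 ^ 2 * a2) := by
              congr 1
              rw [hK]
              ring
      have h5 := brk_le W ρ4 g (v' - v)
      have h6 : ENNReal.ofReal (‖brk W ρ4 g (v' - v)‖ ^ 2) ≤
          ENNReal.ofReal (41 ^ 8 * (K / R2 ^ 2) * a2) := by
        rw [← l19a_ennormC]
        calc _ ≤ _ := h5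
          _ ≤ ENNReal.ofReal (41 ^ 8) * ENNReal.ofReal (K / R2 ^ 2 * a2) := by gcongr
          _ = ENNReal.ofReal (41 ^ 8 * (K / R2 ^ 2 * a2)) :=
            (ENNReal.ofReal_mul (by positivity)).symm
          _ = _ := by rw [mul_assoc]
      exact (ENNReal.ofReal_le_ofReal_iff (by positivity)).1 h6
    have htri : ‖brk W ρ4 g v'‖ ≤ ‖brk W ρ4 g v‖ + ‖brk W ρ4 g (v' - v)‖ := by
      have e : brk W ρ4 g v' = brk W ρ4 g v + brk W ρ4 g (v' - v) := by
        rw [brk_sub]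
        ring
      rw [e]
      exact norm_add_le _ _
    have hfinal := l19a_real c a2 (‖v'‖ ^ 2) ‖brk W ρ4 g v‖ ‖brk W ρ4 g v'‖
      ‖brk W ρ4 g (v' - v)‖ (41 ^ 8 * (K / R2 ^ 2)) hc ha2v (by
        rw [← mul_pow]
        exact pow_le_pow_left₀ (by positivity) hb 2) htri (norm_nonneg _) (norm_nonneg _)
      (norm_nonneg _) hdiff (l19a_const K c R2 hR2pos hc (by
        rw [hK]
        nlinarith [sq_nonneg (120 * ρ4)]) hR2f) ha20
    calc A2 = ENNReal.ofReal a2 := hA2a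
      _ ≤ ENNReal.ofReal (16 / c ^ 2 * ‖brk W ρ4 g v‖ ^ 2) := ENNReal.ofReal_le_ofReal hfinal
      _ = ENNReal.ofReal (16 / c ^ 2) * ‖brk W ρ4 g v‖ₑ ^ 2 := by
          rw [ENNReal.ofReal_mul (by positivity), l19a_ennormC]
      _ ≤ ENNReal.ofReal (max 1 (16 / c ^ 2)) * ‖brk W ρ4 g v‖ₑ ^ 2 := by
          gcongr
          exact le_max_right _ _
      _ ≤ _ := le_self_add
  · -- second alternative
    have hT := hKo (1 / e1) (by positivity) _ hmeasF
    have e2 : 1 / e1 / 2 = 1 / (2 * e1) := by rw [div_div, mul_comm]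
    rw [e2] at hT
    rw [← hVv', S2_mul_weight, S2_mul_weight] at hT
    have h2 : S2 (fun z => out1 (1 / e1 / 4) z * Omi R2 z) (W.V v) ≤
        ENNReal.ofReal ((4 * R2 * e1) ^ 120 * ‖v‖ ^ 2) := by
      have h3 := S2_mono (c := (R2 / (1 / e1 / 4)) ^ 60) (Y' := fun _ => 1) (by positivity) (W.V v)
        (l19a_out_mul R2 (1 / e1 / 4) hR2pos (by positivity))
      rw [S2_V W] at h3
      refine h3.trans (le_of_eq ?_)
      rw [← ENNReal.ofReal_mul (by positivity)]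
      congr 2
      have e3 : R2 / (1 / e1 / 4) = 4 * R2 * e1 := by field_simp
      rw [e3, ← pow_mul]
    have h4 : S2 (fun z => 1 * Omi R2 z) (W.V v) = A2 := by
      simp only [one_mul, hA2]
    rw [h4, hA2a] at hT
    have h5 : Real.exp (-(1 / (2 * e1))) ≤ 2 * e1 := by
      have h6 : 1 / (2 * e1) ≤ Real.exp (1 / (2 * e1)) := by
        linarith [Real.add_one_le_exp (1 / (2 * e1))]
      rw [Real.exp_neg, inv_le_comm₀ (Real.exp_pos _) (by positivity)]
      rw [inv_eq_one_div]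
      exact h6
    have h7 : ENNReal.ofReal (1 / 20 * ‖v'‖ ^ 2) ≤
        ENNReal.ofReal (Co * ((4 * R2 * e1) ^ 120 * ‖v‖ ^ 2 + 2 * e1 * a2)) := by
      rw [ENNReal.ofReal_mul (by norm_num), ← l19a_ennorm]
      refine halt.trans (hT.trans ?_)
      rw [ENNReal.ofReal_mul hCo.le, ENNReal.ofReal_add (by positivity) (by positivity)]
      gcongr
      rw [ENNReal.ofReal_mul (by positivity)]
      gcongr
    have h8 := (ENNReal.ofReal_le_ofReal_iff (by positivity)).1 h7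
    have h9 : Co * (2 * e1 * a2) ≤ 1 / 40 * ‖v'‖ ^ 2 := by
      rw [le_div_iff₀ (by positivity)] at hee
      calc Co * (2 * e1 * a2) ≤ Co * (2 * e1 * (4 * ‖v'‖ ^ 2)) := by gcongr
        _ = (e1 * (320 * Co)) * (1 / 40 * ‖v'‖ ^ 2) := by ring
        _ ≤ 1 * (1 / 40 * ‖v'‖ ^ 2) := by gcongr
        _ = _ := one_mul _
    have h10 : a2 ≤ 160 * Co * ((4 * R2 * e1) ^ 120 * ‖v‖ ^ 2) := by nlinarith
    have h11 : a2 ≤ e1 ^ 100 * ‖v‖ ^ 2 := by
      refine h10.trans ?_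
      have e4 : 160 * Co * ((4 * R2 * e1) ^ 120 * ‖v‖ ^ 2) =
          Kb * e1 ^ 20 * (e1 ^ 100 * ‖v‖ ^ 2) := by
        rw [hKb, mul_pow]
        ring
      rw [e4]
      have h12 : Kb * e1 ^ 20 ≤ 1 := by
        rw [le_div_iff₀ hKbpos] at hed
        have h13 : e1 ^ 20 ≤ e1 := by
          calc e1 ^ 20 ≤ e1 ^ 1 := pow_le_pow_of_le_one he1.le hec (by norm_num)
            _ = e1 := pow_one _
        nlinarith
      exact mul_le_of_le_one_left (by positivity) h12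
    calc A2 = ENNReal.ofReal a2 := hA2a
      _ ≤ ENNReal.ofReal (e1 ^ 100 * ‖v‖ ^ 2) := ENNReal.ofReal_le_ofReal h11
      _ = ENNReal.ofReal (e1 ^ 100) * ‖v‖ₑ ^ 2 := by
          rw [ENNReal.ofReal_mul (by positivity), l19a_ennorm]
      _ ≤ _ := le_add_self

end Pool.Agent.Helper84.HRT
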