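import Mathlib
import Pool.Agent.Helper84.HRT.DefsS
import Pool.Agent.Helper84.HRT.L19A
import Pool.Agent.Helper84.HRT.SF
import Pool.Agent.Helper84.HRT.SC

open MeasureTheory Complex Filter
open scoped ENNReal NNReal ComplexConjugate InnerProductSpace BigOperators Topology

namespace Pool.Agent.Helper84.HRT

variable {H : Type} [NormedAddCommGroup H] [InnerProductSpace ℂ H] [CompleteSpace H]

private lemma pw_pos_l19b (k : ℤ) (z : ℂ) : 0 < pw k z := by
  unfold pw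
  have h1 : 0 < 1 + ‖z‖ := by positivity
  exact zpow_pos h1 k

/-- L19 (WI), from `wi_main`, `pw_le_Omi`, `Omi_slo_le`. -/
theorem L19 {W : Weyl H} {D : Data} (F : Fam W D) (R0 : ℝ) (hR0 : 1 ≤ R0) :
    ∃ δ00 : ℝ, 0 < δ00 ∧ ∀ δ0 : ℝ, 0 < δ0 → δ0 ≤ δ00 → F.WI R0 δ0 := by
  obtain ⟨δ00, hδ00, hmain⟩ := wi_main F R0 hR0
  refine ⟨δ00, hδ00, ?_⟩
  intro δ0 hδ0 hδ0'
  obtain ⟨R2, C, e10, n0, hR2, hC, he10, hn0, hcore⟩ := hmain δ0 hδ0 hδ0'
  have hR2' : 1 ≤ R2 := by linarith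
  have hR2p : 0 < R2 := by linarith
  refine ⟨max C ((R2 ^ 60) ^ 2), e10, n0, le_max_of_le_left hC, he10, hn0, ?_⟩
  intro n hn e1 he1 he1' hsep w g hctr hg v
  -- first bound: the weight `pw (-60)` is below `Omi`
  have hfirst : S2 (pw (-60)) (W.V v) ≤ S2 (Omi R2) (W.V v) := by
    apply S2_mono2
    intro z
    apply mul_le_mul_of_nonneg_right _ (norm_nonneg _)
    rw [abs_of_pos (pw_pos_l19b _ z), abs_of_pos (Omi_pos R2 hR2p z).1]
    exact pw_le_Omi R2 hR2' z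
  refine le_trans hfirst ?_
  set C' : ℝ := max C ((R2 ^ 60) ^ 2) with hC'
  by_cases hcase : S2 (fun z => (slo 60 R2 z)⁻¹ * Omi R2 z) (W.V (tr W w (F.A n) v)) ≤
      S2 (Omi R2) (W.V v)
  · have h1 := hcore n hn e1 he1 he1' hsep w g hctr hg v hcase
    refine le_trans h1 ?_
    gcongr
    · exact le_max_left _ _
    · exact le_add_self
  · have h2 : S2 (Omi R2) (W.V v) ≤
        S2 (fun z => (slo 60 R2 z)⁻¹ * Omi R2 z) (W.V (tr W w (F.A n) v)) :=
      (not_le.mp hcase).le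
    have h3 : S2 (fun z => (slo 60 R2 z)⁻¹ * Omi R2 z) (W.V (tr W w (F.A n) v)) ≤
        ENNReal.ofReal ((R2 ^ 60) ^ 2) * S2 (pw (-59)) (W.V (tr W w (F.A n) v)) := by
      apply S2_mono (by positivity)
      intro z
      have hs : 0 < slo 60 R2 z := by
        unfold slo
        positivity
      have hO := (Omi_pos R2 hR2p z).1
      rw [abs_of_pos (mul_pos (inv_pos.mpr hs) hO), abs_of_pos (pw_pos_l19b _ z)]
      exact Omi_slo_le R2 hR2' z
    calc S2 (Omi R2) (W.V v)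
        ≤ ENNReal.ofReal ((R2 ^ 60) ^ 2) * S2 (pw (-59)) (W.V (tr W w (F.A n) v)) :=
          le_trans h2 h3
      _ ≤ ENNReal.ofReal C' * (S2 (pw (-59)) (W.V (tr W w (F.A n) v)) +
            ‖brk W (40 * F.R) g v‖ₑ ^ 2) := by
          gcongr
          · exact le_max_right _ _
          · exact le_self_add
      _ ≤ _ := le_self_add

end Pool.Agent.Helper84.HRT
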