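import Mathlib
import Pool.Agent.Helper84.HRT.DefsS
import Pool.Agent.Helper84.HRT.WB
import Pool.Agent.Helper84.HRT.WD
import Pool.Agent.Helper84.HRT.L3C
import Pool.Agent.Helper84.HRT.L3A

open MeasureTheory Complex Filter
open scoped ENNReal NNReal ComplexConjugate InnerProductSpace BigOperators Topology

namespace Pool.Agent.Helper84.HRT

variable {H : Type} [NormedAddCommGroup H] [InnerProductSpace ℂ H] [CompleteSpace H]

private theorem l20d_mono {Y Y' : ℂ → ℝ} (h : ∀ z, |Y z| ≤ |Y' z|) (F : ℂ → ℂ) :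
    S2 Y F ≤ S2 Y' F := by
  unfold S2
  refine lintegral_mono fun z => ?_
  refine pow_le_pow_left' ?_ 2
  rw [enorm_mul, enorm_mul]
  refine mul_le_mul_left ?_ _
  rw [enorm_le_iff_norm_le, norm_real, norm_real]
  exact h z

private theorem l20d_pw (z : ℂ) : 1 + ‖z‖ ≤ pw 300 z := by
  unfold pw
  have h : (1 : ℝ) ≤ 1 + ‖z‖ := by
    have := norm_nonneg z
    linarith
  have h2 : ((1 : ℝ) + ‖z‖) ^ (300 : ℤ) = (1 + ‖z‖) ^ (300 : ℕ) := by
    rw [← zpow_natCast]
    norm_num
  rw [h2]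
  exact le_self_pow₀ h (by norm_num)

private theorem l20d_ball_le (ρ T : ℝ) (h : ρ ≤ T) (z : ℂ) : |ball1 ρ z| ≤ |ball1 T z| := by
  unfold ball1
  by_cases h1 : z ∈ Metric.closedBall (0 : ℂ) ρ
  · have h2 : z ∈ Metric.closedBall (0 : ℂ) T := Metric.closedBall_subset_closedBall h h1
    rw [Set.indicator_of_mem h1, Set.indicator_of_mem h2]
  · rw [Set.indicator_of_notMem h1, abs_zero]
    exact abs_nonneg _

private theorem l20d_ball_meas (ρ : ℝ) : Measurable (ball1 ρ) := by
  unfold ball1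
  exact measurable_one.indicator Metric.isClosed_closedBall.measurableSet

/-- a vector whose transform vanishes on all balls is zero -/
private theorem l20d_zero (W : Weyl H) (h : H) (hz : ∀ ρ : ℝ, S2 (ball1 ρ) (W.V h) = 0) :
    h = 0 := by
  have h1 : ∀ n : ℕ, ∀ᵐ z ∂dA, ‖((ball1 (n : ℝ) z : ℝ) : ℂ) * W.V h z‖ₑ ^ 2 = 0 := by
    intro n
    have h2 := hz n
    unfold S2 at h2
    rw [lintegral_eq_zero_iff] at h2
    · exact h2
    · have h3 := (l20d_ball_meas (n : ℝ))
      have h4 := (V_cont W h).measurable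
      exact (((Complex.measurable_ofReal.comp h3).mul h4).enorm).pow_const 2
  have h2 : ∀ᵐ z ∂dA, ∀ n : ℕ, ‖((ball1 (n : ℝ) z : ℝ) : ℂ) * W.V h z‖ₑ ^ 2 = 0 :=
    ae_all_iff.2 h1
  have h3 : S2 (fun _ => 1) (W.V h) = 0 := by
    unfold S2
    rw [lintegral_eq_zero_iff (by
      have h4 := (V_cont W h).measurable
      exact ((measurable_const.mul h4).enorm).pow_const 2)]
    filter_upwards [h2] with z hz'
    obtain ⟨n, hn⟩ := exists_nat_ge ‖z‖
    have h5 := hz' n
    have h6 : ball1 (n : ℝ) z = 1 := by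
      unfold ball1
      rw [Set.indicator_of_mem]
      · rfl
      · rw [mem_closedBall_zero_iff]
        exact hn
    rw [h6] at h5
    exact h5
  rw [S2_V, ENNReal.ofReal_eq_zero] at h3
  have h4 : ‖h‖ ^ 2 = 0 := le_antisymm h3 (by positivity)
  rwa [pow_eq_zero_iff two_ne_zero, norm_eq_zero] at h4

/-- the localised vectors converge in `H` to the limit of the centre vectors: every subsequence
has a subsequence with `u → u0` in `H` (L3a), and `S2 (ball1 ρ) (V (u-g)) → 0` for every `ρ`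
gives `V u0 = V ψ` on every ball, `V_inj`. -/
theorem loc_tendsto (W : Weyl H) (u g : ℕ → H) (x : ℕ → ℝ) (ψ : H) (C : ℝ)
    (hx : ∀ j, 0 < x j) (hx0 : Tendsto x atTop (nhds 0))
    (hm : ∀ j, S2 (pw 300) (W.V (u j)) ≤ ENNReal.ofReal C)
    (hl : ∀ j, S2 (ball1 (1 / (2 * x j))) (W.V (u j - g j)) ≤ ENNReal.ofReal (x j ^ 720))
    (hg : TendstoLocallyUniformly (fun j => W.V (g j)) (W.V ψ) atTop) :
    Tendsto u atTop (nhds ψ) := by
  have hS1 : ∀ j, S2 (fun z => 1 + ‖z‖) (W.V (u j)) ≤ ENNReal.ofReal (|C| + 1) := by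
    intro j
    refine ((l20d_mono (fun z => ?_) _).trans (hm j)).trans
      (ENNReal.ofReal_le_ofReal (by have := le_abs_self C; linarith))
    have h1 := l20d_pw z
    have h2 : (0 : ℝ) ≤ 1 + ‖z‖ := by positivity
    rw [abs_of_nonneg h2, abs_of_nonneg (h2.trans h1)]
    exact h1
  have hS2 : ∀ j, ‖u j‖ ≤ |C| + 1 := by
    intro j
    have h1 : S2 (fun _ => 1) (W.V (u j)) ≤ ENNReal.ofReal (|C| + 1) := by
      refine (l20d_mono (fun z => ?_) _).trans (hS1 j)
      have h2 : (0 : ℝ) ≤ ‖z‖ := norm_nonneg z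
      rw [abs_one, abs_of_nonneg (by linarith)]
      linarith
    rw [S2_V, ENNReal.ofReal_le_ofReal_iff (by positivity)] at h1
    by_contra h2
    push Not at h2
    have h3 := abs_nonneg C
    nlinarith
  refine tendsto_of_subseq_tendsto fun ns hns => ?_
  obtain ⟨φ, hφ, u0, hu0⟩ := L3a W (fun j => u (ns j)) (|C| + 1) (fun j => hS2 (ns j))
    (fun j => hS1 (ns j))
  refine ⟨φ, ?_⟩
  suffices hu : u0 = ψ by
    rw [← hu]
    exact hu0
  have hφ' : Tendsto (fun j => ns (φ j)) atTop atTop := hns.comp hφ.tendsto_atTop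
  have key : ∀ ρ : ℝ, S2 (ball1 ρ) (W.V (u0 - ψ)) = 0 := by
    intro ρ
    by_contra hne
    -- choose `ε` below the value
    have hε : ∃ ε : ℝ, 0 < ε ∧ ENNReal.ofReal ε < S2 (ball1 ρ) (W.V (u0 - ψ)) := by
      have h1 : 0 < S2 (ball1 ρ) (W.V (u0 - ψ)) := pos_iff_ne_zero.2 hne
      obtain ⟨c, hc0, hc1⟩ := exists_between h1
      have hct : c ≠ ⊤ := (hc1.trans_le le_top).ne
      refine ⟨c.toReal, ENNReal.toReal_pos hc0.ne' hct, ?_⟩
      rwa [ENNReal.ofReal_toReal hct]
    obtain ⟨ε, hε0, hε1⟩ := hε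
    have h1 : Tendsto (fun j => x (ns (φ j))) atTop (nhds 0) := hx0.comp hφ'
    have h2 : ∀ᶠ j in atTop, x (ns (φ j)) < min (min ε 1) (1 / (2 * (|ρ| + 1))) := by
      refine h1.eventually_lt_const ?_
      positivity
    obtain ⟨J, hJ⟩ := eventually_atTop.1 h2
    have h3 : S2 (ball1 ρ) (W.V (u0 - ψ)) ≤ ENNReal.ofReal ε := by
      refine S2_fatou (ball1 ρ) (l20d_ball_meas ρ)
        (fun j => W.V (u (ns (φ (j + J))) - g (ns (φ (j + J))))) (W.V (u0 - ψ))
        (ENNReal.ofReal ε) (fun j => V_cont W _) ?_ ?_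
      · intro z
        have h4 : Tendsto (fun j => W.V (u (ns (φ j))) z) atTop (𝓝 (W.V u0 z)) := by
          unfold Weyl.V
          exact (continuous_const.inner continuous_id).continuousAt.tendsto.comp hu0
        have h5 : Tendsto (fun j => W.V (g (ns (φ j))) z) atTop (𝓝 (W.V ψ z)) :=
          ((tendstoLocallyUniformlyOn_univ.2 hg).tendsto_at (Set.mem_univ z)).comp hφ'
        have h6 := (h4.sub h5).comp (tendsto_add_atTop_nat J)
        rw [V_sub]
        refine h6.congr fun j => ?_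
        simp only [Function.comp]
        rw [V_sub]
      · intro j
        have h4 := hJ (j + J) (by omega)
        set y := x (ns (φ (j + J))) with hy
        have hy0 : 0 < y := hx _
        have h5 : y < ε := h4.trans_le ((min_le_left _ _).trans (min_le_left _ _))
        have h6 : y < 1 := h4.trans_le ((min_le_left _ _).trans (min_le_right _ _))
        have h7 : y < 1 / (2 * (|ρ| + 1)) := h4.trans_le (min_le_right _ _)
        have h8 : ρ ≤ 1 / (2 * y) := by
          have h9 : ρ ≤ |ρ| := le_abs_self ρ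
          rw [lt_div_iff₀ (by positivity)] at h7
          rw [le_div_iff₀ (by positivity)]
          nlinarith
        refine ((l20d_mono (l20d_ball_le ρ _ h8) _).trans (hl _)).trans
          (ENNReal.ofReal_le_ofReal ?_)
        calc y ^ 720 ≤ y := pow_le_of_le_one hy0.le h6.le (by norm_num)
          _ ≤ ε := h5.le
    exact absurd hε1 (not_lt.2 h3)
  exact sub_eq_zero.1 (l20d_zero W _ key)

end Pool.Agent.Helper84.HRT
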