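import Mathlib
import Pool.Agent.Helper84.HRT.DefsS
import Pool.Agent.Helper84.HRT.WB
import Pool.Agent.Helper84.HRT.YG
import Pool.Agent.Helper84.HRT.L2
import Pool.Agent.Helper84.HRT.WD
import Pool.Agent.Helper84.HRT.SB
import Pool.Agent.Helper84.HRT.SC

open MeasureTheory Complex Filter
open scoped ENNReal NNReal ComplexConjugate InnerProductSpace BigOperators Topology

namespace Pool.Agent.Helper84.HRT

variable {H : Type} [NormedAddCommGroup H] [InnerProductSpace ℂ H] [CompleteSpace H]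

/-! Weighted Lipschitz bound, moments, duality, interpolation. -/

private theorem sk_pw_pos (k : ℤ) (z : ℂ) : 0 < pw k z := by
  unfold pw
  positivity

private theorem sk_pw_cont (k : ℤ) : Continuous (pw k) := by
  unfold pw
  have h : Continuous fun z : ℂ => 1 + ‖z‖ := by fun_prop
  exact h.zpow₀ k fun z => Or.inl (by positivity)

/-- from L2a with the log-Lipschitz weight of `exists_logLip_pw 60` -/
theorem L2w (W : Weyl H) : ∃ C : ℝ, 0 < C ∧ ∀ (α β : ℂ), ‖α‖ = 1 → ‖β‖ = 1 → ∀ f : H,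
    S2 (pw 60) (W.V (W.U α f - W.U β f)) ≤
      ENNReal.ofReal (C * ‖α - β‖ ^ 2) * S2 (pw 61) (W.V f) := by
  obtain ⟨C, hC, h2⟩ := L2a
  obtain ⟨Y, c, hc, hY, hYc⟩ := exists_logLip_pw 60
  refine ⟨c ^ 2 * C * c ^ 2, by positivity, fun α β hα hβ f => ?_⟩
  have h1 : S2 (pw 60) (W.V (W.U α f - W.U β f)) ≤
      ENNReal.ofReal (c ^ 2) * S2 Y (W.V (W.U α f - W.U β f)) := by
    refine S2_mono hc.le _ fun z => ?_
    rw [abs_of_pos (sk_pw_pos _ _), abs_of_pos (hY.pos z)]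
    exact (hYc z).2
  have h3 : S2 (fun z => (1 + ‖z‖) * Y z) (W.V f) ≤ ENNReal.ofReal (c ^ 2) * S2 (pw 61) (W.V f) := by
    refine S2_mono hc.le _ fun z => ?_
    have hz : (0 : ℝ) < 1 + ‖z‖ := by positivity
    rw [abs_of_pos (sk_pw_pos _ _), abs_of_pos (mul_pos hz (hY.pos z))]
    have h4 : pw 61 z = (1 + ‖z‖) * pw 60 z := by
      unfold pw
      rw [show (61 : ℤ) = 1 + 60 by norm_num, zpow_add₀ hz.ne', zpow_one]
    rw [h4]
    calc (1 + ‖z‖) * Y z ≤ (1 + ‖z‖) * (c * pw 60 z) :=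
          mul_le_mul_of_nonneg_left (hYc z).1 hz.le
      _ = _ := by ring
  calc S2 (pw 60) (W.V (W.U α f - W.U β f))
      ≤ ENNReal.ofReal (c ^ 2) * S2 Y (W.V (W.U α f - W.U β f)) := h1
    _ ≤ ENNReal.ofReal (c ^ 2) * (ENNReal.ofReal (C * ‖α - β‖ ^ 2) *
        S2 (fun z => (1 + ‖z‖) * Y z) (W.V f)) := by
        gcongr
        exact h2 H W Y f α β hY hα hβ
    _ ≤ ENNReal.ofReal (c ^ 2) * (ENNReal.ofReal (C * ‖α - β‖ ^ 2) *
        (ENNReal.ofReal (c ^ 2) * S2 (pw 61) (W.V f))) := by gcongr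
    _ = ENNReal.ofReal (c ^ 2 * C * c ^ 2 * ‖α - β‖ ^ 2) * S2 (pw 61) (W.V f) := by
        rw [← mul_assoc, ← mul_assoc, ← ENNReal.ofReal_mul (by positivity),
          ← ENNReal.ofReal_mul (by positivity)]
        congr 2
        ring

private theorem sk_pw_sub (k : ℤ) (α z : ℂ) : pw k (z - α) ≤ (1 + ‖α‖) ^ k.natAbs * pw k z := by
  have hz : (0 : ℝ) < 1 + ‖z‖ := by positivity
  have hα : (0 : ℝ) < 1 + ‖α‖ := by positivity
  have hza : (0 : ℝ) < 1 + ‖z - α‖ := by positivity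
  have h1 : 1 + ‖z - α‖ ≤ (1 + ‖α‖) * (1 + ‖z‖) := by
    have := norm_sub_le z α
    nlinarith [norm_nonneg z, norm_nonneg α]
  have h2 : 1 + ‖z‖ ≤ (1 + ‖α‖) * (1 + ‖z - α‖) := by
    have h3 : ‖z‖ ≤ ‖z - α‖ + ‖α‖ := by
      have := norm_add_le (z - α) α
      simpa using this
    nlinarith [norm_nonneg (z - α), norm_nonneg α]
  unfold pw
  rcases le_total 0 k with hk | hk
  · obtain ⟨n, rfl⟩ := Int.eq_ofNat_of_zero_le hk
    simp only [zpow_natCast, Int.natAbs_natCast]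
    rw [← mul_pow]
    exact pow_le_pow_left₀ hza.le h1 n
  · obtain ⟨n, hn⟩ := Int.eq_ofNat_of_zero_le (neg_nonneg.2 hk)
    have hk' : k = -(n : ℤ) := by omega
    subst hk'
    simp only [zpow_neg, zpow_natCast, Int.natAbs_neg, Int.natAbs_natCast]
    rw [inv_le_iff_one_le_mul₀ (by positivity)]
    have h4 : (1 + ‖z‖) ^ n ≤ (1 + ‖α‖) ^ n * (1 + ‖z - α‖) ^ n := by
      rw [← mul_pow]
      exact pow_le_pow_left₀ hz.le h2 n
    have h5 : (0 : ℝ) < (1 + ‖z‖) ^ n := by positivity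
    calc (1 : ℝ) = (1 + ‖z‖) ^ n * ((1 + ‖z‖) ^ n)⁻¹ := by rw [mul_inv_cancel₀ h5.ne']
      _ ≤ ((1 + ‖α‖) ^ n * (1 + ‖z - α‖) ^ n) * ((1 + ‖z‖) ^ n)⁻¹ := by gcongr
      _ = _ := by ring

/-- moments of translated vectors -/
theorem S2_pw_U (W : Weyl H) (k : ℤ) (α : ℂ) (f : H) :
    S2 (pw k) (W.V (W.U α f)) ≤ ENNReal.ofReal ((1 + ‖α‖) ^ (2 * k.natAbs)) *
      S2 (pw k) (W.V f) := by
  have h1 : S2 (pw k) (W.V (W.U α f)) = S2 (fun z => pw k (z - α)) (W.V f) := by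
    unfold S2
    rw [← lintegral_add_right_eq_self (μ := dA)
      (fun z => ‖(((pw k (z - α) : ℝ)) : ℂ) * W.V f z‖ₑ ^ 2) α]
    refine lintegral_congr fun z => ?_
    rw [add_sub_cancel_right]
    congr 1
    rw [enorm_mul, enorm_mul]
    congr 1
    rw [← ofReal_norm, ← ofReal_norm, norm_V_U]
  rw [h1]
  have h2 := S2_mono (Y := fun z => pw k (z - α)) (Y' := pw k) (c := (1 + ‖α‖) ^ k.natAbs)
    (by positivity) (W.V f) (fun z => by
      rw [abs_of_pos (sk_pw_pos _ _), abs_of_pos (sk_pw_pos _ _)]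
      exact sk_pw_sub k α z)
  rw [← pow_mul, mul_comm k.natAbs 2] at h2
  exact h2

/-- duality of the weights (`inner_eq`, Cauchy-Schwarz) -/
theorem inner_pw (W : Weyl H) (k : ℤ) (f h : H) :
    ‖(inner ℂ f h : ℂ)‖ₑ ^ 2 ≤ S2 (pw k) (W.V f) * S2 (pw (-k)) (W.V h) := by
  have hmf : ∀ (j : ℤ) (g : H), AEMeasurable (fun z => ‖((pw j z : ℝ) : ℂ) * W.V g z‖ₑ) dA := by
    intro j g
    have h1 : Continuous fun z => ((pw j z : ℝ) : ℂ) * W.V g z :=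
      (Complex.continuous_ofReal.comp (sk_pw_cont j)).mul (V_cont W g)
    exact h1.enorm.measurable.aemeasurable
  have h1 : ‖(inner ℂ f h : ℂ)‖ₑ ≤
      ∫⁻ z, ((fun z => ‖((pw k z : ℝ) : ℂ) * W.V f z‖ₑ) *
        fun z => ‖((pw (-k) z : ℝ) : ℂ) * W.V h z‖ₑ) z ∂dA := by
    rw [inner_eq W f h]
    refine (enorm_integral_le_lintegral_enorm _).trans (le_of_eq ?_)
    refine lintegral_congr fun z => ?_
    rw [Pi.mul_apply, ← enorm_mul]
    have h2 : ((pw k z : ℝ) : ℂ) * ((pw (-k) z : ℝ) : ℂ) = 1 := by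
      rw [← Complex.ofReal_mul]
      have : pw k z * pw (-k) z = 1 := by
        unfold pw
        have hz : (0 : ℝ) < 1 + ‖z‖ := by positivity
        rw [← zpow_add₀ hz.ne', add_neg_cancel, zpow_zero]
      rw [this, Complex.ofReal_one]
    have h3 : ((pw k z : ℝ) : ℂ) * W.V f z * (((pw (-k) z : ℝ) : ℂ) * W.V h z) =
        W.V f z * W.V h z := by
      calc _ = (((pw k z : ℝ) : ℂ) * ((pw (-k) z : ℝ) : ℂ)) * (W.V f z * W.V h z) := by ring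
        _ = _ := by rw [h2, one_mul]
    rw [h3, enorm_mul, enorm_mul]
    congr 1
    rw [← ofReal_norm, ← ofReal_norm, Complex.norm_conj]
  have h4 := ENNReal.lintegral_mul_le_Lp_mul_Lq dA Real.HolderConjugate.two_two (hmf k f)
    (hmf (-k) h)
  have h5 := h1.trans h4
  have h6 : ∀ x y : ℝ≥0∞, (x ^ (1 / (2 : ℝ)) * y ^ (1 / (2 : ℝ))) ^ 2 = x * y := by
    intro x y
    rw [mul_pow, ← ENNReal.rpow_natCast, ← ENNReal.rpow_natCast, ← ENNReal.rpow_mul,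
      ← ENNReal.rpow_mul]
    norm_num
  calc ‖(inner ℂ f h : ℂ)‖ₑ ^ 2 ≤ _ := pow_le_pow_left' h5 2
    _ = _ := by
      rw [h6]
      unfold S2
      simp only [ENNReal.rpow_ofNat]

/-- interpolation (Hölder with exponents 6/5 and 6; `(-120)(5/6) + 600/6 = 0`) -/
theorem interp (W : Weyl H) (h : H) :
    (‖h‖ₑ ^ 2) ^ 6 ≤ S2 (pw (-60)) (W.V h) ^ 5 * S2 (pw 300) (W.V h) := by
  have hm : ∀ (j : ℤ) (g : H), Measurable (fun z => ‖((pw j z : ℝ) : ℂ) * W.V g z‖ₑ ^ 2) := by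
    intro j g
    have h1 : Continuous fun z => ((pw j z : ℝ) : ℂ) * W.V g z :=
      (Complex.continuous_ofReal.comp (sk_pw_cont j)).mul (V_cont W g)
    exact (h1.enorm.measurable).pow_const 2
  have h1 : ‖h‖ₑ ^ 2 = ∫⁻ z, ((fun z => (‖((pw (-60) z : ℝ) : ℂ) * W.V h z‖ₑ ^ 2) ^ (5 / 6 : ℝ)) *
      fun z => (‖((pw 300 z : ℝ) : ℂ) * W.V h z‖ₑ ^ 2) ^ (1 / 6 : ℝ)) z ∂dA := by
    rw [← W.isom h]
    refine lintegral_congr fun z => ?_
    change ‖W.V h z‖ₑ ^ 2 = _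
    rw [Pi.mul_apply]
    have hz : (0 : ℝ) < 1 + ‖z‖ := by positivity
    rw [enorm_mul, enorm_mul]
    have hp : ∀ j : ℤ, ‖((pw j z : ℝ) : ℂ)‖ₑ = ENNReal.ofReal (1 + ‖z‖) ^ (j : ℝ) := by
      intro j
      rw [← ofReal_norm, Complex.norm_real, Real.norm_of_nonneg (sk_pw_pos j z).le]
      unfold pw
      rw [← Real.rpow_intCast, ENNReal.ofReal_rpow_of_pos hz]
    rw [hp, hp]
    set a := ENNReal.ofReal (1 + ‖z‖) with ha
    have ha0 : a ≠ 0 := by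
      rw [ha]
      simpa using hz
    have ha1 : a ≠ ⊤ := ENNReal.ofReal_ne_top
    obtain ⟨b, hb⟩ : ∃ b, b = ‖W.V h z‖ₑ := ⟨_, rfl⟩
    have hb1 : b ≠ ⊤ := by rw [hb]; exact enorm_ne_top
    rw [← hb]
    have e1 : ((a ^ (((-60 : ℤ) : ℝ)) * b) ^ 2) ^ (5 / 6 : ℝ) = a ^ (-100 : ℝ) * b ^ (5 / 3 : ℝ) := by
      rw [← ENNReal.rpow_natCast, ← ENNReal.rpow_mul, ENNReal.mul_rpow_of_ne_top
        (ENNReal.rpow_ne_top_of_ne_zero ha0 ha1) hb1, ← ENNReal.rpow_mul]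
      norm_num
    have e2 : ((a ^ (((300 : ℤ) : ℝ)) * b) ^ 2) ^ (1 / 6 : ℝ) = a ^ (100 : ℝ) * b ^ (1 / 3 : ℝ) := by
      rw [← ENNReal.rpow_natCast, ← ENNReal.rpow_mul, ENNReal.mul_rpow_of_ne_top
        (ENNReal.rpow_ne_top_of_ne_zero ha0 ha1) hb1, ← ENNReal.rpow_mul]
      norm_num
    rw [e1, e2]
    calc b ^ 2 = (a ^ (-100 : ℝ) * a ^ (100 : ℝ)) * (b ^ (5 / 3 : ℝ) * b ^ (1 / 3 : ℝ)) := by
          rw [← ENNReal.rpow_add _ _ ha0 ha1, ← ENNReal.rpow_add_of_nonneg _ _ (by norm_num)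
            (by norm_num)]
          norm_num
      _ = _ := by ring
  have hpq : (6 / 5 : ℝ).HolderConjugate 6 := by
    rw [Real.holderConjugate_iff]
    norm_num
  have h2 := ENNReal.lintegral_mul_le_Lp_mul_Lq dA hpq
    (f := fun z => (‖((pw (-60) z : ℝ) : ℂ) * W.V h z‖ₑ ^ 2) ^ (5 / 6 : ℝ))
    (g := fun z => (‖((pw 300 z : ℝ) : ℂ) * W.V h z‖ₑ ^ 2) ^ (1 / 6 : ℝ))
    ((hm (-60) h).pow_const _).aemeasurable ((hm 300 h).pow_const _).aemeasurable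
  rw [← h1] at h2
  have e3 : ∀ x : ℝ≥0∞, (x ^ (5 / 6 : ℝ)) ^ (6 / 5 : ℝ) = x := by
    intro x
    rw [← ENNReal.rpow_mul]
    norm_num
  have e4 : ∀ x : ℝ≥0∞, (x ^ (1 / 6 : ℝ)) ^ (6 : ℝ) = x := by
    intro x
    rw [← ENNReal.rpow_mul]
    norm_num
  simp only [e3, e4] at h2
  calc (‖h‖ₑ ^ 2) ^ 6 ≤ _ := pow_le_pow_left' h2 6
    _ = _ := by
      unfold S2
      rw [mul_pow]
      congr 1
      · rw [← ENNReal.rpow_natCast, ← ENNReal.rpow_natCast, ← ENNReal.rpow_mul]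
        norm_num
      · rw [← ENNReal.rpow_natCast, ← ENNReal.rpow_mul]
        norm_num

end Pool.Agent.Helper84.HRT
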