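import Mathlib
import Pool.Agent.Helper84.HRT.DefsS
import Pool.Agent.Helper84.HRT.WA
import Pool.Agent.Helper84.HRT.WC
import Pool.Agent.Helper84.HRT.WB
import Pool.Agent.Helper84.HRT.XC
import Pool.Agent.Helper84.HRT.C5
import Pool.Agent.Helper84.HRT.SC
import Pool.Agent.Helper84.HRT.SG
import Pool.Agent.Helper84.HRT.SH
import Pool.Agent.Helper84.HRT.LIM
import Pool.Agent.Helper84.HRT.SJ
import Pool.Agent.Helper84.HRT.SK
import Pool.Agent.Helper84.HRT.L20C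
import Pool.Agent.Helper84.HRT.L20D

open MeasureTheory Complex Filter
open scoped ENNReal NNReal ComplexConjugate InnerProductSpace BigOperators Topology

namespace Pool.Agent.Helper84.HRT

variable {H : Type} [NormedAddCommGroup H] [InnerProductSpace ℂ H] [CompleteSpace H]

private theorem l20e_NN_ge (D : Data) (n : ℕ) : n ≤ D.NN n ∧ 1 ≤ D.NN n := by
  unfold Data.NN
  have h1 := Nat.self_le_factorial n
  have h2 := Nat.factorial_pos n
  have h3 := D.d0_pos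
  constructor
  · exact h1.trans (Nat.le_mul_of_pos_right _ h3)
  · exact Nat.mul_pos h2 h3

private theorem l20e_x_lim (D : Data) (n : ℕ → ℕ) (x : ℕ → ℝ) (hn : Tendsto n atTop atTop)
    (hx : ∀ j, 0 < x j) (hxN : ∀ j, x j ^ 40 * (D.NN (n j) : ℝ) ≤ 1) :
    Tendsto x atTop (nhds 0) := by
  rw [Metric.tendsto_nhds]
  intro ε hε
  obtain ⟨M, hM⟩ := exists_nat_gt ((ε ^ 40)⁻¹)
  filter_upwards [hn.eventually_ge_atTop M] with j hj
  have hx := hx j
  rw [Real.dist_eq, sub_zero, abs_of_pos hx]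
  have h1 : ((M : ℕ) : ℝ) ≤ (D.NN (n j) : ℝ) := by
    exact_mod_cast hj.trans (l20e_NN_ge D (n j)).1
  have h2 := hxN j
  have hε40 : 0 < ε ^ 40 := by positivity
  have h3 : (ε ^ 40)⁻¹ < (D.NN (n j) : ℝ) := hM.trans_le h1
  have h4 : x j ^ 40 < ε ^ 40 := by
    have h5 : 1 < ε ^ 40 * (D.NN (n j) : ℝ) := by
      have := mul_lt_mul_of_pos_left h3 hε40
      rwa [mul_inv_cancel₀ hε40.ne'] at this
    have h6 : 0 < (D.NN (n j) : ℝ) := lt_trans (inv_pos.2 hε40) h3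
    by_contra hcon
    push Not at hcon
    have h7 := mul_le_mul_of_nonneg_right hcon h6.le
    linarith
  exact lt_of_pow_lt_pow_left₀ 40 hε.le h4

/-- comparison of two mean square convergences -/
private theorem l20e_sq (A a : ℕ → ℝ → ℂ) (b c : ℝ → ℂ) (e : ℕ → ℝ) (he0 : ∀ j, 0 ≤ e j)
    (he : Tendsto e atTop (nhds 0))
    (h1 : ∀ j, ∀ᵐ t ∂(volume.restrict (Set.Ico (0 : ℝ) 1)),
      ‖A j t - c t‖ ≤ ‖a j t - b t‖ + e j)
    (h : Tendsto (fun j => ∫⁻ t in Set.Ico (0 : ℝ) 1, ‖a j t - b t‖ₑ ^ 2) atTop (nhds 0)) :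
    Tendsto (fun j => ∫⁻ t in Set.Ico (0 : ℝ) 1, ‖A j t - c t‖ₑ ^ 2) atTop (nhds 0) := by
  have hlim : Tendsto (fun j => 2 * (∫⁻ t in Set.Ico (0 : ℝ) 1, ‖a j t - b t‖ₑ ^ 2) +
      ENNReal.ofReal (2 * e j ^ 2)) atTop (nhds 0) := by
    have h2 : Tendsto (fun j => 2 * (∫⁻ t in Set.Ico (0 : ℝ) 1, ‖a j t - b t‖ₑ ^ 2)) atTop
        (nhds (2 * 0)) := ENNReal.Tendsto.const_mul h (Or.inr (by norm_num))
    have h3 : Tendsto (fun j => ENNReal.ofReal (2 * e j ^ 2)) atTop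
        (nhds (ENNReal.ofReal (2 * 0 ^ 2))) :=
      ENNReal.tendsto_ofReal ((he.pow 2).const_mul 2)
    have := h2.add h3
    simpa using this
  refine tendsto_of_tendsto_of_tendsto_of_le_of_le tendsto_const_nhds hlim
    (fun j => zero_le) (fun j => ?_)
  have e4 : ∀ z : ℂ, ‖z‖ₑ ^ 2 = ENNReal.ofReal (‖z‖ ^ 2) := by
    intro z
    rw [← ofReal_norm, ENNReal.ofReal_pow (norm_nonneg _)]
  calc ∫⁻ t in Set.Ico (0 : ℝ) 1, ‖A j t - c t‖ₑ ^ 2
      ≤ ∫⁻ t in Set.Ico (0 : ℝ) 1, (2 * ‖a j t - b t‖ₑ ^ 2 + ENNReal.ofReal (2 * e j ^ 2)) := by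
        refine lintegral_mono_ae ?_
        filter_upwards [h1 j] with t ht
        rw [e4, e4]
        have h3 : ‖A j t - c t‖ ^ 2 ≤ 2 * ‖a j t - b t‖ ^ 2 + 2 * e j ^ 2 := by
          have h5 := norm_nonneg (A j t - c t)
          have h6 := he0 j
          nlinarith [sq_nonneg (‖a j t - b t‖ - e j), norm_nonneg (a j t - b t)]
        calc ENNReal.ofReal (‖A j t - c t‖ ^ 2)
            ≤ ENNReal.ofReal (2 * ‖a j t - b t‖ ^ 2 + 2 * e j ^ 2) :=
              ENNReal.ofReal_le_ofReal h3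
          _ = _ := by
              rw [ENNReal.ofReal_add (by positivity) (by positivity),
                ENNReal.ofReal_mul (by norm_num), ENNReal.ofReal_ofNat]
    _ = 2 * (∫⁻ t in Set.Ico (0 : ℝ) 1, ‖a j t - b t‖ₑ ^ 2) + ENNReal.ofReal (2 * e j ^ 2) := by
        rw [lintegral_add_right _ measurable_const, lintegral_const,
          lintegral_const_mul' _ _ (by norm_num), Measure.restrict_apply_univ, Real.volume_Ico]
        simp

private theorem l20e_ball_mono {ρ ρ' : ℝ} (h : ρ ≤ ρ') (z : ℂ) : |ball1 ρ z| ≤ |ball1 ρ' z| := by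
  unfold ball1
  by_cases hz : z ∈ Metric.closedBall (0 : ℂ) ρ
  · rw [Set.indicator_of_mem hz,
      Set.indicator_of_mem (Metric.closedBall_subset_closedBall h hz)]
  · rw [Set.indicator_of_notMem hz]
    simp

private theorem l20e_coef {W : Weyl H} {D : Data} (F : Fam W D) (n : ℕ → ℕ)
    (hn : Tendsto n atTop atTop) (hn1 : ∀ j, F.n1 ≤ n j) (v : ℕ → ℂ) (τ : ℂ) (ξ ξ' : ℝ → ℂ)
    (hτ : ∀ᵐ t : ℝ, ξ' t = ξ t * chi τ (node t))
    (hc : Tendsto (fun j => ∫⁻ t in Set.Ico (0 : ℝ) 1,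
      ‖twN (D.NN (n j)) (v j) (F.ξs (n j)) t - ξ' t‖ₑ ^ 2) atTop (nhds 0)) :
    Tendsto (fun j => ∫⁻ t in Set.Ico (0 : ℝ) 1,
      ‖twN (D.NN (n j)) (v j + τ) (F.ξs (n j)) t - ξ t‖ₑ ^ 2) atTop (nhds 0) := by
  have hNt : Tendsto (fun j => (D.NN (n j) : ℝ)) atTop atTop :=
    tendsto_natCast_atTop_atTop.comp ((NN_tendsto D).comp hn)
  have hC0 := F.C0_pos
  have hpi := Real.pi_pos
  have hel : Tendsto (fun j => F.C0 * (2 * ‖τ‖ * (2 * Real.pi * (1 / (D.NN (n j) : ℝ)))))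
      atTop (nhds 0) := by
    have h1 : Tendsto (fun j => 1 / (D.NN (n j) : ℝ)) atTop (nhds 0) := by
      simp only [one_div]
      exact tendsto_inv_atTop_zero.comp hNt
    have h2 := ((h1.const_mul (2 * Real.pi)).const_mul (2 * ‖τ‖)).const_mul F.C0
    simpa using h2
  refine l20e_sq _ (fun j => twN (D.NN (n j)) (v j) (F.ξs (n j))) ξ' ξ _
    (fun j => by positivity) hel ?_ hc
  intro j
  have hτ' : ∀ᵐ t ∂(volume.restrict (Set.Ico (0 : ℝ) 1)), ξ' t = ξ t * chi τ (node t) :=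
    ae_restrict_of_ae hτ
  filter_upwards [hτ'] with t ht
  have hN : 0 < D.NN (n j) := NN_pos D _
  have hadm : D.AdmN (D.NN (n j)) (F.rs (n j)) (twN (D.NN (n j)) (v j) (F.ξs (n j))) :=
    (trA_mem F (hn1 j) (v j)).2
  have hat : ‖twN (D.NN (n j)) (v j) (F.ξs (n j)) t‖ ≤ F.C0 :=
    (AdmN.norm_le hN hadm (F.rs_nonneg _) t).trans (F.rs_le _)
  have e1 : twN (D.NN (n j)) (v j + τ) (F.ξs (n j)) t =
      twN (D.NN (n j)) (v j) (F.ξs (n j)) t * conj (chi τ (node (cell (D.NN (n j)) t))) := by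
    rw [← twN_twN]
    rfl
  have e2 : ξ t = ξ' t * conj (chi τ (node t)) := by
    rw [ht, mul_assoc, Complex.mul_conj, Complex.normSq_eq_norm_sq, chi_norm]
    norm_num
  have h5 : ‖chi τ (node (cell (D.NN (n j)) t)) - chi τ (node t)‖ ≤
      2 * ‖τ‖ * (2 * Real.pi * (1 / (D.NN (n j) : ℝ))) := by
    refine (chi_lip_right _ _ _).trans ?_
    refine mul_le_mul_of_nonneg_left ((node_lip _ _).trans ?_) (by positivity)
    refine mul_le_mul_of_nonneg_left ?_ (by positivity)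
    have h6 := cell_le hN t
    have h7 := lt_cell_add hN t
    rw [abs_le]
    constructor <;> linarith
  rw [e1, e2]
  generalize twN (D.NN (n j)) (v j) (F.ξs (n j)) t = a at hat ⊢
  have e3 : a * conj (chi τ (node (cell (D.NN (n j)) t))) - ξ' t * conj (chi τ (node t)) =
      (a - ξ' t) * conj (chi τ (node t)) +
      a * conj (chi τ (node (cell (D.NN (n j)) t)) - chi τ (node t)) := by
    rw [map_sub]
    ring
  rw [e3]
  refine (norm_add_le _ _).trans ?_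
  rw [norm_mul, norm_mul, RCLike.norm_conj, RCLike.norm_conj, chi_norm, mul_one]
  exact add_le_add le_rfl (mul_le_mul hat h5 (norm_nonneg _) hC0.le)

private theorem l20e_base (D : Data) (v : ℕ → ℂ) (τ : ℂ) (a : ℕ → Fin D.m → ℂ) (b : Fin D.m → ℂ)
    (h : Tendsto (fun j => D.tw (v j) (a j)) atTop (nhds b)) :
    Tendsto (fun j => D.tw (v j + τ) (a j)) atTop (nhds (D.tw τ b)) := by
  have e : (fun j => D.tw (v j + τ) (a j)) = fun j => D.tw τ (D.tw (v j) (a j)) := by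
    funext j
    rw [tw_tw]
  rw [e]
  have hcont : Continuous fun γ : Fin D.m → ℂ => D.tw τ γ := by
    unfold Data.tw
    fun_prop
  exact (hcont.tendsto b).comp h

/-- L20.1. For both sequences normalise the vectors (`ctr_normalise`), `LIM` (twice, `lim_comp`),
helper79's C5 (ratio of the two limits: `τ` with `ξ' = ξ χ_τ` a.e.; file
Pool/Agent/Helper79/HRT/Coset.lean), `Loc` (for large `j`), `loc_tendsto`; second vector
`y = U τ u'`, `tr_apply_U`, `tr_tr`, `opt_shift`, `S2_pw_U`, `tw_tw`, `twN_twN`. -/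
theorem exists_pair {W : Weyl H} {D : Data} (F : Fam W D) (R0 δ0 : ℝ) (hL : F.Loc R0 δ0)
    (n : ℕ → ℕ) (x : ℕ → ℝ) (w w' : ℕ → ℂ) (g g' : ℕ → H) (hn : Tendsto n atTop atTop)
    (hn1 : ∀ j, F.n1 ≤ n j) (hx : ∀ j, 0 < x j) (hxN : ∀ j, x j ^ 40 * (D.NN (n j) : ℝ) ≤ 1)
    (hs : ∀ j, F.SepR R0 δ0 (n j) (x j ^ 8)) (hc : ∀ j, F.Ctr (n j) (x j ^ 400) (w j) (g j))
    (hc' : ∀ j, F.Ctr (n j) (x j ^ 400) (w' j) (g' j)) :
    ∃ (C1 : ℝ) (τ : ℂ) (φ : ℕ → ℕ), StrictMono φ ∧ ∃ P : Fam.Pair F R0 δ0 C1,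
      P.n = n ∘ φ ∧ P.x = x ∘ φ ∧ P.w = w ∘ φ ∧ P.v = fun j => w' (φ j) + τ := by
  obtain ⟨CL, x0, hCL, hx0, hloc⟩ := hL
  choose G hG hG1 using fun j => ctr_normalise (hc j)
  choose G' hG' hG1' using fun j => ctr_normalise (hc' j)
  have hxl := l20e_x_lim D n x hn hx hxN
  have hdel : Tendsto (fun j => x j ^ 400) atTop (nhds 0) := by
    simpa using hxl.pow 400
  obtain ⟨φ1, hφ1, γ, ξ, ψ, L1⟩ := LIM F n hn hn1 (fun j => x j ^ 400)
    (fun j => by have := hx j; positivity) hdel w G hG hG1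
  have hφ1t := hφ1.tendsto_atTop
  obtain ⟨φ2, hφ2, γ', ξ', ψ', L2⟩ := LIM F (n ∘ φ1) (hn.comp hφ1t) (fun j => hn1 _)
    (fun j => x (φ1 j) ^ 400) (fun j => by have := hx (φ1 j); positivity) (hdel.comp hφ1t)
    (w' ∘ φ1) (G' ∘ φ1) (fun j => hG' _) (fun j => hG1' _)
  have hφ2t := hφ2.tendsto_atTop
  have L1' := lim_comp L1 φ2 hφ2
  obtain ⟨τ, hτ, -⟩ := pair_lemma F ((n ∘ φ1) ∘ φ2) ((hn.comp hφ1t).comp hφ2t) L1' L2
  -- large j
  have hR : 4 ≤ F.R := F.R_ge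
  have hxl2 : Tendsto (fun j => x (φ1 (φ2 j))) atTop (nhds 0) := (hxl.comp hφ1t).comp hφ2t
  have hpos : 0 < min x0 (1 / (80 * F.R)) := by positivity
  obtain ⟨J, hJ⟩ := eventually_atTop.1 (hxl2.eventually_lt_const hpos)
  set θ : ℕ → ℕ := fun j => J + j with hθ
  have hθm : StrictMono θ := fun i j hij => Nat.add_lt_add_left hij J
  have hθt := hθm.tendsto_atTop
  set φ : ℕ → ℕ := fun j => φ1 (φ2 (θ j)) with hφ
  have hφm : StrictMono φ := hφ1.comp (hφ2.comp hθm)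
  have hφt := hφm.tendsto_atTop
  have A1 := lim_comp L1' θ hθm
  have A2 := lim_comp L2 θ hθm
  have hxφ : ∀ j, x (φ j) < min x0 (1 / (80 * F.R)) := fun j => hJ _ (Nat.le_add_right _ _)
  have hxφ0 : ∀ j, x (φ j) ≤ x0 := fun j => (hxφ j).le.trans (min_le_left _ _)
  have hxφR : ∀ j, 40 * F.R ≤ 1 / (2 * x (φ j)) := by
    intro j
    have h1 := (hxφ j).le.trans (min_le_right _ _)
    have h2 := hx (φ j)
    rw [le_div_iff₀ (by positivity)] at h1 ⊢
    linarith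
  choose u hu1 hu2 hu3 hu4 using fun j => hloc (n (φ j)) (hn1 _) (x (φ j)) (hx _) (hxφ0 j)
    (hs _) (w (φ j)) (G (φ j)) (hG _) (hG1 _)
  choose u' hu1' hu2' hu3' hu4' using fun j => hloc (n (φ j)) (hn1 _) (x (φ j)) (hx _) (hxφ0 j)
    (hs _) (w' (φ j)) (G' (φ j)) (hG' _) (hG1' _)
  have hxlφ : Tendsto (fun j => x (φ j)) atTop (nhds 0) := hxl.comp hφt
  have hul : Tendsto u atTop (nhds ψ) :=
    loc_tendsto W u (fun j => G (φ j)) (fun j => x (φ j)) ψ CL (fun j => hx _) hxlφ hu2 hu4 A1.vec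
  have hul' : Tendsto u' atTop (nhds ψ') :=
    loc_tendsto W u' (fun j => G' (φ j)) (fun j => x (φ j)) ψ' CL (fun j => hx _) hxlφ hu2' hu4'
      A2.vec
  set C1 : ℝ := (1 + ‖τ‖) ^ 600 * CL with hC1
  have hone : 1 ≤ (1 + ‖τ‖) ^ 600 := one_le_pow₀ (le_add_of_nonneg_right (norm_nonneg τ))
  have hCC : CL ≤ C1 := le_mul_of_one_le_left (zero_le_one.trans hCL) hone
  refine ⟨C1, τ, φ, hφm, ⟨n ∘ φ, x ∘ φ, w ∘ φ, fun j => w' (φ j) + τ, fun j => G (φ j), u,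
    fun j => W.U τ (u' j), γ, D.tw τ γ', ξ, ψ, W.U τ ψ', hn.comp hφt, fun j => hn1 _,
    fun j => hx _, fun j => hxN _, fun j => hs _, fun j => hG _, fun j => hG1 _, hu1, ?_, ?_, ?_,
    ?_, hul, ?_, A1.opt, ?_, A1.base, ?_, A1.coef, ?_, A1.rad, A1.one, A1.tight⟩,
    rfl, rfl, rfl, rfl⟩
  · -- near_y
    intro j
    change ‖tr W (w' (φ j) + τ) (F.A (n (φ j))) (W.U τ (u' j))‖ ≤ x (φ j) ^ 380
    rw [← tr_tr, tr_apply_U, W.norm_U]
    exact hu1' j
  · -- mom_u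
    intro j
    exact (hu2 j).trans (ENNReal.ofReal_le_ofReal hCC)
  · -- mom_y
    intro j
    refine (S2_pw_U W 300 τ (u' j)).trans ?_
    have e : 2 * (300 : ℤ).natAbs = 600 := rfl
    rw [e, hC1, ENNReal.ofReal_mul (by positivity)]
    gcongr
    exact hu2' j
  · -- loc
    intro j
    exact (S2_mono2 fun z => by
      have := l20e_ball_mono (hxφR j) z
      gcongr).trans (hu4 j)
  · -- lim_y
    exact ((W.U τ).continuous.tendsto ψ').comp hul'
  · -- opt2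
    refine opt_shift A2.opt τ ξ A1.opt.adm.meas ?_
    filter_upwards [hτ] with t ht
    unfold twx
    rw [ht, mul_assoc, Complex.mul_conj, Complex.normSq_eq_norm_sq, chi_norm]
    norm_num
  · -- base2
    exact l20e_base D (fun j => w' (φ j)) τ (fun j => F.γs (n (φ j))) γ' A2.base
  · -- coef2
    exact l20e_coef F (n ∘ φ) (hn.comp hφt) (fun j => hn1 _) (fun j => w' (φ j)) τ ξ ξ' hτ A2.coef

end Pool.Agent.Helper84.HRT
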