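import Mathlib
import Pool.Agent.Helper84.HRT.DefsS
import Pool.Agent.Helper84.HRT.WA

open MeasureTheory Complex Filter
open scoped ENNReal NNReal ComplexConjugate InnerProductSpace BigOperators Topology

namespace Pool.Agent.Helper84.HRT

variable {H : Type} [NormedAddCommGroup H] [InnerProductSpace ℂ H] [CompleteSpace H]

/-! More on ambiguity functions (`mf_cont, mf_half, mf_norm_le, mf_U` are in L11F). -/

theorem mf_per (W : Weyl H) (ψ : H) (t : ℝ) : mf W ψ (t + 1) = mf W ψ t := by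
  unfold mf
  rw [node_add_one]

theorem mf_sub_le (W : Weyl H) (f h : H) (t : ℝ) :
    ‖mf W f t - mf W h t‖ ≤ ‖f - h‖ * (‖f‖ + ‖h‖) := by
  have e : mf W f t - mf W h t =
      inner ℂ f (W.U (node t) (f - h)) + inner ℂ (f - h) (W.U (node t) h) := by
    unfold mf
    rw [map_sub, inner_sub_right, inner_sub_left]
    ring
  rw [e]
  refine (norm_add_le _ _).trans ?_
  have h1 := norm_inner_le_norm (𝕜 := ℂ) f (W.U (node t) (f - h))
  have h2 := norm_inner_le_norm (𝕜 := ℂ) (f - h) (W.U (node t) h)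
  rw [W.norm_U] at h1 h2
  calc _ ≤ ‖f‖ * ‖f - h‖ + ‖f - h‖ * ‖h‖ := add_le_add h1 h2
    _ = ‖f - h‖ * (‖f‖ + ‖h‖) := by ring

private theorem l20a_sq (a : ℂ) : conj a * a = ((‖a‖ ^ 2 : ℝ) : ℂ) := by
  rw [mul_comm, Complex.mul_conj, Complex.normSq_eq_norm_sq]

theorem mf_smul (W : Weyl H) (a : ℂ) (f : H) (t : ℝ) :
    mf W (a • f) t = ((‖a‖ ^ 2 : ℝ) : ℂ) * mf W f t := by
  unfold mf
  rw [map_smul, inner_smul_left, inner_smul_right, ← mul_assoc, l20a_sq]

theorem mf_expand (W : Weyl H) (u y : H) (a : ℂ) (t : ℝ) :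
    mf W y t - ((‖a‖ ^ 2 : ℝ) : ℂ) * mf W u t =
      conj a * inner ℂ u (W.U (node t) (y - a • u)) + a * inner ℂ (y - a • u) (W.U (node t) u) +
        inner ℂ (y - a • u) (W.U (node t) (y - a • u)) := by
  unfold mf
  rw [← l20a_sq]
  simp only [map_sub, map_smul, inner_sub_left, inner_sub_right, inner_smul_left,
    inner_smul_right]
  ring

end Pool.Agent.Helper84.HRT
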