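import Mathlib
import Pool.Agent.Helper84.HRT.DefsS
import Pool.Agent.Helper84.HRT.WD

open MeasureTheory Complex Filter
open scoped ENNReal NNReal ComplexConjugate InnerProductSpace BigOperators Topology

namespace Pool.Agent.Helper84.HRT

variable {H : Type} [NormedAddCommGroup H] [InnerProductSpace ℂ H] [CompleteSpace H]

variable {W : Weyl H} {D : Data} {F : Fam W D} {R0 δ0 C1 : ℝ}

private theorem l20f_NN_ge (D : Data) (n : ℕ) : n ≤ D.NN n ∧ 1 ≤ D.NN n := by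
  unfold Data.NN
  have h1 := Nat.self_le_factorial n
  have h2 := Nat.factorial_pos n
  have h3 := D.d0_pos
  constructor
  · exact h1.trans (Nat.le_mul_of_pos_right _ h3)
  · exact Nat.mul_pos h2 h3

theorem pair_x_lim (P : Fam.Pair F R0 δ0 C1) : Tendsto P.x atTop (nhds 0) := by
  rw [Metric.tendsto_nhds]
  intro ε hε
  obtain ⟨M, hM⟩ := exists_nat_gt ((ε ^ 40)⁻¹)
  filter_upwards [P.n_lim.eventually_ge_atTop M] with j hj
  have hx := P.x_pos j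
  rw [Real.dist_eq, sub_zero, abs_of_pos hx]
  have h1 : ((M : ℕ) : ℝ) ≤ (D.NN (P.n j) : ℝ) := by
    exact_mod_cast hj.trans (l20f_NN_ge D (P.n j)).1
  have h2 := P.x_N j
  have hε40 : 0 < ε ^ 40 := by positivity
  have h3 : (ε ^ 40)⁻¹ < (D.NN (P.n j) : ℝ) := hM.trans_le h1
  have h4 : P.x j ^ 40 < ε ^ 40 := by
    have h5 : 1 < ε ^ 40 * (D.NN (P.n j) : ℝ) := by
      have := mul_lt_mul_of_pos_left h3 hε40
      rwa [mul_inv_cancel₀ hε40.ne'] at this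
    have h6 : 0 < (D.NN (P.n j) : ℝ) := lt_trans (inv_pos.2 hε40) h3
    by_contra hcon
    push Not at hcon
    have h7 := mul_le_mul_of_nonneg_right hcon h6.le
    linarith
  exact lt_of_pow_lt_pow_left₀ 40 hε.le h4

theorem pair_x_le (P : Fam.Pair F R0 δ0 C1) (j : ℕ) : P.x j ≤ 1 := by
  have hx := P.x_pos j
  have h1 := P.x_N j
  have h2 : (1 : ℝ) ≤ (D.NN (P.n j) : ℝ) := by exact_mod_cast (l20f_NN_ge D (P.n j)).2
  by_contra hcon
  push Not at hcon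
  have h3 : 1 < P.x j ^ 40 := one_lt_pow₀ hcon (by norm_num)
  nlinarith

/-- `√N x^20 ≤ 1` -/
theorem pair_sqrt_le (P : Fam.Pair F R0 δ0 C1) (j : ℕ) :
    Real.sqrt (D.NN (P.n j)) * P.x j ^ 20 ≤ 1 := by
  have h1 := P.x_N j
  have h2 : (Real.sqrt (D.NN (P.n j)) * P.x j ^ 20) ^ 2 ≤ 1 := by
    rw [mul_pow, Real.sq_sqrt (Nat.cast_nonneg _), ← pow_mul, mul_comm]
    exact h1
  by_contra hcon
  push Not at hcon
  nlinarith

private theorem l20f_norm_chi (w α : ℂ) : ‖chi w α‖ = 1 := by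
  unfold chi
  rw [← Complex.ofReal_neg]
  exact Complex.norm_exp_ofReal_mul_I _

private theorem l20f_sub_one (c : ℂ) (hc : ‖c‖ = 1) : ‖c - 1‖ = |2 * Real.sin (c.arg / 2)| := by
  have h1 : c = cexp (I * (c.arg : ℂ)) := by
    have h2 := Complex.norm_mul_exp_arg_mul_I c
    rw [hc, Complex.ofReal_one, one_mul, mul_comm] at h2
    exact h2.symm
  conv_lhs => rw [h1]
  rw [Complex.norm_exp_I_mul_ofReal_sub_one, Real.norm_eq_abs]

private theorem l20f_arg_le (c : ℂ) (hc : ‖c‖ = 1) : |c.arg| ≤ Real.pi / 2 * ‖c - 1‖ := by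
  rw [l20f_sub_one c hc]
  have h1 := Complex.abs_arg_le_pi c
  have hpi := Real.pi_pos
  have h2 : |c.arg / 2| ≤ Real.pi / 2 := by
    rw [abs_div, abs_two]
    linarith
  have h3 := Real.mul_abs_le_abs_sin h2
  rw [abs_mul, abs_two]
  rw [abs_div, abs_two] at h3
  have h4 : |c.arg| = Real.pi / 2 * (2 * (2 / Real.pi * (|c.arg| / 2))) := by
    field_simp
  calc |c.arg| = Real.pi / 2 * (2 * (2 / Real.pi * (|c.arg| / 2))) := h4
    _ ≤ Real.pi / 2 * (2 * |Real.sin (c.arg / 2)|) := by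
        gcongr

private theorem l20f_le_arg (c : ℂ) (hc : ‖c‖ = 1) : ‖c - 1‖ ≤ |c.arg| := by
  rw [l20f_sub_one c hc, abs_mul, abs_two]
  have h1 : |Real.sin (c.arg / 2)| ≤ |c.arg / 2| := Real.abs_sin_le_abs
  rw [abs_div, abs_two] at h1
  linarith

theorem pair_ph_le (P : Fam.Pair F R0 δ0 C1) (j : ℕ) (k : ℤ) :
    |P.ph j k| ≤ Real.pi / 2 * ‖chi (P.w j - P.v j) (node (P.nd j k)) - 1‖ :=
  l20f_arg_le _ (l20f_norm_chi _ _)

theorem pair_le_ph (P : Fam.Pair F R0 δ0 C1) (j : ℕ) (k : ℤ) :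
    ‖chi (P.w j - P.v j) (node (P.nd j k)) - 1‖ ≤ |P.ph j k| :=
  l20f_le_arg _ (l20f_norm_chi _ _)

private theorem l20f_node_add_int (t : ℝ) (q : ℤ) : node (t + q) = node t := by
  unfold node
  rw [Complex.exp_eq_exp_iff_exists_int]
  refine ⟨q, ?_⟩
  push_cast
  ring

private theorem l20f_ph_mod (P : Fam.Pair F R0 δ0 C1) (j : ℕ) (k : ℤ) :
    P.ph j k = P.ph j (k % (D.NN (P.n j) : ℤ)) := by
  have hN : (0 : ℝ) < (D.NN (P.n j) : ℝ) := by
    have := (l20f_NN_ge D (P.n j)).2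
    exact_mod_cast this
  have h1 : P.nd j k = P.nd j (k % (D.NN (P.n j) : ℤ)) + ((k / (D.NN (P.n j) : ℤ) : ℤ) : ℝ) := by
    unfold Fam.Pair.nd
    have h2 : ((k : ℤ) : ℝ) = ((k % (D.NN (P.n j) : ℤ) : ℤ) : ℝ) +
        (D.NN (P.n j) : ℝ) * ((k / (D.NN (P.n j) : ℤ) : ℤ) : ℝ) := by
      have h3 := Int.emod_add_mul_ediv k (D.NN (P.n j) : ℤ)
      exact_mod_cast h3.symm
    rw [h2]
    field_simp
  unfold Fam.Pair.ph
  rw [h1, l20f_node_add_int]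

theorem pair_exists_isMax (P : Fam.Pair F R0 δ0 C1) : ∃ Φ : ℕ → ℝ, P.IsMax Φ := by
  have h : ∀ j, ∃ Φ : ℝ, (∀ k : ℤ, |P.ph j k| ≤ Φ) ∧ ∃ k : ℤ, |P.ph j k| = Φ := by
    intro j
    have hN := (l20f_NN_ge D (P.n j)).2
    obtain ⟨k0, hk0, hmax⟩ := Finset.exists_max_image (Finset.range (D.NN (P.n j)))
      (fun k : ℕ => |P.ph j (k : ℤ)|) ⟨0, Finset.mem_range.2 hN⟩
    refine ⟨|P.ph j (k0 : ℤ)|, fun k => ?_, k0, rfl⟩
    rw [l20f_ph_mod P j k]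
    have hNz : (0 : ℤ) < (D.NN (P.n j) : ℤ) := by exact_mod_cast hN
    have h1 := Int.emod_nonneg k hNz.ne'
    have h2 := Int.emod_lt_of_pos k hNz
    obtain ⟨m, hm⟩ := Int.eq_ofNat_of_zero_le h1
    rw [hm] at h2 ⊢
    exact hmax m (Finset.mem_range.2 (by exact_mod_cast h2))
  choose Φ hΦ using h
  exact ⟨Φ, hΦ⟩

theorem pair_max_lim (P : Fam.Pair F R0 δ0 C1) (Φ : ℕ → ℝ) (hΦ : P.IsMax Φ) (h1 : P.ToOne) :
    Tendsto Φ atTop (nhds 0) := by
  rw [Metric.tendsto_nhds]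
  intro ε hε
  have hpi := Real.pi_pos
  filter_upwards [h1 (ε / Real.pi) (by positivity)] with j hj
  obtain ⟨k, hk⟩ := (hΦ j).2
  rw [Real.dist_eq, sub_zero, ← hk, abs_abs]
  have h2 := pair_ph_le P j k
  have h3 := hj k
  calc |P.ph j k| ≤ Real.pi / 2 * ‖chi (P.w j - P.v j) (node (P.nd j k)) - 1‖ := h2
    _ ≤ Real.pi / 2 * (ε / Real.pi) := by gcongr
    _ = ε / 2 := by field_simp
    _ < ε := by linarith

private theorem l20f_norm (W : Weyl H) (f : H) (C : ℝ)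
    (h : S2 (pw 300) (W.V f) ≤ ENNReal.ofReal C) : ‖f‖ ^ 2 ≤ max C 0 := by
  have h1 : S2 (fun _ => 1) (W.V f) ≤ S2 (pw 300) (W.V f) := by
    unfold S2
    refine lintegral_mono fun z => ?_
    have h2 : ‖((1 : ℝ) : ℂ) * W.V f z‖ ≤ ‖((pw 300 z : ℝ) : ℂ) * W.V f z‖ := by
      rw [norm_mul, norm_mul, Complex.norm_real, Complex.norm_real]
      refine mul_le_mul_of_nonneg_right ?_ (norm_nonneg _)
      have h3 : (1 : ℝ) ≤ pw 300 z := by
        unfold pw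
        have h4 : (1 : ℝ) ≤ 1 + ‖z‖ := by linarith [norm_nonneg z]
        exact one_le_zpow₀ h4 (by norm_num)
      rw [Real.norm_eq_abs, Real.norm_eq_abs, abs_one]
      exact h3.trans (le_abs_self _)
    have h3 : ‖((1 : ℝ) : ℂ) * W.V f z‖ₑ ≤ ‖((pw 300 z : ℝ) : ℂ) * W.V f z‖ₑ := by
      rw [← ofReal_norm, ← ofReal_norm]
      exact ENNReal.ofReal_le_ofReal h2
    exact pow_le_pow_left' h3 2
  rw [S2_V] at h1
  have h2 := h1.trans h
  rcases ENNReal.ofReal_le_ofReal_iff'.1 h2 with h3 | h3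
  · exact h3.trans (le_max_left _ _)
  · exact h3.trans (le_max_right _ _)

theorem pair_norm_u (P : Fam.Pair F R0 δ0 C1) (j : ℕ) :
    ‖P.u j‖ ^ 2 ≤ max C1 0 ∧ ‖P.y j‖ ^ 2 ≤ max C1 0 :=
  ⟨l20f_norm W _ _ (P.mom_u j), l20f_norm W _ _ (P.mom_y j)⟩

end Pool.Agent.Helper84.HRT
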