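import Mathlib
import Pool.Agent.Helper84.HRT.DefsS
import Pool.Agent.Helper84.HRT.C5

/-!
# L20G: the two limit phases agree
-/

open MeasureTheory Complex Filter
open scoped ENNReal NNReal ComplexConjugate InnerProductSpace BigOperators Topology

namespace Pool.Agent.Helper84.HRT

variable {H : Type} [NormedAddCommGroup H] [InnerProductSpace ℂ H] [CompleteSpace H]

variable {W : Weyl H} {D : Data} {F : Fam W D} {R0 δ0 C1 : ℝ}

/-- the two limit phases agree -/
theorem pair_phase_eq (P : Fam.Pair F R0 δ0 C1) (t : ℝ) (h1 : mf W P.ψ t ≠ 0)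
    (h2 : mf W P.ψ2 t ≠ 0) :
    mf W P.ψ2 t / (‖mf W P.ψ2 t‖ : ℂ) = mf W P.ψ t / (‖mf W P.ψ t‖ : ℂ) := by
  have h := congrArg conj (opt_phase_eq P.opt P.opt2 t h1 h2)
  simpa only [map_div₀, Complex.conj_conj, Complex.conj_ofReal] using h

end Pool.Agent.Helper84.HRT
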