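import Mathlib
import Pool.Agent.Helper84.HRT.DefsS
import Pool.Agent.Helper84.HRT.WA
import Pool.Agent.Helper84.HRT.WC
import Pool.Agent.Helper84.HRT.XB
import Pool.Agent.Helper84.HRT.XC
import Pool.Agent.Helper84.HRT.L11F
import Pool.Agent.Helper84.HRT.SH

open MeasureTheory Complex Filter
open scoped ENNReal NNReal ComplexConjugate InnerProductSpace BigOperators Topology

namespace Pool.Agent.Helper84.HRT

variable {H : Type} [NormedAddCommGroup H] [InnerProductSpace ℂ H] [CompleteSpace H]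

theorem l20b_floor_cell {N : ℕ} (hN : 0 < N) (t : ℝ) : ⌊(N : ℝ) * cell N t⌋ = ⌊(N : ℝ) * t⌋ := by
  have hN' : (N : ℝ) ≠ 0 := by exact_mod_cast hN.ne'
  unfold cell
  rw [mul_div_cancel₀ _ hN']
  exact Int.floor_intCast _

theorem l20b_floor_half {h : ℕ} (t : ℝ) :
    ⌊((2 * h : ℕ) : ℝ) * (t + 1 / 2)⌋ = ⌊((2 * h : ℕ) : ℝ) * t⌋ + h := by
  have : ((2 * h : ℕ) : ℝ) * (t + 1 / 2) = ((2 * h : ℕ) : ℝ) * t + (h : ℤ) := by
    push_cast; ring
  rw [this, Int.floor_add_intCast]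

theorem l20b_floor_grid {N : ℕ} (hN : 0 < N) (j : ℤ) : ⌊(N : ℝ) * ((j : ℝ) / N)⌋ = j := by
  have hN' : (N : ℝ) ≠ 0 := by exact_mod_cast hN.ne'
  rw [mul_div_cancel₀ _ hN']
  exact Int.floor_intCast _

/-- the bump -/
noncomputable def l20b_eta (N h : ℕ) (k : ℤ) (z : ℂ) (x : ℤ) : ℂ :=
  (if (N : ℤ) ∣ x - k then z else 0) + (if (N : ℤ) ∣ x - k - h then conj z else 0)

theorem l20b_eta_half (h : ℕ) (k : ℤ) (z : ℂ) (x : ℤ) :
    l20b_eta (2 * h) h k z (x + h) = conj (l20b_eta (2 * h) h k z x) := by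
  unfold l20b_eta
  have h1 : (((2 * h : ℕ) : ℤ) ∣ x + h - k) ↔ (((2 * h : ℕ) : ℤ) ∣ x - k - h) := by
    constructor
    · intro hd
      have := dvd_sub hd (dvd_refl ((2 * h : ℕ) : ℤ))
      have e : x + h - k - ((2 * h : ℕ) : ℤ) = x - k - h := by push_cast; ring
      rwa [e] at this
    · intro hd
      have := dvd_add hd (dvd_refl ((2 * h : ℕ) : ℤ))
      have e : x - k - h + ((2 * h : ℕ) : ℤ) = x + h - k := by push_cast; ring
      rwa [e] at this
  have h2 : x + h - k - h = x - k := by ring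
  rw [h2]
  rw [if_congr h1 rfl rfl, map_add]
  by_cases a : (((2 * h : ℕ) : ℤ) ∣ x - k) <;> by_cases b : (((2 * h : ℕ) : ℤ) ∣ x - k - h)
  · rw [if_pos a, if_pos a, if_pos b, if_pos b, Complex.conj_conj, add_comm]
  · rw [if_pos a, if_pos a, if_neg b, if_neg b, map_zero, add_comm]
  · rw [if_neg a, if_neg a, if_pos b, if_pos b, Complex.conj_conj, map_zero, add_comm]
  · rw [if_neg a, if_neg a, if_neg b, if_neg b, map_zero]

theorem l20b_per {c : ℝ → ℂ} (hc : ∀ t, c (t + 1) = c t) {N : ℕ} (hN : 0 < N) {x k : ℤ}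
    (h : (N : ℤ) ∣ x - k) : c ((x : ℝ) / N) = c ((k : ℝ) / N) := by
  obtain ⟨j, hj⟩ := h
  have hN' : (N : ℝ) ≠ 0 := by exact_mod_cast hN.ne'
  have hp : Function.Periodic c 1 := hc
  have e : (x : ℝ) / N = (k : ℝ) / N + (j : ℤ) * 1 := by
    have : (x : ℝ) = k + N * j := by
      have : x = k + N * j := by linarith
      exact_mod_cast this
    rw [this]; field_simp
  rw [e]
  exact hp.int_mul j _

theorem l20b_kper {κ : ℝ → ℝ} (hc : ∀ t, κ (t + 1) = κ t) {N : ℕ} (hN : 0 < N) {x k : ℤ}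
    (h : (N : ℤ) ∣ x - k) : κ ((x : ℝ) / N) = κ ((k : ℝ) / N) := by
  obtain ⟨j, hj⟩ := h
  have hN' : (N : ℝ) ≠ 0 := by exact_mod_cast hN.ne'
  have hp : Function.Periodic κ 1 := hc
  have e : (x : ℝ) / N = (k : ℝ) / N + (j : ℤ) * 1 := by
    have : (x : ℝ) = k + N * j := by
      have : x = k + N * j := by linarith
      exact_mod_cast this
    rw [this]; field_simp
  rw [e]
  exact hp.int_mul j _

theorem l20b_sum {N : ℕ} (hN : 0 < N) (k : ℤ) (f : ℝ → H) (hf : ∀ t, f (t + 1) = f t) (z : ℂ) :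
    ∑ j ∈ Finset.range N, (if (N : ℤ) ∣ (j : ℤ) - k then z else 0) • f ((j : ℝ) / N) =
      z • f ((k : ℝ) / N) := by
  have hNz : (0 : ℤ) < N := by exact_mod_cast hN
  have hk0 : 0 ≤ k % N := Int.emod_nonneg _ hNz.ne'
  have hk1 : k % N < N := Int.emod_lt_of_pos _ hNz
  obtain ⟨i, hi⟩ := Int.eq_ofNat_of_zero_le hk0
  have hiN : i < N := by rw [hi] at hk1; exact_mod_cast hk1
  rw [Finset.sum_eq_single i]
  · have hd : (N : ℤ) ∣ (i : ℤ) - k := by
      have := Int.dvd_sub_self_of_emod_eq (a := k) (b := (N : ℤ)) (c := (i : ℤ)) hi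
      exact this
    rw [if_pos hd]
    congr 1
    have hp : Function.Periodic f 1 := hf
    obtain ⟨j, hj⟩ := hd
    have hN' : (N : ℝ) ≠ 0 := by exact_mod_cast hN.ne'
    have e : (i : ℝ) / N = (k : ℝ) / N + (j : ℤ) * 1 := by
      have : (i : ℝ) = k + N * j := by
        have : (i : ℤ) = k + N * j := by linarith
        exact_mod_cast this
      rw [this]; field_simp
    rw [e]
    exact hp.int_mul j _
  · intro j hj hji
    rw [if_neg, zero_smul]
    intro hd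
    apply hji
    have hjN : j < N := Finset.mem_range.mp hj
    have h1 : k % N = (j : ℤ) % N := Int.modEq_iff_dvd.mpr hd
    rw [hi, Int.emod_eq_of_lt (by positivity) (by exact_mod_cast hjN)] at h1
    exact_mod_cast h1.symm
  · intro h
    exact absurd (Finset.mem_range.mpr hiN) h

theorem align {W : Weyl H} {D : Data} (F : Fam W D) (M ε : ℝ) (hM : 0 < M) (hε : 0 < ε) :
    ∃ C : ℝ, ∃ n0 : ℕ, 0 < C ∧ F.n1 ≤ n0 ∧ ∀ n, n0 ≤ n → ∀ (w : ℂ) (u : H), ‖u‖ ≤ M →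
    ∀ d : ℝ, 0 ≤ d → d ≤ 1 → ‖tr W w (F.A n) u‖ ≤ d → ∀ k : ℤ,
    ε ≤ ‖mf W u ((k : ℝ) / D.NN n)‖ →
    ‖twN (D.NN n) w (F.ξs n) ((k : ℝ) / D.NN n) +
      ((F.rs n * D.κN (D.NN n) ((k : ℝ) / D.NN n) / ‖mf W u ((k : ℝ) / D.NN n)‖ : ℝ) : ℂ) *
        conj (mf W u ((k : ℝ) / D.NN n))‖ ^ 2 ≤ C * D.NN n * d := by
  have hk0 := F.k0_pos
  have hC0 := F.C0_pos
  have hlim : ∃ n0 : ℕ, ∀ n, n0 ≤ n → 16 * F.C0 * M ^ 2 / (ε * F.k0) ≤ (D.NN n : ℝ) := by
    have h1 : Tendsto (fun n => (D.NN n : ℝ)) atTop atTop :=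
      tendsto_natCast_atTop_atTop.comp (NN_tendsto D)
    exact (eventually_atTop.mp (h1.eventually_ge_atTop _))
  obtain ⟨n0, hn0⟩ := hlim
  refine ⟨2 * F.C0 / ε * (M + 2 / F.k0), max n0 F.n1, by positivity, le_max_right _ _, ?_⟩
  intro n hn w u hu d hd0 hd1 hTu k hmk
  have hn1 : F.n1 ≤ n := (le_max_right _ _).trans hn
  have hNbig := hn0 n ((le_max_left _ _).trans hn)
  obtain ⟨hγ, hc⟩ := trA_mem F hn1 w
  have hNpos : 0 < D.NN n := NN_pos D n
  obtain ⟨h, hh⟩ := NN_even D n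
  set N : ℕ := D.NN n with hNdef
  have hhpos : 0 < h := by omega
  have hNr : (0 : ℝ) < N := by exact_mod_cast hNpos
  have hNr' : (N : ℝ) ≠ 0 := hNr.ne'
  set c : ℝ → ℂ := twN N w (F.ξs n) with hcdef
  set γ : Fin D.m → ℂ := D.tw w (F.γs n) with hγdef
  have hr0 : 0 ≤ F.rs n := F.rs_nonneg n
  have hrC : F.rs n ≤ F.C0 := F.rs_le n
  set m : ℂ := mf W u ((k : ℝ) / N) with hm
  have hmpos : 0 < ‖m‖ := hε.trans_le hmk
  set ρ : ℝ := F.rs n * D.κN N ((k : ℝ) / N) with hρ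
  have hκ0 : 0 ≤ D.κN N ((k : ℝ) / N) := kN_nonneg D hNpos _
  have hκ1 : D.κN N ((k : ℝ) / N) ≤ 1 := (kN_le D hNpos _).trans (D.κ_le _)
  have hρ0 : 0 ≤ ρ := mul_nonneg hr0 hκ0
  have hρC : ρ ≤ F.C0 := by
    calc ρ ≤ F.C0 * 1 := mul_le_mul hrC hκ1 hκ0 hC0.le
      _ = F.C0 := mul_one _
  set ck : ℂ := c ((k : ℝ) / N) with hck
  have hckρ : ‖ck‖ ≤ ρ := hc.bd _
  set b : ℂ := -((ρ / ‖m‖ : ℝ) : ℂ) * conj m with hb
  have hbn : ‖b‖ = ρ := by
    rw [hb, norm_mul, norm_neg, Complex.norm_real, Real.norm_eq_abs,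
      abs_of_nonneg (div_nonneg hρ0 hmpos.le), RCLike.norm_conj, div_mul_cancel₀ _ hmpos.ne']
  set z : ℂ := b - ck with hz
  -- periodicity
  have hcper : ∀ t, c (t + 1) = c t := fun t => AdmN_per hc t
  have hκper : ∀ t, D.κN N (t + 1) = D.κN N t := by
    intro t
    have e : t + 1 = (t + 1 / 2) + 1 / 2 := by ring
    rw [e, kN_half D hNpos (NN_even D n), kN_half D hNpos (NN_even D n)]
  -- the modified coefficient function
  set c' : ℝ → ℂ := fun t => c t + l20b_eta N h k z ⌊(N : ℝ) * t⌋ with hc'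
  have hccell : ∀ t, c t = c ((⌊(N : ℝ) * t⌋ : ℝ) / N) := fun t => (hc.step t).symm
  have hκcell : ∀ t, D.κN N t = D.κN N ((⌊(N : ℝ) * t⌋ : ℝ) / N) :=
    fun t => (kN_step D hNpos t).symm
  have hc'adm : D.AdmN N (F.rs n) c' := by
    refine ⟨?_, ?_, ?_⟩
    · intro t
      simp only [hc']
      rw [hc.step, l20b_floor_cell hNpos]
    · intro t
      simp only [hc']
      rw [hc.sym, map_add]
      congr 1
      have hN2 : (N : ℕ) = 2 * h := hh
      rw [hN2, l20b_floor_half, l20b_eta_half]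
    · intro t
      simp only [hc']
      by_cases h1 : (N : ℤ) ∣ ⌊(N : ℝ) * t⌋ - k
      · have h2 : ¬ (N : ℤ) ∣ ⌊(N : ℝ) * t⌋ - k - h := by
          intro h3
          have h4 := dvd_sub h1 h3
          have e : ⌊(N : ℝ) * t⌋ - k - (⌊(N : ℝ) * t⌋ - k - h) = (h : ℤ) := by ring
          rw [e] at h4
          have h5 := Int.le_of_dvd (by exact_mod_cast hhpos) h4
          have : (N : ℤ) = 2 * h := by exact_mod_cast hh
          have hz : (0 : ℤ) < h := by exact_mod_cast hhpos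
          linarith
        have e1 : l20b_eta N h k z ⌊(N : ℝ) * t⌋ = z := by
          unfold l20b_eta; rw [if_pos h1, if_neg h2, add_zero]
        have e2 : c t = ck := by rw [hccell t]; exact l20b_per hcper hNpos h1
        have e3 : D.κN N t = D.κN N ((k : ℝ) / N) := by
          rw [hκcell t]; exact l20b_kper hκper hNpos h1
        rw [e1, e2, hz, e3, add_sub_cancel, hbn]
      · by_cases h2 : (N : ℤ) ∣ ⌊(N : ℝ) * t⌋ - k - h
        · have e1 : l20b_eta N h k z ⌊(N : ℝ) * t⌋ = conj z := by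
            unfold l20b_eta; rw [if_neg h1, if_pos h2, zero_add]
          have h3 : (N : ℤ) ∣ ⌊(N : ℝ) * t⌋ - (k + h) := by
            have : ⌊(N : ℝ) * t⌋ - (k + h) = ⌊(N : ℝ) * t⌋ - k - h := by ring
            rwa [this]
          have e0 : (((k + h : ℤ) : ℝ) / N) = (k : ℝ) / N + 1 / 2 := by
            have : (N : ℝ) = 2 * h := by exact_mod_cast hh
            rw [this]
            have : (h : ℝ) ≠ 0 := by exact_mod_cast hhpos.ne'
            push_cast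
            field_simp
          have e2 : c t = conj ck := by
            rw [hccell t, l20b_per hcper hNpos h3, e0, hc.sym]
          have e3 : D.κN N t = D.κN N ((k : ℝ) / N) := by
            rw [hκcell t, l20b_kper hκper hNpos h3, e0, kN_half D hNpos (NN_even D n)]
          rw [e1, e2, e3, ← map_add, hz, add_sub_cancel, RCLike.norm_conj, hbn]
        · have e1 : l20b_eta N h k z ⌊(N : ℝ) * t⌋ = 0 := by
            unfold l20b_eta; rw [if_neg h1, if_neg h2, zero_add]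
          rw [e1, add_zero]
          exact hc.bd t
  -- the two operators
  have hmeas : Measurable c := (AdmN.bdN hNpos hc hr0).meas
  have hmeas' : Measurable c' := (AdmN.bdN hNpos hc'adm hr0).meas
  have hnode : ∀ t, W.U (node (t + 1)) u = W.U (node t) u := by
    intro t; rw [node_add_one]
  have hdiff : XL W (muN N) c' u = XL W (muN N) c u + ((1 : ℂ) / N) •
      (z • W.U (node ((k : ℝ) / N)) u + conj z • W.U (node ((k : ℝ) / N + 1 / 2)) u) := by
    rw [XL_muN W hNpos hmeas', XL_muN W hNpos hmeas, ← smul_add]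
    congr 1
    have e0 : (((k + h : ℤ) : ℝ) / N) = (k : ℝ) / N + 1 / 2 := by
      have : (N : ℝ) = 2 * h := by exact_mod_cast hh
      rw [this]
      have : (h : ℝ) ≠ 0 := by exact_mod_cast hhpos.ne'
      push_cast
      field_simp
    rw [← e0, ← l20b_sum hNpos k (fun t => W.U (node t) u) hnode z,
      ← l20b_sum hNpos (k + h) (fun t => W.U (node t) u) hnode (conj z),
      ← Finset.sum_add_distrib, ← Finset.sum_add_distrib]
    refine Finset.sum_congr rfl ?_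
    intro j hj
    have e1 : ⌊(N : ℝ) * ((j : ℝ) / N)⌋ = (j : ℤ) := l20b_floor_grid hNpos (j : ℤ)
    have e2 : (j : ℤ) - (k + h) = (j : ℤ) - k - h := by ring
    simp only [hc', e1, e2]
    unfold l20b_eta
    rw [add_smul, add_smul]
  set T : H →L[ℂ] H := Aop W D (muN N) γ c with hT
  have hTeq : tr W w (F.A n) = T := trA_eq F hn1 w
  set T' : H →L[ℂ] H := Aop W D (muN N) γ c' with hT'
  have hT'u : T' u = T u + ((1 : ℂ) / N) •
      (z • W.U (node ((k : ℝ) / N)) u + conj z • W.U (node ((k : ℝ) / N + 1 / 2)) u) := by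
    simp only [hT', hT, Aop, ContinuousLinearMap.add_apply]
    rw [hdiff, add_assoc]
  have hTu' : ‖T u‖ ≤ d := by rw [← hTeq]; exact hTu
  have hq0 : 0 ≤ ‖z‖ := norm_nonneg z
  have hnT' : ‖T' u‖ ≤ d + 2 * ‖z‖ * M / N := by
    rw [hT'u]
    refine (norm_add_le _ _).trans ?_
    refine add_le_add hTu' ?_
    rw [norm_smul]
    have h1 : ‖z • W.U (node ((k : ℝ) / N)) u + conj z • W.U (node ((k : ℝ) / N + 1 / 2)) u‖ ≤
        2 * ‖z‖ * M := by
      refine (norm_add_le _ _).trans ?_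
      rw [norm_smul, norm_smul, W.norm_U, W.norm_U, RCLike.norm_conj]
      have := mul_le_mul_of_nonneg_left hu hq0
      linarith
    have h2 : ‖(1 : ℂ) / N‖ = 1 / N := by
      rw [norm_div, norm_one, Complex.norm_natCast]
    rw [h2]
    calc 1 / (N : ℝ) * _ ≤ 1 / (N : ℝ) * (2 * ‖z‖ * M) :=
          mul_le_mul_of_nonneg_left h1 (by positivity)
      _ = _ := by ring
  -- the quadratic form
  set Dk : ℝ := ρ * ‖m‖ + (ck * m).re with hDk
  have hbm : b * m = -((ρ * ‖m‖ : ℝ) : ℂ) := by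
    rw [hb]
    have h1 : conj m * m = ((‖m‖ ^ 2 : ℝ) : ℂ) := by
      rw [mul_comm, Complex.mul_conj, Complex.normSq_eq_norm_sq]
    calc -((ρ / ‖m‖ : ℝ) : ℂ) * conj m * m = -((ρ / ‖m‖ : ℝ) : ℂ) * (conj m * m) := by ring
      _ = -((ρ / ‖m‖ * ‖m‖ ^ 2 : ℝ) : ℂ) := by rw [h1]; push_cast; ring
      _ = _ := by
        congr 2
        field_simp
  have hzm : (z * m).re = -Dk := by
    rw [hz, sub_mul, hbm, hDk, Complex.sub_re, Complex.neg_re, Complex.ofReal_re]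
    ring
  have hinner : (inner ℂ u (T' u) : ℂ).re = (inner ℂ u (T u) : ℂ).re - 2 / N * Dk := by
    rw [hT'u, inner_add_right, Complex.add_re, inner_smul_right, inner_add_right,
      inner_smul_right, inner_smul_right]
    have h1 : inner ℂ u (W.U (node ((k : ℝ) / N)) u) = m := rfl
    have h2 : inner ℂ u (W.U (node ((k : ℝ) / N + 1 / 2)) u) = conj m :=
      mf_half W u _
    rw [h1, h2, ← map_mul, Complex.add_conj, hzm]
    have h3 : ((1 : ℂ) / N * ((2 * -Dk : ℝ) : ℂ)).re = -(2 / N * Dk) := by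
      have : (1 : ℂ) / N * ((2 * -Dk : ℝ) : ℂ) = ((-(2 / N * Dk) : ℝ) : ℂ) := by
        push_cast; ring
      rw [this, Complex.ofReal_re]
    rw [h3]; ring
  have hAIN := F.AIN n hn1 γ hγ c' hc'adm u
  rw [← hNdef, ← hT'] at hAIN
  have hre : (inner ℂ u (T u) : ℂ).re ≤ M * d := by
    refine (Complex.re_le_norm _).trans ((norm_inner_le_norm _ _).trans ?_)
    exact mul_le_mul hu hTu' (norm_nonneg _) hM.le
  have hsq : ‖T' u‖ ^ 2 ≤ (d + 2 * ‖z‖ * M / N) ^ 2 :=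
    pow_le_pow_left₀ (norm_nonneg _) hnT' 2
  -- q² ≤ 2 ρ D_k / |m|
  have hq : ‖z‖ ^ 2 ≤ 2 * ρ / ‖m‖ * Dk := by
    have h1 : ‖z‖ ^ 2 = ‖b‖ ^ 2 + ‖ck‖ ^ 2 - 2 * (b * conj ck).re := by
      rw [hz, ← Complex.normSq_eq_norm_sq, ← Complex.normSq_eq_norm_sq,
        ← Complex.normSq_eq_norm_sq, Complex.normSq_sub]
    have h2 : (b * conj ck).re = -(ρ / ‖m‖) * (ck * m).re := by
      rw [hb]
      have : -((ρ / ‖m‖ : ℝ) : ℂ) * conj m * conj ck = ((-(ρ / ‖m‖) : ℝ) : ℂ) * conj (ck * m) := by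
        rw [map_mul]; push_cast; ring
      rw [this, Complex.re_ofReal_mul, Complex.conj_re]
    have h3 : ‖ck‖ ^ 2 ≤ ρ ^ 2 := pow_le_pow_left₀ (norm_nonneg _) hckρ 2
    rw [h1, h2, hbn]
    have h4 : 2 * ρ / ‖m‖ * Dk = 2 * ρ ^ 2 + 2 * (ρ / ‖m‖) * (ck * m).re := by
      rw [hDk]; field_simp
    rw [h4]; linarith
  have hDk0 : 0 ≤ Dk := by
    rw [hDk]
    have h1 : -(‖ck‖ * ‖m‖) ≤ (ck * m).re := by
      have := (abs_le.mp (Complex.abs_re_le_norm (ck * m))).1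
      rwa [norm_mul] at this
    have h2 := mul_le_mul_of_nonneg_right hckρ hmpos.le
    linarith
  have hq2 : ‖z‖ ^ 2 ≤ 2 * F.C0 / ε * Dk := by
    refine hq.trans (mul_le_mul_of_nonneg_right ?_ hDk0)
    exact div_le_div₀ (by positivity) (by linarith) hε hmk
  -- the main inequality
  have hmain : 2 / N * Dk ≤ M * d + (d + 2 * ‖z‖ * M / N) ^ 2 / F.k0 := by
    have h1 : ‖T' u‖ ^ 2 / F.k0 ≤ (d + 2 * ‖z‖ * M / N) ^ 2 / F.k0 :=
      div_le_div_of_nonneg_right hsq hk0.le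
    rw [hinner] at hAIN
    linarith
  have hexp : (d + 2 * ‖z‖ * M / N) ^ 2 ≤ 2 * d + 8 * M ^ 2 / N ^ 2 * ‖z‖ ^ 2 := by
    have h1 : (d + 2 * ‖z‖ * M / N) ^ 2 ≤ 2 * d ^ 2 + 2 * (2 * ‖z‖ * M / N) ^ 2 := by
      nlinarith [sq_nonneg (d - 2 * ‖z‖ * M / N)]
    have h2 : d ^ 2 ≤ d := by nlinarith
    have h3 : 2 * (2 * ‖z‖ * M / N) ^ 2 = 8 * M ^ 2 / N ^ 2 * ‖z‖ ^ 2 := by
      field_simp; ring
    linarith
  have hfin : Dk ≤ (M + 2 / F.k0) * N * d := by
    have h1 : (d + 2 * ‖z‖ * M / N) ^ 2 / F.k0 ≤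
        2 * d / F.k0 + 16 * F.C0 * M ^ 2 / (ε * F.k0) / N ^ 2 * Dk := by
      have h2 : 8 * M ^ 2 / N ^ 2 * ‖z‖ ^ 2 ≤ 8 * M ^ 2 / N ^ 2 * (2 * F.C0 / ε * Dk) :=
        mul_le_mul_of_nonneg_left hq2 (by positivity)
      calc (d + 2 * ‖z‖ * M / N) ^ 2 / F.k0
          ≤ (2 * d + 8 * M ^ 2 / N ^ 2 * (2 * F.C0 / ε * Dk)) / F.k0 :=
            div_le_div_of_nonneg_right (by linarith) hk0.le
        _ = _ := by field_simp; ring
    have h2 : 16 * F.C0 * M ^ 2 / (ε * F.k0) / N ^ 2 * Dk ≤ 1 / N * Dk := by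
      refine mul_le_mul_of_nonneg_right ?_ hDk0
      rw [div_le_div_iff₀ (by positivity) hNr]
      nlinarith
    have h3 : 1 / (N : ℝ) * Dk ≤ (M + 2 / F.k0) * d := by
      have e1 : 2 / (N : ℝ) * Dk = 1 / N * Dk + 1 / N * Dk := by ring
      have e2 : (M + 2 / F.k0) * d = M * d + 2 * d / F.k0 := by ring
      linarith
    have h4 := mul_le_mul_of_nonneg_left h3 hNr.le
    have e3 : (N : ℝ) * (1 / N * Dk) = Dk := by field_simp
    rw [e3] at h4
    linarith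
  -- conclusion
  have hgoal : ‖ck + ((ρ / ‖m‖ : ℝ) : ℂ) * conj m‖ = ‖z‖ := by
    rw [hz, hb, ← norm_neg]
    congr 1; ring
  rw [hgoal]
  refine hq2.trans ?_
  have h5 := mul_le_mul_of_nonneg_left hfin (show 0 ≤ 2 * F.C0 / ε by positivity)
  linarith

end Pool.Agent.Helper84.HRT
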