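import Mathlib
import Pool.Agent.Helper84.HRT.DefsS
import Pool.Agent.Helper84.HRT.L20B

open MeasureTheory Complex Filter
open scoped ENNReal NNReal ComplexConjugate InnerProductSpace BigOperators Topology

namespace Pool.Agent.Helper84.HRT

variable {H : Type} [NormedAddCommGroup H] [InnerProductSpace ℂ H] [CompleteSpace H]

variable {W : Weyl H} {D : Data} {F : Fam W D} {R0 δ0 C1 : ℝ}

private theorem l20h_NN_pos (D : Data) (n : ℕ) : 0 < D.NN n := by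
  unfold Data.NN
  exact Nat.mul_pos (Nat.factorial_pos n) D.d0_pos

private theorem l20h_cell {N : ℕ} (hN : 0 < N) (k : ℤ) : cell N ((k : ℝ) / N) = (k : ℝ) / N := by
  unfold cell
  have hN' : (N : ℝ) ≠ 0 := by exact_mod_cast hN.ne'
  rw [mul_div_cancel₀ _ hN', Int.floor_intCast]

private theorem l20h_chi (w v α : ℂ) : chi (w - v) α * conj (chi w α) = conj (chi v α) := by
  have e : ∀ u : ℂ, conj (chi u α) = cexp (((2 * (α * conj u).im : ℝ) : ℂ) * I) := by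
    intro u
    unfold chi
    rw [← Complex.exp_conj]
    congr 1
    rw [map_mul, map_neg, Complex.conj_ofReal, Complex.conj_I]
    ring
  rw [e, e]
  unfold chi
  rw [← Complex.exp_add]
  congr 1
  have h : (α * conj (w - v)).im = (α * conj w).im - (α * conj v).im := by
    rw [map_sub, mul_sub, Complex.sub_im]
  rw [h]
  push_cast
  ring

private theorem l20h_norm_chi (w α : ℂ) : ‖chi w α‖ = 1 := by
  unfold chi
  rw [← Complex.ofReal_neg, Complex.norm_exp_ofReal_mul_I]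

/-- the algebra -/
private theorem l20h_alg (X c a b : ℂ) (ρ e : ℝ) (hX : ‖X‖ = 1) (ha : a ≠ 0) (hb : b ≠ 0)
    (hρ : 0 < ρ) (h1 : ‖c + ((ρ / ‖a‖ : ℝ) : ℂ) * conj a‖ ≤ e)
    (h2 : ‖X * c + ((ρ / ‖b‖ : ℝ) : ℂ) * conj b‖ ≤ e) :
    ‖X - conj b / (‖b‖ : ℂ) * ((‖a‖ : ℂ) / conj a)‖ ≤ 2 * e / ρ := by
  have ha' : (‖a‖ : ℂ) ≠ 0 := by
    rw [Complex.ofReal_ne_zero]; exact norm_ne_zero_iff.2 ha
  have hb' : (‖b‖ : ℂ) ≠ 0 := by
    rw [Complex.ofReal_ne_zero]; exact norm_ne_zero_iff.2 hb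
  have hca : conj a ≠ 0 := (map_ne_zero _).2 ha
  have hρ' : (ρ : ℂ) ≠ 0 := by
    rw [Complex.ofReal_ne_zero]; exact hρ.ne'
  have key : X - conj b / (‖b‖ : ℂ) * ((‖a‖ : ℂ) / conj a) =
      ((‖a‖ : ℂ) / conj a) * ((X * (c + ((ρ / ‖a‖ : ℝ) : ℂ) * conj a) -
        (X * c + ((ρ / ‖b‖ : ℝ) : ℂ) * conj b)) / (ρ : ℂ)) := by
    push_cast
    field_simp
    ring
  have hn1 : ‖(‖a‖ : ℂ) / conj a‖ = 1 := by
    rw [norm_div, Complex.norm_real, norm_norm, RCLike.norm_conj, div_self]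
    exact norm_ne_zero_iff.2 ha
  rw [key, norm_mul, hn1, one_mul, norm_div, Complex.norm_real, Real.norm_eq_abs, abs_of_pos hρ]
  gcongr
  calc ‖X * (c + ((ρ / ‖a‖ : ℝ) : ℂ) * conj a) - (X * c + ((ρ / ‖b‖ : ℝ) : ℂ) * conj b)‖
      ≤ ‖X * (c + ((ρ / ‖a‖ : ℝ) : ℂ) * conj a)‖ + ‖X * c + ((ρ / ‖b‖ : ℝ) : ℂ) * conj b‖ :=
        norm_sub_le _ _
    _ ≤ e + e := by
        rw [norm_mul, hX, one_mul]
        exact add_le_add h1 h2
    _ = 2 * e := by ring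

/-- L20.3a, from `align` for `(w,u)` and `(v,y)` with `d = x^380`:
`χ_{w-v}(k) c_k = c''_k` for `c = twN N w ξs`, `c'' = twN N v ξs`; `ρ_k = r_N κN ≥ (r/2) ε` for
large `j` (`P.rad`). -/
theorem pair_chi_align (P : Fam.Pair F R0 δ0 C1) (ε : ℝ) (hε : 0 < ε) : ∃ C : ℝ, 0 < C ∧
    ∀ᶠ j in atTop, ∀ k : ℤ, ε ≤ ‖mf W (P.u j) (P.nd j k)‖ → ε ≤ ‖mf W (P.y j) (P.nd j k)‖ →
    ε ≤ D.κN (D.NN (P.n j)) (P.nd j k) →
    ‖chi (P.w j - P.v j) (node (P.nd j k)) -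
      conj (mf W (P.y j) (P.nd j k)) / (‖mf W (P.y j) (P.nd j k)‖ : ℂ) *
        ((‖mf W (P.u j) (P.nd j k)‖ : ℂ) / conj (mf W (P.u j) (P.nd j k)))‖ ≤
      C * Real.sqrt (D.NN (P.n j)) * P.x j ^ 190 := by
  obtain ⟨C, n0, hC, hn0, hal⟩ := align F (‖P.ψ‖ + ‖P.ψ2‖ + 1) ε (by positivity) hε
  have hr := F.r_pos
  refine ⟨2 * Real.sqrt C / (F.r / 2 * ε), by positivity, ?_⟩
  have hu : ∀ᶠ j in atTop, ‖P.u j‖ ≤ ‖P.ψ‖ + ‖P.ψ2‖ + 1 := by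
    have h1 := P.lim_u.norm
    filter_upwards [h1.eventually (gt_mem_nhds (show ‖P.ψ‖ < ‖P.ψ‖ + ‖P.ψ2‖ + 1 by
      linarith [norm_nonneg P.ψ2]))] with j hj
    exact hj.le
  have hy : ∀ᶠ j in atTop, ‖P.y j‖ ≤ ‖P.ψ‖ + ‖P.ψ2‖ + 1 := by
    have h1 := P.lim_y.norm
    filter_upwards [h1.eventually (gt_mem_nhds (show ‖P.ψ2‖ < ‖P.ψ‖ + ‖P.ψ2‖ + 1 by
      linarith [norm_nonneg P.ψ]))] with j hj
    exact hj.le
  have hrad : ∀ᶠ j in atTop, F.r / 2 < F.rs (P.n j) :=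
    P.rad.eventually (lt_mem_nhds (by linarith))
  filter_upwards [hu, hy, hrad, P.n_lim.eventually_ge_atTop n0] with j huj hyj hrj hnj k h1 h2 h3
  have hNpos := l20h_NN_pos D (P.n j)
  have hN1 : (1 : ℝ) ≤ (D.NN (P.n j) : ℝ) := by exact_mod_cast hNpos
  have hx0 := P.x_pos j
  have hx1 : P.x j ≤ 1 := by
    by_contra hcon
    push Not at hcon
    have h4 : 1 < P.x j ^ 40 := one_lt_pow₀ hcon (by norm_num)
    have h5 := P.x_N j
    nlinarith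
  have hd0 : 0 ≤ P.x j ^ 380 := by positivity
  have hd1 : P.x j ^ 380 ≤ 1 := pow_le_one₀ hx0.le hx1
  have hA1 := hal (P.n j) hnj (P.w j) (P.u j) huj (P.x j ^ 380) hd0 hd1 (P.near_u j) k h1
  have hA2 := hal (P.n j) hnj (P.v j) (P.y j) hyj (P.x j ^ 380) hd0 hd1 (P.near_y j) k h2
  have hnd : ((k : ℝ) / D.NN (P.n j)) = P.nd j k := rfl
  rw [hnd] at hA1 hA2
  set X : ℂ := chi (P.w j - P.v j) (node (P.nd j k)) with hX
  set c : ℂ := twN (D.NN (P.n j)) (P.w j) (F.ξs (P.n j)) (P.nd j k) with hc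
  have hcell : cell (D.NN (P.n j)) (P.nd j k) = P.nd j k := l20h_cell hNpos k
  have hc2 : twN (D.NN (P.n j)) (P.v j) (F.ξs (P.n j)) (P.nd j k) = X * c := by
    rw [hc, hX]
    unfold twN
    rw [hcell, ← l20h_chi (P.w j) (P.v j)]
    ring
  rw [hc2] at hA2
  set ρ : ℝ := F.rs (P.n j) * D.κN (D.NN (P.n j)) (P.nd j k) with hρ
  have hρ0 : F.r / 2 * ε ≤ ρ := mul_le_mul hrj.le h3 hε.le (by linarith)
  have hρpos : 0 < ρ := lt_of_lt_of_le (by positivity) hρ0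
  have hE : ∀ z : ℂ, ‖z‖ ^ 2 ≤ C * (D.NN (P.n j) : ℝ) * P.x j ^ 380 →
      ‖z‖ ≤ Real.sqrt C * Real.sqrt (D.NN (P.n j)) * P.x j ^ 190 := by
    intro z hz
    have hs : (Real.sqrt C * Real.sqrt (D.NN (P.n j)) * P.x j ^ 190) ^ 2 =
        C * (D.NN (P.n j) : ℝ) * P.x j ^ 380 := by
      rw [mul_pow, mul_pow, Real.sq_sqrt hC.le, Real.sq_sqrt (by positivity), ← pow_mul]
    rw [← hs] at hz
    exact le_of_sq_le_sq hz (by positivity)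
  have h5 := l20h_alg X c (mf W (P.u j) (P.nd j k)) (mf W (P.y j) (P.nd j k)) ρ
    (Real.sqrt C * Real.sqrt (D.NN (P.n j)) * P.x j ^ 190) (l20h_norm_chi _ _)
    (norm_pos_iff.1 (lt_of_lt_of_le hε h1)) (norm_pos_iff.1 (lt_of_lt_of_le hε h2)) hρpos
    (hE _ hA1) (hE _ hA2)
  refine h5.trans ?_
  calc 2 * (Real.sqrt C * Real.sqrt (D.NN (P.n j)) * P.x j ^ 190) / ρ
      ≤ 2 * (Real.sqrt C * Real.sqrt (D.NN (P.n j)) * P.x j ^ 190) / (F.r / 2 * ε) := by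
        gcongr
    _ = 2 * Real.sqrt C / (F.r / 2 * ε) * Real.sqrt (D.NN (P.n j)) * P.x j ^ 190 := by ring

end Pool.Agent.Helper84.HRT
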