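import Mathlib
import Pool.Agent.Helper84.HRT.DefsS
import Pool.Agent.Helper84.HRT.L13
import Pool.Agent.Helper84.HRT.XC
import Pool.Agent.Helper84.HRT.WC
import Pool.Agent.Helper84.HRT.L11F
import Pool.Agent.Helper84.HRT.L20A

open MeasureTheory Complex Filter
open scoped ENNReal NNReal ComplexConjugate InnerProductSpace BigOperators Topology

namespace Pool.Agent.Helper84.HRT

variable {H : Type} [NormedAddCommGroup H] [InnerProductSpace ℂ H] [CompleteSpace H]

variable {W : Weyl H} {D : Data} {F : Fam W D} {R0 δ0 C1 : ℝ}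

/-- `Far` is a closed condition. -/
private theorem l20i_closed (Z : Finset ℝ) (del : ℝ) : IsClosed {t : ℝ | Far Z del t} := by
  have h : {t : ℝ | Far Z del t} = ⋂ z ∈ Z, ⋂ k : ℤ, {t : ℝ | del ≤ |t - (z + k)|} := by
    ext t
    simp [Far]
  rw [h]
  refine isClosed_biInter fun z _ => isClosed_iInter fun k => ?_
  exact isClosed_le continuous_const (by fun_prop)

private theorem l20i_notMem {Z : Finset ℝ} {del t : ℝ} (hdel : 0 < del) (h : Far Z del t) :
    t ∉ badSet Z := by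
  rintro ⟨z, hz, k, rfl⟩
  have := h z hz k
  simp at this
  linarith

private theorem l20i_far_fract {Z : Finset ℝ} {del t : ℝ} (h : Far Z del t) :
    Far Z del (Int.fract t) := by
  intro z hz k
  have := h z hz (k + ⌊t⌋)
  have e : t - (z + ((k + ⌊t⌋ : ℤ) : ℝ)) = Int.fract t - (z + k) := by
    rw [← Int.self_sub_floor]; push_cast; ring
  rwa [e] at this

private theorem l20i_fract {α : Type} (f : ℝ → α) (hper : ∀ t, f (t + 1) = f t) (t : ℝ) :
    f (Int.fract t) = f t := by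
  have hp : Function.Periodic f 1 := hper
  rw [← Int.self_sub_floor]
  have := hp.sub_int_mul_eq (x := t) ⌊t⌋
  rwa [mul_one] at this

/-- A periodic function which is continuous and positive off the bad set has a positive lower
bound far from the bad set. -/
private theorem l20i_low (Z : Finset ℝ) (f : ℝ → ℝ) (hper : ∀ t, f (t + 1) = f t)
    (hc : ∀ t, t ∉ badSet Z → ContinuousAt f t) (hpos : ∀ t, t ∉ badSet Z → 0 < f t)
    (del : ℝ) (hdel : 0 < del) : ∃ ε : ℝ, 0 < ε ∧ ∀ t, Far Z del t → ε ≤ f t := by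
  set K : Set ℝ := {t : ℝ | Far Z del t} ∩ Set.Icc 0 1 with hK
  have hKc : IsCompact K := isCompact_Icc.inter_left (l20i_closed Z del)
  have hKcont : ContinuousOn f K := fun t ht =>
    (hc t (l20i_notMem hdel ht.1)).continuousWithinAt
  have hmem : ∀ t, Far Z del t → Int.fract t ∈ K := fun t ht =>
    ⟨l20i_far_fract ht, Int.fract_nonneg t, (Int.fract_lt_one t).le⟩
  by_cases hne : K.Nonempty
  · obtain ⟨t0, ht0, hmin⟩ := hKc.exists_isMinOn hne hKcont
    refine ⟨f t0, hpos t0 (l20i_notMem hdel ht0.1), fun t ht => ?_⟩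
    rw [← l20i_fract f hper t]
    exact hmin (hmem t ht)
  · exact ⟨1, one_pos, fun t ht => absurd ⟨_, hmem t ht⟩ hne⟩

/-- uniform convergence of the ambiguity functions -/
private theorem l20i_mf (W : Weyl H) (u : ℕ → H) (ψ : H) (hu : Tendsto u atTop (𝓝 ψ)) (ε : ℝ)
    (hε : 0 < ε) : ∀ᶠ j in atTop, ∀ t, ‖mf W (u j) t - mf W ψ t‖ ≤ ε := by
  have h1 : Tendsto (fun j => ‖u j - ψ‖ * (‖u j‖ + ‖ψ‖)) atTop (𝓝 0) := by
    have a : Tendsto (fun j => ‖u j - ψ‖) atTop (𝓝 0) := by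
      have := (hu.sub_const ψ).norm
      simpa using this
    have b : Tendsto (fun j => ‖u j‖ + ‖ψ‖) atTop (𝓝 (‖ψ‖ + ‖ψ‖)) := hu.norm.add_const _
    simpa using a.mul b
  filter_upwards [h1.eventually_le_const hε] with j hj t
  exact (mf_sub_le W _ _ t).trans hj

/-- the bad points: zeros of the two ambiguity functions (`Opt.fin`, `mf_per`) and the bad set of
`κ`; lower bounds on the compact set of `Far` points in `[0,1]` by continuity. -/
theorem pair_exists_far (P : Fam.Pair F R0 δ0 C1) : ∃ Z : Finset ℝ,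
    (∀ t, mf W P.ψ t = 0 → t ∈ badSet Z) ∧ (∀ t, mf W P.ψ2 t = 0 → t ∈ badSet Z) ∧
    (∀ t ∈ D.κbad, t ∈ badSet Z) ∧
    ∀ del : ℝ, 0 < del → ∃ ε : ℝ, 0 < ε ∧ ∀ᶠ j in atTop, ∀ k : ℤ, Far Z del (P.nd j k) →
      ε ≤ ‖mf W (P.u j) (P.nd j k)‖ ∧ ε ≤ ‖mf W (P.y j) (P.nd j k)‖ ∧
      ε ≤ ‖mf W P.ψ (P.nd j k)‖ ∧ ε ≤ ‖mf W P.ψ2 (P.nd j k)‖ ∧
      ε ≤ D.κN (D.NN (P.n j)) (P.nd j k) := by
  classical
  set Z : Finset ℝ := P.opt.fin.toFinset ∪ P.opt2.fin.toFinset ∪ D.κbad_fin.toFinset with hZ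
  have hfr : ∀ t, Int.fract t ∈ Z → t ∈ badSet Z := by
    intro t ht
    exact ⟨Int.fract t, ht, ⌊t⌋, (Int.fract_add_floor t).symm⟩
  have hIcc : ∀ t : ℝ, Int.fract t ∈ Set.Icc (0 : ℝ) 1 := fun t =>
    ⟨Int.fract_nonneg t, (Int.fract_lt_one t).le⟩
  have hb1 : ∀ t, mf W P.ψ t = 0 → t ∈ badSet Z := by
    intro t ht
    apply hfr
    have : mf W P.ψ (Int.fract t) = 0 := by rw [l20i_fract (mf W P.ψ) (mf_per W P.ψ), ht]
    simp only [hZ, Finset.mem_union, Set.Finite.mem_toFinset]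
    exact Or.inl (Or.inl ⟨this, hIcc t⟩)
  have hb2 : ∀ t, mf W P.ψ2 t = 0 → t ∈ badSet Z := by
    intro t ht
    apply hfr
    have : mf W P.ψ2 (Int.fract t) = 0 := by rw [l20i_fract (mf W P.ψ2) (mf_per W P.ψ2), ht]
    simp only [hZ, Finset.mem_union, Set.Finite.mem_toFinset]
    exact Or.inl (Or.inr ⟨this, hIcc t⟩)
  have hbper : ∀ t : ℝ, (t + 1 ∈ D.κbad) = (t ∈ D.κbad) := by
    intro t
    have h1 := D.κbad_per (t + 1 / 2)
    have h2 := D.κbad_per t
    have e : t + 1 / 2 + 1 / 2 = t + 1 := by ring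
    rw [e] at h1
    exact propext (h1.trans h2)
  have hb3 : ∀ t ∈ D.κbad, t ∈ badSet Z := by
    intro t ht
    apply hfr
    have : Int.fract t ∈ D.κbad := by
      rw [l20i_fract (fun t => t ∈ D.κbad) hbper t]
      exact ht
    simp only [hZ, Finset.mem_union, Set.Finite.mem_toFinset]
    exact Or.inr ⟨this, hIcc t⟩
  refine ⟨Z, hb1, hb2, hb3, fun del hdel => ?_⟩
  have hκper : ∀ t, D.κ (t + 1) = D.κ t := by
    intro t
    have h1 := D.κ_per (t + 1 / 2)
    have e : t + 1 / 2 + 1 / 2 = t + 1 := by ring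
    rw [e] at h1
    rw [h1, D.κ_per]
  obtain ⟨ε1, hε1, h1⟩ := l20i_low Z (fun t => ‖mf W P.ψ t‖)
    (fun t => by simp only [mf_per]) (fun t _ => (mf_cont W P.ψ).norm.continuousAt)
    (fun t ht => norm_pos_iff.mpr fun h0 => ht (hb1 t h0)) del hdel
  obtain ⟨ε2, hε2, h2⟩ := l20i_low Z (fun t => ‖mf W P.ψ2 t‖)
    (fun t => by simp only [mf_per]) (fun t _ => (mf_cont W P.ψ2).norm.continuousAt)
    (fun t ht => norm_pos_iff.mpr fun h0 => ht (hb2 t h0)) del hdel
  obtain ⟨ε3, hε3, h3⟩ := l20i_low Z D.κ hκper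
    (fun t ht => D.κ_cont t fun h0 => ht (hb3 t h0))
    (fun t ht => D.κ_pos t fun h0 => ht (hb3 t h0)) (del / 2) (by positivity)
  refine ⟨min (min (ε1 / 2) (ε2 / 2)) ε3, by positivity, ?_⟩
  have hNlim : Tendsto (fun j => (1 : ℝ) / (D.NN (P.n j) : ℝ)) atTop (𝓝 0) := by
    have h4 : Tendsto (fun j => (D.NN (P.n j) : ℝ)) atTop atTop :=
      tendsto_natCast_atTop_atTop.comp ((NN_tendsto D).comp P.n_lim)
    simp only [one_div]
    exact h4.inv_tendsto_atTop
  filter_upwards [l20i_mf W P.u P.ψ P.lim_u (ε1 / 2) (by positivity),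
    l20i_mf W P.y P.ψ2 P.lim_y (ε2 / 2) (by positivity),
    hNlim.eventually_le_const (show (0 : ℝ) < del / 2 by positivity)] with j hj1 hj2 hj3 k hk
  have m1 : min (min (ε1 / 2) (ε2 / 2)) ε3 ≤ ε1 / 2 := (min_le_left _ _).trans (min_le_left _ _)
  have m2 : min (min (ε1 / 2) (ε2 / 2)) ε3 ≤ ε2 / 2 := (min_le_left _ _).trans (min_le_right _ _)
  have m3 : min (min (ε1 / 2) (ε2 / 2)) ε3 ≤ ε3 := min_le_right _ _
  have a1 := h1 _ hk
  have a2 := h2 _ hk
  have b1 := hj1 (P.nd j k)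
  have b2 := hj2 (P.nd j k)
  have c1 : ‖mf W P.ψ (P.nd j k)‖ ≤ ‖mf W (P.u j) (P.nd j k)‖ + ε1 / 2 := by
    have := norm_sub_norm_le (mf W P.ψ (P.nd j k)) (mf W (P.u j) (P.nd j k))
    rw [norm_sub_rev] at this
    linarith
  have c2 : ‖mf W P.ψ2 (P.nd j k)‖ ≤ ‖mf W (P.y j) (P.nd j k)‖ + ε2 / 2 := by
    have := norm_sub_norm_le (mf W P.ψ2 (P.nd j k)) (mf W (P.y j) (P.nd j k))
    rw [norm_sub_rev] at this
    linarith
  refine ⟨by linarith, by linarith, by linarith, by linarith, ?_⟩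
  refine m3.trans ?_
  have hN : 0 < D.NN (P.n j) := NN_pos D _
  have hcell : cell (D.NN (P.n j)) (P.nd j k) = P.nd j k := cell_grid hN k
  unfold Data.κN
  rw [hcell]
  refine le_csInf ?_ ?_
  · refine Set.Nonempty.image _ ⟨P.nd j k, ?_, ?_⟩
    · have : (0 : ℝ) ≤ 1 / (D.NN (P.n j) : ℝ) := by positivity
      linarith
    · have : (0 : ℝ) ≤ 1 / (D.NN (P.n j) : ℝ) := by positivity
      linarith
  · rintro _ ⟨t, ht, rfl⟩
    apply h3
    intro z hz l
    have h5 := hk z hz l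
    have h6 : |t - P.nd j k| ≤ del / 2 := by
      rw [abs_le]
      constructor
      · linarith [ht.1]
      · linarith [ht.2]
    have h7 : |P.nd j k - (z + l)| ≤ |t - (z + l)| + |t - P.nd j k| := by
      have e : P.nd j k - (z + l) = (t - (z + l)) - (t - P.nd j k) := by ring
      rw [e]
      exact abs_sub _ _
    linarith

end Pool.Agent.Helper84.HRT
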