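import Mathlib
import Pool.Agent.Helper84.HRT.DefsS
import Pool.Agent.Helper84.HRT.WA
import Pool.Agent.Helper84.HRT.L13
import Pool.Agent.Helper79.HRT.Coset
import Pool.Agent.Helper84.HRT.C5
import Pool.Agent.Helper84.HRT.L20A
import Pool.Agent.Helper84.HRT.L20F
import Pool.Agent.Helper84.HRT.L20G
import Pool.Agent.Helper84.HRT.L20H
import Pool.Agent.Helper84.HRT.L20I

/-!
# L20J: the characters converge uniformly to one
-/

open MeasureTheory Complex Filter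
open scoped ENNReal NNReal ComplexConjugate InnerProductSpace BigOperators Topology

namespace Pool.Agent.Helper84.HRT

variable {H : Type} [NormedAddCommGroup H] [InnerProductSpace ℂ H] [CompleteSpace H]

variable {W : Weyl H} {D : Data} {F : Fam W D} {R0 δ0 C1 : ℝ}

theorem l20j_sgn_sub (a b : ℂ) (ε : ℝ) (hε : 0 < ε) (ha : a ≠ 0) (hb : ε ≤ ‖b‖) :
    ‖a / (‖a‖ : ℂ) - b / (‖b‖ : ℂ)‖ ≤ 2 * ‖a - b‖ / ε := by
  have hb0 : 0 < ‖b‖ := hε.trans_le hb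
  have ha0 : 0 < ‖a‖ := norm_pos_iff.2 ha
  have e : a / (‖a‖ : ℂ) - b / (‖b‖ : ℂ) =
      ((a - b) + (a / (‖a‖ : ℂ)) * ((‖b‖ - ‖a‖ : ℝ) : ℂ)) / (‖b‖ : ℂ) := by
    have h1 : (‖a‖ : ℂ) ≠ 0 := Complex.ofReal_ne_zero.2 ha0.ne'
    have h2 : (‖b‖ : ℂ) ≠ 0 := Complex.ofReal_ne_zero.2 hb0.ne'
    push_cast
    field_simp
    ring
  rw [e, norm_div, Complex.norm_real, Real.norm_eq_abs, abs_of_pos hb0]
  have h3 : ‖(a - b) + (a / (‖a‖ : ℂ)) * ((‖b‖ - ‖a‖ : ℝ) : ℂ)‖ ≤ 2 * ‖a - b‖ := by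
    refine (norm_add_le _ _).trans ?_
    rw [norm_mul, norm_div, Complex.norm_real, Complex.norm_real, Real.norm_eq_abs,
      Real.norm_eq_abs, abs_of_pos ha0, div_self ha0.ne', one_mul]
    have h4 := abs_norm_sub_norm_le b a
    rw [norm_sub_rev b a] at h4
    linarith
  calc ‖(a - b) + (a / (‖a‖ : ℂ)) * ((‖b‖ - ‖a‖ : ℝ) : ℂ)‖ / ‖b‖
      ≤ 2 * ‖a - b‖ / ‖b‖ := by gcongr
    _ ≤ 2 * ‖a - b‖ / ε := by gcongr

theorem l20j_ratio (a b c d : ℂ) (ε : ℝ) (hε : 0 < ε) (ha : a ≠ 0) (hc : c ≠ 0)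
    (hb : ε ≤ ‖b‖) (hd : ε ≤ ‖d‖) (hbd : b / (‖b‖ : ℂ) = d / (‖d‖ : ℂ)) :
    ‖conj a / (‖a‖ : ℂ) * ((‖c‖ : ℂ) / conj c) - 1‖ ≤ 2 * (‖a - b‖ + ‖c - d‖) / ε := by
  have hc0 : 0 < ‖c‖ := norm_pos_iff.2 hc
  have hd0 : 0 < ‖d‖ := hε.trans_le hd
  have hcc : (‖c‖ : ℂ) ≠ 0 := Complex.ofReal_ne_zero.2 hc0.ne'
  have hdd : (‖d‖ : ℂ) ≠ 0 := Complex.ofReal_ne_zero.2 hd0.ne'
  have hn : ∀ x : ℂ, x ≠ 0 → ‖x / (‖x‖ : ℂ)‖ = 1 := by
    intro x hx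
    rw [norm_div, Complex.norm_real, Real.norm_eq_abs, abs_norm, div_self (norm_ne_zero_iff.2 hx)]
  have e1 : (‖c‖ : ℂ) / conj c = c / (‖c‖ : ℂ) := by
    have h1 : conj c ≠ 0 := (map_ne_zero _).2 hc
    rw [div_eq_div_iff h1 hcc, Complex.mul_conj, Complex.normSq_eq_norm_sq]
    push_cast
    ring
  have e2 : conj (d / (‖d‖ : ℂ)) * (d / (‖d‖ : ℂ)) = 1 := by
    rw [mul_comm, Complex.mul_conj, Complex.normSq_eq_norm_sq, hn d (norm_pos_iff.1 hd0)]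
    norm_num
  have e3 : conj a / (‖a‖ : ℂ) = conj (a / (‖a‖ : ℂ)) := by
    rw [map_div₀, Complex.conj_ofReal]
  rw [e1, e3]
  have e4 : conj (a / (‖a‖ : ℂ)) * (c / (‖c‖ : ℂ)) - 1 =
      conj (a / (‖a‖ : ℂ) - b / (‖b‖ : ℂ)) * (c / (‖c‖ : ℂ)) +
        conj (d / (‖d‖ : ℂ)) * (c / (‖c‖ : ℂ) - d / (‖d‖ : ℂ)) := by
    rw [map_sub, hbd, mul_sub, e2]
    ring
  rw [e4]
  refine (norm_add_le _ _).trans ?_
  rw [norm_mul, norm_mul, Complex.norm_conj, Complex.norm_conj, hn c hc,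
    hn d (norm_pos_iff.1 hd0), mul_one, one_mul]
  have h1 := l20j_sgn_sub a b ε hε ha hb
  have h2 := l20j_sgn_sub c d ε hε hc hd
  calc _ ≤ 2 * ‖a - b‖ / ε + 2 * ‖c - d‖ / ε := add_le_add h1 h2
    _ = _ := by ring

theorem l20j_mf_unif (W : Weyl H) (u : ℕ → H) (ψ : H) (h : Tendsto u atTop (𝓝 ψ)) (ε : ℝ)
    (hε : 0 < ε) : ∀ᶠ j in atTop, ∀ t : ℝ, ‖mf W (u j) t - mf W ψ t‖ ≤ ε := by
  have h1 : Tendsto (fun j => ‖u j - ψ‖ * (‖u j‖ + ‖ψ‖)) atTop (𝓝 0) := by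
    have h2 : Tendsto (fun j => ‖u j - ψ‖) atTop (𝓝 0) :=
      tendsto_iff_norm_sub_tendsto_zero.1 h
    have h3 : Tendsto (fun j => ‖u j‖ + ‖ψ‖) atTop (𝓝 (‖ψ‖ + ‖ψ‖)) := h.norm.add_const _
    simpa using h2.mul h3
  filter_upwards [h1.eventually (ge_mem_nhds hε)] with j hj t
  exact (mf_sub_le W (u j) ψ t).trans hj

/-- L20.3 -/
theorem pair_toOne (P : Fam.Pair F R0 δ0 C1) : P.ToOne := by
  obtain ⟨Z, -, -, -, hfar⟩ := pair_exists_far P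
  refine Pool.Agent.Helper79.HRT.coset_uniform_one Z (fun j => D.NN (P.n j))
    (Eventually.of_forall fun j => (c5_NN_pos D (P.n j)).ne')
    (fun p hp => c5_NN_dvd D P.n_lim p hp.pos)
    (fun j t => chi (P.w j - P.v j) (node t)) (fun j t => chi_norm _ _)
    (fun p hp => Eventually.of_forall fun j k => chi_node_coset _ p hp.two_le _) ?_
  intro δ hδ ε hε
  obtain ⟨e, he, h1⟩ := hfar δ hδ
  obtain ⟨C, hC, h2⟩ := pair_chi_align P e he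
  have hCx : Tendsto (fun j => C * P.x j) atTop (𝓝 0) := by
    simpa using (pair_x_lim P).const_mul C
  filter_upwards [h1, h2, l20j_mf_unif W P.u P.ψ P.lim_u (ε * e / 8) (by positivity),
    l20j_mf_unif W P.y P.ψ2 P.lim_y (ε * e / 8) (by positivity),
    hCx.eventually (ge_mem_nhds (show (0 : ℝ) < ε / 2 by positivity))] with j h3 h4 h5 h6 h7
  intro k hk
  obtain ⟨f1, f2, f3, f4, f5⟩ := h3 k hk
  have g1 := h4 k f1 f2 f5
  have hne : ∀ x : ℂ, e ≤ ‖x‖ → x ≠ 0 := fun x hx => norm_pos_iff.1 (he.trans_le hx)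
  have g2 := l20j_ratio (mf W (P.y j) (P.nd j k)) (mf W P.ψ2 (P.nd j k))
    (mf W (P.u j) (P.nd j k)) (mf W P.ψ (P.nd j k)) e he (hne _ f2) (hne _ f1) f4 f3
    (pair_phase_eq P _ (hne _ f3) (hne _ f4))
  have g3 : 2 * (‖mf W (P.y j) (P.nd j k) - mf W P.ψ2 (P.nd j k)‖ +
      ‖mf W (P.u j) (P.nd j k) - mf W P.ψ (P.nd j k)‖) / e ≤ ε / 2 := by
    rw [div_le_iff₀ he]
    have := h5 (P.nd j k)
    have := h6 (P.nd j k)
    linarith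
  have g4 : C * Real.sqrt (D.NN (P.n j)) * P.x j ^ 190 ≤ ε / 2 := by
    refine le_trans ?_ h7
    have hx0 := (P.x_pos j).le
    have hs := pair_sqrt_le P j
    have hx1 := pair_x_le P j
    have e1 : C * Real.sqrt (D.NN (P.n j)) * P.x j ^ 190 =
        C * ((Real.sqrt (D.NN (P.n j)) * P.x j ^ 20) * P.x j ^ 170) := by ring
    rw [e1]
    refine mul_le_mul_of_nonneg_left ?_ hC.le
    calc (Real.sqrt (D.NN (P.n j)) * P.x j ^ 20) * P.x j ^ 170 ≤ 1 * P.x j ^ 170 := by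
          exact mul_le_mul_of_nonneg_right hs (pow_nonneg hx0 _)
      _ = P.x j ^ 170 := one_mul _
      _ ≤ P.x j ^ 1 := pow_le_pow_of_le_one hx0 hx1 (by norm_num)
      _ = P.x j := pow_one _
  show ‖chi (P.w j - P.v j) (node (P.nd j k)) - 1‖ ≤ ε
  have g5 := norm_sub_le_norm_sub_add_norm_sub (chi (P.w j - P.v j) (node (P.nd j k)))
    (conj (mf W (P.y j) (P.nd j k)) / (‖mf W (P.y j) (P.nd j k)‖ : ℂ) *
        ((‖mf W (P.u j) (P.nd j k)‖ : ℂ) / conj (mf W (P.u j) (P.nd j k)))) 1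
  linarith

end Pool.Agent.Helper84.HRT
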