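import Mathlib
import Pool.Agent.Helper84.HRT.DefsS

open MeasureTheory Complex Filter
open scoped ENNReal NNReal ComplexConjugate InnerProductSpace BigOperators Topology

namespace Pool.Agent.Helper84.HRT

variable {H : Type} [NormedAddCommGroup H] [InnerProductSpace ℂ H] [CompleteSpace H]

private theorem l20l_chi_norm (w α : ℂ) : ‖chi w α‖ = 1 := by
  unfold chi
  have h : -((2 * (α * conj w).im : ℝ) : ℂ) * I = ((-(2 * (α * conj w).im) : ℝ) : ℂ) * I := by
    push_cast; ring
  rw [h, Complex.norm_exp_ofReal_mul_I]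

private theorem l20l_node_norm (t : ℝ) : ‖node t‖ = 1 := by
  unfold node
  rw [Complex.norm_exp_ofReal_mul_I]

/-- The value of `chi` is the exponential of its argument. -/
private theorem l20l_chi_arg (w α : ℂ) : chi w α = cexp (((chi w α).arg : ℂ) * I) := by
  have h := Complex.norm_mul_exp_arg_mul_I (chi w α)
  rw [l20l_chi_norm, Complex.ofReal_one, one_mul] at h
  exact h.symm

/-- A unimodular number close to `1` has a small argument. -/
private theorem l20l_arg_le (z : ℂ) (hz : z = cexp ((z.arg : ℂ) * I)) :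
    |z.arg| ≤ Real.pi / 2 * ‖z - 1‖ := by
  have h1 : ‖z - 1‖ = ‖2 * Real.sin (z.arg / 2)‖ := by
    rw [← Complex.norm_exp_I_mul_ofReal_sub_one, mul_comm I, ← hz]
  have h2 : |z.arg| ≤ Real.pi := Complex.abs_arg_le_pi z
  have h3 : 2 / Real.pi * (|z.arg| / 2) ≤ Real.sin (|z.arg| / 2) :=
    Real.mul_le_sin (by positivity) (by linarith)
  have h4 : ‖2 * Real.sin (z.arg / 2)‖ = 2 * |Real.sin (z.arg / 2)| := by
    rw [norm_mul, Real.norm_eq_abs, Real.norm_eq_abs, abs_of_pos (by norm_num : (0 : ℝ) < 2)]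
  have h5 : Real.sin (|z.arg| / 2) ≤ |Real.sin (z.arg / 2)| := by
    rcases abs_cases z.arg with ⟨h, _⟩ | ⟨h, _⟩
    · rw [h]; exact le_abs_self _
    · rw [h, neg_div, Real.sin_neg]; exact neg_le_abs _
  rw [h1, h4]
  have h6 : 2 / Real.pi * (|z.arg| / 2) = |z.arg| / Real.pi := by ring
  rw [h6] at h3
  have h7 : |z.arg| / Real.pi ≤ |Real.sin (z.arg / 2)| := h3.trans h5
  rw [div_le_iff₀ Real.pi_pos] at h7
  linarith

private theorem l20l_node_sq_sum (N : ℕ) (hN : 3 ≤ N) :
    ∑ k ∈ Finset.range N, conj (node (((k : ℕ) : ℝ) / N)) ^ 2 = 0 := by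
  have hN0 : (N : ℂ) ≠ 0 := by
    have : N ≠ 0 := by omega
    exact_mod_cast this
  have hN0' : (N : ℝ) ≠ 0 := by
    have : N ≠ 0 := by omega
    exact_mod_cast this
  set q : ℂ := cexp ((-(4 * Real.pi / N) : ℝ) * I) with hq
  have h1 : ∀ k : ℕ, conj (node ((k : ℝ) / N)) ^ 2 = q ^ k := by
    intro k
    unfold node
    rw [← Complex.exp_conj, hq, ← Complex.exp_nat_mul, ← Complex.exp_nat_mul]
    congr 1
    simp only [map_mul, Complex.conj_ofReal, Complex.conj_I]
    push_cast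
    field_simp
    ring
  have hqN : q ^ N = 1 := by
    rw [hq, ← Complex.exp_nat_mul]
    rw [Complex.exp_eq_one_iff]
    refine ⟨-2, ?_⟩
    push_cast
    field_simp
    ring
  have hq1 : q ≠ 1 := by
    intro h
    rw [hq, Complex.exp_eq_one_iff] at h
    obtain ⟨m, hm⟩ := h
    have h2 : ((-(4 * Real.pi / N) : ℝ) : ℂ) = ((m * (2 * Real.pi) : ℝ) : ℂ) := by
      have h3 := mul_right_cancel₀ Complex.I_ne_zero (b := I)
        (a := ((-(4 * Real.pi / N) : ℝ) : ℂ)) (c := ((m * (2 * Real.pi) : ℝ) : ℂ))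
      apply h3
      rw [hm]
      push_cast
      ring
    have h4 : -(4 * Real.pi / N) = m * (2 * Real.pi) := by exact_mod_cast h2
    have h5 : (-2 : ℝ) = m * N := by
      field_simp at h4
      nlinarith [Real.pi_pos]
    have h6 : (-2 : ℤ) = m * N := by exact_mod_cast h5
    have h7 : (N : ℤ) ∣ 2 := ⟨-m, by linarith [h6, mul_comm m (N : ℤ)]⟩
    have h8 := Int.le_of_dvd (by norm_num) h7
    omega
  calc ∑ k ∈ Finset.range N, conj (node (((k : ℕ) : ℝ) / N)) ^ 2
      = ∑ k ∈ Finset.range N, q ^ k := Finset.sum_congr rfl (fun k _ => h1 k)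
    _ = 0 := by rw [geom_sum_eq hq1, hqN]; simp

/-- deterministic: `φ_k = arg χ_v(k)`, `conj σ = -i (1/N) Σ φ_k conj(node k)`;
`arg χ_{v-σ}(k) = φ_k + 2 Im (node_k conj σ)`, `Σ conj(node k)² = 0`. -/
theorem exists_sigma (N : ℕ) (hN : 3 ≤ N) (v : ℂ) (η : ℝ) (hη : η ≤ 1 / 4)
    (h : ∀ k : ℤ, ‖chi v (node ((k : ℝ) / N)) - 1‖ ≤ η) : ∃ σ : ℂ, ‖σ‖ ≤ 2 * η ∧
    ∑ k ∈ Finset.range N, (((chi (v - σ) (node (((k : ℕ) : ℝ) / N))).arg : ℝ) : ℂ) *
      conj (node (((k : ℕ) : ℝ) / N)) = 0 := by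
  have hN0 : (0 : ℝ) < N := by
    have : 0 < N := by omega
    exact_mod_cast this
  have hη0 : 0 ≤ η := le_trans (norm_nonneg _) (h 0)
  have hpi : Real.pi / 2 ≤ 2 := by linarith [Real.pi_lt_four]
  set φ : ℕ → ℝ := fun k => (chi v (node ((k : ℝ) / N))).arg with hφ
  have hφη : ∀ k : ℕ, |φ k| ≤ 2 * η := by
    intro k
    have h1 := l20l_arg_le _ (l20l_chi_arg v (node ((k : ℝ) / N)))
    have h2 : ‖chi v (node ((k : ℝ) / N)) - 1‖ ≤ η := by
      have := h (k : ℤ)
      rwa [Int.cast_natCast] at this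
    calc |φ k| ≤ Real.pi / 2 * ‖chi v (node ((k : ℝ) / N)) - 1‖ := h1
      _ ≤ 2 * η := mul_le_mul hpi h2 (norm_nonneg _) (by norm_num)
  set S : ℂ := ∑ k ∈ Finset.range N, ((φ k : ℝ) : ℂ) * conj (node ((k : ℝ) / N)) with hS
  have hSn : ‖S‖ ≤ N * (2 * η) := by
    calc ‖S‖ ≤ ∑ k ∈ Finset.range N, ‖((φ k : ℝ) : ℂ) * conj (node ((k : ℝ) / N))‖ :=
          norm_sum_le _ _
      _ ≤ ∑ _k ∈ Finset.range N, (2 * η) := by
          refine Finset.sum_le_sum (fun k _ => ?_)
          rw [norm_mul, RCLike.norm_conj, l20l_node_norm, mul_one, Complex.norm_real,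
            Real.norm_eq_abs]
          exact hφη k
      _ = N * (2 * η) := by rw [Finset.sum_const, Finset.card_range, nsmul_eq_mul]
  set σ : ℂ := conj (-I * (S / N)) with hσ
  have hσc : conj σ = -I * (S / N) := by rw [hσ, Complex.conj_conj]
  have hσn : ‖σ‖ ≤ 2 * η := by
    rw [hσ, RCLike.norm_conj, norm_mul, norm_neg, Complex.norm_I, one_mul, norm_div,
      Complex.norm_natCast, div_le_iff₀ hN0]
    linarith
  clear_value σ
  refine ⟨σ, hσn, ?_⟩
  have hpi3 : 3 < Real.pi := Real.pi_gt_three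
  have harg : ∀ k : ℕ, (chi (v - σ) (node ((k : ℝ) / N))).arg =
      φ k + 2 * (node ((k : ℝ) / N) * conj σ).im := by
    intro k
    have h1 : chi (v - σ) (node ((k : ℝ) / N)) =
        cexp (((φ k + 2 * (node ((k : ℝ) / N) * conj σ).im : ℝ) : ℂ) * I) := by
      have h2 : chi (v - σ) (node ((k : ℝ) / N)) = chi v (node ((k : ℝ) / N)) *
          cexp (((2 * (node ((k : ℝ) / N) * conj σ).im : ℝ) : ℂ) * I) := by
        unfold chi
        rw [← Complex.exp_add]
        congr 1
        rw [map_sub, mul_sub, Complex.sub_im]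
        push_cast
        ring
      rw [h2, l20l_chi_arg v, ← Complex.exp_add]
      congr 1
      push_cast
      ring
    have h3 : |2 * (node ((k : ℝ) / N) * conj σ).im| ≤ 4 * η := by
      rw [abs_mul, abs_of_pos (by norm_num : (0 : ℝ) < 2)]
      have h4 : |(node ((k : ℝ) / N) * conj σ).im| ≤ 2 * η := by
        refine le_trans (Complex.abs_im_le_norm _) ?_
        rw [norm_mul, l20l_node_norm, one_mul, RCLike.norm_conj]
        exact hσn
      linarith
    have h5 := abs_le.1 (hφη k)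
    have h6 := abs_le.1 h3
    rw [h1, Complex.exp_mul_I, Complex.arg_cos_add_sin_mul_I]
    constructor
    · linarith [h5.1, h6.1]
    · linarith [h5.2, h6.2]
  have him : ∀ z : ℂ, ((z.im : ℝ) : ℂ) = -(I / 2) * (z - conj z) := by
    intro z
    rw [Complex.sub_conj]
    push_cast
    linear_combination (z.im : ℂ) * Complex.I_mul_I
  have hNC : (N : ℂ) ≠ 0 := by
    have : N ≠ 0 := by omega
    exact_mod_cast this
  have hnode : ∀ k : ℕ, node ((k : ℝ) / N) * conj (node ((k : ℝ) / N)) = 1 := by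
    intro k
    rw [Complex.mul_conj, Complex.normSq_eq_norm_sq, l20l_node_norm]
    norm_num
  calc ∑ k ∈ Finset.range N, (((chi (v - σ) (node (((k : ℕ) : ℝ) / N))).arg : ℝ) : ℂ) *
        conj (node (((k : ℕ) : ℝ) / N))
      = ∑ k ∈ Finset.range N, (((φ k : ℝ) : ℂ) * conj (node ((k : ℝ) / N)) +
          (-I) * conj σ + I * σ * conj (node (((k : ℕ) : ℝ) / N)) ^ 2) := by
        refine Finset.sum_congr rfl (fun k _ => ?_)
        rw [harg k]
        push_cast
        rw [him, map_mul, Complex.conj_conj]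
        have hk := hnode k
        generalize conj σ = s
        generalize conj (node ((k : ℝ) / N)) = c at hk ⊢
        generalize node ((k : ℝ) / N) = z at hk ⊢
        linear_combination (-I * s) * hk
    _ = S + N * ((-I) * conj σ) + I * σ * ∑ k ∈ Finset.range N,
          conj (node (((k : ℕ) : ℝ) / N)) ^ 2 := by
        rw [Finset.sum_add_distrib, Finset.sum_add_distrib, Finset.sum_const, Finset.card_range,
          nsmul_eq_mul, Finset.mul_sum]
    _ = 0 := by
        rw [l20l_node_sq_sum N hN, hσc]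
        have hI : I * I = -1 := Complex.I_mul_I
        field_simp
        linear_combination S * hI

end Pool.Agent.Helper84.HRT
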