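import Mathlib
import Pool.Agent.Helper84.HRT.DefsS
import Pool.Agent.Helper84.HRT.WA
import Pool.Agent.Helper84.HRT.WB
import Pool.Agent.Helper84.HRT.XC
import Pool.Agent.Helper84.HRT.SK
import Pool.Agent.Helper84.HRT.L20J
import Pool.Agent.Helper84.HRT.L20L

open MeasureTheory Complex Filter
open scoped ENNReal NNReal ComplexConjugate InnerProductSpace BigOperators Topology

namespace Pool.Agent.Helper84.HRT

variable {H : Type} [NormedAddCommGroup H] [InnerProductSpace ℂ H] [CompleteSpace H]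

variable {W : Weyl H} {D : Data} {F : Fam W D} {R0 δ0 C1 : ℝ}

/-- the choice of the shift -/
private theorem l20m_sigma (P : Fam.Pair F R0 δ0 C1) : ∃ σ : ℕ → ℂ,
    Tendsto σ atTop (nhds 0) ∧ (∀ j, ‖σ j‖ ≤ 1) ∧
    ∀ᶠ j in atTop, ∑ k ∈ Finset.range (D.NN (P.n j)),
      (((chi (P.w j - P.v j - σ j) (node (((k : ℕ) : ℝ) / D.NN (P.n j)))).arg : ℝ) : ℂ) *
      conj (node (((k : ℕ) : ℝ) / D.NN (P.n j))) = 0 := by
  classical
  set η : ℕ → ℝ := fun j =>
    ⨆ k : ℤ, ‖chi (P.w j - P.v j) (node ((k : ℝ) / D.NN (P.n j))) - 1‖ with hη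
  have hbdd : ∀ j, BddAbove (Set.range fun k : ℤ =>
      ‖chi (P.w j - P.v j) (node ((k : ℝ) / D.NN (P.n j))) - 1‖) := by
    intro j
    refine ⟨2, ?_⟩
    rintro _ ⟨k, rfl⟩
    calc _ ≤ ‖chi (P.w j - P.v j) (node ((k : ℝ) / D.NN (P.n j)))‖ + ‖(1 : ℂ)‖ := norm_sub_le _ _
      _ = 2 := by rw [chi_norm, norm_one]; norm_num
  have hle : ∀ j (k : ℤ), ‖chi (P.w j - P.v j) (node ((k : ℝ) / D.NN (P.n j))) - 1‖ ≤ η j :=
    fun j k => le_ciSup (hbdd j) k
  have hη0 : ∀ j, 0 ≤ η j := fun j => le_trans (norm_nonneg _) (hle j 0)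
  have hηlim : Tendsto η atTop (nhds 0) := by
    rw [Metric.tendsto_nhds]
    intro ε hε
    have h1 := pair_toOne P (ε / 2) (by positivity)
    filter_upwards [h1] with j hj
    rw [Real.dist_eq, sub_zero, abs_of_nonneg (hη0 j)]
    have : η j ≤ ε / 2 := ciSup_le hj
    linarith
  have hN : ∀ᶠ j in atTop, 3 ≤ D.NN (P.n j) :=
    (((NN_tendsto D).comp P.n_lim).eventually_ge_atTop 3)
  have hsm : ∀ᶠ j in atTop, η j ≤ 1 / 4 :=
    (hηlim.eventually (ge_mem_nhds (by norm_num : (0 : ℝ) < 1 / 4)))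
  have hex : ∀ j, ∃ s : ℂ, ‖s‖ ≤ 2 * η j ∧ ‖s‖ ≤ 1 ∧ ((3 ≤ D.NN (P.n j) ∧ η j ≤ 1 / 4) →
      ∑ k ∈ Finset.range (D.NN (P.n j)),
      (((chi (P.w j - P.v j - s) (node (((k : ℕ) : ℝ) / D.NN (P.n j)))).arg : ℝ) : ℂ) *
      conj (node (((k : ℕ) : ℝ) / D.NN (P.n j))) = 0) := by
    intro j
    by_cases hj : 3 ≤ D.NN (P.n j) ∧ η j ≤ 1 / 4
    · obtain ⟨s, hs1, hs2⟩ := exists_sigma (D.NN (P.n j)) hj.1 (P.w j - P.v j) (η j) hj.2 (hle j)
      refine ⟨s, hs1, by linarith [hj.2], fun _ => hs2⟩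
    · refine ⟨0, ?_, by simp, fun h => absurd h hj⟩
      rw [norm_zero]
      have := hη0 j
      positivity
  choose σ h1 h2 h3 using hex
  refine ⟨σ, ?_, h2, ?_⟩
  · rw [tendsto_zero_iff_norm_tendsto_zero]
    refine squeeze_zero (fun j => norm_nonneg _) h1 ?_
    simpa using hηlim.const_mul 2
  · filter_upwards [hN, hsm] with j a b
    exact h3 j ⟨a, b⟩

private theorem l20m_tw (D : Data) (s : ℕ → ℂ) (hs : Tendsto s atTop (nhds 0))
    (a : ℕ → Fin D.m → ℂ) (b : Fin D.m → ℂ) (h : Tendsto a atTop (nhds b)) :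
    Tendsto (fun j => D.tw (s j) (a j)) atTop (nhds b) := by
  rw [tendsto_pi_nhds] at h ⊢
  intro i
  have h2 : Tendsto (fun j => conj (chi (s j) (node (D.τ i)))) atTop (nhds (1 : ℂ)) := by
    have hc : Continuous fun w : ℂ => conj (chi w (node (D.τ i))) :=
      Complex.continuous_conj.comp
        (chi_cont.comp (Continuous.prodMk_left (node (D.τ i))))
    have := (hc.tendsto 0).comp hs
    simpa [chi_zero_left, Function.comp_def] using this
  have := (h i).mul h2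
  simpa [Data.tw] using this

private theorem l20m_U (W : Weyl H) (s : ℕ → ℂ) (hs : Tendsto s atTop (nhds 0))
    (y : ℕ → H) (p : H) (h : Tendsto y atTop (nhds p)) :
    Tendsto (fun j => W.U (s j) (y j)) atTop (nhds p) := by
  have h1 : Tendsto (fun j => W.U (s j) p) atTop (nhds p) := by
    have := ((W.cont p).tendsto 0).comp hs
    simpa [W.U_zero, Function.comp_def] using this
  have h2 : Tendsto (fun j => W.U (s j) (y j - p)) atTop (nhds 0) := by
    rw [tendsto_zero_iff_norm_tendsto_zero]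
    simp only [W.norm_U]
    rw [← tendsto_zero_iff_norm_tendsto_zero]
    simpa using h.sub_const p
  have h3 := h2.add h1
  rw [zero_add] at h3
  refine h3.congr fun j => ?_
  rw [map_sub]; abel

private theorem l20m_coef (N : ℕ → ℕ) (C : ℝ) (hC : 0 ≤ C) (s : ℕ → ℂ)
    (hs : Tendsto s atTop (nhds 0)) (a : ℕ → ℝ → ℂ) (ha : ∀ j t, ‖a j t‖ ≤ C) (b : ℝ → ℂ)
    (h : Tendsto (fun j => ∫⁻ t in Set.Ico (0 : ℝ) 1, ‖a j t - b t‖ₑ ^ 2) atTop (nhds 0)) :
    Tendsto (fun j => ∫⁻ t in Set.Ico (0 : ℝ) 1, ‖twN (N j) (s j) (a j) t - b t‖ₑ ^ 2)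
      atTop (nhds 0) := by
  have key : ∀ j t, ‖twN (N j) (s j) (a j) t - b t‖ₑ ^ 2 ≤
      2 * ‖a j t - b t‖ₑ ^ 2 + ENNReal.ofReal (2 * (C * (2 * ‖s j‖)) ^ 2) := by
    intro j t
    have e1 : ‖chi (s j) (node (cell (N j) t)) - 1‖ ≤ 2 * ‖s j‖ := by
      have := chi_lip (s j) 0 (node (cell (N j) t))
      rwa [chi_zero_left, node_norm, sub_zero, mul_one] at this
    have e2 : ‖twN (N j) (s j) (a j) t - b t‖ ≤ ‖a j t - b t‖ + C * (2 * ‖s j‖) := by
      have : twN (N j) (s j) (a j) t - b t = (a j t - b t) +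
          a j t * conj (chi (s j) (node (cell (N j) t)) - 1) := by
        simp only [twN, map_sub, map_one]; ring
      rw [this]
      refine (norm_add_le _ _).trans ?_
      rw [norm_mul, RCLike.norm_conj]
      gcongr
      exact ha j t
    have e3 : ‖twN (N j) (s j) (a j) t - b t‖ ^ 2 ≤
        2 * ‖a j t - b t‖ ^ 2 + 2 * (C * (2 * ‖s j‖)) ^ 2 := by
      have h0 := norm_nonneg (twN (N j) (s j) (a j) t - b t)
      nlinarith [sq_nonneg (‖a j t - b t‖ - C * (2 * ‖s j‖)), norm_nonneg (a j t - b t)]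
    have e4 : ∀ z : ℂ, ‖z‖ₑ ^ 2 = ENNReal.ofReal (‖z‖ ^ 2) := by
      intro z
      rw [← ofReal_norm, ENNReal.ofReal_pow (norm_nonneg _)]
    rw [e4, e4]
    calc ENNReal.ofReal (‖twN (N j) (s j) (a j) t - b t‖ ^ 2)
        ≤ ENNReal.ofReal (2 * ‖a j t - b t‖ ^ 2 + 2 * (C * (2 * ‖s j‖)) ^ 2) :=
          ENNReal.ofReal_le_ofReal e3
      _ = _ := by
          rw [ENNReal.ofReal_add (by positivity) (by positivity),
            ENNReal.ofReal_mul (by norm_num)]
          norm_num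
  have hlim : Tendsto (fun j => 2 * (∫⁻ t in Set.Ico (0 : ℝ) 1, ‖a j t - b t‖ₑ ^ 2) +
      ENNReal.ofReal (2 * (C * (2 * ‖s j‖)) ^ 2)) atTop (nhds 0) := by
    have h1 : Tendsto (fun j => 2 * (∫⁻ t in Set.Ico (0 : ℝ) 1, ‖a j t - b t‖ₑ ^ 2)) atTop
        (nhds (2 * 0)) := ENNReal.Tendsto.const_mul h (Or.inr (by norm_num))
    have h2 : Tendsto (fun j => ENNReal.ofReal (2 * (C * (2 * ‖s j‖)) ^ 2)) atTop
        (nhds (ENNReal.ofReal (2 * (C * (2 * 0)) ^ 2))) := by
      apply ENNReal.tendsto_ofReal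
      have h3 : Tendsto (fun j => ‖s j‖) atTop (nhds 0) := by
        rwa [← tendsto_zero_iff_norm_tendsto_zero]
      exact (((h3.const_mul 2).const_mul C).pow 2).const_mul 2
    have := h1.add h2
    simpa using this
  refine tendsto_of_tendsto_of_tendsto_of_le_of_le tendsto_const_nhds hlim
    (fun j => zero_le) (fun j => ?_)
  calc ∫⁻ t in Set.Ico (0 : ℝ) 1, ‖twN (N j) (s j) (a j) t - b t‖ₑ ^ 2
      ≤ ∫⁻ t in Set.Ico (0 : ℝ) 1, (2 * ‖a j t - b t‖ₑ ^ 2 +
          ENNReal.ofReal (2 * (C * (2 * ‖s j‖)) ^ 2)) := lintegral_mono fun t => key j t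
    _ = (∫⁻ t in Set.Ico (0 : ℝ) 1, 2 * ‖a j t - b t‖ₑ ^ 2) +
          ENNReal.ofReal (2 * (C * (2 * ‖s j‖)) ^ 2) := by
        rw [lintegral_add_right _ measurable_const]
        simp
    _ = _ := by
        rw [lintegral_const_mul' _ _ (by norm_num)]

/-- shift the second centre by `σ_j → 0` (`exists_sigma`, `pair_toOne`), `y := U σ y`
(`tr_tr`, `tr_apply_U`, `W.cont`, `S2_pw_U`, `tw_tw`, `twN_twN`, `chi_lip`) -/
theorem pair_exists_shift (P : Fam.Pair F R0 δ0 C1) :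
    ∃ (C1' : ℝ) (σ : ℕ → ℂ) (P' : Fam.Pair F R0 δ0 C1'),
    Tendsto σ atTop (nhds 0) ∧ P'.n = P.n ∧ P'.x = P.x ∧ P'.w = P.w ∧
    (P'.v = fun j => P.v j + σ j) ∧ P'.Mom0 := by
  obtain ⟨σ, hσ, hσ1, hm⟩ := l20m_sigma P
  have hC : C1 ≤ 2 ^ 600 * |C1| := by
    have h1 : |C1| ≤ 2 ^ 600 * |C1| := le_mul_of_one_le_left (abs_nonneg _) (one_le_pow₀ (by norm_num))
    exact (le_abs_self C1).trans h1
  let P' : Fam.Pair F R0 δ0 (2 ^ 600 * |C1|) :=
    { n := P.n
      x := P.x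
      w := P.w
      v := fun j => P.v j + σ j
      g := P.g
      u := P.u
      y := fun j => W.U (σ j) (P.y j)
      γ := P.γ
      γ2 := P.γ2
      ξ := P.ξ
      ψ := P.ψ
      ψ2 := P.ψ2
      n_lim := P.n_lim
      n_ge := P.n_ge
      x_pos := P.x_pos
      x_N := P.x_N
      sep := P.sep
      ctr := P.ctr
      nrm := P.nrm
      near_u := P.near_u
      near_y := by
        intro j
        rw [← tr_tr, tr_apply_U, W.norm_U]
        exact P.near_y j
      mom_u := fun j => (P.mom_u j).trans (ENNReal.ofReal_le_ofReal hC)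
      mom_y := by
        intro j
        refine (S2_pw_U W 300 (σ j) (P.y j)).trans ?_
        calc ENNReal.ofReal ((1 + ‖σ j‖) ^ (2 * (300 : ℤ).natAbs)) * S2 (pw 300) (W.V (P.y j))
            ≤ ENNReal.ofReal (2 ^ 600) * ENNReal.ofReal |C1| := by
              gcongr
              · have e : (2 * (300 : ℤ).natAbs) = 600 := by decide
                rw [e]
                have : 1 + ‖σ j‖ ≤ 2 := by linarith [hσ1 j]
                exact pow_le_pow_left₀ (by positivity) this 600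
              · exact (P.mom_y j).trans (ENNReal.ofReal_le_ofReal (le_abs_self _))
          _ = ENNReal.ofReal (2 ^ 600 * |C1|) := by
              rw [ENNReal.ofReal_mul (by positivity)]
      loc := P.loc
      lim_u := P.lim_u
      lim_y := l20m_U W σ hσ P.y P.ψ2 P.lim_y
      opt := P.opt
      opt2 := P.opt2
      base := P.base
      base2 := by
        have := l20m_tw D σ hσ _ _ P.base2
        refine this.congr fun j => ?_
        rw [tw_tw]
      coef := P.coef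
      coef2 := by
        have hb : ∀ j t, ‖twN (D.NN (P.n j)) (P.v j) (F.ξs (P.n j)) t‖ ≤ F.C0 := by
          intro j t
          simp only [twN]
          rw [norm_mul, RCLike.norm_conj, chi_norm, mul_one]
          exact (AdmN.norm_le (NN_pos D _) (F.ξs_adm _ (P.n_ge j)) (F.rs_nonneg _) t).trans
            (F.rs_le _)
        have := l20m_coef (fun j => D.NN (P.n j)) F.C0 F.C0_pos.le σ hσ _ hb P.ξ P.coef2
        refine this.congr fun j => ?_
        simp only [twN_twN]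
      rad := P.rad
      ψ_one := P.ψ_one
      ψ_tight := P.ψ_tight }
  refine ⟨2 ^ 600 * |C1|, σ, P', hσ, rfl, rfl, rfl, rfl, ?_⟩
  filter_upwards [hm] with j hj
  refine Eq.trans ?_ hj
  refine Finset.sum_congr rfl fun k _ => ?_
  simp only [Fam.Pair.ph, Fam.Pair.nd, Int.cast_natCast]
  rw [sub_sub]

end Pool.Agent.Helper84.HRT
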