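import Mathlib
import Pool.Agent.Helper84.HRT.DefsS
import Pool.Agent.Helper84.HRT.WA
import Pool.Agent.Helper84.HRT.WB
import Pool.Agent.Helper84.HRT.XC
import Pool.Agent.Helper84.HRT.L17B
import Pool.Agent.Helper84.HRT.L18A
import Pool.Agent.Helper84.HRT.L18B
import Pool.Agent.Helper84.HRT.L20J

open MeasureTheory Complex Filter
open scoped ENNReal NNReal ComplexConjugate InnerProductSpace BigOperators Topology

namespace Pool.Agent.Helper84.HRT

variable {H : Type} [NormedAddCommGroup H] [InnerProductSpace ℂ H] [CompleteSpace H]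

variable {W : Weyl H} {D : Data} {F : Fam W D} {R0 δ0 C1 : ℝ}


/-- `D.τ i` is a node (`NN_node`), so `tw w γ` and `tw v γ` have the same limit -/
theorem pair_gam_eq (P : Fam.Pair F R0 δ0 C1) : P.γ2 = P.γ := by
  funext i
  have h1 : Tendsto (fun j => D.tw (P.w j) (F.γs (P.n j)) i) atTop (nhds (P.γ i)) :=
    tendsto_pi_nhds.1 P.base i
  have h2 : Tendsto (fun j => D.tw (P.v j) (F.γs (P.n j)) i) atTop (nhds (P.γ2 i)) :=
    tendsto_pi_nhds.1 P.base2 i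
  have h3 : Tendsto (fun j => D.tw (P.w j) (F.γs (P.n j)) i - D.tw (P.v j) (F.γs (P.n j)) i)
      atTop (nhds 0) := by
    rw [Metric.tendsto_atTop]
    intro ε hε
    have h4 := pair_toOne P (ε / 2) (by linarith)
    rw [eventually_atTop] at h4
    obtain ⟨j0, hj0⟩ := h4
    refine ⟨j0, fun j hj => ?_⟩
    obtain ⟨k, hk⟩ := NN_node D (P.n j) i
    have h5 := hj0 j hj (k : ℤ)
    have h6 : P.nd j (k : ℤ) = D.τ i := by
      unfold Fam.Pair.nd
      rw [hk, Int.cast_natCast]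
    rw [h6] at h5
    rw [dist_zero_right]
    have h7 : D.tw (P.w j) (F.γs (P.n j)) i - D.tw (P.v j) (F.γs (P.n j)) i =
        F.γs (P.n j) i * conj (chi (P.v j) (node (D.τ i))) *
          conj (chi (P.w j - P.v j) (node (D.τ i)) - 1) := by
      unfold Data.tw
      have h8 : chi (P.w j) (node (D.τ i)) =
          chi (P.w j - P.v j) (node (D.τ i)) * chi (P.v j) (node (D.τ i)) := by
        rw [← chi_add_left, sub_add_cancel]
      simp only [h8, map_mul, map_sub, map_one]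
      ring
    rw [h7, norm_mul, norm_mul, RCLike.norm_conj, RCLike.norm_conj, chi_norm,
      D.Γ_one _ (F.γs_mem _ (P.n_ge j)) i, one_mul, one_mul]
    linarith
  have h9 := h1.sub h2
  have h10 := tendsto_nhds_unique h9 h3
  exact (sub_eq_zero.1 h10).symm

/-- `F.E3` -/
theorem pair_exists_smul (P : Fam.Pair F R0 δ0 C1) : ∃ a0 : ℂ, a0 ≠ 0 ∧ P.ψ2 = a0 • P.ψ := by
  have h2 := P.opt2.null
  rw [pair_gam_eq P] at h2
  obtain ⟨a0, ha0⟩ := F.E3 P.γ P.opt.γ_mem P.ξ P.opt.adm P.ψ P.ψ2 P.opt.ne P.opt.null h2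
  refine ⟨a0, ?_, ha0⟩
  rintro rfl
  exact P.opt2.ne (by rw [ha0, zero_smul])

private theorem l20k_ne (P : Fam.Pair F R0 δ0 C1) : brk W (40 * F.R) P.ψ P.ψ ≠ 0 := by
  have hR := F.R_ge
  rw [brk_self]
  have h1 := tight_ball F.R hR (W.V P.ψ) (V_cont W P.ψ).measurable P.ψ_one P.ψ_tight
  have h2 := ball_le_om F.R (40 * F.R) (by linarith) (by linarith) (W.V P.ψ)
  rw [P.ψ_one, mul_one] at h2
  have h3 : S2 (ball1 (40 * F.R)) (W.V P.ψ) ≠ ⊤ := ne_top_of_le_ne_top ENNReal.ofReal_ne_top h2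
  have h4 : S2 (ball1 (40 * F.R)) (W.V P.ψ) ≠ 0 := by
    intro h
    rw [h] at h1
    have h5 : ENNReal.ofReal (7 / 10) ≠ 0 := by
      rw [Ne, ENNReal.ofReal_eq_zero]
      norm_num
    exact h5 (le_antisymm h1 bot_le)
  have h6 : (S2 (ball1 (40 * F.R)) (W.V P.ψ)).toReal ≠ 0 := ENNReal.toReal_ne_zero.2 ⟨h4, h3⟩
  exact_mod_cast h6

private theorem l20k_lim (P : Fam.Pair F R0 δ0 C1) :
    Tendsto (fun j => brk W (40 * F.R) (P.u j) (P.u j)) atTop
      (nhds (brk W (40 * F.R) P.ψ P.ψ)) :=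
  brk_tendsto W (40 * F.R) P.u P.u P.ψ P.ψ (unif_of_tendsto W P.u P.ψ P.lim_u)
    (unif_of_tendsto W P.u P.ψ P.lim_u)

/-- `brk_tendsto`, `unif_of_tendsto`, `brk_self`, `tight_ball` for `ψ` -/
theorem pair_a_tendsto (P : Fam.Pair F R0 δ0 C1) : ∃ a0 : ℂ, a0 ≠ 0 ∧
    Tendsto P.a atTop (nhds a0) ∧ P.ψ2 = a0 • P.ψ := by
  obtain ⟨a0, ha, hψ⟩ := pair_exists_smul P
  refine ⟨a0, ha, ?_, hψ⟩
  have h1 : Tendsto (fun j => brk W (40 * F.R) (P.u j) (P.y j)) atTop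
      (nhds (brk W (40 * F.R) P.ψ P.ψ2)) :=
    brk_tendsto W (40 * F.R) P.u P.y P.ψ P.ψ2 (unif_of_tendsto W P.u P.ψ P.lim_u)
      (unif_of_tendsto W P.y P.ψ2 P.lim_y)
  have h2 := h1.div (l20k_lim P) (l20k_ne P)
  rw [hψ, brk_smul, mul_div_assoc, div_self (l20k_ne P), mul_one] at h2
  exact h2

theorem pair_brk_zero (P : Fam.Pair F R0 δ0 C1) : ∀ᶠ j in atTop,
    brk W (40 * F.R) (P.u j) (P.y j - P.a j • P.u j) = 0 := by
  have h := (l20k_lim P).eventually_ne (l20k_ne P)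
  filter_upwards [h] with j hj
  rw [brk_sub, brk_smul]
  unfold Fam.Pair.a
  rw [div_mul_cancel₀ _ hj, sub_self]

end Pool.Agent.Helper84.HRT
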