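import Mathlib
import Pool.Agent.Helper84.HRT.DefsS
import Pool.Agent.Helper84.HRT.WB
import Pool.Agent.Helper84.HRT.WD
import Pool.Agent.Helper84.HRT.XC
import Pool.Agent.Helper84.HRT.SC
import Pool.Agent.Helper84.HRT.SG
import Pool.Agent.Helper84.HRT.SH
import Pool.Agent.Helper84.HRT.L18A
import Pool.Agent.Helper84.HRT.L20F
import Pool.Agent.Helper84.HRT.L20K

open MeasureTheory Complex Filter
open scoped ENNReal NNReal ComplexConjugate InnerProductSpace BigOperators Topology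

namespace Pool.Agent.Helper84.HRT

variable {H : Type} [NormedAddCommGroup H] [InnerProductSpace ℂ H] [CompleteSpace H]

variable {W : Weyl H} {D : Data} {F : Fam W D} {R0 δ0 C1 : ℝ}

private theorem l20o_S2_le (W : Weyl H) (Y : ℂ → ℝ) (hY : ∀ z, |Y z| ≤ 1) (f : H) :
    S2 Y (W.V f) ≤ ENNReal.ofReal (‖f‖ ^ 2) := by
  rw [← S2_V]
  refine S2_mono2 fun z => ?_
  rw [abs_one]
  exact mul_le_mul_of_nonneg_right (hY z) (norm_nonneg _)

private theorem l20o_pw (z : ℂ) : |pw (-59) z| ≤ 1 := by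
  unfold pw
  have h1 : (1 : ℝ) ≤ 1 + ‖z‖ := by linarith [norm_nonneg z]
  rw [abs_of_nonneg (by positivity), zpow_neg]
  exact inv_le_one_of_one_le₀ (one_le_zpow₀ h1 (by norm_num))

private theorem l20o_ball (ρ : ℝ) (z : ℂ) : |ball1 ρ z| ≤ 1 := by
  unfold ball1
  by_cases h : z ∈ Metric.closedBall (0 : ℂ) ρ
  · rw [Set.indicator_of_mem h]; simp
  · rw [Set.indicator_of_notMem h]; simp

/-- L20.5. `z := y - a u`: `A^w z = (A^w - A^v) y + A^v y - a A^w u`, norm `≤ 2 C0 Φ ‖y‖ +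
(1+|a|) x^380` (`tr_sub_le`, `pair_le_ph`); `WI` with `e1 = x^8` (`e1^100 = x^800`),
`|brk g z| = |brk (g-u) z| ≤ x^360 ‖z‖` (`pair_brk_zero`, `P.loc`); `x^180 ≤ Φ` by `Big`. -/
theorem pair_diff_small (P : Fam.Pair F R0 δ0 C1) (hWI : F.WI R0 δ0) (Φ : ℕ → ℝ)
    (hΦ : P.IsMax Φ) (hb : P.Big) : ∃ C : ℝ, 0 < C ∧ ∀ᶠ j in atTop,
    S2 (pw (-60)) (W.V (P.y j - P.a j • P.u j)) ≤ ENNReal.ofReal (C * Φ j ^ 2) := by
  obtain ⟨C, e10, n0, hC, he10, hn0, hWI⟩ := hWI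
  obtain ⟨a0, -, ha, -⟩ := pair_a_tendsto P
  set m : ℝ := Real.sqrt (max C1 0) with hm
  have hm0 : 0 ≤ m := Real.sqrt_nonneg _
  set α : ℝ := ‖a0‖ + 1 with hα
  have hα0 : 0 ≤ α := by positivity
  set K : ℝ := 2 * F.C0 * m + 1 + α with hK
  have hC0 := F.C0_pos
  have hK0 : 0 ≤ K := by positivity
  set Z : ℝ := (1 + α) * m with hZ
  have hZ0 : 0 ≤ Z := by positivity
  refine ⟨C * (K ^ 2 + Z ^ 2) + Z ^ 2 + 1, by positivity, ?_⟩
  have hx0 : Tendsto (fun j => P.x j ^ 8) atTop (𝓝 0) := by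
    have := (pair_x_lim P).pow 8
    simpa using this
  have e1 : ∀ᶠ j in atTop, P.x j ^ 8 ≤ e10 := hx0.eventually_le_const he10
  have e2 : ∀ᶠ j in atTop, n0 ≤ P.n j := P.n_lim.eventually_ge_atTop n0
  have e3 : ∀ᶠ j in atTop, ‖P.a j‖ ≤ α :=
    ha.norm.eventually_le_const (by rw [hα]; linarith)
  filter_upwards [e1, e2, e3, hb 1, pair_brk_zero P] with j h1 h2 h3 h4 h5
  have hx : 0 < P.x j := P.x_pos j
  have hx1 : P.x j ≤ 1 := pair_x_le P j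
  have hN1 : (1 : ℝ) ≤ Real.sqrt (D.NN (P.n j)) := by
    rw [Real.one_le_sqrt]
    exact_mod_cast NN_pos D (P.n j)
  have hchi : ∀ k : ℤ, ‖chi (P.w j - P.v j) (node ((k : ℝ) / D.NN (P.n j))) - 1‖ ≤ Φ j :=
    fun k => (pair_le_ph P j k).trans ((hΦ j).1 k)
  have hxΦ : P.x j ^ 180 ≤ Φ j := by
    obtain ⟨k, hk⟩ := h4
    have := hchi k
    have h6 : P.x j ^ 180 ≤ 1 * Real.sqrt (D.NN (P.n j)) * P.x j ^ 180 := by
      rw [one_mul]
      exact le_mul_of_one_le_left (by positivity) hN1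
    exact h6.trans (hk.le.trans this)
  have hΦ0 : 0 ≤ Φ j := (by positivity : (0 : ℝ) ≤ P.x j ^ 180).trans hxΦ
  have hu : ‖P.u j‖ ≤ m := by
    rw [hm]; exact Real.le_sqrt_of_sq_le (pair_norm_u P j).1
  have hy : ‖P.y j‖ ≤ m := by
    rw [hm]; exact Real.le_sqrt_of_sq_le (pair_norm_u P j).2
  set z : H := P.y j - P.a j • P.u j with hz
  have hzn : ‖z‖ ≤ Z := by
    calc ‖z‖ ≤ ‖P.y j‖ + ‖P.a j • P.u j‖ := norm_sub_le _ _
      _ ≤ m + α * m := by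
          rw [norm_smul]
          gcongr
      _ = Z := by rw [hZ]; ring
  have hx380 : P.x j ^ 380 ≤ Φ j :=
    (pow_le_pow_of_le_one hx.le hx1 (by norm_num)).trans hxΦ
  have hAz : ‖tr W (P.w j) (F.A (P.n j)) z‖ ≤ K * Φ j := by
    have e : tr W (P.w j) (F.A (P.n j)) z =
        (tr W (P.w j) (F.A (P.n j)) (P.y j) - tr W (P.v j) (F.A (P.n j)) (P.y j)) +
          tr W (P.v j) (F.A (P.n j)) (P.y j) -
          P.a j • tr W (P.w j) (F.A (P.n j)) (P.u j) := by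
      rw [hz, map_sub, map_smul]; abel
    rw [e]
    have t1 : ‖tr W (P.w j) (F.A (P.n j)) (P.y j) - tr W (P.v j) (F.A (P.n j)) (P.y j)‖ ≤
        2 * F.C0 * m * Φ j := by
      refine (tr_sub_le F (P.n j) (P.n_ge j) (P.w j) (P.v j) (Φ j) hchi (P.y j)).trans ?_
      calc 2 * F.C0 * Φ j * ‖P.y j‖ ≤ 2 * F.C0 * Φ j * m := by gcongr
        _ = 2 * F.C0 * m * Φ j := by ring
    have t2 : ‖tr W (P.v j) (F.A (P.n j)) (P.y j)‖ ≤ Φ j := (P.near_y j).trans hx380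
    have t3 : ‖P.a j • tr W (P.w j) (F.A (P.n j)) (P.u j)‖ ≤ α * Φ j := by
      rw [norm_smul]
      exact mul_le_mul h3 ((P.near_u j).trans hx380) (norm_nonneg _) hα0
    calc _ ≤ ‖tr W (P.w j) (F.A (P.n j)) (P.y j) - tr W (P.v j) (F.A (P.n j)) (P.y j)‖ +
          ‖tr W (P.v j) (F.A (P.n j)) (P.y j)‖ +
          ‖P.a j • tr W (P.w j) (F.A (P.n j)) (P.u j)‖ :=
          (norm_sub_le _ _).trans (add_le_add_left (norm_add_le _ _) _)
      _ ≤ 2 * F.C0 * m * Φ j + Φ j + α * Φ j := by gcongr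
      _ = K * Φ j := by rw [hK]; ring
  have hbr : ‖brk W (40 * F.R) (P.g j) z‖ₑ ^ 2 ≤ ENNReal.ofReal (Z ^ 2 * Φ j ^ 2) := by
    have e : brk W (40 * F.R) (P.g j) z = -brk W (40 * F.R) (P.u j - P.g j) z := by
      rw [brk_sub_left, h5]; ring
    rw [e, enorm_neg]
    refine (brk_le W _ _ _).trans ?_
    calc S2 (ball1 (40 * F.R)) (W.V (P.u j - P.g j)) * S2 (ball1 (40 * F.R)) (W.V z)
        ≤ ENNReal.ofReal (P.x j ^ 720) * ENNReal.ofReal (‖z‖ ^ 2) :=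
          mul_le_mul' (P.loc j) (l20o_S2_le W _ (l20o_ball _) z)
      _ = ENNReal.ofReal (P.x j ^ 720 * ‖z‖ ^ 2) := by
          rw [ENNReal.ofReal_mul (by positivity)]
      _ ≤ _ := by
          refine ENNReal.ofReal_le_ofReal ?_
          have h7 : P.x j ^ 720 ≤ Φ j ^ 2 := by
            calc P.x j ^ 720 ≤ P.x j ^ 360 := pow_le_pow_of_le_one hx.le hx1 (by norm_num)
              _ = (P.x j ^ 180) ^ 2 := by ring
              _ ≤ Φ j ^ 2 := by gcongr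
          have h8 : ‖z‖ ^ 2 ≤ Z ^ 2 := by gcongr
          calc P.x j ^ 720 * ‖z‖ ^ 2 ≤ Φ j ^ 2 * Z ^ 2 := by gcongr
            _ = Z ^ 2 * Φ j ^ 2 := by ring
  have hlast : ENNReal.ofReal ((P.x j ^ 8) ^ 100) * ‖z‖ₑ ^ 2 ≤
      ENNReal.ofReal (Z ^ 2 * Φ j ^ 2) := by
    rw [← ofReal_norm, ← ENNReal.ofReal_pow (norm_nonneg _),
      ← ENNReal.ofReal_mul (by positivity)]
    refine ENNReal.ofReal_le_ofReal ?_
    have h7 : (P.x j ^ 8) ^ 100 ≤ Φ j ^ 2 := by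
      calc (P.x j ^ 8) ^ 100 = P.x j ^ 800 := by ring
        _ ≤ P.x j ^ 360 := pow_le_pow_of_le_one hx.le hx1 (by norm_num)
        _ = (P.x j ^ 180) ^ 2 := by ring
        _ ≤ Φ j ^ 2 := by gcongr
    have h8 : ‖z‖ ^ 2 ≤ Z ^ 2 := by gcongr
    calc (P.x j ^ 8) ^ 100 * ‖z‖ ^ 2 ≤ Φ j ^ 2 * Z ^ 2 := by gcongr
      _ = Z ^ 2 * Φ j ^ 2 := by ring
  have hS59 : S2 (pw (-59)) (W.V (tr W (P.w j) (F.A (P.n j)) z)) ≤
      ENNReal.ofReal (K ^ 2 * Φ j ^ 2) := by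
    refine (l20o_S2_le W _ l20o_pw _).trans (ENNReal.ofReal_le_ofReal ?_)
    calc ‖tr W (P.w j) (F.A (P.n j)) z‖ ^ 2 ≤ (K * Φ j) ^ 2 := by gcongr
      _ = K ^ 2 * Φ j ^ 2 := by ring
  have hctr : F.Ctr (P.n j) (P.x j ^ 8) (P.w j) (P.g j) :=
    ctr_mono (by positivity) (pow_le_pow_of_le_one hx.le hx1 (by norm_num)) (P.ctr j)
  have key := hWI (P.n j) h2 (P.x j ^ 8) (by positivity) h1 (P.sep j) (P.w j) (P.g j) hctr
    (P.nrm j) z
  refine key.trans ?_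
  calc ENNReal.ofReal C * (S2 (pw (-59)) (W.V (tr W (P.w j) (F.A (P.n j)) z)) +
        ‖brk W (40 * F.R) (P.g j) z‖ₑ ^ 2) + ENNReal.ofReal ((P.x j ^ 8) ^ 100) * ‖z‖ₑ ^ 2
      ≤ ENNReal.ofReal C * (ENNReal.ofReal (K ^ 2 * Φ j ^ 2) +
        ENNReal.ofReal (Z ^ 2 * Φ j ^ 2)) + ENNReal.ofReal (Z ^ 2 * Φ j ^ 2) := by gcongr
    _ = ENNReal.ofReal (C * (K ^ 2 * Φ j ^ 2 + Z ^ 2 * Φ j ^ 2) + Z ^ 2 * Φ j ^ 2) := by
        rw [← ENNReal.ofReal_add (by positivity) (by positivity),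
          ← ENNReal.ofReal_mul (by positivity), ← ENNReal.ofReal_add (by positivity)
          (by positivity)]
    _ ≤ ENNReal.ofReal ((C * (K ^ 2 + Z ^ 2) + Z ^ 2 + 1) * Φ j ^ 2) := by
        refine ENNReal.ofReal_le_ofReal ?_
        nlinarith [sq_nonneg (Φ j)]

end Pool.Agent.Helper84.HRT
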