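import Mathlib
import Pool.Agent.Helper84.HRT.DefsS

open MeasureTheory Complex Filter
open scoped ENNReal NNReal ComplexConjugate InnerProductSpace BigOperators Topology

namespace Pool.Agent.Helper84.HRT

variable {H : Type} [NormedAddCommGroup H] [InnerProductSpace ℂ H] [CompleteSpace H]

/-- Arzelà-Ascoli -/
theorem arzela (f : ℕ → ℝ → ℂ) (L : ℝ) (hp : ∀ j t, f j (t + 1) = f j t)
    (hb : ∀ j t, ‖f j t‖ ≤ L) (hl : ∀ j s t, ‖f j s - f j t‖ ≤ L * |s - t|) :
    ∃ φ : ℕ → ℕ, StrictMono φ ∧ ∃ g : ℝ → ℂ, Continuous g ∧ (∀ t, g (t + 1) = g t) ∧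
      TendstoUniformly (fun j => f (φ j)) g atTop := by
  have hL : 0 ≤ L := (norm_nonneg _).trans (hb 0 0)
  have hcont : ∀ j, Continuous (f j) := by
    intro j
    have hlip : LipschitzWith ⟨L, hL⟩ (f j) := by
      apply LipschitzWith.of_dist_le_mul
      intro s t
      rw [dist_eq_norm, Real.dist_eq]
      exact hl j s t
    exact hlip.continuous
  -- the family on `[0,1]`
  let F : ℕ → BoundedContinuousFunction (Set.Icc (0 : ℝ) 1) ℂ := fun j =>
    BoundedContinuousFunction.mkOfCompact ⟨fun x => f j x, (hcont j).comp continuous_subtype_val⟩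
  have hF : ∀ j (x : Set.Icc (0 : ℝ) 1), F j x = f j x := fun j x => rfl
  have hcomp : IsCompact (closure (Set.range F)) := by
    apply BoundedContinuousFunction.arzela_ascoli (Metric.closedBall (0 : ℂ) L)
      (isCompact_closedBall _ _)
    · rintro g x ⟨j, rfl⟩
      rw [hF, mem_closedBall_zero_iff]
      exact hb j x
    · apply Metric.equicontinuous_of_continuity_modulus (fun s => L * s)
      · have : Tendsto (fun s : ℝ => L * s) (𝓝 0) (𝓝 (L * 0)) := tendsto_id.const_mul L
        simpa using this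
      · rintro x y ⟨g, ⟨j, rfl⟩⟩
        show dist (F j x) (F j y) ≤ L * dist x y
        rw [hF, hF, dist_eq_norm, Subtype.dist_eq, Real.dist_eq]
        exact hl j x y
  obtain ⟨G, -, φ, hφ, hlim⟩ := hcomp.tendsto_subseq (x := F)
    (fun j => subset_closure ⟨j, rfl⟩)
  have hfr : ∀ t : ℝ, Int.fract t ∈ Set.Icc (0 : ℝ) 1 := fun t =>
    ⟨Int.fract_nonneg t, (Int.fract_lt_one t).le⟩
  have hper : ∀ j t, f j t = f j (Int.fract t) := by
    intro j t
    have h1 : Function.Periodic (f j) 1 := fun x => hp j x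
    have h2 := h1.sub_int_mul_eq (x := t) ⌊t⌋
    rw [mul_one] at h2
    rw [← h2]
    rfl
  refine ⟨φ, hφ, fun t => G ⟨Int.fract t, hfr t⟩, ?_⟩
  have hunif : TendstoUniformly (fun j => f (φ j)) (fun t => G ⟨Int.fract t, hfr t⟩) atTop := by
    rw [Metric.tendstoUniformly_iff]
    intro ε hε
    have := (BoundedContinuousFunction.tendsto_iff_tendstoUniformly.1 hlim)
    rw [Metric.tendstoUniformly_iff] at this
    filter_upwards [this ε hε] with j hj t
    rw [hper (φ j) t]
    exact hj ⟨Int.fract t, hfr t⟩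
  refine ⟨?_, ?_, hunif⟩
  · exact hunif.continuous (Filter.Frequently.of_forall fun j => hcont _)
  · intro t
    have : (⟨Int.fract (t + 1), hfr (t + 1)⟩ : Set.Icc (0 : ℝ) 1) = ⟨Int.fract t, hfr t⟩ :=
      Subtype.ext (Int.fract_add_one t)
    show G ⟨Int.fract (t + 1), hfr (t + 1)⟩ = G ⟨Int.fract t, hfr t⟩
    rw [this]

end Pool.Agent.Helper84.HRT
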