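import Mathlib
import Pool.Agent.Helper84.HRT.DefsS
import Pool.Agent.Helper84.HRT.WA
import Pool.Agent.Helper84.HRT.WB
import Pool.Agent.Helper84.HRT.SK

open MeasureTheory Complex Filter
open scoped ENNReal NNReal ComplexConjugate InnerProductSpace BigOperators Topology

namespace Pool.Agent.Helper84.HRT

variable {H : Type} [NormedAddCommGroup H] [InnerProductSpace ℂ H] [CompleteSpace H]

/-- duality in real form -/
theorem l20q_bd (W : Weyl H) (f z : H) (A B : ℝ) (hA : 0 ≤ A) (hB : 0 ≤ B)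
    (hf : S2 (pw 60) (W.V f) ≤ ENNReal.ofReal (A ^ 2))
    (hz : S2 (pw (-60)) (W.V z) ≤ ENNReal.ofReal (B ^ 2)) :
    ‖(inner ℂ f z : ℂ)‖ ≤ A * B := by
  have h1 := inner_pw W 60 f z
  have h2 : ‖(inner ℂ f z : ℂ)‖ₑ ^ 2 ≤ ENNReal.ofReal ((A * B) ^ 2) := by
    refine h1.trans ?_
    rw [mul_pow, ENNReal.ofReal_mul (by positivity)]
    exact mul_le_mul' hf hz
  rw [← ofReal_norm, ← ENNReal.ofReal_pow (norm_nonneg _),
    ENNReal.ofReal_le_ofReal_iff (by positivity)] at h2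
  exact (sq_le_sq₀ (norm_nonneg _) (by positivity)).mp h2

/-- `pw 60 ≤ pw 61` -/
theorem l20q_mono (F : ℂ → ℂ) : S2 (pw 60) F ≤ S2 (pw 61) F := by
  unfold S2
  refine lintegral_mono fun z => ?_
  have h0 : (1 : ℝ) ≤ 1 + ‖z‖ := by linarith [norm_nonneg z]
  have h1 : pw 60 z ≤ pw 61 z := by
    unfold pw
    exact zpow_le_zpow_right₀ h0 (by norm_num)
  have h2 : 0 ≤ pw 60 z := by unfold pw; positivity
  have h3 : ‖((pw 60 z : ℝ) : ℂ) * F z‖ₑ ≤ ‖((pw 61 z : ℝ) : ℂ) * F z‖ₑ := by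
    rw [← ofReal_norm, ← ofReal_norm]
    refine ENNReal.ofReal_le_ofReal ?_
    rw [norm_mul, norm_mul, Complex.norm_real, Complex.norm_real, Real.norm_of_nonneg h2,
      Real.norm_of_nonneg (h2.trans h1)]
    exact mul_le_mul_of_nonneg_right h1 (norm_nonneg _)
  exact pow_le_pow_left' h3 2

/-- the linear terms are bounded and Lipschitz (`inner_pw` with `k = 60`, `L2w`, `S2_pw_U`,
`U_adj`, `node_lip`) -/
theorem lin_lip (W : Weyl H) : ∃ C : ℝ, 0 < C ∧ ∀ (u z : H) (A B : ℝ), 0 ≤ A → 0 ≤ B →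
    S2 (pw 61) (W.V u) ≤ ENNReal.ofReal (A ^ 2) → S2 (pw (-60)) (W.V z) ≤ ENNReal.ofReal (B ^ 2) →
    ∀ s t : ℝ, ‖(inner ℂ u (W.U (node t) z) : ℂ)‖ ≤ C * A * B ∧
      ‖(inner ℂ z (W.U (node t) u) : ℂ)‖ ≤ C * A * B ∧
      ‖(inner ℂ u (W.U (node t) z) : ℂ) - inner ℂ u (W.U (node s) z)‖ ≤ C * A * B * |t - s| ∧
      ‖(inner ℂ z (W.U (node t) u) : ℂ) - inner ℂ z (W.U (node s) u)‖ ≤ C * A * B * |t - s| := by
  obtain ⟨C0, hC0, hL⟩ := L2w W
  set K : ℝ := 2 ^ 60 + Real.sqrt C0 * (2 * Real.pi) with hK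
  have hs0 : 0 ≤ Real.sqrt C0 * (2 * Real.pi) := by positivity
  have hK1 : (2 : ℝ) ^ 60 ≤ K := by rw [hK]; linarith
  have hK2 : Real.sqrt C0 * (2 * Real.pi) ≤ K := by
    rw [hK]; linarith [show (0 : ℝ) < 2 ^ 60 by positivity]
  have hK0 : 0 < K := lt_of_lt_of_le (by positivity) hK1
  refine ⟨K, hK0, ?_⟩
  intro u z A B hA hB hu hz s t
  have hu60 : S2 (pw 60) (W.V u) ≤ ENNReal.ofReal (A ^ 2) := (l20q_mono _).trans hu
  -- bound of the translated vector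
  have hb : ∀ α : ℂ, ‖α‖ = 1 → S2 (pw 60) (W.V (W.U α u)) ≤
      ENNReal.ofReal ((K * A) ^ 2) := by
    intro α hα
    refine (S2_pw_U W 60 α u).trans ?_
    rw [hα]
    refine (mul_le_mul_right hu60 _).trans ?_
    rw [← ENNReal.ofReal_mul (by positivity)]
    refine ENNReal.ofReal_le_ofReal ?_
    have h1 : ((1 : ℝ) + 1) ^ (2 * (60 : ℤ).natAbs) = (2 ^ 60) ^ 2 := by norm_num
    rw [h1, mul_pow]
    have h2 : ((2 : ℝ) ^ 60) ^ 2 ≤ K ^ 2 := pow_le_pow_left₀ (by positivity) hK1 2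
    exact mul_le_mul_of_nonneg_right h2 (by positivity)
  -- bound of the difference
  have hd : ∀ α β : ℂ, ‖α‖ = 1 → ‖β‖ = 1 → ‖α - β‖ ≤ 2 * Real.pi * |t - s| →
      S2 (pw 60) (W.V (W.U α u - W.U β u)) ≤ ENNReal.ofReal ((K * A * |t - s|) ^ 2) := by
    intro α β hα hβ hαβ
    refine (hL α β hα hβ u).trans ?_
    refine (mul_le_mul_right hu _).trans ?_
    rw [← ENNReal.ofReal_mul (by positivity)]
    refine ENNReal.ofReal_le_ofReal ?_
    have h1 : C0 * ‖α - β‖ ^ 2 * A ^ 2 = (Real.sqrt C0 * ‖α - β‖ * A) ^ 2 := by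
      rw [mul_pow, mul_pow, Real.sq_sqrt hC0.le]
    rw [h1]
    refine pow_le_pow_left₀ (by positivity) ?_ 2
    have h2 : Real.sqrt C0 * ‖α - β‖ ≤ Real.sqrt C0 * (2 * Real.pi * |t - s|) :=
      mul_le_mul_of_nonneg_left hαβ (Real.sqrt_nonneg _)
    have h3 : Real.sqrt C0 * (2 * Real.pi * |t - s|) ≤ K * |t - s| := by
      have := mul_le_mul_of_nonneg_right hK2 (abs_nonneg (t - s))
      linarith
    calc Real.sqrt C0 * ‖α - β‖ * A ≤ K * |t - s| * A :=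
          mul_le_mul_of_nonneg_right (h2.trans h3) hA
      _ = K * A * |t - s| := by ring
  have hn : ‖node t‖ = 1 := node_norm t
  have hn' : ‖node s‖ = 1 := node_norm s
  have hl : ‖node t - node s‖ ≤ 2 * Real.pi * |t - s| := node_lip t s
  have hl' : ‖-node t - -node s‖ ≤ 2 * Real.pi * |t - s| := by
    rw [show -node t - -node s = -(node t - node s) by ring, norm_neg]
    exact hl
  have hadj : ∀ α : ℂ, (inner ℂ u (W.U α z) : ℂ) = inner ℂ (W.U (-α) u) z := by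
    intro α
    rw [U_adj, neg_neg]
  refine ⟨?_, ?_, ?_, ?_⟩
  · rw [hadj]
    exact l20q_bd W _ z (K * A) B (by positivity) hB (hb _ (by rw [norm_neg, hn])) hz
  · rw [norm_inner_symm]
    exact l20q_bd W _ z (K * A) B (by positivity) hB (hb _ hn) hz
  · rw [hadj, hadj, ← inner_sub_left]
    refine (l20q_bd W _ z (K * A * |t - s|) B (by positivity) hB
      (hd _ _ (by rw [norm_neg, hn]) (by rw [norm_neg, hn']) hl') hz).trans (le_of_eq ?_)
    ring
  · rw [← inner_sub_right, norm_inner_symm]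
    refine (l20q_bd W _ z (K * A * |t - s|) B (by positivity) hB
      (hd _ _ hn hn' hl) hz).trans (le_of_eq ?_)
    ring

end Pool.Agent.Helper84.HRT
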