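import Mathlib
import Pool.Agent.Helper84.HRT.DefsS
import Pool.Agent.Helper84.HRT.WA
import Pool.Agent.Helper84.HRT.WB
import Pool.Agent.Helper84.HRT.SC
import Pool.Agent.Helper84.HRT.SK
import Pool.Agent.Helper84.HRT.L20A
import Pool.Agent.Helper84.HRT.L20F
import Pool.Agent.Helper84.HRT.L20K
import Pool.Agent.Helper84.HRT.L20O
import Pool.Agent.Helper84.HRT.L20P
import Pool.Agent.Helper84.HRT.L20Q

open MeasureTheory Complex Filter
open scoped ENNReal NNReal ComplexConjugate InnerProductSpace BigOperators Topology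

namespace Pool.Agent.Helper84.HRT

variable {H : Type} [NormedAddCommGroup H] [InnerProductSpace ℂ H] [CompleteSpace H]

variable {W : Weyl H} {D : Data} {F : Fam W D} {R0 δ0 C1 : ℝ}

private theorem l20r_pw_mono (z : ℂ) : |pw 61 z| ≤ |pw 300 z| := by
  unfold pw
  have h : (1 : ℝ) ≤ 1 + ‖z‖ := by linarith [norm_nonneg z]
  rw [abs_of_pos (by positivity), abs_of_pos (by positivity)]
  exact zpow_le_zpow_right₀ h (by norm_num)

private theorem l20r_pw_meas (k : ℤ) : Measurable (pw k) := by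
  have h : Continuous (pw k) := by
    unfold pw
    refine Continuous.zpow₀ (by fun_prop) k fun z => ?_
    left
    have := norm_nonneg z
    positivity
  exact h.measurable

/-- the interpolated bound in real form -/
private theorem l20r_interp (W : Weyl H) (z : H) (A B : ℝ) (hA : 0 ≤ A) (hB : 0 ≤ B)
    (h1 : S2 (pw (-60)) (W.V z) ≤ ENNReal.ofReal A) (h2 : S2 (pw 300) (W.V z) ≤ ENNReal.ofReal B) :
    (‖z‖ ^ 2) ^ 6 ≤ A ^ 5 * B := by
  have h := interp W z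
  have h3 : (‖z‖ₑ ^ 2) ^ 6 ≤ ENNReal.ofReal A ^ 5 * ENNReal.ofReal B := by
    refine h.trans ?_
    gcongr
  have e1 : (‖z‖ₑ ^ 2) ^ 6 = ENNReal.ofReal ((‖z‖ ^ 2) ^ 6) := by
    rw [← ofReal_norm_eq_enorm, ENNReal.ofReal_pow (by positivity),
      ENNReal.ofReal_pow (norm_nonneg _)]
  rw [e1, ← ENNReal.ofReal_pow hA, ← ENNReal.ofReal_mul (by positivity)] at h3
  exact (ENNReal.ofReal_le_ofReal_iff (by positivity)).1 h3

/-- L20.6. `mf_expand`, `lin_lip` (with `B = √C Φ`), `arzela` for the linear terms divided by `Φ`;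
the quadratic term is `≤ ‖z‖² ≤ (C Φ²)^{5/6} (C')^{1/6}` (`interp`), `o(Φ)`. -/
theorem pair_dq_limit (P : Fam.Pair F R0 δ0 C1) (hWI : F.WI R0 δ0) (Φ : ℕ → ℝ)
    (hΦ : P.IsMax Φ) (hb : P.Big) (h1 : P.ToOne) : ∃ φ : ℕ → ℕ, StrictMono φ ∧ ∃ g : ℝ → ℂ,
      Continuous g ∧ (∀ t, g (t + 1) = g t) ∧
      TendstoUniformly (fun j => P.dq Φ (φ j)) g atTop := by
  obtain ⟨C5, hC5, hsmall⟩ := pair_diff_small P hWI Φ hΦ hb
  obtain ⟨a0, ha0, hat, hψ⟩ := pair_a_tendsto P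
  obtain ⟨CL, hCL, hlin⟩ := lin_lip W
  have hΦ0 := pair_max_lim P Φ hΦ h1
  set z : ℕ → H := fun j => P.y j - P.a j • P.u j with hz
  set A0 : ℝ := ‖a0‖ + 1 with hA0
  have hA0pos : 0 < A0 := by positivity
  set M : ℝ := max C1 0 with hM
  have hM0 : 0 ≤ M := le_max_right _ _
  set C3 : ℝ := 2 * (M + A0 ^ 2 * M) with hC3
  have hC30 : 0 ≤ C3 := by positivity
  -- eventual facts
  have ev1 : ∀ᶠ j in atTop, 0 < Φ j := by
    filter_upwards [hb 0] with j hj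
    obtain ⟨k, hk⟩ := hj
    rw [zero_mul, zero_mul] at hk
    exact hk.trans_le ((pair_le_ph P j k).trans ((hΦ j).1 k))
  have ev2 : ∀ᶠ j in atTop, ‖P.a j‖ ≤ A0 := by
    have h2 := hat.norm
    filter_upwards [h2.eventually_lt_const (show ‖a0‖ < A0 by rw [hA0]; linarith)] with j hj
    exact hj.le
  obtain ⟨J, hJ⟩ := eventually_atTop.1 (hsmall.and (ev1.and ev2))
  have hmom : ∀ j, S2 (pw 300) (W.V (P.u j)) ≤ ENNReal.ofReal M ∧
      S2 (pw 300) (W.V (P.y j)) ≤ ENNReal.ofReal M := fun j =>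
    ⟨(P.mom_u j).trans (ENNReal.ofReal_le_ofReal (le_max_left _ _)),
      (P.mom_y j).trans (ENNReal.ofReal_le_ofReal (le_max_left _ _))⟩
  have hmomz : ∀ j, J ≤ j → S2 (pw 300) (W.V (z j)) ≤ ENNReal.ofReal C3 := by
    intro j hj
    have e : W.V (z j) = fun ζ => W.V (P.y j) ζ - P.a j * W.V (P.u j) ζ := by
      funext ζ
      simp only [hz]
      rw [V_sub, V_smul]
    rw [e]
    refine (S2_sub _ (l20r_pw_meas _) _ _ (V_cont W _).aestronglyMeasurable).trans ?_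
    rw [S2_smul]
    have h3 : ‖P.a j‖ₑ ^ 2 ≤ ENNReal.ofReal (A0 ^ 2) := by
      rw [← ofReal_norm_eq_enorm, ← ENNReal.ofReal_pow (norm_nonneg _)]
      apply ENNReal.ofReal_le_ofReal
      have := (hJ j hj).2.2
      gcongr
    calc 2 * (S2 (pw 300) (W.V (P.y j)) + ‖P.a j‖ₑ ^ 2 * S2 (pw 300) (W.V (P.u j)))
        ≤ 2 * (ENNReal.ofReal M + ENNReal.ofReal (A0 ^ 2) * ENNReal.ofReal M) := by
          gcongr
          · exact (hmom j).2
          · exact (hmom j).1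
      _ = ENNReal.ofReal C3 := by
          rw [hC3, ENNReal.ofReal_mul (by norm_num), ENNReal.ofReal_add hM0 (by positivity),
            ENNReal.ofReal_mul (by positivity), ENNReal.ofReal_ofNat]
  -- the quadratic term
  have hquad : ∀ j, J ≤ j → (‖z j‖ ^ 2 / Φ j) ^ 6 ≤ C5 ^ 5 * C3 * Φ j ^ 4 := by
    intro j hj
    have hpos := (hJ j hj).2.1
    have h3 := l20r_interp W (z j) (C5 * Φ j ^ 2) C3 (by positivity) hC30 (hJ j hj).1 (hmomz j hj)
    rw [div_pow, div_le_iff₀ (by positivity)]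
    calc (‖z j‖ ^ 2) ^ 6 ≤ (C5 * Φ j ^ 2) ^ 5 * C3 := h3
      _ = C5 ^ 5 * C3 * Φ j ^ 4 * Φ j ^ 6 := by ring
  -- the linear term
  set Lf : ℕ → ℝ → ℂ := fun j t =>
    (conj (P.a j) * inner ℂ (P.u j) (W.U (node t) (z j)) +
      P.a j * inner ℂ (z j) (W.U (node t) (P.u j))) / ((Φ j : ℝ) : ℂ) with hLf
  set L : ℝ := 2 * A0 * (CL * Real.sqrt M * Real.sqrt C5) with hL
  have hlinj : ∀ j, J ≤ j → ∀ s t : ℝ,
      ‖(inner ℂ (P.u j) (W.U (node t) (z j)) : ℂ)‖ ≤ CL * Real.sqrt M * (Real.sqrt C5 * Φ j) ∧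
      ‖(inner ℂ (z j) (W.U (node t) (P.u j)) : ℂ)‖ ≤ CL * Real.sqrt M * (Real.sqrt C5 * Φ j) ∧
      ‖(inner ℂ (P.u j) (W.U (node t) (z j)) : ℂ) - inner ℂ (P.u j) (W.U (node s) (z j))‖ ≤
        CL * Real.sqrt M * (Real.sqrt C5 * Φ j) * |t - s| ∧
      ‖(inner ℂ (z j) (W.U (node t) (P.u j)) : ℂ) - inner ℂ (z j) (W.U (node s) (P.u j))‖ ≤
        CL * Real.sqrt M * (Real.sqrt C5 * Φ j) * |t - s| := by
    intro j hj s t
    have hpos := (hJ j hj).2.1
    refine hlin (P.u j) (z j) (Real.sqrt M) (Real.sqrt C5 * Φ j) (Real.sqrt_nonneg _)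
      (by positivity) ?_ ?_ s t
    · rw [Real.sq_sqrt hM0]
      exact (S2_mono2 fun ζ => by
        have := l20r_pw_mono ζ
        gcongr).trans (hmom j).1
    · rw [mul_pow, Real.sq_sqrt hC5.le]
      exact (hJ j hj).1
  have hb1 : ∀ j, J ≤ j → ∀ t, ‖Lf j t‖ ≤ L := by
    intro j hj t
    have hpos := (hJ j hj).2.1
    have ha := (hJ j hj).2.2
    obtain ⟨h3, h4, -, -⟩ := hlinj j hj t t
    simp only [hLf]
    rw [norm_div, Complex.norm_real, Real.norm_of_nonneg hpos.le, div_le_iff₀ hpos]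
    calc ‖conj (P.a j) * inner ℂ (P.u j) (W.U (node t) (z j)) +
          P.a j * inner ℂ (z j) (W.U (node t) (P.u j))‖
        ≤ ‖P.a j‖ * ‖(inner ℂ (P.u j) (W.U (node t) (z j)) : ℂ)‖ +
          ‖P.a j‖ * ‖(inner ℂ (z j) (W.U (node t) (P.u j)) : ℂ)‖ := by
          refine (norm_add_le _ _).trans ?_
          rw [norm_mul, norm_mul, RCLike.norm_conj]
      _ ≤ A0 * (CL * Real.sqrt M * (Real.sqrt C5 * Φ j)) +
          A0 * (CL * Real.sqrt M * (Real.sqrt C5 * Φ j)) := by gcongr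
      _ = L * Φ j := by rw [hL]; ring
  have hl1 : ∀ j, J ≤ j → ∀ s t, ‖Lf j s - Lf j t‖ ≤ L * |s - t| := by
    intro j hj s t
    have hpos := (hJ j hj).2.1
    have ha := (hJ j hj).2.2
    obtain ⟨-, -, h3, h4⟩ := hlinj j hj t s
    simp only [hLf]
    rw [← sub_div, norm_div, Complex.norm_real, Real.norm_of_nonneg hpos.le, div_le_iff₀ hpos]
    have e : conj (P.a j) * inner ℂ (P.u j) (W.U (node s) (z j)) +
          P.a j * inner ℂ (z j) (W.U (node s) (P.u j)) -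
        (conj (P.a j) * inner ℂ (P.u j) (W.U (node t) (z j)) +
          P.a j * inner ℂ (z j) (W.U (node t) (P.u j))) =
        conj (P.a j) * (inner ℂ (P.u j) (W.U (node s) (z j)) -
          inner ℂ (P.u j) (W.U (node t) (z j))) +
        P.a j * (inner ℂ (z j) (W.U (node s) (P.u j)) - inner ℂ (z j) (W.U (node t) (P.u j))) := by
      ring
    rw [e]
    calc _ ≤ ‖P.a j‖ * ‖(inner ℂ (P.u j) (W.U (node s) (z j)) : ℂ) -
            inner ℂ (P.u j) (W.U (node t) (z j))‖ +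
          ‖P.a j‖ * ‖(inner ℂ (z j) (W.U (node s) (P.u j)) : ℂ) -
            inner ℂ (z j) (W.U (node t) (P.u j))‖ := by
          refine (norm_add_le _ _).trans ?_
          rw [norm_mul, norm_mul, RCLike.norm_conj]
      _ ≤ A0 * (CL * Real.sqrt M * (Real.sqrt C5 * Φ j) * |s - t|) +
          A0 * (CL * Real.sqrt M * (Real.sqrt C5 * Φ j) * |s - t|) := by gcongr
      _ = L * |s - t| * Φ j := by rw [hL]; ring
  obtain ⟨φ, hφ, g, hgc, hgp, hgu⟩ := arzela (fun j => Lf (J + j)) L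
    (fun j t => by simp only [hLf]; rw [node_add_one])
    (fun j t => hb1 _ (Nat.le_add_right _ _) t) (fun j s t => hl1 _ (Nat.le_add_right _ _) s t)
  refine ⟨fun j => J + φ j, fun i j hij => Nat.add_lt_add_left (hφ hij) J, g, hgc, hgp, ?_⟩
  rw [Metric.tendstoUniformly_iff]
  intro ε hε
  rw [Metric.tendstoUniformly_iff] at hgu
  have hφt : Tendsto (fun j => J + φ j) atTop atTop :=
    tendsto_atTop_mono (fun j => (hφ.id_le j).trans (Nat.le_add_left _ _)) tendsto_id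
  have hq : Tendsto (fun j => C5 ^ 5 * C3 * Φ (J + φ j) ^ 4) atTop (𝓝 0) := by
    have := ((hΦ0.comp hφt).pow 4).const_mul (C5 ^ 5 * C3)
    simpa using this
  filter_upwards [hgu (ε / 2) (by positivity),
    hq.eventually_lt_const (show (0 : ℝ) < (ε / 2) ^ 6 by positivity)] with j hj1 hj2 t
  have hJj : J ≤ J + φ j := Nat.le_add_right _ _
  have hpos := (hJ _ hJj).2.1
  have hqj : ‖z (J + φ j)‖ ^ 2 / Φ (J + φ j) < ε / 2 := by
    have h3 := (hquad _ hJj).trans_lt hj2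
    exact lt_of_pow_lt_pow_left₀ 6 (by positivity) h3
  have e : P.dq Φ (J + φ j) t = Lf (J + φ j) t +
      inner ℂ (z (J + φ j)) (W.U (node t) (z (J + φ j))) / ((Φ (J + φ j) : ℝ) : ℂ) := by
    simp only [Fam.Pair.dq, hLf]
    rw [mf_expand, ← add_div]
  rw [dist_eq_norm, e]
  have h3 := hj1 t
  rw [dist_eq_norm] at h3
  have h4 : ‖(inner ℂ (z (J + φ j)) (W.U (node t) (z (J + φ j))) : ℂ) /
      ((Φ (J + φ j) : ℝ) : ℂ)‖ < ε / 2 := by
    rw [norm_div, Complex.norm_real, Real.norm_of_nonneg hpos.le]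
    refine lt_of_le_of_lt ?_ hqj
    gcongr
    refine (norm_inner_le_norm _ _).trans ?_
    rw [W.norm_U, sq]
  calc ‖g t - (Lf (J + φ j) t + inner ℂ (z (J + φ j)) (W.U (node t) (z (J + φ j))) /
        ((Φ (J + φ j) : ℝ) : ℂ))‖
      = ‖(g t - Lf (J + φ j) t) - inner ℂ (z (J + φ j)) (W.U (node t) (z (J + φ j))) /
        ((Φ (J + φ j) : ℝ) : ℂ)‖ := by rw [sub_sub]
    _ ≤ ‖g t - Lf (J + φ j) t‖ + ‖(inner ℂ (z (J + φ j)) (W.U (node t) (z (J + φ j))) : ℂ) /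
        ((Φ (J + φ j) : ℝ) : ℂ)‖ := norm_sub_le _ _
    _ < ε / 2 + ε / 2 := add_lt_add h3 h4
    _ = ε := by ring

end Pool.Agent.Helper84.HRT
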