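import Mathlib
import Pool.Agent.Helper84.HRT.DefsS
import Pool.Agent.Helper84.HRT.WA
import Pool.Agent.Helper84.HRT.C5
import Pool.Agent.Helper84.HRT.L20F

/-!
# L20T: exact coset relations of the phases
-/

open MeasureTheory Complex Filter
open scoped ENNReal NNReal ComplexConjugate InnerProductSpace BigOperators Topology

namespace Pool.Agent.Helper84.HRT

variable {H : Type} [NormedAddCommGroup H] [InnerProductSpace ℂ H] [CompleteSpace H]

variable {W : Weyl H} {D : Data} {F : Fam W D} {R0 δ0 C1 : ℝ}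

theorem l20t_shift (N p : ℕ) (hN : 0 < N) (hp : 0 < p) (hd : p ∣ N) (k : ℤ) (i : ℕ) :
    ((k + (i : ℤ) * ((N / p : ℕ) : ℤ) : ℤ) : ℝ) / N = (k : ℝ) / N + i / p := by
  obtain ⟨q, rfl⟩ := hd
  have hp' : (p : ℝ) ≠ 0 := by positivity
  have hq : q ≠ 0 := by rintro rfl; simp at hN
  have hq' : (q : ℝ) ≠ 0 := Nat.cast_ne_zero.2 hq
  rw [Nat.mul_div_cancel_left q hp]
  push_cast
  field_simp

/-- exact coset relations of the phases (`chi_node_coset`, all phases `< 2π/p` eventually) -/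
theorem pair_coset_ph (P : Fam.Pair F R0 δ0 C1) (h1 : P.ToOne) (p : ℕ) (hp : p.Prime) :
    ∀ᶠ j in atTop, ∀ k : ℤ, ∑ i ∈ Finset.range p,
      P.ph j (k + (i : ℤ) * ((D.NN (P.n j) / p : ℕ) : ℤ)) = 0 := by
  have hp0 : (0 : ℝ) < p := by exact_mod_cast hp.pos
  filter_upwards [h1 (1 / p) (by positivity), c5_NN_dvd D P.n_lim p hp.pos] with j h2 h3
  intro k
  have hnd : ∀ i : ℕ, P.nd j (k + (i : ℤ) * ((D.NN (P.n j) / p : ℕ) : ℤ)) =
      (k : ℝ) / D.NN (P.n j) + i / p := fun i =>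
    l20t_shift _ p (c5_NN_pos D (P.n j)) hp.pos h3 k i
  set S : ℝ := ∑ i ∈ Finset.range p,
      P.ph j (k + (i : ℤ) * ((D.NN (P.n j) / p : ℕ) : ℤ)) with hS
  have hexp : cexp ((S : ℂ) * I) = 1 := by
    rw [hS]
    push_cast
    rw [Finset.sum_mul, Complex.exp_sum]
    have h4 : ∀ i ∈ Finset.range p,
        cexp ((P.ph j (k + (i : ℤ) * ((D.NN (P.n j) / p : ℕ) : ℤ)) : ℂ) * I) =
          chi (P.w j - P.v j) (node ((k : ℝ) / D.NN (P.n j) + i / p)) := by
      intro i _
      have h5 := Complex.norm_mul_exp_arg_mul_I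
        (chi (P.w j - P.v j) (node ((k : ℝ) / D.NN (P.n j) + i / p)))
      rw [chi_norm, Complex.ofReal_one, one_mul] at h5
      rw [Fam.Pair.ph, hnd]
      exact h5
    have h6 := Finset.prod_congr (rfl : Finset.range p = Finset.range p) h4
    push_cast at h6
    rw [h6]
    exact chi_node_coset _ p hp.two_le _
  have hle : |S| ≤ Real.pi / 2 := by
    rw [hS]
    refine (Finset.abs_sum_le_sum_abs _ _).trans ?_
    have h5 : ∀ i ∈ Finset.range p,
        |P.ph j (k + (i : ℤ) * ((D.NN (P.n j) / p : ℕ) : ℤ))| ≤ Real.pi / 2 * (1 / p) := by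
      intro i _
      refine (pair_ph_le P j _).trans ?_
      exact mul_le_mul_of_nonneg_left (h2 _) (by positivity)
    refine (Finset.sum_le_card_nsmul _ _ _ h5).trans (le_of_eq ?_)
    rw [Finset.card_range, nsmul_eq_mul]
    field_simp
  obtain ⟨n, hn⟩ := Complex.exp_eq_one_iff.1 hexp
  have hn' : S = n * (2 * Real.pi) := by
    have h7 : (S : ℂ) = ((n * (2 * Real.pi) : ℝ) : ℂ) := by
      have h8 : (S : ℂ) * I = ((n * (2 * Real.pi) : ℝ) : ℂ) * I := by
        rw [hn]
        push_cast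
        ring
      exact mul_right_cancel₀ Complex.I_ne_zero h8
    exact_mod_cast h7
  have hn0 : n = 0 := by
    by_contra hne
    have h8 : (1 : ℝ) ≤ |(n : ℝ)| := by
      have := Int.one_le_abs hne
      exact_mod_cast this
    rw [hn', abs_mul, abs_of_pos (by positivity : (0 : ℝ) < 2 * Real.pi)] at hle
    nlinarith [Real.pi_pos]
  rw [hn', hn0]
  simp

end Pool.Agent.Helper84.HRT
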