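import Mathlib
import Pool.Agent.Helper84.HRT.DefsS

open MeasureTheory Complex Filter
open scoped ENNReal NNReal ComplexConjugate InnerProductSpace BigOperators Topology

namespace Pool.Agent.Helper84.HRT

variable {H : Type} [NormedAddCommGroup H] [InnerProductSpace ℂ H] [CompleteSpace H]

/-- `log (1+z)` and angles (`Complex.norm_log_one_add_sub_self_le`) -/
theorem arg_expand (z ζ : ℂ) (η : ℝ) (hz : ‖z‖ ≤ 1 / 2) (hζ : ‖ζ‖ = 1) (hη : η ≤ 1 / 2)
    (h : ‖ζ - conj (1 + z) / (‖1 + z‖ : ℂ)‖ ≤ η) : |ζ.arg + z.im| ≤ ‖z‖ ^ 2 + 2 * η := by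
  set w : ℂ := 1 + z with hw
  have hre : 0 < w.re := by
    have h1 := Complex.abs_re_le_norm z
    rw [abs_le] at h1
    rw [hw, Complex.add_re, Complex.one_re]
    linarith
  have hw0 : w ≠ 0 := fun h0 => by rw [h0] at hre; simp at hre
  have hwn : 0 < ‖w‖ := norm_pos_iff.2 hw0
  have hwn' : (‖w‖ : ℂ) ≠ 0 := by exact_mod_cast hwn.ne'
  -- the argument of `w`
  have hφ : |w.arg| < Real.pi / 2 := (Complex.abs_arg_lt_pi_div_two_iff).2 (Or.inl hre)
  have hlog : |w.arg - z.im| ≤ ‖z‖ ^ 2 := by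
    have h1 := Complex.norm_log_one_add_sub_self_le (z := z) (by linarith)
    have h2 := Complex.abs_im_le_norm (Complex.log (1 + z) - z)
    rw [Complex.sub_im, Complex.log_im] at h2
    refine h2.trans (h1.trans ?_)
    have h3 : (1 - ‖z‖)⁻¹ ≤ 2 := by
      rw [inv_le_comm₀ (by linarith) (by norm_num)]
      linarith
    have h4 : 0 ≤ ‖z‖ ^ 2 := by positivity
    nlinarith
  -- the unit vector
  set x : ℝ := ζ.arg + w.arg with hx
  have hexp : ‖cexp ((x : ℂ) * I) - 1‖ ≤ η := by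
    have e1 : cexp ((ζ.arg : ℂ) * I) = ζ := by
      have := Complex.norm_mul_exp_arg_mul_I ζ
      rw [hζ] at this
      simpa using this
    have e2 : cexp ((w.arg : ℂ) * I) = w / ‖w‖ := by
      have := Complex.norm_mul_exp_arg_mul_I w
      rw [eq_div_iff hwn', mul_comm]
      exact this
    have e3 : cexp ((x : ℂ) * I) = ζ * (w / ‖w‖) := by
      rw [hx, Complex.ofReal_add, add_mul, Complex.exp_add, e1, e2]
    have e4 : conj w / (‖w‖ : ℂ) * (w / ‖w‖) = 1 := by
      rw [div_mul_div_comm, ← Complex.normSq_eq_conj_mul_self, Complex.normSq_eq_norm_sq]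
      push_cast
      rw [sq]
      exact div_self (mul_ne_zero hwn' hwn')
    have e5 : cexp ((x : ℂ) * I) - 1 = (ζ - conj w / (‖w‖ : ℂ)) * (w / ‖w‖) := by
      rw [sub_mul, e4, e3]
    have e6 : ‖w / (‖w‖ : ℂ)‖ = 1 := by
      rw [norm_div, Complex.norm_real, Real.norm_eq_abs, abs_of_pos hwn, div_self hwn.ne']
    rw [e5, norm_mul, e6, mul_one]
    exact h
  have hpi := Real.pi_gt_three
  have hpi4 := Real.pi_lt_four
  have hxpi : |x| ≤ Real.pi := by
    by_contra hcon
    push Not at hcon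
    have hψ : |ζ.arg| ≤ Real.pi := Complex.abs_arg_le_pi ζ
    have hx2 : |x| < 3 * Real.pi / 2 := by
      have := abs_add_le ζ.arg w.arg
      rw [hx]
      linarith
    have hcos : Real.cos x ≤ 0 := by
      rw [← Real.cos_abs]
      apply Real.cos_nonpos_of_pi_div_two_le_of_le <;> linarith
    have hnorm : 1 - Real.cos x ≤ ‖cexp ((x : ℂ) * I) - 1‖ := by
      have h1 := Complex.abs_re_le_norm (cexp ((x : ℂ) * I) - 1)
      rw [Complex.sub_re, Complex.one_re, Complex.exp_ofReal_mul_I_re] at h1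
      have := neg_abs_le (Real.cos x - 1)
      linarith
    linarith
  have hxle : |x| ≤ 2 * η := by
    have h1 : ‖cexp ((x : ℂ) * I) - 1‖ = |2 * Real.sin (x / 2)| := by
      have := Complex.norm_exp_I_mul_ofReal_sub_one x
      rw [mul_comm] at this
      rw [this, Real.norm_eq_abs]
    rw [h1, abs_mul, abs_of_pos (by norm_num : (0 : ℝ) < 2)] at hexp
    have h2 : |x / 2| ≤ Real.pi / 2 := by
      rw [abs_div, abs_of_pos (by norm_num : (0 : ℝ) < 2)]
      linarith
    have h3 := Real.mul_abs_le_abs_sin h2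
    rw [abs_div, abs_of_pos (by norm_num : (0 : ℝ) < 2), div_mul_eq_mul_div,
      div_le_iff₀ Real.pi_pos] at h3
    have h5 : 0 ≤ |Real.sin (x / 2)| := abs_nonneg _
    nlinarith
  have e : ζ.arg + z.im = x - (w.arg - z.im) := by rw [hx]; ring
  rw [e]
  refine (abs_sub _ _).trans ?_
  linarith

end Pool.Agent.Helper84.HRT
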