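import Mathlib
import Pool.Agent.Helper84.HRT.DefsS
import Pool.Agent.Helper84.HRT.L20A
import Pool.Agent.Helper84.HRT.L20F
import Pool.Agent.Helper84.HRT.L20H
import Pool.Agent.Helper84.HRT.L20S

open MeasureTheory Complex Filter
open scoped ENNReal NNReal ComplexConjugate InnerProductSpace BigOperators Topology

namespace Pool.Agent.Helper84.HRT

variable {H : Type} [NormedAddCommGroup H] [InnerProductSpace ℂ H] [CompleteSpace H]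

variable {W : Weyl H} {D : Data} {F : Fam W D} {R0 δ0 C1 : ℝ}

private theorem l20u_bdd (g : ℝ → ℂ) (hg : Continuous g) (hper : ∀ t, g (t + 1) = g t) :
    ∃ M : ℝ, 0 ≤ M ∧ ∀ t, ‖g t‖ ≤ M := by
  obtain ⟨M, hM⟩ := (isCompact_Icc (a := (0 : ℝ)) (b := 1)).exists_bound_of_continuousOn
    hg.continuousOn
  have hp : Function.Periodic g 1 := hper
  refine ⟨max M 0, le_max_right _ _, fun t => ?_⟩
  obtain ⟨y, hy, he⟩ := hp.exists_mem_Ico₀ one_pos t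
  rw [he]
  exact (hM y ⟨hy.1, hy.2.le⟩).trans (le_max_left _ _)

private theorem l20u_mf_le (W : Weyl H) (f : H) (t : ℝ) : ‖mf W f t‖ ≤ ‖f‖ ^ 2 := by
  unfold mf
  refine (norm_inner_le_norm f _).trans ?_
  rw [W.norm_U, sq]

private theorem l20u_lt {f : ℕ → ℝ} {b : ℝ} (hf : Tendsto f atTop (𝓝 0)) (hb : 0 < b) :
    ∀ᶠ j in atTop, f j < b := hf.eventually_lt_const hb

/-- the algebra at one node -/
private theorem l20u_point {ε q K Mg A2 ρ e0 Φ η s : ℝ} {ζ mu my mp dqv gv : ℂ}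
    (hε : 0 < ε) (hq : 0 < q) (hqe : q = A2 / 4 * e0) (hK : K = (Mg + 1) / q) (hMg0 : 0 ≤ Mg)
    (hMg : ‖gv‖ ≤ Mg) (hA2 : 0 < A2) (he0 : 0 < e0) (hρ : A2 / 4 < ρ) (hΦ : 0 < Φ)
    (hmu : e0 ≤ ‖mu‖) (hmp : e0 ≤ ‖mp‖) (hdq : dqv = (my - (ρ : ℂ) * mu) / (Φ : ℂ))
    (hd1 : ‖dqv - gv‖ < 1) (hd2 : ‖dqv - gv‖ < ε * q / 4) (h1 : K ^ 2 * Φ < ε / 4)
    (h2 : K * Φ < 1 / 2) (hη : η ≤ 1 / 2) (hηΦ : 2 * η < ε / 4 * Φ) (hζ : ‖ζ‖ = 1)
    (hs : ‖(ρ : ℂ) * mu - (A2 : ℂ) * mp‖ ≤ s) (hs2 : s < ε * q ^ 2 / (4 * (Mg + 1)))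
    (hal : ‖ζ - conj my / (‖my‖ : ℂ) * ((‖mu‖ : ℂ) / conj mu)‖ ≤ η) :
    |ζ.arg / Φ + (gv / ((A2 : ℂ) * mp)).im| ≤ ε := by
  have hρ0 : 0 < ρ := by linarith
  have hmu0 : 0 < ‖mu‖ := by linarith
  have hmp0 : 0 < ‖mp‖ := by linarith
  have hmune : mu ≠ 0 := norm_pos_iff.1 hmu0
  have hmpne : mp ≠ 0 := norm_pos_iff.1 hmp0
  have hΦc : (Φ : ℂ) ≠ 0 := by exact_mod_cast hΦ.ne'
  have hρc : (ρ : ℂ) ≠ 0 := by exact_mod_cast hρ0.ne'
  have hA2c : (A2 : ℂ) ≠ 0 := by exact_mod_cast hA2.ne'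
  set z : ℂ := (Φ : ℂ) * dqv / ((ρ : ℂ) * mu) with hz
  have hmy : my = (ρ : ℂ) * mu * (1 + z) := by
    rw [hz, hdq]
    field_simp
    ring
  have hqle : q ≤ ρ * ‖mu‖ := by
    rw [hqe]
    exact mul_le_mul hρ.le hmu he0.le hρ0.le
  have hqle2 : q ≤ A2 * ‖mp‖ := by
    rw [hqe]
    have : A2 / 4 * e0 ≤ A2 * e0 := by nlinarith [mul_pos hA2 he0]
    exact this.trans (mul_le_mul_of_nonneg_left hmp hA2.le)
  have hdn : ‖dqv‖ ≤ Mg + 1 := by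
    have := norm_add_le (dqv - gv) gv
    rw [sub_add_cancel] at this
    linarith
  have hzn : ‖z‖ ≤ K * Φ := by
    rw [hz, norm_div, norm_mul, norm_mul, Complex.norm_real, Complex.norm_real,
      Real.norm_of_nonneg hΦ.le, Real.norm_of_nonneg hρ0.le, hK]
    rw [div_le_iff₀ (by positivity)]
    have h3 : (Mg + 1) / q * Φ * (ρ * ‖mu‖) = Φ * (Mg + 1) * ((ρ * ‖mu‖) / q) := by ring
    rw [h3]
    have h4 : 1 ≤ (ρ * ‖mu‖) / q := by rwa [one_le_div hq]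
    have h5 : Φ * ‖dqv‖ ≤ Φ * (Mg + 1) := mul_le_mul_of_nonneg_left hdn hΦ.le
    have h6 : 0 ≤ Φ * (Mg + 1) := by positivity
    nlinarith
  have hz2 : ‖z‖ ≤ 1 / 2 := hzn.trans h2.le
  have h1z : (1 : ℂ) + z ≠ 0 := by
    intro h
    have : z = -1 := by linear_combination h
    rw [this, norm_neg, norm_one] at hz2
    norm_num at hz2
  have h1zn : (‖1 + z‖ : ℂ) ≠ 0 := by
    exact_mod_cast (norm_pos_iff.2 h1z).ne'
  have hmuc : (‖mu‖ : ℂ) ≠ 0 := by exact_mod_cast hmu0.ne'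
  have hcmu : conj mu ≠ 0 := by
    rwa [Ne, map_eq_zero]
  have huni : conj my / (‖my‖ : ℂ) * ((‖mu‖ : ℂ) / conj mu) = conj (1 + z) / (‖1 + z‖ : ℂ) := by
    have e1 : (‖my‖ : ℂ) = (ρ : ℂ) * (‖mu‖ : ℂ) * (‖1 + z‖ : ℂ) := by
      rw [hmy, norm_mul, norm_mul, Complex.norm_real, Real.norm_of_nonneg hρ0.le]
      push_cast
      ring
    have e2 : conj my = (ρ : ℂ) * conj mu * conj (1 + z) := by
      rw [hmy, map_mul, map_mul, Complex.conj_ofReal]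
    rw [e1, e2]
    field_simp
  rw [huni] at hal
  have key := arg_expand z ζ η hz2 hζ hη hal
  -- divide by Φ
  have hzim : z.im = Φ * (dqv / ((ρ : ℂ) * mu)).im := by
    have : z = (Φ : ℂ) * (dqv / ((ρ : ℂ) * mu)) := by rw [hz]; ring
    rw [this, Complex.im_ofReal_mul]
  have hsplit : ζ.arg / Φ + (gv / ((A2 : ℂ) * mp)).im =
      (ζ.arg + z.im) / Φ + (gv / ((A2 : ℂ) * mp) - dqv / ((ρ : ℂ) * mu)).im := by
    rw [Complex.sub_im, hzim]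
    field_simp
    ring
  have hfirst : |(ζ.arg + z.im) / Φ| ≤ ε / 4 + ε / 4 := by
    rw [abs_div, abs_of_pos hΦ, div_le_iff₀ hΦ]
    refine key.trans ?_
    have h3 : ‖z‖ ^ 2 ≤ (K * Φ) ^ 2 := pow_le_pow_left₀ (norm_nonneg _) hzn 2
    nlinarith
  have hsecond : ‖gv / ((A2 : ℂ) * mp) - dqv / ((ρ : ℂ) * mu)‖ ≤ ε / 4 + ε / 4 := by
    have e3 : gv / ((A2 : ℂ) * mp) - dqv / ((ρ : ℂ) * mu) =
        -((dqv - gv) / ((ρ : ℂ) * mu)) +
          gv * (((ρ : ℂ) * mu - (A2 : ℂ) * mp) / (((A2 : ℂ) * mp) * ((ρ : ℂ) * mu))) := by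
      field_simp
      ring
    rw [e3]
    have n1 : ‖(ρ : ℂ) * mu‖ = ρ * ‖mu‖ := by
      rw [norm_mul, Complex.norm_real, Real.norm_of_nonneg hρ0.le]
    have n2 : ‖(A2 : ℂ) * mp‖ = A2 * ‖mp‖ := by
      rw [norm_mul, Complex.norm_real, Real.norm_of_nonneg hA2.le]
    refine (norm_add_le _ _).trans (add_le_add ?_ ?_)
    · rw [norm_neg, norm_div, n1, div_le_iff₀ (by positivity)]
      nlinarith
    · rw [norm_mul, norm_div, norm_mul, n1, n2]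
      have hqq : q ^ 2 ≤ A2 * ‖mp‖ * (ρ * ‖mu‖) := by
        rw [sq]
        exact mul_le_mul hqle2 hqle hq.le (by positivity)
      have h4 : ‖(ρ : ℂ) * mu - (A2 : ℂ) * mp‖ / (A2 * ‖mp‖ * (ρ * ‖mu‖)) ≤
          ε / (4 * (Mg + 1)) := by
        rw [div_le_iff₀ (by positivity)]
        have h5 : ε / (4 * (Mg + 1)) * q ^ 2 ≤ ε / (4 * (Mg + 1)) * (A2 * ‖mp‖ * (ρ * ‖mu‖)) :=
          mul_le_mul_of_nonneg_left hqq (by positivity)
        have h6 : ε * q ^ 2 / (4 * (Mg + 1)) = ε / (4 * (Mg + 1)) * q ^ 2 := by ring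
        linarith
      calc ‖gv‖ * (‖(ρ : ℂ) * mu - (A2 : ℂ) * mp‖ / (A2 * ‖mp‖ * (ρ * ‖mu‖)))
          ≤ (Mg + 1) * (ε / (4 * (Mg + 1))) :=
            mul_le_mul (by linarith) h4 (by positivity) (by positivity)
        _ = ε / 4 := by field_simp
  rw [hsplit]
  refine (abs_add_le _ _).trans ?_
  have h7 := (Complex.abs_im_le_norm (gv / ((A2 : ℂ) * mp) - dqv / ((ρ : ℂ) * mu))).trans hsecond
  linarith

/-- L20.7a: on `Far` nodes `φ_k/Φ` is close to `S0(k/N)`, `S0 = -Im (g/(|a0|² m))`. Use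
`pair_chi_align`, `arg_expand` with `z = Φ dq/(|a|² mf u)` (`mf y = |a|² (mf u) (1+z)`);
`√N x^190/Φ ≤ x^10` by `Big`; `pair_max_lim`. -/
theorem pair_ph_far (P : Fam.Pair F R0 δ0 C1) (Φ : ℕ → ℝ) (hΦ : P.IsMax Φ) (hb : P.Big)
    (h1 : P.ToOne) (g : ℝ → ℂ) (hg : Continuous g) (hper : ∀ t, g (t + 1) = g t)
    (hlim : TendstoUniformly (fun j => P.dq Φ j) g atTop)
    (a0 : ℂ) (ha0 : a0 ≠ 0) (ha : Tendsto P.a atTop (nhds a0))
    (Z : Finset ℝ) (hZ : ∀ del : ℝ, 0 < del → ∃ ε : ℝ, 0 < ε ∧ ∀ᶠ j in atTop, ∀ k : ℤ,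
      Far Z del (P.nd j k) → ε ≤ ‖mf W (P.u j) (P.nd j k)‖ ∧ ε ≤ ‖mf W (P.y j) (P.nd j k)‖ ∧
      ε ≤ ‖mf W P.ψ (P.nd j k)‖ ∧ ε ≤ ‖mf W P.ψ2 (P.nd j k)‖ ∧
      ε ≤ D.κN (D.NN (P.n j)) (P.nd j k)) (del ε : ℝ) (hdel : 0 < del) (hε : 0 < ε) :
    ∀ᶠ j in atTop, ∀ k : ℤ, Far Z del (P.nd j k) →
      |P.ph j k / Φ j + (g (P.nd j k) / (((‖a0‖ ^ 2 : ℝ) : ℂ) * mf W P.ψ (P.nd j k))).im| ≤ ε := by
  obtain ⟨Mg, hMg0, hMg⟩ := l20u_bdd g hg hper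
  obtain ⟨e0, he0, hfar⟩ := hZ del hdel
  obtain ⟨Ca, hCa, hal⟩ := pair_chi_align P e0 he0
  have hA0 : 0 < ‖a0‖ := norm_pos_iff.2 ha0
  set A2 : ℝ := ‖a0‖ ^ 2 with hA2d
  have hA2 : 0 < A2 := by positivity
  set q : ℝ := A2 / 4 * e0 with hqd
  have hq : 0 < q := by positivity
  set K : ℝ := (Mg + 1) / q with hKd
  have hΦ0 : Tendsto Φ atTop (𝓝 0) := pair_max_lim P Φ hΦ h1
  have hx0 : Tendsto P.x atTop (𝓝 0) := pair_x_lim P
  have hbig : ∀ᶠ j in atTop, Real.sqrt (D.NN (P.n j)) * P.x j ^ 180 < Φ j := by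
    filter_upwards [hb 1] with j hj
    obtain ⟨k, hk⟩ := hj
    rw [one_mul] at hk
    exact hk.trans_le ((pair_le_ph P j k).trans ((hΦ j).1 k))
  have e1 : ∀ᶠ j in atTop, K ^ 2 * Φ j < ε / 4 := by
    have h := hΦ0.const_mul (K ^ 2)
    rw [mul_zero] at h
    exact l20u_lt h (by positivity)
  have e2 : ∀ᶠ j in atTop, K * Φ j < 1 / 2 := by
    have h := hΦ0.const_mul K
    rw [mul_zero] at h
    exact l20u_lt h (by norm_num)
  have e3 : ∀ᶠ j in atTop, 2 * Ca * P.x j ^ 10 < ε / 4 := by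
    have h := (hx0.pow 10).const_mul (2 * Ca)
    rw [zero_pow (by norm_num), mul_zero] at h
    exact l20u_lt h (by positivity)
  have e4 : ∀ᶠ j in atTop, Ca * P.x j ^ 170 < 1 / 2 := by
    have h := (hx0.pow 170).const_mul Ca
    rw [zero_pow (by norm_num), mul_zero] at h
    exact l20u_lt h (by norm_num)
  have e5 : ∀ᶠ j in atTop, ∀ t, ‖P.dq Φ j t - g t‖ < min 1 (ε * q / 4) := by
    have h := Metric.tendstoUniformly_iff.1 hlim (min 1 (ε * q / 4)) (by positivity)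
    filter_upwards [h] with j hj t
    rw [← dist_eq_norm, dist_comm]
    exact hj t
  have hρlim : Tendsto (fun j => ‖P.a j‖ ^ 2) atTop (𝓝 A2) := (ha.norm).pow 2
  have e6 : ∀ᶠ j in atTop, A2 / 4 < ‖P.a j‖ ^ 2 :=
    hρlim.eventually_const_lt (by linarith)
  have e7 : ∀ᶠ j in atTop, |‖P.a j‖ ^ 2 - A2| * ‖P.u j‖ ^ 2 +
      A2 * (‖P.u j - P.ψ‖ * (‖P.u j‖ + ‖P.ψ‖)) < ε * q ^ 2 / (4 * (Mg + 1)) := by
    have ha' : Tendsto (fun j => |‖P.a j‖ ^ 2 - A2|) atTop (𝓝 0) := by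
      have h := (hρlim.sub_const A2).abs
      rwa [sub_self, abs_zero] at h
    have hu : Tendsto (fun j => ‖P.u j‖) atTop (𝓝 ‖P.ψ‖) := P.lim_u.norm
    have hu' : Tendsto (fun j => ‖P.u j - P.ψ‖) atTop (𝓝 0) := by
      have h := (P.lim_u.sub_const P.ψ).norm
      rwa [sub_self, norm_zero] at h
    have h := (ha'.mul (hu.pow 2)).add ((hu'.mul (hu.add_const ‖P.ψ‖)).const_mul A2)
    rw [zero_mul, zero_mul, mul_zero, add_zero] at h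
    exact l20u_lt h (by positivity)
  filter_upwards [hfar, hal, hbig, e1, e2, e3, e4, e5, e6, e7] with j hfar hal hbig e1 e2 e3 e4
    e5 e6 e7 k hk
  obtain ⟨f1, f2, f3, -, f5⟩ := hfar k hk
  have hx1 : P.x j ≤ 1 := pair_x_le P j
  have hxp : 0 < P.x j := P.x_pos j
  have hsq := pair_sqrt_le P j
  set N : ℝ := Real.sqrt (D.NN (P.n j)) with hN
  have hN0 : 0 ≤ N := Real.sqrt_nonneg _
  have hΦpos : 0 < Φ j := lt_of_le_of_lt (by positivity) hbig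
  have hη1 : Ca * N * P.x j ^ 190 ≤ 1 / 2 := by
    have h : Ca * N * P.x j ^ 190 = Ca * P.x j ^ 170 * (N * P.x j ^ 20) := by ring
    rw [h]
    have h' : Ca * P.x j ^ 170 * (N * P.x j ^ 20) ≤ Ca * P.x j ^ 170 * 1 :=
      mul_le_mul_of_nonneg_left hsq (by positivity)
    linarith
  have hη2 : 2 * (Ca * N * P.x j ^ 190) < ε / 4 * Φ j := by
    have h : 2 * (Ca * N * P.x j ^ 190) = (2 * Ca * P.x j ^ 10) * (N * P.x j ^ 180) := by ring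
    rw [h]
    calc (2 * Ca * P.x j ^ 10) * (N * P.x j ^ 180) ≤ (2 * Ca * P.x j ^ 10) * Φ j :=
          mul_le_mul_of_nonneg_left hbig.le (by positivity)
      _ < ε / 4 * Φ j := mul_lt_mul_of_pos_right e3 hΦpos
  have hζ1 : ‖chi (P.w j - P.v j) (node (P.nd j k))‖ = 1 := by
    unfold chi
    have := Complex.norm_exp_ofReal_mul_I
      (-(2 * (node (P.nd j k) * conj (P.w j - P.v j)).im))
    push_cast at this
    push_cast
    exact this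
  have hd := e5 (P.nd j k)
  refine l20u_point (s := |‖P.a j‖ ^ 2 - A2| * ‖P.u j‖ ^ 2 +
      A2 * (‖P.u j - P.ψ‖ * (‖P.u j‖ + ‖P.ψ‖))) hε hq hqd hKd hMg0 (hMg _) hA2 he0 e6 hΦpos f1 f3
      (my := mf W (P.y j) (P.nd j k)) (dqv := P.dq Φ j (P.nd j k)) rfl
      (hd.trans_le (min_le_left _ _)) (hd.trans_le (min_le_right _ _)) e1 e2 hη1 hη2 hζ1 ?_ e7
      (hal k f1 f2 f5)
  have hsub := mf_sub_le W (P.u j) P.ψ (P.nd j k)
  have h8 : ((‖P.a j‖ ^ 2 : ℝ) : ℂ) * mf W (P.u j) (P.nd j k) -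
      (A2 : ℂ) * mf W P.ψ (P.nd j k) =
      ((‖P.a j‖ ^ 2 - A2 : ℝ) : ℂ) * mf W (P.u j) (P.nd j k) +
        (A2 : ℂ) * (mf W (P.u j) (P.nd j k) - mf W P.ψ (P.nd j k)) := by
    push_cast
    ring
  rw [h8]
  refine (norm_add_le _ _).trans (add_le_add ?_ ?_)
  · rw [norm_mul, Complex.norm_real, Real.norm_eq_abs]
    exact mul_le_mul_of_nonneg_left (l20u_mf_le W _ _) (abs_nonneg _)
  · rw [norm_mul, Complex.norm_real, Real.norm_of_nonneg hA2.le]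
    exact mul_le_mul_of_nonneg_left hsub hA2.le

end Pool.Agent.Helper84.HRT
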