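import Mathlib
import Pool.Agent.Helper84.HRT.DefsS
import Pool.Agent.Helper84.HRT.WA
import Pool.Agent.Helper84.HRT.L13
import Pool.Agent.Helper79.HRT.CosetZero
import Pool.Agent.Helper84.HRT.C5
import Pool.Agent.Helper84.HRT.L20F
import Pool.Agent.Helper84.HRT.L20I
import Pool.Agent.Helper84.HRT.L20J
import Pool.Agent.Helper84.HRT.L20K
import Pool.Agent.Helper84.HRT.L20R
import Pool.Agent.Helper84.HRT.L20T
import Pool.Agent.Helper84.HRT.L20U

/-!
# L20V: the contradiction of L20.7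
-/

open MeasureTheory Complex Filter
open scoped ENNReal NNReal ComplexConjugate InnerProductSpace BigOperators Topology

namespace Pool.Agent.Helper84.HRT

variable {H : Type} [NormedAddCommGroup H] [InnerProductSpace ℂ H] [CompleteSpace H]

variable {W : Weyl H} {D : Data} {F : Fam W D} {R0 δ0 C1 : ℝ}

theorem l20v_conj_node (t : ℝ) : conj (node t) = Complex.exp (-(2 * Real.pi * (t : ℝ) * I)) := by
  rw [node, ← Complex.exp_conj]
  congr 1
  rw [map_mul, Complex.conj_ofReal, Complex.conj_I]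
  push_cast
  ring

/-- the case when the difference quotients converge -/
theorem l20v_absurd (P : Fam.Pair F R0 δ0 C1) (h0 : P.Mom0) (hb : P.Big)
    (h1 : P.ToOne) (Φ : ℕ → ℝ) (hΦ : P.IsMax Φ) (g : ℝ → ℂ) (hg : Continuous g)
    (hper : ∀ t, g (t + 1) = g t) (hlim : TendstoUniformly (fun j => P.dq Φ j) g atTop) :
    False := by
  obtain ⟨a0, ha0, ha, -⟩ := pair_a_tendsto P
  obtain ⟨Z, hZ1, -, -, hZ⟩ := pair_exists_far P
  set N : ℕ → ℕ := fun j => D.NN (P.n j) with hN
  have hNpos : ∀ j, 0 < N j := fun j => c5_NN_pos D (P.n j)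
  set f : ℕ → ℝ → ℝ := fun j t => (chi (P.w j - P.v j) (node t)).arg / Φ j with hf
  have hfk : ∀ j (k : ℤ), f j ((k : ℝ) / N j) = P.ph j k / Φ j := fun j k => rfl
  set S : ℝ → ℝ := fun t => -(g t / (((‖a0‖ ^ 2 : ℝ) : ℂ) * mf W P.ψ t)).im with hS
  have key := Pool.Agent.Helper79.HRT.coset_uniform_zero Z N (c5_NN_tendsto D P.n_lim)
    (fun p hp => c5_NN_dvd D P.n_lim p hp.pos) f ?_ ?_ S ?_ ?_ (1 / 2) (by norm_num)
  · have hbig := hb 0
    obtain ⟨j, hj1, k, hk⟩ := (key.and hbig).exists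
    have h2 : 0 < Φ j := by
      have h3 := pair_le_ph P j k
      have h4 := (hΦ j).1 k
      have h5 : (0 : ℝ) < ‖chi (P.w j - P.v j) (node (P.nd j k)) - 1‖ := by
        simpa using hk
      linarith
    obtain ⟨k', hk'⟩ := (hΦ j).2
    have h3 := hj1 k'
    rw [hfk, abs_div, hk', abs_of_pos h2, div_self h2.ne'] at h3
    norm_num at h3
  · intro p hp
    filter_upwards [pair_coset_ph P h1 p hp, c5_NN_dvd D P.n_lim p hp.pos] with j hj hd
    intro k
    have h2 : ∀ i ∈ Finset.range p, f j ((k : ℝ) / N j + i / p) =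
        P.ph j (k + (i : ℤ) * ((D.NN (P.n j) / p : ℕ) : ℤ)) / Φ j := by
      intro i _
      rw [← l20t_shift (N j) p (hNpos j) hp.pos hd k i]
      rfl
    rw [Finset.sum_congr rfl h2, ← Finset.sum_div, hj k, zero_div]
  · refine (tendsto_congr' ?_).2 tendsto_const_nhds
    filter_upwards [h0] with j hj
    have h2 : ∑ k ∈ Finset.range (N j), (f j ((k : ℝ) / N j) : ℂ) *
        Complex.exp (-(2 * Real.pi * ((k : ℝ) / N j : ℝ) * Complex.I)) =
        (∑ k ∈ Finset.range (D.NN (P.n j)),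
          ((P.ph j k : ℝ) : ℂ) * conj (node (P.nd j k))) / (Φ j : ℂ) := by
      rw [Finset.sum_div]
      refine Finset.sum_congr rfl fun k _ => ?_
      have h3 := hfk j (k : ℤ)
      rw [Int.cast_natCast] at h3
      have h4 : P.nd j (k : ℤ) = (k : ℝ) / N j := by
        rw [Fam.Pair.nd, Int.cast_natCast]
      rw [h3, h4, l20v_conj_node]
      push_cast
      ring
    rw [h2, hj]
    simp
  · intro t ht
    have hm : mf W P.ψ t ≠ 0 := fun h => ht (hZ1 t h)
    have hc : Continuous (mf W P.ψ) := c5_mf_cont W P.ψ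
    have hne : ((‖a0‖ ^ 2 : ℝ) : ℂ) * mf W P.ψ t ≠ 0 := by
      refine mul_ne_zero ?_ hm
      exact Complex.ofReal_ne_zero.2 (pow_ne_zero 2 (norm_ne_zero_iff.2 ha0))
    have h2 : ContinuousAt (fun t => g t / (((‖a0‖ ^ 2 : ℝ) : ℂ) * mf W P.ψ t)) t :=
      hg.continuousAt.div (continuousAt_const.mul hc.continuousAt) hne
    exact (Complex.continuous_im.continuousAt.comp h2).neg
  · intro δ hδ ε hε
    have h2 := pair_ph_far P Φ hΦ hb h1 g hg hper hlim a0 ha0 ha Z hZ δ ε hδ hε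
    filter_upwards [h2] with j hj k hk
    have h3 := hj k hk
    rw [hfk, hS]
    simp only [sub_neg_eq_add]
    exact h3

/-- L20.7: contradiction by `coset_uniform_zero`. -/
theorem pair_absurd (P : Fam.Pair F R0 δ0 C1) (hWI : F.WI R0 δ0) (h0 : P.Mom0) (hb : P.Big) :
    False := by
  have h1 := pair_toOne P
  obtain ⟨Φ, hΦ⟩ := pair_exists_isMax P
  obtain ⟨φ, hφ, g, hg, hper, hlim⟩ := pair_dq_limit P hWI Φ hΦ hb h1
  have ht := hφ.tendsto_atTop
  exact l20v_absurd (P.comp φ hφ) (ht.eventually h0) (fun C => ht.eventually (hb C))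
    (fun ε hε => ht.eventually (h1 ε hε)) (Φ ∘ φ) (fun j => hΦ (φ j)) g hg hper hlim

end Pool.Agent.Helper84.HRT
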