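import Mathlib
import Pool.Agent.Helper84.HRT.DefsS
import Pool.Agent.Helper84.HRT.L20E
import Pool.Agent.Helper84.HRT.L20M
import Pool.Agent.Helper84.HRT.L20V

open MeasureTheory Complex Filter
open scoped ENNReal NNReal ComplexConjugate InnerProductSpace BigOperators Topology

namespace Pool.Agent.Helper84.HRT

variable {H : Type} [NormedAddCommGroup H] [InnerProductSpace ℂ H] [CompleteSpace H]

/-- L20 (STEP): by contradiction with `Cs = τ0 = j+1`, `exists_pair`, `pair_exists_shift`,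
`pair_absurd`. -/
theorem L20 {W : Weyl H} {D : Data} (F : Fam W D) (R0 δ0 : ℝ) (hL : F.Loc R0 δ0)
    (hWI : F.WI R0 δ0) : F.StepC R0 δ0 := by
  by_contra hcon
  -- the counterexamples
  have hex : ∀ j : ℕ, ∃ n : ℕ, max F.n1 j ≤ n ∧ ∃ x : ℝ, 0 < x ∧ x ^ 40 * (D.NN n : ℝ) ≤ 1 ∧
      F.SepR R0 δ0 n (x ^ 8) ∧ ∃ (w w' : ℂ) (g g' : H), F.Ctr n (x ^ 400) w g ∧
      F.Ctr n (x ^ 400) w' g' ∧ ∀ τ : ℂ, ‖τ‖ ≤ (j : ℝ) + 1 →
        ∃ k : ℤ, ((j : ℝ) + 1) * Real.sqrt (D.NN n) * x ^ 180 <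
          ‖chi (w - w' - τ) (node ((k : ℝ) / D.NN n)) - 1‖ := by
    intro j
    by_contra hj
    apply hcon
    refine ⟨(j : ℝ) + 1, (j : ℝ) + 1, max F.n1 j, by positivity, by positivity,
      le_max_left _ _, ?_⟩
    intro n hn x hx hxN hs w w' g g' hc hc'
    by_contra hτ
    push Not at hτ
    exact hj ⟨n, hn, x, hx, hxN, hs, w, w', g, g', hc, hc', hτ⟩
  choose n hn x hx hxN hs w w' g g' hc hc' hbad using hex
  have hn1 : ∀ j, F.n1 ≤ n j := fun j => (le_max_left _ _).trans (hn j)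
  have hnlim : Tendsto n atTop atTop :=
    tendsto_atTop_mono (fun j => (le_max_right _ _).trans (hn j)) tendsto_id
  obtain ⟨C1, τ, φ, hφ, P, hPn, hPx, hPw, hPv⟩ := exists_pair F R0 δ0 hL n x w w' g g' hnlim hn1
    hx hxN hs hc hc'
  obtain ⟨C1', σ, P', hσ, hPn', hPx', hPw', hPv', hM⟩ := pair_exists_shift P
  refine pair_absurd P' hWI hM ?_
  intro C
  have h1 : ∀ᶠ j in atTop, ‖σ j‖ < 1 := by
    have h2 := hσ.norm
    rw [norm_zero] at h2
    exact h2.eventually (gt_mem_nhds one_pos)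
  obtain ⟨N1, hN1⟩ := exists_nat_ge ‖τ‖
  obtain ⟨N2, hN2⟩ := exists_nat_ge C
  filter_upwards [h1, eventually_ge_atTop N1, eventually_ge_atTop N2] with j hj1 hj2 hj3
  have hjφ : j ≤ φ j := hφ.id_le j
  have hτ : ‖τ + σ j‖ ≤ (φ j : ℝ) + 1 := by
    have h3 : (N1 : ℝ) ≤ φ j := by exact_mod_cast hj2.trans hjφ
    exact (norm_add_le _ _).trans (by linarith)
  have hC : C ≤ (φ j : ℝ) + 1 := by
    have h3 : (N2 : ℝ) ≤ φ j := by exact_mod_cast hj3.trans hjφ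
    linarith
  obtain ⟨k, hk⟩ := hbad (φ j) (τ + σ j) hτ
  refine ⟨k, ?_⟩
  have e1 : P'.n j = n (φ j) := by rw [hPn', hPn]; rfl
  have e2 : P'.x j = x (φ j) := by rw [hPx', hPx]; rfl
  have e3 : P'.w j - P'.v j = w (φ j) - w' (φ j) - (τ + σ j) := by
    rw [hPw', hPv', hPw, hPv]
    simp only [Function.comp_apply]
    ring
  have e4 : P'.nd j k = (k : ℝ) / D.NN (n (φ j)) := by
    unfold Fam.Pair.nd
    rw [e1]
  rw [e1, e2, e3, e4]
  refine lt_of_le_of_lt ?_ hk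
  have h5 : 0 ≤ Real.sqrt (D.NN (n (φ j))) * x (φ j) ^ 180 :=
    mul_nonneg (Real.sqrt_nonneg _) (pow_nonneg (hx _).le _)
  calc C * Real.sqrt (D.NN (n (φ j))) * x (φ j) ^ 180
      = C * (Real.sqrt (D.NN (n (φ j))) * x (φ j) ^ 180) := by ring
    _ ≤ ((φ j : ℝ) + 1) * (Real.sqrt (D.NN (n (φ j))) * x (φ j) ^ 180) :=
      mul_le_mul_of_nonneg_right hC h5
    _ = ((φ j : ℝ) + 1) * Real.sqrt (D.NN (n (φ j))) * x (φ j) ^ 180 := by ring

end Pool.Agent.Helper84.HRT
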