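import Mathlib
import Pool.Agent.Helper84.HRT.DefsS
import Pool.Agent.Helper84.HRT.L14

/-!
# L21A: the numbers of L21
-/

open MeasureTheory Complex Filter
open scoped ENNReal NNReal ComplexConjugate InnerProductSpace BigOperators Topology

namespace Pool.Agent.Helper84.HRT

/-- pure numbers for L21: if `χ_v` is within `Cs √N x^180` of `1` at all nodes, `x^40 N ≤ 1`, then
`|v| ≤ 1` or `|v| ≥ 2 x^{-20000}`. -/
theorem dio_num (Cs : ℝ) (hCs : 0 < Cs) : ∃ N0 : ℕ, ∀ N : ℕ, N0 ≤ N → ∀ x : ℝ, 0 < x →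
    x ^ 40 * (N : ℝ) ≤ 1 → ∀ v : ℂ,
    (∀ k : ℤ, ‖chi v (node ((k : ℝ) / N)) - 1‖ ≤ Cs * Real.sqrt N * x ^ 180) →
    ‖v‖ ≤ 1 ∨ 2 * (x ^ 20000)⁻¹ ≤ ‖v‖ := by
  obtain ⟨N1, hN1⟩ := exists_nat_ge (Cs ^ 10)
  refine ⟨max N1 (max 200 (8 * 400 ^ 130)), fun N hN x hx hxN v hv => ?_⟩
  have hNa : N1 ≤ N := le_trans (le_max_left _ _) hN
  have hNb : 200 ≤ N := le_trans ((le_max_left _ _).trans (le_max_right _ _)) hN
  have hNc : 8 * 400 ^ 130 ≤ N := le_trans ((le_max_right _ _).trans (le_max_right _ _)) hN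
  have hNa' : Cs ^ 10 ≤ N := hN1.trans (by exact_mod_cast hNa)
  have hNb' : (200 : ℝ) ≤ N := by exact_mod_cast hNb
  have hNc' : (8 * 400 ^ 130 : ℝ) ≤ N := by exact_mod_cast hNc
  have hNp : (0 : ℝ) < N := by linarith
  have hx1 : x ≤ 1 := by
    by_contra h
    push Not at h
    have h2 : (1 : ℝ) ≤ x ^ 40 := one_le_pow₀ h.le
    nlinarith
  have hx0 : 0 ≤ x := hx.le
  have hp (k : ℕ) : 0 < x ^ k := pow_pos hx k
  -- the bound for `al`
  have h4 : Cs * x ^ 4 ≤ 1 := by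
    by_contra h
    push Not at h
    have h2 : (1 : ℝ) < (Cs * x ^ 4) ^ 10 := one_lt_pow₀ h (by norm_num)
    have h3 : (Cs * x ^ 4) ^ 10 = x ^ 40 * Cs ^ 10 := by ring
    rw [h3] at h2
    have h5 : x ^ 40 * Cs ^ 10 ≤ x ^ 40 * N := mul_le_mul_of_nonneg_left hNa' (hp 40).le
    linarith
  have hs : Real.sqrt N * x ^ 20 ≤ 1 := by
    have h2 : (Real.sqrt N * x ^ 20) ^ 2 ≤ 1 := by
      rw [mul_pow, Real.sq_sqrt hNp.le, ← pow_mul]
      show (N : ℝ) * x ^ 40 ≤ 1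
      linarith
    have h0 : 0 ≤ Real.sqrt N * x ^ 20 := by positivity
    nlinarith
  have hal : Cs * Real.sqrt N * x ^ 180 ≤ x ^ 156 := by
    have e : Cs * Real.sqrt N * x ^ 180 = (Cs * x ^ 4) * (Real.sqrt N * x ^ 20) * x ^ 156 := by
      ring
    rw [e]
    have h2 : (Cs * x ^ 4) * (Real.sqrt N * x ^ 20) ≤ 1 :=
      mul_le_one₀ h4 (by positivity) hs
    calc _ ≤ 1 * x ^ 156 := mul_le_mul_of_nonneg_right h2 (hp 156).le
      _ = x ^ 156 := one_mul _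
  -- smallness
  have h40 : x ^ 40 ≤ 1 / N := by rwa [le_div_iff₀ hNp]
  have h156 : 200 * x ^ 156 ≤ 1 := by
    have h2 : x ^ 156 ≤ x ^ 40 := pow_le_pow_of_le_one hx0 hx1 (by norm_num)
    have h3 : (200 : ℝ) * x ^ 40 ≤ N * x ^ 40 := mul_le_mul_of_nonneg_right hNb' (hp 40).le
    nlinarith
  have h280 : (8 * 400 ^ 130 : ℝ) * x ^ 280 ≤ 1 := by
    have h2 : x ^ 280 ≤ x ^ 40 := pow_le_pow_of_le_one hx0 hx1 (by norm_num)
    calc (8 * 400 ^ 130 : ℝ) * x ^ 280 ≤ N * x ^ 40 := by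
          exact mul_le_mul hNc' h2 (hp 280).le hNp.le
      _ ≤ 1 := by linarith
  -- the choice of `m`
  have hy : (1 : ℝ) ≤ 1 / (100 * x ^ 156) := by
    rw [le_div_iff₀ (by have := hp 156; positivity)]
    linarith [hp 156]
  obtain ⟨m, hm1, hm2⟩ := exists_nat_pow_near hy (by norm_num : (1 : ℝ) < 2)
  have hm1' : 2 ^ m * x ^ 156 ≤ 1 / 100 := by
    rw [le_div_iff₀ (by have := hp 156; positivity)] at hm1
    linarith
  have hm2' : 1 < 100 * 2 ^ (m + 1) * x ^ 156 := by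
    rw [div_lt_iff₀ (by have := hp 156; positivity)] at hm2
    linarith
  have hm0 : m ≠ 0 := by
    rintro rfl
    norm_num at hm2'
    linarith
  obtain ⟨l, rfl⟩ : ∃ l, m = l + 1 := Nat.exists_eq_succ_of_ne_zero hm0
  have hcard : (((Finset.range N).filter fun k : ℕ =>
      x ^ 156 < ‖chi v (node ((k : ℝ) / N)) - 1‖).card : ℝ) ≤ N / (100 * 2 ^ (l + 1)) := by
    have h2 : ((Finset.range N).filter fun k : ℕ =>
        x ^ 156 < ‖chi v (node ((k : ℝ) / N)) - 1‖) = ∅ := by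
      refine Finset.filter_eq_empty_iff.2 fun k _ => ?_
      rw [not_lt]
      have h3 := (hv (k : ℤ)).trans hal
      rwa [Int.cast_natCast] at h3
    rw [h2]
    simp only [Finset.card_empty, Nat.cast_zero]
    positivity
  rcases dio N (by omega) (l + 1) v (x ^ 156) (hp 156).le hm1' hcard with h | h
  · left
    linarith
  · right
    rw [Nat.add_sub_cancel] at h
    have hpi : (2 : ℝ) ^ 130 ≤ N / (2 * Real.pi) := by
      rw [le_div_iff₀ (by positivity)]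
      have h3 := Real.pi_lt_four
      have h5 : (2 : ℝ) ^ 130 * (2 * Real.pi) ≤ 2 ^ 130 * 8 := by
        have : 2 * Real.pi ≤ 8 := by linarith
        exact mul_le_mul_of_nonneg_left this (by positivity)
      have h6 : (2 : ℝ) ^ 130 * 8 ≤ 8 * 400 ^ 130 := by norm_num
      linarith
    have h7 : ((2 : ℝ) ^ 130) ^ l ≤ (N / (2 * Real.pi)) ^ l :=
      pow_le_pow_left₀ (by positivity) hpi l
    have h8 : 1 ≤ 400 * 2 ^ l * x ^ 156 := by
      have e : (100 : ℝ) * 2 ^ (l + 1 + 1) * x ^ 156 = 400 * 2 ^ l * x ^ 156 := by ring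
      linarith
    have h9 : (1 : ℝ) ≤ (400 * 2 ^ l * x ^ 156) ^ 130 := one_le_pow₀ h8
    have h10 : (400 * 2 ^ l * x ^ 156) ^ 130 = 400 ^ 130 * ((2 : ℝ) ^ 130) ^ l * x ^ 20280 := by
      rw [mul_pow, mul_pow, ← pow_mul, ← pow_mul, ← pow_mul, mul_comm l 130]
    rw [h10] at h9
    set A : ℝ := ((2 : ℝ) ^ 130) ^ l with hA
    have hA0 : 0 < A := by positivity
    have h11 : 8 * (x ^ 20000)⁻¹ ≤ A := by
      rw [← div_eq_mul_inv, div_le_iff₀ (hp 20000)]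
      have h12 : (400 : ℝ) ^ 130 * A * x ^ 20280 = (400 ^ 130 * x ^ 280) * (A * x ^ 20000) := by
        ring
      rw [h12] at h9
      have h13 : 0 < A * x ^ 20000 := mul_pos hA0 (hp _)
      have h14 : 8 * (400 ^ 130 * x ^ 280) * (A * x ^ 20000) ≤ 1 * (A * x ^ 20000) :=
        mul_le_mul_of_nonneg_right (by linarith) h13.le
      linarith
    linarith

end Pool.Agent.Helper84.HRT
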