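import Mathlib
import Pool.Agent.Helper84.HRT.DefsS
import Pool.Agent.Helper84.HRT.L21A

open MeasureTheory Complex Filter
open scoped ENNReal NNReal ComplexConjugate InnerProductSpace BigOperators Topology

namespace Pool.Agent.Helper84.HRT

variable {H : Type} [NormedAddCommGroup H] [InnerProductSpace ℂ H] [CompleteSpace H]

/-- centres are monotone in the precision -/
theorem l21b_ctr_mono {W : Weyl H} {D : Data} (F : Fam W D) (n : ℕ) (δ δ' : ℝ) (h0 : 0 ≤ δ)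
    (h : δ ≤ δ') (w : ℂ) (g : H) (hg : F.Ctr n δ w g) : F.Ctr n δ' w g := by
  refine ⟨hg.ne, hg.tight, hg.small.trans ?_⟩
  gcongr

/-- L21: the step conclusion gives SEP at the new precision `x^400` (`dio_num` with
`v = w - w' - τ`; in the first case `|w-w'| ≤ τ0 + 1 < N^600`, so `≤ R0` by `Coarse`). -/
theorem L21 {W : Weyl H} {D : Data} (F : Fam W D) (R0 δ0 : ℝ) (hC : F.Coarse R0 δ0)
    (hS : F.StepC R0 δ0) : ∃ n0 : ℕ, F.n1 ≤ n0 ∧ ∀ n, n0 ≤ n → ∀ x : ℝ, 0 < x →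
    x ^ 40 * (D.NN n : ℝ) ≤ 1 → x ^ 400 ≤ δ0 → F.SepR R0 δ0 n (x ^ 8) →
    F.SEP R0 n (x ^ 400) := by
  obtain ⟨nC, hnC, hC⟩ := hC
  obtain ⟨Cs, τ0, nS, hCs, hτ0, hnS, hS⟩ := hS
  obtain ⟨N0, hN0⟩ := dio_num Cs hCs
  refine ⟨nC + nS + N0 + (⌈τ0⌉₊ + 2), by omega, ?_⟩
  intro n hn x hx hxN hxδ hsep w w' hw hw'
  obtain ⟨g, hg⟩ := hw
  obtain ⟨g', hg'⟩ := hw'
  have hnN : n ≤ D.NN n := by
    unfold Data.NN
    exact (Nat.self_le_factorial n).trans (Nat.le_mul_of_pos_right _ D.d0_pos)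
  have hNge : τ0 + 2 ≤ (D.NN n : ℝ) := by
    have h1 : ⌈τ0⌉₊ + 2 ≤ D.NN n := by omega
    have h2 : ((⌈τ0⌉₊ + 2 : ℕ) : ℝ) ≤ (D.NN n : ℝ) := by exact_mod_cast h1
    have h3 := Nat.le_ceil τ0
    push_cast at h2
    linarith
  have hN1 : (1 : ℝ) ≤ (D.NN n : ℝ) := by linarith
  obtain ⟨τ, hτ, hchi⟩ := hS n (by omega) x hx hxN hsep w w' g g' hg hg'
  have hx20 : (x ^ 400) ^ 50 = x ^ 20000 := by rw [← pow_mul]
  rcases hN0 (D.NN n) (by omega) x hx hxN (w - w' - τ) hchi with h | h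
  · left
    have h1 : ‖w - w'‖ ≤ τ0 + 1 := by
      calc ‖w - w'‖ = ‖(w - w' - τ) + τ‖ := by ring_nf
        _ ≤ ‖w - w' - τ‖ + ‖τ‖ := norm_add_le _ _
        _ ≤ τ0 + 1 := by linarith
    have hp : (0 : ℝ) ≤ x ^ 400 := by positivity
    rcases hC n (by omega) w w' g g' (l21b_ctr_mono F n _ _ hp hxδ w g hg)
      (l21b_ctr_mono F n _ _ hp hxδ w' g' hg') with h2 | h2
    · exact h2
    · exfalso
      have h3 : (D.NN n : ℝ) ≤ (D.NN n : ℝ) ^ 600 := le_self_pow₀ hN1 (by norm_num)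
      linarith
  · right
    rw [hx20]
    have h1 : (D.NN n : ℝ) ≤ (x ^ 20000)⁻¹ := by
      have h2 : (0 : ℝ) < x ^ 20000 := by positivity
      rw [le_inv_comm₀ (by linarith) h2]
      have h3 : x ^ 40 ≤ (D.NN n : ℝ)⁻¹ := by
        rw [← one_div, le_div_iff₀ (by linarith)]
        exact hxN
      have h4 : x ^ 20000 = (x ^ 40) ^ 500 := by rw [← pow_mul]
      rw [h4]
      have h5 : (D.NN n : ℝ)⁻¹ ≤ 1 := inv_le_one_of_one_le₀ hN1
      have h6 : (0 : ℝ) ≤ x ^ 40 := by positivity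
      calc (x ^ 40) ^ 500 ≤ x ^ 40 := pow_le_of_le_one h6 (h3.trans h5) (by norm_num)
        _ ≤ _ := h3
    have h2 : ‖w - w' - τ‖ ≤ ‖w - w'‖ + ‖τ‖ := norm_sub_le _ _
    linarith

end Pool.Agent.Helper84.HRT
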