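import Mathlib
import Pool.Agent.Helper84.HRT.DefsS
import Pool.Agent.Helper84.HRT.L21B

open MeasureTheory Complex Filter
open scoped ENNReal NNReal ComplexConjugate InnerProductSpace BigOperators Topology

namespace Pool.Agent.Helper84.HRT

variable {H : Type} [NormedAddCommGroup H] [InnerProductSpace ℂ H] [CompleteSpace H]

private theorem l22_isCen_mono {W : Weyl H} {R δ δ' : ℝ} (h0 : 0 ≤ δ) (hδ : δ ≤ δ')
    {T : H →L[ℂ] H} {g : H} (h : IsCen W R δ T g) : IsCen W R δ' T g := by
  refine ⟨h.ne, h.tight, h.small.trans ?_⟩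
  exact mul_le_mul_left (ENNReal.ofReal_le_ofReal (pow_le_pow_left₀ h0 hδ 2)) _

private theorem l22_two_le (D : Data) (n : ℕ) : (2 : ℝ) ≤ (D.NN n : ℝ) := by
  have h1 : 2 ≤ D.d0 := by
    obtain ⟨k, hk⟩ := D.d0_even
    have := D.d0_pos
    omega
  have h2 : 1 ≤ n.factorial := Nat.factorial_pos n
  have h3 : 2 ≤ D.NN n := by
    unfold Data.NN
    calc 2 = 1 * 2 := rfl
      _ ≤ n.factorial * D.d0 := Nat.mul_le_mul h2 h1
  exact_mod_cast h3

/-- L22: for large `n`, SEP holds at all precisions `0 < e ≤ δ0`. For `e ≥ N^{-10}` by `Coarse`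
(`e^{-50} ≤ N^{500}`); then induction on `i`: SEP for `e ≥ (N^{-10})^{50^i}` (`x = e^{1/400}`,
`x^8 = e^{1/50}`, `x^40 N ≤ 1` as `e ≤ N^{-10}`). -/
theorem L22 {W : Weyl H} {D : Data} (F : Fam W D) (R0 δ0 : ℝ) (hδ : 0 < δ0)
    (hC : F.Coarse R0 δ0) (hS : F.StepC R0 δ0) : ∃ n0 : ℕ, F.n1 ≤ n0 ∧ ∀ n, n0 ≤ n →
    ∀ e : ℝ, 0 < e → e ≤ δ0 → F.SEP R0 n e := by
  obtain ⟨na, hna, hstep⟩ := L21 F R0 δ0 hC hS
  obtain ⟨nb, hnb, hco⟩ := hC
  refine ⟨max na nb, hna.trans (le_max_left _ _), fun n hn => ?_⟩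
  have hn1 : na ≤ n := (le_max_left _ _).trans hn
  have hn2 : nb ≤ n := (le_max_right _ _).trans hn
  have hN2 := l22_two_le D n
  set N : ℝ := (D.NN n : ℝ) with hNdef
  have hN0 : 0 < N := by linarith
  set q : ℝ := (N ^ 10)⁻¹ with hq
  have hq0 : 0 < q := by positivity
  have hN10 : 1 < N ^ 10 := one_lt_pow₀ (by linarith) (by norm_num)
  have hq1 : q < 1 := inv_lt_one_of_one_lt₀ hN10
  -- the coarse range
  have hcoarse : ∀ e : ℝ, q ≤ e → e ≤ δ0 → F.SEP R0 n e := by
    intro e hqe hed w w' hw hw'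
    obtain ⟨g, hg⟩ := hw
    obtain ⟨g', hg'⟩ := hw'
    have he0 : 0 < e := hq0.trans_le hqe
    rcases hco n hn2 w w' g g' (l22_isCen_mono he0.le hed hg) (l22_isCen_mono he0.le hed hg')
      with h | h
    · exact Or.inl h
    · refine Or.inr (le_trans ?_ h)
      have h1 : q ^ 50 ≤ e ^ 50 := pow_le_pow_left₀ hq0.le hqe 50
      have h2 : (e ^ 50)⁻¹ ≤ (q ^ 50)⁻¹ := inv_anti₀ (by positivity) h1
      refine h2.trans ?_
      have h3 : (q ^ 50)⁻¹ = N ^ 500 := by
        rw [hq, inv_pow, inv_inv, ← pow_mul]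
      rw [h3]
      exact pow_le_pow_right₀ (by linarith) (by norm_num)
  -- the induction
  have hind : ∀ i : ℕ, ∀ e : ℝ, q ^ (50 ^ i) ≤ e → e ≤ δ0 → F.SEP R0 n e := by
    intro i
    induction i with
    | zero =>
      intro e he hed
      rw [pow_zero, pow_one] at he
      exact hcoarse e he hed
    | succ i ih =>
      intro e he hed
      rcases le_or_gt q e with hqe | hqe
      · exact hcoarse e hqe hed
      · have he0 : 0 < e := lt_of_lt_of_le (by positivity) he
        set x : ℝ := e ^ (1 / 400 : ℝ) with hx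
        have hx0 : 0 < x := Real.rpow_pos_of_pos he0 _
        have hx400 : x ^ 400 = e := by
          rw [hx, ← Real.rpow_natCast, ← Real.rpow_mul he0.le]
          norm_num
        have hxN : x ^ 40 * N ≤ 1 := by
          have h1 : (x ^ 40 * N) ^ 10 ≤ 1 ^ 10 := by
            rw [mul_pow, ← pow_mul, one_pow]
            have h2 : x ^ (40 * 10) = e := hx400
            rw [h2]
            have h3 : q * N ^ 10 = 1 := inv_mul_cancel₀ (by positivity)
            calc e * N ^ 10 ≤ q * N ^ 10 := mul_le_mul_of_nonneg_right hqe.le (by positivity)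
              _ = 1 := h3
          exact le_of_pow_le_pow_left₀ (by norm_num) (by norm_num) h1
        have hsep : F.SepR R0 δ0 n (x ^ 8) := by
          intro e' he' hed'
          refine ih e' (le_trans ?_ he') hed'
          have h1 : (q ^ 50 ^ i) ^ 50 ≤ (x ^ 8) ^ 50 := by
            rw [← pow_mul, ← pow_mul, ← pow_succ]
            have h2 : x ^ (8 * 50) = e := hx400
            rw [h2]
            exact he
          exact le_of_pow_le_pow_left₀ (by norm_num) (by positivity) h1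
        have := hstep n hn1 x hx0 hxN (by rw [hx400]; exact hed) hsep
        rwa [hx400] at this
  intro e he0 hed
  obtain ⟨i, hi⟩ := exists_pow_lt_of_lt_one he0 hq1
  refine hind i e (le_trans ?_ hi.le) hed
  exact pow_le_pow_of_le_one hq0.le hq1.le (Nat.lt_pow_self (by norm_num)).le

end Pool.Agent.Helper84.HRT
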