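import Mathlib
import Pool.Agent.Helper84.HRT.DefsS
import Pool.Agent.Helper84.HRT.WB
import Pool.Agent.Helper84.HRT.WD
import Pool.Agent.Helper84.HRT.L9A
import Pool.Agent.Helper84.HRT.L9
import Pool.Agent.Helper84.HRT.SG

open MeasureTheory Complex Filter
open scoped ENNReal NNReal ComplexConjugate InnerProductSpace BigOperators Topology

namespace Pool.Agent.Helper84.HRT

variable {H : Type} [NormedAddCommGroup H] [InnerProductSpace ℂ H] [CompleteSpace H]

/-- centres of arbitrarily high precision: `F.sing`, `L9` with constant `s = ε'`,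
`M0 = 1`; `mass univ > 0` so `E` is nonempty; `ctr_normalise`. -/
theorem exists_centre {W : Weyl H} {D : Data} (F : Fam W D) (n : ℕ) (hn : F.n1 ≤ n) (ε : ℝ)
    (hε : 0 < ε) : ∃ (w : ℂ) (g : H), F.Ctr n ε w g ∧ S2 (om F.R) (W.V g) = 1 := by
  obtain ⟨C9, hC9, h9⟩ := L9
  have hR : 1 ≤ F.R := by linarith [F.R_ge]
  have hR0 : 0 < F.R := by linarith
  obtain ⟨s0, hs0⟩ : ∃ s0, s0 = min 1 (ε / (C9 * F.R)) := ⟨_, rfl⟩
  have hs1 : 0 < s0 := by
    rw [hs0]
    exact lt_min one_pos (by positivity)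
  have hs2 : s0 ≤ 1 := by rw [hs0]; exact min_le_left _ _
  have hs3 : C9 * Real.sqrt 1 * F.R * s0 ≤ ε := by
    have h1 : s0 ≤ ε / (C9 * F.R) := by rw [hs0]; exact min_le_right _ _
    rw [le_div_iff₀ (by positivity)] at h1
    rw [Real.sqrt_one]
    linarith
  obtain ⟨f, hf1, hf2⟩ := F.sing n hn s0 hs1
  have hf0 : f ≠ 0 := by
    intro h
    rw [h, norm_zero] at hf1
    exact zero_ne_one hf1
  have hT : S2 (fun _ => s0⁻¹) (W.V (F.A n f)) ≤ ENNReal.ofReal (1 * ‖f‖ ^ 2) := by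
    have h1 : S2 (fun _ => s0⁻¹) (W.V (F.A n f)) =
        S2 (fun _ => 1) (W.V (((s0⁻¹ : ℝ) : ℂ) • F.A n f)) := by
      unfold S2
      refine lintegral_congr fun z => ?_
      rw [V_smul, ofReal_one, one_mul]
    rw [h1, S2_V, hf1]
    refine ENNReal.ofReal_le_ofReal ?_
    rw [norm_smul, norm_real, Real.norm_eq_abs, abs_of_pos (inv_pos.2 hs1)]
    have h2 : s0⁻¹ * ‖F.A n f‖ ≤ 1 := by
      rw [inv_mul_le_iff₀ hs1, mul_one]
      exact hf2.le
    have h3 : 0 ≤ s0⁻¹ * ‖F.A n f‖ := mul_nonneg (inv_pos.2 hs1).le (norm_nonneg _)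
    nlinarith
  obtain ⟨E, _, hE2, hE3⟩ := h9 H W F.R hR (F.A n) f (fun _ => s0) 1 continuous_const
    (fun _ => hs1) (fun _ => hs2) (fun z w => by
      have := norm_nonneg (z - w)
      nlinarith) zero_le_one hf0 hT
  have hne : E.Nonempty := by
    by_contra hcon
    rw [Set.not_nonempty_iff_eq_empty] at hcon
    rw [hcon, Set.compl_empty, mass_univ W F.R hR f, hf1] at hE3
    have ha : 0 < F.R ^ 2 / 21 := by positivity
    rw [← ENNReal.ofReal_mul ha.le, ← ENNReal.ofReal_mul (by norm_num),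
      ENNReal.ofReal_le_ofReal_iff (by positivity)] at hE3
    nlinarith
  obtain ⟨w, hw⟩ := hne
  have hc := hE2 w hw
  have hc' : F.Ctr n ε w (W.U w f) := isCen_mono (by positivity) hs3 hc
  obtain ⟨g', h1, h2⟩ := ctr_normalise hc'
  exact ⟨w, g', h1, h2⟩

end Pool.Agent.Helper84.HRT
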