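import Mathlib
import Pool.Agent.Helper84.HRT.DefsS
import Pool.Agent.Helper84.HRT.XC
import Pool.Agent.Helper84.HRT.XD
import Pool.Agent.Helper84.HRT.L6A

open MeasureTheory Complex Filter
open scoped ENNReal NNReal ComplexConjugate InnerProductSpace BigOperators Topology

namespace Pool.Agent.Helper84.HRT

variable {H : Type} [NormedAddCommGroup H] [InnerProductSpace ℂ H] [CompleteSpace H]

/-- compactness of the patterns at a fixed level: subsequence with `tw (w_j) γs → γ` and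
`twN N (w_j) ξs (k/N) → ξ (k/N)`, `k < N` (`finite_compact` of L6A may help). -/
theorem pattern_compact {W : Weyl H} {D : Data} (F : Fam W D) (n : ℕ) (hn : F.n1 ≤ n)
    (w : ℕ → ℂ) : ∃ φ : ℕ → ℕ, StrictMono φ ∧ ∃ γ ∈ D.Γ, ∃ ξ : ℝ → ℂ,
    D.AdmN (D.NN n) (F.rs n) ξ ∧ ∀ (f : ℕ → H) (f0 : H), Tendsto f atTop (nhds f0) →
      Tendsto (fun j => tr W (w (φ j)) (F.A n) (f j)) atTop
        (nhds (Aop W D (muN (D.NN n)) γ ξ f0)) := by
  have hN := NN_pos D n
  have h2 := NN_even D n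
  have hadm := F.ξs_adm n hn
  have hmeas : Measurable (F.ξs n) := (AdmN.adm hN hadm (F.rs_nonneg n)).meas
  have htr : ∀ u : ℂ, tr W u (F.A n) =
      Aop W D (muN (D.NN n)) (D.tw u (F.γs n)) (twN (D.NN n) u (F.ξs n)) := fun u =>
    tr_AopN W D hN hmeas (F.γs n) u
  obtain ⟨φ, hφ, γ0, hγ0, ξ0, hξ0, -, -, hA⟩ := finite_compact W D (D.NN n) hN h2
    (fun _ => F.rs n) (F.rs n) (fun j => D.tw (w j) (F.γs n))
    (fun j => twN (D.NN n) (w j) (F.ξs n)) (fun _ => F.rs_nonneg n)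
    (fun j => tw_mem (F.γs_mem n hn) (w j)) (fun j => AdmN.twN hN h2 hadm (w j))
    tendsto_const_nhds
  refine ⟨φ, hφ, γ0, hγ0, ξ0, hξ0, fun f f0 hf => ?_⟩
  have hA' : Tendsto (fun j => tr W (w (φ j)) (F.A n)) atTop
      (nhds (Aop W D (muN (D.NN n)) γ0 ξ0)) := by
    refine hA.congr fun j => ?_
    exact (htr (w (φ j))).symm
  have hc : Continuous fun p : (H →L[ℂ] H) × H => p.1 p.2 := by fun_prop
  exact (hc.tendsto (Aop W D (muN (D.NN n)) γ0 ξ0, f0)).comp (hA'.prodMk_nhds hf)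

end Pool.Agent.Helper84.HRT
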