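import Mathlib
import Pool.Agent.Helper84.HRT.DefsS
import Pool.Agent.Helper84.HRT.WD
import Pool.Agent.Helper84.HRT.L3A
import Pool.Agent.Helper84.HRT.SC
import Pool.Agent.Helper84.HRT.L23A
import Pool.Agent.Helper84.HRT.L23B

open MeasureTheory Complex Filter
open scoped ENNReal NNReal ComplexConjugate InnerProductSpace BigOperators Topology

namespace Pool.Agent.Helper84.HRT

variable {H : Type} [NormedAddCommGroup H] [InnerProductSpace ℂ H] [CompleteSpace H]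

/-- L23: SEP at all precisions for one `n` gives a null vector. `x_j → 0`, centres of precision
`x_j^400` (`exists_centre`), `Loc`, `L3a`, `pattern_compact`. -/
theorem L23 {W : Weyl H} {D : Data} (F : Fam W D) (R0 δ0 : ℝ) (hδ : 0 < δ0)
    (hL : F.Loc R0 δ0) (n : ℕ)
    (hn : F.n1 ≤ n) (hsep : ∀ e : ℝ, 0 < e → e ≤ δ0 → F.SEP R0 n e) :
    ∃ γ ∈ D.Γ, ∃ ξ : ℝ → ℂ, D.AdmN (D.NN n) (F.rs n) ξ ∧
      ∃ u : H, u ≠ 0 ∧ Aop W D (muN (D.NN n)) γ ξ u = 0 := by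
  obtain ⟨C, x0, hC, hx0, hloc⟩ := hL
  have hxp : ∀ j : ℕ, 0 < x0 / ((j : ℝ) + 1) := fun j => by positivity
  have hxle : ∀ j : ℕ, x0 / ((j : ℝ) + 1) ≤ x0 := fun j =>
    div_le_self hx0.le (by linarith [(Nat.cast_nonneg j : (0 : ℝ) ≤ j)])
  have hall : ∀ j : ℕ, ∃ (w : ℂ) (u : H), ‖tr W w (F.A n) u‖ ≤ (x0 / ((j : ℝ) + 1)) ^ 380 ∧
      S2 (pw 300) (W.V u) ≤ ENNReal.ofReal C ∧ 1 / 2 ≤ ‖u‖ := by
    intro j
    obtain ⟨w, g, h1, h2⟩ := exists_centre F n hn ((x0 / ((j : ℝ) + 1)) ^ 400)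
      (pow_pos (hxp j) _)
    obtain ⟨u, h3, h4, h5, -⟩ := hloc n hn _ (hxp j) (hxle j)
      (fun e he1 he2 => hsep e ((pow_pos (hxp j) _).trans_le he1) he2) w g h1 h2
    exact ⟨w, u, h3, h4, h5⟩
  choose w u h1 h2 h3 using hall
  have hw1 : ∀ z : ℂ, (1 : ℝ) ≤ pw 300 z := fun z => by
    unfold pw
    exact one_le_zpow₀ (by linarith [norm_nonneg z]) (by norm_num)
  have hw2 : ∀ z : ℂ, 1 + ‖z‖ ≤ pw 300 z := fun z => by
    unfold pw
    have h0 : (1 : ℝ) ≤ 1 + ‖z‖ := by linarith [norm_nonneg z]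
    calc 1 + ‖z‖ = (1 + ‖z‖) ^ (1 : ℤ) := (zpow_one _).symm
      _ ≤ _ := zpow_le_zpow_right₀ h0 (by norm_num)
  have hn1 : ∀ j, ‖u j‖ ≤ C := by
    intro j
    have a1 : S2 (fun _ => 1) (W.V (u j)) ≤ ENNReal.ofReal C := by
      refine le_trans ?_ (h2 j)
      refine S2_mono2 fun z => ?_
      refine mul_le_mul_of_nonneg_right ?_ (norm_nonneg _)
      rw [abs_one]; exact (hw1 z).trans (le_abs_self _)
    rw [S2_V] at a1
    have a2 := (ENNReal.ofReal_le_ofReal_iff (by linarith)).1 a1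
    nlinarith [norm_nonneg (u j)]
  have hb1 : ∀ j, S2 (fun z => 1 + ‖z‖) (W.V (u j)) ≤ ENNReal.ofReal C := by
    intro j
    refine le_trans ?_ (h2 j)
    refine S2_mono2 fun z => ?_
    refine mul_le_mul_of_nonneg_right ?_ (norm_nonneg _)
    rw [abs_of_nonneg (by positivity)]; exact (hw2 z).trans (le_abs_self _)
  obtain ⟨φ, hφ, u0, hu0⟩ := L3a W u C hn1 hb1
  obtain ⟨φ', hφ', γ, hγ, ξ, hξ, hlim⟩ := pattern_compact F n hn (w ∘ φ)
  refine ⟨γ, hγ, ξ, hξ, u0, ?_, ?_⟩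
  · intro h0
    rw [h0] at hu0
    have b1 : Tendsto (fun j => ‖u (φ j)‖) atTop (𝓝 ‖(0 : H)‖) := hu0.norm
    have b2 : (1 : ℝ) / 2 ≤ ‖(0 : H)‖ := ge_of_tendsto' b1 fun j => h3 (φ j)
    rw [norm_zero] at b2
    norm_num at b2
  · have c1 := hlim (fun j => u (φ (φ' j))) u0 (hu0.comp hφ'.tendsto_atTop)
    have c2 : Tendsto (fun j => tr W ((w ∘ φ) (φ' j)) (F.A n) (u (φ (φ' j)))) atTop (𝓝 0) := by
      have d1 : Tendsto (fun j : ℕ => (x0 / ((j : ℝ) + 1)) ^ 380) atTop (𝓝 0) := by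
        have : Tendsto (fun j : ℕ => x0 / ((j : ℝ) + 1)) atTop (𝓝 0) :=
          tendsto_const_div_atTop_nhds_zero_nat x0 |>.comp (tendsto_add_atTop_nat 1) |>.congr
            (fun j => by simp)
        simpa using this.pow 380
      have d2 : Tendsto (fun j : ℕ => φ (φ' j)) atTop atTop :=
        hφ.tendsto_atTop.comp hφ'.tendsto_atTop
      exact squeeze_zero_norm (fun j => h1 (φ (φ' j))) (d1.comp d2)
    exact tendsto_nhds_unique c1 c2

end Pool.Agent.Helper84.HRT
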