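import Mathlib
import Pool.Agent.Helper84.HRT.DefsS
import Pool.Agent.Helper84.HRT.L15
import Pool.Agent.Helper84.HRT.L16C
import Pool.Agent.Helper84.HRT.L17C
import Pool.Agent.Helper84.HRT.L19B
import Pool.Agent.Helper84.HRT.L20W
import Pool.Agent.Helper84.HRT.L22
import Pool.Agent.Helper84.HRT.L23C

open MeasureTheory Complex Filter
open scoped ENNReal NNReal ComplexConjugate InnerProductSpace BigOperators Topology

namespace Pool.Agent.Helper84.HRT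

variable {H : Type} [NormedAddCommGroup H] [InnerProductSpace ℂ H] [CompleteSpace H]

private theorem send_isCen_mono {W : Weyl H} {R δ δ' : ℝ} (h0 : 0 ≤ δ) (hδ : δ ≤ δ')
    {T : H →L[ℂ] H} {g : H} (h : IsCen W R δ T g) : IsCen W R δ' T g := by
  refine ⟨h.ne, h.tight, h.small.trans ?_⟩
  exact mul_le_mul_left (ENNReal.ofReal_le_ofReal (pow_le_pow_left₀ h0 hδ 2)) _

/-- L15 for `K = 600` in the form `Coarse`, for all small `δ0` -/
theorem coarse_mono {W : Weyl H} {D : Data} (F : Fam W D) (R0 δ1 δ0 : ℝ) (h0 : 0 ≤ δ0)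
    (h01 : δ0 ≤ δ1) (h : F.Coarse R0 δ1) : F.Coarse R0 δ0 := by
  obtain ⟨n0, hn0, hh⟩ := h
  refine ⟨n0, hn0, fun n hn w w' g g' hg hg' => ?_⟩
  exact hh n hn w w' g g' (send_isCen_mono h0 h01 hg) (send_isCen_mono h0 h01 hg')

/-- the end of the soft part: `L15` (K = 600), `L16`, `L17`, `L19`, `L20`, `L22`, `L23` -/
theorem soft_end {W : Weyl H} {D : Data} (F : Fam W D) : ∃ n : ℕ, F.n1 ≤ n ∧ ∃ γ ∈ D.Γ,
    ∃ ξ : ℝ → ℂ, D.AdmN (D.NN n) (F.rs n) ξ ∧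
      ∃ u : H, u ≠ 0 ∧ Aop W D (muN (D.NN n)) γ ξ u = 0 := by
  obtain ⟨δ1, R0, n0, hδ1, hR0, hn0, hC⟩ := L15 F 600
  obtain ⟨δa, hδa, hDec⟩ := L16 F R0 hR0
  obtain ⟨δb, hδb, hWI⟩ := L19 F R0 hR0
  have hδ : 0 < min δ1 (min δa δb) := lt_min hδ1 (lt_min hδa hδb)
  have hC1 : F.Coarse R0 (min δ1 (min δa δb)) :=
    coarse_mono F R0 δ1 _ hδ.le (min_le_left _ _) ⟨n0, hn0, hC⟩
  have hL : F.Loc R0 (min δ1 (min δa δb)) :=
    L17 F R0 _ (hDec _ hδ ((min_le_right _ _).trans (min_le_left _ _)))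
  have hW : F.WI R0 (min δ1 (min δa δb)) :=
    hWI _ hδ ((min_le_right _ _).trans (min_le_right _ _))
  have hS : F.StepC R0 (min δ1 (min δa δb)) := L20 F R0 _ hL hW
  obtain ⟨n2, hn2, hsep⟩ := L22 F R0 _ hδ hC1 hS
  exact ⟨n2, hn2, L23 F R0 _ hδ hL n2 hn2 (hsep n2 le_rfl)⟩

end Pool.Agent.Helper84.HRT
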