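import Mathlib
import Pool.Agent.Helper84.HRT.DefsA
import Pool.Agent.Helper84.HRT.FK1
import Pool.Agent.Helper84.HRT.FK2
import Pool.Agent.Helper84.HRT.L6F
import Pool.Agent.Helper84.HRT.SEND
import Pool.Agent.Helper92.HRU.Pf.PZ3

/-!
# HRT fails at the roots of unity
-/

open MeasureTheory Complex Filter
open scoped ENNReal ComplexConjugate InnerProductSpace BigOperators Topology

namespace Pool.Agent.Helper84.HRT

variable {H : Type} [NormedAddCommGroup H] [InnerProductSpace ℂ H] [CompleteSpace H]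

/-- raise `n1` -/
def Fam.raise {W : Weyl H} {D : Data} (F : Fam W D) (n0 : ℕ) : Fam W D :=
  { F with
    n1 := max F.n1 n0
    γs_mem := fun n hn => F.γs_mem n ((le_max_left _ _).trans hn)
    ξs_adm := fun n hn => F.ξs_adm n ((le_max_left _ _).trans hn)
    AIN := fun n hn => F.AIN n ((le_max_left _ _).trans hn)
    sing := fun n hn => F.sing n ((le_max_left _ _).trans hn) }

/-- HRT fails at the roots of unity (Fock space form). -/
theorem hrt_fails : ∃ N : ℕ, 0 < N ∧ ∃ c : ℕ → ℂ, (∃ k < N, c k ≠ 0) ∧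
    ∃ f : ℂ → ℂ, Differentiable ℂ f ∧ f ≠ 0 ∧
      Integrable (fun z : ℂ => ‖f z‖ ^ 2 * Real.exp (-‖z‖ ^ 2)) ∧
      ∀ z, ∑ k ∈ Finset.range N,
        c k * fockU (cexp (2 * Real.pi * I * k / N)) f z = 0 := by
  obtain ⟨D, rb, r1, g, c, C, hG⟩ := Pool.Agent.Helper92.HRU.theoremB
  obtain ⟨F0⟩ := exists_Fam Pool.Agent.Helper92.HRU.LW D hG
  obtain ⟨n0, hn0⟩ := coeff_of_Aop Pool.Agent.Helper92.HRU.LW D F0.g F0.C0 F0.g_pos F0.E0
  obtain ⟨n, hn, γ, hγ, ξ, hξ, u, hu, hA⟩ := soft_end (F0.raise n0)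
  have hn' : n0 ≤ n := (le_max_right F0.n1 n0).trans hn
  obtain ⟨c, hc, hsum⟩ := hn0 n hn' γ hγ ξ (F0.rs n) (F0.rs_nonneg n) (F0.rs_le n) hξ
  obtain ⟨f, h1, h2, h3, h4⟩ := fock_of_weyl Pool.Agent.Helper92.HRU.LW (D.NN n)
    (by obtain ⟨k, hk, -⟩ := hc; omega) c hc u hu (by rw [← hsum u]; exact hA)
  exact ⟨D.NN n, by obtain ⟨k, hk, -⟩ := hc; omega, c, hc, f, h1, h2, h3, h4⟩

end Pool.Agent.Helper84.HRT
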