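import Mathlib
import Pool.Agent.Helper84.HRT.DefsA
import Pool.Agent.Helper84.HRT.WA
import Pool.Agent.Helper84.HRT.WC
import Pool.Agent.Helper84.HRT.XA
import Pool.Agent.Helper84.HRT.XB
import Pool.Agent.Helper84.HRT.XC

open MeasureTheory Complex Filter
open scoped ENNReal ComplexConjugate InnerProductSpace BigOperators Topology

namespace Pool.Agent.Helper84.HRT

variable {H : Type} [NormedAddCommGroup H] [InnerProductSpace ℂ H] [CompleteSpace H]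

/-- the discrete operator as an integral over the unit interval -/
theorem l11c_XL_muN (W : Weyl H) {N : ℕ} (hN : 0 < N) {M : ℝ} {ξ : ℝ → ℂ}
    (hs : ∀ t, ξ (cell N t) = ξ t) (hb : Bd (muN N) M ξ) (h : H) :
    XL W (muN N) ξ h = ∫ t, ξ t • W.U (node (cell N t)) h ∂mu8 := by
  rw [XL_apply W hb h]
  have h1 : ∫ t, ξ t • W.U (node t) h ∂(muN N) =
      ∫ t, ξ t • W.U (node (cell N t)) h ∂(muN N) := by
    apply integral_congr_ae
    rw [Filter.EventuallyEq, muN_ae hN]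
    intro k _
    have := cell_grid hN (k : ℤ)
    push_cast at this
    rw [this]
  rw [h1]
  apply integral_step hN
  intro t
  rw [cell_cell hN, hs]

/-- the quadrature error tends to zero, uniformly in the coefficients -/
theorem l11c_unif (W : Weyl H) (h : H) (ε : ℝ) (hε : 0 < ε) :
    ∃ N0 : ℕ, 0 < N0 ∧ ∀ N : ℕ, N0 ≤ N → ∀ t ∈ Set.Ico (0 : ℝ) 1,
      ‖W.U (node (cell N t)) h - W.U (node t) h‖ ≤ ε := by
  have hc : Continuous fun t => W.U (node t) h := (W.cont h).comp node_cont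
  have huc : UniformContinuousOn (fun t => W.U (node t) h) (Set.Icc 0 1) :=
    isCompact_Icc.uniformContinuousOn_of_continuous hc.continuousOn
  rw [Metric.uniformContinuousOn_iff] at huc
  obtain ⟨δ, hδ, hu⟩ := huc ε hε
  obtain ⟨n, hn⟩ := exists_nat_gt (1 / δ)
  refine ⟨n + 1, Nat.succ_pos n, ?_⟩
  intro N hN t ht
  have hNpos : 0 < N := lt_of_lt_of_le (Nat.succ_pos n) hN
  have hNr : (0 : ℝ) < N := by exact_mod_cast hNpos
  have h1 : cell N t ≤ t := cell_le hNpos t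
  have h2 : t < cell N t + 1 / N := lt_cell_add hNpos t
  have h0 : 0 ≤ cell N t := by
    unfold cell
    apply div_nonneg _ hNr.le
    have : (0 : ℤ) ≤ ⌊(N : ℝ) * t⌋ := by
      apply Int.floor_nonneg.mpr
      exact mul_nonneg hNr.le ht.1
    exact_mod_cast this
  have hNδ : 1 / (N : ℝ) < δ := by
    rw [div_lt_iff₀ hNr]
    rw [div_lt_iff₀ hδ] at hn
    have : (n : ℝ) < N := by
      have : n < N := lt_of_lt_of_le (Nat.lt_succ_self n) hN
      exact_mod_cast this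
    nlinarith
  have := hu (cell N t) ⟨h0, h1.trans ht.2.le⟩ t ⟨ht.1, ht.2.le⟩ (by
    rw [Real.dist_eq, abs_sub_comm, abs_of_nonneg (by linarith)]
    linarith)
  rw [dist_eq_norm] at this
  exact this.le

theorem l11c_quad (W : Weyl H) (D : Data) {N : ℕ} (hN : 0 < N) {ρ M ε : ℝ} (hρ : 0 ≤ ρ)
    (hρM : ρ ≤ M) {ξ : ℝ → ℂ} (hξ : D.AdmN N ρ ξ) (h : H)
    (hu : ∀ t ∈ Set.Ico (0 : ℝ) 1, ‖W.U (node (cell N t)) h - W.U (node t) h‖ ≤ ε) :
    ‖XL W (muN N) ξ h - XL W mu8 ξ h‖ ≤ M * ε := by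
  have hadm : D.Adm ρ ξ := AdmN.adm hN hξ hρ
  have hb8 : Bd mu8 ρ ξ := Adm.bd8 hadm hρ
  have hbn : ∀ t, ‖ξ t‖ ≤ ρ := AdmN.norm_le hN hξ hρ
  have hM : 0 ≤ M := hρ.trans hρM
  rw [l11c_XL_muN W hN hξ.step (AdmN.bdN hN hξ hρ) h, XL_apply W hb8 h]
  have hint2 : Integrable (fun t => ξ t • W.U (node t) h) mu8 := XL_integrable W hb8 h
  have hmeas : AEStronglyMeasurable (fun t => W.U (node (cell N t)) h) mu8 := by
    have hc : Continuous fun t => W.U (node t) h := (W.cont h).comp node_cont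
    exact (hc.stronglyMeasurable.comp_measurable (cell_meas N)).aestronglyMeasurable
  have hint1 : Integrable (fun t => ξ t • W.U (node (cell N t)) h) mu8 := by
    refine Integrable.mono' (g := fun _ => ρ * ‖h‖) (integrable_const _)
      (hadm.meas.aestronglyMeasurable.smul hmeas) ?_
    refine Eventually.of_forall fun t => ?_
    rw [norm_smul, W.norm_U]
    exact mul_le_mul_of_nonneg_right (hbn t) (norm_nonneg _)
  rw [← integral_sub hint1 hint2]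
  have key : ∀ᵐ t ∂mu8, ‖ξ t • W.U (node (cell N t)) h - ξ t • W.U (node t) h‖ ≤ M * ε := by
    unfold mu8
    rw [ae_restrict_iff' measurableSet_Ico]
    refine Eventually.of_forall fun t ht => ?_
    rw [← smul_sub, norm_smul]
    exact mul_le_mul ((hbn t).trans hρM) (hu t ht) (norm_nonneg _) hM
  have h2 := norm_integral_le_of_norm_le_const key
  simpa using h2

theorem l11c_L1 {ξ η : ℝ → ℂ} (hm : Measurable ξ) (hm' : Measurable η) :
    ENNReal.ofReal (∫ t, ‖ξ t - η t‖ ∂mu8) ≤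
      (∫⁻ t in Set.Ico (0 : ℝ) 1, ‖ξ t - η t‖ₑ ^ 2) ^ (1 / 2 : ℝ) := by
  have h1 : ENNReal.ofReal (∫ t, ‖ξ t - η t‖ ∂mu8) ≤ ∫⁻ t, ‖ξ t - η t‖ₑ ∂mu8 := by
    have hms : AEStronglyMeasurable (fun t => ‖ξ t - η t‖) mu8 :=
      (hm.sub hm').norm.aestronglyMeasurable
    rw [integral_eq_lintegral_of_nonneg_ae (Eventually.of_forall fun t => norm_nonneg _) hms]
    refine ENNReal.ofReal_toReal_le.trans ?_
    apply lintegral_mono
    intro t
    simp only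
    rw [ofReal_norm_eq_enorm]
  refine h1.trans ?_
  have h2 := eLpNorm_le_eLpNorm_of_exponent_le (μ := mu8) (p := 1) (q := 2) (by norm_num)
    (f := fun t => ξ t - η t) (hm.sub hm').aestronglyMeasurable
  rw [eLpNorm_one_eq_lintegral_enorm] at h2
  refine h2.trans (le_of_eq ?_)
  rw [eLpNorm_eq_lintegral_rpow_enorm_toReal (by norm_num) (by norm_num)]
  unfold mu8
  norm_num

theorem l11c_L1_tendsto {ξ : ℕ → ℝ → ℂ} {ξ0 : ℝ → ℂ} (hm : ∀ j, Measurable (ξ j))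
    (hm0 : Measurable ξ0)
    (hs : Tendsto (fun j => ∫⁻ t in Set.Ico (0 : ℝ) 1, ‖ξ j t - ξ0 t‖ₑ ^ 2) atTop (𝓝 0)) :
    Tendsto (fun j => ∫ t, ‖ξ j t - ξ0 t‖ ∂mu8) atTop (𝓝 0) := by
  have h1 : Tendsto (fun j => (∫⁻ t in Set.Ico (0 : ℝ) 1, ‖ξ j t - ξ0 t‖ₑ ^ 2) ^ (1 / 2 : ℝ))
      atTop (𝓝 0) := by
    have := (ENNReal.continuous_rpow_const (y := (1 / 2 : ℝ))).tendsto 0
    rw [ENNReal.zero_rpow_of_pos (by norm_num)] at this
    exact this.comp hs
  have h2 : Tendsto (fun j => ENNReal.ofReal (∫ t, ‖ξ j t - ξ0 t‖ ∂mu8)) atTop (𝓝 0) :=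
    tendsto_of_tendsto_of_tendsto_of_le_of_le tendsto_const_nhds h1 (fun _ => zero_le)
      (fun j => l11c_L1 (hm j) hm0)
  have h3 := (ENNReal.continuousAt_toReal ENNReal.zero_ne_top).tendsto.comp h2
  simp only [ENNReal.toReal_zero] at h3
  refine h3.congr fun j => ?_
  simp only [Function.comp]
  exact ENNReal.toReal_ofReal (integral_nonneg fun t => norm_nonneg _)

/-- the action of convergent patterns on a fixed vector converges strongly -/
theorem AopN_strong (W : Weyl H) (D : Data) (N : ℕ → ℕ) (hN0 : ∀ j, 0 < N j)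
    (hN : Tendsto N atTop atTop) (γ : ℕ → Fin D.m → ℂ) (γ0 : Fin D.m → ℂ)
    (hγ : Tendsto γ atTop (𝓝 γ0)) (ρ : ℕ → ℝ) (M : ℝ) (hρ0 : ∀ j, 0 ≤ ρ j) (hρM : ∀ j, ρ j ≤ M)
    (ξ : ℕ → ℝ → ℂ) (ξ0 : ℝ → ℂ) (r : ℝ) (hξ : ∀ j, D.AdmN (N j) (ρ j) (ξ j)) (hξ0 : D.Adm r ξ0)
    (hs : Tendsto (fun j => ∫⁻ t in Set.Ico (0 : ℝ) 1, ‖ξ j t - ξ0 t‖ₑ ^ 2) atTop (𝓝 0)) (h : H) :
    Tendsto (fun j => Aop W D (muN (N j)) (γ j) (ξ j) h) atTop
      (𝓝 (Aop W D mu8 γ0 ξ0 h)) := by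
  have hM : 0 ≤ M := (hρ0 0).trans (hρM 0)
  have hadm : ∀ j, D.Adm (ρ j) (ξ j) := fun j => AdmN.adm (hN0 j) (hξ j) (hρ0 j)
  -- a nonnegative radius for the limit
  have hr : D.Adm |r| ξ0 := Adm.mono (le_abs_self r) hξ0
  have hb0 : Bd mu8 |r| ξ0 := Adm.bd8 hr (abs_nonneg r)
  have hbj : ∀ j, Bd mu8 (ρ j) (ξ j) := fun j => Adm.bd8 (hadm j) (hρ0 j)
  rw [tendsto_iff_norm_sub_tendsto_zero]
  -- the three error terms
  have e1 : Tendsto (fun j => (∑ i, ‖D.β i‖ * ‖γ j i - γ0 i‖) * ‖h‖) atTop (𝓝 0) := by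
    have : Tendsto (fun j => (∑ i, ‖D.β i‖ * ‖γ j i - γ0 i‖) * ‖h‖) atTop
        (𝓝 ((∑ i : Fin D.m, ‖D.β i‖ * ‖γ0 i - γ0 i‖) * ‖h‖)) := by
      refine Tendsto.mul_const _ (tendsto_finsetSum _ fun i _ => Tendsto.const_mul _ ?_)
      exact (((tendsto_pi_nhds.mp hγ) i).sub_const _).norm
    simpa using this
  have e3 : Tendsto (fun j => (∫ t, ‖ξ j t - ξ0 t‖ ∂mu8) * ‖h‖) atTop (𝓝 0) := by
    have := (l11c_L1_tendsto (fun j => (hadm j).meas) hξ0.meas hs).mul_const ‖h‖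
    simpa using this
  have e2 : Tendsto (fun j => ‖XL W (muN (N j)) (ξ j) h - XL W mu8 (ξ j) h‖) atTop (𝓝 0) := by
    rw [Metric.tendsto_atTop]
    intro ε hε
    obtain ⟨N0, _, hN0'⟩ := l11c_unif W h (ε / (2 * (M + 1))) (by positivity)
    obtain ⟨j0, hj0⟩ := (tendsto_atTop.mp hN N0).exists_forall_of_atTop
    refine ⟨j0, fun j hj => ?_⟩
    have hq := l11c_quad W D (hN0 j) (hρ0 j) (hρM j) (hξ j) h
      (fun t ht => hN0' (N j) (hj0 j hj) t ht)
    rw [dist_zero_right, norm_norm]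
    refine lt_of_le_of_lt hq ?_
    rw [mul_div_assoc']
    rw [div_lt_iff₀ (by positivity)]
    nlinarith
  have hsum := (e1.add e2).add e3
  simp only [add_zero] at hsum
  refine squeeze_zero (fun j => norm_nonneg _) (fun j => ?_) hsum
  have hsub : XL W mu8 (ξ j) h - XL W mu8 ξ0 h = XL W mu8 (fun t => ξ j t - ξ0 t) h := by
    rw [XL_sub W (hbj j) hb0]; rfl
  have hBdsub : Bd mu8 (ρ j + |r|) (fun t => ξ j t - ξ0 t) := by
    refine ⟨(hadm j).meas.sub hξ0.meas, ?_⟩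
    filter_upwards [(hbj j).bd, hb0.bd] with t h1 h2
    exact (norm_sub_le _ _).trans (add_le_add h1 h2)
  have hL1 := norm_XL_L1 W hBdsub h
  have hB : ‖Bop W D (γ j) h - Bop W D γ0 h‖ ≤ (∑ i, ‖D.β i‖ * ‖γ j i - γ0 i‖) * ‖h‖ := by
    have h1 : Bop W D (γ j) h - Bop W D γ0 h = (Bop W D (γ j) - Bop W D γ0) h := rfl
    rw [h1]
    exact ((Bop W D (γ j) - Bop W D γ0).le_opNorm h).trans
      (mul_le_mul_of_nonneg_right (norm_Bop_sub W D (γ j) γ0) (norm_nonneg _))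
  have hdec : Aop W D (muN (N j)) (γ j) (ξ j) h - Aop W D mu8 γ0 ξ0 h =
      (Bop W D (γ j) h - Bop W D γ0 h) + (XL W (muN (N j)) (ξ j) h - XL W mu8 (ξ j) h) +
        (XL W mu8 (ξ j) h - XL W mu8 ξ0 h) := by
    unfold Aop
    simp only [_root_.add_apply]
    abel
  rw [hdec]
  refine (norm_add_le _ _).trans (add_le_add ((norm_add_le _ _).trans (add_le_add hB le_rfl)) ?_)
  rw [hsub]
  exact hL1

end Pool.Agent.Helper84.HRT
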