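import Mathlib
import Pool.Agent.Helper84.HRT.DefsS
import Pool.Agent.Helper84.HRT.WA
import Pool.Agent.Helper84.HRT.WB
import Pool.Agent.Helper84.HRT.XB
import Pool.Agent.Helper84.HRT.XC
import Pool.Agent.Helper84.HRT.XD
import Pool.Agent.Helper84.HRT.L11F

open MeasureTheory Complex Filter
open scoped ENNReal NNReal ComplexConjugate InnerProductSpace BigOperators Topology

namespace Pool.Agent.Helper84.HRT

variable {H : Type} [NormedAddCommGroup H] [InnerProductSpace ℂ H] [CompleteSpace H]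

private theorem l20c_decay (W : Weyl H) (ψ : H) (τ : ℂ) {σ : ℝ} (hσ : 0 < σ)
    (h : S2 (fun z => Real.exp (σ * ‖z‖)) (W.V ψ) < ⊤) :
    S2 (fun z => Real.exp (σ * ‖z‖)) (W.V (W.U τ ψ)) < ⊤ := by
  set Φ : ℂ → ℝ≥0∞ := fun z => ‖((Real.exp (σ * ‖z - τ‖) : ℝ) : ℂ) * W.V ψ z‖ₑ ^ 2 with hΦ
  have h1 : S2 (fun z => Real.exp (σ * ‖z‖)) (W.V (W.U τ ψ)) = ∫⁻ z, Φ (z + τ) ∂dA := by
    unfold S2
    refine lintegral_congr fun z => ?_
    rw [hΦ]
    simp only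
    rw [add_sub_cancel_right, enorm_mul, enorm_mul]
    congr 2
    have h2 := norm_V_U W τ ψ z
    rw [← ofReal_norm, ← ofReal_norm, h2]
  have h2 : ∫⁻ z, Φ (z + τ) ∂dA = ∫⁻ z, Φ z ∂dA := by
    unfold dA
    rw [lintegral_smul_measure, lintegral_smul_measure, lintegral_add_right_eq_self]
  have h3 : ∫⁻ z, Φ z ∂dA ≤ ∫⁻ z, ‖((Real.exp (σ * ‖τ‖) : ℝ) : ℂ)‖ₑ ^ 2 *
      ‖((Real.exp (σ * ‖z‖) : ℝ) : ℂ) * W.V ψ z‖ₑ ^ 2 ∂dA := by
    refine lintegral_mono fun z => ?_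
    rw [hΦ]
    simp only
    rw [← mul_pow]
    gcongr
    rw [enorm_mul, enorm_mul, ← mul_assoc]
    gcongr
    rw [← enorm_mul, ← Complex.ofReal_mul, ← Real.exp_add]
    rw [← ofReal_norm, ← ofReal_norm, Complex.norm_real, Complex.norm_real, Real.norm_eq_abs,
      Real.norm_eq_abs, Real.abs_exp, Real.abs_exp]
    apply ENNReal.ofReal_le_ofReal
    apply Real.exp_le_exp.mpr
    have h4 := norm_sub_le z τ
    nlinarith
  rw [h1, h2]
  refine lt_of_le_of_lt h3 ?_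
  rw [lintegral_const_mul' _ _ (by simp)]
  exact ENNReal.mul_lt_top (by simp) h

/-- translation of an optimal triple (`tr_Aop8`, `tr_apply_U`, `XL_congr`, `mf_U`, `Adm.twx`) -/
theorem opt_shift {W : Weyl H} {D : Data} {F : Fam W D} {γ : Fin D.m → ℂ} {ξ : ℝ → ℂ} {ψ : H}
    (h : F.Opt γ ξ ψ) (τ : ℂ) (ξ' : ℝ → ℂ) (hm : Measurable ξ')
    (hξ' : ∀ᵐ t : ℝ, ξ' t = twx τ ξ t) : F.Opt (D.tw τ γ) ξ' (W.U τ ψ) := by
  have hmf0 : ∀ t, mf W (W.U τ ψ) t = 0 ↔ mf W ψ t = 0 := by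
    intro t
    rw [mf_U, mul_eq_zero]
    constructor
    · rintro (h1 | h1)
      · exfalso
        have h2 := chi_norm τ (node t)
        rw [h1, norm_zero] at h2
        exact zero_ne_one h2
      · exact h1
    · exact fun h1 => Or.inr h1
  have hadm := Adm.twx h.adm τ
  refine ⟨tw_mem h.γ_mem τ, ⟨hm, ?_, ?_⟩, ?_, ?_, ?_, ?_, ?_⟩
  · have h1 : ∀ᵐ t : ℝ, ξ' (t + 1 / 2) = twx τ ξ (t + 1 / 2) :=
      (measurePreserving_add_right volume (1 / 2 : ℝ)).quasiMeasurePreserving.ae hξ'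
    filter_upwards [h1, hξ', hadm.sym] with t h2 h3 h4
    rw [h2, h3, h4]
  · filter_upwards [hξ', hadm.bd] with t h2 h3
    rw [h2]
    exact h3
  · intro h0
    apply h.ne
    have h1 := W.norm_U τ ψ
    rw [h0, norm_zero] at h1
    exact norm_eq_zero.1 h1.symm
  · have h1 : Aop W D mu8 (D.tw τ γ) ξ' = Aop W D mu8 (D.tw τ γ) (twx τ ξ) := by
      unfold Aop
      have h2 : ξ' =ᵐ[mu8] twx τ ξ := ae_restrict_of_ae hξ'
      rw [XL_congr W h2]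
    rw [h1, ← tr_Aop8 W D (Adm.bd8 h.adm F.r_pos.le), tr_apply_U, h.null, map_zero]
  · obtain ⟨σ, hσ, hfin⟩ := h.decay
    exact ⟨σ, hσ, l20c_decay W ψ τ hσ hfin⟩
  · have h1 : {t : ℝ | mf W (W.U τ ψ) t = 0} = {t : ℝ | mf W ψ t = 0} := by
      ext t
      exact hmf0 t
    rw [h1]
    exact h.fin
  · filter_upwards [hξ', h.phase] with t h2 h3
    rw [h2, twx, h3, mf_U, norm_mul, chi_norm, one_mul, map_mul]
    ring

end Pool.Agent.Helper84.HRT
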