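import Mathlib
import Pool.Agent.Helper84.HRT.DefsA

open MeasureTheory Complex Filter
open scoped ENNReal ComplexConjugate InnerProductSpace BigOperators Topology

namespace Pool.Agent.Helper84.HRT

theorem ws1_L2 (ξ : ℕ → ℝ → ℂ) (M : ℝ) (hM0 : 0 ≤ M) (hmeas : ∀ j, Measurable (ξ j))
    (hM : ∀ j, ∀ᵐ t ∂(volume.restrict (Set.Ico (0:ℝ) (1/2))), ‖ξ j t‖ ≤ M) :
    ∃ φ : ℕ → ℕ, StrictMono φ ∧ ∃ η : ℝ → ℂ, Measurable η ∧
      MemLp η 2 (volume.restrict (Set.Ico (0:ℝ) (1/2))) ∧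
      ∀ h : ℝ → ℂ, MemLp h 2 (volume.restrict (Set.Ico (0:ℝ) (1/2))) →
      Tendsto (fun j => ∫ t, h t * ξ (φ j) t ∂(volume.restrict (Set.Ico (0:ℝ) (1/2)))) atTop
        (𝓝 (∫ t, h t * η t ∂(volume.restrict (Set.Ico (0:ℝ) (1/2))))) := by
  set ν : Measure ℝ := volume.restrict (Set.Ico (0:ℝ) (1/2)) with hν
  have hfin : IsFiniteMeasure ν := by
    rw [hν]; infer_instance
  have hfact : Fact ((2 : ℝ≥0∞) ≠ ⊤) := ⟨by norm_num⟩
  have hsep : TopologicalSpace.SeparableSpace (Lp ℂ 2 ν) := by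
    have : SecondCountableTopology (Lp ℂ 2 ν) := Lp.SecondCountableTopology
    infer_instance
  have hmem : ∀ j, MemLp (fun t => conj (ξ j t)) 2 ν := by
    intro j
    refine MemLp.of_bound ?_ M ?_
    · exact (Complex.continuous_conj.measurable.comp (hmeas j)).aestronglyMeasurable
    · filter_upwards [hM j] with t ht
      simpa using ht
  let f : ℕ → Lp ℂ 2 ν := fun j => (hmem j).toLp _
  have hnorm : ∀ j, ‖f j‖ ≤ (((ν Set.univ).toNNReal : ℝ) ^ ((2:ℝ)⁻¹)) * M := by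
    intro j
    have := Lp.norm_le_of_ae_bound (f := f j) (C := M) hM0 ?_
    · simpa [Measure.real, measureUnivNNReal] using this
    · filter_upwards [(hmem j).coeFn_toLp, hM j] with t h1 h2
      simp only [f]
      rw [h1]
      simpa using h2
  set B : ℝ := (((ν Set.univ).toNNReal : ℝ) ^ ((2:ℝ)⁻¹)) * M with hB
  let Λ : ℕ → WeakDual ℂ (Lp ℂ 2 ν) :=
    fun j => StrongDual.toWeakDual (InnerProductSpace.toDual ℂ (Lp ℂ 2 ν) (f j))
  have hΛ : ∀ j, Λ j ∈
      (WeakDual.toStrongDual ⁻¹' Metric.closedBall (0 : StrongDual ℂ (Lp ℂ 2 ν)) B) := by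
    intro j
    simp only [Set.mem_preimage, Metric.mem_closedBall, dist_zero_right]
    show ‖InnerProductSpace.toDual ℂ (Lp ℂ 2 ν) (f j)‖ ≤ B
    rw [LinearIsometryEquiv.norm_map]
    exact hnorm j
  obtain ⟨L, -, φ, hφ, hL⟩ := (WeakDual.isSeqCompact_closedBall ℂ (Lp ℂ 2 ν) 0 B) hΛ
  let g : Lp ℂ 2 ν := (InnerProductSpace.toDual ℂ (Lp ℂ 2 ν)).symm (WeakDual.toStrongDual L)
  have hg : MemLp (g : ℝ → ℂ) 2 ν := Lp.memLp g
  refine ⟨φ, hφ, fun t => conj ((g : ℝ → ℂ) t), ?_, ?_, ?_⟩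
  · exact Complex.continuous_conj.measurable.comp (Lp.stronglyMeasurable g).measurable
  · exact hg.star
  · intro h hh
    have h1 := (WeakDual.eval_continuous (𝕜 := ℂ) (hh.toLp h)).tendsto L |>.comp hL
    have e1 : ∀ j, (Λ j) (hh.toLp h) = ∫ t, h t * ξ j t ∂ν := by
      intro j
      show inner ℂ (f j) (hh.toLp h) = _
      rw [L2.inner_def]
      refine integral_congr_ae ?_
      filter_upwards [(hmem j).coeFn_toLp, hh.coeFn_toLp] with t h1 h2
      simp only [f]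
      rw [h1, h2]
      simp
    have e2 : L (hh.toLp h) = ∫ t, h t * conj ((g : ℝ → ℂ) t) ∂ν := by
      have : L (hh.toLp h) = inner ℂ g (hh.toLp h) := by
        simp only [g]
        rw [InnerProductSpace.toDual_symm_apply]
        rfl
      rw [this, L2.inner_def]
      refine integral_congr_ae ?_
      filter_upwards [hh.coeFn_toLp] with t h2
      rw [h2]
      simp
    rw [← e2]
    refine h1.congr ?_
    intro j
    exact e1 (φ j)

theorem ws1_bound (ξ : ℕ → ℝ → ℂ) (κ : ℝ → ℝ) (hκm : Measurable κ) (hκ0 : ∀ t, 0 ≤ κ t)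
    (hκ1 : ∀ t, κ t ≤ 1) (ρ : ℕ → ℝ) (r : ℝ) (hρ : Tendsto ρ atTop (𝓝 r))
    (hmeas : ∀ j, Measurable (ξ j)) (η : ℝ → ℂ) (hη : Measurable η)
    (hη2 : MemLp η 2 (volume.restrict (Set.Ico (0:ℝ) (1/2))))
    (hbd : ∀ j, ∀ᵐ t ∂(volume.restrict (Set.Ico (0:ℝ) (1/2))), ‖ξ j t‖ ≤ ρ j * κ t)
    (hw : ∀ h : ℝ → ℂ, MemLp h 2 (volume.restrict (Set.Ico (0:ℝ) (1/2))) →
      Tendsto (fun j => ∫ t, h t * ξ j t ∂(volume.restrict (Set.Ico (0:ℝ) (1/2)))) atTop
        (𝓝 (∫ t, h t * η t ∂(volume.restrict (Set.Ico (0:ℝ) (1/2)))))) :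
    ∀ᵐ t ∂(volume.restrict (Set.Ico (0:ℝ) (1/2))), ‖η t‖ ≤ r * κ t := by
  set ν : Measure ℝ := volume.restrict (Set.Ico (0:ℝ) (1/2)) with hν
  have hfin : IsFiniteMeasure ν := by
    rw [hν]; infer_instance
  have hηi : Integrable η ν := hη2.integrable (by norm_num)
  have hκi : Integrable κ ν := by
    refine Integrable.of_bound hκm.aestronglyMeasurable 1 ?_
    filter_upwards with t
    rw [Real.norm_eq_abs, abs_of_nonneg (hκ0 t)]
    exact hκ1 t
  refine ae_le_of_forall_setIntegral_le hηi.norm (hκi.const_mul r) ?_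
  intro s hs _
  let h : ℝ → ℂ := s.indicator fun t => conj (η t) / ((‖η t‖ : ℝ) : ℂ)
  have hhm : Measurable h := by
    refine Measurable.indicator ?_ hs
    exact (Complex.continuous_conj.measurable.comp hη).div
      (Complex.measurable_ofReal.comp hη.norm)
  have hhb : ∀ t, ‖h t‖ ≤ s.indicator (fun _ => (1:ℝ)) t := by
    intro t
    simp only [h]
    by_cases hts : t ∈ s
    · rw [Set.indicator_of_mem hts, Set.indicator_of_mem hts]
      rw [norm_div, RCLike.norm_conj, Complex.norm_real, norm_norm]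
      exact div_self_le_one _
    · rw [Set.indicator_of_notMem hts, Set.indicator_of_notMem hts]
      simp
  have hhb1 : ∀ t, ‖h t‖ ≤ 1 := by
    intro t
    refine (hhb t).trans ?_
    exact Set.indicator_le_self' (fun _ _ => zero_le_one) t
  have hh2 : MemLp h 2 ν := MemLp.of_bound hhm.aestronglyMeasurable 1 (by
    filter_upwards with t using hhb1 t)
  have hlim := (hw h hh2).norm
  have e1 : ‖∫ t, h t * η t ∂ν‖ = ∫ t in s, ‖η t‖ ∂ν := by
    have : ∫ t, h t * η t ∂ν = ((∫ t in s, ‖η t‖ ∂ν : ℝ) : ℂ) := by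
      rw [← integral_complex_ofReal, ← integral_indicator hs]
      refine integral_congr_ae ?_
      filter_upwards with t
      simp only [h]
      by_cases hts : t ∈ s
      · rw [Set.indicator_of_mem hts, Set.indicator_of_mem hts]
        by_cases h0 : η t = 0
        · simp [h0]
        · have hn : ((‖η t‖ : ℝ) : ℂ) ≠ 0 := by
            simpa using h0
          rw [div_mul_eq_mul_div, div_eq_iff hn]
          rw [mul_comm, Complex.mul_conj, Complex.normSq_eq_norm_sq]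
          push_cast
          ring
      · rw [Set.indicator_of_notMem hts, Set.indicator_of_notMem hts]
        simp
    rw [this, Complex.norm_real, Real.norm_eq_abs, abs_of_nonneg]
    exact integral_nonneg fun t => norm_nonneg _
  rw [e1] at hlim
  have hlim2 : Tendsto (fun j => ρ j * ∫ t in s, κ t ∂ν) atTop (𝓝 (r * ∫ t in s, κ t ∂ν)) :=
    hρ.mul_const _
  have hle : ∀ j, ‖∫ t, h t * ξ j t ∂ν‖ ≤ ρ j * ∫ t in s, κ t ∂ν := by
    intro j
    rw [← integral_const_mul, ← integral_indicator hs]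
    refine norm_integral_le_of_norm_le ?_ ?_
    · exact (hκi.const_mul (ρ j)).indicator hs
    · filter_upwards [hbd j] with t ht
      by_cases hts : t ∈ s
      · rw [Set.indicator_of_mem hts, norm_mul]
        calc ‖h t‖ * ‖ξ j t‖ ≤ 1 * ‖ξ j t‖ :=
              mul_le_mul_of_nonneg_right (hhb1 t) (norm_nonneg _)
          _ ≤ ρ j * κ t := by rw [one_mul]; exact ht
      · rw [Set.indicator_of_notMem hts]
        have : h t = 0 := by simp only [h]; rw [Set.indicator_of_notMem hts]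
        simp [this]
  have := le_of_tendsto_of_tendsto' hlim hlim2 hle
  rw [integral_const_mul]
  exact this

theorem ws1_L1 (ξ : ℕ → ℝ → ℂ) (M : ℝ) (hM0 : 0 ≤ M) (hmeas : ∀ j, Measurable (ξ j))
    (η : ℝ → ℂ) (hη : Measurable η)
    (hM : ∀ j, ∀ᵐ t ∂(volume.restrict (Set.Ico (0:ℝ) (1/2))), ‖ξ j t‖ ≤ M)
    (hMη : ∀ᵐ t ∂(volume.restrict (Set.Ico (0:ℝ) (1/2))), ‖η t‖ ≤ M)
    (hw : ∀ h : ℝ → ℂ, MemLp h 2 (volume.restrict (Set.Ico (0:ℝ) (1/2))) →
      Tendsto (fun j => ∫ t, h t * ξ j t ∂(volume.restrict (Set.Ico (0:ℝ) (1/2)))) atTop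
        (𝓝 (∫ t, h t * η t ∂(volume.restrict (Set.Ico (0:ℝ) (1/2))))))
    (h : ℝ → ℂ) (hh : Integrable h (volume.restrict (Set.Ico (0:ℝ) (1/2)))) :
      Tendsto (fun j => ∫ t, h t * ξ j t ∂(volume.restrict (Set.Ico (0:ℝ) (1/2)))) atTop
        (𝓝 (∫ t, h t * η t ∂(volume.restrict (Set.Ico (0:ℝ) (1/2))))) := by
  set ν : Measure ℝ := volume.restrict (Set.Ico (0:ℝ) (1/2)) with hν
  have hfin : IsFiniteMeasure ν := by
    rw [hν]; infer_instance
  rw [Metric.tendsto_atTop]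
  intro ε hε
  set δ : ℝ := ε / (4 * (M + 1)) with hδ
  have hδ0 : 0 < δ := by positivity
  obtain ⟨g, hg1, hg2⟩ := (memLp_one_iff_integrable.mpr hh).exists_simpleFunc_eLpNorm_sub_lt
    (by norm_num) (ε := ENNReal.ofReal δ) (by simpa using hδ0)
  have hg3 : MemLp (g : ℝ → ℂ) 2 ν := SimpleFunc.memLp_of_isFiniteMeasure g 2 ν
  have hgi : Integrable (g : ℝ → ℂ) ν := memLp_one_iff_integrable.mp hg2
  have hsub : Integrable (fun t => h t - g t) ν := hh.sub hgi
  have hI : ∫ t, ‖h t - g t‖ ∂ν < δ := by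
    have h1 : ENNReal.ofReal (∫ t, ‖h t - g t‖ ∂ν) = eLpNorm (h - ⇑g) 1 ν := by
      rw [eLpNorm_one_eq_lintegral_enorm]
      rw [ofReal_integral_norm_eq_lintegral_enorm hsub]
      rfl
    rw [← h1] at hg1
    exact (ENNReal.ofReal_lt_ofReal_iff hδ0).mp hg1
  have key : ∀ ζ : ℝ → ℂ, Measurable ζ → (∀ᵐ t ∂ν, ‖ζ t‖ ≤ M) →
      ‖(∫ t, h t * ζ t ∂ν) - ∫ t, g t * ζ t ∂ν‖ ≤ M * δ := by
    intro ζ hζ hζM
    have hi1 : Integrable (fun t => h t * ζ t) ν := hh.mul_bdd hζ.aestronglyMeasurable hζM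
    have hi2 : Integrable (fun t => g t * ζ t) ν := hgi.mul_bdd hζ.aestronglyMeasurable hζM
    rw [← integral_sub hi1 hi2]
    calc ‖∫ t, (h t * ζ t - g t * ζ t) ∂ν‖ ≤ ∫ t, M * ‖h t - g t‖ ∂ν := by
          refine norm_integral_le_of_norm_le (hsub.norm.const_mul M) ?_
          filter_upwards [hζM] with t ht
          rw [← sub_mul, norm_mul, mul_comm]
          exact mul_le_mul_of_nonneg_right ht (norm_nonneg _)
      _ = M * ∫ t, ‖h t - g t‖ ∂ν := integral_const_mul _ _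
      _ ≤ M * δ := mul_le_mul_of_nonneg_left hI.le hM0
  obtain ⟨J, hJ⟩ := (Metric.tendsto_atTop.mp (hw g hg3)) (ε / 2) (by positivity)
  refine ⟨J, fun j hj => ?_⟩
  have k1 := key (ξ j) (hmeas j) (hM j)
  have k2 := key η hη hMη
  have k3 := hJ j hj
  rw [dist_eq_norm] at k3 ⊢
  have hMδ : M * δ ≤ ε / 4 := by
    rw [hδ]
    rw [mul_div_assoc', div_le_div_iff₀ (by positivity) (by positivity)]
    nlinarith
  calc ‖(∫ t, h t * ξ j t ∂ν) - ∫ t, h t * η t ∂ν‖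
      = ‖((∫ t, h t * ξ j t ∂ν) - ∫ t, g t * ξ j t ∂ν) + ((∫ t, g t * ξ j t ∂ν) -
          ∫ t, g t * η t ∂ν) - ((∫ t, h t * η t ∂ν) - ∫ t, g t * η t ∂ν)‖ := by
        congr 1; ring
    _ ≤ ‖(∫ t, h t * ξ j t ∂ν) - ∫ t, g t * ξ j t ∂ν‖ + ‖(∫ t, g t * ξ j t ∂ν) -
          ∫ t, g t * η t ∂ν‖ + ‖(∫ t, h t * η t ∂ν) - ∫ t, g t * η t ∂ν‖ := by
        refine (norm_sub_le _ _).trans ?_
        gcongr
        exact norm_add_le _ _
    _ < ε := by linarith

/-- splitting of the integral over a period -/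
theorem ws1_split (F : ℝ → ℂ) (hF : Integrable F mu8) :
    ∫ t, F t ∂mu8 = (∫ t, F t ∂(volume.restrict (Set.Ico (0:ℝ) (1/2)))) +
      ∫ t, F (t + 1/2) ∂(volume.restrict (Set.Ico (0:ℝ) (1/2))) := by
  have hU : Set.Ico (0:ℝ) 1 = Set.Ico 0 (1/2) ∪ Set.Ico (1/2) 1 := by
    rw [Set.Ico_union_Ico_eq_Ico] <;> norm_num
  have hd : Disjoint (Set.Ico (0:ℝ) (1/2)) (Set.Ico (1/2) 1) := by
    rw [Set.disjoint_left]
    intro t h1 h2
    exact absurd h1.2 (not_lt.mpr h2.1)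
  have hF' : IntegrableOn F (Set.Ico 0 1) volume := hF
  rw [hU] at hF'
  unfold mu8
  rw [hU, setIntegral_union hd measurableSet_Ico hF'.left_of_union hF'.right_of_union]
  congr 1
  have hmp : MeasurePreserving (fun t : ℝ => t + 1/2) volume volume :=
    measurePreserving_add_right volume (1/2)
  have hme : MeasurableEmbedding (fun t : ℝ => t + 1/2) :=
    (MeasurableEquiv.addRight (1/2 : ℝ)).measurableEmbedding
  have := hmp.setIntegral_preimage_emb hme F (Set.Ico (1/2) 1)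
  rw [← this]
  congr 2
  ext t
  simp only [Set.mem_preimage, Set.mem_Ico]
  constructor <;> rintro ⟨h1, h2⟩ <;> constructor <;> linarith

/-- weak-* compactness of admissible coefficient functions -/
theorem weakstar (D : Data) (ξ : ℕ → ℝ → ℂ) (ρ : ℕ → ℝ) (r : ℝ) (hρ0 : ∀ j, 0 ≤ ρ j)
    (hξ : ∀ j, D.Adm (ρ j) (ξ j)) (hρ : Tendsto ρ atTop (𝓝 r)) :
    ∃ φ : ℕ → ℕ, StrictMono φ ∧ ∃ ξ0 : ℝ → ℂ, D.Adm r ξ0 ∧ ∀ h : ℝ → ℂ, Integrable h mu8 →
      Tendsto (fun j => ∫ t, h t * ξ (φ j) t ∂mu8) atTop (𝓝 (∫ t, h t * ξ0 t ∂mu8)) := by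
  have hr0 : 0 ≤ r := ge_of_tendsto' hρ hρ0
  obtain ⟨M, hM⟩ := hρ.bddAbove_range
  have hM' : ∀ j, ρ j ≤ M := fun j => hM ⟨j, rfl⟩
  have hM0 : 0 ≤ M := (hρ0 0).trans (hM' 0)
  have hrM : r ≤ M := le_of_tendsto' hρ hM'
  have hmeas : ∀ j, Measurable (ξ j) := fun j => (hξ j).meas
  have hbd : ∀ j, ∀ᵐ t ∂(volume.restrict (Set.Ico (0:ℝ) (1/2))), ‖ξ j t‖ ≤ ρ j * D.κ t :=
    fun j => ae_restrict_of_ae (hξ j).bd
  have hbM : ∀ j, ∀ᵐ t ∂(volume.restrict (Set.Ico (0:ℝ) (1/2))), ‖ξ j t‖ ≤ M := by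
    intro j
    filter_upwards [hbd j] with t ht
    refine ht.trans ?_
    calc ρ j * D.κ t ≤ ρ j * 1 := mul_le_mul_of_nonneg_left (D.κ_le t) (hρ0 j)
      _ ≤ M := by rw [mul_one]; exact hM' j
  obtain ⟨φ, hφ, η, hη, hη2, hw⟩ := ws1_L2 ξ M hM0 hmeas hbM
  have hηb := ws1_bound (fun j => ξ (φ j)) D.κ D.κ_meas D.κ_nonneg D.κ_le (fun j => ρ (φ j)) r
    (hρ.comp hφ.tendsto_atTop) (fun j => hmeas _) η hη hη2 (fun j => hbd _) hw
  -- a representative with the bound everywhere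
  let S : Set ℝ := {t | ‖η t‖ ≤ r * D.κ t}
  have hS : MeasurableSet S := measurableSet_le hη.norm (D.κ_meas.const_mul r)
  let η' : ℝ → ℂ := S.indicator η
  have hη' : Measurable η' := hη.indicator hS
  have hη'b : ∀ t, ‖η' t‖ ≤ r * D.κ t := by
    intro t
    simp only [η']
    by_cases ht : t ∈ S
    · rw [Set.indicator_of_mem ht]; exact ht
    · rw [Set.indicator_of_notMem ht, norm_zero]; exact mul_nonneg hr0 (D.κ_nonneg t)
  have hηη' : ∀ᵐ t ∂(volume.restrict (Set.Ico (0:ℝ) (1/2))), η t = η' t := by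
    filter_upwards [hηb] with t ht
    have : t ∈ S := ht
    simp only [η']
    rw [Set.indicator_of_mem this]
  have hw' : ∀ h : ℝ → ℂ, MemLp h 2 (volume.restrict (Set.Ico (0:ℝ) (1/2))) →
      Tendsto (fun j => ∫ t, h t * ξ (φ j) t ∂(volume.restrict (Set.Ico (0:ℝ) (1/2)))) atTop
        (𝓝 (∫ t, h t * η' t ∂(volume.restrict (Set.Ico (0:ℝ) (1/2))))) := by
    intro h hh
    have e : ∫ t, h t * η' t ∂(volume.restrict (Set.Ico (0:ℝ) (1/2))) =
        ∫ t, h t * η t ∂(volume.restrict (Set.Ico (0:ℝ) (1/2))) := by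
      refine integral_congr_ae ?_
      filter_upwards [hηη'] with t ht
      rw [ht]
    rw [e]
    exact hw h hh
  have hη'M : ∀ t, ‖η' t‖ ≤ M := by
    intro t
    refine (hη'b t).trans ?_
    calc r * D.κ t ≤ r * 1 := mul_le_mul_of_nonneg_left (D.κ_le t) hr0
      _ ≤ M := by rw [mul_one]; exact hrM
  have hL1 := ws1_L1 (fun j => ξ (φ j)) M hM0 (fun j => hmeas _) η' hη' (fun j => hbM _)
    (by filter_upwards with t using hη'M t) hw'
  -- the extension
  let ξ0 : ℝ → ℂ := fun t => if Even ⌊2 * t⌋ then η' (t - (⌊2 * t⌋ : ℝ) / 2) else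
    conj (η' (t - (⌊2 * t⌋ : ℝ) / 2))
  have hper : Function.Periodic D.κ (1/2) := D.κ_per
  have hκ : ∀ t : ℝ, D.κ (t - (⌊2 * t⌋ : ℝ) / 2) = D.κ t := by
    intro t
    have := hper.sub_int_mul_eq (x := t) ⌊2 * t⌋
    rw [← this]
    congr 1
    ring
  have hfl : ∀ t : ℝ, ⌊2 * (t + 1/2)⌋ = ⌊2 * t⌋ + 1 := by
    intro t
    have : 2 * (t + 1/2) = 2 * t + 1 := by ring
    rw [this, Int.floor_add_one]
  have hsym : ∀ t, ξ0 (t + 1/2) = conj (ξ0 t) := by
    intro t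
    simp only [ξ0]
    rw [hfl t]
    have e1 : t + 1/2 - (((⌊2 * t⌋ + 1 : ℤ)) : ℝ) / 2 = t - (⌊2 * t⌋ : ℝ) / 2 := by
      push_cast; ring
    rw [e1]
    by_cases he : Even ⌊2 * t⌋
    · have ho : ¬ Even (⌊2 * t⌋ + 1) := by
        rw [Int.even_add_one]; simpa using he
      rw [if_pos he, if_neg ho]
    · have ho : Even (⌊2 * t⌋ + 1) := by
        rw [Int.even_add_one]; exact he
      rw [if_neg he, if_pos ho]
      simp
  have hmξ0 : Measurable ξ0 := by
    have hfloor : Measurable fun t : ℝ => ⌊2 * t⌋ := (measurable_const_mul 2).floor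
    have harg : Measurable fun t : ℝ => t - (⌊2 * t⌋ : ℝ) / 2 :=
      measurable_id.sub ((measurable_from_top.comp hfloor).div_const 2)
    refine Measurable.ite ?_ (hη'.comp harg)
      (Complex.continuous_conj.measurable.comp (hη'.comp harg))
    exact hfloor (MeasurableSet.of_discrete (s := {n : ℤ | Even n}))
  have hbξ0 : ∀ t, ‖ξ0 t‖ ≤ r * D.κ t := by
    intro t
    rw [← hκ t]
    simp only [ξ0]
    split_ifs
    · exact hη'b _
    · rw [RCLike.norm_conj]; exact hη'b _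
  have h0 : ∀ t ∈ Set.Ico (0:ℝ) (1/2), ξ0 t = η' t := by
    intro t ht
    have : ⌊2 * t⌋ = 0 := by
      rw [Int.floor_eq_iff]
      constructor
      · have := ht.1; push_cast; linarith
      · have := ht.2; push_cast; linarith
    simp only [ξ0]
    rw [this]
    simp
  refine ⟨φ, hφ, ξ0, ⟨hmξ0, by filter_upwards with t using hsym t,
    by filter_upwards with t using hbξ0 t⟩, ?_⟩
  intro h hh
  have hhI : IntegrableOn h (Set.Ico 0 1) volume := hh
  have hh1 : Integrable h (volume.restrict (Set.Ico (0:ℝ) (1/2))) :=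
    hhI.mono_set (Set.Ico_subset_Ico_right (by norm_num))
  have hh2 : Integrable (fun t => h (t + 1/2)) (volume.restrict (Set.Ico (0:ℝ) (1/2))) := by
    have hmp : MeasurePreserving (fun t : ℝ => t + 1/2) volume volume :=
      measurePreserving_add_right volume (1/2)
    have hme : MeasurableEmbedding (fun t : ℝ => t + 1/2) :=
      (MeasurableEquiv.addRight (1/2 : ℝ)).measurableEmbedding
    have h3 : IntegrableOn h (Set.Ico (1/2) 1) volume :=
      hhI.mono_set (Set.Ico_subset_Ico_left (by norm_num))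
    have h4 := (hmp.integrableOn_comp_preimage hme).mpr h3
    have h5 : (fun t : ℝ => t + 1/2) ⁻¹' (Set.Ico (1/2) 1) = Set.Ico 0 (1/2) := by
      ext t
      simp only [Set.mem_preimage, Set.mem_Ico]
      constructor <;> rintro ⟨h1, h2⟩ <;> constructor <;> linarith
    rw [h5] at h4
    exact h4
  have hconj : ∀ (F G : ℝ → ℂ), ∫ t, F t * conj (G t) ∂(volume.restrict (Set.Ico (0:ℝ) (1/2))) =
      conj (∫ t, conj (F t) * G t ∂(volume.restrict (Set.Ico (0:ℝ) (1/2)))) := by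
    intro F G
    rw [← integral_conj]
    congr 1
    ext t
    simp
  -- splitting
  have hsp : ∀ ζ : ℝ → ℂ, Measurable ζ → (∀ᵐ t : ℝ, ζ (t + 1/2) = conj (ζ t)) →
      (∀ᵐ t : ℝ, ‖ζ t‖ ≤ M) →
      ∫ t, h t * ζ t ∂mu8 = (∫ t, h t * ζ t ∂(volume.restrict (Set.Ico (0:ℝ) (1/2)))) +
        conj (∫ t, conj (h (t + 1/2)) * ζ t ∂(volume.restrict (Set.Ico (0:ℝ) (1/2)))) := by
    intro ζ hζ hζs hζM
    have hi : Integrable (fun t => h t * ζ t) mu8 :=
      hh.mul_bdd hζ.aestronglyMeasurable (ae_restrict_of_ae hζM)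
    rw [ws1_split _ hi, ← hconj]
    congr 1
    refine integral_congr_ae ?_
    filter_upwards [ae_restrict_of_ae (s := Set.Ico (0:ℝ) (1/2)) hζs] with t ht
    rw [ht]
  have hbM2 : ∀ j, ∀ᵐ t : ℝ, ‖ξ j t‖ ≤ M := by
    intro j
    filter_upwards [(hξ j).bd] with t ht
    refine ht.trans ?_
    calc ρ j * D.κ t ≤ ρ j * 1 := mul_le_mul_of_nonneg_left (D.κ_le t) (hρ0 j)
      _ ≤ M := by rw [mul_one]; exact hM' j
  have hbξ0M : ∀ᵐ t : ℝ, ‖ξ0 t‖ ≤ M := by
    filter_upwards with t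
    refine (hbξ0 t).trans ?_
    calc r * D.κ t ≤ r * 1 := mul_le_mul_of_nonneg_left (D.κ_le t) hr0
      _ ≤ M := by rw [mul_one]; exact hrM
  have hint : ∀ F : ℝ → ℂ, ∫ t, F t * ξ0 t ∂(volume.restrict (Set.Ico (0:ℝ) (1/2))) =
      ∫ t, F t * η' t ∂(volume.restrict (Set.Ico (0:ℝ) (1/2))) := by
    intro F
    refine setIntegral_congr_fun measurableSet_Ico ?_
    intro t ht
    simp only
    rw [h0 t ht]
  rw [hsp ξ0 hmξ0 (by filter_upwards with t using hsym t) hbξ0M, hint, hint]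
  have hgoal := (hL1 h hh1).add
    ((Complex.continuous_conj.tendsto _).comp (hL1 (fun t => conj (h (t + 1/2))) (by
      exact (Complex.conjLIE.integrable_comp_iff).mpr hh2)))
  refine hgoal.congr ?_
  intro j
  exact (hsp (ξ (φ j)) (hmeas _) (hξ _).sym (hbM2 _)).symm

end Pool.Agent.Helper84.HRT
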